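import Pool.Agent.GH.Defs

/-!
# Ghost conjecture `(2,1)`: further definitions used in the proof

`theta`, `psi2`, `hser` (the function `h = (η(4z)/η(z))^8`), complex powers, the matrices
`Mmat x`, `Modd x` of `U_2`, the evaluation `ev w : ℤ_2[[W]] → ℂ_2`, the Eisenstein series of
classical weight and the parametrisation `w = 25^x - 1`.
-/

open PowerSeries Filter Topology

noncomputable section

namespace GH

/-- `θ(q) = ∑_{n ∈ ℤ} (-1)^n q^{n^2}`. -/
def theta (R : Type*) [CommRing R] : PowerSeries R :=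
  PowerSeries.mk fun n ↦ if n = 0 then 1 else if IsSquare n then 2 * (-1) ^ n else 0

open Classical in
/-- `ψ(q²) = ∑_{m ≥ 0} q^{m(m+1)}`. -/
def psi2 (R : Type*) [CommRing R] : PowerSeries R :=
  PowerSeries.mk fun n ↦ if ∃ m : ℕ, n = m * (m + 1) then 1 else 0

/-- `h = q ψ(q²)^4 / θ^4`. -/
def hser (R : Type*) [CommRing R] : PowerSeries R :=
  X * psi2 R ^ 4 * invOfUnit (theta R ^ 4) 1

/-- `(1 + T)^s = ∑ s(s-1)⋯(s-n+1)/n! T^n`. -/
def binS {K : Type*} [Field K] (s : K) : PowerSeries K :=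
  PowerSeries.mk fun n ↦ (∏ i ∈ Finset.range n, (s - i)) / (n.factorial : K)

/-- `u^s` for a power series `u` with constant term `1`. -/
def ppow {K : Type*} [Field K] (u : PowerSeries K) (s : K) : PowerSeries K :=
  (binS s).subst (u - 1)

/-- `θ^{4x} = (θ^8)^{x/2}`, a form of weight `2x`. -/
def thetaPow {K : Type*} [Field K] (x : K) : PowerSeries K := ppow (theta K ^ 8) (x / 2)

/-- The matrix of `U_2` in the basis `θ^{4x} f^j`:
`[T^{2i-j}] (1 + 8T) (1 + 16T)^{i+j-1-x/2}`. -/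
def Mmat {K : Type*} [Field K] (x : K) (i j : ℕ) : K :=
  if j ≤ 2 * i then
    PowerSeries.coeff (2 * i - j)
      ((1 + C (8 : K) * X) * rescale (16 : K) (binS ((i : K) + j - 1 - x / 2)))
  else 0

/-- The matrix of `U_2` in the basis `θ^{4x} (1+64f)^{1/2} f^j`:
`[T^{2i-j}] (1 + 32T) (1 + 16T)^{i+j-1/2-x/2}`. -/
def Modd {K : Type*} [Field K] (x : K) (i j : ℕ) : K :=
  if j ≤ 2 * i then
    PowerSeries.coeff (2 * i - j)
      ((1 + C (32 : K) * X) * rescale (16 : K) (binS ((i : K) + j - 1 / 2 - x / 2)))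
  else 0

/-- The coefficients of `(1+64T)^{1/2}`. -/
def vv {K : Type*} [Field K] (n : ℕ) : K :=
  PowerSeries.coeff n (rescale (64 : K) (binS (1 / 2 : K)))

/-- The field `ℂ_2`. -/
abbrev C2 : Type := PadicComplex 2

/-- The Iwasawa algebra `ℤ_2[[W]]`. -/
abbrev Lam : Type := PowerSeries ℤ_[2]

/-- The inclusion `ℤ_2 → ℂ_2`. -/
def iota : ℤ_[2] →+* C2 := (algebraMap ℚ_[2] C2).comp PadicInt.Coe.ringHom

/-- The evaluation of a power series over `ℤ_2` at `w`, `‖w‖ < 1`. -/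
def ev (w : C2) (F : Lam) : C2 := ∑' n : ℕ, iota (PowerSeries.coeff n F) * w ^ n

/-- The coefficientwise evaluation of a power series over `ℤ_2[[W]]`. -/
def evS (w : C2) (F : PowerSeries Lam) : PowerSeries C2 :=
  PowerSeries.mk fun n ↦ ev w (PowerSeries.coeff n F)

/-- `w(x) = 25^x - 1 = ∑_{n ≥ 1} binom(x, n) 24^n`. -/
def wx (x : C2) : C2 := ∑' n : ℕ, PowerSeries.coeff (n + 1) (binS x) * 24 ^ (n + 1)

/-- The level one Eisenstein series `E_k = 1 - (2k/B_k) ∑ σ_{k-1}(n) q^n` over `ℚ`. -/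
def eisQ (k : ℕ) : PowerSeries ℚ :=
  1 + PowerSeries.mk fun n ↦ -(2 * k / bernoulli k) * (ArithmeticFunction.sigma (k - 1) n : ℚ)

/-- The 2-stabilised Eisenstein series
`1 - 2k/((1-2^(k-1)) B_k) ∑ (∑_{d ∣ n, d odd} d^(k-1)) q^n` over `ℚ`. -/
def eisStab (k : ℕ) : PowerSeries ℚ :=
  1 + PowerSeries.mk fun n ↦ -(2 * k / ((1 - 2 ^ (k - 1)) * bernoulli k)) *
    ∑ d ∈ n.divisors, if Odd d then (d : ℚ) ^ (k - 1) else 0

/-- Uniform limits of polynomials on the closed unit ball. -/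
def IsTate {K : Type*} [NormedField K] (φ : K → K) : Prop :=
  ∀ ε > 0, ∃ P : Polynomial K, ∀ x : K, ‖x‖ ≤ 1 → ‖φ x - P.eval x‖ ≤ ε

end GH
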