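import Pool.Agent.GH.Base

open PowerSeries Filter Topology

noncomputable section

namespace GH

/-! The 2-adic zeta integral as an element of `2 ℤ_2[[W]]ˣ`. -/

/-- The properties of the family `kap` of `ZChar`. -/
structure KapFam (kap : ℕ → Lam) : Prop where
  val : ∀ a, Odd a → ∀ κ : Weight 2, κ.IsEven → κ.val a = ev κ.w (kap a)
  even : ∀ a, ¬ Odd a → kap a = 0
  c0 : ∀ a, Odd a → PowerSeries.coeff 0 (kap a) = 1
  five : kap 5 = 1 + X
  one : kap 1 = 1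
  mul : ∀ a b, Odd a → Odd b → kap (a * b) = kap a * kap b
  cont : ∀ (m n : ℕ), ∃ N : ℕ, ∀ a b : ℕ, Odd a → Odd b → a ≡ b [MOD 2 ^ N] →
      ∀ j ≤ m, ‖PowerSeries.coeff j (kap a) - PowerSeries.coeff j (kap b)‖ ≤ (2 : ℝ)⁻¹ ^ n
  neg : ∀ (m n : ℕ), ∃ N : ℕ, ∀ a b : ℕ, Odd a → Odd b → 2 ^ N ∣ a + b →
      ∀ j ≤ m, ‖PowerSeries.coeff j (kap a) - PowerSeries.coeff j (kap b)‖ ≤ (2 : ℝ)⁻¹ ^ n
  wlt : ∀ κ : Weight 2, κ.IsEven → ‖κ.w‖ < 1
  nval : ∀ (κ : Weight 2) (a : ℕ), ¬ Odd a → κ.val a = 0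

/-! ### the measure -/

/-- `⌊5a/2^n⌋ - 2` -/
def zi_m (n a : ℕ) : ℤ := ((5 * a / 2 ^ n : ℕ) : ℤ) - 2

theorem zi_m_dist (n a : ℕ) : zi_m (n + 1) a + zi_m (n + 1) (2 ^ n + a) = zi_m n a := by
  unfold zi_m
  have h1 : 5 * a / 2 ^ (n + 1) = 5 * a / 2 ^ n / 2 := by
    rw [pow_succ, Nat.div_div_eq_div_mul]
  have h2 : 5 * (2 ^ n + a) / 2 ^ (n + 1) = (5 * a / 2 ^ n + 5) / 2 := by
    rw [pow_succ, ← Nat.div_div_eq_div_mul]
    congr 1
    have : 5 * (2 ^ n + a) = 5 * a + 5 * 2 ^ n := by ring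
    rw [this, Nat.add_mul_div_right _ _ (by positivity)]
  rw [h1, h2]
  generalize 5 * a / 2 ^ n = q
  omega

theorem zi_m_neg (n a : ℕ) (hn : 1 ≤ n) (ha : Odd a) (h : a < 2 ^ n) :
    zi_m n (2 ^ n - a) = - zi_m n a := by
  have hP : 0 < 2 ^ n := by positivity
  obtain ⟨b, hb⟩ := Nat.exists_eq_add_of_lt h
  have hb' : 2 ^ n - a = b + 1 := by omega
  rw [hb']
  unfold zi_m
  have h1 := Nat.div_add_mod (5 * a) (2 ^ n)
  have h2 := Nat.div_add_mod (5 * (b + 1)) (2 ^ n)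
  have h3 := Nat.mod_lt (5 * a) hP
  have h4 := Nat.mod_lt (5 * (b + 1)) hP
  have h5 : 0 < 5 * a % 2 ^ n := by
    rw [Nat.pos_iff_ne_zero]
    intro h0
    have h6 : 2 ^ n ∣ 5 * a := Nat.dvd_of_mod_eq_zero h0
    have h7 : 2 ∣ 5 * a := (dvd_pow_self 2 (by omega)).trans h6
    obtain ⟨c, rfl⟩ := ha
    omega
  set q := 5 * a / 2 ^ n
  set q' := 5 * (b + 1) / 2 ^ n
  set r := 5 * a % 2 ^ n
  set r' := 5 * (b + 1) % 2 ^ n
  have h8 : 2 ^ n * (q + q') + (r + r') = 5 * 2 ^ n := by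
    rw [mul_add]
    omega
  have h9 : q + q' = 4 := by
    rcases lt_trichotomy (q + q') 4 with h | h | h
    · exfalso
      have : 2 ^ n * (q + q') ≤ 2 ^ n * 3 := Nat.mul_le_mul_left _ (by omega)
      omega
    · exact h
    · exfalso
      have : 2 ^ n * 5 ≤ 2 ^ n * (q + q') := Nat.mul_le_mul_left _ (by omega)
      omega
  omega

/-! ### the sums -/

/-- the half sums -/
def zi_T (F : ℕ → ℤ_[2]) (n : ℕ) : ℤ_[2] :=
  ∑ a ∈ Finset.range (2 ^ n), if a % 4 = 1 then F a * (zi_m n a : ℤ_[2]) else 0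

/-- the sums -/
def zi_S (F : ℕ → ℤ_[2]) (n : ℕ) : ℤ_[2] :=
  ∑ a ∈ Finset.range (2 ^ n), F a * (zi_m n a : ℤ_[2])

theorem zi_four {n : ℕ} (hn : 2 ≤ n) : ∃ c, 2 ^ n = 4 * c := by
  obtain ⟨k, rfl⟩ := Nat.exists_eq_add_of_le hn
  exact ⟨2 ^ k, by rw [pow_add]; norm_num⟩

theorem zi_T_succ (F : ℕ → ℤ_[2]) {n : ℕ} (hn : 2 ≤ n) : zi_T F (n + 1) - zi_T F n =
    ∑ a ∈ Finset.range (2 ^ n),
      if a % 4 = 1 then (F (2 ^ n + a) - F a) * (zi_m (n + 1) (2 ^ n + a) : ℤ_[2]) else 0 := by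
  unfold zi_T
  obtain ⟨c, hc⟩ := zi_four hn
  rw [pow_succ, mul_two, Finset.sum_range_add, ← Finset.sum_add_distrib,
    ← Finset.sum_sub_distrib]
  refine Finset.sum_congr rfl fun a _ => ?_
  have h1 : (2 ^ n + a) % 4 = a % 4 := by omega
  rw [h1]
  split_ifs
  · rw [← zi_m_dist n a]
    push_cast
    ring
  · ring

theorem zi_reflect (g : ℕ → ℤ_[2]) (N : ℕ) (h0 : g 0 = 0) (hN : g N = 0) :
    ∑ a ∈ Finset.range N, g a = ∑ a ∈ Finset.range N, g (N - a) := by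
  have h1 := Finset.sum_range_reflect g (N + 1)
  have h2 : ∑ j ∈ Finset.range (N + 1), g (N + 1 - 1 - j) =
      ∑ j ∈ Finset.range (N + 1), g (N - j) := Finset.sum_congr rfl fun j _ => by
    rw [Nat.add_sub_cancel]
  rw [h2, Finset.sum_range_succ, Finset.sum_range_succ, Nat.sub_self, h0, hN, add_zero,
    add_zero] at h1
  exact h1.symm

theorem zi_S_sub (F : ℕ → ℤ_[2]) (hF : ∀ a, ¬ Odd a → F a = 0) {n : ℕ} (hn : 2 ≤ n) :
    zi_S F n - 2 * zi_T F n = - ∑ a ∈ Finset.range (2 ^ n),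
      if a % 4 = 1 then (F a + F (2 ^ n - a)) * (zi_m n a : ℤ_[2]) else 0 := by
  obtain ⟨c, hc⟩ := zi_four hn
  have h1 : zi_S F n = zi_T F n + ∑ a ∈ Finset.range (2 ^ n),
      (if a % 4 = 3 then F a * (zi_m n a : ℤ_[2]) else 0) := by
    unfold zi_S zi_T
    rw [← Finset.sum_add_distrib]
    refine Finset.sum_congr rfl fun a _ => ?_
    have h2 : a % 4 = 0 ∨ a % 4 = 1 ∨ a % 4 = 2 ∨ a % 4 = 3 := by omega
    rcases h2 with h | h | h | h
    · rw [hF a (by rw [Nat.not_odd_iff_even, Nat.even_iff]; omega)]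
      simp
    · rw [if_pos h, if_neg (by omega), add_zero]
    · rw [hF a (by rw [Nat.not_odd_iff_even, Nat.even_iff]; omega)]
      simp
    · rw [if_neg (by omega), if_pos h, zero_add]
  have h2 := zi_reflect (fun a => if a % 4 = 3 then F a * (zi_m n a : ℤ_[2]) else 0) (2 ^ n)
    (by simp) (by
      rw [if_neg]
      omega)
  rw [h1, h2]
  have h3 : ∑ a ∈ Finset.range (2 ^ n),
      (fun a => if a % 4 = 3 then F a * (zi_m n a : ℤ_[2]) else 0) (2 ^ n - a) =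
      ∑ a ∈ Finset.range (2 ^ n),
        (if a % 4 = 1 then - (F (2 ^ n - a) * (zi_m n a : ℤ_[2])) else 0) := by
    refine Finset.sum_congr rfl fun a ha => ?_
    have ha' := Finset.mem_range.1 ha
    simp only
    by_cases h : a % 4 = 1
    · rw [if_pos h, if_pos (by omega), zi_m_neg n a (by omega)
        (by rw [Nat.odd_iff]; omega) ha']
      push_cast
      ring
    · rw [if_neg h, if_neg (by omega)]
  rw [h3]
  unfold zi_T
  rw [Finset.mul_sum, ← Finset.sum_add_distrib, ← Finset.sum_sub_distrib,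
    ← Finset.sum_neg_distrib]
  refine Finset.sum_congr rfl fun a _ => ?_
  split_ifs
  · ring
  · ring

theorem zi_sum_le {N : ℕ} {x : ℕ → ℤ_[2]} {m : ℕ → ℤ} {ε : ℝ} (hε : 0 ≤ ε)
    (h : ∀ a, a < N → a % 4 = 1 → ‖x a‖ ≤ ε) :
    ‖∑ a ∈ Finset.range N, if a % 4 = 1 then x a * (m a : ℤ_[2]) else 0‖ ≤ ε := by
  refine IsUltrametricDist.norm_sum_le_of_forall_le_of_nonneg hε fun a ha => ?_
  split_ifs with h1
  · rw [norm_mul]
    calc ‖x a‖ * ‖((m a : ℤ) : ℤ_[2])‖ ≤ ε * 1 :=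
          mul_le_mul (h a (Finset.mem_range.1 ha) h1) (PadicInt.norm_le_one _)
            (norm_nonneg _) hε
      _ = ε := mul_one _
  · rw [norm_zero]
    exact hε

/-! ### limits -/

theorem zi_tele {u : ℕ → ℤ_[2]} {ε : ℝ} {n0 : ℕ} (hε : 0 ≤ ε)
    (h : ∀ n, n0 ≤ n → ‖u (n + 1) - u n‖ ≤ ε) (m : ℕ) (hm : n0 ≤ m) : ‖u m - u n0‖ ≤ ε := by
  induction m, hm using Nat.le_induction with
  | base => simpa using hε
  | succ m hm ih =>
    have e : u (m + 1) - u n0 = (u (m + 1) - u m) + (u m - u n0) := by ring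
    rw [e]
    exact (PadicInt.nonarchimedean _ _).trans (max_le (h m hm) ih)

theorem zi_lim {u : ℕ → ℤ_[2]}
    (h : ∀ ε : ℝ, 0 < ε → ∃ N, ∀ n, N ≤ n → ‖u (n + 1) - u n‖ ≤ ε) :
    ∃ L, Tendsto u atTop (𝓝 L) := by
  refine cauchySeq_tendsto_of_complete ?_
  rw [Metric.cauchySeq_iff']
  intro ε hε
  obtain ⟨N, hN⟩ := h (ε / 2) (by positivity)
  refine ⟨N, fun n hn => ?_⟩
  rw [dist_eq_norm]
  exact lt_of_le_of_lt (zi_tele (by positivity) hN n hn) (by linarith)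

/-! ### inverses of odd numbers -/

/-- the inverse of an odd number -/
def zi_u (a : ℕ) : ℤ_[2] := PadicInt.inv (a : ℤ_[2])

theorem zi_norm_odd {a : ℕ} (ha : Odd a) : ‖(a : ℤ_[2])‖ = 1 := by
  rw [PadicInt.norm_natCast_eq_one_iff]
  exact Nat.coprime_two_left.2 ha

theorem zi_mul_u {a : ℕ} (ha : Odd a) : (a : ℤ_[2]) * zi_u a = 1 :=
  PadicInt.mul_inv (zi_norm_odd ha)

theorem zi_u_sub {a b : ℕ} (ha : Odd a) (hb : Odd b) :
    ‖zi_u a - zi_u b‖ ≤ ‖(a : ℤ_[2]) - b‖ := by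
  have e : zi_u a - zi_u b = zi_u a * zi_u b * -((a : ℤ_[2]) - b) := by
    linear_combination (zi_u b) * zi_mul_u ha - zi_u a * zi_mul_u hb
  rw [e, norm_mul, norm_mul, norm_neg]
  have h1 : ‖zi_u a‖ * ‖zi_u b‖ ≤ 1 :=
    mul_le_one₀ (PadicInt.norm_le_one _) (norm_nonneg _) (PadicInt.norm_le_one _)
  exact mul_le_of_le_one_left (norm_nonneg _) h1

theorem zi_u_add {a b : ℕ} (ha : Odd a) (hb : Odd b) :
    ‖zi_u a + zi_u b‖ ≤ ‖(a : ℤ_[2]) + b‖ := by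
  have e : zi_u a + zi_u b = zi_u a * zi_u b * ((a : ℤ_[2]) + b) := by
    linear_combination (-zi_u b) * zi_mul_u ha - zi_u a * zi_mul_u hb
  rw [e, norm_mul, norm_mul]
  have h1 : ‖zi_u a‖ * ‖zi_u b‖ ≤ 1 :=
    mul_le_one₀ (PadicInt.norm_le_one _) (norm_nonneg _) (PadicInt.norm_le_one _)
  exact mul_le_of_le_one_left (norm_nonneg _) h1

theorem zi_pow_norm (k : ℤ) (N : ℕ) (h : (2 : ℤ) ^ N ∣ k) :
    ‖(k : ℤ_[2])‖ ≤ (2 : ℝ)⁻¹ ^ N := by
  have h1 := (PadicInt.norm_int_le_pow_iff_dvd (p := 2) (k := k) (n := N)).2 (by exact_mod_cast h)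
  rw [zpow_neg, zpow_natCast] at h1
  rw [inv_pow]
  exact_mod_cast h1

theorem zi_modEq {a b N : ℕ} (h : a ≡ b [MOD 2 ^ N]) :
    ‖(a : ℤ_[2]) - b‖ ≤ (2 : ℝ)⁻¹ ^ N := by
  have h1 := (Nat.modEq_iff_dvd.1 h.symm)
  have h2 := zi_pow_norm ((a : ℤ) - b) N (by exact_mod_cast h1)
  push_cast at h2
  exact h2

theorem zi_addMod {a b N : ℕ} (h : 2 ^ N ∣ a + b) :
    ‖(a : ℤ_[2]) + b‖ ≤ (2 : ℝ)⁻¹ ^ N := by
  have h2 := zi_pow_norm ((a : ℤ) + b) N (by exact_mod_cast h)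
  push_cast at h2
  exact h2

/-! ### the coefficients -/

/-- the function `κ(a)/(5a)`, coefficient `j` -/
def zi_F (kap : ℕ → Lam) (j a : ℕ) : ℤ_[2] :=
  PowerSeries.coeff j (kap a) * zi_u a * zi_u 5

theorem zi_F_even {kap : ℕ → Lam} (hk : KapFam kap) (j a : ℕ) (ha : ¬ Odd a) :
    zi_F kap j a = 0 := by
  unfold zi_F
  rw [hk.even a ha, map_zero, zero_mul, zero_mul]

theorem zi_F_sub {kap : ℕ → Lam} {j a b : ℕ} {ε : ℝ} (hε : 0 ≤ ε)
    (h1 : ‖PowerSeries.coeff j (kap a) - PowerSeries.coeff j (kap b)‖ ≤ ε)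
    (h2 : ‖zi_u a - zi_u b‖ ≤ ε) : ‖zi_F kap j a - zi_F kap j b‖ ≤ ε := by
  have e : zi_F kap j a - zi_F kap j b =
      (PowerSeries.coeff j (kap a) - PowerSeries.coeff j (kap b)) * (zi_u a * zi_u 5) +
      (zi_u a - zi_u b) * (PowerSeries.coeff j (kap b) * zi_u 5) := by
    unfold zi_F
    ring
  rw [e]
  refine (PadicInt.nonarchimedean _ _).trans (max_le ?_ ?_)
  · rw [norm_mul]
    calc _ ≤ ε * 1 := mul_le_mul h1 (PadicInt.norm_le_one _) (norm_nonneg _) hε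
      _ = ε := mul_one _
  · rw [norm_mul]
    calc _ ≤ ε * 1 := mul_le_mul h2 (PadicInt.norm_le_one _) (norm_nonneg _) hε
      _ = ε := mul_one _

theorem zi_F_add {kap : ℕ → Lam} {j a b : ℕ} {ε : ℝ} (hε : 0 ≤ ε)
    (h1 : ‖PowerSeries.coeff j (kap a) - PowerSeries.coeff j (kap b)‖ ≤ ε)
    (h2 : ‖zi_u a + zi_u b‖ ≤ ε) : ‖zi_F kap j a + zi_F kap j b‖ ≤ ε := by
  have e : zi_F kap j a + zi_F kap j b =
      (PowerSeries.coeff j (kap a) - PowerSeries.coeff j (kap b)) * (zi_u a * zi_u 5) +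
      (zi_u a + zi_u b) * (PowerSeries.coeff j (kap b) * zi_u 5) := by
    unfold zi_F
    ring
  rw [e]
  refine (PadicInt.nonarchimedean _ _).trans (max_le ?_ ?_)
  · rw [norm_mul]
    calc _ ≤ ε * 1 := mul_le_mul h1 (PadicInt.norm_le_one _) (norm_nonneg _) hε
      _ = ε := mul_one _
  · rw [norm_mul]
    calc _ ≤ ε * 1 := mul_le_mul h2 (PadicInt.norm_le_one _) (norm_nonneg _) hε
      _ = ε := mul_one _

theorem zi_pow_small {ε : ℝ} (hε : 0 < ε) : ∃ n : ℕ, (2 : ℝ)⁻¹ ^ n < ε :=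
  exists_pow_lt_of_lt_one hε (by norm_num)

theorem zi_cont {kap : ℕ → Lam} (hk : KapFam kap) (j : ℕ) {ε : ℝ} (hε : 0 < ε) :
    ∃ N : ℕ, ∀ a b : ℕ, Odd a → Odd b → a ≡ b [MOD 2 ^ N] →
      ‖zi_F kap j a - zi_F kap j b‖ ≤ ε := by
  obtain ⟨n, hn⟩ := zi_pow_small hε
  obtain ⟨N, hN⟩ := hk.cont j n
  refine ⟨max N n, fun a b ha hb hab => zi_F_sub hε.le ?_ ?_⟩
  · exact (hN a b ha hb (hab.of_dvd (pow_dvd_pow 2 (le_max_left _ _))) j le_rfl).trans hn.le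
  · exact ((zi_u_sub ha hb).trans (zi_modEq
      (hab.of_dvd (pow_dvd_pow 2 (le_max_right _ _))))).trans hn.le

theorem zi_neg {kap : ℕ → Lam} (hk : KapFam kap) (j : ℕ) {ε : ℝ} (hε : 0 < ε) :
    ∃ N : ℕ, ∀ a b : ℕ, Odd a → Odd b → 2 ^ N ∣ a + b →
      ‖zi_F kap j a + zi_F kap j b‖ ≤ ε := by
  obtain ⟨n, hn⟩ := zi_pow_small hε
  obtain ⟨N, hN⟩ := hk.neg j n
  refine ⟨max N n, fun a b ha hb hab => zi_F_add hε.le ?_ ?_⟩
  · exact (hN a b ha hb ((pow_dvd_pow 2 (le_max_left _ _)).trans hab) j le_rfl).trans hn.le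
  · exact ((zi_u_add ha hb).trans (zi_addMod
      ((pow_dvd_pow 2 (le_max_right _ _)).trans hab))).trans hn.le

theorem zi_T_lim {kap : ℕ → Lam} (hk : KapFam kap) (j : ℕ) :
    ∃ L, Tendsto (zi_T (zi_F kap j)) atTop (𝓝 L) := by
  refine zi_lim fun ε hε => ?_
  obtain ⟨N, hN⟩ := zi_cont hk j hε
  refine ⟨max N 2, fun n hn => ?_⟩
  have h2 : 2 ≤ n := (le_max_right _ _).trans hn
  have hNn : N ≤ n := (le_max_left _ _).trans hn
  obtain ⟨c, hc⟩ := zi_four h2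
  rw [zi_T_succ _ h2]
  refine zi_sum_le hε.le fun a _ ha => ?_
  refine hN _ _ (by rw [Nat.odd_iff]; omega) (by rw [Nat.odd_iff]; omega) ?_
  have h3 : 2 ^ N ∣ 2 ^ n := pow_dvd_pow 2 hNn
  exact (Nat.modEq_iff_dvd' (by omega)).2 (by simpa using h3) |>.symm

theorem zi_S_lim {kap : ℕ → Lam} (hk : KapFam kap) (j : ℕ) {L : ℤ_[2]}
    (h : Tendsto (zi_T (zi_F kap j)) atTop (𝓝 L)) :
    Tendsto (zi_S (zi_F kap j)) atTop (𝓝 (2 * L)) := by
  have h1 : Tendsto (fun n => zi_S (zi_F kap j) n - 2 * zi_T (zi_F kap j) n) atTop (𝓝 0) := by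
    rw [Metric.tendsto_atTop]
    intro ε hε
    obtain ⟨N, hN⟩ := zi_neg hk j (half_pos hε)
    refine ⟨max N 2, fun n hn => ?_⟩
    have h2 : 2 ≤ n := (le_max_right _ _).trans hn
    have hNn : N ≤ n := (le_max_left _ _).trans hn
    obtain ⟨c, hc⟩ := zi_four h2
    rw [dist_zero_right, zi_S_sub _ (zi_F_even hk j) h2, norm_neg]
    refine lt_of_le_of_lt (zi_sum_le (half_pos hε).le fun a ha ha1 => ?_) (half_lt_self hε)
    refine hN _ _ (by rw [Nat.odd_iff]; omega) (by rw [Nat.odd_iff]; omega) ?_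
    rw [Nat.add_sub_cancel' ha.le]
    exact pow_dvd_pow 2 hNn
  have h2 := h1.add (h.const_mul 2)
  rw [zero_add] at h2
  refine h2.congr fun n => ?_
  ring

theorem zi_unit {kap : ℕ → Lam} (hk : KapFam kap) {L : ℤ_[2]}
    (h : Tendsto (zi_T (zi_F kap 0)) atTop (𝓝 L)) : IsUnit L := by
  have h1 : ∀ n, 2 ≤ n → ‖zi_T (zi_F kap 0) (n + 1) - zi_T (zi_F kap 0) n‖ ≤ (2 : ℝ)⁻¹ := by
    intro n hn
    obtain ⟨c, hc⟩ := zi_four hn
    rw [zi_T_succ _ hn]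
    refine zi_sum_le (by norm_num) fun a _ ha => ?_
    have hb : Odd (2 ^ n + a) := by rw [Nat.odd_iff]; omega
    have ha' : Odd a := by rw [Nat.odd_iff]; omega
    refine zi_F_sub (by norm_num) ?_ ?_
    · rw [hk.c0 _ hb, hk.c0 _ ha', sub_self, norm_zero]
      norm_num
    · refine (zi_u_sub hb ha').trans ?_
      have h3 : 2 ^ n + a ≡ a [MOD 2 ^ 1] := by
        unfold Nat.ModEq
        omega
      have h4 := zi_modEq h3
      rwa [pow_one] at h4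
  have h2 : ‖zi_T (zi_F kap 0) 2‖ = 1 := by
    have e : zi_T (zi_F kap 0) 2 = - zi_u 5 := by
      unfold zi_T
      have e4 : (2 : ℕ) ^ 2 = 4 := by norm_num
      rw [e4]
      have h5 : zi_m 2 1 = -1 := by decide
      have h6 : zi_u 1 = 1 := by
        have := zi_mul_u (a := 1) odd_one
        rwa [Nat.cast_one, one_mul] at this
      simp only [Finset.sum_range_succ, Finset.sum_range_zero]
      norm_num
      rw [h5]
      unfold zi_F
      rw [hk.c0 1 odd_one, h6]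
      push_cast
      ring
    have h7 := congrArg norm (zi_mul_u (a := 5) (by decide))
    rw [norm_mul, zi_norm_odd (by decide), one_mul, norm_one] at h7
    rw [e, norm_neg, h7]
  have h3 : ‖L - zi_T (zi_F kap 0) 2‖ ≤ (2 : ℝ)⁻¹ := by
    have h4 := (h.sub_const (zi_T (zi_F kap 0) 2)).norm
    refine le_of_tendsto h4 ?_
    filter_upwards [eventually_ge_atTop 2] with m hm
    exact zi_tele (by norm_num) h1 m hm
  rw [PadicInt.isUnit_iff]
  refine le_antisymm (PadicInt.norm_le_one _) ?_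
  by_contra h5
  push Not at h5
  have h6 : ‖zi_T (zi_F kap 0) 2‖ < 1 := by
    have e : zi_T (zi_F kap 0) 2 = L + -(L - zi_T (zi_F kap 0) 2) := by ring
    rw [e]
    refine lt_of_le_of_lt (PadicInt.nonarchimedean _ _) (max_lt h5 ?_)
    rw [norm_neg]
    exact lt_of_le_of_lt h3 (by norm_num)
  rw [h2] at h6
  exact lt_irrefl _ h6

/-! ### evaluation -/

theorem zi_norm_iota (z : ℤ_[2]) : ‖iota z‖ = ‖z‖ := by
  unfold iota
  rw [RingHom.comp_apply]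
  have h := PadicComplex.norm_extends' 2 (z : ℚ_[2])
  rw [← PadicInt.norm_def] at h
  exact h

theorem zi_iota_cont : Continuous (iota : ℤ_[2] → C2) :=
  (AddMonoidHomClass.isometry_of_norm iota zi_norm_iota).continuous

theorem zi_iota_le (z : ℤ_[2]) : ‖iota z‖ ≤ 1 := by
  rw [zi_norm_iota]
  exact PadicInt.norm_le_one _

theorem zi_summable {w : C2} (hw : ‖w‖ < 1) (c : ℕ → ℤ_[2]) :
    Summable fun j => iota (c j) * w ^ j := by
  refine Summable.of_norm_bounded (summable_geometric_of_lt_one (norm_nonneg w) hw) fun j => ?_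
  rw [norm_mul, norm_pow]
  exact mul_le_of_le_one_left (by positivity) (zi_iota_le _)

theorem zi_iota_u {a : ℕ} (ha : Odd a) : iota (zi_u a) = (a : C2)⁻¹ := by
  have h := congrArg iota (zi_mul_u ha)
  rw [map_mul, map_one, map_natCast] at h
  exact eq_inv_of_mul_eq_one_right h

theorem zi_hasSum {kap : ℕ → Lam} (hk : KapFam kap) (κ : Weight 2) (hκ : κ.IsEven) (n a : ℕ) :
    HasSum (fun j => iota (zi_F kap j a * (zi_m n a : ℤ_[2])) * κ.w ^ j)
      (κ.val a / (a : C2) * (((((1 + 2 * 2) * a / 2 ^ n : ℕ) : C2) - (2 : ℕ)) /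
        (1 + 2 * (2 : ℕ)))) := by
  by_cases ha : Odd a
  · have hw := hk.wlt κ hκ
    have h1 : HasSum (fun j => iota (PowerSeries.coeff j (kap a)) * κ.w ^ j) (κ.val a) := by
      rw [hk.val a ha κ hκ]
      exact (zi_summable hw _).hasSum
    have h2 := h1.mul_left ((a : C2)⁻¹ * ((5 : ℕ) : C2)⁻¹ * ((zi_m n a : ℤ) : C2))
    have e1 : (fun j => iota (zi_F kap j a * (zi_m n a : ℤ_[2])) * κ.w ^ j) =
        fun j => (a : C2)⁻¹ * ((5 : ℕ) : C2)⁻¹ * ((zi_m n a : ℤ) : C2) *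
          (iota (PowerSeries.coeff j (kap a)) * κ.w ^ j) := by
      funext j
      unfold zi_F
      rw [map_mul, map_mul, map_mul, map_intCast, zi_iota_u ha, zi_iota_u (by decide)]
      ring
    have e2 : κ.val a / (a : C2) * (((((1 + 2 * 2) * a / 2 ^ n : ℕ) : C2) - (2 : ℕ)) /
        (1 + 2 * (2 : ℕ))) =
        (a : C2)⁻¹ * ((5 : ℕ) : C2)⁻¹ * ((zi_m n a : ℤ) : C2) * κ.val a := by
      have e3 : (1 + 2 * 2) * a = 5 * a := by ring
      rw [e3]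
      unfold zi_m
      have e4 : (1 + 2 * ((2 : ℕ) : C2)) = ((5 : ℕ) : C2) := by norm_num
      rw [e4]
      generalize 5 * a / 2 ^ n = q
      push_cast
      ring
    rw [e1, e2]
    exact h2
  · rw [hk.nval κ a ha, zero_div, zero_mul]
    have e : (fun j => iota (zi_F kap j a * (zi_m n a : ℤ_[2])) * κ.w ^ j) = fun _ => 0 := by
      funext j
      rw [zi_F_even hk j a ha, zero_mul, map_zero, zero_mul]
    rw [e]
    exact hasSum_zero

theorem zi_sum_eq {kap : ℕ → Lam} (hk : KapFam kap) (κ : Weight 2) (hκ : κ.IsEven) (n : ℕ) :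
    ∑ a ∈ Finset.range (2 ^ n), κ.val a / (a : C2) *
        (((((1 + 2 * 2) * a / 2 ^ n : ℕ) : C2) - (2 : ℕ)) / (1 + 2 * (2 : ℕ))) =
      ∑' j, iota (zi_S (zi_F kap j) n) * κ.w ^ j := by
  have h1 := hasSum_sum (s := Finset.range (2 ^ n)) fun a _ => zi_hasSum hk κ hκ n a
  rw [← h1.tsum_eq]
  congr 1
  funext j
  unfold zi_S
  rw [map_sum, Finset.sum_mul]

/-- `A(κ) = 2 · (unit of ℤ_2[[W]])` evaluated at `w_κ`; the limit exists. -/
theorem exists_zetaUnit (kap : ℕ → Lam) (hk : KapFam kap) : ∃ Z : Lam,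
    IsUnit (PowerSeries.coeff 0 Z) ∧
    ∀ κ : Weight 2, κ.IsEven →
      Tendsto (fun n : ℕ ↦ ∑ a ∈ Finset.range (2 ^ n), κ.val a / (a : C2) *
        (((((1 + 2 * 2) * a / 2 ^ n : ℕ) : C2) - (2 : ℕ)) / (1 + 2 * (2 : ℕ)))) atTop
        (𝓝 (2 * ev κ.w Z)) ∧ κ.zetaIntegral = 2 * ev κ.w Z := by
  choose L hL using zi_T_lim hk
  refine ⟨PowerSeries.mk L, ?_, fun κ hκ => ?_⟩
  · rw [PowerSeries.coeff_mk]
    exact zi_unit hk (hL 0)
  · have hw := hk.wlt κ hκ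
    have h1 : Tendsto (fun n : ℕ ↦ ∑ a ∈ Finset.range (2 ^ n), κ.val a / (a : C2) *
        (((((1 + 2 * 2) * a / 2 ^ n : ℕ) : C2) - (2 : ℕ)) / (1 + 2 * (2 : ℕ)))) atTop
        (𝓝 (2 * ev κ.w (PowerSeries.mk L))) := by
      have e : 2 * ev κ.w (PowerSeries.mk L) = ∑' j, iota (2 * L j) * κ.w ^ j := by
        unfold ev
        rw [← tsum_mul_left]
        congr 1
        funext j
        rw [PowerSeries.coeff_mk, map_mul, map_ofNat]
        ring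
      rw [e]
      have h2 : Tendsto (fun n => ∑' j, iota (zi_S (zi_F kap j) n) * κ.w ^ j) atTop
          (𝓝 (∑' j, iota (2 * L j) * κ.w ^ j)) := by
        refine tendsto_tsum_of_dominated_convergence
          (summable_geometric_of_lt_one (norm_nonneg κ.w) hw) (fun j => ?_)
          (Filter.Eventually.of_forall fun n j => ?_)
        · exact ((zi_iota_cont.tendsto _).comp (zi_S_lim hk j (hL j))).mul_const _
        · rw [norm_mul, norm_pow]
          exact mul_le_of_le_one_left (by positivity) (zi_iota_le _)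
      exact h2.congr fun n => (zi_sum_eq hk κ hκ n).symm
    exact ⟨h1, h1.limUnder_eq⟩

end GH
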