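import Pool.Agent.GH.Base

open PowerSeries Filter Topology

noncomputable section

namespace GH

/-! The values of the regularised sums at classical weights. -/

/-! ### Helper lemmas (prefix `zv_`) -/

/-- The odd residues modulo `2^n`. -/
def zvO (n : ℕ) : Finset ℕ := (Finset.range (2 ^ n)).filter fun a => Odd a

theorem zv_mem {n a : ℕ} : a ∈ zvO n ↔ a < 2 ^ n ∧ Odd a := by
  rw [zvO, Finset.mem_filter, Finset.mem_range]

/-- Multiplication by `5` permutes the odd residues. -/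
theorem zv_perm (n : ℕ) (hn : 1 ≤ n) (g : ℕ → ℚ_[2]) :
    ∑ a ∈ zvO n, g (5 * a % 2 ^ n) = ∑ a ∈ zvO n, g a := by
  have hpos : 0 < 2 ^ n := by positivity
  have hmaps : ∀ a ∈ zvO n, 5 * a % 2 ^ n ∈ zvO n := by
    intro a ha
    rw [zv_mem] at ha ⊢
    refine ⟨Nat.mod_lt _ hpos, ?_⟩
    have h1 : Odd (5 * a) := (by decide : Odd 5).mul ha.2
    have h2 : (2 : ℕ) ∣ 2 ^ n := dvd_pow_self 2 (by omega)
    rw [Nat.odd_iff] at h1 ⊢
    rw [Nat.mod_mod_of_dvd _ h2]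
    exact h1
  have hinj : Set.InjOn (fun a => 5 * a % 2 ^ n) (zvO n : Set ℕ) := by
    intro a ha b hb hab
    rw [Finset.mem_coe, zv_mem] at ha hb
    have h1 : a ≡ b [MOD 2 ^ n] :=
      Nat.ModEq.cancel_left_of_coprime (c := 5) (by
        rw [Nat.Coprime.gcd_eq_one]
        exact Nat.Coprime.pow_left _ (by decide)) hab
    exact Nat.ModEq.eq_of_lt_of_lt h1 ha.1 hb.1
  refine Finset.sum_nbij (fun a => 5 * a % 2 ^ n) hmaps hinj ?_ fun _ _ => rfl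
  exact Finset.surjOn_of_injOn_of_card_le _ hmaps hinj le_rfl

/-- The power sum over the odd residues. -/
def zvS (k n : ℕ) : ℚ_[2] := ∑ a ∈ zvO n, (a : ℚ_[2]) ^ k

/-- The full power sum. -/
def zvF (k n : ℕ) : ℚ_[2] := ∑ a ∈ Finset.range (2 ^ n), (a : ℚ_[2]) ^ k

theorem zv_split (k n : ℕ) : zvF k (n + 1) = zvS k (n + 1) + 2 ^ k * zvF k n := by
  have h1 : zvF k (n + 1) = zvS k (n + 1) +
      ∑ a ∈ (Finset.range (2 ^ (n + 1))).filter (fun a => ¬ Odd a), (a : ℚ_[2]) ^ k := by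
    rw [zvF, zvS, zvO, Finset.sum_filter_add_sum_filter_not]
  rw [h1]
  congr 1
  rw [zvF, Finset.mul_sum]
  symm
  refine Finset.sum_nbij (fun b => 2 * b) ?_ ?_ ?_ ?_
  · intro b hb
    rw [Finset.mem_range] at hb
    rw [Finset.mem_filter, Finset.mem_range, Nat.not_odd_iff_even]
    exact ⟨by rw [pow_succ]; omega, even_two_mul b⟩
  · intro a _ b _ h
    simpa using h
  · intro a ha
    rw [Finset.mem_coe, Finset.mem_filter, Finset.mem_range, Nat.not_odd_iff_even] at ha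
    obtain ⟨ha1, b, hb⟩ := ha
    refine ⟨b, ?_, by simp only; omega⟩
    rw [Finset.mem_coe, Finset.mem_range]
    rw [pow_succ] at ha1
    omega
  · intro b _
    push_cast
    rw [mul_pow]

theorem zv_two_pow : Tendsto (fun n : ℕ => (2 : ℚ_[2]) ^ n) atTop (𝓝 0) := by
  apply tendsto_pow_atTop_nhds_zero_of_norm_lt_one
  have h := Padic.norm_p (p := 2)
  rw [Nat.cast_ofNat] at h
  rw [h]
  norm_num

/-- Faulhaber: `2^{-n} ∑_{a < 2^n} a^k → B_k`. -/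
theorem zv_tendsto_F (k : ℕ) :
    Tendsto (fun n : ℕ => zvF k n / 2 ^ n) atTop (𝓝 ((bernoulli k : ℚ) : ℚ_[2])) := by
  have h1 : ∀ n : ℕ, zvF k n / 2 ^ n = ∑ i ∈ Finset.range (k + 1),
      ((bernoulli i * ((k + 1).choose i) / (k + 1) : ℚ) : ℚ_[2]) * ((2 : ℚ_[2]) ^ n) ^ (k - i) := by
    intro n
    have h2 : zvF k n = ((∑ a ∈ Finset.range (2 ^ n), (a : ℚ) ^ k : ℚ) : ℚ_[2]) := by
      rw [zvF]
      push_cast
      rfl
    have h0 : (2 : ℚ_[2]) ^ n ≠ 0 := pow_ne_zero _ two_ne_zero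
    rw [h2, sum_range_pow, div_eq_iff h0, Finset.sum_mul]
    push_cast
    refine Finset.sum_congr rfl fun i hi => ?_
    rw [Finset.mem_range] at hi
    rw [show k + 1 - i = (k - i) + 1 by omega, pow_succ]
    ring
  have h2 : Tendsto (fun n : ℕ => ∑ i ∈ Finset.range (k + 1),
      ((bernoulli i * ((k + 1).choose i) / (k + 1) : ℚ) : ℚ_[2]) * ((2 : ℚ_[2]) ^ n) ^ (k - i))
      atTop (𝓝 (∑ i ∈ Finset.range (k + 1),
      ((bernoulli i * ((k + 1).choose i) / (k + 1) : ℚ) : ℚ_[2]) * (0 : ℚ_[2]) ^ (k - i))) := by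
    refine tendsto_finsetSum _ fun i _ => ?_
    exact (zv_two_pow.pow (k - i)).const_mul _
  have h3 : ∑ i ∈ Finset.range (k + 1),
      ((bernoulli i * ((k + 1).choose i) / (k + 1) : ℚ) : ℚ_[2]) * (0 : ℚ_[2]) ^ (k - i) =
      ((bernoulli k : ℚ) : ℚ_[2]) := by
    rw [Finset.sum_eq_single k]
    · rw [Nat.sub_self, pow_zero, mul_one, Nat.choose_succ_self_right]
      congr 1
      have : ((k : ℚ) + 1) ≠ 0 := by positivity
      push_cast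
      field_simp
    · intro i hi hik
      rw [Finset.mem_range] at hi
      rw [zero_pow (by omega), mul_zero]
    · intro h
      simp at h
  rw [← h3]
  exact h2.congr fun n => (h1 n).symm

/-- `2^{-n} ∑_{a < 2^n odd} a^k → (1 - 2^{k-1}) B_k`, in the form without division. -/
theorem zv_tendsto_S (k : ℕ) :
    Tendsto (fun n : ℕ => zvS k n / 2 ^ n) atTop
      (𝓝 (((bernoulli k : ℚ) : ℚ_[2]) - 2 ^ k / 2 * ((bernoulli k : ℚ) : ℚ_[2]))) := by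
  rw [← tendsto_add_atTop_iff_nat 1]
  have h1 : ∀ n : ℕ, zvS k (n + 1) / 2 ^ (n + 1) =
      zvF k (n + 1) / 2 ^ (n + 1) - 2 ^ k / 2 * (zvF k n / 2 ^ n) := by
    intro n
    rw [zv_split k n, pow_succ]
    field_simp
    ring
  have h2 := ((tendsto_add_atTop_iff_nat 1).2 (zv_tendsto_F k)).sub
    ((zv_tendsto_F k).const_mul (2 ^ k / 2 : ℚ_[2]))
  exact h2.congr fun n => (h1 n).symm

/-- The basic congruence. -/
theorem zv_key (k n : ℕ) (hn : 1 ≤ n) : ∃ Z : ℤ,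
    (k : ℚ_[2]) * 5 ^ (k - 1) * ∑ a ∈ zvO n, (a : ℚ_[2]) ^ (k - 1) * ((5 * a / 2 ^ n : ℕ) : ℚ_[2]) =
      (5 ^ k - 1) * (zvS k n / 2 ^ n) + 2 ^ n * (Z : ℚ_[2]) := by
  have hexp : ∀ a : ℕ, ∃ z : ℤ, (((5 * a % 2 ^ n : ℕ) : ℤ)) ^ k =
      (5 * a : ℤ) ^ k - k * (5 * a : ℤ) ^ (k - 1) * (2 ^ n * ((5 * a / 2 ^ n : ℕ) : ℤ)) +
        z * (2 ^ n) ^ 2 := by
    intro a
    obtain ⟨z, hz⟩ := Polynomial.powAddExpansion (5 * a : ℤ) (-(2 ^ n * ((5 * a / 2 ^ n : ℕ) : ℤ))) k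
    refine ⟨z * ((5 * a / 2 ^ n : ℕ) : ℤ) ^ 2, ?_⟩
    have h1 : ((5 * a % 2 ^ n : ℕ) : ℤ) = (5 * a : ℤ) + -(2 ^ n * ((5 * a / 2 ^ n : ℕ) : ℤ)) := by
      have h2 := Nat.div_add_mod (5 * a) (2 ^ n)
      have h3 : ((2 ^ n * (5 * a / 2 ^ n) + 5 * a % 2 ^ n : ℕ) : ℤ) = ((5 * a : ℕ) : ℤ) := by
        rw [h2]
      push_cast at h3 ⊢
      linarith
    rw [h1, hz]
    ring
  choose z hz using hexp
  refine ⟨∑ a ∈ zvO n, z a, ?_⟩
  have h5 := zv_perm n hn fun a => (a : ℚ_[2]) ^ k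
  have h6 : ∑ a ∈ zvO n, ((5 * a % 2 ^ n : ℕ) : ℚ_[2]) ^ k =
      5 ^ k * zvS k n - 2 ^ n * ((k : ℚ_[2]) * 5 ^ (k - 1) *
        ∑ a ∈ zvO n, (a : ℚ_[2]) ^ (k - 1) * ((5 * a / 2 ^ n : ℕ) : ℚ_[2])) +
        (2 ^ n) ^ 2 * ((∑ a ∈ zvO n, z a : ℤ) : ℚ_[2]) := by
    rw [zvS, Int.cast_sum, Finset.mul_sum, Finset.mul_sum, Finset.mul_sum, Finset.mul_sum,
      ← Finset.sum_sub_distrib, ← Finset.sum_add_distrib]
    refine Finset.sum_congr rfl fun a _ => ?_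
    have h7 : (((((5 * a % 2 ^ n : ℕ) : ℤ)) ^ k : ℤ) : ℚ_[2]) = (((5 * a : ℤ) ^ k -
      k * (5 * a : ℤ) ^ (k - 1) * (2 ^ n * ((5 * a / 2 ^ n : ℕ) : ℤ)) +
        z a * (2 ^ n) ^ 2 : ℤ) : ℚ_[2]) := by rw [hz a]
    simp only [Int.cast_pow, Int.cast_natCast, Int.cast_add, Int.cast_sub, Int.cast_mul,
      Int.cast_ofNat] at h7
    rw [h7, mul_pow, mul_pow]
    ring
  have h8 : (2 : ℚ_[2]) ^ n ≠ 0 := pow_ne_zero _ two_ne_zero
  have h9 : (2 : ℚ_[2]) ^ n * ((k : ℚ_[2]) * 5 ^ (k - 1) *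
        ∑ a ∈ zvO n, (a : ℚ_[2]) ^ (k - 1) * ((5 * a / 2 ^ n : ℕ) : ℚ_[2])) =
      (5 ^ k - 1) * zvS k n + (2 ^ n) ^ 2 * ((∑ a ∈ zvO n, z a : ℤ) : ℚ_[2]) := by
    have h10 : ∑ a ∈ zvO n, ((5 * a % 2 ^ n : ℕ) : ℚ_[2]) ^ k = zvS k n := h5
    rw [h10] at h6
    linear_combination h6
  apply mul_left_cancel₀ h8
  rw [h9]
  field_simp

/-! ### The statement of the row -/

/-- `lim_n ∑_{a < 2^n odd} a^{k-1} (⌊5a/2^n⌋ - 2)/5 = (1 - 5^{-k})(1 - 2^{k-1}) B_k/k`. -/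
theorem tendsto_zetaSum (k : ℕ) (hk : Even k) (hk2 : 2 ≤ k) :
    Tendsto (fun n : ℕ ↦ ∑ a ∈ (Finset.range (2 ^ n)).filter (fun a ↦ Odd a),
      (a : ℚ_[2]) ^ (k - 1) * (((5 * a / 2 ^ n : ℕ) : ℚ_[2]) - 2) / 5) atTop
      (𝓝 (((1 - (5 : ℚ)⁻¹ ^ k) * (1 - 2 ^ (k - 1)) * bernoulli k / k : ℚ) : ℚ_[2])) := by
  have hk0 : (k : ℚ_[2]) ≠ 0 := by
    rw [Nat.cast_ne_zero]
    omega
  choose! Z hZ using fun n (hn : 1 ≤ n) => zv_key k n hn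
  -- the error term
  have hZ0 : Tendsto (fun n : ℕ => (2 : ℚ_[2]) ^ n * (Z n : ℚ_[2])) atTop (𝓝 0) := by
    have h1 : Tendsto (fun n : ℕ => ‖(2 : ℚ_[2]) ^ n‖) atTop (𝓝 0) := by
      simpa using zv_two_pow.norm
    refine squeeze_zero_norm (fun n => ?_) h1
    rw [norm_mul]
    exact mul_le_of_le_one_right (norm_nonneg _) (Padic.norm_int_le_one _)
  -- the sum of a^(k-1)
  have hS1 : Tendsto (fun n : ℕ => zvS (k - 1) n) atTop (𝓝 0) := by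
    have h1 := (zv_tendsto_S (k - 1)).mul zv_two_pow
    rw [mul_zero] at h1
    refine h1.congr fun n => ?_
    have : (2 : ℚ_[2]) ^ n ≠ 0 := pow_ne_zero _ two_ne_zero
    field_simp
  have h5 : (5 : ℚ_[2]) ^ (k - 1) ≠ 0 := pow_ne_zero _ (by norm_num)
  have hmain : Tendsto (fun n : ℕ => ((5 ^ k - 1) * (zvS k n / 2 ^ n) + 2 ^ n * (Z n : ℚ_[2])) /
      ((k : ℚ_[2]) * 5 ^ (k - 1)) / 5 - 2 * zvS (k - 1) n / 5) atTop
      (𝓝 (((5 ^ k - 1) * (((bernoulli k : ℚ) : ℚ_[2]) - 2 ^ k / 2 *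
        ((bernoulli k : ℚ) : ℚ_[2])) + 0) / ((k : ℚ_[2]) * 5 ^ (k - 1)) / 5 - 2 * 0 / 5)) :=
    (((((zv_tendsto_S k).const_mul _).add hZ0).div_const _).div_const _).sub
      ((hS1.const_mul 2).div_const 5)
  have hval : ((5 ^ k - 1) * (((bernoulli k : ℚ) : ℚ_[2]) - 2 ^ k / 2 *
        ((bernoulli k : ℚ) : ℚ_[2])) + 0) / ((k : ℚ_[2]) * 5 ^ (k - 1)) / 5 - 2 * 0 / 5 =
      (((1 - (5 : ℚ)⁻¹ ^ k) * (1 - 2 ^ (k - 1)) * bernoulli k / k : ℚ) : ℚ_[2]) := by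
    push_cast
    obtain ⟨j, rfl⟩ : ∃ j, k = j + 1 := ⟨k - 1, by omega⟩
    rw [Nat.add_sub_cancel, pow_succ, pow_succ, pow_succ]
    push_cast at hk0 ⊢
    have h6 : (5 : ℚ_[2]) ^ j ≠ 0 := pow_ne_zero _ (by norm_num)
    rw [inv_pow]
    field_simp
    ring
  rw [← hval]
  refine hmain.congr' ?_
  filter_upwards [eventually_ge_atTop 1] with n hn
  rw [← hZ n hn]
  have h7 : ∑ a ∈ (Finset.range (2 ^ n)).filter (fun a ↦ Odd a),
      (a : ℚ_[2]) ^ (k - 1) * (((5 * a / 2 ^ n : ℕ) : ℚ_[2]) - 2) / 5 =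
      (∑ a ∈ zvO n, (a : ℚ_[2]) ^ (k - 1) * ((5 * a / 2 ^ n : ℕ) : ℚ_[2])) / 5 -
        2 * zvS (k - 1) n / 5 := by
    rw [zvS, Finset.mul_sum, Finset.sum_div, Finset.sum_div, ← Finset.sum_sub_distrib]
    refine Finset.sum_congr rfl fun a _ => ?_
    ring
  rw [h7]
  congr 1
  field_simp

end GH
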