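import Pool.Agent.GH.ZChar
import Pool.Agent.GH.ZInt
import Pool.Agent.GH.ZVal

open PowerSeries Filter Topology

noncomputable section

namespace GH

/-! The Eisenstein family over `ℤ_2[[W]]`. -/

theorem ef_isUnit_odd {d : ℕ} (hd : Odd d) : IsUnit (d : ℤ_[2]) := by
  rw [PadicInt.isUnit_iff, PadicInt.norm_natCast_eq_one_iff]
  exact Nat.coprime_two_left.2 hd

theorem ef_iota_inv {d : ℕ} (hd : Odd d) : iota (Ring.inverse (d : ℤ_[2])) = (d : C2)⁻¹ := by
  have h1 : (d : ℤ_[2]) * Ring.inverse (d : ℤ_[2]) = 1 :=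
    Ring.mul_inverse_cancel _ (ef_isUnit_odd hd)
  have h2 := congrArg iota h1
  rw [map_mul, map_one, map_natCast] at h2
  exact eq_inv_of_mul_eq_one_right h2

theorem ef_sum_even {R : Type*} [AddCommMonoid R] (g : ℕ → R) (hg : ∀ d, ¬ Odd d → g d = 0)
    (n : ℕ) : ∑ d ∈ (2 * n).divisors, g d = ∑ d ∈ n.divisors, g d := by
  rcases Nat.eq_zero_or_pos n with rfl | hn
  · rfl
  symm
  refine Finset.sum_subset ?_ ?_
  · intro d hd
    rw [Nat.mem_divisors] at hd ⊢
    exact ⟨Dvd.dvd.mul_left hd.1 2, by omega⟩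
  · intro d hd hd'
    rw [Nat.mem_divisors] at hd hd'
    refine hg d fun hodd => hd' ⟨?_, by omega⟩
    exact (Nat.Coprime.dvd_mul_left (Nat.Coprime.symm (Nat.coprime_two_left.2 hodd))).1 hd.1

/-- the Eisenstein constant at classical weights -/
theorem ef_const (κ : Weight 2) (m : ℕ) (hm : 1 ≤ m)
    (hκ : ∀ u : (ℤ_[2])ˣ, ((κ u : C2ˣ) : C2) = iota (u : ℤ_[2]) ^ (4 * m))
    (hval : ∀ a : ℕ, Odd a → κ.val a = (a : C2) ^ (4 * m))
    (hval0 : ∀ a : ℕ, ¬ Odd a → κ.val a = 0) (Zv : C2)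
    (hZ : Tendsto (fun n : ℕ ↦ ∑ a ∈ Finset.range (2 ^ n), κ.val a / (a : C2) *
        (((((1 + 2 * 2) * a / 2 ^ n : ℕ) : C2) - (2 : ℕ)) / (1 + 2 * (2 : ℕ)))) atTop (𝓝 Zv))
    (hZ2 : κ.zetaIntegral = Zv) :
    κ.eisConst = ((-(2 * (4 * m : ℕ) / ((1 - 2 ^ (4 * m - 1)) * bernoulli (4 * m))) : ℚ) : C2) := by
  set k := 4 * m with hk
  have hk2 : 2 ≤ k := by omega
  have hkE : Even k := ⟨2 * m, by omega⟩
  have h1 := tendsto_zetaSum k hkE hk2
  have h2 := ((continuous_algebraMap ℚ_[2] C2).tendsto _).comp h1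
  have h3 : ((algebraMap ℚ_[2] C2) ∘ fun n : ℕ ↦
      ∑ a ∈ (Finset.range (2 ^ n)).filter (fun a ↦ Odd a),
        (a : ℚ_[2]) ^ (k - 1) * (((5 * a / 2 ^ n : ℕ) : ℚ_[2]) - 2) / 5) =
      (fun n : ℕ ↦ ∑ a ∈ Finset.range (2 ^ n), κ.val a / (a : C2) *
        (((((1 + 2 * 2) * a / 2 ^ n : ℕ) : C2) - (2 : ℕ)) / (1 + 2 * (2 : ℕ)))) := by
    funext n
    rw [Function.comp_apply, map_sum, Finset.sum_filter]
    refine Finset.sum_congr rfl fun a _ => ?_
    split_ifs with ha
    · have ha0 : (a : C2) ≠ 0 := by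
        have : a ≠ 0 := by
          rintro rfl
          exact (Nat.not_odd_zero) ha
        exact_mod_cast this
      rw [map_div₀, map_mul, map_pow, map_sub, map_natCast, map_natCast, hval a ha]
      have e1 : (a : C2) ^ k / (a : C2) = (a : C2) ^ (k - 1) := by
        have e2 : (a : C2) ^ k = (a : C2) ^ (k - 1) * a := by
          rw [← pow_succ]
          congr 1
          omega
        rw [e2, mul_div_cancel_right₀ _ ha0]
      rw [e1]
      have e3 : (algebraMap ℚ_[2] C2) 2 = 2 := map_ofNat _ 2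
      have e4 : (algebraMap ℚ_[2] C2) 5 = 5 := map_ofNat _ 5
      have e5 : ((1 + 2 * 2) * a / 2 ^ n : ℕ) = (5 * a / 2 ^ n : ℕ) := by norm_num
      rw [e3, e4, e5, mul_div_assoc]
      congr 2
      push_cast
      norm_num
    · rw [hval0 a ha, zero_div, zero_mul]
  rw [h3, map_ratCast] at h2
  have h4 := tendsto_nhds_unique hZ h2
  have h5 : κ.val (1 + 2 * 2) = (5 : C2) ^ k := by
    have := hval 5 (by decide)
    simpa using this
  unfold Weight.eisConst
  rw [hZ2, h4, h5]
  push_cast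
  have h6 : (1 - ((5 : C2))⁻¹ ^ k) ≠ 0 := by
    rw [sub_ne_zero]
    intro h
    rw [inv_pow, eq_comm, inv_eq_one] at h
    have h7 : ((5 ^ k : ℕ) : C2) = ((1 : ℕ) : C2) := by
      push_cast
      exact h
    have h8 : 5 ^ k = 1 := Nat.cast_injective h7
    have h9 : k = 0 := by
      rcases Nat.pow_eq_one.1 h8 with h9 | h9
      · norm_num at h9
      · exact h9
    omega
  rw [← inv_pow]
  rw [mul_assoc (1 - ((5 : C2))⁻¹ ^ k), mul_div_assoc (1 - ((5 : C2))⁻¹ ^ k),
    mul_comm (-2 : C2), mul_div_mul_left _ _ h6, div_div_eq_mul_div]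
  ring

theorem exists_eisFam : ∃ E : PowerSeries Lam,
    PowerSeries.coeff 0 E = 1 ∧ (∀ n, 1 ≤ n → X ∣ PowerSeries.coeff n E) ∧
    U 2 E = E ∧
    (∀ κ : Weight 2, κ.IsEven → κ.eis = evS κ.w E) ∧
    (∀ m : ℕ, 1 ≤ m → evS (25 ^ (2 * m) - 1) E =
      PowerSeries.map (algebraMap ℚ C2) (eisStab (4 * m))) := by
  obtain ⟨kap, k1, k2, k3, k4, k5, k6, k7, k8⟩ := exists_kap
  have hfam : KapFam kap := ⟨k1, k2, k3, k4, k5, k6, k7, k8,
    fun κ hκ => Weight.norm_w_lt_one κ hκ, fun κ a ha => Weight.val_of_not_odd κ ha⟩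
  obtain ⟨Z, hZu, hZ⟩ := exists_zetaUnit kap hfam
  have hZunit : IsUnit Z := by
    rw [PowerSeries.isUnit_iff_constantCoeff, ← PowerSeries.coeff_zero_eq_constantCoeff_apply]
    exact hZu
  obtain ⟨Zi, hZi⟩ := hZunit.exists_right_inv
  have hXunit : IsUnit (1 + X : Lam) := by
    rw [PowerSeries.isUnit_iff_constantCoeff]
    simp
  obtain ⟨V, hV⟩ := hXunit.exists_right_inv
  set c : Lam := -(1 - V) * Zi with hc
  have hXc : (X : Lam) ∣ c := by
    refine ⟨-V * Zi, ?_⟩
    rw [hc]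
    linear_combination Zi * hV
  set g : ℕ → Lam := fun d => kap d * PowerSeries.C (Ring.inverse (d : ℤ_[2])) with hg
  have hg0 : ∀ d, ¬ Odd d → g d = 0 := by
    intro d hd
    rw [hg]
    simp only
    rw [k2 d hd, zero_mul]
  set E : PowerSeries Lam := 1 + PowerSeries.mk fun n => c * ∑ d ∈ n.divisors, g d with hE
  have hcoeff : ∀ n, PowerSeries.coeff n E = (if n = 0 then 1 else 0) +
      c * ∑ d ∈ n.divisors, g d := by
    intro n
    rw [hE, map_add, PowerSeries.coeff_mk, PowerSeries.coeff_one]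
  have heis : ∀ κ : Weight 2, κ.IsEven → κ.eis = evS κ.w E := by
    intro κ hκ
    have hw := Weight.norm_w_lt_one κ hκ
    obtain ⟨φ, hφ⟩ := exists_evHom hw
    have hφX : φ X = κ.w := by rw [hφ, ev_X hw]
    have hφC : ∀ a, φ (PowerSeries.C a) = iota a := fun a => by rw [hφ, ev_C hw]
    have h5 : κ.val (1 + 2 * 2) = 1 + κ.w := by
      have h := k1 5 (by decide) κ hκ
      rw [k4, ← hφ, map_add, map_one, hφX] at h
      exact h
    have hVi : φ V = (1 + κ.w)⁻¹ := by
      have h := congrArg φ hV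
      rw [map_mul, map_add, map_one, hφX] at h
      exact eq_inv_of_mul_eq_one_right h
    have hZi' : φ Zi = (φ Z)⁻¹ := by
      have h := congrArg φ hZi
      rw [map_mul, map_one] at h
      exact eq_inv_of_mul_eq_one_right h
    have hconst : κ.eisConst = φ c := by
      unfold Weight.eisConst
      rw [(hZ κ hκ).2, h5, ← hφ, hc, map_mul, map_neg, map_sub, map_one, hVi, hZi']
      have h2 : (2 : C2) ≠ 0 := two_ne_zero
      rw [show (-2 : C2) * (1 - (1 + κ.w)⁻¹) = 2 * (-(1 - (1 + κ.w)⁻¹)) by ring,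
        mul_div_mul_left _ _ h2, div_eq_mul_inv]
    have hgd : ∀ d, φ (g d) = κ.val d / (d : C2) := by
      intro d
      by_cases hd : Odd d
      · rw [hg]
        simp only
        rw [map_mul, hφC, ef_iota_inv hd, k1 d hd κ hκ, hφ, div_eq_mul_inv]
      · rw [hg0 d hd, map_zero, Weight.val_of_not_odd κ hd, zero_div]
    ext n
    have h1 : PowerSeries.coeff n (evS κ.w E) = φ (PowerSeries.coeff n E) := by
      rw [evS, PowerSeries.coeff_mk, hφ]
    rw [h1, hcoeff, Weight.eis, map_add, PowerSeries.coeff_mk, PowerSeries.coeff_one, map_add,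
      map_mul, map_sum, hconst]
    simp only [hgd]
    congr 1
    split_ifs <;> simp
  refine ⟨E, ?_, ?_, ?_, heis, ?_⟩
  · rw [hcoeff]
    simp
  · intro n hn
    rw [hcoeff, if_neg (by omega), zero_add]
    exact Dvd.dvd.mul_right hXc _
  · ext1 n
    rw [U, PowerSeries.coeff_mk, hcoeff, hcoeff, ef_sum_even g hg0 n]
    congr 1
    by_cases h : n = 0
    · simp [h]
    · rw [if_neg h, if_neg (by omega)]
  · intro m hm
    obtain ⟨κ, hκ⟩ := exists_powWeight (4 * m)
    have hval : ∀ a : ℕ, Odd a → κ.val a = (a : C2) ^ (4 * m) := by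
      intro a ha
      unfold Weight.val
      rw [dif_pos (ef_isUnit_odd ha), hκ]
      rw [IsUnit.unit_spec, map_natCast]
    have heven : κ.IsEven := by
      unfold Weight.IsEven
      apply Units.ext
      rw [hκ, Units.val_neg, Units.val_one, map_neg, map_one, pow_mul]
      norm_num
    have hw : κ.w = 25 ^ (2 * m) - 1 := by
      unfold Weight.w
      have h5 : κ.val (1 + 2 * 2) = (5 : C2) ^ (4 * m) := by
        have := hval 5 (by decide)
        simpa using this
      rw [h5]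
      have h6 : (5 : C2) ^ (4 * m) = 25 ^ (2 * m) := by
        rw [show 4 * m = 2 * (2 * m) by ring, pow_mul]
        norm_num
      rw [h6]
    rw [← hw, ← heis κ heven]
    have hconst := ef_const κ m hm hκ hval (fun a ha => Weight.val_of_not_odd κ ha) _
      (hZ κ heven).1 (hZ κ heven).2
    ext n
    rw [Weight.eis, eisStab, map_add, PowerSeries.coeff_mk, PowerSeries.coeff_one,
      PowerSeries.coeff_map, map_add, PowerSeries.coeff_mk, PowerSeries.coeff_one, map_add,
      map_mul, map_sum, hconst]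
    congr 1
    · split_ifs <;> simp
    · congr 1
      refine Finset.sum_congr rfl fun d _ => ?_
      split_ifs with hd
      · rw [hval d hd]
        have hd0 : (d : C2) ≠ 0 := by
          have : d ≠ 0 := by
            rintro rfl
            exact (Nat.not_odd_zero) hd
          exact_mod_cast this
        have e2 : (d : C2) ^ (4 * m) = (d : C2) ^ (4 * m - 1) * d := by
          rw [← pow_succ]
          congr 1
          omega
        rw [e2, mul_div_cancel_right₀ _ hd0]
        simp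
      · rw [Weight.val_of_not_odd κ hd, zero_div, map_zero]

end GH
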