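import Pool.Agent.GH.Tate

open PowerSeries Filter Topology

noncomputable section

namespace GH

/-! ### Helper lemmas (prefix `gn_`) -/

/-- Maximum modulus principle for power series convergent on the closed unit ball. -/
theorem gn_exists_generic_series {K : Type*} [NormedField K] [IsUltrametricDist K]
    [IsAlgClosed K] [CompleteSpace K] {a : ℕ → K} (ha : Tendsto a atTop (𝓝 0)) (T : Finset K)
    (hT : ∀ t ∈ T, ‖t‖ ≤ 1) :
    ∃ x : K, ‖x‖ = 1 ∧ (∀ t ∈ T, ‖x - t‖ = 1) ∧ ∀ n, ‖a n‖ ≤ ‖∑' n, a n * x ^ n‖ := by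
  classical
  by_cases h0 : ∀ n, a n = 0
  · obtain ⟨x, hx, hx'⟩ := exists_generic T hT
    exact ⟨x, hx, hx', fun n => by simp [h0]⟩
  push Not at h0
  obtain ⟨k, hk⟩ := h0
  have hkpos : 0 < ‖a k‖ := norm_pos_iff.2 hk
  have h1 : Tendsto (fun n => ‖a n‖) atTop (𝓝 0) := by simpa using ha.norm
  obtain ⟨N, hN⟩ := eventually_atTop.1 (h1.eventually_lt_const hkpos)
  have hkN : k < N := by
    by_contra hc
    exact lt_irrefl _ (hN k (by omega))
  set P : Polynomial K := ∑ i ∈ Finset.range N, Polynomial.monomial i (a i) with hP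
  have hcoeff : ∀ n, n < N → P.coeff n = a n := by
    intro n hn
    rw [hP, Polynomial.finsetSum_coeff]
    simp only [Polynomial.coeff_monomial]
    rw [Finset.sum_ite_eq' (Finset.range N) n, if_pos (Finset.mem_range.2 hn)]
  obtain ⟨x, hx, hx', hmax⟩ := exists_coeff_le P T hT
  have heval : P.eval x = ∑ i ∈ Finset.range N, a i * x ^ i := by
    rw [hP, Polynomial.eval_finsetSum]
    simp only [Polynomial.eval_monomial]
  have hs := summable_pow ha hx.le
  have htail : ‖∑' n, a (n + N) * x ^ (n + N)‖ < ‖a k‖ := by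
    apply norm_tsum_lt
    · exact (tendsto_add_atTop_iff_nat (f := fun n => a n * x ^ n) N).2 hs.tendsto_atTop_zero
    · exact hkpos
    · intro n
      rw [norm_mul, norm_pow, hx, one_pow, mul_one]
      exact hN _ (by omega)
  have hle : ‖a k‖ ≤ ‖P.eval x‖ := by
    rw [← hcoeff k hkN]
    exact hmax k
  have hsum : ‖∑' n, a n * x ^ n‖ = ‖P.eval x‖ := by
    rw [← hs.sum_add_tsum_nat_add N, ← heval]
    exact norm_add_of_lt (htail.trans_le hle)
  refine ⟨x, hx, hx', fun n => ?_⟩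
  rw [hsum]
  by_cases hn : n < N
  · rw [← hcoeff n hn]
    exact hmax n
  · exact (hN n (by omega)).le.trans hle

theorem gn_norm_iota (a : ℤ_[2]) : ‖iota a‖ = ‖a‖ := by
  change ‖algebraMap ℚ_[2] C2 (a : ℚ_[2])‖ = ‖a‖
  rw [norm_algebraMap']
  rfl

theorem gn_norm_eight : ‖(8 : C2)‖ = 1 / 8 := by
  have h1 : (8 : C2) = algebraMap ℚ_[2] C2 ((2 : ℕ) ^ 3) := by
    rw [map_pow, map_natCast]
    norm_num
  rw [h1, norm_algebraMap', norm_pow, Padic.norm_p]
  norm_num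

/-- The coefficients of `x ↦ ev (8 x) F`. -/
def gnc (F : Lam) (m : ℕ) : C2 := iota (PowerSeries.coeff m F) * 8 ^ m

theorem norm_gnc (F : Lam) (m : ℕ) : ‖gnc F m‖ = ‖PowerSeries.coeff m F‖ * (1 / 8) ^ m := by
  rw [gnc, norm_mul, norm_pow, gn_norm_eight, gn_norm_iota]

theorem tendsto_gnc (F : Lam) : Tendsto (gnc F) atTop (𝓝 0) := by
  have h1 : Tendsto (fun m : ℕ => (1 / 8 : ℝ) ^ m) atTop (𝓝 0) :=
    tendsto_pow_atTop_nhds_zero_of_lt_one (by norm_num) (by norm_num)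
  refine squeeze_zero_norm (fun m => ?_) h1
  rw [norm_gnc]
  exact mul_le_of_le_one_left (by positivity) (PadicInt.norm_le_one _)

theorem ev_eight_mul (F : Lam) (x : C2) : ev (8 * x) F = ∑' m, gnc F m * x ^ m := by
  unfold ev gnc
  apply tsum_congr
  intro m
  rw [mul_pow]
  ring

/-! ### The statements of the row -/

/-- Gauss norm for polynomials: some point of the closed unit ball outside finitely many residue
classes attains it. -/
theorem exists_generic_point (F : Lam) (T : Finset C2) : ∃ x : C2, ‖x‖ = 1 ∧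
    (∀ t ∈ T, ‖x - t‖ = 1 ∨ ¬ ‖t‖ ≤ 1) ∧
    ∀ m, ‖PowerSeries.coeff m F‖ ≤ 8 ^ m * ‖ev (8 * x) F‖ := by
  classical
  obtain ⟨x, hx, hx', h⟩ := gn_exists_generic_series (tendsto_gnc F) (T.filter fun t => ‖t‖ ≤ 1)
    fun t ht => (Finset.mem_filter.1 ht).2
  refine ⟨x, hx, fun t ht => ?_, fun m => ?_⟩
  · by_cases h1 : ‖t‖ ≤ 1
    · exact Or.inl (hx' t (Finset.mem_filter.2 ⟨ht, h1⟩))
    · exact Or.inr h1
  · have h1 := h m
    rw [norm_gnc, ← ev_eight_mul] at h1
    have h2 : ‖PowerSeries.coeff m F‖ = 8 ^ m * (‖PowerSeries.coeff m F‖ * (1 / 8) ^ m) := by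
      rw [one_div, inv_pow]
      field_simp
    rw [h2]
    gcongr

/-- Gauss norm: a power series over `ℤ_2` bounded by `B` on `‖w‖ ≤ 1/8`. -/
theorem norm_coeff_le_of_bound (F : Lam) (B : ℝ) (h : ∀ w : C2, ‖w‖ ≤ 1 / 8 → ‖ev w F‖ ≤ B)
    (m : ℕ) : ‖PowerSeries.coeff m F‖ ≤ 8 ^ m * B := by
  obtain ⟨x, hx, -, h1⟩ := exists_generic_point F ∅
  refine (h1 m).trans ?_
  gcongr
  apply h
  rw [norm_mul, gn_norm_eight, hx, mul_one]

end GH
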