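import Pool.Agent.GH.ExtC
import Pool.Agent.GH.GaussN

open PowerSeries Filter Topology

noncomputable section

namespace GH

/-! From the central disc to the whole weight disc. -/

theorem g1_param {y : C2} (hy : ‖y‖ ≤ 1) :
    ∃ x : C2, ‖x‖ ≤ 1 ∧ wx x = 8 * y ∧ ‖x‖ = ‖y‖ ∧ ‖x - 1‖ = ‖y - 3‖ := by
  have h8 : ‖8 * y‖ = ‖y‖ / 8 := by
    rw [norm_mul, g1_norm_eight]
    ring
  obtain ⟨x, hx, hxy⟩ := exists_wx_eq (w := 8 * y) (by rw [h8]; linarith)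
  refine ⟨x, hx, hxy, ?_, ?_⟩
  · have h1 := norm_wx hx
    rw [hxy, h8] at h1
    linarith
  · have h1 := norm_wx_sub hx (y := ((1 : ℕ) : C2)) (g1_norm_nat_le 1)
    rw [wx_natCast, hxy, Nat.cast_one, pow_one] at h1
    have h2 : (8 * y - (25 - 1) : C2) = 8 * (y - 3) := by ring
    rw [h2, norm_mul, g1_norm_eight] at h1
    linarith

theorem g1_odd_sub {m : ℕ} (h : ¬ Even m) : ‖(m : C2) - 1‖ ≤ 1 / 2 := by
  obtain ⟨k, rfl⟩ := Nat.not_even_iff_odd.1 h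
  have h1 : (((2 * k + 1 : ℕ) : C2)) - 1 = ((2 * k : ℕ) : C2) := by push_cast; ring
  rw [h1]
  exact g1_norm_even ⟨k, by ring⟩

theorem g1_even_sub {m : ℕ} (h : Even m) : ‖(m : C2) - 1‖ = 1 := by
  rw [g1_sub_right, norm_one]
  rw [norm_one]
  exact lt_of_le_of_lt (g1_norm_even h) (by norm_num)

/-- The value of the ghost coefficient at a generic point. -/
theorem g1_ghost_gen {x : C2} (hx : ‖x‖ = 1) (hx1 : ‖x - 1‖ = 1) (n : ℕ) :
    ‖ghost 2 (wx x) n‖ = (1 / 8) ^ (n * (n + 1) / 2) := by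
  have h := g1_ghost (x := x) hx.le (ρ := 1) (σ := 1) (fun m hm => by
    rw [g1_sub_left (by rw [hx]; exact lt_of_le_of_lt (g1_norm_even hm) (by norm_num)), hx])
    (fun m hm => by
      have h1 : x - m = (x - 1) - (m - 1) := by ring
      rw [h1, g1_sub_left (by rw [hx1]; exact lt_of_le_of_lt (g1_odd_sub hm) (by norm_num)),
        hx1]) n
  rw [h, one_pow, one_pow, one_mul, mul_one]

/-- near `0` -/
theorem g1_ghost_zero {x : C2} (h1 : 1 / 2 < ‖x‖) (h2 : ‖x‖ < 1) (n : ℕ) :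
    ‖ghost 2 (wx x) n‖ = (1 / 8) ^ (n * (n + 1) / 2) * ‖x‖ ^ g1A n := by
  have h := g1_ghost (x := x) h2.le (ρ := ‖x‖) (σ := 1) (fun m hm =>
    g1_sub_left (lt_of_le_of_lt (g1_norm_even hm) h1))
    (fun m hm => by
      have h3 := g1_norm_odd (Nat.not_even_iff_odd.1 hm)
      rw [g1_sub_right (by rw [h3]; exact h2), h3]) n
  rw [h, one_pow, mul_one]

/-- near `1` -/
theorem g1_ghost_one {x : C2} (hx : ‖x‖ ≤ 1) (h1 : 1 / 2 < ‖x - 1‖) (h2 : ‖x - 1‖ < 1) (n : ℕ) :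
    ‖ghost 2 (wx x) n‖ = (1 / 8) ^ (n * (n + 1) / 2) * ‖x - 1‖ ^ g1B n := by
  have h := g1_ghost (x := x) hx (ρ := 1) (σ := ‖x - 1‖) (fun m hm => by
      have h3 : x - m = (x - 1) - (m - 1) := by ring
      rw [h3, g1_sub_right (by rw [g1_even_sub hm]; exact h2), g1_even_sub hm])
    (fun m hm => by
      have h3 : x - m = (x - 1) - (m - 1) := by ring
      rw [h3, g1_sub_left (lt_of_le_of_lt (g1_odd_sub hm) h1)]) n
  rw [h, one_pow, one_mul]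

open Polynomial in
/-- the truncation of the power series as a polynomial in `y = w/8` -/
def g1P (F : Lam) (l : ℕ) : Polynomial C2 :=
  ∑ m ∈ Finset.range (l + 1), Polynomial.C (iota (PowerSeries.coeff m F) * 8 ^ m) *
    (Polynomial.X : Polynomial C2) ^ m

theorem g1P_natDegree (F : Lam) (l : ℕ) : (g1P F l).natDegree ≤ l := by
  unfold g1P
  refine Polynomial.natDegree_sum_le_of_forall_le _ _ fun m hm => ?_
  refine (Polynomial.natDegree_C_mul_X_pow_le _ _).trans ?_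
  rw [Finset.mem_range] at hm
  omega

theorem g1P_coeff (F : Lam) (l : ℕ) :
    (g1P F l).coeff l = iota (PowerSeries.coeff l F) * 8 ^ l := by
  unfold g1P
  rw [Polynomial.finset_sum_coeff]
  simp only [Polynomial.coeff_C_mul_X_pow]
  rw [Finset.sum_ite_eq, if_pos (Finset.mem_range.2 (Nat.lt_succ_self l))]

theorem g1P_eval (F : Lam) (l : ℕ) (y : C2) : (g1P F l).eval y =
    ∑ m ∈ Finset.range (l + 1), iota (PowerSeries.coeff m F) * (8 * y) ^ m := by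
  unfold g1P
  rw [Polynomial.eval_finset_sum]
  refine Finset.sum_congr rfl fun m _ => ?_
  rw [Polynomial.eval_mul, Polynomial.eval_C, Polynomial.eval_pow, Polynomial.eval_X, mul_pow]
  ring

theorem g1P_norm (F : Lam) (l : ℕ) {y : C2} (hy : ‖y‖ ≤ 1) {v : ℝ}
    (hv : ‖ev (8 * y) F‖ = v) (hv1 : (1 / 8) ^ l * (3 / 4) ≤ v) : ‖(g1P F l).eval y‖ = v := by
  have h8 : ‖8 * y‖ ≤ 1 / 8 := by
    rw [norm_mul, g1_norm_eight]
    linarith
  have h1 := g1_ev_sub_sum F (w := 8 * y) (lt_of_le_of_lt h8 (by norm_num)) l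
  rw [← g1P_eval] at h1
  have h2 : ‖8 * y‖ ^ (l + 1) ≤ (1 / 8) ^ (l + 1) :=
    pow_le_pow_left₀ (norm_nonneg _) h8 _
  have h3 : (0 : ℝ) < (1 / 8) ^ l := by positivity
  rw [← hv]
  refine g1_norm_eq (lt_of_le_of_lt (h1.trans h2) ?_)
  rw [hv, pow_succ]
  linarith

/-- The coefficients of `a n`. -/
theorem g1_coeffs (a : ℕ → Lam)
    (hcent : ∀ w : C2, ‖w‖ ≤ 1 / 8 →
      newtonPolygon 2 (fun n ↦ ev w (a n)) = newtonPolygon 2 (ghost 2 w)) (n : ℕ) :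
    (∀ m, ‖PowerSeries.coeff m (a n)‖ ≤ 8 ^ m * (1 / 8) ^ (n * (n + 1) / 2)) ∧
      ‖PowerSeries.coeff (n * (n + 1) / 2) (a n)‖ = 1 := by
  have hev : ∀ x : C2, ‖x‖ ≤ 1 →
      (1 / 8) ^ (n * (n + 1) / 2) * (3 / 4) ≤ ‖ghost 2 (wx x) n‖ →
      ‖ev (wx x) (a n)‖ = ‖ghost 2 (wx x) n‖ := by
    intro x hx h
    have h1 := hcent (wx x) (by rw [norm_wx hx]; linarith)
    exact g1_tri (a := fun n ↦ ev (wx x) (a n)) h1 (fun i => g1_ghost_le hx i) h
  have h3 : (0 : ℝ) < (1 / 8) ^ (n * (n + 1) / 2) := by positivity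
  -- the three cases
  have ha : ∀ y : C2, ‖y‖ = 1 → ‖y - 3‖ = 1 →
      ‖ev (8 * y) (a n)‖ = (1 / 8) ^ (n * (n + 1) / 2) := by
    intro y hy hy3
    obtain ⟨x, hx, hxy, hx1, hx2⟩ := g1_param hy.le
    have hg := g1_ghost_gen (hx1.trans hy) (hx2.trans hy3) n
    rw [← hxy, hev x hx (by rw [hg]; linarith), hg]
  have hb : ∀ y : C2, 1 / 2 < ‖y‖ → ‖y‖ < 1 → 3 / 4 ≤ ‖y‖ ^ g1A n →
      ‖ev (8 * y) (a n)‖ = (1 / 8) ^ (n * (n + 1) / 2) * ‖y‖ ^ g1A n := by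
    intro y hy hy1 hy2
    obtain ⟨x, hx, hxy, hx1, hx2⟩ := g1_param hy1.le
    have hg := g1_ghost_zero (x := x) (by rw [hx1]; exact hy) (by rw [hx1]; exact hy1) n
    rw [hx1] at hg
    rw [← hxy, hev x hx (by rw [hg]; exact mul_le_mul_of_nonneg_left hy2 h3.le), hg]
  have hc : ∀ y : C2, 1 / 2 < ‖y - 3‖ → ‖y - 3‖ < 1 → 3 / 4 ≤ ‖y - 3‖ ^ g1B n →
      ‖ev (8 * y) (a n)‖ = (1 / 8) ^ (n * (n + 1) / 2) * ‖y - 3‖ ^ g1B n := by
    intro y hy hy1 hy2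
    have hyn : ‖y‖ = 1 := by
      have h4 := g1_norm_eq' (x := y) (y := 3) (by rw [g1_norm_three]; exact hy1)
      rw [h4, g1_norm_three]
    obtain ⟨x, hx, hxy, hx1, hx2⟩ := g1_param hyn.le
    have hg := g1_ghost_one (x := x) hx (by rw [hx2]; exact hy) (by rw [hx2]; exact hy1) n
    rw [hx2] at hg
    rw [← hxy, hev x hx (by rw [hg]; exact mul_le_mul_of_nonneg_left hy2 h3.le), hg]
  -- a generic point
  obtain ⟨x', hx', hT, hbd⟩ := exists_generic_point (a n) {3}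
  have hx3 : ‖x' - 3‖ = 1 := by
    rcases hT 3 (Finset.mem_singleton_self _) with h | h
    · exact h
    · exact absurd g1_norm_three.le h
  rw [ha x' hx' hx3] at hbd
  refine ⟨hbd, ?_⟩
  -- the polynomial
  have hpow : ∀ k : ℕ, ∀ᶠ r in 𝓝 (1 : ℝ), 3 / 4 < r ^ k := by
    intro k
    have h1 : Tendsto (fun r : ℝ => r ^ k) (𝓝 1) (𝓝 (1 ^ k)) := (continuous_pow k).tendsto 1
    rw [one_pow] at h1
    exact h1.eventually (lt_mem_nhds (by norm_num))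
  have hhalf : ∀ᶠ r in 𝓝 (1 : ℝ), 1 / 2 < r := lt_mem_nhds (by norm_num)
  have hp := g1_poly (g1P (a n) (n * (n + 1) / 2)) (g1P_natDegree _ _) (g1_AB n) h3
    (fun y hy hy3 => g1P_norm _ _ hy.le (ha y hy hy3) (by linarith))
    (by
      filter_upwards [hpow (g1A n), hhalf] with r hr1 hr2 y hy hr3
      subst hy
      exact g1P_norm _ _ hr3.le (hb y hr2 hr3 hr1.le) (mul_le_mul_of_nonneg_left hr1.le h3.le))
    (by
      filter_upwards [hpow (g1B n), hhalf] with r hr1 hr2 y hy hr3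
      subst hy
      have hyn : ‖y‖ = 1 := by
        have h4 := g1_norm_eq' (x := y) (y := 3) (by rw [g1_norm_three]; exact hr3)
        rw [h4, g1_norm_three]
      exact g1P_norm _ _ hyn.le (hc y hr2 hr3 hr1.le) (mul_le_mul_of_nonneg_left hr1.le h3.le))
    ⟨x', hx', hx3⟩
  rw [g1P_coeff, norm_mul, g1_iota_norm, norm_pow, g1_norm_eight] at hp
  exact mul_right_cancel₀ h3.ne' (hp.trans (one_mul _).symm)

theorem ghost_extend (a : ℕ → Lam) (h0 : ∀ w : C2, ‖w‖ < 1 → ev w (a 0) = 1)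
    (hcent : ∀ w : C2, ‖w‖ ≤ 1 / 8 →
      newtonPolygon 2 (fun n ↦ ev w (a n)) = newtonPolygon 2 (ghost 2 w))
    {w : C2} (hw : ‖w‖ < 1) :
    newtonPolygon 2 (fun n ↦ ev w (a n)) = newtonPolygon 2 (ghost 2 w) := by
  rcases le_or_gt ‖w‖ (1 / 8) with h | h
  · exact hcent w h
  · refine g1_np_congr 2 fun n => ?_
    obtain ⟨h1, h2⟩ := g1_coeffs a hcent n
    rw [norm_ghost_outer h n]
    exact g1_ev_outer (a n) (fun m _ => h1 m) h2 h hw

end GH
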