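import Pool.Agent.GH.Base

/-!
# Ghost conjecture `(2,1)`: the expansion of a power series in powers of `f = q + ⋯`
-/

open PowerSeries Filter Topology

noncomputable section

namespace GH

/-! The expansion of a power series in powers of `f = q + ⋯`. -/

variable {R : Type*} [CommRing R] (p : ℕ)

lemma fx_constantCoeff_euler (R : Type*) [CommRing R] (k : ℕ) :
    PowerSeries.constantCoeff (euler R k) = 1 := by
  rw [← PowerSeries.coeff_zero_eq_constantCoeff_apply]
  unfold euler
  rw [PowerSeries.coeff_mk]
  simp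

lemma fx_constantCoeff_inv (R : Type*) [CommRing R] :
    PowerSeries.constantCoeff (invOfUnit (euler R 1) 1) = 1 := by
  rw [PowerSeries.constantCoeff_invOfUnit]
  simp

lemma fx_mul_inv (R : Type*) [CommRing R] : euler R 1 * invOfUnit (euler R 1) 1 = 1 :=
  PowerSeries.mul_invOfUnit _ _ (by rw [fx_constantCoeff_euler]; rfl)

/-- the quotient of `f` by `q` -/
def fxU (p : ℕ) (R : Type*) [CommRing R] : PowerSeries R :=
  (euler R p * invOfUnit (euler R 1) 1) ^ (24 / (p - 1))

lemma fx_haupt (R : Type*) [CommRing R] : hauptmodul p R = X * fxU p R := rfl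

lemma fx_constantCoeff_U (R : Type*) [CommRing R] : PowerSeries.constantCoeff (fxU p R) = 1 := by
  unfold fxU
  rw [map_pow, map_mul, fx_constantCoeff_euler, fx_constantCoeff_inv]
  simp

theorem coeff_zero_hauptmodul : PowerSeries.coeff 0 (hauptmodul p R) = 0 := by
  rw [fx_haupt]
  simp

theorem coeff_one_hauptmodul : PowerSeries.coeff 1 (hauptmodul p R) = 1 := by
  rw [fx_haupt]
  have h := PowerSeries.coeff_succ_X_mul 0 (fxU p R)
  rw [zero_add] at h
  rw [h, PowerSeries.coeff_zero_eq_constantCoeff_apply, fx_constantCoeff_U]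

lemma fx_map_euler {S : Type*} [CommRing S] (φ : R →+* S) (k : ℕ) :
    PowerSeries.map φ (euler R k) = euler S k := by
  ext n
  rw [PowerSeries.coeff_map]
  unfold euler
  rw [PowerSeries.coeff_mk, PowerSeries.coeff_mk, ← PowerSeries.coeff_map, map_prod]
  simp

lemma fx_map_inv {S : Type*} [CommRing S] (φ : R →+* S) :
    PowerSeries.map φ (invOfUnit (euler R 1) 1) = invOfUnit (euler S 1) 1 := by
  have h1 : euler S 1 * PowerSeries.map φ (invOfUnit (euler R 1) 1) = 1 := by
    rw [← fx_map_euler φ 1, ← map_mul, fx_mul_inv, map_one]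
  have h2 := fx_mul_inv S
  calc PowerSeries.map φ (invOfUnit (euler R 1) 1)
      = (euler S 1 * invOfUnit (euler S 1) 1) * PowerSeries.map φ (invOfUnit (euler R 1) 1) := by
        rw [h2, one_mul]
    _ = invOfUnit (euler S 1) 1 * (euler S 1 * PowerSeries.map φ (invOfUnit (euler R 1) 1)) := by
        ring
    _ = invOfUnit (euler S 1) 1 := by rw [h1, mul_one]

theorem map_hauptmodul {S : Type*} [CommRing S] (φ : R →+* S) :
    PowerSeries.map φ (hauptmodul p R) = hauptmodul p S := by
  unfold hauptmodul
  rw [map_mul, map_pow, map_mul, fx_map_euler, fx_map_inv, PowerSeries.map_X]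

lemma fx_hasSubst : HasSubst (hauptmodul p R) := by
  apply HasSubst.of_constantCoeff_zero'
  rw [← PowerSeries.coeff_zero_eq_constantCoeff_apply]
  exact coeff_zero_hauptmodul p

lemma fx_coeff_pow_lt {n m : ℕ} (h : n < m) :
    PowerSeries.coeff n (hauptmodul p R ^ m) = 0 := by
  rw [fx_haupt, mul_pow, PowerSeries.coeff_X_pow_mul', if_neg (by omega)]

lemma fx_coeff_pow_self (n : ℕ) : PowerSeries.coeff n (hauptmodul p R ^ n) = 1 := by
  rw [fx_haupt, mul_pow, PowerSeries.coeff_X_pow_mul', if_pos le_rfl, Nat.sub_self,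
    PowerSeries.coeff_zero_eq_constantCoeff_apply, map_pow, fx_constantCoeff_U, one_pow]

lemma fx_coeff_subst (g : PowerSeries R) (n : ℕ) :
    PowerSeries.coeff n (g.subst (hauptmodul p R)) =
      ∑ m ∈ Finset.range n, PowerSeries.coeff m g * PowerSeries.coeff n (hauptmodul p R ^ m) +
        PowerSeries.coeff n g := by
  rw [PowerSeries.coeff_subst' (fx_hasSubst p), finsum_eq_sum_of_support_subset (s := Finset.range (n + 1))]
  · rw [Finset.sum_range_succ, fx_coeff_pow_self]
    simp only [smul_eq_mul, mul_one]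
  · intro m hm
    rw [Function.mem_support] at hm
    rw [Finset.coe_range, Set.mem_Iio]
    by_contra h
    exact hm (by rw [fx_coeff_pow_lt p (by omega), smul_zero])

lemma fx_fcoeff (F : PowerSeries R) (n : ℕ) :
    fcoeff p F n = PowerSeries.coeff n F -
      ∑ m ∈ Finset.range n, fcoeff p F m * PowerSeries.coeff n (hauptmodul p R ^ m) := by
  rw [fcoeff, Finset.sum_range]

theorem subst_fcoeff (F : PowerSeries R) :
    (PowerSeries.mk (fcoeff p F)).subst (hauptmodul p R) = F := by
  ext n
  rw [fx_coeff_subst]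
  simp only [PowerSeries.coeff_mk]
  rw [fx_fcoeff p F n]
  ring

theorem fcoeff_subst (g : PowerSeries R) :
    fcoeff p (g.subst (hauptmodul p R)) = fun n ↦ PowerSeries.coeff n g := by
  funext n
  induction n using Nat.strong_induction_on with
  | _ n ih =>
    rw [fx_fcoeff, fx_coeff_subst]
    have h : ∑ m ∈ Finset.range n, fcoeff p (g.subst (hauptmodul p R)) m *
        PowerSeries.coeff n (hauptmodul p R ^ m) =
        ∑ m ∈ Finset.range n, PowerSeries.coeff m g *
          PowerSeries.coeff n (hauptmodul p R ^ m) :=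
      Finset.sum_congr rfl fun m hm => by rw [ih m (Finset.mem_range.1 hm)]
    rw [h]
    ring

theorem fcoeff_mul (F G : PowerSeries R) (n : ℕ) :
    fcoeff p (F * G) n = ∑ ij ∈ Finset.HasAntidiagonal.antidiagonal n, fcoeff p F ij.1 * fcoeff p G ij.2 := by
  have h : F * G = (PowerSeries.mk (fcoeff p F) * PowerSeries.mk (fcoeff p G)).subst
      (hauptmodul p R) := by
    rw [PowerSeries.subst_mul (fx_hasSubst p), subst_fcoeff, subst_fcoeff]
  rw [h, fcoeff_subst]
  show PowerSeries.coeff n (PowerSeries.mk (fcoeff p F) * PowerSeries.mk (fcoeff p G)) = _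
  rw [PowerSeries.coeff_mul]
  simp only [PowerSeries.coeff_mk]

theorem fcoeff_zero (F : PowerSeries R) : fcoeff p F 0 = PowerSeries.coeff 0 F := by
  rw [fx_fcoeff]
  simp

theorem fcoeff_map {S : Type*} [CommRing S] (φ : R →+* S) (F : PowerSeries R) (n : ℕ) :
    fcoeff p (PowerSeries.map φ F) n = φ (fcoeff p F n) := by
  induction n using Nat.strong_induction_on with
  | _ n ih =>
    rw [fx_fcoeff, fx_fcoeff p F n, map_sub, map_sum, PowerSeries.coeff_map]
    congr 1
    refine Finset.sum_congr rfl fun m hm => ?_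
    have e : hauptmodul p S ^ m = PowerSeries.map φ (hauptmodul p R ^ m) := by
      rw [map_pow, map_hauptmodul]
    rw [ih m (Finset.mem_range.1 hm), map_mul, e, PowerSeries.coeff_map]

/-- the solution of `g (1 + 16 g) = X` -/
def fxG : PowerSeries ℤ :=
  X * rescale (-16 : ℤ) (PowerSeries.map (Nat.castRingHom ℤ) catalanSeries)

lemma fxG_eq : fxG * (1 + 16 * fxG) = X := by
  have h1 : (PowerSeries.map (Nat.castRingHom ℤ) catalanSeries) ^ 2 * X + 1 =
      PowerSeries.map (Nat.castRingHom ℤ) catalanSeries := by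
    have h := congrArg (PowerSeries.map (Nat.castRingHom ℤ)) catalanSeries_sq_mul_X_add_one
    simpa using h
  have h2 := congrArg (rescale (-16 : ℤ)) h1
  rw [map_add, map_mul, map_pow, map_one, rescale_X] at h2
  set D := rescale (-16 : ℤ) (PowerSeries.map (Nat.castRingHom ℤ) catalanSeries) with hD
  have h3 : (PowerSeries.C (-16 : ℤ) : PowerSeries ℤ) = -16 := by
    rw [map_neg]
    rfl
  rw [h3] at h2
  show X * D * (1 + 16 * (X * D)) = X
  calc X * D * (1 + 16 * (X * D)) = X * (D - D ^ 2 * (-16 * X)) := by ring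
    _ = X * 1 := by
        congr 1
        rw [sub_eq_iff_eq_add, add_comm]
        exact h2.symm
    _ = X := mul_one _

/-- `h` as a power series in `f`: integral coefficients. -/
theorem exists_hser_eq_subst {R : Type*} [CommRing R]
    (h : hauptmodul 2 R = hser R * (1 + 16 * hser R)) :
    ∃ g : PowerSeries ℤ, PowerSeries.coeff 0 g = 0 ∧ PowerSeries.coeff 1 g = 1 ∧
      g * (1 + 16 * g) = X ∧
      hser R = (PowerSeries.map (Int.castRingHom R) g).subst (hauptmodul 2 R) := by
  refine ⟨fxG, ?_, ?_, fxG_eq, ?_⟩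
  · unfold fxG
    simp
  · unfold fxG
    have h1 := PowerSeries.coeff_succ_X_mul 0
      (rescale (-16 : ℤ) (PowerSeries.map (Nat.castRingHom ℤ) catalanSeries))
    rw [zero_add] at h1
    rw [h1, coeff_rescale, PowerSeries.coeff_map]
    simp
  · set G := (PowerSeries.map (Int.castRingHom R) fxG).subst (hauptmodul 2 R) with hG
    have h1 : G * (1 + 16 * G) = hauptmodul 2 R := by
      have h2 := congrArg (PowerSeries.map (Int.castRingHom R)) fxG_eq
      rw [map_mul, map_add, map_mul, map_one, map_ofNat, PowerSeries.map_X] at h2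
      have h3 := congrArg (substAlgHom (R := R) (fx_hasSubst (R := R) 2)) h2
      rw [map_mul, map_add, map_mul, map_one, map_ofNat, substAlgHom_X, coe_substAlgHom] at h3
      exact h3
    have h0 : PowerSeries.constantCoeff (hser R) = 0 := by
      unfold hser
      simp
    have hG0 : PowerSeries.constantCoeff G = 0 := by
      rw [← PowerSeries.coeff_zero_eq_constantCoeff_apply, hG, fx_coeff_subst]
      unfold fxG
      simp
    have h4 : (hser R - G) * (1 + 16 * (hser R + G)) = 0 := by
      have h5 : hser R * (1 + 16 * hser R) = G * (1 + 16 * G) := by rw [h1, h]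
      linear_combination h5
    have h6 : IsUnit (1 + 16 * (hser R + G)) := by
      rw [PowerSeries.isUnit_iff_constantCoeff]
      have : PowerSeries.constantCoeff (1 + 16 * (hser R + G)) = 1 := by
        rw [map_add, map_mul, map_add, h0, hG0]
        simp
      rw [this]
      exact isUnit_one
    have h7 := (h6.mul_left_eq_zero).1 h4
    exact sub_eq_zero.1 h7

end GH
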