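import Pool.Agent.GH.FExp

/-!
# Ghost conjecture `(2,1)`: powers of power series, norms of power series (for `Fam`)
-/

open PowerSeries Filter Topology

noncomputable section

namespace GH

/-! ### powers `u^s` -/

section ppow

variable {K : Type*} [Field K]

lemma fa_hasSubst {u : PowerSeries K} (hu : PowerSeries.constantCoeff u = 1) :
    HasSubst (u - 1) := by
  apply HasSubst.of_constantCoeff_zero'
  rw [map_sub, hu, map_one, sub_self]

lemma fa_coeff_pow_lt {R : Type*} [CommRing R] {v : PowerSeries R}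
    (hv : PowerSeries.constantCoeff v = 0) {n m : ℕ} (h : n < m) :
    PowerSeries.coeff n (v ^ m) = 0 := by
  obtain ⟨w, rfl⟩ := X_dvd_iff.2 hv
  rw [mul_pow, PowerSeries.coeff_X_pow_mul', if_neg (by omega)]

lemma fa_coeff_subst {R : Type*} [CommRing R] {v : PowerSeries R}
    (hv : PowerSeries.constantCoeff v = 0) (g : PowerSeries R) (n : ℕ) :
    PowerSeries.coeff n (g.subst v) =
      ∑ m ∈ Finset.range (n + 1), PowerSeries.coeff m g * PowerSeries.coeff n (v ^ m) := by
  rw [PowerSeries.coeff_subst' (HasSubst.of_constantCoeff_zero' hv),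
    finsum_eq_sum_of_support_subset (s := Finset.range (n + 1))]
  · simp only [smul_eq_mul]
  · intro m hm
    rw [Function.mem_support] at hm
    rw [Finset.coe_range, Set.mem_Iio]
    by_contra h
    exact hm (by rw [fa_coeff_pow_lt hv (by omega), smul_zero])

lemma fa_binS_poly (m : ℕ) : ∃ P : Polynomial K, ∀ s : K,
    PowerSeries.coeff m (binS s) = P.eval s := by
  refine ⟨(∏ i ∈ Finset.range m, (Polynomial.X - Polynomial.C (i : K))) *
    Polynomial.C ((m.factorial : K)⁻¹), fun s => ?_⟩
  unfold binS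
  rw [PowerSeries.coeff_mk, Polynomial.eval_mul, Polynomial.eval_prod, Polynomial.eval_C]
  simp [div_eq_mul_inv]

lemma fa_ppow_poly {u : PowerSeries K} (hu : PowerSeries.constantCoeff u = 1) (n : ℕ) :
    ∃ P : Polynomial K, ∀ s : K, PowerSeries.coeff n (ppow u s) = P.eval s := by
  choose P hP using fun m => fa_binS_poly (K := K) m
  refine ⟨∑ m ∈ Finset.range (n + 1), P m * Polynomial.C (PowerSeries.coeff n ((u - 1) ^ m)),
    fun s => ?_⟩
  unfold ppow
  rw [fa_coeff_subst (by rw [map_sub, hu, map_one, sub_self]), Polynomial.eval_finsetSum]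
  refine Finset.sum_congr rfl fun m _ => ?_
  rw [Polynomial.eval_mul, Polynomial.eval_C, hP]

lemma fa_prod_nat (m n : ℕ) :
    ∏ i ∈ Finset.range n, ((m : K) - i) = (m.descFactorial n : K) := by
  induction n with
  | zero => simp
  | succ n ih =>
    rw [Finset.prod_range_succ, ih, Nat.descFactorial_succ]
    rcases le_or_gt n m with h | h
    · rw [Nat.cast_mul, Nat.cast_sub h]
      ring
    · rw [Nat.descFactorial_of_lt h]
      simp

variable [CharZero K]

lemma fa_binS_nat (m : ℕ) : binS (m : K) = (1 + X) ^ m := by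
  ext n
  have h1 : PowerSeries.coeff n (binS (m : K)) = (m.choose n : K) := by
    unfold binS
    rw [PowerSeries.coeff_mk, fa_prod_nat, Nat.descFactorial_eq_factorial_mul_choose, Nat.cast_mul,
      mul_comm, mul_div_assoc, div_self (by exact_mod_cast n.factorial_ne_zero), mul_one]
  rw [h1]
  have h2 : ((1 + X : PowerSeries K)) ^ m = ((((1 + Polynomial.X : Polynomial K)) ^ m :
      Polynomial K) : PowerSeries K) := by
    push_cast
    rfl
  rw [h2, Polynomial.coeff_coe, Polynomial.coeff_one_add_X_pow]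

lemma fa_ppow_nat {u : PowerSeries K} (hu : PowerSeries.constantCoeff u = 1) (m : ℕ) :
    ppow u (m : K) = u ^ m := by
  unfold ppow
  rw [fa_binS_nat, ← coe_substAlgHom (fa_hasSubst hu), map_pow, map_add, map_one, substAlgHom_X]
  congr 1
  ring

/-- `(u v)^s = u^s v^s`. -/
lemma fa_ppow_mul {u v : PowerSeries K} (hu : PowerSeries.constantCoeff u = 1)
    (hv : PowerSeries.constantCoeff v = 1) (s : K) : ppow (u * v) s = ppow u s * ppow v s := by
  have huv : PowerSeries.constantCoeff (u * v) = 1 := by rw [map_mul, hu, hv, one_mul]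
  ext n
  obtain ⟨P, hP⟩ := fa_ppow_poly huv n
  choose A hA using fun n => fa_ppow_poly hu n
  choose B hB using fun n => fa_ppow_poly hv n
  rw [PowerSeries.coeff_mul, hP]
  simp only [hA, hB]
  set Q : Polynomial K := ∑ ij ∈ Finset.HasAntidiagonal.antidiagonal n, A ij.1 * B ij.2 with hQ
  have h1 : ∀ s : K, ∑ ij ∈ Finset.HasAntidiagonal.antidiagonal n,
      (A ij.1).eval s * (B ij.2).eval s = Q.eval s := fun s => by
    rw [hQ, Polynomial.eval_finsetSum]
    simp only [Polynomial.eval_mul]
  rw [h1]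
  congr 1
  refine Polynomial.eq_of_infinite_eval_eq P Q ?_
  refine Set.Infinite.mono ?_ (Set.infinite_range_of_injective (Nat.cast_injective (R := K)))
  rintro _ ⟨m, rfl⟩
  show P.eval (m : K) = Q.eval (m : K)
  rw [← h1, ← hP, fa_ppow_nat huv, mul_pow, PowerSeries.coeff_mul]
  refine Finset.sum_congr rfl fun ij _ => ?_
  rw [← hA, ← hB, fa_ppow_nat hu, fa_ppow_nat hv]

omit [CharZero K] in
lemma fa_constantCoeff_ppow {u : PowerSeries K} (hu : PowerSeries.constantCoeff u = 1) (s : K) :
    PowerSeries.constantCoeff (ppow u s) = 1 := by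
  rw [← PowerSeries.coeff_zero_eq_constantCoeff_apply]
  unfold ppow
  rw [fa_coeff_subst (by rw [map_sub, hu, map_one, sub_self])]
  simp [binS]

omit [CharZero K] in
lemma fa_ppow_zero {u : PowerSeries K} (hu : PowerSeries.constantCoeff u = 1) :
    ppow u (0 : K) = 1 := by
  have h : (binS (0 : K)) = 1 := by
    ext n
    unfold binS
    rw [PowerSeries.coeff_mk, PowerSeries.coeff_one]
    rcases Nat.eq_zero_or_pos n with h0 | h0
    · subst h0
      simp
    · rw [if_neg (by omega), Finset.prod_eq_zero (i := 0) (Finset.mem_range.2 h0) (by simp),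
        zero_div]
  unfold ppow
  rw [h, ← coe_substAlgHom (fa_hasSubst hu), map_one]

end ppow

/-! ### expansion `q ↦ q²` -/

section expand

variable {K : Type*} [Field K]

lemma fa_expand_subst {v : PowerSeries K} (hv : PowerSeries.constantCoeff v = 0)
    (g : PowerSeries K) :
    PowerSeries.expand 2 two_ne_zero (g.subst v) = g.subst (v.expand 2 two_ne_zero) := by
  rw [PowerSeries.expand_apply, PowerSeries.expand_apply]
  exact subst_comp_subst_apply (HasSubst.of_constantCoeff_zero' hv)
    (HasSubst.X_pow two_ne_zero) g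

lemma fa_expand_ppow {u : PowerSeries K} (hu : PowerSeries.constantCoeff u = 1) (s : K) :
    (ppow u s).expand 2 two_ne_zero = ppow (u.expand 2 two_ne_zero) s := by
  unfold ppow
  rw [fa_expand_subst (by rw [map_sub, hu, map_one, sub_self]), map_sub, map_one]

end expand

/-! ### norms -/

section norm

/-- The coefficients have norm at most `c (3/2)^{-n}`. -/
def NB (F : PowerSeries C2) (c : ℝ) : Prop := ∀ n, ‖PowerSeries.coeff n F‖ * (3 / 2 : ℝ) ^ n ≤ c

lemma NB.mul {F G : PowerSeries C2} {a b : ℝ} (hF : NB F a) (hG : NB G b) (ha : 0 ≤ a)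
    (hb : 0 ≤ b) : NB (F * G) (a * b) := by
  intro n
  have h32 : (0 : ℝ) < (3 / 2 : ℝ) ^ n := by positivity
  rw [← le_div_iff₀ h32, PowerSeries.coeff_mul]
  refine IsUltrametricDist.norm_sum_le_of_forall_le_of_nonneg (by positivity) fun ij hij => ?_
  rw [Finset.HasAntidiagonal.mem_antidiagonal] at hij
  rw [le_div_iff₀ h32, norm_mul, ← hij, pow_add]
  calc ‖PowerSeries.coeff ij.1 F‖ * ‖PowerSeries.coeff ij.2 G‖ *
        ((3 / 2 : ℝ) ^ ij.1 * (3 / 2 : ℝ) ^ ij.2)
      = (‖PowerSeries.coeff ij.1 F‖ * (3 / 2 : ℝ) ^ ij.1) *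
        (‖PowerSeries.coeff ij.2 G‖ * (3 / 2 : ℝ) ^ ij.2) := by ring
    _ ≤ a * b := mul_le_mul (hF _) (hG _) (by positivity) ha

lemma NB.one : NB 1 1 := by
  intro n
  rw [PowerSeries.coeff_one]
  rcases Nat.eq_zero_or_pos n with h | h
  · subst h
    simp
  · rw [if_neg (by omega), norm_zero, zero_mul]
    exact zero_le_one

lemma NB.pow {F : PowerSeries C2} {a : ℝ} (hF : NB F a) (ha : 0 ≤ a) (m : ℕ) :
    NB (F ^ m) (a ^ m) := by
  induction m with
  | zero =>
    rw [pow_zero, pow_zero]
    exact NB.one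
  | succ m ih =>
    rw [pow_succ, pow_succ]
    exact ih.mul hF (by positivity) ha

lemma NB.mono {F : PowerSeries C2} {a b : ℝ} (hF : NB F a) (h : a ≤ b) : NB F b :=
  fun n => (hF n).trans h

lemma NB.add {F G : PowerSeries C2} {a : ℝ} (hF : NB F a) (hG : NB G a) : NB (F + G) a := by
  intro n
  have h32 : (0 : ℝ) < (3 / 2 : ℝ) ^ n := by positivity
  rw [← le_div_iff₀ h32, map_add]
  refine (IsUltrametricDist.norm_add_le_max _ _).trans (max_le ?_ ?_)
  · rw [le_div_iff₀ h32]
    exact hF n
  · rw [le_div_iff₀ h32]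
    exact hG n

lemma NB.smul {F : PowerSeries C2} {a : ℝ} (hF : NB F a) (c : C2) : NB (C c * F) (‖c‖ * a) := by
  intro n
  rw [PowerSeries.coeff_C_mul, norm_mul, mul_assoc]
  exact mul_le_mul_of_nonneg_left (hF n) (norm_nonneg _)

lemma NB.subst {F G : PowerSeries C2} {a : ℝ} (hF0 : PowerSeries.constantCoeff F = 0)
    (hF : NB F a) (ha : 0 ≤ a) (hG : ∀ m, ‖PowerSeries.coeff m G‖ * a ^ m ≤ 1) :
    NB (G.subst F) 1 := by
  intro n
  have h32 : (0 : ℝ) < (3 / 2 : ℝ) ^ n := by positivity
  rw [← le_div_iff₀ h32, fa_coeff_subst hF0]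
  refine IsUltrametricDist.norm_sum_le_of_forall_le_of_nonneg (by positivity) fun m _ => ?_
  rw [le_div_iff₀ h32, norm_mul, mul_assoc]
  calc ‖PowerSeries.coeff m G‖ * (‖PowerSeries.coeff n (F ^ m)‖ * (3 / 2 : ℝ) ^ n)
      ≤ ‖PowerSeries.coeff m G‖ * a ^ m :=
        mul_le_mul_of_nonneg_left (hF.pow ha m n) (norm_nonneg _)
    _ ≤ 1 := hG m

lemma NB.inv {F G : PowerSeries C2} (hF0 : PowerSeries.constantCoeff F = 1) (hF : NB F 1)
    (hFG : F * G = 1) : NB G 1 := by
  intro n
  induction n using Nat.strong_induction_on with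
  | _ n ih =>
    have h32 : (0 : ℝ) < (3 / 2 : ℝ) ^ n := by positivity
    have h1 : PowerSeries.coeff n G = (if n = 0 then 1 else 0) -
        ∑ ij ∈ (Finset.HasAntidiagonal.antidiagonal n).erase (0, n),
          PowerSeries.coeff ij.1 F * PowerSeries.coeff ij.2 G := by
      have h2 := congrArg (PowerSeries.coeff n) hFG
      rw [PowerSeries.coeff_mul, PowerSeries.coeff_one,
        ← Finset.add_sum_erase _ _ (Finset.HasAntidiagonal.mem_antidiagonal.2
          (show ((0, n) : ℕ × ℕ).1 + ((0, n) : ℕ × ℕ).2 = n from zero_add n)),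
        PowerSeries.coeff_zero_eq_constantCoeff_apply, hF0, one_mul] at h2
      exact eq_sub_of_add_eq h2
    rw [← le_div_iff₀ h32, h1, sub_eq_add_neg]
    refine (IsUltrametricDist.norm_add_le_max _ _).trans (max_le ?_ ?_)
    · rcases Nat.eq_zero_or_pos n with h | h
      · subst h
        simp
      · rw [if_neg (by omega), norm_zero]
        positivity
    · rw [norm_neg]
      refine IsUltrametricDist.norm_sum_le_of_forall_le_of_nonneg (by positivity) fun ij hij => ?_
      rw [Finset.mem_erase, Finset.HasAntidiagonal.mem_antidiagonal] at hij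
      have hlt : ij.2 < n := by
        rcases Nat.lt_or_ge ij.2 n with h | h
        · exact h
        · exact absurd (Prod.ext (by show ij.1 = 0; omega) (by show ij.2 = n; omega)) hij.1
      rw [le_div_iff₀ h32, norm_mul, ← hij.2, pow_add]
      calc ‖PowerSeries.coeff ij.1 F‖ * ‖PowerSeries.coeff ij.2 G‖ *
            ((3 / 2 : ℝ) ^ ij.1 * (3 / 2 : ℝ) ^ ij.2)
          = (‖PowerSeries.coeff ij.1 F‖ * (3 / 2 : ℝ) ^ ij.1) *
            (‖PowerSeries.coeff ij.2 G‖ * (3 / 2 : ℝ) ^ ij.2) := by ring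
        _ ≤ 1 * 1 := mul_le_mul (hF _) (ih _ hlt) (by positivity) zero_le_one
        _ = 1 := one_mul 1

/-- the norm of `h` as a power series in `f` -/
lemma fa_nb_g {g : PowerSeries C2} (h0 : PowerSeries.constantCoeff g = 0)
    (hg : g * (1 + C (16 : C2) * g) = X) (h16 : ‖(16 : C2)‖ ≤ 1 / 16) : NB g (3 / 2) := by
  have hg' : g = X - C (16 : C2) * (g * g) := by
    rw [← hg]
    ring
  intro n
  induction n using Nat.strong_induction_on with
  | _ n ih =>
    have h32 : (0 : ℝ) < (3 / 2 : ℝ) ^ n := by positivity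
    rw [← le_div_iff₀ h32, hg', map_sub, PowerSeries.coeff_C_mul, sub_eq_add_neg]
    refine (IsUltrametricDist.norm_add_le_max _ _).trans (max_le ?_ ?_)
    · rw [PowerSeries.coeff_X]
      split_ifs with h
      · subst h
        simp
      · rw [norm_zero]
        positivity
    · rw [norm_neg, norm_mul, PowerSeries.coeff_mul]
      have h1 : ‖∑ ij ∈ Finset.HasAntidiagonal.antidiagonal n,
          PowerSeries.coeff ij.1 g * PowerSeries.coeff ij.2 g‖ ≤ 9 / 4 / (3 / 2 : ℝ) ^ n := by
        refine IsUltrametricDist.norm_sum_le_of_forall_le_of_nonneg (by positivity)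
          fun ij hij => ?_
        rw [Finset.HasAntidiagonal.mem_antidiagonal] at hij
        rw [le_div_iff₀ h32]
        by_cases h1 : ij.1 = 0
        · rw [h1, PowerSeries.coeff_zero_eq_constantCoeff_apply, h0, zero_mul, norm_zero, zero_mul]
          norm_num
        by_cases h2 : ij.2 = 0
        · rw [h2, PowerSeries.coeff_zero_eq_constantCoeff_apply, h0, mul_zero, norm_zero, zero_mul]
          norm_num
        rw [norm_mul, ← hij, pow_add]
        calc ‖PowerSeries.coeff ij.1 g‖ * ‖PowerSeries.coeff ij.2 g‖ *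
              ((3 / 2 : ℝ) ^ ij.1 * (3 / 2 : ℝ) ^ ij.2)
            = (‖PowerSeries.coeff ij.1 g‖ * (3 / 2 : ℝ) ^ ij.1) *
              (‖PowerSeries.coeff ij.2 g‖ * (3 / 2 : ℝ) ^ ij.2) := by ring
          _ ≤ 3 / 2 * (3 / 2) := mul_le_mul (ih _ (by omega)) (ih _ (by omega)) (by positivity)
              (by norm_num)
          _ = 9 / 4 := by norm_num
      calc ‖(16 : C2)‖ * _ ≤ 1 / 16 * (9 / 4 / (3 / 2 : ℝ) ^ n) :=
            mul_le_mul h16 h1 (norm_nonneg _) (by norm_num)
        _ ≤ 3 / 2 / (3 / 2 : ℝ) ^ n := by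
            rw [← mul_div_assoc]
            gcongr
            norm_num

end norm

end GH
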