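import Pool.Agent.GH.Base

open PowerSeries Filter Topology

noncomputable section

namespace GH

/-! ### The finite identities of Shanks -/

section

variable {R : Type*} [CommRing R]

theorem qg_step1 (x : R) (n s : ℕ) (h : s + 1 ≤ n) :
    (∏ i ∈ Finset.Ico (s + 1) (n + 1), (1 - x ^ (i + 1))) * (∏ i ∈ Finset.range s, (1 + x ^ (i + 1)))
        * x ^ ((s + 1) * (n + 2))
      - (1 + x ^ (n + 1)) * ((∏ i ∈ Finset.Ico (s + 1) n, (1 - x ^ (i + 1))) *
        (∏ i ∈ Finset.range s, (1 + x ^ (i + 1))) * x ^ ((s + 1) * (n + 1)))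
      = - ((∏ i ∈ Finset.Ico s n, (1 - x ^ (i + 1))) * (∏ i ∈ Finset.range s, (1 + x ^ (i + 1)))
        * x ^ ((s + 1) * (n + 1)))
        - (∏ i ∈ Finset.Ico (s + 1) n, (1 - x ^ (i + 1))) *
          (∏ i ∈ Finset.range (s + 1), (1 + x ^ (i + 1))) * x ^ ((s + 2) * (n + 1)) := by
  rw [Finset.prod_Ico_succ_top h, Finset.prod_eq_prod_Ico_succ_bot (show s < n by omega),
    Finset.prod_range_succ]
  ring

/-- the sign -/
theorem qg_sum1 (n : ℕ) (b : ℕ → R) :
    ∑ s ∈ Finset.range n, (-1) ^ (s + 1) * (- b s - b (s + 1)) = b 0 + (-1) ^ (n + 1) * b n := by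
  induction n with
  | zero => simp
  | succ n ih =>
    rw [Finset.sum_range_succ, ih]
    ring

theorem qg_id1 (x : R) (n : ℕ) :
    (∏ i ∈ Finset.range n, (1 + x ^ (i + 1))) *
      (1 + 2 * ∑ j ∈ Finset.range n, (-1) ^ (j + 1) * x ^ ((j + 1) ^ 2)) =
    (∏ i ∈ Finset.range n, (1 - x ^ (i + 1))) + 2 * ∑ s ∈ Finset.range n, (-1) ^ (s + 1) *
      ((∏ i ∈ Finset.Ico (s + 1) n, (1 - x ^ (i + 1))) *
        (∏ i ∈ Finset.range s, (1 + x ^ (i + 1))) * x ^ ((s + 1) * (n + 1))) := by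
  induction n with
  | zero => simp
  | succ n ih =>
    set b : ℕ → R := fun s => (∏ i ∈ Finset.Ico s n, (1 - x ^ (i + 1))) *
      (∏ i ∈ Finset.range s, (1 + x ^ (i + 1))) * x ^ ((s + 1) * (n + 1)) with hb
    have h1 : ∑ s ∈ Finset.range n, (-1) ^ (s + 1) *
        ((∏ i ∈ Finset.Ico (s + 1) (n + 1), (1 - x ^ (i + 1))) *
          (∏ i ∈ Finset.range s, (1 + x ^ (i + 1))) * x ^ ((s + 1) * (n + 1 + 1)))
        - (1 + x ^ (n + 1)) * ∑ s ∈ Finset.range n, (-1) ^ (s + 1) *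
        ((∏ i ∈ Finset.Ico (s + 1) n, (1 - x ^ (i + 1))) *
          (∏ i ∈ Finset.range s, (1 + x ^ (i + 1))) * x ^ ((s + 1) * (n + 1)))
        = b 0 + (-1) ^ (n + 1) * b n := by
      rw [← qg_sum1 n b, Finset.mul_sum, ← Finset.sum_sub_distrib]
      refine Finset.sum_congr rfl fun s hs => ?_
      have h := qg_step1 x n s (Finset.mem_range.1 hs)
      have h2 : -b s - b (s + 1) = - ((∏ i ∈ Finset.Ico s n, (1 - x ^ (i + 1))) *
          (∏ i ∈ Finset.range s, (1 + x ^ (i + 1))) * x ^ ((s + 1) * (n + 1)))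
        - (∏ i ∈ Finset.Ico (s + 1) n, (1 - x ^ (i + 1))) *
          (∏ i ∈ Finset.range (s + 1), (1 + x ^ (i + 1))) * x ^ ((s + 2) * (n + 1)) := rfl
      rw [h2, ← h]
      ring
    have hb0 : b 0 = (∏ i ∈ Finset.range n, (1 - x ^ (i + 1))) * x ^ (n + 1) := by
      simp only [hb, Finset.range_zero, Finset.prod_empty, mul_one, zero_add, one_mul]
      rw [← Finset.range_eq_Ico]
    have hbn : b n = (∏ i ∈ Finset.range n, (1 + x ^ (i + 1))) * x ^ ((n + 1) ^ 2) := by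
      simp [hb, sq]
    rw [hb0, hbn] at h1
    rw [Finset.sum_range_succ, Finset.sum_range_succ (fun s => (-1) ^ (s + 1) *
      ((∏ i ∈ Finset.Ico (s + 1) (n + 1), (1 - x ^ (i + 1))) *
        (∏ i ∈ Finset.range s, (1 + x ^ (i + 1))) * x ^ ((s + 1) * (n + 1 + 1)))),
      Finset.prod_range_succ, Finset.prod_range_succ, Finset.Ico_self, Finset.prod_empty]
    have e1 : x ^ ((n + 1) * (n + 1 + 1)) = x ^ ((n + 1) ^ 2) * x ^ (n + 1) := by
      rw [← pow_add]
      congr 1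
      ring
    rw [e1]
    linear_combination (1 + x ^ (n + 1)) * ih - 2 * h1

theorem qg_step2 (x : R) (n s : ℕ) (h : s + 1 ≤ n) :
    (∏ i ∈ Finset.Ico (s + 1) (n + 1), (1 - x ^ (4 * (i + 1)))) *
        (∏ i ∈ Finset.range (s + 1), (1 - x ^ (4 * i + 2))) * x ^ ((s + 1) * (4 * (n + 1) + 2))
      - (1 - x ^ (4 * n + 2)) * ((∏ i ∈ Finset.Ico (s + 1) n, (1 - x ^ (4 * (i + 1)))) *
        (∏ i ∈ Finset.range (s + 1), (1 - x ^ (4 * i + 2))) * x ^ ((s + 1) * (4 * n + 2)))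
      = (∏ i ∈ Finset.Ico (s + 1) n, (1 - x ^ (4 * (i + 1)))) *
          (∏ i ∈ Finset.range (s + 2), (1 - x ^ (4 * i + 2))) * x ^ ((s + 2) * (4 * n + 2))
        - (∏ i ∈ Finset.Ico s n, (1 - x ^ (4 * (i + 1)))) *
          (∏ i ∈ Finset.range (s + 1), (1 - x ^ (4 * i + 2))) * x ^ ((s + 1) * (4 * n + 2)) := by
  rw [Finset.prod_Ico_succ_top h, Finset.prod_eq_prod_Ico_succ_bot (show s < n by omega),
    Finset.prod_range_succ _ (s + 1)]
  ring

theorem qg_id2 (x : R) (n : ℕ) :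
    (∏ i ∈ Finset.range n, (1 - x ^ (4 * i + 2))) *
      ∑ s ∈ Finset.range (2 * n + 1), x ^ (s * (s + 1)) =
    ∑ s ∈ Finset.range (n + 1), ((∏ i ∈ Finset.Ico s n, (1 - x ^ (4 * (i + 1)))) *
        (∏ i ∈ Finset.range s, (1 - x ^ (4 * i + 2))) * x ^ (s * (4 * n + 2))) := by
  induction n with
  | zero => simp
  | succ n ih =>
    set c : ℕ → R := fun s => (∏ i ∈ Finset.Ico (s - 1) n, (1 - x ^ (4 * (i + 1)))) *
      (∏ i ∈ Finset.range s, (1 - x ^ (4 * i + 2))) * x ^ (s * (4 * n + 2)) *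
        (if s = 0 then 0 else 1) with hc
    have h1 : ∑ s ∈ Finset.range (n + 1), ((∏ i ∈ Finset.Ico s (n + 1), (1 - x ^ (4 * (i + 1)))) *
        (∏ i ∈ Finset.range s, (1 - x ^ (4 * i + 2))) * x ^ (s * (4 * (n + 1) + 2)))
        - (1 - x ^ (4 * n + 2)) * ∑ s ∈ Finset.range (n + 1),
        ((∏ i ∈ Finset.Ico s n, (1 - x ^ (4 * (i + 1)))) *
        (∏ i ∈ Finset.range s, (1 - x ^ (4 * i + 2))) * x ^ (s * (4 * n + 2)))
        = c (n + 1) - c 0 := by
      rw [← Finset.sum_range_sub c, Finset.mul_sum, ← Finset.sum_sub_distrib]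
      refine Finset.sum_congr rfl fun s hs => ?_
      have hs' := Finset.mem_range.1 hs
      rcases s with _ | s
      · simp only [hc, Nat.sub_self, Nat.zero_sub, zero_add, if_pos, mul_zero, sub_zero,
          Finset.range_zero, Finset.prod_empty, zero_mul, pow_zero, mul_one]
        rw [Finset.prod_Ico_succ_top (Nat.zero_le n)]
        simp
        ring
      · have h := qg_step2 x n s (by omega)
        have h2 : c (s + 1 + 1) - c (s + 1) =
            (∏ i ∈ Finset.Ico (s + 1) n, (1 - x ^ (4 * (i + 1)))) *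
            (∏ i ∈ Finset.range (s + 2), (1 - x ^ (4 * i + 2))) * x ^ ((s + 2) * (4 * n + 2))
            - (∏ i ∈ Finset.Ico s n, (1 - x ^ (4 * (i + 1)))) *
            (∏ i ∈ Finset.range (s + 1), (1 - x ^ (4 * i + 2))) *
              x ^ ((s + 1) * (4 * n + 2)) := by
          simp [hc]
        rw [h2, ← h]
    have hc0 : c 0 = 0 := by simp [hc]
    have hcn : c (n + 1) = (∏ i ∈ Finset.range (n + 1), (1 - x ^ (4 * i + 2))) *
        x ^ ((n + 1) * (4 * n + 2)) := by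
      simp [hc]
    rw [hc0, hcn, sub_zero] at h1
    rw [Finset.sum_range_succ _ (n + 1), Finset.Ico_self, Finset.prod_empty,
      show 2 * (n + 1) + 1 = 2 * n + 1 + 1 + 1 by ring, Finset.sum_range_succ,
      Finset.sum_range_succ, Finset.prod_range_succ]
    rw [Finset.prod_range_succ] at h1
    have e1 : x ^ ((2 * n + 1) * (2 * n + 1 + 1)) = x ^ ((n + 1) * (4 * n + 2)) := by
      congr 1
      ring
    have e2 : x ^ ((2 * n + 1 + 1) * (2 * n + 1 + 1 + 1)) = x ^ ((n + 1) * (4 * (n + 1) + 2)) := by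
      congr 1
      ring
    rw [e1, e2]
    linear_combination (1 - x ^ (4 * n + 2)) * ih - h1

end

/-! ### Series -/

theorem qg_prod_sub_one (e : ℕ → ℕ) (N : ℕ) (S : Finset ℕ) (h : ∀ m ∈ S, N ≤ e m) :
    (X : PowerSeries ℤ) ^ N ∣ (∏ m ∈ S, (1 - (X : PowerSeries ℤ) ^ e m)) - 1 := by
  classical
  induction S using Finset.induction_on with
  | empty => simp
  | insert a S ha ih =>
    rw [Finset.prod_insert ha]
    have h1 := ih fun m hm => h m (Finset.mem_insert_of_mem hm)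
    have h2 : (X : PowerSeries ℤ) ^ N ∣ X ^ e a := pow_dvd_pow _ (h a (Finset.mem_insert_self _ _))
    have : (1 - (X : PowerSeries ℤ) ^ e a) * (∏ m ∈ S, (1 - (X : PowerSeries ℤ) ^ e m)) - 1 =
        ((∏ m ∈ S, (1 - (X : PowerSeries ℤ) ^ e m)) - 1) -
          X ^ e a * ∏ m ∈ S, (1 - (X : PowerSeries ℤ) ^ e m) := by ring
    rw [this]
    exact dvd_sub h1 (h2.mul_right _)

/-- `euler` modulo `X^(N+1)` -/
theorem qg_euler (k N : ℕ) (hk : 1 ≤ k) :
    (X : PowerSeries ℤ) ^ (N + 1) ∣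
      euler ℤ k - ∏ m ∈ Finset.range N, (1 - (X : PowerSeries ℤ) ^ (k * (m + 1))) := by
  rw [X_pow_dvd_iff]
  intro j hj
  have hj' : j ≤ N := Nat.lt_succ_iff.1 hj
  rw [map_sub, sub_eq_zero, euler, coeff_mk]
  have h1 := qg_prod_sub_one (fun m => k * (m + 1)) (j + 1) (Finset.Ico j N) (by
    intro m hm
    have := (Finset.mem_Ico.1 hm).1
    nlinarith)
  have h2 : (∏ m ∈ Finset.range N, (1 - (X : PowerSeries ℤ) ^ (k * (m + 1)))) =
      (∏ m ∈ Finset.range j, (1 - (X : PowerSeries ℤ) ^ (k * (m + 1)))) +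
      (∏ m ∈ Finset.range j, (1 - (X : PowerSeries ℤ) ^ (k * (m + 1)))) *
      ((∏ m ∈ Finset.Ico j N, (1 - (X : PowerSeries ℤ) ^ (k * (m + 1)))) - 1) := by
    rw [← Finset.prod_range_mul_prod_Ico _ hj']
    ring
  rw [h2, map_add]
  have h3 := (X_pow_dvd_iff.1 (h1.mul_left
    (∏ m ∈ Finset.range j, (1 - (X : PowerSeries ℤ) ^ (k * (m + 1)))))) j (Nat.lt_succ_self j)
  rw [h3, add_zero]

theorem qg_theta (N : ℕ) : (X : PowerSeries ℤ) ^ (N + 1) ∣ theta ℤ -
    (1 + 2 * ∑ j ∈ Finset.range N, (-1) ^ (j + 1) * (X : PowerSeries ℤ) ^ ((j + 1) ^ 2)) := by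
  rw [X_pow_dvd_iff]
  intro j hj
  have hj' : j ≤ N := Nat.lt_succ_iff.1 hj
  have e : ∀ i : ℕ, coeff j ((-1) ^ (i + 1) * (X : PowerSeries ℤ) ^ ((i + 1) ^ 2)) =
      if j = (i + 1) ^ 2 then (-1) ^ (i + 1) else 0 := by
    intro i
    have : ((-1) ^ (i + 1) : PowerSeries ℤ) = C ((-1 : ℤ) ^ (i + 1)) := by
      simp
    rw [this, coeff_C_mul, coeff_X_pow]
    simp
  rw [map_sub, sub_eq_zero, theta, coeff_mk, map_add,
    two_mul (∑ j ∈ Finset.range N, (-1) ^ (j + 1) * (X : PowerSeries ℤ) ^ ((j + 1) ^ 2)), map_add,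
    ← two_mul (coeff j (∑ j ∈ Finset.range N, (-1) ^ (j + 1) *
      (X : PowerSeries ℤ) ^ ((j + 1) ^ 2))), map_sum, coeff_one]
  simp only [e]
  rcases Nat.eq_zero_or_pos j with h0 | h0
  · subst h0
    rw [if_pos rfl, if_pos rfl, Finset.sum_eq_zero]
    · simp
    · intro i _
      rw [if_neg]
      positivity
  · rw [if_neg h0.ne', if_neg h0.ne']
    by_cases hs : IsSquare j
    · obtain ⟨m, hm⟩ := hs
      rw [if_pos ⟨m, hm⟩]
      have hm0 : 1 ≤ m := by
        rcases Nat.eq_zero_or_pos m with h | h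
        · subst h
          omega
        · exact h
      have hmN : m ≤ N := by nlinarith
      rw [Finset.sum_eq_single (m - 1)]
      · have hm1 : m - 1 + 1 = m := by omega
        rw [hm1, if_pos (by rw [hm, sq]), zero_add, hm]
        congr 1
        rcases Nat.even_or_odd m with h | h
        · rw [h.neg_one_pow, (h.mul_left m).neg_one_pow]
        · rw [h.neg_one_pow, (h.mul h).neg_one_pow]
      · intro i _ hi
        rw [if_neg]
        intro hc
        apply hi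
        have : m = i + 1 := by nlinarith [Nat.pow_left_injective (n := 2) (by norm_num) (show (fun x => x ^ 2) m = (fun x => x ^ 2) (i + 1) by simp only; rw [← hc, hm, sq])]
        omega
      · intro h
        exact absurd (Finset.mem_range.2 (by omega)) h
    · rw [if_neg hs, Finset.sum_eq_zero]
      · simp
      · intro i _
        rw [if_neg]
        intro hc
        exact hs ⟨i + 1, by rw [hc, sq]⟩

theorem qg_psi2 (N : ℕ) : (X : PowerSeries ℤ) ^ (N + 1) ∣ psi2 ℤ -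
    ∑ s ∈ Finset.range (2 * N + 1), (X : PowerSeries ℤ) ^ (s * (s + 1)) := by
  rw [X_pow_dvd_iff]
  intro j hj
  have hj' : j ≤ N := Nat.lt_succ_iff.1 hj
  rw [map_sub, sub_eq_zero, psi2, coeff_mk, map_sum]
  simp only [coeff_X_pow]
  by_cases h : ∃ m : ℕ, j = m * (m + 1)
  · rw [if_pos h]
    obtain ⟨m, hm⟩ := h
    have hmN : m ≤ N := by nlinarith
    rw [Finset.sum_eq_single m]
    · rw [if_pos hm]
    · intro i _ hi
      rw [if_neg]
      intro hc
      apply hi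
      rcases Nat.lt_trichotomy i m with h | h | h
      · nlinarith
      · exact h
      · nlinarith
    · intro h
      exact absurd (Finset.mem_range.2 (by omega)) h
  · rw [if_neg h, Finset.sum_eq_zero]
    intro i _
    rw [if_neg]
    intro hc
    exact h ⟨i, hc⟩

theorem qg_ext {F G : PowerSeries ℤ} (h : ∀ N : ℕ, (X : PowerSeries ℤ) ^ (N + 1) ∣ F - G) :
    F = G := by
  ext n
  have := (X_pow_dvd_iff.1 (h n)) n (Nat.lt_succ_self n)
  rwa [map_sub, sub_eq_zero] at this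

/-- Gauss: `θ = ∏ (1-q^n)²/(1-q^{2n})`. -/
theorem theta_mul_euler : theta ℤ * euler ℤ 2 = euler ℤ 1 ^ 2 := by
  apply qg_ext
  intro N
  have h1 := qg_theta N
  have h2 := qg_euler 2 N (by norm_num)
  have h3 := qg_euler 1 N le_rfl
  have h4 := qg_id1 (X : PowerSeries ℤ) N
  have h5 : (∏ m ∈ Finset.range N, (1 - (X : PowerSeries ℤ) ^ (2 * (m + 1)))) =
      (∏ m ∈ Finset.range N, (1 - (X : PowerSeries ℤ) ^ (m + 1))) *
        ∏ m ∈ Finset.range N, (1 + (X : PowerSeries ℤ) ^ (m + 1)) := by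
    rw [← Finset.prod_mul_distrib]
    refine Finset.prod_congr rfl fun m _ => ?_
    rw [two_mul, pow_add]
    ring
  have h6 : (∏ m ∈ Finset.range N, (1 - (X : PowerSeries ℤ) ^ (1 * (m + 1)))) =
      ∏ m ∈ Finset.range N, (1 - (X : PowerSeries ℤ) ^ (m + 1)) := by
    simp
  rw [h6] at h3
  rw [h5] at h2
  have h7 : (X : PowerSeries ℤ) ^ (N + 1) ∣ ∑ s ∈ Finset.range N, (-1) ^ (s + 1) *
      ((∏ i ∈ Finset.Ico (s + 1) N, (1 - (X : PowerSeries ℤ) ^ (i + 1))) *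
        (∏ i ∈ Finset.range s, (1 + (X : PowerSeries ℤ) ^ (i + 1))) *
          (X : PowerSeries ℤ) ^ ((s + 1) * (N + 1))) := by
    refine Finset.dvd_sum fun s _ => Dvd.dvd.mul_left (Dvd.dvd.mul_left ?_ _) _
    exact pow_dvd_pow _ (Nat.le_mul_of_pos_left _ (Nat.succ_pos s))
  obtain ⟨a, ha⟩ := h1
  obtain ⟨b, hb⟩ := h2
  obtain ⟨c, hc⟩ := h3
  obtain ⟨d, hd⟩ := h7
  rw [hd] at h4
  set P := ∏ m ∈ Finset.range N, (1 - (X : PowerSeries ℤ) ^ (m + 1)) with hP
  set E := ∏ m ∈ Finset.range N, (1 + (X : PowerSeries ℤ) ^ (m + 1)) with hE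
  set Th := (1 + 2 * ∑ j ∈ Finset.range N, (-1) ^ (j + 1) *
    (X : PowerSeries ℤ) ^ ((j + 1) ^ 2)) with hTh
  refine ⟨a * euler ℤ 2 + Th * b - (euler ℤ 1 + P) * c + 2 * P * d, ?_⟩
  linear_combination (euler ℤ 2) * ha + Th * hb - (euler ℤ 1 + P) * hc + P * h4

/-- Gauss: `ψ(q²) = ∏ (1-q^{4n})²/(1-q^{2n})`. -/
theorem psi2_mul_euler : psi2 ℤ * euler ℤ 2 = euler ℤ 4 ^ 2 := by
  apply qg_ext
  intro N
  have h1 := qg_psi2 N
  have h2 : (X : PowerSeries ℤ) ^ (N + 1) ∣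
      euler ℤ 2 - ∏ m ∈ Finset.range (2 * N), (1 - (X : PowerSeries ℤ) ^ (2 * (m + 1))) :=
    (pow_dvd_pow _ (by omega)).trans (qg_euler 2 (2 * N) (by norm_num))
  have h3 := qg_euler 4 N (by norm_num)
  have h4 := qg_id2 (X : PowerSeries ℤ) N
  have h5 : (∏ m ∈ Finset.range (2 * N), (1 - (X : PowerSeries ℤ) ^ (2 * (m + 1)))) =
      (∏ m ∈ Finset.range N, (1 - (X : PowerSeries ℤ) ^ (4 * m + 2))) *
        ∏ m ∈ Finset.range N, (1 - (X : PowerSeries ℤ) ^ (4 * (m + 1))) := by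
    clear h1 h2 h3 h4
    induction N with
    | zero => simp
    | succ N ih =>
      rw [show 2 * (N + 1) = 2 * N + 1 + 1 by ring, Finset.prod_range_succ,
        Finset.prod_range_succ, ih, Finset.prod_range_succ, Finset.prod_range_succ,
        show 2 * (2 * N + 1) = 4 * N + 2 by ring, show 2 * (2 * N + 1 + 1) = 4 * (N + 1) by ring]
      ring
  rw [h5] at h2
  have h7 : (X : PowerSeries ℤ) ^ (N + 1) ∣
      (∑ s ∈ Finset.range (N + 1), ((∏ i ∈ Finset.Ico s N, (1 - (X : PowerSeries ℤ) ^ (4 * (i + 1)))) *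
        (∏ i ∈ Finset.range s, (1 - (X : PowerSeries ℤ) ^ (4 * i + 2))) *
          (X : PowerSeries ℤ) ^ (s * (4 * N + 2)))) -
        ∏ m ∈ Finset.range N, (1 - (X : PowerSeries ℤ) ^ (4 * (m + 1))) := by
    rw [Finset.sum_range_succ']
    simp only [Finset.range_zero, Finset.prod_empty, zero_mul, pow_zero, mul_one]
    rw [← Finset.range_eq_Ico, add_sub_cancel_right]
    refine Finset.dvd_sum fun s _ => Dvd.dvd.mul_left ?_ _
    refine pow_dvd_pow _ ?_
    nlinarith [Nat.zero_le (s * (4 * N + 2))]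
  obtain ⟨a, ha⟩ := h1
  obtain ⟨b, hb⟩ := h2
  obtain ⟨c, hc⟩ := h3
  obtain ⟨d, hd⟩ := h7
  rw [← h4] at hd
  set P := ∏ m ∈ Finset.range N, (1 - (X : PowerSeries ℤ) ^ (4 * (m + 1))) with hP
  set E := ∏ m ∈ Finset.range N, (1 - (X : PowerSeries ℤ) ^ (4 * m + 2)) with hE
  set Th := ∑ s ∈ Finset.range (2 * N + 1), (X : PowerSeries ℤ) ^ (s * (s + 1)) with hTh
  refine ⟨a * euler ℤ 2 + Th * b - (euler ℤ 4 + P) * c + P * d, ?_⟩
  linear_combination (euler ℤ 2) * ha + Th * hb - (euler ℤ 4 + P) * hc + P * hd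

end GH
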