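import Pool.Agent.GH.Base
import Pool.Agent.GH.FExp

/-!
# Ghost conjecture `(2,1)`: identities between `f`, `h`, `θ` over any ring
-/

open PowerSeries Filter Topology

noncomputable section

namespace GH

/-! Consequences of the identities of `QGauss` and `QTheta` (given as hypotheses over `ℤ`). -/

variable (R : Type*) [CommRing R]

/-- The four identities over `ℤ` proved in `QGauss` and `QTheta`. -/
structure QIds : Prop where
  g1 : theta ℤ * euler ℤ 2 = euler ℤ 1 ^ 2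
  g2 : psi2 ℤ * euler ℤ 2 = euler ℤ 4 ^ 2
  t1 : evalNegHom (theta ℤ) * theta ℤ = (theta ℤ ^ 2).expand 2 two_ne_zero
  t2 : evalNegHom (theta ℤ) ^ 4 = theta ℤ ^ 4 + 16 * X * psi2 ℤ ^ 4

theorem constantCoeff_theta : PowerSeries.constantCoeff (theta R) = 1 := by
  rw [← PowerSeries.coeff_zero_eq_constantCoeff_apply]
  unfold theta
  rw [PowerSeries.coeff_mk, if_pos rfl]

lemma qh_constantCoeff_psi2 : PowerSeries.constantCoeff (psi2 R) = 1 := by
  rw [← PowerSeries.coeff_zero_eq_constantCoeff_apply]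
  unfold psi2
  rw [PowerSeries.coeff_mk, if_pos ⟨0, rfl⟩]

lemma qh_theta_inv : theta R ^ 4 * invOfUnit (theta R ^ 4) 1 = 1 :=
  PowerSeries.mul_invOfUnit _ _ (by rw [map_pow, constantCoeff_theta, one_pow]; rfl)

theorem hser_mul : hser R * theta R ^ 4 = X * psi2 R ^ 4 := by
  unfold hser
  calc X * psi2 R ^ 4 * invOfUnit (theta R ^ 4) 1 * theta R ^ 4
      = X * psi2 R ^ 4 * (theta R ^ 4 * invOfUnit (theta R ^ 4) 1) := by ring
    _ = X * psi2 R ^ 4 := by rw [qh_theta_inv, mul_one]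

theorem coeff_zero_hser : PowerSeries.coeff 0 (hser R) = 0 := by
  unfold hser
  simp

theorem coeff_one_hser : PowerSeries.coeff 1 (hser R) = 1 := by
  unfold hser
  have h := PowerSeries.coeff_succ_X_mul 0 (psi2 R ^ 4 * invOfUnit (theta R ^ 4) 1)
  rw [zero_add] at h
  rw [mul_assoc, h, PowerSeries.coeff_zero_eq_constantCoeff_apply, map_mul, map_pow,
    qh_constantCoeff_psi2, PowerSeries.constantCoeff_invOfUnit]
  simp

theorem map_theta {S : Type*} [CommRing S] (φ : R →+* S) :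
    PowerSeries.map φ (theta R) = theta S := by
  ext n
  rw [PowerSeries.coeff_map]
  unfold theta
  rw [PowerSeries.coeff_mk, PowerSeries.coeff_mk]
  split_ifs
  · exact map_one φ
  · rw [map_mul, map_pow, map_neg, map_one]
    congr 1
    exact map_ofNat φ 2
  · exact map_zero φ

lemma qh_map_psi2 {S : Type*} [CommRing S] (φ : R →+* S) :
    PowerSeries.map φ (psi2 R) = psi2 S := by
  ext n
  rw [PowerSeries.coeff_map]
  unfold psi2
  rw [PowerSeries.coeff_mk, PowerSeries.coeff_mk]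
  split_ifs <;> simp

lemma qh_isUnit_theta : IsUnit (theta R ^ 4) := by
  rw [PowerSeries.isUnit_iff_constantCoeff, map_pow, constantCoeff_theta, one_pow]
  exact isUnit_one

theorem map_hser {S : Type*} [CommRing S] (φ : R →+* S) :
    PowerSeries.map φ (hser R) = hser S := by
  have h1 := congrArg (PowerSeries.map φ) (hser_mul R)
  rw [map_mul, map_mul, map_pow, map_pow, map_theta, qh_map_psi2, PowerSeries.map_X] at h1
  rw [← hser_mul S] at h1
  exact (qh_isUnit_theta S).mul_right_cancel h1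

variable {R}

/-! ### products over `ℤ` -/

lemma qh_coeff_stable (k n N : ℕ) (h : n < k * (N + 1)) :
    ∀ M, N ≤ M → PowerSeries.coeff n (∏ m ∈ Finset.range M,
      (1 - (X : PowerSeries ℤ) ^ (k * (m + 1)))) =
      PowerSeries.coeff n (∏ m ∈ Finset.range N, (1 - (X : PowerSeries ℤ) ^ (k * (m + 1)))) := by
  intro M hM
  induction M, hM using Nat.le_induction with
  | base => rfl
  | succ M hM ih =>
    rw [Finset.prod_range_succ, mul_sub, mul_one, map_sub, ih, PowerSeries.coeff_mul_X_pow',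
      if_neg, sub_zero]
    have h1 : k * (N + 1) ≤ k * (M + 1) := Nat.mul_le_mul_left _ (by omega)
    omega

lemma qh_expand_prod (k N : ℕ) : (∏ m ∈ Finset.range N,
      (1 - (X : PowerSeries ℤ) ^ (k * (m + 1)))).expand 2 two_ne_zero =
      ∏ m ∈ Finset.range N, (1 - (X : PowerSeries ℤ) ^ (2 * k * (m + 1))) := by
  rw [map_prod]
  refine Finset.prod_congr rfl fun m _ => ?_
  rw [map_sub, map_one, map_pow, PowerSeries.expand_X, ← pow_mul, mul_assoc]

lemma qh_expand_euler (k : ℕ) (hk : 1 ≤ k) :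
    (euler ℤ k).expand 2 two_ne_zero = euler ℤ (2 * k) := by
  ext n
  rw [PowerSeries.coeff_expand]
  split_ifs with h
  · obtain ⟨l, rfl⟩ := h
    rw [Nat.mul_div_cancel_left l two_pos]
    unfold euler
    rw [PowerSeries.coeff_mk, PowerSeries.coeff_mk,
      ← PowerSeries.coeff_expand_mul 2 two_ne_zero, qh_expand_prod]
    refine (qh_coeff_stable (2 * k) (2 * l) l ?_ (2 * l) (by omega)).symm
    nlinarith
  · unfold euler
    rw [PowerSeries.coeff_mk, ← qh_expand_prod, PowerSeries.coeff_expand_of_not_dvd 2 two_ne_zero _ h]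

lemma qh_ne_zero {F : PowerSeries ℤ} (h : PowerSeries.constantCoeff F = 1) : F ≠ 0 := by
  rintro rfl
  simp at h

lemma qh_theta_ne : theta ℤ ≠ 0 := qh_ne_zero (constantCoeff_theta ℤ)

lemma qh_euler_ne (k : ℕ) : euler ℤ k ≠ 0 := qh_ne_zero (fx_constantCoeff_euler ℤ k)

lemma qh_haupt : hauptmodul 2 ℤ * euler ℤ 1 ^ 24 = X * euler ℤ 2 ^ 24 := by
  show X * (euler ℤ 2 * invOfUnit (euler ℤ 1) 1) ^ 24 * euler ℤ 1 ^ 24 = X * euler ℤ 2 ^ 24
  rw [mul_assoc, ← mul_pow]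
  have h : euler ℤ 2 * invOfUnit (euler ℤ 1) 1 * euler ℤ 1 = euler ℤ 2 := by
    calc euler ℤ 2 * invOfUnit (euler ℤ 1) 1 * euler ℤ 1
        = euler ℤ 2 * (euler ℤ 1 * invOfUnit (euler ℤ 1) 1) := by ring
      _ = euler ℤ 2 := by rw [fx_mul_inv, mul_one]
  rw [h]

lemma qh_theta2 (hq : QIds) :
    (theta ℤ).expand 2 two_ne_zero * euler ℤ 4 = euler ℤ 2 ^ 2 := by
  have h := congrArg (PowerSeries.expand 2 two_ne_zero) hq.g1
  rw [map_mul, map_pow, qh_expand_euler 2 (by norm_num), qh_expand_euler 1 le_rfl] at h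
  exact h

lemma qh_neg_mul (hq : QIds) :
    evalNegHom (theta ℤ) * theta ℤ = (theta ℤ).expand 2 two_ne_zero ^ 2 := by
  rw [hq.t1, map_pow]

lemma qh_one_add (hq : QIds) :
    (1 + 16 * hser ℤ) * theta ℤ ^ 4 = evalNegHom (theta ℤ) ^ 4 := by
  rw [hq.t2]
  have h := hser_mul ℤ
  linear_combination 16 * h

lemma qh_f_theta (hq : QIds) : hauptmodul 2 ℤ * theta ℤ ^ 12 =
    X * psi2 ℤ ^ 4 * (theta ℤ).expand 2 two_ne_zero ^ 8 := by
  have hb : euler ℤ 2 ^ 12 ≠ 0 := pow_ne_zero _ (qh_euler_ne 2)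
  apply mul_right_cancel₀ hb
  have h1 := qh_haupt
  have h2 := qh_theta2 hq
  calc hauptmodul 2 ℤ * theta ℤ ^ 12 * euler ℤ 2 ^ 12
      = hauptmodul 2 ℤ * (theta ℤ * euler ℤ 2) ^ 12 := by ring
    _ = hauptmodul 2 ℤ * euler ℤ 1 ^ 24 := by rw [hq.g1]; ring
    _ = X * (euler ℤ 2 ^ 2) ^ 8 * euler ℤ 2 ^ 8 := by rw [h1]; ring
    _ = X * (euler ℤ 4 ^ 2) ^ 4 * (theta ℤ).expand 2 two_ne_zero ^ 8 * euler ℤ 2 ^ 8 := by
        rw [← h2]; ring
    _ = X * psi2 ℤ ^ 4 * (theta ℤ).expand 2 two_ne_zero ^ 8 * euler ℤ 2 ^ 12 := by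
        rw [← hq.g2]; ring

lemma qh_haupt_eq (hq : QIds) : hauptmodul 2 ℤ = hser ℤ * (1 + 16 * hser ℤ) := by
  have ht : theta ℤ ^ 12 ≠ 0 := pow_ne_zero _ qh_theta_ne
  apply mul_right_cancel₀ ht
  rw [qh_f_theta hq]
  calc X * psi2 ℤ ^ 4 * (theta ℤ).expand 2 two_ne_zero ^ 8
      = X * psi2 ℤ ^ 4 * ((theta ℤ).expand 2 two_ne_zero ^ 2) ^ 4 := by ring
    _ = X * psi2 ℤ ^ 4 * (evalNegHom (theta ℤ) ^ 4 * theta ℤ ^ 4) := by
        rw [← qh_neg_mul hq]; ring
    _ = hser ℤ * theta ℤ ^ 4 * ((1 + 16 * hser ℤ) * theta ℤ ^ 4 * theta ℤ ^ 4) := by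
        rw [hser_mul, qh_one_add hq]
    _ = hser ℤ * (1 + 16 * hser ℤ) * theta ℤ ^ 12 := by ring

lemma qh_expand_haupt (hq : QIds) :
    (hauptmodul 2 ℤ).expand 2 two_ne_zero * (1 + 16 * hser ℤ) = hser ℤ ^ 2 := by
  have h1 : (hauptmodul 2 ℤ).expand 2 two_ne_zero * euler ℤ 2 ^ 24 = X ^ 2 * euler ℤ 4 ^ 24 := by
    have h := congrArg (PowerSeries.expand 2 two_ne_zero) qh_haupt
    rw [map_mul, map_mul, map_pow, map_pow, qh_expand_euler 2 (by norm_num),
      qh_expand_euler 1 le_rfl, PowerSeries.expand_X] at h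
    exact h
  have h2 := qh_theta2 hq
  have h3 : (hauptmodul 2 ℤ).expand 2 two_ne_zero * (theta ℤ).expand 2 two_ne_zero ^ 8 =
      X ^ 2 * psi2 ℤ ^ 8 := by
    have hb : euler ℤ 4 ^ 8 * euler ℤ 2 ^ 8 ≠ 0 :=
      mul_ne_zero (pow_ne_zero _ (qh_euler_ne 4)) (pow_ne_zero _ (qh_euler_ne 2))
    apply mul_right_cancel₀ hb
    calc (hauptmodul 2 ℤ).expand 2 two_ne_zero * (theta ℤ).expand 2 two_ne_zero ^ 8 *
          (euler ℤ 4 ^ 8 * euler ℤ 2 ^ 8)
        = (hauptmodul 2 ℤ).expand 2 two_ne_zero *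
          ((theta ℤ).expand 2 two_ne_zero * euler ℤ 4) ^ 8 * euler ℤ 2 ^ 8 := by ring
      _ = (hauptmodul 2 ℤ).expand 2 two_ne_zero * euler ℤ 2 ^ 24 := by rw [h2]; ring
      _ = X ^ 2 * (euler ℤ 4 ^ 2) ^ 8 * euler ℤ 4 ^ 8 := by rw [h1]; ring
      _ = X ^ 2 * psi2 ℤ ^ 8 * (euler ℤ 4 ^ 8 * euler ℤ 2 ^ 8) := by rw [← hq.g2]; ring
  have ht : theta ℤ ^ 8 ≠ 0 := pow_ne_zero _ qh_theta_ne
  apply mul_right_cancel₀ ht
  calc (hauptmodul 2 ℤ).expand 2 two_ne_zero * (1 + 16 * hser ℤ) * theta ℤ ^ 8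
      = (hauptmodul 2 ℤ).expand 2 two_ne_zero * ((1 + 16 * hser ℤ) * theta ℤ ^ 4) *
          theta ℤ ^ 4 := by ring
    _ = (hauptmodul 2 ℤ).expand 2 two_ne_zero * (evalNegHom (theta ℤ) * theta ℤ) ^ 4 := by
        rw [qh_one_add hq]; ring
    _ = (hauptmodul 2 ℤ).expand 2 two_ne_zero * (theta ℤ).expand 2 two_ne_zero ^ 8 := by
        rw [qh_neg_mul hq]; ring
    _ = (X * psi2 ℤ ^ 4) ^ 2 := by rw [h3]; ring
    _ = hser ℤ ^ 2 * theta ℤ ^ 8 := by rw [← hser_mul]; ring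

lemma qh_neg_psi2 : evalNegHom (psi2 ℤ) = psi2 ℤ := by
  ext n
  unfold evalNegHom
  rw [PowerSeries.coeff_rescale]
  unfold psi2
  rw [PowerSeries.coeff_mk]
  split_ifs with h
  · obtain ⟨m, rfl⟩ := h
    rw [(Nat.even_mul_succ_self m).neg_one_pow, one_mul]
  · rw [mul_zero]

lemma qh_neg_hser (hq : QIds) : evalNegHom (hser ℤ) * (1 + 16 * hser ℤ) = - hser ℤ := by
  have ht : theta ℤ ^ 4 ≠ 0 := pow_ne_zero _ qh_theta_ne
  apply mul_right_cancel₀ ht
  have h1 := congrArg evalNegHom (hser_mul ℤ)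
  rw [map_mul, map_mul, map_pow, map_pow, qh_neg_psi2, evalNegHom_X] at h1
  calc evalNegHom (hser ℤ) * (1 + 16 * hser ℤ) * theta ℤ ^ 4
      = evalNegHom (hser ℤ) * ((1 + 16 * hser ℤ) * theta ℤ ^ 4) := by ring
    _ = -X * psi2 ℤ ^ 4 := by rw [qh_one_add hq, h1]
    _ = - (X * psi2 ℤ ^ 4) := by ring
    _ = - hser ℤ * theta ℤ ^ 4 := by rw [← hser_mul]; ring

lemma qh_theta_eight (hq : QIds) :
    theta ℤ ^ 8 * (1 + 16 * hser ℤ) = (theta ℤ ^ 8).expand 2 two_ne_zero := by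
  rw [map_pow]
  calc theta ℤ ^ 8 * (1 + 16 * hser ℤ)
      = theta ℤ ^ 4 * ((1 + 16 * hser ℤ) * theta ℤ ^ 4) := by ring
    _ = (evalNegHom (theta ℤ) * theta ℤ) ^ 4 := by rw [qh_one_add hq]; ring
    _ = (theta ℤ).expand 2 two_ne_zero ^ 8 := by rw [qh_neg_mul hq]; ring

lemma qh_haupt_theta (hq : QIds) :
    hauptmodul 2 ℤ * theta ℤ ^ 24 = X * euler ℤ 1 ^ 24 := by
  have hb : euler ℤ 2 ^ 24 ≠ 0 := pow_ne_zero _ (qh_euler_ne 2)
  apply mul_right_cancel₀ hb
  calc hauptmodul 2 ℤ * theta ℤ ^ 24 * euler ℤ 2 ^ 24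
      = hauptmodul 2 ℤ * (theta ℤ * euler ℤ 2) ^ 24 := by ring
    _ = hauptmodul 2 ℤ * euler ℤ 1 ^ 24 * euler ℤ 1 ^ 24 := by rw [hq.g1]; ring
    _ = X * euler ℤ 1 ^ 24 * euler ℤ 2 ^ 24 := by rw [qh_haupt]; ring

/-! ### transport to any ring -/

lemma qh_map_evalNeg {S : Type*} [CommRing S] (φ : R →+* S) (F : PowerSeries R) :
    PowerSeries.map φ (evalNegHom F) = evalNegHom (PowerSeries.map φ F) := by
  ext n
  unfold evalNegHom
  rw [PowerSeries.coeff_map, PowerSeries.coeff_rescale, PowerSeries.coeff_rescale,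
    PowerSeries.coeff_map, map_mul, map_pow, map_neg, map_one]

/-- `f = h (1 + 16 h)`. -/
theorem hauptmodul_eq (hq : QIds) : hauptmodul 2 R = hser R * (1 + 16 * hser R) := by
  have h := congrArg (PowerSeries.map (Int.castRingHom R)) (qh_haupt_eq hq)
  rwa [map_hauptmodul, map_mul, map_add, map_mul, map_one, map_ofNat, map_hser] at h

/-- `f(q²) (1 + 16 h) = h²`. -/
theorem expand_hauptmodul (hq : QIds) :
    (hauptmodul 2 R).expand 2 two_ne_zero * (1 + 16 * hser R) = hser R ^ 2 := by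
  have h := congrArg (PowerSeries.map (Int.castRingHom R)) (qh_expand_haupt hq)
  rwa [map_mul, PowerSeries.map_expand, map_hauptmodul, map_add, map_mul, map_one, map_ofNat,
    map_pow, map_hser] at h

/-- `h(-q) (1 + 16 h) = - h`. -/
theorem neg_hser (hq : QIds) : evalNegHom (hser R) * (1 + 16 * hser R) = - hser R := by
  have h := congrArg (PowerSeries.map (Int.castRingHom R)) (qh_neg_hser hq)
  rwa [map_mul, qh_map_evalNeg, map_add, map_mul, map_one, map_ofNat, map_neg, map_hser] at h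

/-- `θ^8 (1 + 16 h) = θ(q²)^8`. -/
theorem theta_pow_eight (hq : QIds) :
    theta R ^ 8 * (1 + 16 * hser R) = (theta R ^ 8).expand 2 two_ne_zero := by
  have h := congrArg (PowerSeries.map (Int.castRingHom R)) (qh_theta_eight hq)
  rwa [PowerSeries.map_expand, map_mul, map_add, map_mul, map_one, map_ofNat, map_pow, map_hser,
    map_theta] at h

/-- `f θ^24 = Δ = q ∏ (1-q^n)^24`. -/
theorem hauptmodul_mul_theta (hq : QIds) :
    hauptmodul 2 R * theta R ^ 24 = X * euler R 1 ^ 24 := by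
  have h := congrArg (PowerSeries.map (Int.castRingHom R)) (qh_haupt_theta hq)
  rwa [map_mul, map_mul, map_pow, map_pow, map_theta, map_hauptmodul, fx_map_euler,
    PowerSeries.map_X] at h

end GH
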