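import Pool.Agent.GH.Base

/-!
# Theta identities

`θ(-q) θ(q) = θ(q²)²` and `θ(-q)^4 = θ(q)^4 + 16 q ψ(q²)^4`, by splitting pairs of integers
according to parity.
-/

open PowerSeries Filter Topology

noncomputable section

namespace GH

/-! ### Generating series of a weight on an index set -/

/-- nonnegative exponents with finite fibres -/
structure qtFF {I : Type} (e : I → ℤ) : Prop where
  nonneg : ∀ i, 0 ≤ e i
  fin : ∀ m : ℤ, {i | e i = m}.Finite

/-- the series `∑ w i q^(e i)` -/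
def qtgs {I : Type} (e : I → ℤ) (he : qtFF e) (w : I → ℤ) : PowerSeries ℤ :=
  PowerSeries.mk fun m => ∑ i ∈ (he.fin m).toFinset, w i

theorem qt_congr {I : Type} {e e' : I → ℤ} (he : qtFF e) {w w' : I → ℤ} (h : ∀ i, e i = e' i)
    (hw : ∀ i, w i = w' i) : qtgs e he w = qtgs e' (funext h ▸ he) w' := by
  obtain rfl := funext h
  obtain rfl := funext hw
  rfl

theorem qt_coeff {I : Type} {e : I → ℤ} (he : qtFF e) (w : I → ℤ) (m : ℕ) :
    PowerSeries.coeff m (qtgs e he w) = ∑ i ∈ (he.fin m).toFinset, w i := by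
  rw [qtgs, PowerSeries.coeff_mk]

theorem qt_equiv {I J : Type} (σ : I ≃ J) {e : J → ℤ} (he : qtFF e)
    (he' : qtFF fun i => e (σ i)) (w : J → ℤ) :
    qtgs (fun i => e (σ i)) he' (fun i => w (σ i)) = qtgs e he w := by
  ext m
  rw [qt_coeff, qt_coeff]
  exact Finset.sum_equiv σ (by simp) (by simp)

theorem qtFF.comp {I J : Type} (σ : I → J) (hσ : Function.Injective σ) {e : J → ℤ}
    (he : qtFF e) : qtFF fun i => e (σ i) :=
  ⟨fun _ => he.nonneg _, fun m => (he.fin m).preimage (hσ.injOn)⟩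

theorem qtFF.prod {I J : Type} {e : I → ℤ} {e' : J → ℤ} (he : qtFF e) (he' : qtFF e') :
    qtFF fun p : I × J => e p.1 + e' p.2 := by
  refine ⟨fun p => add_nonneg (he.nonneg _) (he'.nonneg _), fun m => ?_⟩
  refine ((Set.finite_Icc (0 : ℤ) m).biUnion fun a _ =>
    (he.fin a).prod (he'.fin (m - a))).subset ?_
  rintro ⟨i, j⟩ hij
  have h1 : e i + e' j = m := hij
  refine Set.mem_iUnion₂.2 ⟨e i, ⟨he.nonneg i, ?_⟩, rfl, ?_⟩
  · have := he'.nonneg j
    linarith
  · show e' j = m - e i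
    linarith

theorem qt_mul {I J : Type} {e : I → ℤ} {e' : J → ℤ} (he : qtFF e) (he' : qtFF e')
    (w : I → ℤ) (w' : J → ℤ) :
    qtgs e he w * qtgs e' he' w' =
      qtgs (fun p : I × J => e p.1 + e' p.2) (he.prod he') fun p => w p.1 * w' p.2 := by
  classical
  ext m
  rw [PowerSeries.coeff_mul, qt_coeff]
  have h1 : ∀ x ∈ ((he.prod he').fin m).toFinset,
      ((e x.1).toNat, (e' x.2).toNat) ∈ Finset.HasAntidiagonal.antidiagonal m := by
    intro x hx
    rw [Set.Finite.mem_toFinset] at hx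
    have hx' : e x.1 + e' x.2 = m := hx
    rw [Finset.HasAntidiagonal.mem_antidiagonal]
    have h2 := he.nonneg x.1
    have h3 := he'.nonneg x.2
    show (e x.1).toNat + (e' x.2).toNat = m
    omega
  rw [← Finset.sum_fiberwise_of_maps_to h1]
  refine Finset.sum_congr rfl fun p hp => ?_
  rw [Finset.HasAntidiagonal.mem_antidiagonal] at hp
  rw [qt_coeff, qt_coeff, Finset.sum_mul_sum, ← Finset.sum_product']
  refine Finset.sum_congr ?_ fun _ _ => rfl
  ext x
  rw [Finset.mem_product, Finset.mem_filter, Set.Finite.mem_toFinset, Set.Finite.mem_toFinset,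
    Set.Finite.mem_toFinset]
  have h2 := he.nonneg x.1
  have h3 := he'.nonneg x.2
  constructor
  · rintro ⟨h4, h5⟩
    have h4' : e x.1 = p.1 := h4
    have h5' : e' x.2 = p.2 := h5
    refine ⟨?_, ?_⟩
    · show e x.1 + e' x.2 = m
      omega
    · refine Prod.ext ?_ ?_
      · show (e x.1).toNat = p.1
        omega
      · show (e' x.2).toNat = p.2
        omega
  · rintro ⟨_, h5⟩
    have h6 : (e x.1).toNat = p.1 := congrArg Prod.fst h5
    have h7 : (e' x.2).toNat = p.2 := congrArg Prod.snd h5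
    refine ⟨?_, ?_⟩
    · show e x.1 = p.1
      omega
    · show e' x.2 = p.2
      omega

theorem qtFF.two {I : Type} {e : I → ℤ} (he : qtFF e) : qtFF fun i => 2 * e i := by
  refine ⟨fun i => by have := he.nonneg i; omega, fun m => ?_⟩
  refine (he.fin (m / 2)).subset fun i hi => ?_
  have h1 : 2 * e i = m := hi
  show e i = m / 2
  omega

theorem qt_expand {I : Type} {e : I → ℤ} (he : qtFF e) (w : I → ℤ) :
    (qtgs e he w).expand 2 two_ne_zero = qtgs (fun i => 2 * e i) he.two w := by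
  ext m
  rw [PowerSeries.coeff_expand, qt_coeff]
  split_ifs with h
  · rw [qt_coeff]
    refine Finset.sum_congr ?_ fun _ _ => rfl
    ext i
    rw [Set.Finite.mem_toFinset, Set.Finite.mem_toFinset]
    show e i = ((m / 2 : ℕ) : ℤ) ↔ 2 * e i = m
    omega
  · symm
    refine Finset.sum_eq_zero fun i hi => ?_
    rw [Set.Finite.mem_toFinset] at hi
    have h1 : 2 * e i = m := by simpa using hi
    omega

theorem qtFF.succ {I : Type} {e : I → ℤ} (he : qtFF e) : qtFF fun i => e i + 1 := by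
  refine ⟨fun i => by have := he.nonneg i; omega, fun m => ?_⟩
  refine (he.fin (m - 1)).subset fun i hi => ?_
  have h1 : e i + 1 = m := hi
  show e i = m - 1
  omega

theorem qt_X {I : Type} {e : I → ℤ} (he : qtFF e) (w : I → ℤ) :
    X * qtgs e he w = qtgs (fun i => e i + 1) he.succ w := by
  ext m
  rcases m with _ | m
  · rw [PowerSeries.coeff_zero_X_mul, qt_coeff]
    symm
    refine Finset.sum_eq_zero fun i hi => ?_
    rw [Set.Finite.mem_toFinset] at hi
    have h1 : e i + 1 = ((0 : ℕ) : ℤ) := hi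
    have := he.nonneg i
    omega
  · rw [PowerSeries.coeff_succ_X_mul, qt_coeff, qt_coeff]
    refine Finset.sum_congr ?_ fun _ _ => rfl
    ext i
    rw [Set.Finite.mem_toFinset, Set.Finite.mem_toFinset]
    show e i = (m : ℤ) ↔ e i + 1 = ((m + 1 : ℕ) : ℤ)
    omega

theorem qt_neg {I : Type} {e : I → ℤ} (he : qtFF e) (w : I → ℤ) :
    qtgs e he (fun i => - w i) = - qtgs e he w := by
  ext m
  rw [map_neg, qt_coeff, qt_coeff, Finset.sum_neg_distrib]

/-- splitting pairs by parity -/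
def qtpar : (ℤ × ℤ) ⊕ (ℤ × ℤ) → ℤ × ℤ
  | Sum.inl p => (p.1 + p.2, p.1 - p.2)
  | Sum.inr p => (p.1 + p.2 + 1, p.1 - p.2)

theorem qtpar_inl_inj : Function.Injective fun p : ℤ × ℤ => qtpar (Sum.inl p) := by
  rintro ⟨a, b⟩ ⟨c, d⟩ h
  have h1 : a + b = c + d := congrArg Prod.fst h
  have h2 : a - b = c - d := congrArg Prod.snd h
  refine Prod.ext ?_ ?_
  · show a = c
    omega
  · show b = d
    omega

theorem qtpar_inr_inj : Function.Injective fun p : ℤ × ℤ => qtpar (Sum.inr p) := by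
  rintro ⟨a, b⟩ ⟨c, d⟩ h
  have h1 : a + b + 1 = c + d + 1 := congrArg Prod.fst h
  have h2 : a - b = c - d := congrArg Prod.snd h
  refine Prod.ext ?_ ?_
  · show a = c
    omega
  · show b = d
    omega

theorem qt_split {e : ℤ × ℤ → ℤ} (he : qtFF e) (w : ℤ × ℤ → ℤ) :
    qtgs e he w = qtgs (fun p => e (qtpar (Sum.inl p))) (he.comp _ qtpar_inl_inj)
        (fun p => w (qtpar (Sum.inl p))) +
      qtgs (fun p => e (qtpar (Sum.inr p))) (he.comp _ qtpar_inr_inj)
        (fun p => w (qtpar (Sum.inr p))) := by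
  classical
  ext m
  rw [map_add, qt_coeff, qt_coeff, qt_coeff]
  rw [← Finset.sum_filter_add_sum_filter_not (he.fin m).toFinset (fun p => Even (p.1 + p.2))]
  congr 1
  · symm
    refine Finset.sum_bij (fun p _ => qtpar (Sum.inl p)) ?_ ?_ ?_ ?_
    · intro p hp
      rw [Set.Finite.mem_toFinset] at hp
      rw [Finset.mem_filter, Set.Finite.mem_toFinset]
      refine ⟨hp, ⟨p.1, ?_⟩⟩
      show p.1 + p.2 + (p.1 - p.2) = p.1 + p.1
      ring
    · intro p _ q _ h
      exact qtpar_inl_inj h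
    · intro p hp
      rw [Finset.mem_filter, Set.Finite.mem_toFinset] at hp
      obtain ⟨h1, ⟨r, hr⟩⟩ := hp
      have h2 : qtpar (Sum.inl (r, p.1 - r)) = p := by
        refine Prod.ext ?_ ?_
        · show r + (p.1 - r) = p.1
          ring
        · show r - (p.1 - r) = p.2
          linarith
      refine ⟨(r, p.1 - r), ?_, h2⟩
      rw [Set.Finite.mem_toFinset]
      show e (qtpar (Sum.inl (r, p.1 - r))) = m
      rw [h2]
      exact h1
    · intro p _
      rfl
  · symm
    refine Finset.sum_bij (fun p _ => qtpar (Sum.inr p)) ?_ ?_ ?_ ?_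
    · intro p hp
      rw [Set.Finite.mem_toFinset] at hp
      rw [Finset.mem_filter, Set.Finite.mem_toFinset]
      refine ⟨hp, ?_⟩
      rw [Int.not_even_iff_odd]
      refine ⟨p.1, ?_⟩
      show p.1 + p.2 + 1 + (p.1 - p.2) = 2 * p.1 + 1
      ring
    · intro p _ q _ h
      exact qtpar_inr_inj h
    · intro p hp
      rw [Finset.mem_filter, Set.Finite.mem_toFinset, Int.not_even_iff_odd] at hp
      obtain ⟨h1, ⟨r, hr⟩⟩ := hp
      have h2 : qtpar (Sum.inr (r, p.1 - r - 1)) = p := by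
        refine Prod.ext ?_ ?_
        · show r + (p.1 - r - 1) + 1 = p.1
          ring
        · show r - (p.1 - r - 1) = p.2
          linarith
      refine ⟨(r, p.1 - r - 1), ?_, h2⟩
      rw [Set.Finite.mem_toFinset]
      show e (qtpar (Sum.inr (r, p.1 - r - 1))) = m
      rw [h2]
      exact h1
    · intro p _
      rfl

/-! ### The basic series -/

theorem qt_sq : qtFF fun n : ℤ => n * n := by
  refine ⟨fun n => mul_self_nonneg n, fun m => (Set.finite_Icc (-m) m).subset fun n hn => ?_⟩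
  have h1 : n * n = m := hn
  constructor
  · rcases le_or_gt 0 n with h | h
    · nlinarith
    · nlinarith
  · rcases le_or_gt n 0 with h | h
    · nlinarith
    · nlinarith

theorem qt_tri : qtFF fun n : ℤ => n * (n + 1) := by
  refine ⟨fun n => ?_, fun m => (Set.finite_Icc (-m - 1) m).subset fun n hn => ?_⟩
  · rcases le_or_gt 0 n with h | h
    · positivity
    · nlinarith
  · have h1 : n * (n + 1) = m := hn
    constructor
    · rcases le_or_gt 0 n with h | h
      · nlinarith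
      · nlinarith
    · rcases le_or_gt n 0 with h | h
      · nlinarith
      · nlinarith

/-- `∑ q^(n²)` -/
def qtA : PowerSeries ℤ := qtgs (fun n : ℤ => n * n) qt_sq fun _ => 1

/-- `∑ (-1)^n q^(n²)` -/
def qtB : PowerSeries ℤ := qtgs (fun n : ℤ => n * n) qt_sq fun n => (n.negOnePow : ℤ)

/-- `∑ q^(n(n+1))` over all integers -/
def qtQ : PowerSeries ℤ := qtgs (fun n : ℤ => n * (n + 1)) qt_tri fun _ => 1

theorem qt_sqset (m : ℕ) :
    (∑ _i ∈ (qt_sq.fin m).toFinset, (1 : ℤ)) = if m = 0 then 1 else if IsSquare m then 2 else 0 := by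
  classical
  by_cases h0 : m = 0
  · subst h0
    have : (qt_sq.fin ((0 : ℕ) : ℤ)).toFinset = {0} := by
      ext n
      rw [Set.Finite.mem_toFinset, Finset.mem_singleton]
      show n * n = ((0 : ℕ) : ℤ) ↔ n = 0
      simp
    rw [this]
    simp
  · rw [if_neg h0]
    split_ifs with h
    · obtain ⟨r, hr⟩ := h
      have hr0 : r ≠ 0 := by
        rintro rfl
        exact h0 (by simpa using hr)
      have : (qt_sq.fin (m : ℤ)).toFinset = {(r : ℤ), -(r : ℤ)} := by
        ext n
        rw [Set.Finite.mem_toFinset, Finset.mem_insert, Finset.mem_singleton]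
        show n * n = (m : ℤ) ↔ n = r ∨ n = -r
        rw [hr]
        push_cast
        exact mul_self_eq_mul_self_iff
      rw [this, Finset.sum_pair]
      · norm_num
      · intro h
        have : (r : ℤ) = 0 := by linarith
        exact hr0 (by exact_mod_cast this)
    · have : (qt_sq.fin (m : ℤ)).toFinset = ∅ := by
        ext n
        rw [Set.Finite.mem_toFinset]
        refine ⟨fun hn => absurd ?_ h, fun hn => absurd hn (Finset.notMem_empty _)⟩
        have hn' : n * n = (m : ℤ) := hn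
        refine ⟨n.natAbs, ?_⟩
        have h1 : ((n.natAbs * n.natAbs : ℕ) : ℤ) = m := by
          rw [Int.natAbs_mul_self]
          exact hn'
        exact_mod_cast h1.symm
      rw [this]
      simp

theorem qt_theta : theta ℤ = qtB := by
  ext m
  have h1 : ∑ n ∈ (qt_sq.fin m).toFinset, (n.negOnePow : ℤ) =
      (-1) ^ m * ∑ _n ∈ (qt_sq.fin m).toFinset, (1 : ℤ) := by
    rw [Finset.mul_sum]
    refine Finset.sum_congr rfl fun n hn => ?_
    rw [Set.Finite.mem_toFinset] at hn
    have hn' : n * n = (m : ℤ) := hn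
    rw [mul_one, ← Int.negOnePow_mul_self, hn']
    exact Int.coe_negOnePow_natCast m
  rw [qtB, qt_coeff, h1, qt_sqset, theta, PowerSeries.coeff_mk]
  split_ifs with h2 h3
  · subst h2
    simp
  · ring
  · simp

theorem qt_thetaNeg : evalNegHom (theta ℤ) = qtA := by
  ext m
  rw [evalNegHom, PowerSeries.coeff_rescale, qtA, qt_coeff, qt_sqset, theta, PowerSeries.coeff_mk]
  have h : ((-1 : ℤ) ^ m) * (-1) ^ m = 1 := by
    rw [← mul_pow]
    norm_num
  split_ifs with h2 h3
  · subst h2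
    simp
  · linear_combination 2 * h
  · simp

theorem qt_psi : 2 * psi2 ℤ = qtQ := by
  classical
  ext m
  have h0 : (2 * psi2 ℤ : PowerSeries ℤ) = PowerSeries.C (2 : ℤ) * psi2 ℤ := by
    rw [map_ofNat]
  rw [h0, PowerSeries.coeff_C_mul, psi2, PowerSeries.coeff_mk, qtQ, qt_coeff]
  split_ifs with h
  · obtain ⟨r, hr⟩ := h
    have : (qt_tri.fin (m : ℤ)).toFinset = {(r : ℤ), -(r : ℤ) - 1} := by
      ext n
      rw [Set.Finite.mem_toFinset, Finset.mem_insert, Finset.mem_singleton]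
      show n * (n + 1) = (m : ℤ) ↔ n = r ∨ n = -r - 1
      rw [hr]
      push_cast
      constructor
      · intro h1
        have h2 : (n - r) * (n + r + 1) = 0 := by linear_combination h1
        rcases mul_eq_zero.1 h2 with h3 | h3
        · left; linarith
        · right; linarith
      · rintro (h1 | h1)
        · rw [h1]
        · rw [h1]; ring
    rw [this, Finset.sum_pair]
    · norm_num
    · omega
  · have : (qt_tri.fin (m : ℤ)).toFinset = ∅ := by
      ext n
      rw [Set.Finite.mem_toFinset]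
      refine ⟨fun hn => absurd ?_ h, fun hn => absurd hn (Finset.notMem_empty _)⟩
      have hn' : n * (n + 1) = (m : ℤ) := hn
      rcases le_or_gt 0 n with h1 | h1
      · lift n to ℕ using h1
        exact ⟨n, by exact_mod_cast hn'.symm⟩
      · obtain ⟨k, hk⟩ : ∃ k : ℕ, n = -(k : ℤ) - 1 := ⟨(-n - 1).toNat, by omega⟩
        refine ⟨k, ?_⟩
        have h2 : (k : ℤ) * (k + 1) = m := by
          rw [← hn', hk]
          ring
        exact_mod_cast h2.symm
    rw [this]
    simp

/-! ### The identities -/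

theorem qt_AA : qtA * qtA = (qtA * qtA).expand 2 two_ne_zero +
    X * (qtQ * qtQ).expand 2 two_ne_zero := by
  conv_lhs => rw [qtA, qt_mul, qt_split]
  rw [map_mul, map_mul, qtA, qtQ, qt_expand, qt_expand, qt_mul, qt_mul, qt_X]
  congr 1
  · refine qt_congr _ (fun p => ?_) fun p => by ring
    show (p.1 + p.2) * (p.1 + p.2) + (p.1 - p.2) * (p.1 - p.2) = _
    ring
  · refine qt_congr _ (fun p => ?_) fun p => by ring
    show (p.1 + p.2 + 1) * (p.1 + p.2 + 1) + (p.1 - p.2) * (p.1 - p.2) = _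
    ring

theorem qt_sgn (a b : ℤ) : ((a.negOnePow : ℤ)) * (b.negOnePow : ℤ) = ((a + b).negOnePow : ℤ) := by
  rw [Int.negOnePow_add, Units.val_mul]

theorem qt_BB : qtB * qtB = (qtA * qtA).expand 2 two_ne_zero -
    X * (qtQ * qtQ).expand 2 two_ne_zero := by
  conv_lhs => rw [qtB, qt_mul, qt_split]
  rw [map_mul, map_mul, qtA, qtQ, qt_expand, qt_expand, qt_mul, qt_mul, qt_X, sub_eq_add_neg,
    ← qt_neg]
  congr 1
  · refine qt_congr _ (fun p => ?_) fun p => ?_
    · show (p.1 + p.2) * (p.1 + p.2) + (p.1 - p.2) * (p.1 - p.2) = _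
      ring
    · show ((p.1 + p.2).negOnePow : ℤ) * ((p.1 - p.2).negOnePow : ℤ) = _
      rw [qt_sgn, show p.1 + p.2 + (p.1 - p.2) = 2 * p.1 by ring, Int.negOnePow_two_mul]
      simp
  · refine qt_congr _ (fun p => ?_) fun p => ?_
    · show (p.1 + p.2 + 1) * (p.1 + p.2 + 1) + (p.1 - p.2) * (p.1 - p.2) = _
      ring
    · show ((p.1 + p.2 + 1).negOnePow : ℤ) * ((p.1 - p.2).negOnePow : ℤ) = _
      rw [qt_sgn, show p.1 + p.2 + 1 + (p.1 - p.2) = 2 * p.1 + 1 by ring,
        Int.negOnePow_two_mul_add_one]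
      simp

theorem qt_zero : qtgs (fun n : ℤ => 2 * (n * (n + 1))) qt_tri.two
    (fun n => (n.negOnePow : ℤ)) = 0 := by
  let σ : ℤ ≃ ℤ := ⟨fun n => -1 - n, fun n => -1 - n, fun n => by ring, fun n => by ring⟩
  have h1 := qt_equiv σ qt_tri.two (qt_tri.two.comp _ σ.injective) (fun n => (n.negOnePow : ℤ))
  have h2 : qtgs (fun n : ℤ => 2 * (n * (n + 1))) qt_tri.two (fun n => -(n.negOnePow : ℤ)) =
      qtgs (fun i => 2 * (σ i * (σ i + 1))) (qt_tri.two.comp _ σ.injective)
        (fun n => ((σ n).negOnePow : ℤ)) := by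
    refine qt_congr _ (fun n => ?_) fun n => ?_
    · show 2 * (n * (n + 1)) = 2 * ((-1 - n) * (-1 - n + 1))
      ring
    · show -(n.negOnePow : ℤ) = ((-1 - n).negOnePow : ℤ)
      rw [Int.negOnePow_sub, Units.val_mul]
      have : ((-1 : ℤ).negOnePow : ℤ) = -1 := by decide
      rw [this]
      ring
  rw [← h2, qt_neg] at h1
  ext m
  have h3 := congrArg (PowerSeries.coeff m) h1
  rw [map_neg] at h3
  rw [map_zero]
  have h4 : ∀ a : ℤ, -a = a → a = 0 := fun a ha => by omega
  exact h4 _ h3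

theorem qt_AB : qtA * qtB = (qtB * qtB).expand 2 two_ne_zero := by
  conv_lhs => rw [qtA, qtB, qt_mul, qt_split]
  have h1 : qtgs (fun n : ℤ => 2 * (n * (n + 1))) qt_tri.two (fun n => (n.negOnePow : ℤ)) *
      (X * qtgs (fun n : ℤ => 2 * (n * (n + 1))) qt_tri.two (fun n => (n.negOnePow : ℤ))) = 0 := by
    rw [qt_zero, zero_mul]
  rw [map_mul, qtB, qt_expand, qt_mul]
  rw [qt_X, qt_mul] at h1
  have h2 : ∀ a b : PowerSeries ℤ, b = 0 → ∀ c, a = c → a + b = c := by
    intro a b hb c hc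
    rw [hb, hc, add_zero]
  refine h2 _ _ ?_ _ ?_
  · rw [← h1]
    refine qt_congr _ (fun p => ?_) fun p => ?_
    · show (p.1 + p.2 + 1) * (p.1 + p.2 + 1) + (p.1 - p.2) * (p.1 - p.2) = _
      ring
    · show 1 * ((p.1 - p.2).negOnePow : ℤ) = (p.1.negOnePow : ℤ) * (p.2.negOnePow : ℤ)
      rw [one_mul, Int.negOnePow_sub, Units.val_mul]
  · refine qt_congr _ (fun p => ?_) fun p => ?_
    · show (p.1 + p.2) * (p.1 + p.2) + (p.1 - p.2) * (p.1 - p.2) = _
      ring
    · show 1 * ((p.1 - p.2).negOnePow : ℤ) = (p.1.negOnePow : ℤ) * (p.2.negOnePow : ℤ)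
      rw [one_mul, Int.negOnePow_sub, Units.val_mul]

theorem qt_QQ : qtQ * qtQ = 2 * (qtQ * qtA).expand 2 two_ne_zero := by
  conv_lhs => rw [qtQ, qt_mul, qt_split]
  rw [two_mul]
  congr 1
  · rw [map_mul, qtA, qtQ, qt_expand, qt_expand, qt_mul]
    refine qt_congr _ (fun p => ?_) fun p => by ring
    show (p.1 + p.2) * (p.1 + p.2 + 1) + (p.1 - p.2) * (p.1 - p.2 + 1) = _
    ring
  · rw [mul_comm qtQ qtA, map_mul, qtA, qtQ, qt_expand, qt_expand, qt_mul]
    let σ : ℤ × ℤ ≃ ℤ × ℤ := ⟨fun p => (p.1 + 1, p.2), fun p => (p.1 - 1, p.2),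
      fun p => by simp, fun p => by simp⟩
    rw [← qt_equiv σ (qt_sq.two.prod qt_tri.two)
      ((qt_sq.two.prod qt_tri.two).comp _ σ.injective)]
    refine qt_congr _ (fun p => ?_) fun p => by ring
    show (p.1 + p.2 + 1) * (p.1 + p.2 + 1 + 1) + (p.1 - p.2) * (p.1 - p.2 + 1) =
      2 * ((p.1 + 1) * (p.1 + 1)) + 2 * (p.2 * (p.2 + 1))
    ring

/-- `θ(-q) θ(q) = θ(q²)²`. -/
theorem neg_theta_mul_theta :
    evalNegHom (theta ℤ) * theta ℤ = (theta ℤ ^ 2).expand 2 two_ne_zero := by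
  rw [qt_thetaNeg, qt_theta, pow_two]
  exact qt_AB

/-- Jacobi: `θ(-q)^4 = θ(q)^4 + 16 q ψ(q²)^4`. -/
theorem jacobi_quartic :
    evalNegHom (theta ℤ) ^ 4 = theta ℤ ^ 4 + 16 * X * psi2 ℤ ^ 4 := by
  rw [qt_thetaNeg, qt_theta]
  have h1 := qt_AA
  have h2 := qt_BB
  have h3 := qt_QQ
  rw [← qt_psi] at h1 h2 h3
  simp only [map_mul, map_ofNat] at h1 h2 h3
  set A2 := qtA.expand 2 two_ne_zero
  set P2 := (psi2 ℤ).expand 2 two_ne_zero
  have h4 : (4 : PowerSeries ℤ) * psi2 ℤ ^ 2 = 4 * (P2 * A2) := by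
    linear_combination h3
  have h40 : (4 : PowerSeries ℤ) ≠ 0 := by
    intro h
    have h0 : (PowerSeries.C (4 : ℤ) : PowerSeries ℤ) = 0 := by rw [map_ofNat]; exact h
    have h00 := congrArg (PowerSeries.coeff 0) h0
    rw [PowerSeries.coeff_zero_C, map_zero] at h00
    norm_num at h00
  have h5 : psi2 ℤ ^ 2 = P2 * A2 :=
    mul_left_cancel₀ h40 h4
  have h6 : qtA ^ 4 - qtB ^ 4 = (qtA * qtA - qtB * qtB) * (qtA * qtA + qtB * qtB) := by ring
  have h7 : qtA ^ 4 - qtB ^ 4 = 16 * X * (P2 * A2) ^ 2 := by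
    rw [h6, h1, h2]
    ring
  rw [← h5] at h7
  linear_combination h7

end GH
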