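import Pool.Agent.GH.Base

open PowerSeries Filter Topology

noncomputable section

namespace GH

/-! Norm bounds for the matrices of `U_2`. -/

theorem norm_two_C2 : ‖(2 : C2)‖ = 2⁻¹ := by
  have h1 : (2 : C2) = algebraMap ℚ_[2] C2 ((2 : ℕ) : ℚ_[2]) := by
    rw [map_natCast]
    norm_num
  rw [h1, norm_algebraMap', Padic.norm_p]
  norm_num

theorem ub_norm_natCast (n : ℕ) : ‖(n : C2)‖ = ‖(n : ℚ_[2])‖ := by
  rw [← map_natCast (algebraMap ℚ_[2] C2) n, norm_algebraMap']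

theorem ub_norm_fac_val (n : ℕ) :
    ‖((n.factorial : ℕ) : C2)‖⁻¹ = 2 ^ (padicValNat 2 n.factorial) := by
  have h0 : ((n.factorial : ℕ) : ℚ_[2]) ≠ 0 := by
    exact_mod_cast Nat.factorial_ne_zero n
  rw [ub_norm_natCast, Padic.norm_eq_zpow_neg_valuation h0, Padic.valuation_natCast]
  rw [← zpow_neg, neg_neg, zpow_natCast]
  norm_num

theorem ub_norm_fac (n : ℕ) : ‖(((n + 1).factorial : ℕ) : C2)‖⁻¹ ≤ 2 ^ n := by
  rw [ub_norm_fac_val]
  apply pow_le_pow_right₀ (by norm_num)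
  have h1 := sub_one_mul_padicValNat_factorial (p := 2) (n + 1)
  have h2 : 0 < ((2 : ℕ).digits (n + 1)).sum := by
    rw [Nat.pos_iff_ne_zero]
    intro h3
    have h4 : ∀ d ∈ (2 : ℕ).digits (n + 1), d = 0 := List.sum_eq_zero_iff.1 h3
    have h5 : (2 : ℕ).digits (n + 1) ≠ [] := by
      rw [Ne, Nat.digits_eq_nil_iff_eq_zero]
      omega
    exact Nat.getLast_digit_ne_zero 2 (Nat.succ_ne_zero n) (h4 _ (List.getLast_mem h5))
  omega

theorem ub_norm_fac' (n : ℕ) : ‖((n.factorial : ℕ) : C2)‖⁻¹ ≤ 2 ^ n := by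
  cases n with
  | zero => simp
  | succ n =>
    refine (ub_norm_fac n).trans ?_
    exact pow_le_pow_right₀ (by norm_num) (Nat.le_succ n)

theorem ub_norm_16 : ‖(16 : C2)‖ = 16⁻¹ := by
  have h : (16 : C2) = 2 ^ 4 := by norm_num
  rw [h, norm_pow, norm_two_C2]
  norm_num

theorem ub_norm_int (m : ℤ) : ‖(m : C2)‖ ≤ 1 := IsUltrametricDist.norm_intCast_le_one C2 m

theorem ub_half {y : C2} (hy : ‖y‖ ≤ 1) : ‖y / 2‖ ≤ 2 := by
  rw [norm_div, norm_two_C2, div_inv_eq_mul]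
  linarith

theorem ubd_prod {s : C2} (n : ℕ) (h : ∀ l : ℕ, ‖s - l‖ ≤ 2) :
    ‖∏ i ∈ Finset.range n, (s - i)‖ ≤ 2 ^ n := by
  rw [norm_prod]
  calc ∏ i ∈ Finset.range n, ‖s - i‖ ≤ ∏ _i ∈ Finset.range n, (2 : ℝ) :=
        Finset.prod_le_prod (fun i _ => norm_nonneg _) (fun i _ => h i)
    _ = 2 ^ n := by rw [Finset.prod_const, Finset.card_range]

theorem ub_zero (a s : C2) : PowerSeries.coeff 0 (rescale a (binS s)) = 1 := by
  rw [coeff_rescale, binS, coeff_mk]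
  simp

theorem ub_pow_aux (n : ℕ) : (16 : ℝ)⁻¹ ^ (n + 1) * 2 ^ (n + 1) * 2 ^ n =
    2⁻¹ * (4 : ℝ)⁻¹ ^ (n + 1) := by
  have h : (2 : ℝ) ^ n = 2⁻¹ * 2 ^ (n + 1) := by rw [pow_succ]; ring
  rw [h]
  have h2 : (16 : ℝ)⁻¹ ^ (n + 1) * 2 ^ (n + 1) * (2⁻¹ * 2 ^ (n + 1)) =
      2⁻¹ * ((16 : ℝ)⁻¹ * 2 * 2) ^ (n + 1) := by
    rw [mul_pow, mul_pow]
    ring
  rw [h2]
  norm_num

theorem ub_g {s : C2} (h : ∀ l : ℕ, ‖s - l‖ ≤ 2) (n : ℕ) :
    ‖PowerSeries.coeff (n + 1) (rescale (16 : C2) (binS s))‖ ≤ 2⁻¹ * (4 : ℝ)⁻¹ ^ (n + 1) := by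
  rw [coeff_rescale, binS, coeff_mk, norm_mul, norm_div, norm_pow, ub_norm_16, div_eq_mul_inv,
    ← ub_pow_aux n, mul_assoc]
  refine mul_le_mul_of_nonneg_left ?_ (by positivity)
  exact mul_le_mul (ubd_prod (n + 1) h) (ub_norm_fac n) (by positivity) (by positivity)

theorem ub_g' {s : C2} (h : ∀ l : ℕ, ‖s - l‖ ≤ 2) (n : ℕ) :
    ‖PowerSeries.coeff n (rescale (16 : C2) (binS s))‖ ≤ (4 : ℝ)⁻¹ ^ n := by
  cases n with
  | zero => rw [ub_zero]; simp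
  | succ n =>
    refine (ub_g h n).trans ?_
    have h1 : (0 : ℝ) < (4 : ℝ)⁻¹ ^ (n + 1) := by positivity
    linarith

theorem ub_coeff_zero {K : Type*} [Field K] (a : K) (G : PowerSeries K) :
    PowerSeries.coeff 0 ((1 + C a * X) * G) = PowerSeries.coeff 0 G := by
  simp

theorem ub_coeff_succ {K : Type*} [Field K] (a : K) (G : PowerSeries K) (n : ℕ) :
    PowerSeries.coeff (n + 1) ((1 + C a * X) * G) =
      PowerSeries.coeff (n + 1) G + a * PowerSeries.coeff n G := by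
  rw [add_mul, one_mul, mul_assoc, map_add, coeff_C_mul, coeff_succ_X_mul]

theorem ub_second {A B : ℝ} (n : ℕ) (_ : 0 ≤ A) (hA : A ≤ 8⁻¹) (hB0 : 0 ≤ B)
    (h0 : n = 0 → B ≤ 1) (h1 : ∀ m, n = m + 1 → B ≤ 2⁻¹ * (4 : ℝ)⁻¹ ^ (m + 1)) :
    A * B ≤ 2⁻¹ * (4 : ℝ)⁻¹ ^ (n + 1) := by
  cases n with
  | zero =>
    have h2 := h0 rfl
    calc A * B ≤ 8⁻¹ * 1 := mul_le_mul hA h2 hB0 (by norm_num)
      _ ≤ 2⁻¹ * (4 : ℝ)⁻¹ ^ (0 + 1) := by norm_num
  | succ m =>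
    have h2 := h1 m rfl
    calc A * B ≤ 8⁻¹ * (2⁻¹ * (4 : ℝ)⁻¹ ^ (m + 1)) := mul_le_mul hA h2 hB0 (by norm_num)
      _ ≤ 4⁻¹ * (2⁻¹ * (4 : ℝ)⁻¹ ^ (m + 1)) :=
        mul_le_mul_of_nonneg_right (by norm_num) (by positivity)
      _ = 2⁻¹ * (4 : ℝ)⁻¹ ^ (m + 1 + 1) := by ring

theorem ub_entry {s a : C2} (h : ∀ l : ℕ, ‖s - l‖ ≤ 2) (ha : ‖a‖ ≤ 8⁻¹) (n : ℕ) :
    ‖PowerSeries.coeff (n + 1) ((1 + C a * X) * rescale (16 : C2) (binS s))‖ ≤
      2⁻¹ * (4 : ℝ)⁻¹ ^ (n + 1) := by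
  rw [ub_coeff_succ]
  refine (IsUltrametricDist.norm_add_le_max _ _).trans (max_le (ub_g h n) ?_)
  rw [norm_mul]
  refine ub_second n (norm_nonneg _) ha (norm_nonneg _) (fun h0 => ?_) (fun m hm => ?_)
  · rw [h0, ub_zero, norm_one]
  · rw [hm]
    exact ub_g h m

theorem ub_entry' {s a : C2} (h : ∀ l : ℕ, ‖s - l‖ ≤ 2) (ha : ‖a‖ ≤ 8⁻¹) (n : ℕ) :
    ‖PowerSeries.coeff n ((1 + C a * X) * rescale (16 : C2) (binS s))‖ ≤ (4 : ℝ)⁻¹ ^ n := by
  cases n with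
  | zero => rw [ub_coeff_zero, ub_zero]; simp
  | succ n =>
    refine (ub_entry h ha n).trans ?_
    have h1 : (0 : ℝ) < (4 : ℝ)⁻¹ ^ (n + 1) := by positivity
    linarith

theorem ub_norm_8 : ‖(8 : C2)‖ = 8⁻¹ := by
  have h : (8 : C2) = 2 ^ 3 := by norm_num
  rw [h, norm_pow, norm_two_C2]
  norm_num

theorem ub_norm_32 : ‖(32 : C2)‖ ≤ 8⁻¹ := by
  have h : (32 : C2) = 2 ^ 5 := by norm_num
  rw [h, norm_pow, norm_two_C2]
  norm_num

theorem ub_even {x : C2} (hx : ‖x‖ ≤ 1) (i j l : ℕ) : ‖(i : C2) + j - 1 - x / 2 - l‖ ≤ 2 := by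
  have h1 : (i : C2) + j - 1 - x / 2 - l = (((i : ℤ) + j - 1 - l : ℤ) : C2) + (-x) / 2 := by
    push_cast
    ring
  rw [h1]
  refine (IsUltrametricDist.norm_add_le_max _ _).trans (max_le ?_ ?_)
  · exact (ub_norm_int _).trans (by norm_num)
  · exact ub_half (by rwa [norm_neg])

theorem ub_odd {x : C2} (hx : ‖x‖ ≤ 1) (i j l : ℕ) : ‖(i : C2) + j - 1 / 2 - x / 2 - l‖ ≤ 2 := by
  have h1 : (i : C2) + j - 1 / 2 - x / 2 - l = (((i : ℤ) + j - l : ℤ) : C2) + (-(1 + x)) / 2 := by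
    push_cast
    ring
  rw [h1]
  refine (IsUltrametricDist.norm_add_le_max _ _).trans (max_le ?_ ?_)
  · exact (ub_norm_int _).trans (by norm_num)
  · apply ub_half
    rw [norm_neg]
    exact (IsUltrametricDist.norm_add_le_max _ _).trans (max_le (by rw [norm_one]) hx)

theorem norm_Mmat_le {x : C2} (hx : ‖x‖ ≤ 1) {i j : ℕ} (h : j ≤ 2 * i) :
    ‖Mmat x i j‖ ≤ (4 : ℝ)⁻¹ ^ (2 * i - j) := by
  unfold Mmat
  rw [if_pos h]
  exact ub_entry' (fun l => ub_even hx i j l) ub_norm_8.le _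

theorem norm_Mmat_lt {x : C2} (hx : ‖x‖ ≤ 1) {i j : ℕ} (h : j < 2 * i) :
    ‖Mmat x i j‖ ≤ 2⁻¹ * (4 : ℝ)⁻¹ ^ (2 * i - j) := by
  unfold Mmat
  rw [if_pos h.le]
  obtain ⟨n, hn⟩ : ∃ n, 2 * i - j = n + 1 := ⟨2 * i - j - 1, by omega⟩
  rw [hn]
  exact ub_entry (fun l => ub_even hx i j l) ub_norm_8.le n

theorem norm_Modd_le {x : C2} (hx : ‖x‖ ≤ 1) {i j : ℕ} (h : j ≤ 2 * i) :
    ‖Modd x i j‖ ≤ (4 : ℝ)⁻¹ ^ (2 * i - j) := by
  unfold Modd
  rw [if_pos h]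
  exact ub_entry' (fun l => ub_odd hx i j l) ub_norm_32 _

theorem norm_vv_le (n : ℕ) : ‖(vv n : C2)‖ ≤ (16 : ℝ)⁻¹ ^ n := by
  have hs : ∀ l : ℕ, ‖(1 / 2 : C2) - l‖ ≤ 2 := by
    intro l
    have h1 : (1 / 2 : C2) - l = ((-(l : ℤ) : ℤ) : C2) + 1 / 2 := by
      push_cast
      ring
    rw [h1]
    refine (IsUltrametricDist.norm_add_le_max _ _).trans (max_le ?_ ?_)
    · exact (ub_norm_int _).trans (by norm_num)
    · exact ub_half (by rw [norm_one])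
  have h64 : ‖(64 : C2)‖ = 64⁻¹ := by
    have h : (64 : C2) = 2 ^ 6 := by norm_num
    rw [h, norm_pow, norm_two_C2]
    norm_num
  rw [vv, coeff_rescale, binS, coeff_mk, norm_mul, norm_div, norm_pow, h64, div_eq_mul_inv]
  have h3 : (16 : ℝ)⁻¹ ^ n = (64 : ℝ)⁻¹ ^ n * (2 ^ n * 2 ^ n) := by
    rw [← mul_pow, ← mul_pow]
    norm_num
  rw [h3]
  refine mul_le_mul_of_nonneg_left ?_ (by positivity)
  exact mul_le_mul (ubd_prod n hs) (ub_norm_fac' n) (by positivity) (by positivity)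

theorem vv_zero : (vv 0 : C2) = 1 := ub_zero _ _

/-- The product of the linear factors of a binomial coefficient. -/
def ubdP (c : C2) (n : ℕ) : Polynomial C2 :=
  ∏ l ∈ Finset.range n, (Polynomial.C (c - l) - Polynomial.C (1 / 2) * Polynomial.X)

theorem ubP_coeff {c : C2} (hc : ∀ l : ℕ, ‖c - l‖ ≤ 1) (n m : ℕ) :
    ‖(ubdP c n).coeff m‖ ≤ 2 ^ n := by
  induction n generalizing m with
  | zero =>
    rw [ubdP, Finset.range_zero, Finset.prod_empty, Polynomial.coeff_one]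
    split_ifs <;> simp
  | succ n ih =>
    have h1 : ubdP c (n + 1) = ubdP c n * Polynomial.C (c - n) -
        ubdP c n * Polynomial.C (1 / 2) * Polynomial.X := by
      rw [ubdP, ubdP, Finset.prod_range_succ]
      ring
    have h2 : ‖((ubdP c n * Polynomial.C (c - n)).coeff m)‖ ≤ 2 ^ (n + 1) := by
      rw [Polynomial.coeff_mul_C, norm_mul, pow_succ]
      exact mul_le_mul (ih m) ((hc n).trans (by norm_num)) (norm_nonneg _) (by positivity)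
    have h3 : ‖((ubdP c n * Polynomial.C (1 / 2) * Polynomial.X).coeff m)‖ ≤ 2 ^ (n + 1) := by
      cases m with
      | zero =>
        rw [Polynomial.mul_coeff_zero, Polynomial.coeff_X_zero, mul_zero, norm_zero]
        positivity
      | succ m =>
        rw [Polynomial.coeff_mul_X, Polynomial.coeff_mul_C, norm_mul, pow_succ]
        exact mul_le_mul (ih m) (ub_half (by rw [norm_one])) (norm_nonneg _) (by positivity)
    rw [h1, Polynomial.coeff_sub, sub_eq_add_neg]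
    refine (IsUltrametricDist.norm_add_le_max _ _).trans (max_le h2 ?_)
    rw [norm_neg]
    exact h3

theorem ubP_eval (c x : C2) (n : ℕ) :
    (ubdP c n).eval x = ∏ l ∈ Finset.range n, (c - x / 2 - l) := by
  rw [ubdP, Polynomial.eval_prod]
  refine Finset.prod_congr rfl fun l _ => ?_
  rw [Polynomial.eval_sub, Polynomial.eval_mul, Polynomial.eval_C, Polynomial.eval_C,
    Polynomial.eval_X]
  ring

/-- The binomial coefficient as a polynomial. -/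
def ubB (c : C2) (n : ℕ) : Polynomial C2 :=
  Polynomial.C (16 ^ n * (n.factorial : C2)⁻¹) * ubdP c n

theorem ubB_eval (c x : C2) (n : ℕ) :
    (ubB c n).eval x = PowerSeries.coeff n (rescale (16 : C2) (binS (c - x / 2))) := by
  rw [ubB, Polynomial.eval_mul, Polynomial.eval_C, ubP_eval, coeff_rescale, binS, coeff_mk]
  ring

theorem ubB_coeff_succ {c : C2} (hc : ∀ l : ℕ, ‖c - l‖ ≤ 1) (n m : ℕ) :
    ‖(ubB c (n + 1)).coeff m‖ ≤ 2⁻¹ * (4 : ℝ)⁻¹ ^ (n + 1) := by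
  rw [ubB, Polynomial.coeff_C_mul, norm_mul, norm_mul, norm_pow, ub_norm_16, norm_inv,
    ← ub_pow_aux n]
  calc (16 : ℝ)⁻¹ ^ (n + 1) * ‖(((n + 1).factorial : ℕ) : C2)‖⁻¹ * ‖(ubdP c (n + 1)).coeff m‖
      = (16 : ℝ)⁻¹ ^ (n + 1) *
        (‖(ubdP c (n + 1)).coeff m‖ * ‖(((n + 1).factorial : ℕ) : C2)‖⁻¹) := by ring
    _ ≤ (16 : ℝ)⁻¹ ^ (n + 1) * (2 ^ (n + 1) * 2 ^ n) := by
        refine mul_le_mul_of_nonneg_left ?_ (by positivity)
        exact mul_le_mul (ubP_coeff hc (n + 1) m) (ub_norm_fac n) (by positivity) (by positivity)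
    _ = (16 : ℝ)⁻¹ ^ (n + 1) * 2 ^ (n + 1) * 2 ^ n := by ring

theorem ubB_coeff_zero (c : C2) (m : ℕ) : ‖(ubB c 0).coeff m‖ ≤ 1 := by
  have h : ubB c 0 = 1 := by
    rw [ubB, ubdP]
    simp
  rw [h, Polynomial.coeff_one]
  split_ifs <;> simp

/-- The matrix entries are polynomials in `x` with controlled coefficients. -/
theorem Mmat_isPoly (i j : ℕ) : ∃ P : Polynomial C2,
    (∀ x : C2, Mmat x i j = P.eval x) ∧
    ∀ n, ‖P.coeff n‖ ≤ if j ≤ 2 * i then (4 : ℝ)⁻¹ ^ (2 * i - j) else 0 := by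
  by_cases h : j ≤ 2 * i
  · have hc : ∀ l : ℕ, ‖((i : C2) + j - 1) - l‖ ≤ 1 := by
      intro l
      have h1 : (i : C2) + j - 1 - l = (((i : ℤ) + j - 1 - l : ℤ) : C2) := by
        push_cast
        ring
      rw [h1]
      exact ub_norm_int _
    rcases Nat.eq_zero_or_pos (2 * i - j) with h0 | h0
    · refine ⟨1, fun x => ?_, fun n => ?_⟩
      · unfold Mmat
        rw [if_pos h, h0, ub_coeff_zero, ub_zero, Polynomial.eval_one]
      · rw [if_pos h, h0, pow_zero, Polynomial.coeff_one]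
        split_ifs <;> simp
    · obtain ⟨N, hN⟩ : ∃ n, 2 * i - j = n + 1 := ⟨2 * i - j - 1, by omega⟩
      refine ⟨ubB ((i : C2) + j - 1) (N + 1) + Polynomial.C 8 * ubB ((i : C2) + j - 1) N,
        fun x => ?_, fun n => ?_⟩
      · unfold Mmat
        rw [if_pos h, hN, ub_coeff_succ, Polynomial.eval_add, Polynomial.eval_mul,
          Polynomial.eval_C, ubB_eval, ubB_eval]
      · rw [if_pos h, hN, Polynomial.coeff_add, Polynomial.coeff_C_mul]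
        have h1 : 2⁻¹ * (4 : ℝ)⁻¹ ^ (N + 1) ≤ (4 : ℝ)⁻¹ ^ (N + 1) := by
          have h2 : (0 : ℝ) < (4 : ℝ)⁻¹ ^ (N + 1) := by positivity
          linarith
        refine (IsUltrametricDist.norm_add_le_max _ _).trans (max_le ?_ ?_)
        · exact (ubB_coeff_succ hc N n).trans h1
        · rw [norm_mul]
          refine (ub_second N (norm_nonneg _) ub_norm_8.le (norm_nonneg _) (fun h2 => ?_)
            (fun m hm => ?_)).trans h1
          · rw [h2]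
            exact ubB_coeff_zero _ n
          · rw [hm]
            exact ubB_coeff_succ hc m n
  · refine ⟨0, fun x => ?_, fun n => ?_⟩
    · unfold Mmat
      rw [if_neg h, Polynomial.eval_zero]
    · rw [if_neg h, Polynomial.coeff_zero, norm_zero]

end GH
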