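import Pool.Agent.GH.UMatB_a

open PowerSeries Filter Topology

noncomputable section

namespace GH

variable {K : Type*} [Field K] [CharZero K]

/-! The matrices of `U_2` as coefficients. -/

/-- coefficients of a substitution -/
theorem ub_coeff_mul_subst {P : PowerSeries K} (hP0 : PowerSeries.constantCoeff P = 0) {N n : ℕ}
    (hN : (X : PowerSeries K) ^ (n + 1) ∣ P ^ N) (A u : PowerSeries K) :
    PowerSeries.coeff n (A * (u.subst P : PowerSeries K)) =
      ∑ m ∈ Finset.range N, PowerSeries.coeff m u * PowerSeries.coeff n (A * P ^ m) := by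
  have hs : HasSubst P := HasSubst.of_constantCoeff_zero' hP0
  obtain ⟨t, ht⟩ : ∃ t : PowerSeries K,
      t = ∑ m ∈ Finset.range N, C (PowerSeries.coeff m u) * X ^ m := ⟨_, rfl⟩
  have h1 : (X : PowerSeries K) ^ N ∣ u - t := by
    rw [PowerSeries.X_pow_dvd_iff]
    intro m hm
    rw [map_sub, ht, map_sum, Finset.sum_eq_single m]
    · rw [PowerSeries.coeff_C_mul, PowerSeries.coeff_X_pow, if_pos rfl]
      ring
    · intro b _ hb
      rw [PowerSeries.coeff_C_mul, PowerSeries.coeff_X_pow, if_neg (Ne.symm hb), mul_zero]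
    · intro h
      exact absurd (Finset.mem_range.mpr hm) h
  obtain ⟨v, hv⟩ := h1
  have h2 : u = t + X ^ N * v := by
    rw [← hv]
    ring
  have h3 : (u.subst P : PowerSeries K) =
      ∑ m ∈ Finset.range N, C (PowerSeries.coeff m u) * P ^ m + P ^ N * v.subst P := by
    have h4 : (t.subst P : PowerSeries K) =
        ∑ m ∈ Finset.range N, C (PowerSeries.coeff m u) * P ^ m := by
      rw [ht, ← coe_substAlgHom (R := K) (S := K) hs, map_sum]
      refine Finset.sum_congr rfl fun m _ => ?_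
      rw [map_mul, map_pow, substAlgHom_X, coe_substAlgHom]
      congr 1
      exact ub_subst_C hs _
    conv_lhs => rw [h2]
    rw [subst_add hs, subst_mul hs, subst_pow hs, subst_X hs, h4]
  obtain ⟨e, he⟩ := hN
  have h5 : PowerSeries.coeff n (A * (P ^ N * (v.subst P : PowerSeries K))) = 0 := by
    have h6 : A * (P ^ N * (v.subst P : PowerSeries K)) =
        X ^ (n + 1) * (A * e * v.subst P) := by
      rw [he]
      ring
    rw [h6, PowerSeries.coeff_X_pow_mul', if_neg (by omega)]
  rw [h3, mul_add, map_add, h5, add_zero, Finset.mul_sum, map_sum]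
  refine Finset.sum_congr rfl fun m _ => ?_
  rw [← PowerSeries.coeff_C_mul]
  congr 1
  ring

/-- `(1 + 16 T)^s` -/
def ubR (s : K) : PowerSeries K := rescale (16 : K) (binS s)

theorem ubR_add (s t : K) : ubR (s + t) = ubR s * ubR t := by
  unfold ubR
  rw [ub_binS_add, map_mul]

theorem ubR_zero : ubR (0 : K) = 1 := by
  unfold ubR
  rw [ub_binS_zero, map_one]

theorem ubR_one : ubR (1 : K) = 1 + C (16 : K) * X := by
  unfold ubR
  rw [ub_binS_one, map_add, map_one, PowerSeries.rescale_X]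

theorem ubR_nat (n : ℕ) : ubR (n : K) = (1 + C (16 : K) * X) ^ n := by
  induction n with
  | zero => rw [Nat.cast_zero, ubR_zero, pow_zero]
  | succ n ih => rw [Nat.cast_succ, ubR_add, ih, ubR_one, pow_succ]

theorem ubR_const (s : K) : PowerSeries.constantCoeff (ubR s) = 1 := by
  unfold ubR
  rw [← PowerSeries.coeff_zero_eq_constantCoeff_apply, PowerSeries.coeff_rescale,
    PowerSeries.coeff_zero_eq_constantCoeff_apply, ub_const_binS]
  ring

theorem ubR_neg_one : ubR (-1 : K) = (1 + C (16 : K) * X)⁻¹ := by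
  have h1 : ubR (-1 : K) * (1 + C (16 : K) * X) = 1 := by
    rw [← ubR_one, ← ubR_add]
    have : (-1 : K) + 1 = 0 := by ring
    rw [this, ubR_zero]
  have h2 : PowerSeries.constantCoeff (1 + C (16 : K) * X : PowerSeries K) ≠ 0 := by simp
  rw [PowerSeries.eq_inv_iff_mul_eq_one h2]
  exact h1

/-- `T (1 + 16 T)` -/
def ubP (K : Type*) [Field K] : PowerSeries K := X * (1 + C (16 : K) * X)

theorem ubP_const : PowerSeries.constantCoeff (ubP K) = 0 := by
  unfold ubP
  simp

theorem ubP_pow (j : ℕ) : ubP K ^ j = X ^ j * ubR (j : K) := by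
  unfold ubP
  rw [mul_pow, ubR_nat]

theorem ub_Mmat (x : K) (i j : ℕ) :
    Mmat x i j = PowerSeries.coeff (2 * i)
      ((1 + C (8 : K) * X) * ubR ((i : K) - 1 - x / 2) * ubP K ^ j) := by
  have h1 : (1 + C (8 : K) * X) * ubR ((i : K) - 1 - x / 2) * ubP K ^ j =
      X ^ j * ((1 + C (8 : K) * X) * ubR ((i : K) + j - 1 - x / 2)) := by
    have h2 : (i : K) + j - 1 - x / 2 = ((i : K) - 1 - x / 2) + j := by ring
    rw [ubP_pow, h2, ubR_add]
    ring
  rw [h1, PowerSeries.coeff_X_pow_mul']
  rfl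

theorem ub_Modd (x : K) (i j : ℕ) :
    Modd x i j = PowerSeries.coeff (2 * i)
      (X ^ j * ((1 + C (32 : K) * X) * ubR ((i : K) + j - 1 / 2 - x / 2))) := by
  rw [PowerSeries.coeff_X_pow_mul']
  rfl

theorem ub_sqrt {w : PowerSeries K} (hw : PowerSeries.constantCoeff w = 1) :
    ppow (w * w) (1 / 2 : K) = w := by
  rw [ub_ppow_mul hw hw, ← ub_ppow_add hw]
  have h : (1 / 2 : K) + 1 / 2 = 1 := by ring
  rw [h, ub_ppow_one hw]

theorem ub_C_num (n : ℕ) [n.AtLeastTwo] : (C (OfNat.ofNat n : K) : PowerSeries K) =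
    (OfNat.ofNat n : PowerSeries K) := map_ofNat _ n

end GH
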