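import Pool.Agent.GH.UMatA
import Pool.Agent.GH.UMatB_b

open PowerSeries Filter Topology

noncomputable section

namespace GH

variable {K : Type*} [Field K] [CharZero K]

theorem ub_hs_h (hh : HIds K) : HasSubst (hser K) :=
  HasSubst.of_constantCoeff_zero' (by
    rw [← PowerSeries.coeff_zero_eq_constantCoeff_apply]
    exact hh.c0)

theorem ub_hs_P : HasSubst (ubP K) := HasSubst.of_constantCoeff_zero' ubP_const

theorem ub_const_h (hh : HIds K) : PowerSeries.constantCoeff (hser K) = 0 := by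
  rw [← PowerSeries.coeff_zero_eq_constantCoeff_apply]
  exact hh.c0

theorem ub_f_subst (hh : HIds K) : ((ubP K).subst (hser K) : PowerSeries K) = hauptmodul 2 K := by
  have hs := ub_hs_h hh
  unfold ubP
  rw [subst_mul hs, subst_add hs, subst_mul hs, subst_X hs, ub_subst_one hs, ub_subst_C hs,
    hh.f1, ub_C_num]

theorem ub_const_v (hh : HIds K) :
    PowerSeries.constantCoeff (1 + C (16 : K) * hser K) = 1 := by
  rw [map_add, map_mul, ub_const_h hh, map_one, mul_zero, add_zero]

theorem ub_const_theta (hh : HIds K) : PowerSeries.constantCoeff (theta K ^ 8) = 1 := by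
  rw [map_pow, hh.t0, one_pow]

theorem ub_theta_expand (hh : HIds K) (x : K) :
    thetaPow x = (thetaPow x).expand 2 two_ne_zero * (ubR (-(x / 2))).subst (hser K) := by
  have h1 : (thetaPow x).expand 2 two_ne_zero =
      thetaPow x * ppow (1 + C (16 : K) * hser K) (x / 2) := by
    unfold thetaPow
    rw [ub_ppow_expand (ub_const_theta hh), ← hh.t8, ← ub_C_num,
      ub_ppow_mul (ub_const_theta hh) (ub_const_v hh)]
  have h2 : ((ubR (-(x / 2))).subst (hser K) : PowerSeries K) =
      ppow (1 + C (16 : K) * hser K) (-(x / 2)) := ub_rescale_subst _ _ (ub_const_h hh)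
  rw [h1, h2, mul_assoc, ← ub_ppow_add (ub_const_v hh), add_neg_cancel,
    ub_ppow_zero (ub_const_v hh), mul_one]

/-- Column version for a general function of `f`. -/
theorem U_thetaPow_subst (hh : HIds K) (x : K) (u : PowerSeries K) :
    U 2 (thetaPow x * u.subst (hauptmodul 2 K)) =
      thetaPow x * (PowerSeries.mk fun i ↦
        ∑ j ∈ Finset.range (2 * i + 1), Mmat x i j * PowerSeries.coeff j u).subst
        (hauptmodul 2 K) := by
  have hs := ub_hs_h hh
  have h1 : (u.subst (hauptmodul 2 K) : PowerSeries K) =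
      PowerSeries.subst (hser K) (u.subst (ubP K) : PowerSeries K) := by
    rw [subst_comp_subst_apply ub_hs_P hs, ub_f_subst hh]
  have h2 : thetaPow x * (u.subst (hauptmodul 2 K) : PowerSeries K) =
      (thetaPow x).expand 2 two_ne_zero *
        PowerSeries.subst (hser K) (ubR (-(x / 2)) * (u.subst (ubP K) : PowerSeries K)) := by
    rw [subst_mul hs, ← mul_assoc, ← ub_theta_expand hh, h1]
  rw [h2, U_expand_mul, U_subst_hser hh]
  congr 2
  ext i
  rw [PowerSeries.coeff_mk, PowerSeries.coeff_mk]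
  have h3 : (1 + C (8 : K) * X) * (1 + C (16 : K) * X) ^ i * (1 + C (16 : K) * X)⁻¹ *
      (ubR (-(x / 2)) * (u.subst (ubP K) : PowerSeries K)) =
      ((1 + C (8 : K) * X) * ubR ((i : K) - 1 - x / 2)) * u.subst (ubP K) := by
    have h4 : (i : K) - 1 - x / 2 = (i : K) + (-1) + (-(x / 2)) := by ring
    rw [h4, ubR_add, ubR_add, ubR_nat, ubR_neg_one]
    ring
  rw [h3, ub_coeff_mul_subst ubP_const (N := 2 * i + 1)]
  · refine Finset.sum_congr rfl fun m _ => ?_
    rw [ub_Mmat]
    ring
  · rw [ubP_pow]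
    exact dvd_mul_right _ _

theorem Mmat_of_lt (x : K) {i j : ℕ} (h : 2 * i < j) : Mmat x i j = 0 := by
  unfold Mmat
  rw [if_neg (by omega)]

/-- The matrix of `U_2` in the basis `θ^{4x} f^j`. -/
theorem U_thetaPow (hh : HIds K) (x : K) (j : ℕ) :
    U 2 (thetaPow x * hauptmodul 2 K ^ j) =
      thetaPow x * (PowerSeries.mk fun i ↦ Mmat x i j).subst (hauptmodul 2 K) := by
  have hf : HasSubst (hauptmodul 2 K) := by
    refine HasSubst.of_constantCoeff_zero' ?_
    rw [hh.f1, map_mul, ub_const_h hh, zero_mul]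
  have h := U_thetaPow_subst hh x (X ^ j)
  rw [subst_pow hf, subst_X hf] at h
  rw [h]
  congr 2
  ext i
  rw [PowerSeries.coeff_mk, PowerSeries.coeff_mk]
  by_cases hj : j ≤ 2 * i
  · rw [Finset.sum_eq_single j]
    · rw [PowerSeries.coeff_X_pow, if_pos rfl, mul_one]
    · intro b _ hb
      rw [PowerSeries.coeff_X_pow, if_neg hb, mul_zero]
    · intro h
      exact absurd (Finset.mem_range.mpr (by omega)) h
  · rw [Mmat_of_lt x (by omega)]
    refine Finset.sum_eq_zero fun b hb => ?_
    rw [Finset.mem_range] at hb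
    rw [PowerSeries.coeff_X_pow, if_neg (by omega), mul_zero]

/-- Change of basis between `Mmat` and `Modd`. -/
theorem Mmat_mul_vv (x : K) (i j : ℕ) :
    ∑ k ∈ Finset.range (2 * i + 1), (if j ≤ k then Mmat x i k * vv (k - j) else 0) =
      ∑ k ∈ Finset.range (i + 1), vv (i - k) * Modd x k j := by
  obtain ⟨V, hV⟩ : ∃ V : PowerSeries K, V = rescale (64 : K) (binS (1 / 2 : K)) := ⟨_, rfl⟩
  have hvv : ∀ n, (vv n : K) = PowerSeries.coeff n V := fun n => by rw [hV]; rfl
  -- the left side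
  have hL : ∑ k ∈ Finset.range (2 * i + 1), (if j ≤ k then Mmat x i k * vv (k - j) else 0) =
      PowerSeries.coeff (2 * i) (((1 + C (8 : K) * X) * ubR ((i : K) - 1 - x / 2)) *
        ((X ^ j * V).subst (ubP K) : PowerSeries K)) := by
    rw [ub_coeff_mul_subst ubP_const (N := 2 * i + 1)
      (by rw [ubP_pow]; exact dvd_mul_right _ _)]
    refine Finset.sum_congr rfl fun m _ => ?_
    rw [← ub_Mmat, PowerSeries.coeff_X_pow_mul', hvv]
    split_ifs
    · ring
    · ring
  have hVP : (V.subst (ubP K) : PowerSeries K) = 1 + C (32 : K) * X := by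
    rw [hV, ub_rescale_subst _ _ ubP_const]
    have h1 : 1 + C (64 : K) * ubP K = (1 + C (32 : K) * X) * (1 + C (32 : K) * X) := by
      unfold ubP
      rw [ub_C_num, ub_C_num, ub_C_num]
      ring
    rw [h1, ub_sqrt (by simp)]
  have hVP' : ((X ^ j * V).subst (ubP K) : PowerSeries K) =
      X ^ j * ubR (j : K) * (1 + C (32 : K) * X) := by
    rw [subst_mul ub_hs_P, subst_pow ub_hs_P, subst_X ub_hs_P, hVP, ubP_pow]
  -- the right side
  obtain ⟨Q, hQ⟩ : ∃ Q : PowerSeries K, Q = X ^ 2 * ubR (-1 : K) := ⟨_, rfl⟩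
  have hQ0 : PowerSeries.constantCoeff Q = 0 := by
    rw [hQ, map_mul, map_pow, PowerSeries.constantCoeff_X]
    ring
  have hQm : ∀ m : ℕ, Q ^ m = X ^ (2 * m) * ubR (-(m : K)) := by
    intro m
    induction m with
    | zero => rw [pow_zero, mul_zero, pow_zero, Nat.cast_zero, neg_zero, ubR_zero, mul_one]
    | succ m ih =>
      have h1 : -((m + 1 : ℕ) : K) = -(m : K) + (-1) := by
        push_cast
        ring
      rw [pow_succ, ih, h1, ubR_add, hQ]
      ring
  have hVQ : (V.subst Q : PowerSeries K) = (1 + C (8 : K) * X) * ubR (-(1 / 2) : K) := by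
    rw [hV, ub_rescale_subst _ _ hQ0]
    have h1 : ubR (-(1 / 2) : K) * ubR (-(1 / 2) : K) = ubR (-1 : K) := by
      rw [← ubR_add]
      congr 1
      ring
    have h2 : ubR (-1 : K) * (1 + C (16 : K) * X) = 1 := by
      rw [← ubR_one, ← ubR_add]
      have : (-1 : K) + 1 = 0 := by ring
      rw [this, ubR_zero]
    have h3 : 1 + C (64 : K) * Q = ((1 + C (8 : K) * X) * ubR (-(1 / 2) : K)) *
        ((1 + C (8 : K) * X) * ubR (-(1 / 2) : K)) := by
      have h4 : ((1 + C (8 : K) * X) * ubR (-(1 / 2) : K)) *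
        ((1 + C (8 : K) * X) * ubR (-(1 / 2) : K)) =
        (1 + C (8 : K) * X) * (1 + C (8 : K) * X) * ubR (-1 : K) := by
        rw [← h1]
        ring
      rw [h4, hQ]
      rw [ub_C_num] at h2 ⊢
      rw [ub_C_num]
      linear_combination -h2
    rw [h3, ub_sqrt]
    rw [map_mul, ubR_const]
    simp
  have hR : ∑ k ∈ Finset.range (i + 1), vv (i - k) * Modd x k j =
      PowerSeries.coeff (2 * i) ((X ^ j * ((1 + C (32 : K) * X) *
        ubR ((i : K) + j - 1 / 2 - x / 2))) * (V.subst Q : PowerSeries K)) := by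
    rw [ub_coeff_mul_subst hQ0 (N := i + 1)]
    · rw [← Finset.sum_range_reflect]
      refine Finset.sum_congr rfl fun m hm => ?_
      rw [Finset.mem_range] at hm
      have h1 : i - (i + 1 - 1 - m) = m := by omega
      have h2 : i + 1 - 1 - m = i - m := by omega
      rw [h1, h2, hvv, ub_Modd, hQm]
      have h3 : (X ^ j * ((1 + C (32 : K) * X) * ubR ((i : K) + j - 1 / 2 - x / 2))) *
          (X ^ (2 * m) * ubR (-(m : K))) = X ^ (2 * m) * (X ^ j * ((1 + C (32 : K) * X) *
            ubR (((i - m : ℕ) : K) + j - 1 / 2 - x / 2))) := by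
        have h4 : ((i - m : ℕ) : K) + j - 1 / 2 - x / 2 =
            ((i : K) + j - 1 / 2 - x / 2) + -(m : K) := by
          rw [Nat.cast_sub (by omega)]
          ring
        rw [h4, ubR_add]
        ring
      have h5 : 2 * i - 2 * m = 2 * (i - m) := by omega
      have h6 : ∀ Z : PowerSeries K, PowerSeries.coeff (2 * i) (X ^ (2 * m) * Z) =
          PowerSeries.coeff (2 * (i - m)) Z := by
        intro Z
        rw [PowerSeries.coeff_X_pow_mul', if_pos (by omega), h5]
      rw [h3, h6]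
    · rw [hQm]
      refine Dvd.dvd.mul_right ?_ _
      exact pow_dvd_pow _ (by omega)
  rw [hL, hR, hVP', hVQ]
  congr 1
  have h1 : (i : K) - 1 - x / 2 + j = ((i : K) + j - 1 / 2 - x / 2) + -(1 / 2) := by ring
  have h2 : ubR ((i : K) - 1 - x / 2) * ubR (j : K) =
      ubR ((i : K) + j - 1 / 2 - x / 2) * ubR (-(1 / 2) : K) := by
    rw [← ubR_add, ← ubR_add, h1]
  linear_combination (1 + C (8 : K) * X) * X ^ j * (1 + C (32 : K) * X) * h2

theorem Mmat_zero_zero (x : K) : Mmat x 0 0 = 1 := by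
  rw [ub_Mmat, mul_zero, PowerSeries.coeff_zero_eq_constantCoeff_apply, pow_zero, mul_one,
    map_mul, ubR_const]
  simp

theorem ub_coeff_lin (c s : K) (m : ℕ) :
    PowerSeries.coeff (m + 1) ((1 + C c * X) * rescale (16 : K) (binS s)) *
      ((m + 1).factorial : K) =
      16 ^ m * (16 * (s - m) + c * (m + 1)) * ∏ i ∈ Finset.range m, (s - i) := by
  have h1 : (1 + C c * X) * rescale (16 : K) (binS s) =
      rescale (16 : K) (binS s) + C c * (X * rescale (16 : K) (binS s)) := by ring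
  have h0 : ((m.factorial : ℕ) : K) ≠ 0 := by exact_mod_cast m.factorial_ne_zero
  have h2 : ((m : K) + 1) ≠ 0 := by exact_mod_cast m.succ_ne_zero
  rw [h1, map_add, PowerSeries.coeff_C_mul, PowerSeries.coeff_succ_X_mul,
    PowerSeries.coeff_rescale, PowerSeries.coeff_rescale, ub_coeff_binS, ub_coeff_binS,
    Finset.prod_range_succ, Nat.factorial_succ]
  push_cast
  field_simp
  ring

omit [CharZero K] in
theorem ub_prod (s y : K) (m : ℕ) (hs : ∀ k : ℕ, 2 * (s - k) = y - 2 * k) :
    2 ^ m * ∏ i ∈ Finset.range m, (s - i) = ∏ i ∈ Finset.range m, (y - 2 * (i : K)) := by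
  rw [← Finset.card_range m, ← Finset.prod_const, Finset.card_range, ← Finset.prod_mul_distrib]
  exact Finset.prod_congr rfl fun i _ => hs i

/-- The explicit product, `n = 2i - j`. -/
theorem Mmat_eq_prod (x : K) (i j n : ℕ) (h : j + n = 2 * i) (hn : 0 < n) :
    Mmat x i j * (n.factorial : K) =
      8 ^ n * (3 * (j : K) - x) *
        ∏ m ∈ Finset.range (n - 1), (2 * ((i : K) + j - 1 - m) - x) := by
  obtain ⟨m, rfl⟩ : ∃ m, n = m + 1 := ⟨n - 1, by omega⟩
  have h1 : 2 * i - j = m + 1 := by omega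
  have hK : (j : K) + (m + 1) = 2 * i := by exact_mod_cast h
  unfold Mmat
  rw [if_pos (by omega), h1, ub_coeff_lin, Nat.add_sub_cancel]
  have h2 := ub_prod ((i : K) + j - 1 - x / 2) (2 * ((i : K) + j - 1) - x) m
    (fun k => by ring)
  have h3 : ∏ k ∈ Finset.range m, (2 * ((i : K) + j - 1 - k) - x) =
      ∏ k ∈ Finset.range m, (2 * ((i : K) + j - 1) - x - 2 * (k : K)) :=
    Finset.prod_congr rfl fun k _ => by ring
  rw [h3, ← h2]
  have h4 : (16 : K) * ((i : K) + j - 1 - x / 2 - m) + 8 * (m + 1) = 8 * (3 * j - x) := by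
    linear_combination -8 * hK
  have h5 : (16 : K) ^ m = 8 ^ m * 2 ^ m := by
    rw [← mul_pow]
    norm_num
  rw [h4, h5, pow_succ]
  ring

theorem Modd_eq_prod (x : K) (i j n : ℕ) (h : j + n = 2 * i) (hn : 0 < n) :
    Modd x i j * (n.factorial : K) =
      8 ^ n * (6 * (i : K) + 1 - x) *
        ∏ m ∈ Finset.range (n - 1), (2 * ((i : K) + j - 1 - m) + 1 - x) := by
  obtain ⟨m, rfl⟩ : ∃ m, n = m + 1 := ⟨n - 1, by omega⟩
  have h1 : 2 * i - j = m + 1 := by omega
  have hK : (j : K) + (m + 1) = 2 * i := by exact_mod_cast h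
  unfold Modd
  rw [if_pos (by omega), h1, ub_coeff_lin, Nat.add_sub_cancel]
  have h2 := ub_prod ((i : K) + j - 1 / 2 - x / 2) (2 * ((i : K) + j - 1) + 1 - x) m
    (fun k => by ring)
  have h3 : ∏ k ∈ Finset.range m, (2 * ((i : K) + j - 1 - k) + 1 - x) =
      ∏ k ∈ Finset.range m, (2 * ((i : K) + j - 1) + 1 - x - 2 * (k : K)) :=
    Finset.prod_congr rfl fun k _ => by ring
  rw [h3, ← h2]
  have h4 : (16 : K) * ((i : K) + j - 1 / 2 - x / 2 - m) + 32 * (m + 1) =
      8 * (6 * i + 1 - x) := by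
    linear_combination 16 * hK
  have h5 : (16 : K) ^ m = 8 ^ m * 2 ^ m := by
    rw [← mul_pow]
    norm_num
  rw [h4, h5, pow_succ]
  ring

end GH
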