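import Pool.Agent.GH.ZCharB

open PowerSeries Filter Topology

noncomputable section

namespace GH

/-! Even characters of `ℤ_2ˣ` and the evaluation map `ev`. -/

theorem norm_iota (a : ℤ_[2]) : ‖iota a‖ = ‖a‖ := zc_norm_iota a

/-- `ev w` is a ring homomorphism for `‖w‖ < 1`. -/
theorem exists_evHom {w : C2} (hw : ‖w‖ < 1) :
    ∃ φ : Lam →+* C2, ∀ F, φ F = ev w F := ⟨zc_evHom hw, fun _ ↦ rfl⟩

theorem norm_ev_le {w : C2} (hw : ‖w‖ < 1) (F : Lam) : ‖ev w F‖ ≤ 1 := zc_norm_ev_le hw F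

theorem ev_X {w : C2} (hw : ‖w‖ < 1) : ev w X = w := by
  have _ := hw
  exact zc_ev_X w

theorem ev_C {w : C2} (hw : ‖w‖ < 1) (a : ℤ_[2]) : ev w (PowerSeries.C a) = iota a := by
  have _ := hw
  exact zc_ev_C w a

/-- the unit `5^s` -/
def zc_u (s : ℤ_[2]) : (ℤ_[2])ˣ :=
  ⟨E5 s, E5 (-s), zc_E5_mul_neg s, by rw [mul_comm]; exact zc_E5_mul_neg s⟩

theorem zc_u_val (s : ℤ_[2]) : ((zc_u s : (ℤ_[2])ˣ) : ℤ_[2]) = E5 s := rfl

theorem zc_u_add (s t : ℤ_[2]) : zc_u (s + t) = zc_u s * zc_u t := by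
  ext
  rw [Units.val_mul, zc_u_val, zc_u_val, zc_u_val, AddChar.map_add_eq_mul]

theorem zc_u_zero : zc_u 0 = 1 := by
  ext
  rw [zc_u_val, AddChar.map_zero_eq_one]
  rfl

theorem zc_u_cont : Continuous zc_u := by
  rw [Units.continuous_iff]
  exact ⟨E5_cont, E5_cont.comp continuous_neg⟩

theorem zc_val (κ : Weight 2) {a : ℕ} (u : (ℤ_[2])ˣ) (h : (u : ℤ_[2]) = a) :
    κ.val a = ((κ u : C2ˣ) : C2) := by
  have hu : IsUnit (a : ℤ_[2]) := h ▸ u.isUnit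
  unfold Weight.val
  rw [dif_pos hu]
  have : hu.unit = u := Units.ext (by rw [IsUnit.unit_spec, h])
  rw [this]

/-- the additive character `s ↦ κ(5^s)` -/
def zc_chi (κ : Weight 2) : AddChar ℤ_[2] C2 where
  toFun s := ((κ (zc_u s) : C2ˣ) : C2)
  map_zero_eq_one' := by rw [zc_u_zero, map_one, Units.val_one]
  map_add_eq_mul' s t := by rw [zc_u_add, map_mul, Units.val_mul]

theorem zc_chi_apply (κ : Weight 2) (s : ℤ_[2]) : zc_chi κ s = ((κ (zc_u s) : C2ˣ) : C2) := rfl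

theorem zc_chi_cont (κ : Weight 2) : Continuous (zc_chi κ) :=
  Units.continuous_val.comp (κ.continuous_toFun.comp zc_u_cont)

theorem zc_chi_one (κ : Weight 2) : zc_chi κ 1 = 1 + κ.w := by
  have h : κ.val (1 + 2 * 2) = zc_chi κ 1 := by
    refine zc_val κ (zc_u 1) ?_
    rw [zc_u_val, E5_one]
    norm_num
  unfold Weight.w
  rw [h]
  ring

/-- the binomial series `(1 + W)^s` -/
def zc_bs (s : ℤ_[2]) : Lam := PowerSeries.mk fun n ↦ Ring.choose s n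

theorem zc_bs_add (s t : ℤ_[2]) : zc_bs (s + t) = zc_bs s * zc_bs t := by
  ext n
  rw [PowerSeries.coeff_mul]
  simp only [zc_bs, PowerSeries.coeff_mk]
  exact Ring.add_choose_eq n (Commute.all s t)

theorem zc_bs_zero : zc_bs 0 = 1 := by
  ext n
  have h := Ring.choose_natCast (R := ℤ_[2]) 0 n
  rw [Nat.cast_zero] at h
  simp only [zc_bs, PowerSeries.coeff_mk, PowerSeries.coeff_one, h]
  rcases Nat.eq_zero_or_pos n with rfl | hn
  · simp
  · rw [Nat.choose_eq_zero_of_lt hn, if_neg hn.ne', Nat.cast_zero]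

theorem zc_bs_one : zc_bs 1 = 1 + X := by
  ext n
  have h := Ring.choose_natCast (R := ℤ_[2]) 1 n
  rw [Nat.cast_one] at h
  rw [map_add, PowerSeries.coeff_one, PowerSeries.coeff_X]
  simp only [zc_bs, PowerSeries.coeff_mk, h]
  rcases n with _ | _ | n
  · simp
  · simp
  · rw [Nat.choose_eq_zero_of_lt (by omega)]
    simp

theorem zc_key (κ : Weight 2) : ‖κ.w‖ < 1 ∧ ∀ s, zc_chi κ s = ev κ.w (zc_bs s) := by
  let A : Algebra ℤ_[2] C2 := iota.toAlgebra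
  have B : @IsBoundedSMul ℤ_[2] C2 _ _ _ _ A.toSMul := by
    refine @IsBoundedSMul.of_norm_smul_le ℤ_[2] C2 _ _ A.toModule ?_
    intro r x
    show ‖iota r * x‖ ≤ ‖r‖ * ‖x‖
    rw [norm_mul, zc_norm_iota]
  have h1 := AddChar.tendsto_eval_one_sub_pow (zc_chi_cont κ)
  rw [zc_chi_one, add_sub_cancel_left] at h1
  have hw : ‖κ.w‖ < 1 := tendsto_pow_atTop_nhds_zero_iff_norm_lt_one.1 h1
  refine ⟨hw, fun s ↦ ?_⟩
  have h2 := PadicInt.eq_addChar_of_value_at_one h1 (zc_chi_cont κ) (zc_chi_one κ)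
  rw [h2]
  show PadicInt.mahlerSeries (κ.w ^ ·) s = _
  rw [PadicInt.mahlerSeries_apply h1]
  unfold ev
  refine tsum_congr fun n ↦ ?_
  simp only [zc_bs, PowerSeries.coeff_mk]
  rfl

theorem Weight.norm_w_lt_one (κ : Weight 2) (h : κ.IsEven) : ‖κ.w‖ < 1 := by
  have _ := h
  exact (zc_key κ).1

theorem zc_iota_cont : Continuous iota :=
  (AddMonoidHomClass.isometry_of_norm iota zc_norm_iota).continuous

/-- The powers `z ↦ z^k`. -/
theorem exists_powWeight (k : ℕ) : ∃ κ : Weight 2, ∀ u : (ℤ_[2])ˣ,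
    ((κ u : C2ˣ) : C2) = iota (u : ℤ_[2]) ^ k := by
  refine ⟨⟨(powMonoidHom k).comp (Units.map (iota : ℤ_[2] →* C2)), ?_⟩, fun u ↦ ?_⟩
  · show Continuous fun u : (ℤ_[2])ˣ ↦ (Units.map (iota : ℤ_[2] →* C2) u) ^ k
    exact (Continuous.units_map (iota : ℤ_[2] →* C2) zc_iota_cont).pow k
  · show (((Units.map (iota : ℤ_[2] →* C2) u) ^ k : C2ˣ) : C2) = _
    rw [Units.val_pow_eq_pow_val]
    rfl

/-- the exponent `ell(a)`, `a = ± 5^ell(a)` -/
def zc_ell (a : ℕ) : ℤ_[2] := if h : Odd a then (zc_exists h).choose else 0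

theorem zc_ell_spec {a : ℕ} (h : Odd a) : E5 (zc_ell a) = a ∨ E5 (zc_ell a) = -a := by
  unfold zc_ell
  rw [dif_pos h]
  exact (zc_exists h).choose_spec

theorem zc_uniq {s t x : ℤ_[2]} (hs : E5 s = x ∨ E5 s = -x) (ht : E5 t = x ∨ E5 t = -x) :
    s = t := by
  have h1 : E5 s = E5 t ∨ E5 s + E5 t = 0 := by
    rcases hs with hs | hs <;> rcases ht with ht | ht
    · left; rw [hs, ht]
    · right; rw [hs, ht]; ring
    · right; rw [hs, ht]; ring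
    · left; rw [hs, ht]
  rcases h1 with h1 | h1
  · have h2 := zc_E5_sub s t
    rw [h1, sub_self, norm_zero] at h2
    have h3 : ‖s - t‖ = 0 := by linarith
    exact sub_eq_zero.1 (norm_eq_zero.1 h3)
  · have h2 := zc_E5_add s t
    rw [h1, norm_zero] at h2
    norm_num at h2

theorem zc_ell_mul {a b : ℕ} (ha : Odd a) (hb : Odd b) :
    zc_ell (a * b) = zc_ell a + zc_ell b := by
  refine zc_uniq (x := ((a * b : ℕ) : ℤ_[2])) (zc_ell_spec (ha.mul hb)) ?_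
  rw [AddChar.map_add_eq_mul]
  push_cast
  rcases zc_ell_spec ha with h1 | h1 <;> rcases zc_ell_spec hb with h2 | h2 <;> rw [h1, h2]
  · left; rfl
  · right; ring
  · right; ring
  · left; ring

theorem zc_ell_one : zc_ell 1 = 0 := by
  refine zc_uniq (x := ((1 : ℕ) : ℤ_[2])) (zc_ell_spec odd_one) (Or.inl ?_)
  rw [AddChar.map_zero_eq_one, Nat.cast_one]

theorem zc_ell_five : zc_ell 5 = 1 := by
  refine zc_uniq (x := ((5 : ℕ) : ℤ_[2])) (zc_ell_spec (by decide)) (Or.inl ?_)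
  rw [E5_one]
  norm_num

theorem zc_close {a b : ℕ} (ha : Odd a) (hb : Odd b) {N : ℕ} (hN : 2 ≤ N)
    (h : ‖(a : ℤ_[2]) - b‖ ≤ (1 / 2 : ℝ) ^ N ∨ ‖(a : ℤ_[2]) + b‖ ≤ (1 / 2 : ℝ) ^ N) :
    ‖zc_ell a - zc_ell b‖ ≤ 4 * (1 / 2 : ℝ) ^ N := by
  have hN' : (1 / 2 : ℝ) ^ N ≤ 1 / 4 := by
    calc (1 / 2 : ℝ) ^ N ≤ (1 / 2) ^ 2 :=
          pow_le_pow_of_le_one (by norm_num) (by norm_num) hN
      _ = 1 / 4 := by norm_num
  have h1 : ‖E5 (zc_ell a) - E5 (zc_ell b)‖ ≤ (1 / 2 : ℝ) ^ N ∨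
      ‖E5 (zc_ell a) + E5 (zc_ell b)‖ ≤ (1 / 2 : ℝ) ^ N := by
    rcases zc_ell_spec ha with h1 | h1 <;> rcases zc_ell_spec hb with h2 | h2 <;> rw [h1, h2]
    · exact h
    · rw [sub_neg_eq_add, ← sub_eq_add_neg]
      exact h.symm
    · have e1 : (-(a : ℤ_[2]) - b) = -(a + b) := by ring
      have e2 : (-(a : ℤ_[2]) + b) = -(a - b) := by ring
      rw [e1, e2, norm_neg, norm_neg]
      exact h.symm
    · have e1 : (-(a : ℤ_[2]) - -b) = -(a - b) := by ring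
      have e2 : (-(a : ℤ_[2]) + -b) = -(a + b) := by ring
      rw [e1, e2, norm_neg, norm_neg]
      exact h
  rcases h1 with h1 | h1
  · rw [zc_E5_sub] at h1
    linarith
  · rw [zc_E5_add] at h1
    linarith

theorem zc_choose_uc (n : ℕ) (m : ℕ) : ∃ δ > 0, ∀ s t : ℤ_[2], ‖s - t‖ < δ →
    ∀ j ≤ m, ‖Ring.choose s j - Ring.choose t j‖ ≤ (2 : ℝ)⁻¹ ^ n := by
  have one : ∀ j : ℕ, ∃ δ > 0, ∀ s t : ℤ_[2], ‖s - t‖ < δ →
      ‖Ring.choose s j - Ring.choose t j‖ ≤ (2 : ℝ)⁻¹ ^ n := by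
    intro j
    have huc : UniformContinuous fun x : ℤ_[2] ↦ Ring.choose x j :=
      CompactSpace.uniformContinuous_of_continuous (PadicInt.continuous_choose j)
    obtain ⟨δ, hδ, h⟩ := Metric.uniformContinuous_iff.1 huc ((2 : ℝ)⁻¹ ^ n) (by positivity)
    refine ⟨δ, hδ, fun s t hst ↦ ?_⟩
    have h1 := h (a := s) (b := t) (by rwa [dist_eq_norm])
    rw [dist_eq_norm] at h1
    exact h1.le
  induction m with
  | zero =>
    obtain ⟨δ, hδ, h⟩ := one 0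
    refine ⟨δ, hδ, fun s t hst j hj ↦ ?_⟩
    rw [Nat.le_zero.1 hj]
    exact h s t hst
  | succ m ih =>
    obtain ⟨δ, hδ, h⟩ := ih
    obtain ⟨δ', hδ', h'⟩ := one (m + 1)
    refine ⟨min δ δ', lt_min hδ hδ', fun s t hst j hj ↦ ?_⟩
    rcases Nat.lt_or_eq_of_le hj with hj | hj
    · exact h s t (hst.trans_le (min_le_left _ _)) j (Nat.lt_succ_iff.1 hj)
    · rw [hj]
      exact h' s t (hst.trans_le (min_le_right _ _))

theorem zc_norm_of_dvd {z : ℤ} {N : ℕ} (h : (2 : ℤ) ^ N ∣ z) : ‖(z : ℤ_[2])‖ ≤ (1 / 2 : ℝ) ^ N := by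
  have h1 := (PadicInt.norm_int_le_pow_iff_dvd (p := 2) (k := z) (n := N)).2 (by exact_mod_cast h)
  rw [zpow_neg, zpow_natCast] at h1
  rw [one_div, inv_pow]
  exact_mod_cast h1

/-- For each odd `a` there is a power series `k_a ∈ ℤ_2[[W]]` with constant term `1` and
`κ(a) = k_a(w_κ)` for all even `κ`; moreover `k_a ≡ k_b` modulo `(2, W)^{n-2}`-type bounds when
`a ≡ ± b mod 2^n`. -/
theorem exists_kap : ∃ kap : ℕ → Lam,
    (∀ a, Odd a → ∀ κ : Weight 2, κ.IsEven → κ.val a = ev κ.w (kap a)) ∧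
    (∀ a, ¬ Odd a → kap a = 0) ∧
    (∀ a, Odd a → PowerSeries.coeff 0 (kap a) = 1) ∧
    kap 5 = 1 + X ∧ kap 1 = 1 ∧
    (∀ a b, Odd a → Odd b → kap (a * b) = kap a * kap b) ∧
    (∀ (m n : ℕ), ∃ N : ℕ, ∀ a b : ℕ, Odd a → Odd b → a ≡ b [MOD 2 ^ N] →
      ∀ j ≤ m, ‖PowerSeries.coeff j (kap a) - PowerSeries.coeff j (kap b)‖ ≤ (2 : ℝ)⁻¹ ^ n) ∧
    (∀ (m n : ℕ), ∃ N : ℕ, ∀ a b : ℕ, Odd a → Odd b → 2 ^ N ∣ a + b →
      ∀ j ≤ m, ‖PowerSeries.coeff j (kap a) - PowerSeries.coeff j (kap b)‖ ≤ (2 : ℝ)⁻¹ ^ n) := by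
  have hN : ∀ m n : ℕ, ∃ N : ℕ, 2 ≤ N ∧ ∀ a b : ℕ, Odd a → Odd b →
      (‖(a : ℤ_[2]) - b‖ ≤ (1 / 2 : ℝ) ^ N ∨ ‖(a : ℤ_[2]) + b‖ ≤ (1 / 2 : ℝ) ^ N) →
      ∀ j ≤ m, ‖Ring.choose (zc_ell a) j - Ring.choose (zc_ell b) j‖ ≤ (2 : ℝ)⁻¹ ^ n := by
    intro m n
    obtain ⟨δ, hδ, h⟩ := zc_choose_uc n m
    obtain ⟨K, hK⟩ := exists_pow_lt_of_lt_one (show (0 : ℝ) < δ / 4 by positivity)
      (show (1 / 2 : ℝ) < 1 by norm_num)
    refine ⟨K + 2, by omega, fun a b ha hb hab j hj ↦ h _ _ ?_ j hj⟩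
    refine (zc_close ha hb (by omega) hab).trans_lt ?_
    have : (1 / 2 : ℝ) ^ (K + 2) ≤ (1 / 2) ^ K :=
      pow_le_pow_of_le_one (by norm_num) (by norm_num) (by omega)
    linarith
  refine ⟨fun a ↦ if Odd a then zc_bs (zc_ell a) else 0, ?_, ?_, ?_, ?_, ?_, ?_, ?_, ?_⟩
  · intro a ha κ hκ
    simp only [if_pos ha]
    rw [← (zc_key κ).2, zc_chi_apply]
    rcases zc_ell_spec ha with h | h
    · exact zc_val κ (zc_u (zc_ell a)) h
    · rw [zc_val κ (-1 * zc_u (zc_ell a)) (by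
        rw [Units.val_mul, zc_u_val, h]
        simp), map_mul]
      have h1 : κ (-1) = 1 := hκ
      rw [h1, one_mul]
  · intro a ha
    simp only [if_neg ha]
  · intro a ha
    simp only [if_pos ha, zc_bs, PowerSeries.coeff_mk, Ring.choose_zero_right]
  · have h5 : Odd 5 := by decide
    simp only [if_pos h5, zc_ell_five, zc_bs_one]
  · simp only [if_pos odd_one, zc_ell_one, zc_bs_zero]
  · intro a b ha hb
    simp only [if_pos ha, if_pos hb, if_pos (ha.mul hb), zc_ell_mul ha hb, zc_bs_add]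
  · intro m n
    obtain ⟨N, _, h⟩ := hN m n
    refine ⟨N, fun a b ha hb hab j hj ↦ ?_⟩
    simp only [if_pos ha, if_pos hb, zc_bs, PowerSeries.coeff_mk]
    refine h a b ha hb (Or.inl ?_) j hj
    have h1 : ((2 : ℕ) ^ N : ℤ) ∣ (a : ℤ) - b := by
      have := (Nat.modEq_iff_dvd.1 hab.symm)
      exact_mod_cast this
    have h2 := zc_norm_of_dvd (z := (a : ℤ) - b) (N := N) (by exact_mod_cast h1)
    push_cast at h2
    exact h2
  · intro m n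
    obtain ⟨N, _, h⟩ := hN m n
    refine ⟨N, fun a b ha hb hab j hj ↦ ?_⟩
    simp only [if_pos ha, if_pos hb, zc_bs, PowerSeries.coeff_mk]
    refine h a b ha hb (Or.inr ?_) j hj
    have h2 := zc_norm_of_dvd (z := (a : ℤ) + b) (N := N) (by exact_mod_cast hab)
    push_cast at h2
    exact h2

theorem Weight.val_of_not_odd (κ : Weight 2) {a : ℕ} (h : ¬ Odd a) : κ.val a = 0 := by
  unfold Weight.val
  rw [dif_neg (zc_not_isUnit h)]

end GH
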