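import Pool.Agent.GH.Glue
import Pool.Agent.GH.UMatB
import Pool.Agent.GH.FamA
import Pool.Agent.GH.UBound
import Pool.Agent.GH.ZChar
import Pool.Agent.GH.QGauss
import Pool.Agent.GH.QTheta
import Pool.Agent.GH.QHaupt
import Pool.Agent.GH.Param

open PowerSeries Filter Topology

noncomputable section

namespace GH

/-! The matrix of `U_2` in the basis `E_κ f^j` in the family. -/

/-- `Φ_l`: the coefficients of `E(q)/E(q²)` in powers of `f`. -/
def Phi (E : PowerSeries Lam) (l : ℕ) : Lam :=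
  fcoeff 2 (E * invOfUnit (E.expand 2 two_ne_zero) 1) l

/-- The family matrix. -/
def famMatrix (E : PowerSeries Lam) (i j : ℕ) : Lam :=
  fcoeff 2 (invOfUnit E 1 * U 2 (E * hauptmodul 2 Lam ^ j)) i

/-! ### helper lemmas (prefix `fa_`) -/

lemma fa_map_U {R S : Type*} [CommRing R] [CommRing S] (φ : R →+* S) (F : PowerSeries R) :
    PowerSeries.map φ (U 2 F) = U 2 (PowerSeries.map φ F) := by
  ext n
  simp [U]

lemma fa_mul_invOfUnit {R : Type*} [CommRing R] {F : PowerSeries R}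
    (h : PowerSeries.constantCoeff F = 1) : F * invOfUnit F 1 = 1 :=
  PowerSeries.mul_invOfUnit _ _ (by rw [h]; rfl)

lemma fa_map_invOfUnit {R : Type*} [CommRing R] (φ : R →+* C2) {F : PowerSeries R}
    (h : PowerSeries.constantCoeff F = 1) :
    PowerSeries.map φ (invOfUnit F 1) = (PowerSeries.map φ F)⁻¹ := by
  rw [PowerSeries.eq_inv_iff_mul_eq_one, ← map_mul, mul_comm, fa_mul_invOfUnit h, map_one]
  rw [← PowerSeries.coeff_zero_eq_constantCoeff_apply, PowerSeries.coeff_map,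
    PowerSeries.coeff_zero_eq_constantCoeff_apply, h, map_one]
  exact one_ne_zero

lemma fa_evS {w : C2} (φ : Lam →+* C2) (hφ : ∀ F, φ F = ev w F) (F : PowerSeries Lam) :
    evS w F = PowerSeries.map φ F := by
  ext n
  rw [PowerSeries.coeff_map, hφ]
  unfold evS
  rw [PowerSeries.coeff_mk]

lemma fa_cE {E : PowerSeries Lam} (hE : EisFamily E) : PowerSeries.constantCoeff E = 1 := by
  rw [← PowerSeries.coeff_zero_eq_constantCoeff_apply, hE.c0]

lemma fa_c_map {R : Type*} [CommRing R] (φ : R →+* C2) {F : PowerSeries R}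
    (h : PowerSeries.constantCoeff F = 1) : PowerSeries.constantCoeff (PowerSeries.map φ F) = 1 := by
  rw [← PowerSeries.coeff_zero_eq_constantCoeff_apply, PowerSeries.coeff_map,
    PowerSeries.coeff_zero_eq_constantCoeff_apply, h, map_one]

/-- the matrix after evaluation -/
lemma fa_ev_fam {E : PowerSeries Lam} (hE : EisFamily E) {w : C2} (hw : ‖w‖ < 1) (i j : ℕ) :
    ev w (famMatrix E i j) =
      fcoeff 2 ((evS w E)⁻¹ * U 2 (evS w E * hauptmodul 2 C2 ^ j)) i := by
  obtain ⟨φ, hφ⟩ := exists_evHom hw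
  rw [← hφ, famMatrix, ← fcoeff_map 2 φ, map_mul, fa_map_invOfUnit φ (fa_cE hE), fa_map_U, map_mul,
    map_pow, map_hauptmodul, fa_evS φ hφ]

lemma fa_ev_Phi {E : PowerSeries Lam} (hE : EisFamily E) {w : C2} (hw : ‖w‖ < 1) (l : ℕ) :
    ev w (Phi E l) = fcoeff 2 (evS w E * ((evS w E).expand 2 two_ne_zero)⁻¹) l := by
  obtain ⟨φ, hφ⟩ := exists_evHom hw
  rw [← hφ, Phi, ← fcoeff_map 2 φ, map_mul, fa_map_invOfUnit φ, PowerSeries.map_expand,
    fa_evS φ hφ]
  rw [PowerSeries.constantCoeff_expand, fa_cE hE]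

lemma fa_qIds : QIds := ⟨theta_mul_euler, psi2_mul_euler, neg_theta_mul_theta, jacobi_quartic⟩

lemma fa_hIds : HIds C2 where
  c0 := coeff_zero_hser C2
  c1 := coeff_one_hser C2
  t0 := constantCoeff_theta C2
  f1 := hauptmodul_eq fa_qIds
  f2 := expand_hauptmodul fa_qIds
  h1 := neg_hser fa_qIds
  t8 := theta_pow_eight fa_qIds

lemma fa_theta8 : PowerSeries.constantCoeff (theta C2 ^ 8) = 1 := by
  rw [map_pow, constantCoeff_theta, one_pow]

lemma fa_thetaPow_c (x : C2) : PowerSeries.constantCoeff (thetaPow x) = 1 :=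
  fa_constantCoeff_ppow fa_theta8 _

lemma fa_haupt_c : PowerSeries.constantCoeff (hauptmodul 2 C2) = 0 := by
  rw [← PowerSeries.coeff_zero_eq_constantCoeff_apply, coeff_zero_hauptmodul]

theorem uMatrix_eq (E : PowerSeries Lam) (hE : EisFamily E) (κ : Weight 2) (hκ : κ.IsEven)
    (i j : ℕ) : κ.uMatrix i j = ev κ.w (famMatrix E i j) := by
  rw [fa_ev_fam hE (κ.norm_w_lt_one hκ), Weight.uMatrix, hE.eis κ hκ]

lemma fa_fcoeff_zero {R : Type*} [CommRing R] (F : PowerSeries R) {i : ℕ}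
    (h : ∀ n ≤ i, PowerSeries.coeff n F = 0) : ∀ n ≤ i, fcoeff 2 F n = 0 := by
  intro n
  induction n using Nat.strong_induction_on with
  | _ n ih =>
    intro hn
    rw [fx_fcoeff, h n hn, Finset.sum_eq_zero, sub_zero]
    intro m hm
    rw [Finset.mem_range] at hm
    rw [ih m hm (by omega), zero_mul]

theorem famMatrix_of_lt (E : PowerSeries Lam) (hE : EisFamily E) {i j : ℕ} (h : 2 * i < j) :
    famMatrix E i j = 0 := by
  unfold famMatrix
  refine fa_fcoeff_zero _ (i := i) (fun n hn => ?_) i le_rfl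
  rw [PowerSeries.coeff_mul]
  refine Finset.sum_eq_zero fun ab hab => ?_
  rw [Finset.HasAntidiagonal.mem_antidiagonal] at hab
  have h1 : PowerSeries.coeff ab.2 (U 2 (E * hauptmodul 2 Lam ^ j)) = 0 := by
    unfold U
    rw [PowerSeries.coeff_mk, PowerSeries.coeff_mul]
    refine Finset.sum_eq_zero fun cd hcd => ?_
    rw [Finset.HasAntidiagonal.mem_antidiagonal] at hcd
    rw [fx_coeff_pow_lt 2 (by omega), mul_zero]
  rw [h1, mul_zero]

/-- the product of a series in `f` and `f^j` -/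
lemma fa_subst_mul_pow (u : PowerSeries C2) (j : ℕ) :
    u.subst (hauptmodul 2 C2) * hauptmodul 2 C2 ^ j =
      (u * X ^ j).subst (hauptmodul 2 C2) := by
  rw [PowerSeries.subst_mul (fx_hasSubst 2), ← coe_substAlgHom (fx_hasSubst (R := C2) 2), map_pow,
    substAlgHom_X]

lemma fa_coeff_mul_X_pow (u : PowerSeries C2) (j k : ℕ) :
    PowerSeries.coeff k (u * X ^ j) = if j ≤ k then PowerSeries.coeff (k - j) u else 0 :=
  PowerSeries.coeff_mul_X_pow' _ _ _

theorem ev_famMatrix (E : PowerSeries Lam) (hE : EisFamily E) {w : C2} (hw : ‖w‖ < 1)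
    (i j : ℕ) : ev w (famMatrix E i j) =
      ∑ k ∈ Finset.range (2 * i + 1), if j ≤ k then Mmat 0 i k * ev w (Phi E (k - j)) else 0 := by
  obtain ⟨φ, hφ⟩ := exists_evHom hw
  have hc : PowerSeries.constantCoeff (evS w E) = 1 := by
    rw [fa_evS φ hφ]
    exact fa_c_map φ (fa_cE hE)
  set E' := evS w E with hE'
  have hc2 : PowerSeries.constantCoeff (E'.expand 2 two_ne_zero) ≠ 0 := by
    rw [PowerSeries.constantCoeff_expand, hc]
    exact one_ne_zero
  have hc1 : PowerSeries.constantCoeff E' ≠ 0 := by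
    rw [hc]
    exact one_ne_zero
  set Φ : PowerSeries C2 := PowerSeries.mk (fcoeff 2 (E' * (E'.expand 2 two_ne_zero)⁻¹)) with hΦ
  have h1 : Φ.subst (hauptmodul 2 C2) = E' * (E'.expand 2 two_ne_zero)⁻¹ := subst_fcoeff 2 _
  have h2 : E' * hauptmodul 2 C2 ^ j =
      E'.expand 2 two_ne_zero * (Φ * X ^ j).subst (hauptmodul 2 C2) := by
    rw [← fa_subst_mul_pow, h1]
    calc E' * hauptmodul 2 C2 ^ j = E' * hauptmodul 2 C2 ^ j *
          (E'.expand 2 two_ne_zero * (E'.expand 2 two_ne_zero)⁻¹) := by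
          rw [PowerSeries.mul_inv_cancel _ hc2, mul_one]
      _ = _ := by ring
  have h3 : U 2 ((Φ * X ^ j).subst (hauptmodul 2 C2)) = (PowerSeries.mk fun i ↦
        ∑ k ∈ Finset.range (2 * i + 1), Mmat 0 i k * PowerSeries.coeff k (Φ * X ^ j)).subst
        (hauptmodul 2 C2) := by
    have h4 := U_thetaPow_subst fa_hIds (0 : C2) (Φ * X ^ j)
    have h5 : thetaPow (0 : C2) = 1 := by
      unfold thetaPow
      rw [zero_div]
      exact fa_ppow_zero fa_theta8
    rwa [h5, one_mul, one_mul] at h4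
  rw [fa_ev_fam hE hw, ← hE', h2, U_expand_mul, ← mul_assoc, PowerSeries.inv_mul_cancel _ hc1,
    one_mul, h3, fcoeff_subst]
  show PowerSeries.coeff i (PowerSeries.mk _) = _
  rw [PowerSeries.coeff_mk]
  refine Finset.sum_congr rfl fun k _ => ?_
  rw [fa_coeff_mul_X_pow]
  split_ifs with hjk
  · rw [fa_ev_Phi hE hw, hΦ, PowerSeries.coeff_mk]
  · rw [mul_zero]

/-! ### the central disc -/

lemma fa_norm16 : ‖(16 : C2)‖ = 1 / 16 := by
  have h : (16 : C2) = 2 ^ 4 := by norm_num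
  rw [h, norm_pow, norm_two_C2]
  norm_num

lemma fa_norm_binS {s : C2} (hs : ‖s‖ ≤ 2) (m : ℕ) :
    ‖PowerSeries.coeff m (binS s)‖ * (3 / 32 : ℝ) ^ m ≤ 1 := by
  have h1 : ‖∏ i ∈ Finset.range m, (s - i)‖ ≤ 2 ^ m := by
    rw [norm_prod]
    calc ∏ i ∈ Finset.range m, ‖s - i‖ ≤ ∏ _i ∈ Finset.range m, (2 : ℝ) := by
          refine Finset.prod_le_prod (fun i _ => norm_nonneg _) fun i _ => ?_
          rw [sub_eq_add_neg]
          refine (IsUltrametricDist.norm_add_le_max _ _).trans (max_le hs ?_)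
          rw [norm_neg]
          exact (IsUltrametricDist.norm_natCast_le_one C2 i).trans one_le_two
      _ = 2 ^ m := by rw [Finset.prod_const, Finset.card_range]
  have h2 : ‖(m.factorial : C2)‖⁻¹ ≤ 2 ^ m := by
    cases m with
    | zero => simp
    | succ n => exact (pm_norm_fact n).trans (pow_le_pow_right₀ one_le_two n.le_succ)
  unfold binS
  rw [PowerSeries.coeff_mk, norm_div, div_eq_mul_inv]
  calc ‖∏ i ∈ Finset.range m, (s - i)‖ * ‖(m.factorial : C2)‖⁻¹ * (3 / 32 : ℝ) ^ m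
      ≤ 2 ^ m * 2 ^ m * (3 / 32 : ℝ) ^ m := by gcongr
    _ = (3 / 8 : ℝ) ^ m := by
        rw [← mul_pow, ← mul_pow]
        norm_num
    _ ≤ 1 := pow_le_one₀ (by norm_num) (by norm_num)

/-- On the central disc the coefficients of `E(q)/E(q²)` decay with radius `3/2`. -/
theorem norm_Phi_central (E : PowerSeries Lam) (hE : EisFamily E) (u : ℕ → C2 → C2)
    (hu : OrdVec u) {w : C2} (hw : ‖w‖ ≤ 1 / 8) (l : ℕ) :
    ‖ev w (Phi E l)‖ * (3 / 2 : ℝ) ^ l ≤ 1 := by
  obtain ⟨x, hx, rfl⟩ := exists_wx_eq hw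
  have hw1 : ‖wx x‖ < 1 := lt_of_le_of_lt hw (by norm_num)
  obtain ⟨g, hg0, -, hg, hh⟩ := exists_hser_eq_subst (R := C2) (hauptmodul_eq fa_qIds)
  set f := hauptmodul 2 C2 with hf
  have hfs : HasSubst f := fx_hasSubst 2
  set G := PowerSeries.map (Int.castRingHom C2) g with hG
  have hG0 : PowerSeries.constantCoeff G = 0 := by
    rw [← PowerSeries.coeff_zero_eq_constantCoeff_apply, hG, PowerSeries.coeff_map, hg0, map_zero]
  have hC16 : (C (16 : C2) : PowerSeries C2) = 16 := map_ofNat _ _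
  have hGX : G * (1 + C (16 : C2) * G) = X := by
    have h2 := congrArg (PowerSeries.map (Int.castRingHom C2)) hg
    rw [map_mul, map_add, map_mul, map_one, map_ofNat, PowerSeries.map_X] at h2
    rw [hC16]
    exact h2
  have nG : NB G (3 / 2) := fa_nb_g hG0 hGX fa_norm16.le
  have n16G : NB (C (16 : C2) * G) (3 / 32) := (nG.smul 16).mono (by rw [fa_norm16]; norm_num)
  have h16G0 : PowerSeries.constantCoeff (C (16 : C2) * G) = 0 := by
    rw [map_mul, hG0, mul_zero]
  -- `A = 1 + 16 h`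
  set A : PowerSeries C2 := 1 + C (16 : C2) * G with hA
  have hA0 : PowerSeries.constantCoeff A = 1 := by rw [hA, map_add, map_one, h16G0, add_zero]
  have nA : NB A 1 := NB.one.add (n16G.mono (by norm_num))
  have hAf : A.subst f = 1 + 16 * hser C2 := by
    rw [hA, hC16, ← coe_substAlgHom hfs, map_add, map_mul, map_one, map_ofNat, coe_substAlgHom, ← hh]
  have hAi : A * A⁻¹ = 1 := PowerSeries.mul_inv_cancel _ (by rw [hA0]; exact one_ne_zero)
  have nAi : NB A⁻¹ 1 := NB.inv hA0 nA hAi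
  -- `k(f) = f(q²)`
  set k : PowerSeries C2 := G ^ 2 * A⁻¹ with hk
  have nk : NB k (9 / 4) :=
    ((nG.pow (by norm_num) 2).mul nAi (by norm_num) zero_le_one).mono (by norm_num)
  have hk0 : PowerSeries.constantCoeff k = 0 := by
    rw [hk, map_mul, map_pow, hG0]
    simp
  have hkf : k.subst f = f.expand 2 two_ne_zero := by
    have h1 : k.subst f * A.subst f = hser C2 ^ 2 := by
      rw [← PowerSeries.subst_mul hfs, hk, mul_assoc, mul_comm A⁻¹ A, hAi, mul_one, hh,
        ← coe_substAlgHom hfs, map_pow]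
    have h2 : f.expand 2 two_ne_zero * A.subst f = hser C2 ^ 2 := by
      rw [hAf]
      exact expand_hauptmodul fa_qIds
    have h3 : A.subst f ≠ 0 := by
      intro h
      have h4 := congrArg (PowerSeries.coeff 0) h
      rw [fx_coeff_subst] at h4
      simp [hA0] at h4
    exact mul_right_cancel₀ h3 (h1.trans h2.symm)
  -- `B(f) = (1 + 16 h)^{x/2}`
  set B : PowerSeries C2 := (binS (x / 2)).subst (C (16 : C2) * G) with hB
  have hs2 : ‖x / 2‖ ≤ 2 := by
    rw [norm_div, norm_two_C2, div_inv_eq_mul]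
    linarith
  have nB : NB B 1 := NB.subst h16G0 n16G (by norm_num) (fa_norm_binS hs2)
  have hB0 : PowerSeries.constantCoeff B = 1 := by
    rw [← PowerSeries.coeff_zero_eq_constantCoeff_apply, hB, fa_coeff_subst h16G0]
    simp [binS]
  have hBf : PowerSeries.subst f B = ppow (1 + 16 * hser C2) (x / 2) := by
    unfold ppow
    rw [hB, subst_comp_subst_apply (HasSubst.of_constantCoeff_zero' h16G0) hfs]
    congr 1
    rw [add_sub_cancel_left, hC16, ← coe_substAlgHom hfs, map_mul, map_ofNat, coe_substAlgHom, ← hh]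
  -- `V(f) = u(f(q²))`
  set uS : PowerSeries C2 := PowerSeries.mk fun n ↦ u n x with huS
  obtain ⟨hu0, hub, -⟩ := hu.eqs x hx
  set V : PowerSeries C2 := uS.subst k with hV
  have nV : NB V 1 := by
    refine NB.subst hk0 nk (by norm_num) fun m => ?_
    rw [huS, PowerSeries.coeff_mk]
    exact hub m
  have hV0 : PowerSeries.constantCoeff V = 1 := by
    rw [← PowerSeries.coeff_zero_eq_constantCoeff_apply, hV, fa_coeff_subst hk0]
    simp [huS, hu0]
  have hVf : PowerSeries.subst f V = PowerSeries.expand 2 two_ne_zero (uS.subst f) := by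
    rw [hV, subst_comp_subst_apply (HasSubst.of_constantCoeff_zero' hk0) hfs, hkf,
      fa_expand_subst fa_haupt_c]
  have nu : NB uS 1 := by
    intro n
    rw [huS, PowerSeries.coeff_mk]
    exact (mul_le_mul_of_nonneg_left (pow_le_pow_left₀ (by norm_num) (by norm_num) n)
      (norm_nonneg _)).trans (hub n)
  -- the product
  have hBV0 : PowerSeries.constantCoeff (B * V) = 1 := by rw [map_mul, hB0, hV0, one_mul]
  have hBVi : B * V * (B * V)⁻¹ = 1 :=
    PowerSeries.mul_inv_cancel _ (by rw [hBV0]; exact one_ne_zero)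
  have nBV : NB (B * V) 1 := (nB.mul nV zero_le_one zero_le_one).mono (by norm_num)
  have nBVi : NB (B * V)⁻¹ 1 := NB.inv hBV0 nBV hBVi
  have nΦ : NB (uS * (B * V)⁻¹) 1 := (nu.mul nBVi zero_le_one zero_le_one).mono (by norm_num)
  have hE1 : evS (wx x) E = thetaPow x * uS.subst f := evS_eisFam E hE u hu x hx
  have h16h : PowerSeries.constantCoeff (1 + 16 * hser C2) = 1 := by
    have h1 : PowerSeries.constantCoeff (hser C2) = 0 := by
      rw [← PowerSeries.coeff_zero_eq_constantCoeff_apply, coeff_zero_hser]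
    rw [map_add, map_mul, h1, map_one, mul_zero, add_zero]
  have hE2 : (evS (wx x) E).expand 2 two_ne_zero = thetaPow x * (B * V).subst f := by
    rw [hE1, map_mul]
    have h1 : (thetaPow x).expand 2 two_ne_zero = thetaPow x * PowerSeries.subst f B := by
      unfold thetaPow
      rw [fa_expand_ppow fa_theta8, ← theta_pow_eight fa_qIds, fa_ppow_mul fa_theta8 h16h, hBf]
    rw [h1, PowerSeries.subst_mul hfs, hVf, mul_assoc]
  have hcE : PowerSeries.constantCoeff ((evS (wx x) E).expand 2 two_ne_zero) ≠ 0 := by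
    obtain ⟨φ, hφ⟩ := exists_evHom hw1
    rw [PowerSeries.constantCoeff_expand, fa_evS φ hφ, fa_c_map φ (fa_cE hE)]
    exact one_ne_zero
  have hΦ : evS (wx x) E * ((evS (wx x) E).expand 2 two_ne_zero)⁻¹ =
      (uS * (B * V)⁻¹).subst f := by
    symm
    rw [PowerSeries.eq_mul_inv_iff_mul_eq hcE, hE2, hE1, PowerSeries.subst_mul hfs]
    have h1 : ((B * V)⁻¹).subst f * (B * V).subst f = 1 := by
      rw [← PowerSeries.subst_mul hfs, mul_comm (B * V)⁻¹, hBVi, ← coe_substAlgHom hfs, map_one]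
    calc uS.subst f * ((B * V)⁻¹).subst f * (thetaPow x * (B * V).subst f)
        = thetaPow x * uS.subst f * (((B * V)⁻¹).subst f * (B * V).subst f) := by ring
      _ = thetaPow x * uS.subst f := by rw [h1, mul_one]
  rw [fa_ev_Phi hE hw1, hΦ, fcoeff_subst]
  exact nΦ l

/-- Decay for all weights. -/
theorem norm_famMatrix_le (E : PowerSeries Lam) (hE : EisFamily E)
    (hc : ∀ w : C2, ‖w‖ ≤ 1 / 8 → ∀ l, ‖ev w (Phi E l)‖ * (3 / 2 : ℝ) ^ l ≤ 1)
    (hG : ∀ (F : Lam) (B : ℝ), (∀ w : C2, ‖w‖ ≤ 1 / 8 → ‖ev w F‖ ≤ B) →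
      ∀ m : ℕ, ‖PowerSeries.coeff m F‖ ≤ 8 ^ m * B) (ρ : ℝ) (hρ : ρ < 1) :
    ∃ R : ℝ, 1 < R ∧ ∃ c : ℝ, 0 < c ∧ ∀ w : C2, ‖w‖ ≤ ρ → ∀ i j : ℕ, j ≤ 2 * i →
      ‖ev w (famMatrix E i j)‖ ≤ c * R⁻¹ ^ (2 * i - j) := by
  have hρ0 : max ρ 0 < 1 := max_lt hρ zero_lt_one
  obtain ⟨N, hN⟩ := exists_pow_lt_of_lt_one (show (0 : ℝ) < 1 / 8 by norm_num) hρ0
  have hN0 : N ≠ 0 := by
    rintro rfl
    norm_num at hN
  set R : ℝ := (3 / 2 : ℝ) ^ ((N : ℝ)⁻¹) with hR
  have hRN : R ^ N = 3 / 2 := by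
    rw [hR, ← Real.rpow_natCast, ← Real.rpow_mul (by norm_num), inv_mul_cancel₀ (by exact_mod_cast hN0),
      Real.rpow_one]
  have hR1 : 1 < R := Real.one_lt_rpow (by norm_num) (by positivity)
  have hR0 : 0 < R := zero_lt_one.trans hR1
  have hR4 : R ≤ 4 := by
    by_contra h
    push Not at h
    have h1 : R ≤ R ^ N := le_self_pow₀ hR1.le hN0
    rw [hRN] at h1
    linarith
  refine ⟨R, hR1, 1, one_pos, fun w hw i j hij => ?_⟩
  have hw0 : ‖w‖ ≤ max ρ 0 := hw.trans (le_max_left _ _)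
  have hw1 : ‖w‖ < 1 := lt_of_le_of_lt hw hρ
  -- the bound for the coefficients
  have hP : ∀ l : ℕ, ‖ev w (Phi E l)‖ ≤ R⁻¹ ^ l := by
    intro l
    unfold ev
    refine IsUltrametricDist.norm_tsum_le_of_forall_le_of_nonneg (by positivity) fun m => ?_
    have h1 : ‖iota (PowerSeries.coeff m (Phi E l))‖ ≤ 8 ^ m * (2 / 3 : ℝ) ^ l := by
      rw [norm_iota]
      refine hG (Phi E l) ((2 / 3 : ℝ) ^ l) (fun w' hw' => ?_) m
      have h2 := hc w' hw' l
      have h3 : (2 / 3 : ℝ) ^ l = ((3 / 2 : ℝ) ^ l)⁻¹ := by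
        rw [← inv_pow]
        norm_num
      rw [h3, ← one_div, le_div_iff₀ (by positivity)]
      exact h2
    have h2 : ‖iota (PowerSeries.coeff m (Phi E l))‖ ≤ 1 := pm_norm_iota _
    have h3 : (‖iota (PowerSeries.coeff m (Phi E l)) * w ^ m‖) ^ N ≤ (R⁻¹ ^ l) ^ N := by
      have h4 : ‖iota (PowerSeries.coeff m (Phi E l))‖ ^ N ≤ 8 ^ m * (2 / 3 : ℝ) ^ l :=
        (pow_le_of_le_one (norm_nonneg _) h2 hN0).trans h1
      have h5 : (‖w‖ ^ m) ^ N ≤ (1 / 8) ^ m := by
        rw [← pow_mul, mul_comm m N, pow_mul]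
        exact pow_le_pow_left₀ (by positivity)
          ((pow_le_pow_left₀ (norm_nonneg _) hw0 N).trans hN.le) m
      rw [norm_mul, norm_pow, mul_pow]
      calc _ ≤ (8 ^ m * (2 / 3 : ℝ) ^ l) * (1 / 8) ^ m :=
            mul_le_mul h4 h5 (by positivity) (by positivity)
        _ = (2 / 3 : ℝ) ^ l := by
            rw [mul_right_comm, ← mul_pow]
            norm_num
        _ = (R⁻¹ ^ l) ^ N := by
            rw [← pow_mul, mul_comm l N, pow_mul, inv_pow, hRN]
            norm_num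
    exact (pow_le_pow_iff_left₀ (norm_nonneg _) (by positivity) hN0).1 h3
  rw [ev_famMatrix E hE hw1, one_mul]
  refine IsUltrametricDist.norm_sum_le_of_forall_le_of_nonneg (by positivity) fun k hk => ?_
  rw [Finset.mem_range] at hk
  split_ifs with hjk
  · have hk' : k ≤ 2 * i := by omega
    rw [norm_mul]
    calc ‖Mmat (0 : C2) i k‖ * ‖ev w (Phi E (k - j))‖
        ≤ (4 : ℝ)⁻¹ ^ (2 * i - k) * R⁻¹ ^ (k - j) :=
          mul_le_mul (norm_Mmat_le (by simp) hk') (hP _) (norm_nonneg _) (by positivity)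
      _ ≤ R⁻¹ ^ (2 * i - k) * R⁻¹ ^ (k - j) := by
          gcongr
      _ = R⁻¹ ^ (2 * i - j) := by
          rw [← pow_add]
          congr 1
          omega
  · rw [norm_zero]
    positivity

/-- Change of basis on the central disc. -/
theorem Mmat_mul_u (E : PowerSeries Lam) (hE : EisFamily E) (u : ℕ → C2 → C2) (hu : OrdVec u)
    {x : C2} (hx : ‖x‖ ≤ 1) (i j : ℕ) :
    ∑ k ∈ Finset.range (2 * i + 1), (if j ≤ k then Mmat x i k * u (k - j) x else 0) =
      ∑ k ∈ Finset.range (i + 1), u (i - k) x * ev (wx x) (famMatrix E k j) := by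
  have hw1 : ‖wx x‖ < 1 := by
    rw [norm_wx hx]
    linarith
  set f := hauptmodul 2 C2 with hf
  have hfs : HasSubst f := fx_hasSubst 2
  set uS : PowerSeries C2 := PowerSeries.mk fun n ↦ u n x with huS
  have hE1 : evS (wx x) E = thetaPow x * uS.subst f := evS_eisFam E hE u hu x hx
  have hcE : PowerSeries.constantCoeff (evS (wx x) E) ≠ 0 := by
    obtain ⟨φ, hφ⟩ := exists_evHom hw1
    rw [fa_evS φ hφ, fa_c_map φ (fa_cE hE)]
    exact one_ne_zero
  have ht : thetaPow x ≠ 0 := by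
    intro h
    have h1 := fa_thetaPow_c x
    rw [h, map_zero] at h1
    exact zero_ne_one h1
  set Cj : PowerSeries C2 := PowerSeries.mk fun k ↦ ev (wx x) (famMatrix E k j) with hCj
  have h1 : U 2 (evS (wx x) E * f ^ j) = evS (wx x) E * Cj.subst f := by
    have h2 : Cj = PowerSeries.mk (fcoeff 2 ((evS (wx x) E)⁻¹ * U 2 (evS (wx x) E * f ^ j))) := by
      ext k
      rw [hCj, PowerSeries.coeff_mk, PowerSeries.coeff_mk, fa_ev_fam hE hw1]
    rw [h2, subst_fcoeff, ← mul_assoc, PowerSeries.mul_inv_cancel _ hcE, one_mul]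
  have h2 := U_thetaPow_subst fa_hIds x (uS * X ^ j)
  rw [← hf, ← fa_subst_mul_pow, ← hf, ← mul_assoc, ← hE1, h1, hE1, mul_assoc] at h2
  have h3 := mul_left_cancel₀ ht h2
  rw [← PowerSeries.subst_mul hfs] at h3
  have h4 := congrArg (fun F => fcoeff 2 F i) h3
  simp only [hf, fcoeff_subst] at h4
  rw [PowerSeries.coeff_mk, PowerSeries.coeff_mul,
    Finset.Nat.sum_antidiagonal_eq_sum_range_succ
      (fun a b => PowerSeries.coeff a uS * PowerSeries.coeff b Cj)] at h4
  have h5 : ∑ k ∈ Finset.range (i + 1), u (i - k) x * ev (wx x) (famMatrix E k j) =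
      ∑ k ∈ Finset.range (i + 1), PowerSeries.coeff k uS * PowerSeries.coeff (i - k) Cj := by
    rw [← Finset.sum_range_reflect]
    refine Finset.sum_congr rfl fun k hk => ?_
    rw [Finset.mem_range] at hk
    rw [huS, hCj, PowerSeries.coeff_mk, PowerSeries.coeff_mk]
    have e1 : i - (i + 1 - 1 - k) = k := by omega
    have e2 : i + 1 - 1 - k = i - k := by omega
    rw [e1, e2]
  rw [h5, h4]
  refine Finset.sum_congr rfl fun k _ => ?_
  rw [fa_coeff_mul_X_pow]
  split_ifs with hjk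
  · rw [huS, PowerSeries.coeff_mk]
  · rw [mul_zero]

end GH
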