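import Pool.Agent.GH.Fred2

/-!
# Project GH (MP_370013_nt): the Fredholm series of matrices indexed by the positive integers
(`GH.fred`), decay hypothesis, invariance under unitriangular Toeplitz changes of basis,
ring homomorphisms
-/

set_option autoImplicit false

open Filter Topology

namespace GH

theorem fr_charpolyRev_equiv {R U T : Type*} [CommRing R] [Fintype U] [DecidableEq U] [Fintype T]
    [DecidableEq T] (e : U ≃ T) (A : Matrix T T R) :
    Matrix.charpolyRev (A.submatrix e e) = Matrix.charpolyRev A := by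
  unfold Matrix.charpolyRev
  rw [← Matrix.det_submatrix_equiv_self e (1 - (Polynomial.X : Polynomial R) • A.map _)]
  congr 1
  ext i j : 2
  simp [Matrix.one_apply]

/-- The shifted matrix with rows and columns used from index `1`. -/
def sh {R : Type*} (C : ℕ → ℕ → R) (i j : ℕ) : R := C (i + 1) (j + 1)

theorem fredBlock_eq {K : Type*} [Field K] (C : ℕ → ℕ → K) (N m : ℕ) :
    fredBlock C N m =
      (Matrix.charpolyRev (Matrix.of fun i j : Finset.range N => sh C i j)).coeff m := by
  unfold fredBlock
  let e : Fin N ≃ Finset.range N :=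
    { toFun := fun i => ⟨i.1, Finset.mem_range.2 i.2⟩
      invFun := fun i => ⟨i.1, Finset.mem_range.1 i.2⟩
      left_inv := fun i => rfl
      right_inv := fun i => rfl }
  rw [← fr_charpolyRev_equiv e]
  rfl

section map

variable {α : Type*} [DecidableEq α]
variable {R : Type*} [NormedCommRing R] [NormOneClass R] [IsUltrametricDist R] [CompleteSpace R]
variable {R' : Type*} [NormedCommRing R'] [NormOneClass R'] [IsUltrametricDist R']
  [CompleteSpace R']

omit [NormOneClass R] [IsUltrametricDist R] [CompleteSpace R] [NormOneClass R']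
  [IsUltrametricDist R'] [CompleteSpace R'] in
theorem pmin_map (φ : R →+* R') (M : α → α → R) (S : Finset α) :
    pmin (fun i j => φ (M i j)) S = φ (pmin M S) := by
  unfold pmin
  rw [RingHom.map_det]
  rfl

omit [NormOneClass R'] [IsUltrametricDist R'] [CompleteSpace R'] in
/-- (F3) Compatibility with continuous ring homomorphisms (specialisation of families). -/
theorem fredCoeff_map (φ : R →+* R') (hφ : Continuous φ) {w c : α → ℝ} {M : α → α → R}
    (h : Cpt w c M) (n : ℕ) : fredCoeff (fun i j => φ (M i j)) n = φ (fredCoeff M n) := by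
  unfold fredCoeff
  simp only [pmin_map]
  rw [map_mul, map_pow, map_neg, map_one]
  congr 1
  exact ((fr_summable h n).map_tsum φ hφ).symm

end map

section field

variable {K : Type*} [NormedField K] [IsUltrametricDist K] [CompleteSpace K]

theorem fredBlock_tendsto {w c : ℕ → ℝ} {C : ℕ → ℕ → K} (h : Cpt w c (sh C)) (m : ℕ) :
    Tendsto (fun N => fredBlock C N m) atTop (𝓝 (fredCoeff (sh C) m)) := by
  simp only [fredBlock_eq]
  exact (fredCoeff_tendsto h m).comp tendsto_finset_range

theorem fred_eq {w c : ℕ → ℝ} {C : ℕ → ℕ → K} (h : Cpt w c (sh C)) (m : ℕ) :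
    fred C m = fredCoeff (sh C) m :=
  (fredBlock_tendsto h m).limUnder_eq

/-- The decay of all matrices of the project: `C i j = 0` for `j > 2i` and
`|C i j| ≤ c r^(j-2i)`. -/
structure Decay (r c : ℝ) (C : ℕ → ℕ → K) : Prop where
  one_lt : 1 < r
  zero : ∀ i j, 2 * i < j → C i j = 0
  le : ∀ i j, j ≤ 2 * i → ‖C i j‖ * r ^ (2 * i - j) ≤ c

omit [IsUltrametricDist K] [CompleteSpace K] in
theorem Decay.cpt {r c : ℝ} {C : ℕ → ℕ → K} (h : Decay r c C) :
    Cpt (fun i => r ^ (i + 1)) (fun j => c * (Real.sqrt r)⁻¹ ^ (j + 1)) (sh C) := by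
  have hr0 : 0 < r := zero_lt_one.trans h.one_lt
  have hs : 1 < Real.sqrt r := by
    rw [Real.lt_sqrt zero_le_one]
    simpa using h.one_lt
  have hs0 : 0 < Real.sqrt r := zero_lt_one.trans hs
  have hc : 0 ≤ c := (by positivity : 0 ≤ ‖C 0 0‖ * r ^ (2 * 0 - 0)).trans (h.le 0 0 le_rfl)
  refine ⟨fun i => by positivity, ?_, fun i j => ?_⟩
  · rw [Nat.cofinite_eq_atTop]
    have h1 : (Real.sqrt r)⁻¹ < 1 := inv_lt_one_of_one_lt₀ hs
    have h2 := (tendsto_pow_atTop_nhds_zero_of_lt_one (by positivity) h1).comp
      (tendsto_add_atTop_nat 1)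
    simpa using h2.const_mul c
  · unfold sh
    rcases lt_or_ge (2 * (i + 1)) (j + 1) with hij | hij
    · rw [h.zero _ _ hij, norm_zero, mul_zero]
      positivity
    · have h1 := h.le (i + 1) (j + 1) hij
      have e1 : Real.sqrt r ^ (2 : ℕ) = r := Real.sq_sqrt hr0.le
      have h2 : Real.sqrt r ^ (j + 1) ≤ r ^ (i + 1) := by
        calc Real.sqrt r ^ (j + 1) ≤ Real.sqrt r ^ (2 * (i + 1)) :=
              pow_le_pow_right₀ hs.le hij
          _ = r ^ (i + 1) := by rw [pow_mul, e1]
      have h3 : r ^ (i + 1) * (r ^ (i + 1) * ‖C (i + 1) (j + 1)‖) ≤ r ^ (j + 1) * c := by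
        have e2 : r ^ (i + 1) * (r ^ (i + 1) * ‖C (i + 1) (j + 1)‖) =
            r ^ (j + 1) * (‖C (i + 1) (j + 1)‖ * r ^ (2 * (i + 1) - (j + 1))) := by
          have : r ^ (i + 1) * r ^ (i + 1) = r ^ (j + 1) * r ^ (2 * (i + 1) - (j + 1)) := by
            rw [← pow_add, ← pow_add]
            congr 1
            omega
          calc _ = (r ^ (i + 1) * r ^ (i + 1)) * ‖C (i + 1) (j + 1)‖ := by ring
            _ = _ := by rw [this]; ring
        rw [e2]
        exact mul_le_mul_of_nonneg_left h1 (by positivity)
      have h4 : Real.sqrt r ^ (j + 1) * (r ^ (i + 1) * ‖C (i + 1) (j + 1)‖) ≤ r ^ (j + 1) * c :=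
        (mul_le_mul_of_nonneg_right h2 (by positivity)).trans h3
      rw [inv_pow]
      calc r ^ (i + 1) * ‖C (i + 1) (j + 1)‖ ≤ (r ^ (j + 1) * c) / Real.sqrt r ^ (j + 1) := by
            rw [le_div_iff₀' (by positivity)]
            exact h4
        _ = _ := by
            rw [div_eq_mul_inv, mul_assoc]

/-- (F1) -/
theorem Decay.tendsto {r c : ℝ} {C : ℕ → ℕ → K} (h : Decay r c C) (m : ℕ) :
    Tendsto (fun N => fredBlock C N m) atTop (𝓝 (fred C m)) := by
  rw [fred_eq h.cpt]
  exact fredBlock_tendsto h.cpt m

theorem Decay.fred_eq {r c : ℝ} {C : ℕ → ℕ → K} (h : Decay r c C) (m : ℕ) :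
    fred C m = fredCoeff (sh C) m :=
  GH.fred_eq h.cpt m

/-- The lower triangular Toeplitz matrix of a sequence. -/
def toep (u : ℕ → K) (k j : ℕ) : K := if j ≤ k then u (k - j) else 0

omit [IsUltrametricDist K] [CompleteSpace K] in
theorem toep_zero (u : ℕ → K) {k j : ℕ} (h : k < j) : toep u k j = 0 := by
  unfold toep
  rw [if_neg (not_le.2 h)]

omit [IsUltrametricDist K] [CompleteSpace K] in
theorem toep_mul (u v : ℕ → K) (huv : ∀ n, ∑ q ∈ Finset.range (n + 1), u (n - q) * v q =
    if n = 0 then 1 else 0) (N l j : ℕ) (hl : l < N) :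
    ∑ k ∈ Finset.range N, toep u l k * toep v k j = if l = j then 1 else 0 := by
  rcases lt_or_ge l j with h | h
  · rw [if_neg (by omega)]
    refine Finset.sum_eq_zero fun k _ => ?_
    rcases lt_or_ge k j with h1 | h1
    · rw [toep_zero v h1, mul_zero]
    · rw [toep_zero u (lt_of_lt_of_le h h1), zero_mul]
  · have h1 := huv (l - j)
    have h2 : (if l - j = 0 then (1 : K) else 0) = if l = j then 1 else 0 := by
      by_cases h3 : l = j
      · simp [h3]
      · rw [if_neg h3, if_neg (by omega)]
    rw [← h2, ← h1]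
    have h5 : ∑ k ∈ Finset.Ico j (l + 1), toep u l k * toep v k j =
        ∑ k ∈ Finset.range N, toep u l k * toep v k j := by
      refine Finset.sum_subset (fun k hk => ?_) fun k _ hk => ?_
      · rw [Finset.mem_Ico] at hk
        rw [Finset.mem_range]
        omega
      · rw [Finset.mem_Ico] at hk
        rcases lt_or_ge k j with h1 | h1
        · rw [toep_zero v h1, mul_zero]
        · rw [toep_zero u (by omega), zero_mul]
    rw [← h5, Finset.sum_Ico_eq_sum_range]
    have e0 : l + 1 - j = l - j + 1 := by omega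
    rw [e0]
    refine Finset.sum_congr rfl fun q hq => ?_
    rw [Finset.mem_range] at hq
    have e1 : l - (j + q) = l - j - q := by omega
    have e2 : j + q - j = q := by omega
    rw [toep, if_pos (by omega), toep, if_pos (by omega), e1, e2]

/-- the inverse of a power series with constant term one, as a sequence -/
def toepInv (u : ℕ → K) (n : ℕ) : K :=
  if n = 0 then 1 else - ∑ q : Fin n, u (n - q) * toepInv u q
termination_by n
decreasing_by exact q.2

omit [IsUltrametricDist K] [CompleteSpace K] in
theorem toepInv_spec (u : ℕ → K) (hu : u 0 = 1) (n : ℕ) :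
    ∑ q ∈ Finset.range (n + 1), u (n - q) * toepInv u q = if n = 0 then 1 else 0 := by
  rw [Finset.sum_range_succ, Nat.sub_self, hu, one_mul]
  rcases Nat.eq_zero_or_pos n with rfl | hn
  · rw [toepInv, if_pos rfl, if_pos rfl, Finset.sum_range_zero, zero_add]
  · rw [if_neg hn.ne', toepInv, if_neg hn.ne', Finset.sum_fin_eq_sum_range]
    rw [← sub_eq_add_neg, sub_eq_zero]
    refine Finset.sum_congr rfl fun q hq => ?_
    rw [Finset.mem_range] at hq
    rw [dif_pos hq]

omit [IsUltrametricDist K] [CompleteSpace K] in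
theorem toepInv_spec' (u : ℕ → K) (hu : u 0 = 1) (n : ℕ) :
    ∑ q ∈ Finset.range (n + 1), toepInv u (n - q) * u q = if n = 0 then 1 else 0 := by
  rw [← toepInv_spec u hu n, ← Finset.sum_range_reflect]
  refine Finset.sum_congr rfl fun q hq => ?_
  rw [Finset.mem_range] at hq
  have e1 : n + 1 - 1 - q = n - q := by omega
  have e2 : n - (n - q) = q := by omega
  rw [e1, e2, mul_comm]

omit [CompleteSpace K] in
theorem toepInv_le {r : ℝ} (hr : 0 < r) (u : ℕ → K) (hu : ∀ n, ‖u n‖ * r ^ n ≤ 1) (n : ℕ) :
    ‖toepInv u n‖ * r ^ n ≤ 1 := by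
  induction n using Nat.strong_induction_on with
  | _ n ih =>
    rw [toepInv]
    split_ifs with h
    · simp [h]
    · rw [norm_neg, ← le_div_iff₀ (by positivity)]
      refine ud_sum_le _ _ (by positivity) fun q _ => ?_
      rw [le_div_iff₀ (by positivity), norm_mul]
      have h1 := hu (n - q)
      have h2 := ih q q.2
      have e : r ^ n = r ^ (n - (q : ℕ)) * r ^ (q : ℕ) := by
        rw [← pow_add]
        congr 1
        have := q.2
        omega
      calc ‖u (n - q)‖ * ‖toepInv u q‖ * r ^ n =
          (‖u (n - q)‖ * r ^ (n - (q : ℕ))) * (‖toepInv u q‖ * r ^ (q : ℕ)) := by rw [e]; ring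
        _ ≤ 1 * 1 := mul_le_mul h1 h2 (by positivity) zero_le_one
        _ = 1 := one_mul 1

omit [IsUltrametricDist K] [CompleteSpace K] in
theorem toep_weight {r : ℝ} (hr : 0 < r) (u : ℕ → K) (hu : ∀ n, ‖u n‖ * r ^ n ≤ 1) (i j : ℕ) :
    r ^ (i + 1) * ‖toep u i j‖ ≤ r ^ (j + 1) * 1 := by
  unfold toep
  split_ifs with h
  · have e : r ^ (i + 1) = r ^ (i - j) * r ^ (j + 1) := by
      rw [← pow_add]
      congr 1
      omega
    calc r ^ (i + 1) * ‖u (i - j)‖ = r ^ (j + 1) * (‖u (i - j)‖ * r ^ (i - j)) := by
          rw [e]; ring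
      _ ≤ _ := mul_le_mul_of_nonneg_left (hu _) (by positivity)
  · rw [norm_zero, mul_zero]
    positivity

/-- (F2) Invariance under unitriangular Toeplitz changes of basis. -/
theorem fred_conj {r c c' : ℝ} {C C' : ℕ → ℕ → K} (hC : Decay r c C) (hC' : Decay r c' C')
    (u : ℕ → K) (hu0 : u 0 = 1) (hu : ∀ n, ‖u n‖ * r ^ n ≤ 1)
    (h : ∀ i, 1 ≤ i → ∀ j, 1 ≤ j → ∑ k ∈ Finset.Icc j (2 * i), C i k * u (k - j) =
      ∑ k ∈ Finset.Icc 1 i, u (i - k) * C' k j) (m : ℕ) : fred C m = fred C' m := by
  have hr : 0 < r := zero_lt_one.trans hC.one_lt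
  rw [hC.fred_eq, hC'.fred_eq]
  set v := toepInv u with hv
  have hvu := toepInv_spec' u hu0
  have hvw : ∀ n, ‖v n‖ * r ^ n ≤ 1 := toepInv_le hr u hu
  set w : ℕ → ℝ := fun i => r ^ (i + 1) with hw
  have z' : ∀ i l, 2 * i + 2 ≤ l → sh C' i l = 0 := fun i l hl => hC'.zero _ _ (by omega)
  have z : ∀ i l, 2 * i + 2 ≤ l → sh C i l = 0 := fun i l hl => hC.zero _ _ (by omega)
  -- the product `A = C' T⁻¹`
  obtain ⟨c1, hA⟩ := hC'.cpt.mul_right (B := toep v) (β := 1) (toep_weight hr v hvw)
    (fun i => (Finset.range (i + 1)).finite_toSet.subset fun k hk => by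
      rw [Finset.mem_coe, Finset.mem_range]
      by_contra hc
      exact hk (toep_zero v (by omega)))
  have hAf : ∀ i j N, 2 * i + 2 ≤ N → ∑' k, sh C' i k * toep v k j =
      ∑ k ∈ Finset.range N, sh C' i k * toep v k j := fun i j N hN =>
    tsum_eq_sum fun k hk => by
      rw [z' i k (by rw [Finset.mem_range] at hk; omega), zero_mul]
  have h1 := fredCoeff_mul_comm hA (B := toep u) (β := 1) (toep_weight hr u hu)
    (fun i => (Finset.range (i + 1)).finite_toSet.subset fun k hk => by
      rw [Finset.mem_coe, Finset.mem_range]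
      by_contra hc
      exact hk (toep_zero u (by omega))) m
  -- `A T = C'`
  have e1 : (fun i j => ∑' k, (∑' l, sh C' i l * toep v l k) * toep u k j) = sh C' := by
    funext i j
    set N := 2 * i + 2 + (j + 1) with hN
    have a1 : ∀ k, ∑' l, sh C' i l * toep v l k = ∑ l ∈ Finset.range N, sh C' i l * toep v l k :=
      fun k => hAf i k N (by omega)
    simp only [a1]
    rw [tsum_eq_sum (s := Finset.range N)]
    · have a2 : ∀ k ∈ Finset.range N, (∑ l ∈ Finset.range N, sh C' i l * toep v l k) * toep u k j =
          ∑ l ∈ Finset.range N, sh C' i l * (toep v l k * toep u k j) := fun k _ => by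
        rw [Finset.sum_mul]
        exact Finset.sum_congr rfl fun l _ => by ring
      rw [Finset.sum_congr rfl a2, Finset.sum_comm]
      have a3 : ∀ l ∈ Finset.range N, ∑ k ∈ Finset.range N, sh C' i l * (toep v l k * toep u k j) =
          if l = j then sh C' i l else 0 := fun l hl => by
        rw [← Finset.mul_sum, toep_mul v u hvu N l j (Finset.mem_range.1 hl)]
        split_ifs <;> simp
      rw [Finset.sum_congr rfl a3, Finset.sum_ite_eq' (Finset.range N) j, if_pos]
      rw [Finset.mem_range]
      omega
    · intro k hk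
      rw [Finset.mem_range] at hk
      rw [Finset.sum_eq_zero, zero_mul]
      intro l hl
      rw [Finset.mem_range] at hl
      rw [toep_zero v (by omega), mul_zero]
  -- `T A = C`
  have e2 : (fun i j => ∑' k, toep u i k * (∑' l, sh C' k l * toep v l j)) = sh C := by
    funext i j
    set N := 2 * i + 2 + (j + 1) with hN
    rw [tsum_eq_sum (s := Finset.range (i + 1))]
    · have a1 : ∀ k ∈ Finset.range (i + 1), toep u i k * (∑' l, sh C' k l * toep v l j) =
          ∑ l ∈ Finset.range N, (toep u i k * sh C' k l) * toep v l j := fun k hk => by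
        rw [Finset.mem_range] at hk
        rw [hAf k j N (by omega), Finset.mul_sum]
        exact Finset.sum_congr rfl fun l _ => by ring
      rw [Finset.sum_congr rfl a1, Finset.sum_comm]
      have a2 : ∀ l ∈ Finset.range N, ∑ k ∈ Finset.range (i + 1), toep u i k * sh C' k l *
          toep v l j = ∑ k ∈ Finset.range N, (sh C i k * toep u k l) * toep v l j := fun l _ => by
        rw [← Finset.sum_mul, ← Finset.sum_mul]
        congr 1
        have h2 := h (i + 1) (by omega) (l + 1) (by omega)
        have h3 : ∑ k ∈ Finset.range (i + 1), toep u i k * sh C' k l =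
            ∑ k ∈ Finset.Icc 1 (i + 1), u (i + 1 - k) * C' k (l + 1) := by
          have e0 : Finset.Icc 1 (i + 1) = Finset.Ico 1 (i + 2) := by
            ext x
            simp only [Finset.mem_Icc, Finset.mem_Ico]
            omega
          have e1 : i + 2 - 1 = i + 1 := by omega
          rw [e0, Finset.sum_Ico_eq_sum_range, e1]
          refine Finset.sum_congr rfl fun k hk => ?_
          rw [Finset.mem_range] at hk
          have e2 : i + 1 - (1 + k) = i - k := by omega
          rw [toep, if_pos (by omega), e2, add_comm 1 k]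
          rfl
        have h4 : ∑ k ∈ Finset.range N, sh C i k * toep u k l =
            ∑ k ∈ Finset.Icc (l + 1) (2 * (i + 1)), C (i + 1) k * u (k - (l + 1)) := by
          have e0 : Finset.Icc (l + 1) (2 * (i + 1)) = Finset.Ico (l + 1) (2 * i + 3) := by
            ext x
            simp only [Finset.mem_Icc, Finset.mem_Ico]
            omega
          have e1 : ∑ k ∈ Finset.Ico l (2 * i + 2), sh C i k * toep u k l =
              ∑ k ∈ Finset.range N, sh C i k * toep u k l := by
            refine Finset.sum_subset (fun k hk => ?_) fun k _ hk => ?_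
            · rw [Finset.mem_Ico] at hk
              rw [Finset.mem_range]
              omega
            · rw [Finset.mem_Ico] at hk
              rcases lt_or_ge k l with h5 | h5
              · rw [toep_zero u h5, mul_zero]
              · rw [z i k (by omega), zero_mul]
          rw [← e1, e0, Finset.sum_Ico_eq_sum_range, Finset.sum_Ico_eq_sum_range]
          have e2 : 2 * i + 3 - (l + 1) = 2 * i + 2 - l := by omega
          rw [e2]
          refine Finset.sum_congr rfl fun k hk => ?_
          have e3 : l + k - l = k := by omega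
          have e4 : l + 1 + k - (l + 1) = k := by omega
          have e5 : l + 1 + k = l + k + 1 := by omega
          rw [toep, if_pos (by omega), e3, e4, e5]
          rfl
        rw [h3, h4, h2]
      rw [Finset.sum_congr rfl a2, Finset.sum_comm]
      have a3 : ∀ k ∈ Finset.range N, ∑ l ∈ Finset.range N, sh C i k * toep u k l * toep v l j =
          if k = j then sh C i k else 0 := fun k hk => by
        have : ∀ l ∈ Finset.range N, sh C i k * toep u k l * toep v l j =
            sh C i k * (toep u k l * toep v l j) := fun l _ => by ring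
        rw [Finset.sum_congr rfl this, ← Finset.mul_sum,
          toep_mul u v (toepInv_spec u hu0) N k j (Finset.mem_range.1 hk)]
        split_ifs <;> simp
      rw [Finset.sum_congr rfl a3, Finset.sum_ite_eq' (Finset.range N) j, if_pos]
      rw [Finset.mem_range]
      omega
    · intro k hk
      rw [Finset.mem_range] at hk
      rw [toep_zero u (by omega), zero_mul]
  rw [e1, e2] at h1
  exact h1.symm

end field

end GH
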