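import Pool.Agent.GH.Base
import Pool.Agent.GH.Fred3
import Pool.Agent.GH.ZChar
import Pool.Agent.GH.GaussN

open PowerSeries Filter Topology

noncomputable section

namespace GH

/-! Fredholm series of matrices of the type of `U_2`. -/

section

variable {K : Type*} [NontriviallyNormedField K] [CompleteSpace K] [IsUltrametricDist K]

omit [CompleteSpace K] [IsUltrametricDist K] in
theorem ff_decay (C : ℕ → ℕ → K) (h0 : ∀ i j, 2 * i < j → C i j = 0) (R c : ℝ) (hR : 1 < R)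
    (hc : ∀ i j, j ≤ 2 * i → ‖C i j‖ ≤ c * R⁻¹ ^ (2 * i - j)) : Decay R c C := by
  refine ⟨hR, h0, fun i j hij => ?_⟩
  have hR0 : 0 < R := zero_lt_one.trans hR
  have h1 := mul_le_mul_of_nonneg_right (hc i j hij) (pow_nonneg hR0.le (2 * i - j))
  refine h1.trans (le_of_eq ?_)
  rw [mul_assoc, ← mul_pow, inv_mul_cancel₀ hR0.ne', one_pow, mul_one]

/-- (F1) the limit exists. -/
theorem exists_fred (C : ℕ → ℕ → K) (h0 : ∀ i j, 2 * i < j → C i j = 0) (R c : ℝ) (hR : 1 < R)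
    (hc : ∀ i j, j ≤ 2 * i → ‖C i j‖ ≤ c * R⁻¹ ^ (2 * i - j)) (m : ℕ) :
    Tendsto (fun N ↦ fredBlock C N m) atTop (𝓝 (fred C m)) :=
  (ff_decay C h0 R c hR hc).tendsto m

/-- (F2) invariance under a lower unitriangular Toeplitz matrix. -/
theorem fred_eq_of_toeplitz (C C' : ℕ → ℕ → K) (u : ℕ → K) (R c : ℝ) (hR : 1 < R)
    (h0 : ∀ i j, 2 * i < j → C i j = 0) (h0' : ∀ i j, 2 * i < j → C' i j = 0)
    (hc : ∀ i j, j ≤ 2 * i → ‖C i j‖ ≤ c * R⁻¹ ^ (2 * i - j))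
    (hc' : ∀ i j, j ≤ 2 * i → ‖C' i j‖ ≤ c * R⁻¹ ^ (2 * i - j))
    (hu0 : u 0 = 1) (hu : ∀ n, ‖u n‖ * R ^ n ≤ 1)
    (h : ∀ i j, 1 ≤ i → 1 ≤ j →
      ∑ k ∈ Finset.range (2 * i + 1), (if j ≤ k then C i k * u (k - j) else 0) =
        ∑ k ∈ Finset.range (i + 1), u (i - k) * C' k j) (m : ℕ) :
    fred C m = fred C' m := by
  refine fred_conj (ff_decay C h0 R c hR hc) (ff_decay C' h0' R c hR hc') u hu0 hu
    (fun i hi j hj => ?_) m
  have h1 : ∑ k ∈ Finset.Icc j (2 * i), C i k * u (k - j) =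
      ∑ k ∈ Finset.range (2 * i + 1), (if j ≤ k then C i k * u (k - j) else 0) := by
    rw [← Finset.sum_filter]
    refine Finset.sum_congr ?_ fun _ _ => rfl
    ext k
    simp only [Finset.mem_Icc, Finset.mem_filter, Finset.mem_range]
    omega
  have h2 : ∑ k ∈ Finset.Icc 1 i, u (i - k) * C' k j =
      ∑ k ∈ Finset.range (i + 1), u (i - k) * C' k j := by
    refine Finset.sum_subset (fun k hk => ?_) fun k hk hk' => ?_
    · rw [Finset.mem_Icc] at hk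
      rw [Finset.mem_range]
      omega
    · rw [Finset.mem_range] at hk
      rw [Finset.mem_Icc] at hk'
      have : k = 0 := by omega
      subst this
      rw [h0' 0 j (by omega), mul_zero]
  rw [h1, h2, h i j hi hj]

omit [CompleteSpace K] in
/-- Uniform Cauchy estimate for the finite blocks. -/
theorem ff_block_sub {R c : ℝ} {C : ℕ → ℕ → K} (h : Decay R c C) {N N' : ℕ} (hN : N ≤ N')
    (m : ℕ) : ‖fredBlock C N' m - fredBlock C N m‖ ≤
      max 1 c ^ m * (Real.sqrt R)⁻¹ ^ (N + 1) := by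
  have hR0 : 0 < R := zero_lt_one.trans h.one_lt
  have hs : 1 < Real.sqrt R := by
    rw [Real.lt_sqrt zero_le_one]
    simpa using h.one_lt
  have hs0 : 0 < Real.sqrt R := zero_lt_one.trans hs
  have hc : 0 ≤ c := (by positivity : 0 ≤ ‖C 0 0‖ * R ^ (2 * 0 - 0)).trans (h.le 0 0 le_rfl)
  have hD : (0 : ℝ) ≤ max 1 c ^ m * (Real.sqrt R)⁻¹ ^ (N + 1) := by positivity
  rw [fredBlock_eq, fredBlock_eq, ← fr_charpolyRev, ← fr_charpolyRev, ← mul_sub,
    fr_norm_neg_one_pow_mul]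
  have hsub : (Finset.range N).powersetCard m ⊆ (Finset.range N').powersetCard m :=
    Finset.powersetCard_mono (Finset.range_mono hN)
  rw [← Finset.sum_sdiff hsub, add_sub_cancel_right]
  refine ud_sum_le _ _ hD fun S hS => ?_
  rw [Finset.mem_sdiff, Finset.mem_powersetCard, Finset.mem_powersetCard] at hS
  have hcard := hS.1.2
  have hns : ¬ S ⊆ Finset.range N := fun hc => hS.2 ⟨hc, hcard⟩
  obtain ⟨j, hj, hj'⟩ := Finset.not_subset.1 hns
  rw [Finset.mem_range, not_lt] at hj'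
  refine (fr_pmin_le h.cpt S).trans ?_
  rw [← Finset.mul_prod_erase _ _ hj]
  have hinv : (Real.sqrt R)⁻¹ ≤ 1 := inv_le_one_of_one_le₀ hs.le
  have h1 : (Real.sqrt R)⁻¹ ^ (j + 1) ≤ (Real.sqrt R)⁻¹ ^ (N + 1) :=
    pow_le_pow_of_le_one (by positivity) hinv (by omega)
  have h2 : ∏ i ∈ S.erase j, c * (Real.sqrt R)⁻¹ ^ (i + 1) ≤ max 1 c ^ (m - 1) := by
    calc ∏ i ∈ S.erase j, c * (Real.sqrt R)⁻¹ ^ (i + 1) ≤ ∏ i ∈ S.erase j, max 1 c := by
          refine Finset.prod_le_prod (fun i _ => by positivity) fun i _ => ?_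
          calc c * (Real.sqrt R)⁻¹ ^ (i + 1) ≤ c * 1 :=
                mul_le_mul_of_nonneg_left (pow_le_one₀ (by positivity) hinv) hc
            _ ≤ max 1 c := by rw [mul_one]; exact le_max_right _ _
      _ = max 1 c ^ (m - 1) := by
          rw [Finset.prod_const, Finset.card_erase_of_mem hj, hcard]
  have hm : 1 ≤ m := by
    rw [← hcard]
    exact Finset.card_pos.2 ⟨j, hj⟩
  calc c * (Real.sqrt R)⁻¹ ^ (j + 1) * ∏ i ∈ S.erase j, c * (Real.sqrt R)⁻¹ ^ (i + 1)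
      ≤ (max 1 c * (Real.sqrt R)⁻¹ ^ (N + 1)) * max 1 c ^ (m - 1) := by
        refine mul_le_mul (mul_le_mul (le_max_right _ _) h1 (by positivity) (by positivity)) h2
          (Finset.prod_nonneg fun i _ => by positivity) (by positivity)
    _ = (max 1 c * max 1 c ^ (m - 1)) * (Real.sqrt R)⁻¹ ^ (N + 1) := by ring
    _ = max 1 c ^ m * (Real.sqrt R)⁻¹ ^ (N + 1) := by
        rw [← pow_succ', Nat.sub_add_cancel hm]

end

/-- A point of norm in a given interval below one. -/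
theorem ff_exists_norm (ρ : ℝ) (hρ : ρ < 1) : ∃ t : C2, ρ < ‖t‖ ∧ 0 < ‖t‖ ∧ ‖t‖ < 1 := by
  have h1 : Tendsto (fun n : ℕ => (max ρ 0) ^ n) atTop (𝓝 0) :=
    tendsto_pow_atTop_nhds_zero_of_lt_one (le_max_right _ _) (max_lt hρ one_pos)
  obtain ⟨n, hn⟩ := (h1.eventually_lt_const (show (0 : ℝ) < 1 / 8 by norm_num)).exists
  have hn0 : n ≠ 0 := by
    rintro rfl
    rw [pow_zero] at hn
    norm_num at hn
  obtain ⟨t, ht⟩ := IsAlgClosed.exists_pow_nat_eq (8 : C2) (Nat.pos_of_ne_zero hn0)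
  have h2 : ‖t‖ ^ n = 1 / 8 := by
    rw [← norm_pow, ht, gn_norm_eight]
  refine ⟨t, ?_, ?_, ?_⟩
  · by_contra hc
    push Not at hc
    have : ‖t‖ ^ n ≤ max ρ 0 ^ n :=
      pow_le_pow_left₀ (norm_nonneg _) (hc.trans (le_max_left _ _)) n
    linarith
  · rcases (norm_nonneg t).lt_or_eq with h | h
    · exact h
    · rw [← h, zero_pow hn0] at h2
      norm_num at h2
  · by_contra hc
    push Not at hc
    have := one_le_pow₀ hc (n := n)
    linarith

/-- Gauss norm on the disc of radius `‖t‖`. -/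
theorem ff_coeff_le (F : Lam) {t : C2} (ht : ‖t‖ < 1) {B : ℝ}
    (h : ∀ w : C2, ‖w‖ ≤ ‖t‖ → ‖ev w F‖ ≤ B) (m : ℕ) :
    ‖PowerSeries.coeff m F‖ * ‖t‖ ^ m ≤ B := by
  set a : ℕ → C2 := fun m => iota (PowerSeries.coeff m F) * t ^ m with ha
  have hna : ∀ m, ‖a m‖ = ‖PowerSeries.coeff m F‖ * ‖t‖ ^ m := fun m => by
    rw [ha]
    simp only
    rw [norm_mul, norm_pow, gn_norm_iota]
  have ha0 : Tendsto a atTop (𝓝 0) := by
    have h1 : Tendsto (fun m : ℕ => ‖t‖ ^ m) atTop (𝓝 0) :=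
      tendsto_pow_atTop_nhds_zero_of_lt_one (norm_nonneg _) ht
    refine squeeze_zero_norm (fun m => ?_) h1
    rw [hna]
    exact mul_le_of_le_one_left (by positivity) (PadicInt.norm_le_one _)
  obtain ⟨x, hx, -, hx2⟩ := gn_exists_generic_series ha0 ∅ (by simp)
  have h2 : ∑' n, a n * x ^ n = ev (t * x) F := by
    unfold ev
    refine tsum_congr fun n => ?_
    rw [ha]
    simp only
    rw [mul_pow]
    ring
  rw [← hna]
  refine (hx2 m).trans ?_
  rw [h2]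
  apply h
  rw [norm_mul, hx, mul_one]

theorem ff_ev_le (F : Lam) {t w : C2} (hw : ‖w‖ ≤ ‖t‖) {B : ℝ} (hB : 0 ≤ B)
    (h : ∀ m, ‖PowerSeries.coeff m F‖ * ‖t‖ ^ m ≤ B) : ‖ev w F‖ ≤ B := by
  unfold ev
  refine ud_tsum_le _ hB fun m => ?_
  rw [norm_mul, norm_pow, gn_norm_iota]
  exact (mul_le_mul_of_nonneg_left (pow_le_pow_left₀ (norm_nonneg _) hw m)
    (norm_nonneg _)).trans (h m)

/-- The coefficients of the finite blocks over `ℤ_2[[W]]`. -/
def ffA (Cc : ℕ → ℕ → Lam) (N m : ℕ) : Lam :=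
  (Matrix.charpolyRev (Matrix.of fun i j : Fin N ↦ Cc (i + 1) (j + 1))).coeff m

theorem ev_ffA (Cc : ℕ → ℕ → Lam) {w : C2} (hw : ‖w‖ < 1) (N m : ℕ) :
    ev w (ffA Cc N m) = fredBlock (fun i j ↦ ev w (Cc i j)) N m := by
  obtain ⟨φ, hφ⟩ := exists_evHom hw
  rw [← hφ]
  unfold ffA fredBlock
  have h1 : (Matrix.charpolyRev (Matrix.of fun i j : Fin N ↦ ev w (Cc (i + 1) (j + 1)))) =
      (Matrix.charpolyRev (Matrix.of fun i j : Fin N ↦ Cc (i + 1) (j + 1))).map φ := by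
    unfold Matrix.charpolyRev
    rw [← Polynomial.coe_mapRingHom, RingHom.map_det]
    congr 1
    ext i j : 2
    simp [hφ, Matrix.one_apply, apply_ite]
  rw [h1, Polynomial.coeff_map]

/-- (F3) the family version over `ℤ_2[[W]]`. -/
theorem exists_fred_family (Cc : ℕ → ℕ → Lam) (h0 : ∀ i j, 2 * i < j → Cc i j = 0)
    (hb : ∀ ρ : ℝ, ρ < 1 → ∃ R : ℝ, 1 < R ∧ ∃ c : ℝ, 0 < c ∧ ∀ w : C2, ‖w‖ ≤ ρ →
      ∀ i j : ℕ, j ≤ 2 * i → ‖ev w (Cc i j)‖ ≤ c * R⁻¹ ^ (2 * i - j)) :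
    ∃ a : ℕ → Lam, ∀ w : C2, ‖w‖ < 1 → ∀ m : ℕ,
      Tendsto (fun N ↦ fredBlock (fun i j ↦ ev w (Cc i j)) N m) atTop (𝓝 (ev w (a m))) := by
  have hsubev : ∀ {w : C2}, ‖w‖ < 1 → ∀ F G : Lam, ev w (F - G) = ev w F - ev w G := by
    intro w hw F G
    obtain ⟨φ, hφ⟩ := exists_evHom hw
    rw [← hφ, ← hφ, ← hφ, map_sub]
  -- uniform estimates on closed discs
  have key : ∀ t : C2, 0 < ‖t‖ → ‖t‖ < 1 → ∀ m : ℕ, ∃ ε : ℕ → ℝ, (∀ N, 0 ≤ ε N) ∧
      Tendsto ε atTop (𝓝 0) ∧ ∀ N N', N ≤ N' → ∀ l,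
        ‖PowerSeries.coeff l (ffA Cc N' m) - PowerSeries.coeff l (ffA Cc N m)‖ * ‖t‖ ^ l ≤
          ε N := by
    intro t ht0 ht m
    obtain ⟨R, hR, c, hc, hRc⟩ := hb ‖t‖ ht
    have hR0 : 0 < R := zero_lt_one.trans hR
    have hs : 1 < Real.sqrt R := by
      rw [Real.lt_sqrt zero_le_one]
      simpa using hR
    have hs0 : 0 < Real.sqrt R := zero_lt_one.trans hs
    refine ⟨fun N => max 1 c ^ m * (Real.sqrt R)⁻¹ ^ (N + 1), fun N => by positivity, ?_, ?_⟩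
    · have h1 : (Real.sqrt R)⁻¹ < 1 := inv_lt_one_of_one_lt₀ hs
      have h2 := (tendsto_pow_atTop_nhds_zero_of_lt_one (by positivity) h1).comp
        (tendsto_add_atTop_nat 1)
      simpa using h2.const_mul (max 1 c ^ m)
    · intro N N' hN l
      rw [← map_sub]
      refine ff_coeff_le _ ht (fun w hw => ?_) l
      have hw1 : ‖w‖ < 1 := hw.trans_lt ht
      rw [hsubev hw1, ev_ffA Cc hw1, ev_ffA Cc hw1]
      have hev0 : ev w 0 = 0 := by
        obtain ⟨φ, hφ⟩ := exists_evHom hw1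
        rw [← hφ, map_zero]
      exact ff_block_sub (ff_decay (fun i j ↦ ev w (Cc i j))
        (fun i j hij => by rw [h0 i j hij, hev0]) R c hR (hRc w hw)) hN m
  -- the limits of the coefficients
  obtain ⟨t0, -, ht00, ht01⟩ := ff_exists_norm 0 one_pos
  have hlim : ∀ m l, ∃ b : ℤ_[2], Tendsto (fun N => PowerSeries.coeff l (ffA Cc N m)) atTop
      (𝓝 b) := by
    intro m l
    obtain ⟨ε, hε0, hε, hεl⟩ := key t0 ht00 ht01 m
    refine cauchySeq_tendsto_of_complete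
      (cauchySeq_of_le_tendsto_0 (fun N => 2 * (ε N / ‖t0‖ ^ l)) ?_ ?_)
    · intro N N' M hN hN'
      rw [dist_eq_norm]
      have e : PowerSeries.coeff l (ffA Cc N m) - PowerSeries.coeff l (ffA Cc N' m) =
          (PowerSeries.coeff l (ffA Cc N m) - PowerSeries.coeff l (ffA Cc M m)) -
          (PowerSeries.coeff l (ffA Cc N' m) - PowerSeries.coeff l (ffA Cc M m)) := by ring
      rw [e]
      have h1 := hεl M N hN l
      have h2 := hεl M N' hN' l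
      rw [← le_div_iff₀ (by positivity)] at h1 h2
      refine (norm_sub_le _ _).trans ?_
      linarith
    · simpa using (hε.div_const (‖t0‖ ^ l)).const_mul 2
  choose b hb' using hlim
  refine ⟨fun m => PowerSeries.mk fun l => b m l, fun w hw m => ?_⟩
  obtain ⟨t, htw, ht0, ht1⟩ := ff_exists_norm ‖w‖ hw
  obtain ⟨ε, hε0, hε, hεl⟩ := key t ht0 ht1 m
  have h1 : ∀ N l, ‖PowerSeries.coeff l ((PowerSeries.mk fun l => b m l) - ffA Cc N m)‖ *
      ‖t‖ ^ l ≤ ε N := by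
    intro N l
    rw [map_sub, PowerSeries.coeff_mk]
    have h2 : Tendsto (fun N' => ‖PowerSeries.coeff l (ffA Cc N' m) -
        PowerSeries.coeff l (ffA Cc N m)‖ * ‖t‖ ^ l) atTop
        (𝓝 (‖b m l - PowerSeries.coeff l (ffA Cc N m)‖ * ‖t‖ ^ l)) :=
      (((hb' m l).sub tendsto_const_nhds).norm).mul_const _
    refine le_of_tendsto h2 ?_
    filter_upwards [eventually_ge_atTop N] with N' hN'
    exact hεl N N' hN' l
  rw [tendsto_iff_norm_sub_tendsto_zero]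
  refine squeeze_zero (fun N => norm_nonneg _) (fun N => ?_) hε
  rw [← ev_ffA Cc hw, norm_sub_rev, ← hsubev hw]
  exact ff_ev_le _ htw.le (hε0 N) (h1 N)

end GH
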