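import Pool.Agent.GH.ClE4c
import Pool.Agent.GH.QGauss
import Pool.Agent.GH.QTheta
import Pool.Agent.GH.QHaupt
import Pool.Agent.GH.UMatB

/-! `E_4 = θ^8 (1 + 256 f)`. -/

open PowerSeries Filter Topology

noncomputable section

namespace GH

theorem e4_qIds : QIds :=
  ⟨theta_mul_euler, psi2_mul_euler, neg_theta_mul_theta, jacobi_quartic⟩

theorem e4_hIds (K : Type*) [Field K] : HIds K where
  c0 := coeff_zero_hser K
  c1 := coeff_one_hser K
  t0 := constantCoeff_theta K
  f1 := hauptmodul_eq e4_qIds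
  f2 := expand_hauptmodul e4_qIds
  h1 := neg_hser e4_qIds
  t8 := theta_pow_eight e4_qIds

theorem e4_jacobi : evalNegHom (theta ℚ) ^ 4 = theta ℚ ^ 4 + 16 * X * psi2 ℚ ^ 4 := by
  have h := congrArg (PowerSeries.map (Int.castRingHom ℚ)) jacobi_quartic
  have hθ : PowerSeries.map (Int.castRingHom ℚ) (theta ℤ) = theta ℚ := map_theta ℤ _
  have hψ : PowerSeries.map (Int.castRingHom ℚ) (psi2 ℤ) = psi2 ℚ := by
    ext n
    simp only [psi2, PowerSeries.coeff_map, PowerSeries.coeff_mk]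
    split_ifs <;> simp
  have hn : PowerSeries.map (Int.castRingHom ℚ) (evalNegHom (theta ℤ)) =
      evalNegHom (theta ℚ) := by
    rw [← hθ]
    ext n
    rw [PowerSeries.coeff_map, evalNegHom, coeff_rescale, evalNegHom, coeff_rescale,
      PowerSeries.coeff_map]
    simp
  rw [map_pow, map_add, map_mul, map_mul, map_pow, map_pow, hn, hθ, hψ, PowerSeries.map_X] at h
  rw [h]
  have : PowerSeries.map (Int.castRingHom ℚ) (16 : PowerSeries ℤ) = 16 :=
    map_ofNat (PowerSeries.map (Int.castRingHom ℚ)) 16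
  rw [this]

/-- `E_4(q²) = θ^8 (1 + 16 f)`. -/
theorem E4_expand : (eisQ 4).expand 2 two_ne_zero =
    theta ℚ ^ 8 * (1 + 16 * hauptmodul 2 ℚ) := by
  have h1 := two_E4_expand
  have h2 := e4_jacobi
  have h3 : hser ℚ * theta ℚ ^ 4 = X * psi2 ℚ ^ 4 := hser_mul ℚ
  have h4 : hauptmodul 2 ℚ = hser ℚ * (1 + 16 * hser ℚ) := hauptmodul_eq e4_qIds
  have h256 : (C (256 : ℚ) : PowerSeries ℚ) = 256 := by
    rw [← map_ofNat C 256]
  have hC2 : (C (2 : ℚ) : PowerSeries ℚ) = 2 := by
    rw [← map_ofNat C 2]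
  rw [h256, hC2] at h1
  have h5 : (2 : PowerSeries ℚ) * (eisQ 4).expand 2 two_ne_zero =
      2 * (theta ℚ ^ 8 * (1 + 16 * hauptmodul 2 ℚ)) := by
    rw [h1, h4]
    have h6 : evalNegHom (theta ℚ) ^ 8 = (theta ℚ ^ 4 + 16 * (hser ℚ * theta ℚ ^ 4)) ^ 2 := by
      rw [h3, ← mul_assoc, ← h2]
      ring
    have h7 : 256 * X ^ 2 * psi2 ℚ ^ 8 = 256 * (hser ℚ * theta ℚ ^ 4) ^ 2 := by
      rw [h3]
      ring
    rw [h6, h7]
    ring
  exact mul_left_cancel₀ (by
    rw [← hC2]
    intro h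
    have := congrArg (PowerSeries.coeff 0) h
    simp at this) h5

theorem e4_U_expand (F : PowerSeries ℚ) : U 2 (F.expand 2 two_ne_zero) = F := by
  ext n
  rw [U, PowerSeries.coeff_mk, coeff_expand_mul]

theorem coeff_binS {K : Type*} [Field K] (s : K) (n : ℕ) :
    PowerSeries.coeff n (binS s) = (∏ i ∈ Finset.range n, (s - i)) / (n.factorial : K) := by
  rw [binS, PowerSeries.coeff_mk]

theorem coeff_binS_nat {K : Type*} [Field K] (m n : ℕ) (h : m < n) :
    PowerSeries.coeff n (binS (m : K)) = 0 := by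
  rw [coeff_binS, Finset.prod_eq_zero (Finset.mem_range.mpr h) (sub_self _), zero_div]

theorem binS_one : (binS (1 : ℚ)) = 1 + X := by
  ext n
  rcases n with _ | _ | n
  · simp [coeff_binS]
  · simp [coeff_binS]
  · have := coeff_binS_nat (K := ℚ) 1 (n + 1 + 1) (by omega)
    rw [Nat.cast_one] at this
    rw [this]
    simp [PowerSeries.coeff_X, PowerSeries.coeff_one]

theorem e4_thetaPow_two : thetaPow (2 : ℚ) = theta ℚ ^ 8 := by
  have hs : HasSubst (theta ℚ ^ 8 - 1 : PowerSeries ℚ) := by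
    refine HasSubst.of_constantCoeff_zero' ?_
    rw [map_sub, map_pow, constantCoeff_theta]
    simp
  have h22 : (2 : ℚ) / 2 = 1 := by norm_num
  rw [thetaPow, ppow, h22, binS_one, subst_add hs, subst_X hs]
  have h1 : PowerSeries.subst (theta ℚ ^ 8 - 1) (1 : PowerSeries ℚ) = 1 := by
    rw [← coe_substAlgHom hs, map_one]
  rw [h1]
  ring

theorem e4_col : (PowerSeries.mk fun i ↦ ∑ j ∈ Finset.range (2 * i + 1),
      Mmat (2 : ℚ) i j * PowerSeries.coeff j (1 + C (16 : ℚ) * X)) = 1 + C (256 : ℚ) * X := by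
  have hc : ∀ j, 2 ≤ j → PowerSeries.coeff j (1 + C (16 : ℚ) * X) = 0 := by
    intro j hj
    rw [map_add, PowerSeries.coeff_C_mul, PowerSeries.coeff_X, PowerSeries.coeff_one,
      if_neg (by omega), if_neg (by omega)]
    simp
  have hMz : ∀ (i j : ℕ) (s : ℕ), (i : ℚ) + j - 1 - 2 / 2 = s → s + 1 < 2 * i - j →
      Mmat (2 : ℚ) i j = 0 := by
    intro i j s hs hlt
    have hj : j ≤ 2 * i := by omega
    rw [Mmat, if_pos hj, hs]
    obtain ⟨n, hn⟩ : ∃ n, 2 * i - j = n + 1 := ⟨2 * i - j - 1, by omega⟩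
    rw [hn, add_mul, one_mul, map_add, mul_assoc, PowerSeries.coeff_C_mul,
      PowerSeries.coeff_succ_X_mul, coeff_rescale, coeff_rescale, coeff_binS_nat s (n + 1) (by omega),
      coeff_binS_nat s n (by omega)]
    simp
  ext i
  rw [PowerSeries.coeff_mk]
  rcases i with _ | _ | i
  · simp only [mul_zero, zero_add, Finset.sum_range_one, Mmat, le_refl, if_true]
    rw [Nat.sub_zero, add_mul, one_mul, map_add, mul_assoc, PowerSeries.coeff_C_mul,
      PowerSeries.coeff_zero_X_mul, coeff_rescale, coeff_binS]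
    simp
  · have h0 : Mmat (2 : ℚ) 1 0 = 128 := by
      rw [Mmat, if_pos (by norm_num), add_mul, one_mul, map_add, mul_assoc,
        PowerSeries.coeff_C_mul]
      change PowerSeries.coeff (1 + 1) _ + 8 * PowerSeries.coeff (1 + 1) _ = _
      rw [PowerSeries.coeff_succ_X_mul, coeff_rescale, coeff_rescale, coeff_binS, coeff_binS]
      simp [Finset.prod_range_succ, Nat.factorial]
      norm_num
    have h1 : Mmat (2 : ℚ) 1 1 = 8 := by
      rw [Mmat, if_pos (by norm_num), add_mul, one_mul, map_add, mul_assoc,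
        PowerSeries.coeff_C_mul]
      change PowerSeries.coeff (0 + 1) _ + 8 * PowerSeries.coeff (0 + 1) _ = _
      rw [PowerSeries.coeff_succ_X_mul, coeff_rescale, coeff_rescale, coeff_binS, coeff_binS]
      simp
    have hr : (2 * (0 + 1) + 1) = 3 := rfl
    rw [hr, Finset.sum_range_succ, Finset.sum_range_succ, Finset.sum_range_one, hc 2 le_rfl,
      zero_add, h0, h1]
    simp [PowerSeries.coeff_one]
    norm_num
  · rw [Finset.sum_eq_zero]
    · simp [PowerSeries.coeff_one]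
    · intro j _
      rcases j with _ | _ | j
      · rw [hMz (i + 1 + 1) 0 i (by push_cast; ring) (by omega), zero_mul]
      · rw [hMz (i + 1 + 1) (0 + 1) (i + 1) (by push_cast; ring) (by omega), zero_mul]
      · rw [hc _ (by omega), mul_zero]

theorem e4_subst (c : ℚ) (f : PowerSeries ℚ) (hf : PowerSeries.constantCoeff f = 0) :
    (1 + C c * X).subst f = 1 + C c * f := by
  have hs : HasSubst f := HasSubst.of_constantCoeff_zero' hf
  rw [← coe_substAlgHom hs, map_add, map_mul, map_one, substAlgHom_X hs, coe_substAlgHom hs]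
  congr 2
  have h1 := PowerSeries.subst_C (a := f) (S := ℚ) c
  exact h1

/-- `E_4 = θ^8 (1 + 256 f)`. -/
theorem E4_eq (_hd : hauptmodul 2 ℚ * theta ℚ ^ 24 = X * euler ℚ 1 ^ 24)
    (_ht : PowerSeries.constantCoeff (theta ℚ) = 1) :
    eisQ 4 = theta ℚ ^ 8 * (1 + 256 * hauptmodul 2 ℚ) := by
  have hf0 : PowerSeries.constantCoeff (hauptmodul 2 ℚ) = 0 := by
    rw [hauptmodul, map_mul]
    simp
  have h16 : (C (16 : ℚ) : PowerSeries ℚ) = 16 := by rw [← map_ofNat C 16]
  have h256 : (C (256 : ℚ) : PowerSeries ℚ) = 256 := by rw [← map_ofNat C 256]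
  have h1 := U_thetaPow_subst (e4_hIds ℚ) (2 : ℚ) (1 + C (16 : ℚ) * X)
  rw [e4_subst _ _ hf0, e4_col, e4_subst _ _ hf0, e4_thetaPow_two, h16, h256, ← E4_expand,
    e4_U_expand] at h1
  exact h1

end GH
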