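import Pool.Agent.GH.ClEkB

open PowerSeries Filter Topology

noncomputable section

namespace GH

/-! Eisenstein series of weight divisible by `4` as polynomials in `E_4` and `Δ`. -/

/-- Level one forms of weight `4m`: `E_{4m} = ∑_b c_b E_4^{m-3b} Δ^b` with rational `c_b`,
`Δ = q ∏ (1-q^n)^24`. -/
theorem eisQ_eq_sum (m : ℕ) (hm : 1 ≤ m) : ∃ c : ℕ → ℚ,
    eisQ (4 * m) = ∑ b ∈ Finset.range (m / 3 + 1),
      C (c b) * eisQ 4 ^ (m - 3 * b) * (X * euler ℚ 1 ^ 24) ^ b := by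
  have hk : 3 ≤ 4 * m := by omega
  have hk2 : Even (4 * m) := ⟨2 * m, by ring⟩
  exact c2_main m _ (by push_cast; ring) (ModularForm.E hk) (eisQ (4 * m)) (c2_eis hk hk2)

/-- `E_{4m} = θ^{8m} P(f)`. -/
theorem eisQ_eq_theta (h4 : eisQ 4 = theta ℚ ^ 8 * (1 + 256 * hauptmodul 2 ℚ))
    (hd : hauptmodul 2 ℚ * theta ℚ ^ 24 = X * euler ℚ 1 ^ 24) (m : ℕ) (hm : 1 ≤ m) :
    ∃ P : Polynomial ℚ, eisQ (4 * m) = theta ℚ ^ (8 * m) *
      ∑ i ∈ Finset.range (P.natDegree + 1), C (P.coeff i) * hauptmodul 2 ℚ ^ i := by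
  obtain ⟨c, hc⟩ := eisQ_eq_sum m hm
  obtain ⟨h, hh⟩ : ∃ h : PowerSeries ℚ, h = hauptmodul 2 ℚ := ⟨_, rfl⟩
  obtain ⟨t, ht⟩ : ∃ t : PowerSeries ℚ, t = theta ℚ := ⟨_, rfl⟩
  obtain ⟨P, hP⟩ : ∃ P : Polynomial ℚ, P = ∑ b ∈ Finset.range (m / 3 + 1),
      Polynomial.C (c b) * (1 + Polynomial.C 256 * Polynomial.X) ^ (m - 3 * b) *
        Polynomial.X ^ b := ⟨_, rfl⟩
  refine ⟨P, ?_⟩
  have h1 : ∑ i ∈ Finset.range (P.natDegree + 1), C (P.coeff i) * hauptmodul 2 ℚ ^ i =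
      Polynomial.aeval (hauptmodul 2 ℚ) P := by
    rw [Polynomial.aeval_eq_sum_range]
    refine Finset.sum_congr rfl fun i _ => ?_
    rw [PowerSeries.smul_eq_C_mul]
  rw [h1, hP, map_sum, hc, Finset.mul_sum]
  refine Finset.sum_congr rfl fun b hb => ?_
  rw [Finset.mem_range] at hb
  rw [map_mul, map_mul, map_pow, map_pow, map_add, map_one, map_mul, Polynomial.aeval_X,
    Polynomial.aeval_C, Polynomial.aeval_C, ← hd, h4, ← hh, ← ht]
  have h2 : (algebraMap ℚ (PowerSeries ℚ)) 256 = 256 := map_ofNat _ 256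
  have h3 : (algebraMap ℚ (PowerSeries ℚ)) (c b) = C (c b) := rfl
  rw [h2, h3]
  have h4 : t ^ (8 * m) = (t ^ 8) ^ (m - 3 * b) * (t ^ 24) ^ b := by
    rw [← pow_mul, ← pow_mul, ← pow_add]
    congr 1
    have : 3 * b ≤ m := by omega
    omega
  rw [h4, mul_pow, mul_pow]
  ring

theorem c2_sigma (j n : ℕ) (hn : n ≠ 0) :
    (ArithmeticFunction.sigma j (2 * n) : ℚ) - 2 ^ j * (ArithmeticFunction.sigma j n : ℚ) =
      ∑ d ∈ n.divisors, if Odd d then (d : ℚ) ^ j else 0 := by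
  have h2n : 2 * n ≠ 0 := by omega
  rw [ArithmeticFunction.sigma_apply, ArithmeticFunction.sigma_apply]
  push_cast
  have h1 : ∑ d ∈ (2 * n).divisors, (d : ℚ) ^ j =
      ∑ d ∈ (2 * n).divisors.filter (fun d => Odd d), (d : ℚ) ^ j +
        ∑ d ∈ (2 * n).divisors.filter (fun d => ¬ Odd d), (d : ℚ) ^ j :=
    (Finset.sum_filter_add_sum_filter_not _ _ _).symm
  have h3 : (2 * n).divisors.filter (fun d => Odd d) = n.divisors.filter (fun d => Odd d) := by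
    ext d
    simp only [Finset.mem_filter, Nat.mem_divisors]
    constructor
    · rintro ⟨⟨h, _⟩, hd⟩
      exact ⟨⟨(Nat.Coprime.dvd_mul_left (Nat.coprime_two_right.2 hd)).1 h, hn⟩, hd⟩
    · rintro ⟨⟨h, _⟩, hd⟩
      exact ⟨⟨Dvd.dvd.mul_left h 2, h2n⟩, hd⟩
  have h4 : (2 * n).divisors.filter (fun d => ¬ Odd d) = n.divisors.image (fun d => 2 * d) := by
    ext d
    simp only [Finset.mem_filter, Nat.mem_divisors, Finset.mem_image]
    constructor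
    · rintro ⟨⟨h, _⟩, hd⟩
      obtain ⟨e, rfl⟩ := (Nat.not_odd_iff_even.1 hd).two_dvd
      exact ⟨e, ⟨Nat.dvd_of_mul_dvd_mul_left (by norm_num) h, hn⟩, rfl⟩
    · rintro ⟨e, ⟨h, _⟩, rfl⟩
      exact ⟨⟨Nat.mul_dvd_mul_left 2 h, h2n⟩, by simp⟩
  rw [h1, h3, h4, Finset.sum_image (fun a _ b _ hab => by
    have : 2 * a = 2 * b := hab
    omega)]
  rw [Finset.mul_sum, Finset.sum_filter]
  have h5 : ∑ d ∈ n.divisors, (((2 * d : ℕ)) : ℚ) ^ j = ∑ d ∈ n.divisors, 2 ^ j * (d : ℚ) ^ j := by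
    refine Finset.sum_congr rfl fun d _ => ?_
    push_cast
    rw [mul_pow]
  rw [h5]
  ring

/-- The 2-stabilisation: `E_k^{(2)} = (U_2 E_k - 2^{k-1} E_k)/(1 - 2^{k-1})`. -/
theorem eisStab_eq (k : ℕ) (hk : 2 ≤ k) :
    C ((1 : ℚ) - 2 ^ (k - 1)) * eisStab k = U 2 (eisQ k) - C ((2 : ℚ) ^ (k - 1)) * eisQ k := by
  have hne : (1 : ℚ) - 2 ^ (k - 1) ≠ 0 := by
    have h1 : (1 : ℚ) < 2 ^ (k - 1) := one_lt_pow₀ (by norm_num) (by omega)
    linarith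
  ext n
  rw [map_sub (PowerSeries.coeff n), PowerSeries.coeff_C_mul, PowerSeries.coeff_C_mul]
  unfold U
  rw [PowerSeries.coeff_mk]
  unfold eisStab eisQ
  rw [map_add, map_add, map_add, PowerSeries.coeff_mk, PowerSeries.coeff_mk,
    PowerSeries.coeff_mk, PowerSeries.coeff_one, PowerSeries.coeff_one]
  by_cases hn : n = 0
  · subst hn
    simp
  · rw [if_neg hn, if_neg (by omega)]
    have h1 := c2_sigma (k - 1) n hn
    rw [← h1]
    have h2 : (1 - 2 ^ (k - 1) : ℚ) * (2 * k / ((1 - 2 ^ (k - 1)) * bernoulli k)) =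
        2 * k / bernoulli k := by
      rw [mul_div_assoc', mul_div_mul_left _ _ hne]
    linear_combination (-(ArithmeticFunction.sigma (k - 1) (2 * n) : ℚ) +
      2 ^ (k - 1) * (ArithmeticFunction.sigma (k - 1) n : ℚ)) * h2

end GH
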