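import Pool.Agent.GH.Base
import Pool.Agent.GH.FExp
import Pool.Agent.GH.Param

open PowerSeries Filter Topology

noncomputable section

namespace GH

/-! The stabilised Eisenstein series of weight `4m` is `θ^{8m}` times an overconvergent function. -/

lemma cs_prod_eq {K : Type*} [Field K] (m n : ℕ) :
    ∏ i ∈ Finset.range n, ((m : K) - i) = (m.descFactorial n : K) := by
  induction n with
  | zero => simp
  | succ n ih =>
    rw [Finset.prod_range_succ, ih, Nat.descFactorial_succ, Nat.cast_mul]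
    rcases le_or_gt n m with h | h
    · rw [Nat.cast_sub h, mul_comm]
    · rw [Nat.descFactorial_of_lt h]
      simp

lemma cs_binS {K : Type*} [Field K] [CharZero K] (m : ℕ) :
    binS (m : K) = (1 + X : PowerSeries K) ^ m := by
  have h : ((1 + X : PowerSeries K)) ^ m =
      (((1 + Polynomial.X) ^ m : Polynomial K) : PowerSeries K) := by
    rw [Polynomial.coe_pow, Polynomial.coe_add, Polynomial.coe_one, Polynomial.coe_X]
  rw [h]
  ext n
  rw [Polynomial.coeff_coe, Polynomial.coeff_one_add_X_pow]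
  unfold binS
  rw [PowerSeries.coeff_mk, cs_prod_eq, Nat.choose_eq_descFactorial_div_factorial,
    Nat.cast_div (Nat.factorial_dvd_descFactorial m n) (Nat.cast_ne_zero.2 n.factorial_ne_zero)]

lemma cs_theta0 (R : Type*) [CommRing R] : PowerSeries.constantCoeff (theta R) = 1 := by
  rw [← PowerSeries.coeff_zero_eq_constantCoeff_apply]
  unfold theta
  rw [PowerSeries.coeff_mk]
  simp

lemma cs_thetaPow {K : Type*} [Field K] [CharZero K] (m : ℕ) :
    thetaPow ((2 * m : ℕ) : K) = theta K ^ (8 * m) := by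
  have hs : HasSubst (theta K ^ 8 - 1) := by
    apply HasSubst.of_constantCoeff_zero'
    rw [map_sub, map_pow, cs_theta0]
    simp
  have h2 : (((2 * m : ℕ) : K)) / 2 = m := by
    push_cast
    field_simp
  unfold thetaPow ppow
  rw [h2, cs_binS, PowerSeries.subst_pow hs, PowerSeries.subst_add hs, PowerSeries.subst_X hs]
  have h1 : (1 : PowerSeries K).subst (theta K ^ 8 - 1) = 1 := by
    rw [← PowerSeries.coe_substAlgHom hs, map_one]
  rw [h1, pow_mul]
  congr 1
  ring

lemma cs_map_theta {R S : Type*} [CommRing R] [CommRing S] (φ : R →+* S) :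
    PowerSeries.map φ (theta R) = theta S := by
  ext n
  rw [PowerSeries.coeff_map]
  unfold theta
  rw [PowerSeries.coeff_mk, PowerSeries.coeff_mk]
  split_ifs <;> simp [map_ofNat]

lemma cs_map_U {R S : Type*} [CommRing R] [CommRing S] (φ : R →+* S) (F : PowerSeries R) :
    PowerSeries.map φ (U 2 F) = U 2 (PowerSeries.map φ F) := by
  ext n
  rw [PowerSeries.coeff_map]
  unfold U
  rw [PowerSeries.coeff_mk, PowerSeries.coeff_mk, PowerSeries.coeff_map]

/-- polynomials in `f` -/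
lemma cs_poly (P : Polynomial ℚ) :
    PowerSeries.map (algebraMap ℚ C2)
      (∑ i ∈ Finset.range (P.natDegree + 1), C (P.coeff i) * hauptmodul 2 ℚ ^ i) =
      (((P.map (algebraMap ℚ C2) : Polynomial C2) : PowerSeries C2)).subst
        (hauptmodul 2 C2) := by
  rw [PowerSeries.subst_coe (fx_hasSubst 2), Polynomial.aeval_def,
    Polynomial.eval₂_eq_sum_range' _ (n := P.natDegree + 1)
      (Nat.lt_succ_of_le (Polynomial.natDegree_map_le)), map_sum]
  refine Finset.sum_congr rfl fun i _ => ?_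
  rw [map_mul, map_pow, map_hauptmodul, PowerSeries.map_C, Polynomial.coeff_map]
  rfl

/-- Inputs: `ClEk`, `UMat`, `UBound`. -/
theorem exists_stab
    (hE : ∀ m : ℕ, 1 ≤ m → ∃ P : Polynomial ℚ, eisQ (4 * m) = theta ℚ ^ (8 * m) *
      ∑ i ∈ Finset.range (P.natDegree + 1), C (P.coeff i) * hauptmodul 2 ℚ ^ i)
    (hS : ∀ k : ℕ, 2 ≤ k → C ((1 : ℚ) - 2 ^ (k - 1)) * eisStab k =
      U 2 (eisQ k) - C ((2 : ℚ) ^ (k - 1)) * eisQ k)
    (hU : ∀ (x : C2) (u : PowerSeries C2), U 2 (thetaPow x * u.subst (hauptmodul 2 C2)) =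
      thetaPow x * (PowerSeries.mk fun i ↦
        ∑ j ∈ Finset.range (2 * i + 1), Mmat x i j * PowerSeries.coeff j u).subst
        (hauptmodul 2 C2))
    (hB : ∀ x : C2, ‖x‖ ≤ 1 → ∀ i j : ℕ, j ≤ 2 * i →
      ‖Mmat x i j‖ ≤ (4 : ℝ)⁻¹ ^ (2 * i - j))
    (m : ℕ) (hm : 1 ≤ m) :
    ∃ u : PowerSeries C2, PowerSeries.coeff 0 u = 1 ∧
      (∃ B : ℝ, ∀ n, ‖PowerSeries.coeff n u‖ * (9 / 4 : ℝ) ^ n ≤ B) ∧
      PowerSeries.map (algebraMap ℚ C2) (eisStab (4 * m)) =
        thetaPow ((2 * m : ℕ) : C2) * u.subst (hauptmodul 2 C2) := by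
  obtain ⟨P, hP⟩ := hE m hm
  have hS1 := congrArg (PowerSeries.map (algebraMap ℚ C2)) (hS (4 * m) (by omega))
  have hs : HasSubst (hauptmodul 2 C2) := fx_hasSubst 2
  set Q : Polynomial C2 := P.map (algebraMap ℚ C2) with hQ
  set x : C2 := ((2 * m : ℕ) : C2) with hx
  -- the Eisenstein series over `ℂ_2`
  have hE1 : PowerSeries.map (algebraMap ℚ C2) (eisQ (4 * m)) =
      thetaPow x * (Q : PowerSeries C2).subst (hauptmodul 2 C2) := by
    rw [hP, map_mul, map_pow, cs_map_theta, cs_poly, cs_thetaPow]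
  have hne : (1 : C2) - 2 ^ (4 * m - 1) ≠ 0 := by
    intro h0
    have h1 : (1 : C2) = 2 ^ (4 * m - 1) := sub_eq_zero.1 h0
    have h2 : (((1 : ℕ)) : C2) = ((2 ^ (4 * m - 1) : ℕ) : C2) := by push_cast; exact h1
    have h3 : 1 = 2 ^ (4 * m - 1) := Nat.cast_injective h2
    have h4 : 2 ^ 1 ≤ 2 ^ (4 * m - 1) := Nat.pow_le_pow_right (by norm_num) (by omega)
    omega
  set c : C2 := (1 : C2) - 2 ^ (4 * m - 1) with hc
  set d : C2 := (2 : C2) ^ (4 * m - 1) with hd
  set v : PowerSeries C2 := PowerSeries.mk fun i ↦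
        ∑ j ∈ Finset.range (2 * i + 1), Mmat x i j * PowerSeries.coeff j (Q : PowerSeries C2)
    with hv
  have hcc : algebraMap ℚ C2 ((1 : ℚ) - 2 ^ (4 * m - 1)) = c := by
    rw [hc, hd]; simp
  have hdd : algebraMap ℚ C2 ((2 : ℚ) ^ (4 * m - 1)) = d := by
    rw [hd]; simp
  rw [map_mul, PowerSeries.map_C, hcc, map_sub (PowerSeries.map (algebraMap ℚ C2)), cs_map_U,
    map_mul (PowerSeries.map (algebraMap ℚ C2)), hE1, hU, PowerSeries.map_C, hdd, ← hv] at hS1
  set u : PowerSeries C2 := C c⁻¹ * (v - C d * (Q : PowerSeries C2)) with hu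
  have hCs : ∀ a : C2, ∀ w : PowerSeries C2,
      (C a * w).subst (hauptmodul 2 C2) = C a * w.subst (hauptmodul 2 C2) := by
    intro a w
    rw [PowerSeries.subst_mul hs]
    congr 1
    exact PowerSeries.subst_C a
  have heq : PowerSeries.map (algebraMap ℚ C2) (eisStab (4 * m)) =
        thetaPow x * u.subst (hauptmodul 2 C2) := by
    rw [hu, hCs, PowerSeries.subst_sub hs, hCs]
    have h1 : (C c⁻¹ : PowerSeries C2) * C c = 1 := by
      rw [← map_mul, inv_mul_cancel₀ hne, map_one]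
    calc PowerSeries.map (algebraMap ℚ C2) (eisStab (4 * m))
        = (C c⁻¹ * C c) * PowerSeries.map (algebraMap ℚ C2) (eisStab (4 * m)) := by
          rw [h1, one_mul]
      _ = C c⁻¹ * (C c * PowerSeries.map (algebraMap ℚ C2) (eisStab (4 * m))) := by ring
      _ = _ := by rw [hS1]; ring
  refine ⟨u, ?_, ?_, heq⟩
  · -- the constant coefficient
    have h1 := congrArg (PowerSeries.constantCoeff) heq
    rw [hx, cs_thetaPow, map_mul, map_pow, cs_theta0, one_pow, one_mul,
      ← PowerSeries.coeff_zero_eq_constantCoeff_apply,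
      ← PowerSeries.coeff_zero_eq_constantCoeff_apply, fx_coeff_subst, PowerSeries.coeff_map,
      Finset.sum_range_zero, zero_add] at h1
    rw [← h1]
    unfold eisStab
    rw [map_add, PowerSeries.coeff_mk]
    simp
  · -- the bound
    obtain ⟨A, hA⟩ : ∃ A : ℝ, A = ∑ j ∈ Finset.range (P.natDegree + 1), ‖Q.coeff j‖ := ⟨_, rfl⟩
    have hA0 : 0 ≤ A := hA ▸ Finset.sum_nonneg fun j _ => norm_nonneg _
    have hQz : ∀ j, P.natDegree < j → Q.coeff j = 0 := by
      intro j hj
      rw [hQ, Polynomial.coeff_map, Polynomial.coeff_eq_zero_of_natDegree_lt hj, map_zero]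
    have hQA : ∀ j, ‖Q.coeff j‖ ≤ A := by
      intro j
      by_cases hj : j ≤ P.natDegree
      · rw [hA]
        exact Finset.single_le_sum (f := fun j => ‖Q.coeff j‖) (fun j _ => norm_nonneg _)
          (Finset.mem_range.2 (Nat.lt_succ_of_le hj))
      · rw [hQz j (by omega), norm_zero]
        exact hA0
    have hx1 : ‖x‖ ≤ 1 := by
      rw [hx]
      exact IsUltrametricDist.norm_natCast_le_one C2 _
    have hd1 : ‖d‖ ≤ 1 := by
      rw [hd, norm_pow, pm_norm_two]
      exact pow_le_one₀ (by norm_num) (by norm_num)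
    have hv1 : ∀ n, ‖PowerSeries.coeff n v‖ * (9 / 4 : ℝ) ^ n ≤ 4 ^ P.natDegree * A := by
      intro n
      have h1 : ‖PowerSeries.coeff n v‖ ≤ (16 : ℝ)⁻¹ ^ n * (4 ^ P.natDegree * A) := by
        rw [hv, PowerSeries.coeff_mk]
        refine (IsUltrametricDist.norm_sum_le_of_forall_le_of_nonneg (by positivity)
          fun j hj => ?_)
        rw [Polynomial.coeff_coe, norm_mul]
        by_cases hjP : j ≤ P.natDegree
        · have hj2 : j ≤ 2 * n := by
            have := Finset.mem_range.1 hj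
            omega
          have h2 : (4 : ℝ)⁻¹ ^ (2 * n - j) ≤ (16 : ℝ)⁻¹ ^ n * 4 ^ P.natDegree := by
            have h3 : (4 : ℝ)⁻¹ ^ (2 * n - j) = (16 : ℝ)⁻¹ ^ n * 4 ^ j := by
              have h4 : (4 : ℝ)⁻¹ ^ (2 * n - j) * 4⁻¹ ^ j = (16 : ℝ)⁻¹ ^ n := by
                rw [← pow_add, Nat.sub_add_cancel hj2, pow_mul]
                norm_num
              rw [← h4, mul_assoc, ← mul_pow]
              norm_num
            rw [h3]
            exact mul_le_mul_of_nonneg_left (pow_le_pow_right₀ (by norm_num) hjP) (by positivity)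
          calc ‖Mmat x n j‖ * ‖Q.coeff j‖
              ≤ ((16 : ℝ)⁻¹ ^ n * 4 ^ P.natDegree) * A :=
                mul_le_mul ((hB x hx1 n j hj2).trans h2) (hQA j) (norm_nonneg _) (by positivity)
            _ = _ := by ring
        · rw [hQz j (by omega), norm_zero, mul_zero]
          positivity
      calc ‖PowerSeries.coeff n v‖ * (9 / 4 : ℝ) ^ n
          ≤ ((16 : ℝ)⁻¹ ^ n * (4 ^ P.natDegree * A)) * (9 / 4 : ℝ) ^ n :=
            mul_le_mul_of_nonneg_right h1 (by positivity)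
        _ = ((16 : ℝ)⁻¹ * (9 / 4)) ^ n * (4 ^ P.natDegree * A) := by rw [mul_pow]; ring
        _ ≤ 1 * (4 ^ P.natDegree * A) :=
            mul_le_mul_of_nonneg_right (pow_le_one₀ (by norm_num) (by norm_num)) (by positivity)
        _ = _ := one_mul _
    have hq1 : ∀ n, ‖Q.coeff n‖ * (9 / 4 : ℝ) ^ n ≤ (9 / 4) ^ P.natDegree * A := by
      intro n
      by_cases hn : n ≤ P.natDegree
      · rw [mul_comm]
        exact mul_le_mul (pow_le_pow_right₀ (by norm_num) hn) (hQA n) (norm_nonneg _)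
          (by positivity)
      · rw [hQz n (by omega), norm_zero, zero_mul]
        positivity
    refine ⟨‖c⁻¹‖ * (4 ^ P.natDegree * A + (9 / 4) ^ P.natDegree * A), fun n => ?_⟩
    have h1 : PowerSeries.coeff n u = c⁻¹ * (PowerSeries.coeff n v - d * Q.coeff n) := by
      rw [hu, PowerSeries.coeff_C_mul, map_sub, PowerSeries.coeff_C_mul, Polynomial.coeff_coe]
    rw [h1, norm_mul, mul_assoc]
    refine mul_le_mul_of_nonneg_left ?_ (norm_nonneg _)
    have h2 : ‖PowerSeries.coeff n v - d * Q.coeff n‖ ≤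
        ‖PowerSeries.coeff n v‖ + ‖Q.coeff n‖ := by
      refine (norm_sub_le _ _).trans (add_le_add le_rfl ?_)
      rw [norm_mul]
      calc ‖d‖ * ‖Q.coeff n‖ ≤ 1 * ‖Q.coeff n‖ := mul_le_mul_of_nonneg_right hd1 (norm_nonneg _)
        _ = _ := one_mul _
    calc ‖PowerSeries.coeff n v - d * Q.coeff n‖ * (9 / 4 : ℝ) ^ n
        ≤ (‖PowerSeries.coeff n v‖ + ‖Q.coeff n‖) * (9 / 4 : ℝ) ^ n :=
          mul_le_mul_of_nonneg_right h2 (by positivity)
      _ = ‖PowerSeries.coeff n v‖ * (9 / 4 : ℝ) ^ n + ‖Q.coeff n‖ * (9 / 4 : ℝ) ^ n := by ring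
      _ ≤ _ := add_le_add (hv1 n) (hq1 n)

end GH
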