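import Pool.Agent.GH.TateBase

open PowerSeries Filter Topology

noncomputable section

namespace GH

/-! Uniform limits of polynomials on the closed unit ball of `ℂ_2`. The closure properties
`IsTate.add`, `IsTate.sub`, `IsTate.mul`, `IsTate.sum`, `IsTate.congr`, `IsTate.pow`,
`IsTate.prod`, `IsTate.comp`, `IsTate.tsum` are in `TateBase` (for any field). -/

theorem isTate_eval (P : Polynomial C2) : IsTate fun x ↦ P.eval x := IsTate.poly P

theorem IsTate.of_approx {φ : C2 → C2}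
    (h : ∀ ε > 0, ∃ ψ : C2 → C2, IsTate ψ ∧ ∀ x : C2, ‖x‖ ≤ 1 → ‖φ x - ψ x‖ ≤ ε) :
    IsTate φ := IsTate.of_unif h

/-- A Tate function is given by a power series with coefficients tending to zero. -/
theorem IsTate.exists_series {φ : C2 → C2} (h : IsTate φ) : ∃ c : ℕ → C2,
    Tendsto c atTop (𝓝 0) ∧ ∀ x : C2, ‖x‖ ≤ 1 → HasSum (fun n ↦ c n * x ^ n) (φ x) := by
  obtain ⟨a, ha, h1, -⟩ := h.exists_powerSeries
  refine ⟨a, ha, fun x hx => ?_⟩
  rw [h1 x hx]
  exact (summable_pow ha hx).hasSum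

/-- Identity theorem: infinitely many zeros in the closed unit ball. -/
theorem IsTate.eq_zero {φ : C2 → C2} (h : IsTate φ) {S : Set C2} (hS : S.Infinite)
    (h1 : ∀ x ∈ S, ‖x‖ ≤ 1) (h2 : ∀ x ∈ S, φ x = 0) : ∀ x : C2, ‖x‖ ≤ 1 → φ x = 0 :=
  fun _ hx => h.eq_zero_of_infinite (hS.mono fun y hy => ⟨h1 y hy, h2 y hy⟩) hx

end GH
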