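import Pool.Agent.GH.Base
import Pool.Agent.GH.Tate
import Pool.Agent.GH.Param
import Pool.Agent.GH.FExp
import Pool.Agent.GH.UMatB
import Pool.Agent.GH.UBound
import Pool.Agent.GH.ClEk
import Pool.Agent.GH.ClE4
import Pool.Agent.GH.ClStab

open PowerSeries Filter Topology

noncomputable section

namespace GH

/-! On the central disc `E_κ = θ^{4x} u_x(f)`. -/

/-- The output of `Ord`. -/
structure OrdVec (u : ℕ → C2 → C2) : Prop where
  eqs : ∀ x : C2, ‖x‖ ≤ 1 → u 0 x = 1 ∧ (∀ n, ‖u n x‖ * (9 / 4 : ℝ) ^ n ≤ 1) ∧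
        ∀ i, u i x = ∑ j ∈ Finset.range (2 * i + 1), Mmat x i j * u j x
  tate : ∀ n, IsTate (u n)
  uniq : ∀ x : C2, ‖x‖ ≤ 1 → ∀ v : ℕ → C2, v 0 = 1 →
        (∃ B : ℝ, ∀ n, ‖v n‖ * (9 / 4 : ℝ) ^ n ≤ B) →
        (∀ i, v i = ∑ j ∈ Finset.range (2 * i + 1), Mmat x i j * v j) →
        ∀ n, v n = u n x

/-- The output of `EisFam`. -/
structure EisFamily (E : PowerSeries Lam) : Prop where
  c0 : PowerSeries.coeff 0 E = 1
  dvd : ∀ n, 1 ≤ n → X ∣ PowerSeries.coeff n E
  eig : U 2 E = E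
  eis : ∀ κ : Weight 2, κ.IsEven → κ.eis = evS κ.w E
  cls : ∀ m : ℕ, 1 ≤ m → evS (25 ^ (2 * m) - 1) E =
      PowerSeries.map (algebraMap ℚ C2) (eisStab (4 * m))

/-! ### helper lemmas `gl_...` -/

theorem gl_U_evS (w : C2) (E : PowerSeries Lam) : U 2 (evS w E) = evS w (U 2 E) := by
  ext n
  unfold U evS
  rw [PowerSeries.coeff_mk, PowerSeries.coeff_mk, PowerSeries.coeff_mk, PowerSeries.coeff_mk]

theorem gl_U_thetaPow (x : C2) (u : PowerSeries C2) :
    U 2 (thetaPow x * u.subst (hauptmodul 2 C2)) =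
      thetaPow x * (PowerSeries.mk fun i ↦
        ∑ j ∈ Finset.range (2 * i + 1), Mmat x i j * PowerSeries.coeff j u).subst
        (hauptmodul 2 C2) := U_thetaPow_subst (e4_hIds C2) x u

theorem gl_exists_stab (m : ℕ) (hm : 1 ≤ m) :
    ∃ u : PowerSeries C2, PowerSeries.coeff 0 u = 1 ∧
      (∃ B : ℝ, ∀ n, ‖PowerSeries.coeff n u‖ * (9 / 4 : ℝ) ^ n ≤ B) ∧
      PowerSeries.map (algebraMap ℚ C2) (eisStab (4 * m)) =
        thetaPow ((2 * m : ℕ) : C2) * u.subst (hauptmodul 2 C2) := by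
  have hd : hauptmodul 2 ℚ * theta ℚ ^ 24 = X * euler ℚ 1 ^ 24 := hauptmodul_mul_theta e4_qIds
  exact exists_stab (fun m hm => eisQ_eq_theta (E4_eq hd (constantCoeff_theta ℚ)) hd m hm)
    eisStab_eq gl_U_thetaPow (fun x hx i j h => norm_Mmat_le hx h) m hm

/-- The identity at the classical weights. -/
theorem gl_nat (E : PowerSeries Lam) (hE : EisFamily E) (u : ℕ → C2 → C2) (hu : OrdVec u)
    (m : ℕ) (hm : 1 ≤ m) :
    evS (wx ((2 * m : ℕ) : C2)) E = thetaPow ((2 * m : ℕ) : C2) *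
      (PowerSeries.mk fun n ↦ u n ((2 * m : ℕ) : C2)).subst (hauptmodul 2 C2) := by
  obtain ⟨v, hv0, hvB, hv⟩ := gl_exists_stab m hm
  obtain ⟨x, hx⟩ : ∃ x : C2, x = ((2 * m : ℕ) : C2) := ⟨_, rfl⟩
  have hx1 : ‖x‖ ≤ 1 := by
    rw [hx]
    exact IsUltrametricDist.norm_natCast_le_one C2 _
  have h1 : evS (wx x) E = thetaPow x * v.subst (hauptmodul 2 C2) := by
    rw [hx, wx_natCast, hE.cls m hm, hv]
  have h2 : U 2 (evS (wx x) E) = evS (wx x) E := by rw [gl_U_evS, hE.eig]
  rw [h1, gl_U_thetaPow] at h2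
  have h0 : thetaPow x ≠ 0 := by
    rw [hx, cs_thetaPow]
    intro h
    have h3 := congrArg PowerSeries.constantCoeff h
    rw [map_pow, cs_theta0, one_pow, map_zero] at h3
    exact one_ne_zero h3
  have h3 := mul_left_cancel₀ h0 h2
  have h4 : ∀ i, PowerSeries.coeff i v = ∑ j ∈ Finset.range (2 * i + 1),
      Mmat x i j * PowerSeries.coeff j v := by
    intro i
    have h5 := congrArg (fun F => fcoeff 2 F i) h3
    simp only [fcoeff_subst, PowerSeries.coeff_mk] at h5
    exact h5.symm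
  have h5 : v = PowerSeries.mk fun n ↦ u n x := by
    ext n
    rw [PowerSeries.coeff_mk]
    exact hu.uniq x hx1 (fun n => PowerSeries.coeff n v) hv0 hvB h4 n
  rw [← hx, h1, ← h5]

theorem gl_tate_binS (m : ℕ) : IsTate fun x : C2 ↦ PowerSeries.coeff m (binS (x / 2)) := by
  have h : (fun x : C2 ↦ PowerSeries.coeff m (binS (x / 2))) =
      fun x : C2 ↦ (∏ i ∈ Finset.range m, (x * 2⁻¹ - (i : C2))) * ((m.factorial : C2))⁻¹ := by
    funext x
    unfold binS
    rw [PowerSeries.coeff_mk, div_eq_mul_inv, div_eq_mul_inv]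
  rw [h]
  refine IsTate.mul (IsTate.prod _ fun i _ => ?_) (IsTate.const _)
  exact IsTate.sub (IsTate.mul IsTate.id (IsTate.const _)) (IsTate.const _)

theorem gl_coeff_thetaPow (x : C2) (n : ℕ) : PowerSeries.coeff n (thetaPow x) =
    ∑ m ∈ Finset.range (n + 1), PowerSeries.coeff m (binS (x / 2)) *
      PowerSeries.coeff n ((theta C2 ^ 8 - 1) ^ m) := by
  have h0 : PowerSeries.constantCoeff (theta C2 ^ 8 - 1) = 0 := by
    rw [map_sub, map_pow, cs_theta0]
    simp
  have hs : HasSubst (theta C2 ^ 8 - 1) := HasSubst.of_constantCoeff_zero' h0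
  unfold thetaPow ppow
  rw [PowerSeries.coeff_subst' hs, finsum_eq_sum_of_support_subset (s := Finset.range (n + 1))]
  · exact Finset.sum_congr rfl fun m _ => by rw [smul_eq_mul]
  · intro m hm
    rw [Function.mem_support] at hm
    rw [Finset.coe_range, Set.mem_Iio]
    by_contra h
    refine hm ?_
    have h1 : (X : PowerSeries C2) ^ m ∣ (theta C2 ^ 8 - 1) ^ m :=
      pow_dvd_pow_of_dvd (PowerSeries.X_dvd_iff.2 h0) m
    rw [PowerSeries.X_pow_dvd_iff.1 h1 n (by omega), smul_zero]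

theorem gl_tate_thetaPow (n : ℕ) : IsTate fun x : C2 ↦ PowerSeries.coeff n (thetaPow x) := by
  have h : (fun x : C2 ↦ PowerSeries.coeff n (thetaPow x)) = fun x ↦
    ∑ m ∈ Finset.range (n + 1), PowerSeries.coeff m (binS (x / 2)) *
      PowerSeries.coeff n ((theta C2 ^ 8 - 1) ^ m) := by
    funext x
    exact gl_coeff_thetaPow x n
  rw [h]
  exact IsTate.sum _ fun m _ => IsTate.mul (gl_tate_binS m) (IsTate.const _)

theorem gl_tate_subst (u : ℕ → C2 → C2) (hu : ∀ n, IsTate (u n)) (n : ℕ) :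
    IsTate fun x : C2 ↦ PowerSeries.coeff n
      ((PowerSeries.mk fun n ↦ u n x).subst (hauptmodul 2 C2) : PowerSeries C2) := by
  have h : (fun x : C2 ↦ PowerSeries.coeff n
      ((PowerSeries.mk fun n ↦ u n x).subst (hauptmodul 2 C2) : PowerSeries C2)) = fun x ↦
      (∑ m ∈ Finset.range n, u m x * PowerSeries.coeff n (hauptmodul 2 C2 ^ m)) + u n x := by
    funext x
    rw [fx_coeff_subst]
    simp only [PowerSeries.coeff_mk]
  rw [h]
  exact IsTate.add (IsTate.sum _ fun m _ => IsTate.mul (hu m) (IsTate.const _)) (hu n)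

/-- Uses `Tate`, `Param`, `ClStab`, `UMat`, `FExp`. -/
theorem evS_eisFam (E : PowerSeries Lam) (hE : EisFamily E) (u : ℕ → C2 → C2) (hu : OrdVec u)
    (x : C2) (hx : ‖x‖ ≤ 1) :
    evS (wx x) E = thetaPow x * (PowerSeries.mk fun n ↦ u n x).subst (hauptmodul 2 C2) := by
  ext n
  have hT : IsTate fun x : C2 ↦ PowerSeries.coeff n (evS (wx x) E) -
      PowerSeries.coeff n (thetaPow x *
        (PowerSeries.mk fun n ↦ u n x).subst (hauptmodul 2 C2)) := by
    refine IsTate.sub ?_ ?_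
    · have h : (fun x : C2 ↦ PowerSeries.coeff n (evS (wx x) E)) =
          fun x ↦ ev (wx x) (PowerSeries.coeff n E) := by
        funext x
        unfold evS
        rw [PowerSeries.coeff_mk]
      rw [h]
      exact isTate_ev_wx _
    · have h : (fun x : C2 ↦ PowerSeries.coeff n (thetaPow x *
          (PowerSeries.mk fun n ↦ u n x).subst (hauptmodul 2 C2))) = fun x ↦
          ∑ p ∈ Finset.HasAntidiagonal.antidiagonal n, PowerSeries.coeff p.1 (thetaPow x) *
            PowerSeries.coeff p.2 ((PowerSeries.mk fun n ↦ u n x).subst (hauptmodul 2 C2) :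
              PowerSeries C2) := by
        funext x
        rw [PowerSeries.coeff_mul]
      rw [h]
      exact IsTate.sum _ fun p _ =>
        IsTate.mul (gl_tate_thetaPow p.1) (gl_tate_subst u hu.tate p.2)
  have hS : (Set.range fun m : ℕ => ((2 * (m + 1) : ℕ) : C2)).Infinite := by
    refine Set.infinite_range_of_injective fun a b hab => ?_
    have h : 2 * (a + 1) = 2 * (b + 1) := Nat.cast_injective hab
    omega
  have h := hT.eq_zero hS
    (by
      rintro _ ⟨m, rfl⟩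
      exact IsUltrametricDist.norm_natCast_le_one C2 _)
    (by
      rintro _ ⟨m, rfl⟩
      have h1 := gl_nat E hE u hu (m + 1) (by omega)
      simp only []
      rw [h1, sub_self]) x hx
  exact sub_eq_zero.1 h

end GH
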