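import Pool.Agent.GH.Tate

open PowerSeries Filter Topology

noncomputable section

namespace GH

/-! The ordinary eigenvector of `U_2` of weight `2x`, analytic in `x`. -/

/-! ### Helper lemmas (prefix `od_`) -/

/-- The terms of the Neumann series. -/
def odd' (M : ℕ → ℕ → C2) : ℕ → ℕ → C2
  | 0, i => if i = 0 then 0 else M i 0
  | k + 1, i => ∑ j ∈ Finset.range (2 * i + 1), M i j * odd' M k j

/-- The entries of the matrix multiply the weights by at most `4/9`. -/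
theorem od_entry (M : ℕ → ℕ → C2)
    (hle : ∀ i j : ℕ, j ≤ 2 * i → ‖M i j‖ ≤ (4 : ℝ)⁻¹ ^ (2 * i - j))
    (hlt : ∀ i j : ℕ, j < 2 * i → ‖M i j‖ ≤ 2⁻¹ * (4 : ℝ)⁻¹ ^ (2 * i - j))
    {i j : ℕ} (hj : 1 ≤ j) (hij : j ≤ 2 * i) :
    ‖M i j‖ * (4 / 9 : ℝ) ^ j ≤ 4 / 9 * (4 / 9 : ℝ) ^ i := by
  obtain ⟨n, hn⟩ := Nat.exists_eq_add_of_le hij
  have h2 : (4 / 9 : ℝ) = (2 / 3) ^ 2 := by norm_num
  have h3 : (4 / 9 : ℝ) ^ i = (2 / 3 : ℝ) ^ (j + n) := by rw [h2, ← pow_mul, hn]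
  have h4 : (4 / 9 : ℝ) ^ j = (2 / 3 : ℝ) ^ j * (2 / 3 : ℝ) ^ j := by
    rw [h2, ← pow_mul, two_mul, pow_add]
  rw [h3, h4, pow_add]
  have hj0 : (0 : ℝ) ≤ (2 / 3 : ℝ) ^ j := by positivity
  have key : ‖M i j‖ * (2 / 3 : ℝ) ^ j ≤ 4 / 9 * (2 / 3 : ℝ) ^ n := by
    rcases Nat.eq_zero_or_pos n with h0 | h0
    · subst h0
      have h5 : ‖M i j‖ ≤ 1 := by
        have := hle i j hij
        rwa [show 2 * i - j = 0 by omega, pow_zero] at this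
      have h6 : 2 ≤ j := by omega
      calc ‖M i j‖ * (2 / 3 : ℝ) ^ j ≤ 1 * (2 / 3 : ℝ) ^ 2 :=
            mul_le_mul h5 (pow_le_pow_of_le_one (by norm_num) (by norm_num) h6) hj0 one_pos.le
        _ = 4 / 9 * (2 / 3 : ℝ) ^ 0 := by norm_num
    · have h5 : ‖M i j‖ ≤ 2⁻¹ * (4 : ℝ)⁻¹ ^ n := by
        have := hlt i j (by omega)
        rwa [show 2 * i - j = n by omega] at this
      have h6 : (4 : ℝ)⁻¹ ^ n ≤ (2 / 3 : ℝ) ^ n := pow_le_pow_left₀ (by norm_num) (by norm_num) n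
      have h7 : (2 / 3 : ℝ) ^ j ≤ 2 / 3 := by
        calc (2 / 3 : ℝ) ^ j ≤ (2 / 3 : ℝ) ^ 1 :=
              pow_le_pow_of_le_one (by norm_num) (by norm_num) hj
          _ = 2 / 3 := pow_one _
      calc ‖M i j‖ * (2 / 3 : ℝ) ^ j ≤ (2⁻¹ * (2 / 3 : ℝ) ^ n) * (2 / 3) := by
            refine mul_le_mul (h5.trans ?_) h7 hj0 (by positivity)
            gcongr
        _ ≤ 4 / 9 * (2 / 3 : ℝ) ^ n := by
            have : (0 : ℝ) ≤ (2 / 3 : ℝ) ^ n := by positivity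
            nlinarith
  calc ‖M i j‖ * ((2 / 3 : ℝ) ^ j * (2 / 3) ^ j) = (‖M i j‖ * (2 / 3 : ℝ) ^ j) * (2 / 3) ^ j := by
        ring
    _ ≤ (4 / 9 * (2 / 3 : ℝ) ^ n) * (2 / 3) ^ j := by gcongr
    _ = 4 / 9 * ((2 / 3) ^ j * (2 / 3) ^ n) := by ring

/-- The matrix is a contraction. -/
theorem od_contr (M : ℕ → ℕ → C2)
    (hle : ∀ i j : ℕ, j ≤ 2 * i → ‖M i j‖ ≤ (4 : ℝ)⁻¹ ^ (2 * i - j))
    (hlt : ∀ i j : ℕ, j < 2 * i → ‖M i j‖ ≤ 2⁻¹ * (4 : ℝ)⁻¹ ^ (2 * i - j))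
    (d : ℕ → C2) {δ : ℝ} (hδ : 0 ≤ δ) (hd0 : d 0 = 0) (hd : ∀ j, ‖d j‖ ≤ δ * (4 / 9 : ℝ) ^ j)
    (i : ℕ) :
    ‖∑ j ∈ Finset.range (2 * i + 1), M i j * d j‖ ≤ (4 / 9 * δ) * (4 / 9 : ℝ) ^ i := by
  refine IsUltrametricDist.norm_sum_le_of_forall_le_of_nonneg (by positivity) fun j hj => ?_
  rw [Finset.mem_range] at hj
  rw [norm_mul]
  rcases Nat.eq_zero_or_pos j with h0 | h0
  · subst h0
    rw [hd0, norm_zero, mul_zero]
    positivity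
  · calc ‖M i j‖ * ‖d j‖ ≤ ‖M i j‖ * (δ * (4 / 9 : ℝ) ^ j) := by
          gcongr
          exact hd j
      _ = δ * (‖M i j‖ * (4 / 9 : ℝ) ^ j) := by ring
      _ ≤ δ * (4 / 9 * (4 / 9 : ℝ) ^ i) :=
          mul_le_mul_of_nonneg_left (od_entry M hle hlt h0 (by omega)) hδ
      _ = (4 / 9 * δ) * (4 / 9 : ℝ) ^ i := by ring

theorem od_zero (M : ℕ → ℕ → C2) (k : ℕ) : odd' M k 0 = 0 := by
  induction k with
  | zero => simp [odd']
  | succ k ih =>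
    rw [odd']
    simp [ih]

theorem od_bound (M : ℕ → ℕ → C2)
    (hle : ∀ i j : ℕ, j ≤ 2 * i → ‖M i j‖ ≤ (4 : ℝ)⁻¹ ^ (2 * i - j))
    (hlt : ∀ i j : ℕ, j < 2 * i → ‖M i j‖ ≤ 2⁻¹ * (4 : ℝ)⁻¹ ^ (2 * i - j)) (k i : ℕ) :
    ‖odd' M k i‖ ≤ (4 / 9 : ℝ) ^ k * (4 / 9 : ℝ) ^ i := by
  induction k generalizing i with
  | zero =>
    rw [odd', pow_zero, one_mul]
    split_ifs with h0
    · rw [norm_zero]
      positivity
    · refine (hlt i 0 (by omega)).trans ?_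
      rw [Nat.sub_zero, pow_mul]
      calc 2⁻¹ * ((4 : ℝ)⁻¹ ^ 2) ^ i ≤ 1 * ((4 : ℝ)⁻¹ ^ 2) ^ i := by gcongr; norm_num
        _ = ((4 : ℝ)⁻¹ ^ 2) ^ i := one_mul _
        _ ≤ (4 / 9 : ℝ) ^ i := pow_le_pow_left₀ (by positivity) (by norm_num) i
  | succ k ih =>
    rw [odd', pow_succ']
    exact od_contr M hle hlt _ (by positivity) (od_zero M k) ih i

/-- The fixed vector. -/
def odu (M : ℕ → ℕ → C2) (i : ℕ) : C2 := (if i = 0 then 1 else 0) + ∑' k, odd' M k i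

theorem od_summable (M : ℕ → ℕ → C2)
    (hle : ∀ i j : ℕ, j ≤ 2 * i → ‖M i j‖ ≤ (4 : ℝ)⁻¹ ^ (2 * i - j))
    (hlt : ∀ i j : ℕ, j < 2 * i → ‖M i j‖ ≤ 2⁻¹ * (4 : ℝ)⁻¹ ^ (2 * i - j)) (i : ℕ) :
    Summable fun k => odd' M k i := by
  apply NonarchimedeanAddGroup.summable_of_tendsto_cofinite_zero
  rw [Nat.cofinite_eq_atTop]
  have h1 : Tendsto (fun k : ℕ => (4 / 9 : ℝ) ^ k) atTop (𝓝 0) :=
    tendsto_pow_atTop_nhds_zero_of_lt_one (by norm_num) (by norm_num)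
  refine squeeze_zero_norm (fun k => (od_bound M hle hlt k i).trans ?_) h1
  exact mul_le_of_le_one_right (by positivity) (pow_le_one₀ (by norm_num) (by norm_num))

theorem odu_zero (M : ℕ → ℕ → C2) : odu M 0 = 1 := by
  rw [odu, if_pos rfl]
  simp [od_zero]

theorem odu_bound (M : ℕ → ℕ → C2)
    (hle : ∀ i j : ℕ, j ≤ 2 * i → ‖M i j‖ ≤ (4 : ℝ)⁻¹ ^ (2 * i - j))
    (hlt : ∀ i j : ℕ, j < 2 * i → ‖M i j‖ ≤ 2⁻¹ * (4 : ℝ)⁻¹ ^ (2 * i - j)) (i : ℕ) :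
    ‖odu M i‖ ≤ (4 / 9 : ℝ) ^ i := by
  rcases Nat.eq_zero_or_pos i with h0 | h0
  · subst h0
    rw [odu_zero, norm_one, pow_zero]
  · rw [odu, if_neg (by omega), zero_add]
    refine IsUltrametricDist.norm_tsum_le_of_forall_le_of_nonneg (by positivity) fun k => ?_
    exact (od_bound M hle hlt k i).trans
      (mul_le_of_le_one_left (by positivity) (pow_le_one₀ (by norm_num) (by norm_num)))

theorem odu_eq (M : ℕ → ℕ → C2) (h0 : M 0 0 = 1)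
    (hle : ∀ i j : ℕ, j ≤ 2 * i → ‖M i j‖ ≤ (4 : ℝ)⁻¹ ^ (2 * i - j))
    (hlt : ∀ i j : ℕ, j < 2 * i → ‖M i j‖ ≤ 2⁻¹ * (4 : ℝ)⁻¹ ^ (2 * i - j)) (i : ℕ) :
    odu M i = ∑ j ∈ Finset.range (2 * i + 1), M i j * odu M j := by
  have hs := od_summable M hle hlt
  have h1 : ∑ j ∈ Finset.range (2 * i + 1), M i j * odu M j =
      ∑ j ∈ Finset.range (2 * i + 1), M i j * (if j = 0 then 1 else 0) +
        ∑ j ∈ Finset.range (2 * i + 1), M i j * ∑' k, odd' M k j := by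
    rw [← Finset.sum_add_distrib]
    refine Finset.sum_congr rfl fun j _ => ?_
    rw [odu, mul_add]
  have h2 : ∑ j ∈ Finset.range (2 * i + 1), M i j * (if j = 0 then (1 : C2) else 0) = M i 0 := by
    rw [Finset.sum_eq_single 0]
    · simp
    · intro j _ hj
      simp [hj]
    · intro h
      simp at h
  have h3 : ∑ j ∈ Finset.range (2 * i + 1), M i j * ∑' k, odd' M k j = ∑' k, odd' M (k + 1) i := by
    have h4 : ∀ j ∈ Finset.range (2 * i + 1), Summable fun k => M i j * odd' M k j :=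
      fun j _ => (hs j).mul_left _
    have h5 := Summable.tsum_finsetSum h4
    rw [show (∑' k, odd' M (k + 1) i) = ∑' k, ∑ j ∈ Finset.range (2 * i + 1), M i j * odd' M k j
      from rfl, h5]
    refine Finset.sum_congr rfl fun j _ => ?_
    rw [tsum_mul_left]
  rw [h1, h2, h3, odu, (hs i).tsum_eq_zero_add, odd', ← add_assoc]
  congr 1
  by_cases hi : i = 0
  · subst hi
    simp [h0]
  · simp [hi]

/-- Uniqueness. -/
theorem od_unique (M : ℕ → ℕ → C2)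
    (hle : ∀ i j : ℕ, j ≤ 2 * i → ‖M i j‖ ≤ (4 : ℝ)⁻¹ ^ (2 * i - j))
    (hlt : ∀ i j : ℕ, j < 2 * i → ‖M i j‖ ≤ 2⁻¹ * (4 : ℝ)⁻¹ ^ (2 * i - j))
    (e : ℕ → C2) (he0 : e 0 = 0) {B : ℝ} (hB : 0 ≤ B) (he : ∀ n, ‖e n‖ ≤ B * (4 / 9 : ℝ) ^ n)
    (hM : ∀ i, e i = ∑ j ∈ Finset.range (2 * i + 1), M i j * e j) (n : ℕ) : e n = 0 := by
  have h1 : ∀ k : ℕ, ∀ n, ‖e n‖ ≤ ((4 / 9 : ℝ) ^ k * B) * (4 / 9 : ℝ) ^ n := by
    intro k
    induction k with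
    | zero =>
      intro n
      rw [pow_zero, one_mul]
      exact he n
    | succ k ih =>
      intro n
      have := od_contr M hle hlt e (by positivity) he0 ih n
      rw [← hM n] at this
      rwa [pow_succ', mul_assoc (4 / 9 : ℝ)]
  have h2 : Tendsto (fun k : ℕ => ((4 / 9 : ℝ) ^ k * B) * (4 / 9 : ℝ) ^ n) atTop (𝓝 0) := by
    have h3 : Tendsto (fun k : ℕ => (4 / 9 : ℝ) ^ k) atTop (𝓝 0) :=
      tendsto_pow_atTop_nhds_zero_of_lt_one (by norm_num) (by norm_num)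
    simpa using (h3.mul_const B).mul_const ((4 / 9 : ℝ) ^ n)
  exact norm_le_zero_iff.1 (ge_of_tendsto' h2 fun k => h1 k n)

/-! ### The statement of the row -/

/-- Inputs: the bounds of `UBound`. -/
theorem exists_ord
    (h0 : ∀ x : C2, Mmat x 0 0 = 1)
    (hle : ∀ x : C2, ‖x‖ ≤ 1 → ∀ i j : ℕ, j ≤ 2 * i →
      ‖Mmat x i j‖ ≤ (4 : ℝ)⁻¹ ^ (2 * i - j))
    (hlt : ∀ x : C2, ‖x‖ ≤ 1 → ∀ i j : ℕ, j < 2 * i →
      ‖Mmat x i j‖ ≤ 2⁻¹ * (4 : ℝ)⁻¹ ^ (2 * i - j))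
    (hpoly : ∀ i j : ℕ, ∃ P : Polynomial C2, ∀ x : C2, Mmat x i j = P.eval x) :
    ∃ u : ℕ → C2 → C2,
      (∀ x : C2, ‖x‖ ≤ 1 → u 0 x = 1 ∧ (∀ n, ‖u n x‖ * (9 / 4 : ℝ) ^ n ≤ 1) ∧
        ∀ i, u i x = ∑ j ∈ Finset.range (2 * i + 1), Mmat x i j * u j x) ∧
      (∀ n, IsTate (u n)) ∧
      (∀ x : C2, ‖x‖ ≤ 1 → ∀ v : ℕ → C2, v 0 = 1 →
        (∃ B : ℝ, ∀ n, ‖v n‖ * (9 / 4 : ℝ) ^ n ≤ B) →
        (∀ i, v i = ∑ j ∈ Finset.range (2 * i + 1), Mmat x i j * v j) →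
        ∀ n, v n = u n x) := by
  have hinv : ∀ n : ℕ, (4 / 9 : ℝ) ^ n * (9 / 4 : ℝ) ^ n = 1 := fun n => by
    rw [← mul_pow]
    norm_num
  have hentry : ∀ i j, IsTate fun x : C2 => Mmat x i j := by
    intro i j
    obtain ⟨P, hP⟩ := hpoly i j
    exact (isTate_eval P).congr fun x _ => (hP x).symm
  have hodd : ∀ k i, IsTate fun x : C2 => odd' (Mmat x) k i := by
    intro k
    induction k with
    | zero =>
      intro i
      by_cases hi : i = 0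
      · refine (IsTate.const (0 : C2)).congr fun x _ => ?_
        simp [odd', hi]
      · refine (hentry i 0).congr fun x _ => ?_
        simp [odd', hi]
    | succ k ih =>
      intro i
      exact IsTate.sum (Finset.range (2 * i + 1)) fun j _ => (hentry i j).mul (ih j)
  refine ⟨fun i x => odu (Mmat x) i, fun x hx => ⟨odu_zero _, fun n => ?_, fun i => ?_⟩,
    fun n => ?_, fun x hx v hv0 hvB hv n => ?_⟩
  · calc ‖odu (Mmat x) n‖ * (9 / 4 : ℝ) ^ n ≤ (4 / 9 : ℝ) ^ n * (9 / 4 : ℝ) ^ n := by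
          gcongr
          exact odu_bound _ (hle x hx) (hlt x hx) n
      _ = 1 := hinv n
  · exact odu_eq _ (h0 x) (hle x hx) (hlt x hx) i
  · have hlim : Tendsto (fun k : ℕ => (4 / 9 : ℝ) ^ k * (4 / 9 : ℝ) ^ n) cofinite (𝓝 0) := by
      rw [Nat.cofinite_eq_atTop]
      have h3 : Tendsto (fun k : ℕ => (4 / 9 : ℝ) ^ k) atTop (𝓝 0) :=
        tendsto_pow_atTop_nhds_zero_of_lt_one (by norm_num) (by norm_num)
      simpa using h3.mul_const ((4 / 9 : ℝ) ^ n)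
    have h4 : IsTate fun x : C2 => ∑' k, odd' (Mmat x) k n :=
      IsTate.tsum hlim (fun k => hodd k n) fun k x hx => od_bound _ (hle x hx) (hlt x hx) k n
    exact (IsTate.const (if n = 0 then (1 : C2) else 0)).add h4
  · obtain ⟨B, hB⟩ := hvB
    have hB0 : 0 ≤ B := (by positivity : (0 : ℝ) ≤ ‖v 0‖ * (9 / 4 : ℝ) ^ 0).trans (hB 0)
    have hvb : ∀ n, ‖v n‖ ≤ B * (4 / 9 : ℝ) ^ n := by
      intro n
      calc ‖v n‖ = (‖v n‖ * (9 / 4 : ℝ) ^ n) * (4 / 9 : ℝ) ^ n := by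
            rw [mul_assoc, mul_comm ((9 / 4 : ℝ) ^ n), hinv, mul_one]
        _ ≤ B * (4 / 9 : ℝ) ^ n := by
            gcongr
            exact hB n
    have h5 := od_unique (Mmat x) (hle x hx) (hlt x hx) (fun n => v n - odu (Mmat x) n)
      (by simp [hv0, odu_zero]) (B := B + 1) (by positivity) (fun n => by
        refine (norm_sub_le_max' _ _).trans (max_le ?_ ?_)
        · refine (hvb n).trans ?_
          gcongr
          linarith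
        · refine (odu_bound _ (hle x hx) (hlt x hx) n).trans ?_
          exact le_mul_of_one_le_left (by positivity) (by linarith))
      (fun i => by
        rw [hv i, odu_eq _ (h0 x) (hle x hx) (hlt x hx) i, ← Finset.sum_sub_distrib]
        refine Finset.sum_congr rfl fun j _ => ?_
        ring) n
    exact sub_eq_zero.1 h5

end GH
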