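import Pool.Agent.GH.QGauss
import Pool.Agent.GH.QTheta
import Pool.Agent.GH.QHaupt
import Pool.Agent.GH.FExp
import Pool.Agent.GH.UMatB
import Pool.Agent.GH.UBound
import Pool.Agent.GH.ZChar
import Pool.Agent.GH.EisFam
import Pool.Agent.GH.Tate
import Pool.Agent.GH.GaussN
import Pool.Agent.GH.Param
import Pool.Agent.GH.Ord
import Pool.Agent.GH.Glue
import Pool.Agent.GH.Fam
import Pool.Agent.GH.FredFam
import Pool.Agent.GH.Ext

/-!
# Final assembly: the central theorem implies the ghost conjecture for `p = 2`, `N = 1`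
-/

open PowerSeries Filter Topology

noncomputable section

namespace GH

/-- The theorem on the central disc. -/
def CentralTheorem : Prop :=
  ∀ x : C2, ‖x‖ ≤ 1 →
    (‖x - 1‖ = 1 → newtonPolygon 2 (fred (Mmat x)) = newtonPolygon 2 (ghost 2 (wx x))) ∧
    (‖x - 1‖ < 1 → newtonPolygon 2 (fred (Modd x)) = newtonPolygon 2 (ghost 2 (wx x)))

theorem Mmat_zero_of_lt (x : C2) (i j : ℕ) (h : 2 * i < j) : Mmat x i j = 0 := by
  simp [Mmat, not_le.mpr h]

theorem Modd_zero_of_lt (x : C2) (i j : ℕ) (h : 2 * i < j) : Modd x i j = 0 := by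
  simp [Modd, not_le.mpr h]

theorem ma_pow_le {i j : ℕ} {a R : ℝ} (hR : 0 < R) (ha : R ≤ a) :
    a⁻¹ ^ (2 * i - j) ≤ 1 * R⁻¹ ^ (2 * i - j) := by
  rw [one_mul]
  have h1 : a⁻¹ ≤ R⁻¹ := inv_anti₀ hR ha
  have h2 : 0 ≤ a⁻¹ := inv_nonneg.mpr (hR.le.trans ha)
  exact pow_le_pow_left₀ h2 h1 _

/-- The two matrices have the same Fredholm series. -/
theorem fred_Mmat_eq_Modd {x : C2} (hx : ‖x‖ ≤ 1) : fred (Mmat x) = fred (Modd x) := by
  funext m
  refine fred_eq_of_toeplitz (Mmat x) (Modd x) (fun n ↦ vv n) 4 1 (by norm_num)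
    (Mmat_zero_of_lt x) (Modd_zero_of_lt x) ?_ ?_ vv_zero ?_ ?_ m
  · intro i j h
    simpa using norm_Mmat_le hx h
  · intro i j h
    simpa using norm_Modd_le hx h
  · intro n
    have h1 := norm_vv_le n
    have h2 : (16 : ℝ)⁻¹ ^ n * 4 ^ n ≤ 1 := by
      rw [← mul_pow]
      exact pow_le_one₀ (by norm_num) (by norm_num)
    calc ‖(vv n : C2)‖ * 4 ^ n ≤ (16 : ℝ)⁻¹ ^ n * 4 ^ n :=
          mul_le_mul_of_nonneg_right h1 (by positivity)
      _ ≤ 1 := h2
  · intro i j _ _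
    exact Mmat_mul_vv x i j

theorem qIds : QIds := ⟨theta_mul_euler, psi2_mul_euler, neg_theta_mul_theta, jacobi_quartic⟩

/-- The change of basis from `θ^{4x} f^j` to `E f^j`. -/
theorem fred_fam_eq_Mmat (E : PowerSeries Lam) (hE : EisFamily E) (u : ℕ → C2 → C2)
    (hu : OrdVec u) {x : C2} (hx : ‖x‖ ≤ 1) :
    fred (fun i j ↦ ev (wx x) (famMatrix E i j)) = fred (Mmat x) := by
  have hw8 : ‖wx x‖ ≤ 1 / 8 := by
    rw [norm_wx hx]
    linarith
  have hw1 : ‖wx x‖ < 1 := lt_of_le_of_lt hw8 (by norm_num)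
  funext m
  symm
  refine fred_eq_of_toeplitz (Mmat x) _ (fun n ↦ u n x) (3 / 2) 1 (by norm_num)
    (Mmat_zero_of_lt x) ?_ ?_ ?_ (hu.eqs x hx).1 ?_ ?_ m
  · intro i j h
    simp only [famMatrix_of_lt E hE h]
    have := ev_C hw1 0
    simpa using this
  · intro i j h
    exact (norm_Mmat_le hx h).trans (ma_pow_le (by norm_num) (by norm_num))
  · intro i j h
    change ‖ev (wx x) (famMatrix E i j)‖ ≤ _
    rw [ev_famMatrix E hE hw1]
    refine IsUltrametricDist.norm_sum_le_of_forall_le_of_nonneg (by positivity) ?_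
    intro k hk
    have hk2 : k ≤ 2 * i := by
      simpa [Nat.lt_succ_iff] using Finset.mem_range.mp hk
    split_ifs with hjk
    · rw [norm_mul, one_mul]
      have h0 : ‖(0 : C2)‖ ≤ 1 := by simp
      have h1 : ‖Mmat (0 : C2) i k‖ ≤ (3 / 2 : ℝ)⁻¹ ^ (2 * i - k) := by
        have := (norm_Mmat_le h0 hk2).trans
          (ma_pow_le (i := i) (j := k) (a := 4) (R := 3 / 2) (by norm_num) (by norm_num))
        simpa using this
      have h2 : ‖ev (wx x) (Phi E (k - j))‖ ≤ (3 / 2 : ℝ)⁻¹ ^ (k - j) := by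
        have := norm_Phi_central E hE u hu hw8 (k - j)
        rw [inv_pow]
        rwa [← le_div_iff₀ (by positivity), one_div] at this
      have h3 : 2 * i - j = (2 * i - k) + (k - j) := by omega
      rw [h3, pow_add]
      exact mul_le_mul h1 h2 (norm_nonneg _) (by positivity)
    · rw [norm_zero]
      positivity
  · intro n
    have h1 := (hu.eqs x hx).2.1 n
    refine le_trans ?_ h1
    exact mul_le_mul_of_nonneg_left (pow_le_pow_left₀ (by norm_num) (by norm_num) n)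
      (norm_nonneg _)
  · intro i j _ _
    exact Mmat_mul_u E hE u hu hx i j

theorem ghostConjecture_two (hc : CentralTheorem) : GhostConjecture 2 := by
  obtain ⟨E, hE1, hE2, hE3, hE4, hE5⟩ := exists_eisFam
  have hE : EisFamily E := ⟨hE1, hE2, hE3, hE4, hE5⟩
  obtain ⟨u, hu1, hu2, hu3⟩ := exists_ord (fun x ↦ Mmat_zero_zero x)
    (fun x hx i j h ↦ norm_Mmat_le hx h) (fun x hx i j h ↦ norm_Mmat_lt hx h)
    (fun i j ↦ (Mmat_isPoly i j).imp fun P h ↦ h.1)
  have hu : OrdVec u := ⟨hu1, hu2, hu3⟩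
  have hPhi : ∀ w : C2, ‖w‖ ≤ 1 / 8 → ∀ l, ‖ev w (Phi E l)‖ * (3 / 2 : ℝ) ^ l ≤ 1 :=
    fun w hw l ↦ norm_Phi_central E hE u hu hw l
  have hb := norm_famMatrix_le E hE hPhi norm_coeff_le_of_bound
  obtain ⟨a, ha⟩ := exists_fred_family (famMatrix E)
    (fun i j h ↦ famMatrix_of_lt E hE h) hb
  have ha' : ∀ w : C2, ‖w‖ < 1 → fred (fun i j ↦ ev w (famMatrix E i j)) =
      fun m ↦ ev w (a m) := by
    intro w hw
    funext m
    exact (ha w hw m).limUnder_eq
  have h0 : ∀ w : C2, ‖w‖ < 1 → ev w (a 0) = 1 := by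
    intro w hw
    refine tendsto_nhds_unique (ha w hw 0) ?_
    have : (fun N : ℕ ↦ fredBlock (fun i j ↦ ev w (famMatrix E i j)) N 0) = fun _ ↦ 1 := by
      funext N
      simp [fredBlock, Polynomial.coeff_zero_eq_eval_zero]
    rw [this]
    exact tendsto_const_nhds
  have hcent : ∀ w : C2, ‖w‖ ≤ 1 / 8 →
      newtonPolygon 2 (fun n ↦ ev w (a n)) = newtonPolygon 2 (ghost 2 w) := by
    intro w hw
    obtain ⟨x, hx, rfl⟩ := exists_wx_eq hw
    have hw1 : ‖wx x‖ < 1 := lt_of_le_of_lt hw (by norm_num)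
    rw [← ha' _ hw1, fred_fam_eq_Mmat E hE u hu hx]
    have h1 : ‖x - 1‖ ≤ 1 := by
      have := IsUltrametricDist.norm_add_le_max x (-1)
      rw [← sub_eq_add_neg] at this
      refine this.trans ?_
      simp [hx]
    rcases h1.eq_or_lt with h | h
    · exact (hc x hx).1 h
    · rw [fred_Mmat_eq_Modd hx]
      exact (hc x hx).2 h
  intro κ hκ
  have hw : ‖κ.w‖ < 1 := κ.norm_w_lt_one hκ
  have hm : κ.uMatrix = fun i j ↦ ev κ.w (famMatrix E i j) := by
    funext i j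
    exact uMatrix_eq E hE κ hκ i j
  refine ⟨fun m ↦ ⟨ev κ.w (a m), ?_⟩, ?_⟩
  · rw [hm]
    exact ha κ.w hw m
  · have : κ.charSeries = fun m ↦ ev κ.w (a m) := by
      rw [← ha' κ.w hw]
      funext m
      rw [Weight.charSeries, hm]
    rw [this]
    exact ghost_extend a h0 hcent hw

end GH
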