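import Pool.Agent.GH.Base

/-!
# Uniform limits of polynomials on the closed unit ball (helper10)

`K` is an algebraically closed field, complete for a nonarchimedean norm. `IsTate F`: the function
`F : K → K` is a uniform limit of polynomials on the closed unit ball.

* `exists_generic`: a point of the unit sphere at distance `1` from finitely many given points of
  the unit ball.
* `exists_coeff_le`: for a polynomial `P` there is such a point `x` with `‖coeff P n‖ ≤ ‖P x‖`
  for all `n` (maximum modulus principle).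
* `IsTate.exists_powerSeries`: `F x = ∑ a_n x^n` with `a_n → 0`.
* `IsTate.eq_zero_of_infinite`: the identity theorem.
-/

open Polynomial Filter Topology

noncomputable section

namespace GH

section Ultra

variable {K : Type*} [SeminormedAddCommGroup K] [IsUltrametricDist K]

theorem norm_sub_le_max' (x t : K) : ‖x - t‖ ≤ max ‖x‖ ‖t‖ := by
  have h := IsUltrametricDist.norm_add_le_max x (-t)
  rwa [← sub_eq_add_neg, norm_neg] at h

/-- The norm of `x - t` if `‖t‖ < ‖x‖`. -/
theorem norm_sub_of_lt {x t : K} (h : ‖t‖ < ‖x‖) : ‖x - t‖ = ‖x‖ := by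
  have h1 := IsUltrametricDist.norm_add_eq_max_of_norm_ne_norm (x := x) (y := -t)
    (by rw [norm_neg]; exact h.ne')
  rw [← sub_eq_add_neg, norm_neg, max_eq_left h.le] at h1
  exact h1

theorem norm_add_of_lt {x t : K} (h : ‖t‖ < ‖x‖) : ‖x + t‖ = ‖x‖ := by
  have h1 := norm_sub_of_lt (x := x) (t := -t) (by rw [norm_neg]; exact h)
  rwa [sub_neg_eq_add] at h1

theorem norm_sub_le_one {x t : K} (hx : ‖x‖ ≤ 1) (ht : ‖t‖ ≤ 1) : ‖x - t‖ ≤ 1 :=
  (norm_sub_le_max' x t).trans (max_le hx ht)

end Ultra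

section Generic

variable {K : Type*} [NormedField K] [IsUltrametricDist K] [IsAlgClosed K]

/-- A point of the unit ball at distance `1` from `0` and from finitely many given points of the
unit ball. -/
theorem exists_generic (T : Finset K) (hT : ∀ t ∈ T, ‖t‖ ≤ 1) :
    ∃ x : K, ‖x‖ = 1 ∧ ∀ t ∈ T, ‖x - t‖ = 1 := by
  classical
  set Q : K[X] := ∏ t ∈ T, (X - C t) with hQ
  have hQm : Q.Monic := monic_prod_X_sub_C _ _
  have hXQ : (X * Q).Monic := monic_X.mul hQm
  have hdeg : 0 < (X * Q).degree := by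
    rw [degree_mul, degree_X]
    have h0 : 0 ≤ Q.degree := by
      rw [zero_le_degree_iff]
      exact hQm.ne_zero
    calc (0 : WithBot ℕ) < 1 := by norm_num
      _ = 1 + 0 := by norm_num
      _ ≤ 1 + Q.degree := by gcongr
  have hd : ((X * Q) - C 1).degree ≠ 0 := by
    rw [degree_sub_eq_left_of_degree_lt]
    · exact hdeg.ne'
    · exact lt_of_le_of_lt degree_C_le hdeg
  obtain ⟨x, hx⟩ := IsAlgClosed.exists_root _ hd
  have hx1 : x * ∏ t ∈ T, (x - t) = 1 := by
    have := hx
    rw [IsRoot.def, eval_sub, eval_mul, eval_X, eval_C, hQ, eval_prod] at this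
    simp only [eval_sub, eval_X, eval_C] at this
    exact sub_eq_zero.1 this
  have hxn : ‖x‖ * ∏ t ∈ T, ‖x - t‖ = 1 := by
    rw [← norm_prod, ← norm_mul, hx1, norm_one]
  have hxle : ‖x‖ ≤ 1 := by
    by_contra hlt
    push Not at hlt
    have h1 : ∀ t ∈ T, ‖x - t‖ = ‖x‖ := fun t ht => norm_sub_of_lt ((hT t ht).trans_lt hlt)
    rw [Finset.prod_congr rfl h1, Finset.prod_const, ← pow_succ'] at hxn
    have := one_lt_pow₀ hlt (Nat.succ_ne_zero T.card)
    rw [hxn] at this
    exact lt_irrefl _ this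
  have hle : ∀ t ∈ T, ‖x - t‖ ≤ 1 := fun t ht => norm_sub_le_one hxle (hT t ht)
  have hprod : ∏ t ∈ T, ‖x - t‖ ≤ 1 := Finset.prod_le_one (fun _ _ => norm_nonneg _) hle
  have hx1' : ‖x‖ = 1 := by
    refine le_antisymm hxle ?_
    rw [← hxn]
    exact mul_le_of_le_one_right (norm_nonneg _) hprod
  refine ⟨x, hx1', fun t ht => le_antisymm (hle t ht) ?_⟩
  rw [hx1', one_mul] at hxn
  rw [← hxn, ← Finset.mul_prod_erase T _ ht]
  exact mul_le_of_le_one_right (norm_nonneg _)
    (Finset.prod_le_one (fun _ _ => norm_nonneg _) fun s hs => hle s (Finset.mem_of_mem_erase hs))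

/-- Coefficients of a product of linear factors. -/
theorem norm_coeff_prod_le {K : Type*} [NormedField K] [IsUltrametricDist K] (s : Multiset K)
    (n : ℕ) :
    ‖((s.map fun a => X - C a).prod).coeff n‖ ≤ (s.map fun a => max 1 ‖a‖).prod := by
  induction s using Multiset.induction_on generalizing n with
  | empty =>
    simp only [Multiset.map_zero, Multiset.prod_zero]
    rw [coeff_one]
    split_ifs <;> simp
  | cons a s ih =>
    rw [Multiset.map_cons, Multiset.prod_cons, Multiset.map_cons, Multiset.prod_cons, sub_mul]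
    have h0 : 0 ≤ (s.map fun a => max 1 ‖a‖).prod := by
      apply Multiset.prod_nonneg
      intro b hb
      obtain ⟨c, -, rfl⟩ := Multiset.mem_map.1 hb
      positivity
    rw [coeff_sub, coeff_C_mul]
    refine (norm_sub_le_max' _ _).trans (max_le ?_ ?_)
    · cases n with
      | zero =>
        rw [coeff_X_mul_zero, norm_zero]
        positivity
      | succ n =>
        rw [coeff_X_mul]
        exact (ih n).trans (le_mul_of_one_le_left h0 (le_max_left _ _))
    · rw [norm_mul]
      exact mul_le_mul (le_max_right _ _) (ih n) (norm_nonneg _) (by positivity)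

/-- **Maximum modulus principle** for polynomials: the maximum of the norms of the coefficients is
attained at a point of the unit ball which lies in general position with respect to finitely many
given points. -/
theorem exists_coeff_le (P : K[X]) (T : Finset K) (hT : ∀ t ∈ T, ‖t‖ ≤ 1) :
    ∃ x : K, ‖x‖ = 1 ∧ (∀ t ∈ T, ‖x - t‖ = 1) ∧ ∀ n, ‖P.coeff n‖ ≤ ‖P.eval x‖ := by
  classical
  by_cases hP : P = 0
  · obtain ⟨x, hx, hx'⟩ := exists_generic T hT
    exact ⟨x, hx, hx', fun n => by simp [hP]⟩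
  obtain ⟨x, hx, hx'⟩ := exists_generic (T ∪ P.roots.toFinset.filter fun t => ‖t‖ ≤ 1) (by
    intro t ht
    rw [Finset.mem_union, Finset.mem_filter] at ht
    exact ht.elim (hT t) fun h => h.2)
  refine ⟨x, hx, fun t ht => hx' t (Finset.mem_union_left _ ht), fun n => ?_⟩
  have hsp : P = C P.leadingCoeff * (P.roots.map fun a => X - C a).prod :=
    (IsAlgClosed.splits P).eq_prod_roots
  have h1 : ‖P.coeff n‖ ≤ ‖P.leadingCoeff‖ * (P.roots.map fun a => max 1 ‖a‖).prod := by
    conv_lhs => rw [hsp]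
    rw [coeff_C_mul, norm_mul]
    gcongr
    exact norm_coeff_prod_le _ _
  refine h1.trans (le_of_eq ?_)
  conv_rhs => rw [hsp]
  rw [eval_mul, eval_C, norm_mul, eval_multiset_prod, Multiset.map_map]
  congr 1
  have h2 : ‖(P.roots.map (eval x ∘ fun a => X - C a)).prod‖ =
      (P.roots.map fun a => ‖x - a‖).prod := by
    rw [← normHom_apply, map_multiset_prod, Multiset.map_map]
    congr 1
    apply Multiset.map_congr rfl
    intro a _
    simp
  rw [h2]
  congr 1
  apply Multiset.map_congr rfl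
  intro a ha
  by_cases h : ‖a‖ ≤ 1
  · rw [max_eq_left h, hx' a]
    rw [Finset.mem_union, Finset.mem_filter, Multiset.mem_toFinset]
    exact Or.inr ⟨ha, h⟩
  · push Not at h
    rw [max_eq_right h.le, norm_sub_rev, norm_sub_of_lt (by rw [hx]; exact h)]

theorem norm_coeff_le (P : K[X]) {B : ℝ} (h : ∀ x : K, ‖x‖ ≤ 1 → ‖P.eval x‖ ≤ B) (n : ℕ) :
    ‖P.coeff n‖ ≤ B := by
  obtain ⟨x, hx, -, h1⟩ := exists_coeff_le P ∅ (by simp)
  exact (h1 n).trans (h x hx.le)

end Generic

/-! ### Power series with coefficients tending to zero -/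

section Series

variable {K : Type*} [NormedField K] [IsUltrametricDist K] [CompleteSpace K]

theorem summable_pow {a : ℕ → K} (ha : Tendsto a atTop (𝓝 0)) {x : K} (hx : ‖x‖ ≤ 1) :
    Summable fun n => a n * x ^ n := by
  apply NonarchimedeanAddGroup.summable_of_tendsto_cofinite_zero
  rw [Nat.cofinite_eq_atTop]
  have h0 : Tendsto (fun n => ‖a n‖) atTop (𝓝 0) := by simpa using ha.norm
  refine squeeze_zero_norm (fun n => ?_) h0
  rw [norm_mul, norm_pow]
  exact mul_le_of_le_one_right (norm_nonneg _) (pow_le_one₀ (norm_nonneg _) hx)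

omit [CompleteSpace K] in
/-- The maximum of a family tending to zero: a strict bound for the terms gives a strict bound
for the sum. -/
theorem norm_tsum_lt {a : ℕ → K} (ha : Tendsto a atTop (𝓝 0)) {B : ℝ} (hB : 0 < B)
    (h : ∀ n, ‖a n‖ < B) : ‖∑' n, a n‖ < B := by
  have h0 : Tendsto (fun n => ‖a n‖) atTop (𝓝 0) := by simpa using ha.norm
  obtain ⟨N, hN⟩ := eventually_atTop.1 (h0.eventually_lt_const (half_pos hB))
  obtain ⟨C, hC0, hCB, hC⟩ : ∃ C : ℝ, 0 ≤ C ∧ C < B ∧ ∀ n, ‖a n‖ ≤ C := by
    obtain ⟨n0, -, hn0⟩ := Finset.exists_max_image (Finset.range (N + 1)) (fun n => ‖a n‖)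
      ⟨0, by simp⟩
    refine ⟨max (B / 2) ‖a n0‖, le_max_of_le_left (half_pos hB).le,
      max_lt (half_lt_self hB) (h n0), fun n => ?_⟩
    by_cases hn : n < N + 1
    · exact le_max_of_le_right (hn0 n (Finset.mem_range.2 hn))
    · exact le_max_of_le_left (hN n (by omega)).le
  exact (IsUltrametricDist.norm_tsum_le_of_forall_le_of_nonneg hC0 hC).trans_lt hCB

/-- **Strassmann's theorem**. -/
theorem strassmann (N : ℕ) : ∀ a : ℕ → K, Tendsto a atTop (𝓝 0) → a N ≠ 0 →
    (∀ n, ‖a n‖ ≤ ‖a N‖) → (∀ n, N < n → ‖a n‖ < ‖a N‖) →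
    {x : K | ‖x‖ ≤ 1 ∧ ∑' n, a n * x ^ n = 0}.Finite := by
  induction N with
  | zero =>
    intro a ha h0 h1 h2
    convert Set.finite_empty
    rw [Set.eq_empty_iff_forall_notMem]
    rintro x ⟨hx, hx0⟩
    rw [(summable_pow ha hx).tsum_eq_zero_add, pow_zero, mul_one] at hx0
    have h3 : ‖∑' n, a (n + 1) * x ^ (n + 1)‖ < ‖a 0‖ := by
      apply norm_tsum_lt
      · exact (tendsto_add_atTop_iff_nat (f := fun n => a n * x ^ n) 1).2
          (summable_pow ha hx).tendsto_atTop_zero
      · exact norm_pos_iff.2 h0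
      · intro n
        rw [norm_mul, norm_pow]
        exact (mul_le_of_le_one_right (norm_nonneg _) (pow_le_one₀ (norm_nonneg _) hx)).trans_lt
          (h2 _ (Nat.succ_pos n))
    have h4 := norm_add_of_lt h3
    rw [hx0, norm_zero] at h4
    exact h0 (norm_eq_zero.1 h4.symm)
  | succ N ih =>
    intro a ha h0 h1 h2
    by_cases hne : {x : K | ‖x‖ ≤ 1 ∧ ∑' n, a n * x ^ n = 0} = ∅
    · rw [hne]
      exact Set.finite_empty
    obtain ⟨z, hz, hz0⟩ := Set.nonempty_iff_ne_empty.2 hne
    have hshift : ∀ j, Tendsto (fun i => a (i + j)) atTop (𝓝 0) := fun j =>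
      (tendsto_add_atTop_iff_nat j).2 ha
    set b : ℕ → K := fun j => ∑' i, a (i + (j + 1)) * z ^ i with hb
    have hrec : ∀ j, b j = a (j + 1) + z * b (j + 1) := by
      intro j
      rw [hb]
      simp only
      rw [(summable_pow (hshift (j + 1)) hz).tsum_eq_zero_add, pow_zero, mul_one, zero_add,
        ← tsum_mul_left]
      congr 1
      apply tsum_congr
      intro i
      rw [pow_succ, show i + 1 + (j + 1) = i + (j + 1 + 1) by ring]
      ring
    have hterm : ∀ i j, ‖a (i + (j + 1)) * z ^ i‖ ≤ ‖a (i + (j + 1))‖ := fun i j => by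
      rw [norm_mul, norm_pow]
      exact mul_le_of_le_one_right (norm_nonneg _) (pow_le_one₀ (norm_nonneg _) hz)
    have hb0 : Tendsto b atTop (𝓝 0) := by
      rw [Metric.tendsto_atTop]
      intro ε hε
      obtain ⟨M, hM⟩ := Metric.tendsto_atTop.1 ha (ε / 2) (half_pos hε)
      refine ⟨M, fun j hj => ?_⟩
      rw [dist_zero_right]
      refine (IsUltrametricDist.norm_tsum_le_of_forall_le_of_nonneg (half_pos hε).le
        fun i => (hterm i j).trans ?_).trans_lt (half_lt_self hε)
      have := hM (i + (j + 1)) (by omega)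
      rw [dist_zero_right] at this
      exact this.le
    have hz1 : z * b 0 = - a 0 := by
      have h3 := hz0
      rw [(summable_pow ha hz).tsum_eq_zero_add, pow_zero, mul_one] at h3
      have h4 : ∑' n, a (n + 1) * z ^ (n + 1) = z * b 0 := by
        rw [hb]
        simp only
        rw [← tsum_mul_left]
        apply tsum_congr
        intro i
        rw [pow_succ, zero_add]
        ring
      rw [h4] at h3
      exact eq_neg_of_add_eq_zero_right h3
    have hfac : ∀ x : K, ‖x‖ ≤ 1 → ∑' n, a n * x ^ n = (x - z) * ∑' n, b n * x ^ n := by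
      intro x hx
      have hs := summable_pow hb0 hx
      have hs1 : Summable fun n => b n * x ^ (n + 1) := by
        have := hs.mul_left x
        refine this.congr fun n => ?_
        rw [pow_succ]
        ring
      have hs2 : Summable fun n => z * (b n * x ^ n) := hs.mul_left z
      have hs3 : Summable fun n => z * (b (n + 1) * x ^ (n + 1)) :=
        (summable_nat_add_iff 1).2 hs2
      have h5 : (x - z) * ∑' n, b n * x ^ n =
          ∑' n, b n * x ^ (n + 1) - ∑' n, z * (b n * x ^ n) := by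
        rw [sub_mul, ← tsum_mul_left, ← tsum_mul_left]
        congr 1
        apply tsum_congr
        intro n
        rw [pow_succ]
        ring
      rw [h5, hs2.tsum_eq_zero_add, pow_zero, mul_one, hz1, ← sub_sub, sub_neg_eq_add,
        (summable_pow ha hx).tsum_eq_zero_add, pow_zero, mul_one]
      have h6 : ∑' n, a (n + 1) * x ^ (n + 1) =
          ∑' n, b n * x ^ (n + 1) - ∑' n, z * (b (n + 1) * x ^ (n + 1)) := by
        rw [← hs1.tsum_sub hs3]
        apply tsum_congr
        intro n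
        rw [hrec n]
        ring
      rw [h6]
      ring
    have hbN : ‖b N‖ = ‖a (N + 1)‖ := by
      have h3 : b N = a (N + 1) + ∑' i, a (i + 1 + (N + 1)) * z ^ (i + 1) := by
        rw [hb]
        simp only
        rw [(summable_pow (hshift (N + 1)) hz).tsum_eq_zero_add, pow_zero, mul_one, zero_add]
      rw [h3]
      apply norm_add_of_lt
      apply norm_tsum_lt
      · exact (tendsto_add_atTop_iff_nat (f := fun i => a (i + (N + 1)) * z ^ i) 1).2
          (summable_pow (hshift (N + 1)) hz).tendsto_atTop_zero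
      · exact norm_pos_iff.2 h0
      · intro n
        exact (hterm _ _).trans_lt (h2 _ (by omega))
    have hfin := ih b hb0 (by rw [← norm_pos_iff, hbN, norm_pos_iff]; exact h0)
      (fun n => by
        rw [hbN]
        exact IsUltrametricDist.norm_tsum_le_of_forall_le_of_nonneg (norm_nonneg _)
          fun i => (hterm i n).trans (h1 _))
      (fun n hn => by
        rw [hbN]
        apply norm_tsum_lt
        · exact (summable_pow (hshift (n + 1)) hz).tendsto_atTop_zero
        · exact norm_pos_iff.2 h0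
        · intro i
          exact (hterm i n).trans_lt (h2 _ (by omega)))
    refine (hfin.insert z).subset ?_
    rintro x ⟨hx, hx0⟩
    rw [hfac x hx, mul_eq_zero] at hx0
    rcases hx0 with h3 | h3
    · left
      exact sub_eq_zero.1 h3
    · right
      exact ⟨hx, h3⟩

/-- The identity theorem for power series convergent on the closed unit ball. -/
theorem eq_zero_of_infinite {a : ℕ → K} (ha : Tendsto a atTop (𝓝 0))
    (h : {x : K | ‖x‖ ≤ 1 ∧ ∑' n, a n * x ^ n = 0}.Infinite) (n : ℕ) : a n = 0 := by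
  by_contra hn
  have h0 : Tendsto (fun n => ‖a n‖) atTop (𝓝 0) := by simpa using ha.norm
  obtain ⟨M, hM⟩ := eventually_atTop.1 (h0.eventually_lt_const (norm_pos_iff.2 hn))
  have hnM : n < M := by
    by_contra hc
    exact lt_irrefl _ (hM n (by omega))
  obtain ⟨m, hm, hmax⟩ := Finset.exists_max_image (Finset.range M) (fun i => ‖a i‖)
    ⟨n, Finset.mem_range.2 hnM⟩
  have hge : ‖a n‖ ≤ ‖a m‖ := hmax n (Finset.mem_range.2 hnM)
  have hall : ∀ i, ‖a i‖ ≤ ‖a m‖ := by
    intro i
    by_cases hi : i < M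
    · exact hmax i (Finset.mem_range.2 hi)
    · exact (hM i (by omega)).le.trans hge
  classical
  have hex : ∃ N, ‖a N‖ = ‖a m‖ ∧ ∀ i, N < i → ‖a i‖ < ‖a m‖ := by
    have hne : ((Finset.range M).filter fun i => ‖a i‖ = ‖a m‖).Nonempty :=
      ⟨m, Finset.mem_filter.2 ⟨hm, rfl⟩⟩
    refine ⟨_, (Finset.mem_filter.1 (Finset.max'_mem _ hne)).2, fun i hi => ?_⟩
    refine lt_of_le_of_ne (hall i) fun hc => ?_
    by_cases hiM : i < M
    · have := Finset.le_max' ((Finset.range M).filter fun i => ‖a i‖ = ‖a m‖) i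
        (Finset.mem_filter.2 ⟨Finset.mem_range.2 hiM, hc⟩)
      omega
    · exact absurd (hM i (by omega)) (not_lt.2 (by rw [hc]; exact hge))
  obtain ⟨N, hN1, hN2⟩ := hex
  refine h (strassmann N a ha ?_ ?_ ?_)
  · rw [← norm_pos_iff, hN1]
    exact (norm_pos_iff.2 hn).trans_le hge
  · rw [hN1]
    exact hall
  · rw [hN1]
    exact hN2

end Series

/-! ### Uniform limits of polynomials -/

section Tate

variable {K : Type*} [NormedField K]

theorem IsTate.poly (P : K[X]) : IsTate fun x : K => P.eval x := fun ε hε =>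
  ⟨P, fun x _ => by simpa using hε.le⟩

theorem IsTate.const (c : K) : IsTate fun _ : K => c := by
  simpa using IsTate.poly (C c)

theorem IsTate.id : IsTate fun x : K => x := by
  simpa using IsTate.poly (X : K[X])

theorem IsTate.congr {F G : K → K} (hF : IsTate F) (h : ∀ x, ‖x‖ ≤ 1 → F x = G x) :
    IsTate G := fun ε hε => by
  obtain ⟨P, hP⟩ := hF ε hε
  exact ⟨P, fun x hx => by rw [← h x hx]; exact hP x hx⟩

theorem exists_bdd (P : K[X]) : ∃ B : ℝ, 0 ≤ B ∧ ∀ x : K, ‖x‖ ≤ 1 → ‖P.eval x‖ ≤ B := by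
  refine ⟨∑ i ∈ P.support, ‖P.coeff i‖, Finset.sum_nonneg fun _ _ => norm_nonneg _,
    fun x hx => ?_⟩
  rw [eval_eq_sum, Polynomial.sum]
  refine (norm_sum_le _ _).trans (Finset.sum_le_sum fun i _ => ?_)
  rw [norm_mul, norm_pow]
  exact mul_le_of_le_one_right (norm_nonneg _) (pow_le_one₀ (norm_nonneg _) hx)

theorem IsTate.bdd {F : K → K} (hF : IsTate F) : ∃ B : ℝ, 0 ≤ B ∧ ∀ x, ‖x‖ ≤ 1 → ‖F x‖ ≤ B := by
  obtain ⟨P, hP⟩ := hF 1 one_pos
  obtain ⟨B, hB, hB'⟩ := exists_bdd P
  refine ⟨1 + B, by positivity, fun x hx => ?_⟩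
  calc ‖F x‖ = ‖(F x - P.eval x) + P.eval x‖ := by rw [sub_add_cancel]
    _ ≤ ‖F x - P.eval x‖ + ‖P.eval x‖ := norm_add_le _ _
    _ ≤ 1 + B := add_le_add (hP x hx) (hB' x hx)

theorem IsTate.of_unif {F : K → K}
    (h : ∀ ε : ℝ, 0 < ε → ∃ G : K → K, IsTate G ∧ ∀ x, ‖x‖ ≤ 1 → ‖F x - G x‖ ≤ ε) :
    IsTate F := fun ε hε => by
  obtain ⟨G, hG, hFG⟩ := h (ε / 2) (half_pos hε)
  obtain ⟨P, hP⟩ := hG (ε / 2) (half_pos hε)
  refine ⟨P, fun x hx => ?_⟩
  calc ‖F x - P.eval x‖ = ‖(F x - G x) + (G x - P.eval x)‖ := by rw [sub_add_sub_cancel]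
    _ ≤ ‖F x - G x‖ + ‖G x - P.eval x‖ := norm_add_le _ _
    _ ≤ ε / 2 + ε / 2 := add_le_add (hFG x hx) (hP x hx)
    _ = ε := add_halves ε

theorem IsTate.add {F G : K → K} (hF : IsTate F) (hG : IsTate G) :
    IsTate fun x => F x + G x := fun ε hε => by
  obtain ⟨P, hP⟩ := hF (ε / 2) (half_pos hε)
  obtain ⟨Q, hQ⟩ := hG (ε / 2) (half_pos hε)
  refine ⟨P + Q, fun x hx => ?_⟩
  calc ‖F x + G x - (P + Q).eval x‖ = ‖(F x - P.eval x) + (G x - Q.eval x)‖ := by
        rw [eval_add]; congr 1; ring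
    _ ≤ ‖F x - P.eval x‖ + ‖G x - Q.eval x‖ := norm_add_le _ _
    _ ≤ ε / 2 + ε / 2 := add_le_add (hP x hx) (hQ x hx)
    _ = ε := add_halves ε

theorem IsTate.mul {F G : K → K} (hF : IsTate F) (hG : IsTate G) :
    IsTate fun x => F x * G x := fun ε hε => by
  obtain ⟨B, hB, hB'⟩ := hG.bdd
  obtain ⟨P, hP⟩ := hF (ε / (2 * (B + 1))) (by positivity)
  obtain ⟨D, hD, hD'⟩ := exists_bdd P
  obtain ⟨Q, hQ⟩ := hG (ε / (2 * (D + 1))) (by positivity)
  refine ⟨P * Q, fun x hx => ?_⟩
  calc ‖F x * G x - (P * Q).eval x‖ =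
      ‖(F x - P.eval x) * G x + P.eval x * (G x - Q.eval x)‖ := by
        rw [eval_mul]; congr 1; ring
    _ ≤ ‖(F x - P.eval x) * G x‖ + ‖P.eval x * (G x - Q.eval x)‖ := norm_add_le _ _
    _ = ‖F x - P.eval x‖ * ‖G x‖ + ‖P.eval x‖ * ‖G x - Q.eval x‖ := by rw [norm_mul, norm_mul]
    _ ≤ ε / (2 * (B + 1)) * (B + 1) + (D + 1) * (ε / (2 * (D + 1))) := by
        gcongr
        · exact hP x hx
        · exact (hB' x hx).trans (by linarith)
        · exact (hD' x hx).trans (by linarith)
        · exact hQ x hx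
    _ = ε := by
        field_simp
        ring

theorem IsTate.neg {F : K → K} (hF : IsTate F) : IsTate fun x => - F x := by
  simpa using (IsTate.const (-1 : K)).mul hF

theorem IsTate.sub {F G : K → K} (hF : IsTate F) (hG : IsTate G) :
    IsTate fun x => F x - G x := by
  simpa [sub_eq_add_neg] using hF.add hG.neg

theorem IsTate.sum {ι : Type*} {F : ι → K → K} (s : Finset ι) (h : ∀ i ∈ s, IsTate (F i)) :
    IsTate fun x => ∑ i ∈ s, F i x := by
  classical
  induction s using Finset.induction_on with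
  | empty => simpa using IsTate.const (0 : K)
  | insert i s hi ih =>
    have h1 := (h i (Finset.mem_insert_self _ _)).add
      (ih fun j hj => h j (Finset.mem_insert_of_mem hj))
    refine h1.congr fun x _ => ?_
    rw [Finset.sum_insert hi]

theorem IsTate.prod {ι : Type*} {F : ι → K → K} (s : Finset ι) (h : ∀ i ∈ s, IsTate (F i)) :
    IsTate fun x => ∏ i ∈ s, F i x := by
  classical
  induction s using Finset.induction_on with
  | empty => simpa using IsTate.const (1 : K)
  | insert i s hi ih =>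
    have h1 := (h i (Finset.mem_insert_self _ _)).mul
      (ih fun j hj => h j (Finset.mem_insert_of_mem hj))
    refine h1.congr fun x _ => ?_
    rw [Finset.prod_insert hi]

theorem IsTate.pow {F : K → K} (hF : IsTate F) (n : ℕ) : IsTate fun x => F x ^ n := by
  simpa using IsTate.prod (Finset.range n) (F := fun _ => F) fun _ _ => hF

/-- Composition with a function into the unit ball. -/
theorem IsTate.comp {F G : K → K} (hF : IsTate F) (hG : IsTate G)
    (h : ∀ x, ‖x‖ ≤ 1 → ‖G x‖ ≤ 1) : IsTate fun x => F (G x) := by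
  refine IsTate.of_unif fun ε hε => ?_
  obtain ⟨P, hP⟩ := hF ε hε
  refine ⟨fun x => P.eval (G x), ?_, fun x hx => hP _ (h x hx)⟩
  have h1 := IsTate.sum P.support (F := fun i x => P.coeff i * G x ^ i)
    fun i _ => (IsTate.const _).mul (hG.pow i)
  refine h1.congr fun x _ => ?_
  rw [eval_eq_sum, Polynomial.sum]

end Tate

section TateUltra

variable {K : Type*} [NormedField K] [IsUltrametricDist K]

/-- A sum of functions whose sup norms tend to zero. -/
theorem IsTate.tsum [CompleteSpace K] {ι : Type*} {F : ι → K → K} {b : ι → ℝ}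
    (hb : Tendsto b cofinite (𝓝 0)) (h : ∀ i, IsTate (F i))
    (hF : ∀ i x, ‖x‖ ≤ 1 → ‖F i x‖ ≤ b i) : IsTate fun x => ∑' i, F i x := by
  classical
  refine IsTate.of_unif fun ε hε => ?_
  have h1 : {i | ¬ b i < ε}.Finite := hb.eventually_lt_const hε
  refine ⟨fun x => ∑ i ∈ h1.toFinset, F i x, IsTate.sum _ fun i _ => h i, fun x hx => ?_⟩
  have hs : Summable fun i => F i x :=
    NonarchimedeanAddGroup.summable_of_tendsto_cofinite_zero
      (squeeze_zero_norm (fun i => hF i x hx) hb)
  rw [← hs.sum_add_tsum_compl (s := h1.toFinset), add_sub_cancel_left]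
  refine IsUltrametricDist.norm_tsum_le_of_forall_le_of_nonneg hε.le fun i => ?_
  have h2 : (i : ι) ∉ h1.toFinset := i.2
  rw [Set.Finite.mem_toFinset, Set.mem_ofPred_eq, not_not] at h2
  exact (hF _ x hx).trans h2.le

variable [IsAlgClosed K]

/-- A function in the Tate class is given by a power series with coefficients tending to zero,
bounded by the sup norm of the function. -/
theorem IsTate.exists_powerSeries [CompleteSpace K] {F : K → K} (hF : IsTate F) :
    ∃ a : ℕ → K, Tendsto a atTop (𝓝 0) ∧ (∀ x, ‖x‖ ≤ 1 → F x = ∑' n, a n * x ^ n) ∧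
      ∀ B : ℝ, (∀ x, ‖x‖ ≤ 1 → ‖F x‖ ≤ B) → ∀ n, ‖a n‖ ≤ B := by
  have hpos : ∀ k : ℕ, (0 : ℝ) < 1 / ((k : ℝ) + 1) := fun k => by positivity
  choose P hP using fun k : ℕ => hF (1 / ((k : ℝ) + 1)) (hpos k)
  have hlim : Tendsto (fun k : ℕ => 1 / ((k : ℝ) + 1)) atTop (𝓝 0) :=
    tendsto_one_div_add_atTop_nhds_zero_nat
  have hdiff : ∀ k l : ℕ, k ≤ l → ∀ n, ‖(P k).coeff n - (P l).coeff n‖ ≤ 1 / ((k : ℝ) + 1) := by
    intro k l hkl n
    rw [← coeff_sub]
    refine norm_coeff_le _ (fun x hx => ?_) n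
    rw [eval_sub]
    have h1 : eval x (P k) - eval x (P l) = (F x - eval x (P l)) - (F x - eval x (P k)) := by ring
    rw [h1]
    refine (norm_sub_le_max' _ _).trans (max_le ?_ (hP k x hx))
    refine (hP l x hx).trans ?_
    have : (k : ℝ) ≤ l := by exact_mod_cast hkl
    gcongr
  have hcau : ∀ n, CauchySeq fun k => (P k).coeff n := by
    intro n
    refine cauchySeq_of_le_tendsto_0 (fun k => 2 * (1 / ((k : ℝ) + 1))) ?_ ?_
    · intro k l N hk hl
      rw [dist_eq_norm]
      have h1 : (P k).coeff n - (P l).coeff n =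
          ((P N).coeff n - (P l).coeff n) - ((P N).coeff n - (P k).coeff n) := by ring
      rw [h1]
      have h2 := hdiff N l hl n
      have h3 := hdiff N k hk n
      refine (norm_sub_le _ _).trans ?_
      linarith
    · simpa using hlim.const_mul 2
  choose a ha using fun n => cauchySeq_tendsto_of_complete (hcau n)
  have hapx : ∀ k n, ‖(P k).coeff n - a n‖ ≤ 1 / ((k : ℝ) + 1) := by
    intro k n
    have h1 : Tendsto (fun l => ‖(P k).coeff n - (P l).coeff n‖) atTop
        (𝓝 ‖(P k).coeff n - a n‖) := (tendsto_const_nhds.sub (ha n)).norm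
    refine le_of_tendsto h1 ?_
    filter_upwards [eventually_ge_atTop k] with l hl
    exact hdiff k l hl n
  have ha0 : Tendsto a atTop (𝓝 0) := by
    rw [Metric.tendsto_atTop]
    intro ε hε
    obtain ⟨k, hk⟩ := (hlim.eventually_lt_const hε).exists
    refine ⟨(P k).natDegree + 1, fun n hn => ?_⟩
    have h1 := hapx k n
    rw [coeff_eq_zero_of_natDegree_lt (by omega), zero_sub, norm_neg] at h1
    rw [dist_zero_right]
    exact h1.trans_lt hk
  refine ⟨a, ha0, fun x hx => ?_, fun B hB n => ?_⟩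
  · have h1 : ∀ k : ℕ, ‖F x - ∑' n, a n * x ^ n‖ ≤ 1 / ((k : ℝ) + 1) := by
      intro k
      have h2 : eval x (P k) = ∑' n, (P k).coeff n * x ^ n := by
        rw [eval_eq_sum_range, tsum_eq_sum]
        intro n hn
        rw [Finset.mem_range, not_lt] at hn
        rw [coeff_eq_zero_of_natDegree_lt (by omega), zero_mul]
      have h3 : Summable fun n => (P k).coeff n * x ^ n := by
        apply summable_of_ne_finset_zero (s := Finset.range ((P k).natDegree + 1))
        intro n hn
        rw [Finset.mem_range, not_lt] at hn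
        rw [coeff_eq_zero_of_natDegree_lt (by omega), zero_mul]
      have h4 : F x - ∑' n, a n * x ^ n =
          (F x - eval x (P k)) + ∑' n, ((P k).coeff n - a n) * x ^ n := by
        have h5 : ∑' n, ((P k).coeff n - a n) * x ^ n =
            ∑' n, (P k).coeff n * x ^ n - ∑' n, a n * x ^ n := by
          rw [← h3.tsum_sub (summable_pow ha0 hx)]
          apply tsum_congr
          intro n
          ring
        rw [h5, h2]
        ring
      rw [h4]
      refine (IsUltrametricDist.norm_add_le_max _ _).trans (max_le (hP k x hx) ?_)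
      refine IsUltrametricDist.norm_tsum_le_of_forall_le_of_nonneg (hpos k).le fun n => ?_
      rw [norm_mul, norm_pow]
      exact (mul_le_of_le_one_right (norm_nonneg _) (pow_le_one₀ (norm_nonneg _) hx)).trans
        (hapx k n)
    have h2 : ‖F x - ∑' n, a n * x ^ n‖ ≤ 0 := ge_of_tendsto' hlim h1
    exact sub_eq_zero.1 (norm_le_zero_iff.1 h2)
  · have hB0 : 0 ≤ B := (norm_nonneg _).trans (hB 0 (by simp))
    have h1 : ∀ k : ℕ, ‖a n‖ ≤ B + 1 / ((k : ℝ) + 1) := by
      intro k
      have h2 : ‖(P k).coeff n‖ ≤ B + 1 / ((k : ℝ) + 1) := by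
        refine norm_coeff_le _ (fun x hx => ?_) n
        have h3 : eval x (P k) = F x - (F x - eval x (P k)) := by ring
        rw [h3]
        refine (norm_sub_le _ _).trans (add_le_add (hB x hx) (hP k x hx))
      have h3 : a n = (P k).coeff n - ((P k).coeff n - a n) := by ring
      rw [h3]
      refine (norm_sub_le_max' _ _).trans (max_le h2 ((hapx k n).trans ?_))
      linarith
    have h2 : Tendsto (fun k : ℕ => B + 1 / ((k : ℝ) + 1)) atTop (𝓝 B) := by
      simpa using hlim.const_add B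
    exact ge_of_tendsto' h2 h1

/-- **Identity theorem**: a function in the Tate class with infinitely many zeros in the closed
unit ball is zero there. -/
theorem IsTate.eq_zero_of_infinite [CompleteSpace K] {F : K → K} (hF : IsTate F)
    (h : {x : K | ‖x‖ ≤ 1 ∧ F x = 0}.Infinite) {x : K} (hx : ‖x‖ ≤ 1) : F x = 0 := by
  obtain ⟨a, ha, h1, -⟩ := hF.exists_powerSeries
  have h2 := GH.eq_zero_of_infinite ha (h.mono fun y hy => ⟨hy.1, by rw [← h1 y hy.1]; exact hy.2⟩)
  rw [h1 x hx]
  simp [h2]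

theorem IsTate.eq_of_infinite [CompleteSpace K] {F G : K → K} (hF : IsTate F) (hG : IsTate G)
    (h : {x : K | ‖x‖ ≤ 1 ∧ F x = G x}.Infinite) {x : K} (hx : ‖x‖ ≤ 1) : F x = G x := by
  refine sub_eq_zero.1 ((hF.sub hG).eq_zero_of_infinite (h.mono fun y hy => ⟨hy.1, ?_⟩) hx)
  exact sub_eq_zero.2 hy.2

end TateUltra

end GH
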