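import Pool.Agent.GH.Base
import Pool.Agent.GH.Param
import Pool.Agent.GH.TateBase

open PowerSeries Filter Topology

noncomputable section

namespace GH

/-! Valuations of the ghost coefficients, `p = 2`. -/

/-! ### Helper lemmas (prefix `gv_`) -/

/-- The multiplicities as a truncated minimum. -/
theorem gv_mult_eq (n m : ℕ) : mult 2 n (2 * m) =
    min (n - dimOne (2 * m)) (m / 2 - 1 - dimOne (2 * m) - n) := by
  unfold mult sfun dimNew dimP
  generalize dimOne (2 * m) = d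
  rw [if_pos rfl]
  split_ifs <;> omega

theorem gv_dimOne (m : ℕ) : dimOne (2 * m) = if m % 6 = 1 then m / 6 - 1 else m / 6 := by
  unfold dimOne
  split_ifs <;> omega

/-- The increments of the multiplicities. -/
theorem gv_mult_succ (n m : ℕ) : mult 2 (n + 1) (2 * m) +
      (if 3 * (n + 1) + 1 ≤ m ∧ m + 1 ≤ 4 * (n + 1) then 1 else 0) =
    mult 2 n (2 * m) +
      (if 4 * (n + 1) + 2 ≤ m ∧ m ≤ 6 * (n + 1) + 1 ∧ m ≠ 6 * (n + 1) then 1 else 0) := by
  rw [gv_mult_eq, gv_mult_eq, gv_dimOne]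
  split_ifs <;> omega

theorem gv_mult_eq_zero {n m : ℕ} (h : 6 * n + 2 ≤ m) : mult 2 n (2 * m) = 0 := by
  rw [gv_mult_eq, gv_dimOne]
  split_ifs <;> omega

theorem gv_card_neg (n M : ℕ) (hM : 4 * n ≤ M) :
    ∑ m ∈ Finset.range M, (if 3 * n + 1 ≤ m ∧ m + 1 ≤ 4 * n then 1 else 0) = n - 1 := by
  rw [← Finset.card_filter]
  have h1 : (Finset.range M).filter (fun m => 3 * n + 1 ≤ m ∧ m + 1 ≤ 4 * n) =
      Finset.Ico (3 * n + 1) (4 * n) := by
    ext m
    simp only [Finset.mem_filter, Finset.mem_range, Finset.mem_Ico]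
    omega
  rw [h1, Nat.card_Ico]
  omega

theorem gv_card_pos (n M : ℕ) (hM : 6 * n + 2 ≤ M) (hn : 1 ≤ n) :
    ∑ m ∈ Finset.range M, (if 4 * n + 2 ≤ m ∧ m ≤ 6 * n + 1 ∧ m ≠ 6 * n then 1 else 0) =
      2 * n - 1 := by
  rw [← Finset.card_filter]
  have h1 : (Finset.range M).filter (fun m => 4 * n + 2 ≤ m ∧ m ≤ 6 * n + 1 ∧ m ≠ 6 * n) =
      (Finset.Ico (4 * n + 2) (6 * n + 2)).erase (6 * n) := by
    ext m
    simp only [Finset.mem_filter, Finset.mem_range, Finset.mem_Ico, Finset.mem_erase]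
    omega
  rw [h1, Finset.card_erase_of_mem (by rw [Finset.mem_Ico]; omega), Nat.card_Ico]
  omega

theorem gv_sum_mult_of_le (n M : ℕ) (hM : 6 * n + 2 ≤ M) :
    ∑ m ∈ Finset.range M, mult 2 n (2 * m) = n * (n + 1) / 2 := by
  induction n generalizing M with
  | zero =>
    rw [Finset.sum_eq_zero]
    · rfl
    · intro m _
      rw [gv_mult_eq, Nat.zero_sub, Nat.zero_min]
  | succ n ih =>
    have h1 : ∑ m ∈ Finset.range M, (mult 2 (n + 1) (2 * m) +
        (if 3 * (n + 1) + 1 ≤ m ∧ m + 1 ≤ 4 * (n + 1) then 1 else 0)) =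
        ∑ m ∈ Finset.range M, (mult 2 n (2 * m) +
        (if 4 * (n + 1) + 2 ≤ m ∧ m ≤ 6 * (n + 1) + 1 ∧ m ≠ 6 * (n + 1) then 1 else 0)) :=
      Finset.sum_congr rfl fun m _ => gv_mult_succ n m
    rw [Finset.sum_add_distrib, Finset.sum_add_distrib, gv_card_neg (n + 1) M (by omega),
      gv_card_pos (n + 1) M (by omega) (by omega), ih M (by omega)] at h1
    have h2 : (n + 1) * (n + 1 + 1) / 2 = n * (n + 1) / 2 + (n + 1) := by
      rw [show (n + 1) * (n + 1 + 1) = n * (n + 1) + (n + 1) * 2 by ring,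
        Nat.add_mul_div_right _ _ (by norm_num)]
    omega

theorem gv_norm_sub_le (m : ℕ) : ‖((25 : C2) ^ m - 1)‖ ≤ 1 / 8 := by
  have h1 : ∃ c : ℕ, 25 ^ m = 8 * c + 1 := by
    induction m with
    | zero => exact ⟨0, rfl⟩
    | succ m ih =>
      obtain ⟨c, hc⟩ := ih
      exact ⟨25 * c + 3, by rw [pow_succ, hc]; ring⟩
  obtain ⟨c, hc⟩ := h1
  have h2 : (25 : C2) ^ m - 1 = 8 * (c : C2) := by
    have h3 : (25 : C2) ^ m = ((25 ^ m : ℕ) : C2) := by push_cast; rfl
    rw [h3, hc]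
    push_cast
    ring
  have h8 : ‖(8 : C2)‖ = 1 / 8 := by
    have h1 : (8 : C2) = algebraMap ℚ_[2] C2 ((2 : ℕ) ^ 3) := by
      rw [map_pow, map_natCast]
      norm_num
    rw [h1, norm_algebraMap', norm_pow, Padic.norm_p]
    norm_num
  rw [h2, norm_mul, h8]
  exact mul_le_of_le_one_right (by norm_num) (IsUltrametricDist.norm_natCast_le_one C2 c)

/-! ### The statements of the row -/

/-- The ghost coefficient as a finite product over `k = 2m`. -/
theorem ghost_eq_prod (w : C2) (n : ℕ) :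
    ghost 2 w n = ∏ m ∈ Finset.range (6 * n + 2), (w - (25 ^ m - 1)) ^ mult 2 n (2 * m) := by
  classical
  unfold ghost
  rw [finprod_eq_prod_of_mulSupport_subset (s := (Finset.range (6 * n + 2)).image fun m => 2 * m)]
  · rw [Finset.prod_image (fun a _ b _ h => by simpa using h)]
    refine Finset.prod_congr rfl fun m _ => ?_
    rw [if_pos (even_two_mul m), pow_mul]
    norm_num
  · intro k hk
    rw [Function.mem_mulSupport] at hk
    by_cases hev : Even k
    · rw [if_pos hev] at hk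
      obtain ⟨m, rfl⟩ := hev
      rw [← two_mul] at hk ⊢
      rw [Finset.coe_image, Set.mem_image]
      refine ⟨m, ?_, rfl⟩
      rw [Finset.mem_coe, Finset.mem_range]
      by_contra hc
      apply hk
      rw [gv_mult_eq_zero (by omega), pow_zero]
    · rw [if_neg hev] at hk
      exact absurd rfl hk

/-- `deg g_n = n(n+1)/2`. -/
theorem sum_mult (n : ℕ) : ∑ m ∈ Finset.range (6 * n + 2), mult 2 n (2 * m) = n * (n + 1) / 2 :=
  gv_sum_mult_of_le n _ le_rfl

/-- Outside the central disc. -/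
theorem norm_ghost_outer {w : C2} (h1 : 1 / 8 < ‖w‖) (n : ℕ) :
    ‖ghost 2 w n‖ = ‖w‖ ^ (n * (n + 1) / 2) := by
  rw [ghost_eq_prod, norm_prod, ← sum_mult, ← Finset.prod_pow_eq_pow_sum]
  refine Finset.prod_congr rfl fun m _ => ?_
  rw [norm_pow, norm_sub_of_lt ((gv_norm_sub_le m).trans_lt h1)]

/-- On the central disc. -/
theorem norm_ghost_wx {x : C2} (hx : ‖x‖ ≤ 1) (n : ℕ) :
    ‖ghost 2 (wx x) n‖ = ∏ m ∈ Finset.range (6 * n + 2), (‖x - m‖ / 8) ^ mult 2 n (2 * m) := by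
  rw [ghost_eq_prod, norm_prod]
  refine Finset.prod_congr rfl fun m _ => ?_
  rw [norm_pow, ← wx_natCast, norm_wx_sub hx (IsUltrametricDist.norm_natCast_le_one C2 m)]

end GH
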