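import Pool.Agent.GH.Fred3

/-!
# Project GH (MP_370013_nt): Newton polygons; the Newton polygon of a Fredholm series from
estimates of minors
-/

set_option autoImplicit false

open Filter Topology

namespace GH

section np

variable {K : Type*} [NormedField K]

theorem isMinorant_iff {p : ℕ} (hp : 1 < p) (a : ℕ → K) (α β : ℝ) :
    IsMinorant p a α β ↔ ∀ i, ‖a i‖ ≤ (p : ℝ) ^ (-β) * ((p : ℝ) ^ (-α)) ^ i := by
  have hp1 : (1 : ℝ) < p := by exact_mod_cast hp
  have hp0 : (0 : ℝ) < p := zero_lt_one.trans hp1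
  unfold IsMinorant
  refine forall_congr' fun i => ?_
  have e : (p : ℝ) ^ (-β) * ((p : ℝ) ^ (-α)) ^ i = (p : ℝ) ^ (-(α * i + β)) := by
    rw [← Real.rpow_natCast, ← Real.rpow_mul hp0.le, ← Real.rpow_add hp0]
    congr 1
    ring
  rw [e]
  by_cases h : a i = 0
  · simp only [h, ne_eq, not_true_eq_false, false_implies, norm_zero, true_iff]
    positivity
  · have hn : 0 < ‖a i‖ := norm_pos_iff.2 h
    simp only [ne_eq, h, not_false_eq_true, true_implies]
    rw [← Real.logb_le_iff_le_rpow hp1 hn]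
    constructor <;> intro h' <;> linarith

theorem newtonPolygon_congr {p : ℕ} {a b : ℕ → K}
    (h : ∀ α β, IsMinorant p a α β ↔ IsMinorant p b α β) :
    newtonPolygon p a = newtonPolygon p b := by
  funext x
  unfold newtonPolygon
  simp only [h]

theorem newtonPolygon_congr_norm {p : ℕ} {a b : ℕ → K} (h : ∀ n, ‖a n‖ = ‖b n‖) :
    newtonPolygon p a = newtonPolygon p b := by
  refine newtonPolygon_congr fun α β => ?_
  unfold IsMinorant
  refine forall_congr' fun i => ?_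
  rw [h i, ← norm_ne_zero_iff, h i, norm_ne_zero_iff]

/-- The same for sequences over different fields. -/
theorem isMinorant_congr_norm {K' : Type*} [NormedField K'] {p : ℕ} {a : ℕ → K} {b : ℕ → K'}
    (h : ∀ n, ‖a n‖ = ‖b n‖) (α β : ℝ) : IsMinorant p a α β ↔ IsMinorant p b α β := by
  unfold IsMinorant
  refine forall_congr' fun i => ?_
  rw [h i, ← norm_ne_zero_iff, h i, norm_ne_zero_iff]

/-- Comparison of Newton polygons: `a` is bounded by every minorant of `b`, with equality at the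
places where a line touches `b` in one point; `b` decays faster than every geometric sequence. -/
theorem newtonPolygon_eq_of_touch {p : ℕ} (hp : 1 < p) {a b : ℕ → K}
    (h1 : ∀ A r : ℝ, 0 < A → 0 < r → (∀ k, ‖b k‖ ≤ A * r ^ k) → ∀ n, ‖a n‖ ≤ A * r ^ n)
    (h2 : ∀ A r : ℝ, 0 < A → 0 < r → ∀ n, ‖b n‖ = A * r ^ n → (∀ k, k ≠ n → ‖b k‖ < A * r ^ k) →
      ‖a n‖ = ‖b n‖)
    (h3 : ∀ r : ℝ, 0 < r → Tendsto (fun n => ‖b n‖ * r ^ n) atTop (𝓝 0)) :
    newtonPolygon p a = newtonPolygon p b := by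
  have hp1 : (1 : ℝ) < p := by exact_mod_cast hp
  have hp0 : (0 : ℝ) < p := zero_lt_one.trans hp1
  refine newtonPolygon_congr fun α β => ?_
  rw [isMinorant_iff hp, isMinorant_iff hp]
  set A : ℝ := (p : ℝ) ^ (-β) with hA
  set r : ℝ := (p : ℝ) ^ (-α) with hr
  have hA0 : 0 < A := Real.rpow_pos_of_pos hp0 _
  have hr0 : 0 < r := Real.rpow_pos_of_pos hp0 _
  refine ⟨fun h => ?_, fun h => h1 A r hA0 hr0 h⟩
  by_contra hc
  push Not at hc
  obtain ⟨i, hi⟩ := hc
  -- the maximum of `‖b k‖ r⁻ᵏ`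
  have hbi : 0 < ‖b i‖ * r⁻¹ ^ i := by
    have : 0 < ‖b i‖ := lt_of_le_of_lt (by positivity) hi
    positivity
  have h4 := h3 r⁻¹ (inv_pos.2 hr0)
  obtain ⟨N, hN⟩ := eventually_atTop.1 (h4.eventually_lt_const hbi)
  have hiN : i < N := by
    by_contra hc2
    exact lt_irrefl _ (hN i (by omega))
  obtain ⟨m, hm, hmax⟩ := Finset.exists_max_image (Finset.range N) (fun k => ‖b k‖ * r⁻¹ ^ k)
    ⟨i, Finset.mem_range.2 hiN⟩
  have hge : ‖b i‖ * r⁻¹ ^ i ≤ ‖b m‖ * r⁻¹ ^ m := hmax i (Finset.mem_range.2 hiN)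
  have hall : ∀ k, ‖b k‖ * r⁻¹ ^ k ≤ ‖b m‖ * r⁻¹ ^ m := by
    intro k
    by_cases hk : k < N
    · exact hmax k (Finset.mem_range.2 hk)
    · exact (hN k (by omega)).le.trans hge
  -- the last maximum
  have hne : ((Finset.range N).filter fun k => ‖b k‖ * r⁻¹ ^ k = ‖b m‖ * r⁻¹ ^ m).Nonempty :=
    ⟨m, Finset.mem_filter.2 ⟨hm, rfl⟩⟩
  set n := ((Finset.range N).filter fun k => ‖b k‖ * r⁻¹ ^ k = ‖b m‖ * r⁻¹ ^ m).max' hne with hn
  have hn1 : ‖b n‖ * r⁻¹ ^ n = ‖b m‖ * r⁻¹ ^ m :=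
    (Finset.mem_filter.1 (Finset.max'_mem _ hne)).2
  have hn2 : ∀ k, n < k → ‖b k‖ * r⁻¹ ^ k < ‖b n‖ * r⁻¹ ^ n := by
    intro k hk
    rw [hn1]
    refine lt_of_le_of_ne (hall k) fun hc2 => ?_
    by_cases hkN : k < N
    · have := Finset.le_max' ((Finset.range N).filter
        fun k => ‖b k‖ * r⁻¹ ^ k = ‖b m‖ * r⁻¹ ^ m) k
        (Finset.mem_filter.2 ⟨Finset.mem_range.2 hkN, hc2⟩)
      omega
    · exact absurd (hN k (by omega)) (not_lt.2 (by rw [hc2]; exact hge))
  set B := ‖b n‖ * r⁻¹ ^ n with hB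
  have hBpos : 0 < B := by
    rw [hn1]
    exact hbi.trans_le hge
  have hBA : A < B := by
    have h5 : A < ‖b i‖ * r⁻¹ ^ i := by
      rw [inv_pow, ← div_eq_mul_inv, lt_div_iff₀ (by positivity)]
      exact hi
    rw [hn1]
    exact h5.trans_le hge
  -- a slightly smaller radius isolates `n`
  obtain ⟨s, hs0, hsr, hsN⟩ : ∃ s : ℝ, 0 < s ∧ s < r ∧
      ∀ k, n < k → ‖b k‖ * s⁻¹ ^ k < ‖b n‖ * s⁻¹ ^ n := by
    -- decay for the radius `r / 2`
    have h5 := h3 (r / 2)⁻¹ (by positivity)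
    obtain ⟨N2, hN2⟩ := eventually_atTop.1 (h5.eventually_lt_const hBpos)
    -- finitely many conditions
    have h6 : ∀ k ∈ (Finset.range N2).filter (fun k => n < k), ∀ᶠ s in 𝓝 r,
        ‖b k‖ * s⁻¹ ^ k < ‖b n‖ * s⁻¹ ^ n := by
      intro k hk
      rw [Finset.mem_filter] at hk
      have c1 : ContinuousAt (fun s : ℝ => ‖b k‖ * s⁻¹ ^ k) r :=
        continuousAt_const.mul ((continuousAt_inv₀ hr0.ne').pow k)
      have c2 : ContinuousAt (fun s : ℝ => ‖b n‖ * s⁻¹ ^ n) r :=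
        continuousAt_const.mul ((continuousAt_inv₀ hr0.ne').pow n)
      exact c1.eventually_lt c2 (hn2 k hk.2)
    have h7 : ∀ᶠ s in 𝓝 r, ∀ k ∈ (Finset.range N2).filter (fun k => n < k),
        ‖b k‖ * s⁻¹ ^ k < ‖b n‖ * s⁻¹ ^ n := by
      rw [Filter.eventually_all_finset]
      exact h6
    have h8 : ∀ᶠ s in 𝓝 r, r / 2 < s := lt_mem_nhds (half_lt_self hr0)
    obtain ⟨s, hs, hsr⟩ := ((h7.and h8).filter_mono (nhdsWithin_le_nhds (s := Set.Iio r))).and
      self_mem_nhdsWithin |>.exists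
    have hs2 : 0 < s := (half_pos hr0).trans hs.2
    refine ⟨s, hs2, hsr, fun k hk => ?_⟩
    by_cases hkN : k < N2
    · exact hs.1 k (Finset.mem_filter.2 ⟨Finset.mem_range.2 hkN, hk⟩)
    · have e1 : ‖b k‖ * s⁻¹ ^ k ≤ ‖b k‖ * (r / 2)⁻¹ ^ k := by
        refine mul_le_mul_of_nonneg_left (pow_le_pow_left₀ (by positivity) ?_ k) (norm_nonneg _)
        exact inv_anti₀ (by positivity) hs.2.le
      have e2 : B ≤ ‖b n‖ * s⁻¹ ^ n := by
        rw [hB]
        refine mul_le_mul_of_nonneg_left (pow_le_pow_left₀ (by positivity) ?_ n) (norm_nonneg _)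
        exact inv_anti₀ hs2 (le_of_lt hsr)
      exact (e1.trans_lt (hN2 k (by omega))).trans_le e2
  -- the line through `n` of slope `s`
  have hbn : 0 < ‖b n‖ := by
    by_contra hc2
    have : ‖b n‖ = 0 := le_antisymm (not_lt.1 hc2) (norm_nonneg _)
    rw [hB, this, zero_mul] at hBpos
    exact lt_irrefl _ hBpos
  have hsn : 0 < ‖b n‖ * s⁻¹ ^ n := by positivity
  have hlt : ∀ k, k ≠ n → ‖b k‖ < (‖b n‖ * s⁻¹ ^ n) * s ^ k := by
    intro k hk
    have h9 : ‖b k‖ * s⁻¹ ^ k < ‖b n‖ * s⁻¹ ^ n := by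
      rcases lt_or_gt_of_ne hk with hk | hk
      · -- `k < n`: compare with the radius `r`
        have e0 : ‖b k‖ * r⁻¹ ^ k ≤ ‖b n‖ * r⁻¹ ^ n := by
          rw [← hB, hn1]
          exact hall k
        have e1 : s⁻¹ = r⁻¹ * (r / s) := by field_simp
        have hq : 1 < r / s := (one_lt_div hs0).2 hsr
        calc ‖b k‖ * s⁻¹ ^ k = (‖b k‖ * r⁻¹ ^ k) * (r / s) ^ k := by rw [e1, mul_pow]; ring
          _ ≤ (‖b n‖ * r⁻¹ ^ n) * (r / s) ^ k := mul_le_mul_of_nonneg_right e0 (by positivity)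
          _ < (‖b n‖ * r⁻¹ ^ n) * (r / s) ^ n := by
              refine mul_lt_mul_of_pos_left (pow_lt_pow_right₀ hq hk) ?_
              rw [← hB]
              exact hBpos
          _ = ‖b n‖ * s⁻¹ ^ n := by rw [e1, mul_pow]; ring
      · exact hsN k hk
    rw [inv_pow, ← div_eq_mul_inv, div_lt_iff₀ (by positivity)] at h9
    exact h9
  have h10 : ‖b n‖ = (‖b n‖ * s⁻¹ ^ n) * s ^ n := by
    rw [mul_assoc, ← mul_pow, inv_mul_cancel₀ hs0.ne', one_pow, mul_one]
  have h11 := h2 _ s hsn hs0 n h10 hlt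
  have h12 := h n
  rw [h11] at h12
  have h13 : A * r ^ n < ‖b n‖ := by
    calc A * r ^ n < B * r ^ n := mul_lt_mul_of_pos_right hBA (by positivity)
      _ = ‖b n‖ := by
          rw [hB, mul_assoc, ← mul_pow, inv_mul_cancel₀ hr0.ne', one_pow, mul_one]
  linarith

end np

section fredholm

variable {K : Type*} [NormedField K] [IsUltrametricDist K] [CompleteSpace K]

/-- Diagonal change of basis for `fred`. -/
theorem fred_diag {K : Type*} [NormedField K] (C : ℕ → ℕ → K) (u v : ℕ → K)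
    (huv : ∀ i, u i * v i = 1) (m : ℕ) : fred (fun i j => u i * C i j * v j) m = fred C m := by
  unfold fred
  congr 1
  funext N
  rw [fredBlock_eq, fredBlock_eq, ← fr_charpolyRev, ← fr_charpolyRev]
  congr 1
  refine Finset.sum_congr rfl fun S _ => ?_
  exact pmin_diag (sh C) (fun i => u (i + 1)) (fun i => v (i + 1)) (fun i => huv _) S

omit [IsUltrametricDist K] [CompleteSpace K] in
/-- Diagonal change of basis and compactness. -/
theorem Cpt.diag {w c : ℕ → ℝ} {M : ℕ → ℕ → K} (h : Cpt w c M) (u v : ℕ → K)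
    (huv : ∀ i, u i * v i = 1) :
    Cpt (fun i => w i * ‖v i‖) c (fun i j => u i * M i j * v j) := by
  have hn : ∀ i, ‖u i‖ * ‖v i‖ = 1 := fun i => by rw [← norm_mul, huv, norm_one]
  have hv : ∀ i, 0 < ‖v i‖ := fun i => by
    rw [norm_pos_iff]
    intro h0
    have := huv i
    rw [h0, mul_zero] at this
    exact zero_ne_one this
  refine ⟨fun i => mul_pos (h.pos i) (hv i), h.lim, fun i j => ?_⟩
  rw [norm_mul, norm_mul]
  calc w i * ‖v i‖ * (‖u i‖ * ‖M i j‖ * ‖v j‖) =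
      (‖u i‖ * ‖v i‖) * ((w i * ‖M i j‖) * ‖v j‖) := by ring
    _ = (w i * ‖M i j‖) * ‖v j‖ := by rw [hn, one_mul]
    _ ≤ (w j * c j) * ‖v j‖ := mul_le_mul_of_nonneg_right (h.le i j) (norm_nonneg _)
    _ = _ := by ring

omit [IsUltrametricDist K] [CompleteSpace K] in
theorem np_pmin_eq {M : ℕ → ℕ → K} {n : ℕ} {S : Finset ℕ} (hS : S.card = n) :
    pmin M S = (Matrix.of fun i j : Fin n => M (S.orderEmbOfFin hS i)
      (S.orderEmbOfFin hS j)).det := by
  unfold pmin
  let e : Fin n ≃ S := (S.orderIsoOfFin hS).toEquiv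
  rw [← Matrix.det_submatrix_equiv_self e]
  congr 1

omit [IsUltrametricDist K] [CompleteSpace K] in
theorem np_lead (C : ℕ → ℕ → K) (n : ℕ) :
    pmin (sh C) (Finset.range n) = (Matrix.of fun i j : Fin n => C (i + 1) (j + 1)).det := by
  unfold pmin
  let e : Fin n ≃ Finset.range n :=
    { toFun := fun i => ⟨i.1, Finset.mem_range.2 i.2⟩
      invFun := fun i => ⟨i.1, Finset.mem_range.1 i.2⟩
      left_inv := fun i => rfl
      right_inv := fun i => rfl }
  rw [← Matrix.det_submatrix_equiv_self e]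
  rfl

/-- **The Newton polygon of a Fredholm series from estimates of minors.** `D n` is the leading
minor of size `n`. -/
theorem newtonPolygon_fred {p : ℕ} (hp : 1 < p) {w c : ℕ → ℝ} {C : ℕ → ℕ → K}
    (hM : Cpt w c (sh C)) (D : ℕ → K)
    (hD : ∀ n, D n = (Matrix.of fun i j : Fin n => C (i + 1) (j + 1)).det)
    (h1 : ∀ A r : ℝ, 0 < A → 0 < r → (∀ k, ‖D k‖ ≤ A * r ^ k) → ∀ (n : ℕ) (a b : Fin n → ℕ),
      ‖(Matrix.of fun i j : Fin n => C (a i + 1) (b j + 1)).det‖ ≤ A * r ^ n)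
    (h2 : ∀ A r : ℝ, 0 < A → 0 < r → ∀ n, ‖D n‖ = A * r ^ n → (∀ k, k ≠ n → ‖D k‖ < A * r ^ k) →
      ∀ a b : Fin n → ℕ, (∃ i, n ≤ a i ∨ n ≤ b i) →
        ‖(Matrix.of fun i j : Fin n => C (a i + 1) (b j + 1)).det‖ < A * r ^ n) :
    newtonPolygon p (fred C) = newtonPolygon p D := by
  have hf : fred C = fredCoeff (sh C) := funext fun m => fred_eq hM m
  rw [hf]
  refine newtonPolygon_eq_of_touch hp ?_ ?_ ?_
  · intro A r hA hr hb n
    unfold fredCoeff
    rw [fr_norm_neg_one_pow_mul]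
    refine ud_tsum_le _ (by positivity) fun S => ?_
    rw [np_pmin_eq S.2]
    exact h1 A r hA hr hb n _ _
  · intro A r hA hr n hn hb
    unfold fredCoeff
    rw [fr_norm_neg_one_pow_mul]
    have hlead : ‖pmin (sh C) (Finset.range n)‖ = ‖D n‖ := by rw [np_lead, hD]
    rw [← hlead]
    have h0 : 0 < ‖D n‖ := by rw [hn]; positivity
    refine ud_tsum_eq (f := fun S : {S : Finset ℕ // S.card = n} => pmin (sh C) S.1)
      (fr_tendsto hM n) ⟨Finset.range n, Finset.card_range n⟩ (by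
        show 0 < ‖pmin (sh C) (Finset.range n)‖
        rw [hlead]; exact h0) fun S hS => ?_
    show ‖pmin (sh C) S.1‖ < ‖pmin (sh C) (Finset.range n)‖
    rw [hlead, hn, np_pmin_eq S.2]
    refine h2 A r hA hr n hn hb _ _ ?_
    by_contra hc
    push Not at hc
    apply hS
    apply Subtype.ext
    refine Finset.eq_of_subset_of_card_le (fun x hx => ?_) (by
      rw [S.2]
      show (Finset.range n).card ≤ n
      rw [Finset.card_range])
    show x ∈ Finset.range n
    rw [Finset.mem_range]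
    obtain ⟨i, hi⟩ := (Finset.range_orderEmbOfFin S.1 S.2).symm ▸ (show x ∈ (S.1 : Set ℕ) from hx)
    rw [← hi]
    exact (hc i).1
  · intro r hr
    -- decay of the leading minors
    obtain ⟨C0, hC1, hC⟩ := fr_bdd hM.lim
    have hDle : ∀ n, ‖D n‖ ≤ ∏ j ∈ Finset.range n, c j := fun n => by
      rw [hD, ← np_lead]
      exact fr_pmin_le hM _
    have h4 : Tendsto (fun n => c n) atTop (𝓝 0) := by
      have := hM.lim
      rwa [Nat.cofinite_eq_atTop] at this
    obtain ⟨N, hN⟩ := eventually_atTop.1 (h4.eventually_lt_const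
      (show (0 : ℝ) < 1 / (2 * r) by positivity))
    have h5 : ∀ n, N ≤ n → (∏ j ∈ Finset.range n, c j) * r ^ n ≤
        (C0 ^ N * r ^ N) * (1 / 2) ^ (n - N) := by
      intro n hn
      obtain ⟨k, rfl⟩ := Nat.exists_eq_add_of_le hn
      rw [Finset.prod_range_add, Nat.add_sub_cancel_left, pow_add]
      have a1 : ∏ j ∈ Finset.range N, c j ≤ C0 ^ N := by
        calc ∏ j ∈ Finset.range N, c j ≤ ∏ j ∈ Finset.range N, C0 :=
              Finset.prod_le_prod (fun i _ => hM.nonneg i) fun i _ => hC i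
          _ = C0 ^ N := by rw [Finset.prod_const, Finset.card_range]
      have a2 : ∏ j ∈ Finset.range k, c (N + j) ≤ (1 / (2 * r)) ^ k := by
        calc ∏ j ∈ Finset.range k, c (N + j) ≤ ∏ j ∈ Finset.range k, (1 / (2 * r)) :=
              Finset.prod_le_prod (fun i _ => hM.nonneg _) fun i _ => (hN _ (by omega)).le
          _ = _ := by rw [Finset.prod_const, Finset.card_range]
      have e : (1 / (2 * r)) ^ k * r ^ k = (1 / 2) ^ k := by
        rw [← mul_pow]
        congr 1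
        field_simp
      calc (∏ j ∈ Finset.range N, c j) * (∏ j ∈ Finset.range k, c (N + j)) * (r ^ N * r ^ k)
          ≤ C0 ^ N * (1 / (2 * r)) ^ k * (r ^ N * r ^ k) := by
            refine mul_le_mul_of_nonneg_right (mul_le_mul a1 a2
              (Finset.prod_nonneg fun i _ => hM.nonneg _) (by positivity)) (by positivity)
        _ = (C0 ^ N * r ^ N) * ((1 / (2 * r)) ^ k * r ^ k) := by ring
        _ = _ := by rw [e]
    have h6 : Tendsto (fun n : ℕ => (C0 ^ N * r ^ N) * (1 / 2 : ℝ) ^ (n - N)) atTop (𝓝 0) := by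
      have a1 := (tendsto_pow_atTop_nhds_zero_of_lt_one (r := (1 / 2 : ℝ)) (by norm_num)
        (by norm_num)).comp (tendsto_sub_atTop_nat N)
      simpa using a1.const_mul (C0 ^ N * r ^ N)
    refine squeeze_zero' (Eventually.of_forall fun n => by positivity) ?_ h6
    filter_upwards [eventually_ge_atTop N] with n hn
    exact (mul_le_mul_of_nonneg_right (hDle n) (by positivity)).trans (h5 n hn)

end fredholm

end GH
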