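import Pool.Agent.GH.Base
import Pool.Agent.GH.TateBase

/-!
# Ghost multiplicities for `p = 3` (helper10)

The case `p = 3`, tame level one, of `GhostVal`.
-/

open PowerSeries Filter Topology

noncomputable section

namespace GH

/-- The multiplicities as a truncated minimum, `p = 3`. -/
theorem gw_mult_eq (n m : ℕ) : mult 3 n (2 * m) =
    min (n - dimOne (2 * m)) (2 * m / 3 - 1 - dimOne (2 * m) - n) := by
  unfold mult sfun dimNew dimP
  generalize dimOne (2 * m) = d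
  rw [if_neg (show ¬ ((3 : ℕ) = 2) by norm_num)]
  split_ifs <;> omega

theorem gw_dimOne (m : ℕ) : dimOne (2 * m) = if m % 6 = 1 then m / 6 - 1 else m / 6 := by
  unfold dimOne
  split_ifs <;> omega

/-- The increments of the multiplicities, `p = 3`. -/
theorem gw_mult_succ (n m : ℕ) : mult 3 (n + 1) (2 * m) +
      (if 2 * (n + 1) + 1 ≤ m ∧ m + 1 ≤ 3 * (n + 1) then 1 else 0) =
    mult 3 n (2 * m) +
      (if 3 * (n + 1) + 2 ≤ m ∧ m ≤ 6 * (n + 1) + 1 ∧ m ≠ 6 * (n + 1) then 1 else 0) := by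
  rw [gw_mult_eq, gw_mult_eq, gw_dimOne]
  split_ifs <;> omega

theorem gw_mult_eq_zero {n m : ℕ} (h : 6 * n + 2 ≤ m) : mult 3 n (2 * m) = 0 := by
  rw [gw_mult_eq, gw_dimOne]
  split_ifs <;> omega

theorem gw_card_neg (n M : ℕ) (hM : 3 * n ≤ M) :
    ∑ m ∈ Finset.range M, (if 2 * n + 1 ≤ m ∧ m + 1 ≤ 3 * n then 1 else 0) = n - 1 := by
  rw [← Finset.card_filter]
  have h1 : (Finset.range M).filter (fun m => 2 * n + 1 ≤ m ∧ m + 1 ≤ 3 * n) =
      Finset.Ico (2 * n + 1) (3 * n) := by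
    ext m
    simp only [Finset.mem_filter, Finset.mem_range, Finset.mem_Ico]
    omega
  rw [h1, Nat.card_Ico]
  omega

theorem gw_card_pos (n M : ℕ) (hM : 6 * n + 2 ≤ M) (hn : 1 ≤ n) :
    ∑ m ∈ Finset.range M, (if 3 * n + 2 ≤ m ∧ m ≤ 6 * n + 1 ∧ m ≠ 6 * n then 1 else 0) =
      3 * n - 1 := by
  rw [← Finset.card_filter]
  have h1 : (Finset.range M).filter (fun m => 3 * n + 2 ≤ m ∧ m ≤ 6 * n + 1 ∧ m ≠ 6 * n) =
      (Finset.Ico (3 * n + 2) (6 * n + 2)).erase (6 * n) := by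
    ext m
    simp only [Finset.mem_filter, Finset.mem_range, Finset.mem_Ico, Finset.mem_erase]
    omega
  rw [h1, Finset.card_erase_of_mem (by rw [Finset.mem_Ico]; omega), Nat.card_Ico]
  omega

theorem gw_sum_mult_of_le (n M : ℕ) (hM : 6 * n + 2 ≤ M) :
    ∑ m ∈ Finset.range M, mult 3 n (2 * m) = n * (n + 1) := by
  induction n generalizing M with
  | zero =>
    rw [Finset.sum_eq_zero]
    · rfl
    · intro m _
      rw [gw_mult_eq, Nat.zero_sub, Nat.zero_min]
  | succ n ih =>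
    have h1 : ∑ m ∈ Finset.range M, (mult 3 (n + 1) (2 * m) +
        (if 2 * (n + 1) + 1 ≤ m ∧ m + 1 ≤ 3 * (n + 1) then 1 else 0)) =
        ∑ m ∈ Finset.range M, (mult 3 n (2 * m) +
        (if 3 * (n + 1) + 2 ≤ m ∧ m ≤ 6 * (n + 1) + 1 ∧ m ≠ 6 * (n + 1) then 1 else 0)) :=
      Finset.sum_congr rfl fun m _ => gw_mult_succ n m
    rw [Finset.sum_add_distrib, Finset.sum_add_distrib, gw_card_neg (n + 1) M (by omega),
      gw_card_pos (n + 1) M (by omega) (by omega), ih M (by omega)] at h1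
    have h2 : (n + 1) * (n + 1 + 1) = n * (n + 1) + 2 * (n + 1) := by ring
    omega

/-- `deg g_n = n(n+1)`, `p = 3`. -/
theorem sum_mult3 (n : ℕ) : ∑ m ∈ Finset.range (6 * n + 2), mult 3 n (2 * m) = n * (n + 1) :=
  gw_sum_mult_of_le n _ le_rfl

instance : Fact (Nat.Prime 3) := ⟨Nat.prime_three⟩

theorem gw_norm_three : ‖(3 : PadicComplex 3)‖ = 1 / 3 := by
  have h1 : (3 : PadicComplex 3) = algebraMap ℚ_[3] (PadicComplex 3) ((3 : ℕ) : ℚ_[3]) := by
    rw [map_natCast]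
    norm_num
  rw [h1, norm_algebraMap', Padic.norm_p]
  norm_num

theorem gw_norm_sub_le (m : ℕ) : ‖((7 : PadicComplex 3) ^ m - 1)‖ ≤ 1 / 3 := by
  have h1 : ∃ c : ℕ, 7 ^ m = 3 * c + 1 := by
    induction m with
    | zero => exact ⟨0, rfl⟩
    | succ m ih =>
      obtain ⟨c, hc⟩ := ih
      exact ⟨7 * c + 2, by rw [pow_succ, hc]; ring⟩
  obtain ⟨c, hc⟩ := h1
  have h2 : (7 : PadicComplex 3) ^ m - 1 = 3 * (c : PadicComplex 3) := by
    have h3 : (7 : PadicComplex 3) ^ m = ((7 ^ m : ℕ) : PadicComplex 3) := by push_cast; rfl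
    rw [h3, hc]
    push_cast
    ring
  rw [h2, norm_mul, gw_norm_three]
  exact mul_le_of_le_one_right (by norm_num)
    (IsUltrametricDist.norm_natCast_le_one (PadicComplex 3) c)

/-- The ghost coefficient as a finite product over `k = 2m`, `p = 3`. -/
theorem ghost3_eq_prod (w : PadicComplex 3) (n : ℕ) :
    ghost 3 w n =
      ∏ m ∈ Finset.range (6 * n + 2), (w - (7 ^ (2 * m) - 1)) ^ mult 3 n (2 * m) := by
  classical
  unfold ghost
  rw [finprod_eq_prod_of_mulSupport_subset (s := (Finset.range (6 * n + 2)).image fun m => 2 * m)]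
  · rw [Finset.prod_image (fun a _ b _ h => by simpa using h)]
    refine Finset.prod_congr rfl fun m _ => ?_
    rw [if_pos (even_two_mul m)]
    norm_num
  · intro k hk
    rw [Function.mem_mulSupport] at hk
    by_cases hev : Even k
    · rw [if_pos hev] at hk
      obtain ⟨m, rfl⟩ := hev
      rw [← two_mul] at hk ⊢
      rw [Finset.coe_image, Set.mem_image]
      refine ⟨m, ?_, rfl⟩
      rw [Finset.mem_coe, Finset.mem_range]
      by_contra hc
      apply hk
      rw [gw_mult_eq_zero (by omega), pow_zero]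
    · rw [if_neg hev] at hk
      exact absurd rfl hk

/-- Outside the central disc, `p = 3`. -/
theorem norm_ghost3_outer {w : PadicComplex 3} (h1 : 1 / 3 < ‖w‖) (n : ℕ) :
    ‖ghost 3 w n‖ = ‖w‖ ^ (n * (n + 1)) := by
  rw [ghost3_eq_prod, norm_prod, ← sum_mult3, ← Finset.prod_pow_eq_pow_sum]
  refine Finset.prod_congr rfl fun m _ => ?_
  rw [norm_pow, norm_sub_of_lt ((gw_norm_sub_le _).trans_lt h1)]

end GH
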