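import Mathlib

/-!
# Values of the regularised power sums, general prime `p` (helper10)

`lim_n ∑_{a < p^n, p ∤ a} a^{k-1} (⌊c a/p^n⌋ - p)/c = (1 - c^{-k})(1 - p^{k-1}) B_k/k` in `ℚ_p`,
`c = 1 + 2p`.
-/

open Filter Topology

noncomputable section

namespace GH.ZP

variable {p : ℕ} [Fact p.Prime]

/-- The residues modulo `p^n` prime to `p`. -/
def zO (p n : ℕ) : Finset ℕ := (Finset.range (p ^ n)).filter fun a => ¬ p ∣ a

omit [Fact p.Prime] in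
theorem zmem {n a : ℕ} : a ∈ zO p n ↔ a < p ^ n ∧ ¬ p ∣ a := by
  rw [zO, Finset.mem_filter, Finset.mem_range]

/-- Multiplication by `c` permutes the residues prime to `p`. -/
theorem zperm (n : ℕ) (hn : 1 ≤ n) {c : ℕ} (hc : Nat.Coprime p c) (g : ℕ → ℚ_[p]) :
    ∑ a ∈ zO p n, g (c * a % p ^ n) = ∑ a ∈ zO p n, g a := by
  have hp : p.Prime := Fact.out
  have hpos : 0 < p ^ n := pow_pos hp.pos n
  have hmaps : ∀ a ∈ zO p n, c * a % p ^ n ∈ zO p n := by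
    intro a ha
    rw [zmem] at ha ⊢
    refine ⟨Nat.mod_lt _ hpos, fun hd => ?_⟩
    rw [Nat.dvd_mod_iff (dvd_pow_self p (by omega))] at hd
    rcases (hp.dvd_mul).1 hd with h | h
    · exact hp.one_lt.ne' (Nat.eq_one_of_dvd_coprimes hc dvd_rfl h)
    · exact ha.2 h
  have hinj : Set.InjOn (fun a => c * a % p ^ n) (zO p n : Set ℕ) := by
    intro a ha b hb hab
    rw [Finset.mem_coe, zmem] at ha hb
    have h1 : a ≡ b [MOD p ^ n] :=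
      Nat.ModEq.cancel_left_of_coprime (c := c) (by
        rw [Nat.Coprime.gcd_eq_one]
        exact Nat.Coprime.pow_left _ hc) hab
    exact Nat.ModEq.eq_of_lt_of_lt h1 ha.1 hb.1
  refine Finset.sum_nbij (fun a => c * a % p ^ n) hmaps hinj ?_ fun _ _ => rfl
  exact Finset.surjOn_of_injOn_of_card_le _ hmaps hinj le_rfl

/-- The power sum over the residues prime to `p`. -/
def zS (p : ℕ) [Fact p.Prime] (k n : ℕ) : ℚ_[p] := ∑ a ∈ zO p n, (a : ℚ_[p]) ^ k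

/-- The full power sum. -/
def zF (p : ℕ) [Fact p.Prime] (k n : ℕ) : ℚ_[p] := ∑ a ∈ Finset.range (p ^ n), (a : ℚ_[p]) ^ k

theorem zsplit (k n : ℕ) : zF p k (n + 1) = zS p k (n + 1) + (p : ℚ_[p]) ^ k * zF p k n := by
  have hp : p.Prime := Fact.out
  have h1 : zF p k (n + 1) = zS p k (n + 1) +
      ∑ a ∈ (Finset.range (p ^ (n + 1))).filter (fun a => ¬ ¬ p ∣ a), (a : ℚ_[p]) ^ k := by
    rw [zF, zS, zO, Finset.sum_filter_add_sum_filter_not]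
  rw [h1]
  congr 1
  rw [zF, Finset.mul_sum]
  symm
  refine Finset.sum_nbij (fun b => p * b) ?_ ?_ ?_ ?_
  · intro b hb
    rw [Finset.mem_range] at hb
    rw [Finset.mem_filter, Finset.mem_range, not_not]
    refine ⟨?_, dvd_mul_right p b⟩
    rw [pow_succ']
    exact Nat.mul_lt_mul_of_pos_left hb hp.pos
  · intro a _ b _ h
    exact Nat.eq_of_mul_eq_mul_left hp.pos h
  · intro a ha
    rw [Finset.mem_coe, Finset.mem_filter, Finset.mem_range, not_not] at ha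
    obtain ⟨ha1, b, hb⟩ := ha
    refine ⟨b, ?_, hb.symm⟩
    rw [Finset.mem_coe, Finset.mem_range]
    rw [pow_succ', hb] at ha1
    exact lt_of_mul_lt_mul_left ha1 (Nat.zero_le _)
  · intro b _
    push_cast
    rw [mul_pow]

theorem zp_ne : (p : ℚ_[p]) ≠ 0 := by
  rw [Nat.cast_ne_zero]
  exact (Fact.out : p.Prime).ne_zero

theorem zpow_tendsto : Tendsto (fun n : ℕ => (p : ℚ_[p]) ^ n) atTop (𝓝 0) := by
  apply tendsto_pow_atTop_nhds_zero_of_norm_lt_one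
  exact Padic.norm_p_lt_one

/-- Faulhaber: `p^{-n} ∑_{a < p^n} a^k → B_k`. -/
theorem ztendsto_F (k : ℕ) :
    Tendsto (fun n : ℕ => zF p k n / (p : ℚ_[p]) ^ n) atTop (𝓝 ((bernoulli k : ℚ) : ℚ_[p])) := by
  have h1 : ∀ n : ℕ, zF p k n / (p : ℚ_[p]) ^ n = ∑ i ∈ Finset.range (k + 1),
      ((bernoulli i * ((k + 1).choose i) / (k + 1) : ℚ) : ℚ_[p]) *
        ((p : ℚ_[p]) ^ n) ^ (k - i) := by
    intro n
    have h2 : zF p k n = ((∑ a ∈ Finset.range (p ^ n), (a : ℚ) ^ k : ℚ) : ℚ_[p]) := by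
      rw [zF]
      push_cast
      rfl
    have h0 : (p : ℚ_[p]) ^ n ≠ 0 := pow_ne_zero _ zp_ne
    rw [h2, sum_range_pow, div_eq_iff h0, Finset.sum_mul]
    push_cast
    refine Finset.sum_congr rfl fun i hi => ?_
    rw [Finset.mem_range] at hi
    rw [show k + 1 - i = (k - i) + 1 by omega, pow_succ]
    ring
  have h2 : Tendsto (fun n : ℕ => ∑ i ∈ Finset.range (k + 1),
      ((bernoulli i * ((k + 1).choose i) / (k + 1) : ℚ) : ℚ_[p]) *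
        ((p : ℚ_[p]) ^ n) ^ (k - i))
      atTop (𝓝 (∑ i ∈ Finset.range (k + 1),
      ((bernoulli i * ((k + 1).choose i) / (k + 1) : ℚ) : ℚ_[p]) * (0 : ℚ_[p]) ^ (k - i))) := by
    refine tendsto_finsetSum _ fun i _ => ?_
    exact (zpow_tendsto.pow (k - i)).const_mul _
  have h3 : ∑ i ∈ Finset.range (k + 1),
      ((bernoulli i * ((k + 1).choose i) / (k + 1) : ℚ) : ℚ_[p]) * (0 : ℚ_[p]) ^ (k - i) =
      ((bernoulli k : ℚ) : ℚ_[p]) := by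
    rw [Finset.sum_eq_single k]
    · rw [Nat.sub_self, pow_zero, mul_one, Nat.choose_succ_self_right]
      congr 1
      have : ((k : ℚ) + 1) ≠ 0 := by positivity
      push_cast
      field_simp
    · intro i hi hik
      rw [Finset.mem_range] at hi
      rw [zero_pow (by omega), mul_zero]
    · intro h
      simp at h
  rw [← h3]
  exact h2.congr fun n => (h1 n).symm

/-- `p^{-n} ∑_{a < p^n, p ∤ a} a^k → (1 - p^{k-1}) B_k`, in the form without subtraction. -/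
theorem ztendsto_S (k : ℕ) :
    Tendsto (fun n : ℕ => zS p k n / (p : ℚ_[p]) ^ n) atTop
      (𝓝 (((bernoulli k : ℚ) : ℚ_[p]) -
        (p : ℚ_[p]) ^ k / p * ((bernoulli k : ℚ) : ℚ_[p]))) := by
  rw [← tendsto_add_atTop_iff_nat 1]
  have h0 : (p : ℚ_[p]) ≠ 0 := zp_ne
  have h1 : ∀ n : ℕ, zS p k (n + 1) / (p : ℚ_[p]) ^ (n + 1) =
      zF p k (n + 1) / (p : ℚ_[p]) ^ (n + 1) -
        (p : ℚ_[p]) ^ k / p * (zF p k n / (p : ℚ_[p]) ^ n) := by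
    intro n
    rw [zsplit k n, pow_succ]
    field_simp
    ring
  have h2 := ((tendsto_add_atTop_iff_nat 1).2 (ztendsto_F (p := p) k)).sub
    ((ztendsto_F (p := p) k).const_mul ((p : ℚ_[p]) ^ k / p))
  exact h2.congr fun n => (h1 n).symm

/-- The basic congruence. -/
theorem zkey (k n : ℕ) (hn : 1 ≤ n) {c : ℕ} (hc : Nat.Coprime p c) : ∃ Z : ℤ,
    (k : ℚ_[p]) * (c : ℚ_[p]) ^ (k - 1) *
        ∑ a ∈ zO p n, (a : ℚ_[p]) ^ (k - 1) * ((c * a / p ^ n : ℕ) : ℚ_[p]) =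
      ((c : ℚ_[p]) ^ k - 1) * (zS p k n / (p : ℚ_[p]) ^ n) + (p : ℚ_[p]) ^ n * (Z : ℚ_[p]) := by
  have hexp : ∀ a : ℕ, ∃ z : ℤ, (((c * a % p ^ n : ℕ) : ℤ)) ^ k =
      (c * a : ℤ) ^ k - k * (c * a : ℤ) ^ (k - 1) * (p ^ n * ((c * a / p ^ n : ℕ) : ℤ)) +
        z * (p ^ n) ^ 2 := by
    intro a
    obtain ⟨z, hz⟩ :=
      Polynomial.powAddExpansion (c * a : ℤ) (-(p ^ n * ((c * a / p ^ n : ℕ) : ℤ))) k
    refine ⟨z * ((c * a / p ^ n : ℕ) : ℤ) ^ 2, ?_⟩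
    have h1 : ((c * a % p ^ n : ℕ) : ℤ) = (c * a : ℤ) + -(p ^ n * ((c * a / p ^ n : ℕ) : ℤ)) := by
      have h2 := Nat.div_add_mod (c * a) (p ^ n)
      have h3 : ((p ^ n * (c * a / p ^ n) + c * a % p ^ n : ℕ) : ℤ) = ((c * a : ℕ) : ℤ) := by
        rw [h2]
      push_cast at h3 ⊢
      linarith
    rw [h1, hz]
    ring
  choose z hz using hexp
  refine ⟨∑ a ∈ zO p n, z a, ?_⟩
  have h5 := zperm n hn hc fun a => (a : ℚ_[p]) ^ k
  have h6 : ∑ a ∈ zO p n, ((c * a % p ^ n : ℕ) : ℚ_[p]) ^ k =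
      (c : ℚ_[p]) ^ k * zS p k n - (p : ℚ_[p]) ^ n * ((k : ℚ_[p]) * (c : ℚ_[p]) ^ (k - 1) *
        ∑ a ∈ zO p n, (a : ℚ_[p]) ^ (k - 1) * ((c * a / p ^ n : ℕ) : ℚ_[p])) +
        ((p : ℚ_[p]) ^ n) ^ 2 * ((∑ a ∈ zO p n, z a : ℤ) : ℚ_[p]) := by
    rw [zS, Int.cast_sum, Finset.mul_sum, Finset.mul_sum, Finset.mul_sum, Finset.mul_sum,
      ← Finset.sum_sub_distrib, ← Finset.sum_add_distrib]
    refine Finset.sum_congr rfl fun a _ => ?_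
    have h7 : (((((c * a % p ^ n : ℕ) : ℤ)) ^ k : ℤ) : ℚ_[p]) = (((c * a : ℤ) ^ k -
      k * (c * a : ℤ) ^ (k - 1) * (p ^ n * ((c * a / p ^ n : ℕ) : ℤ)) +
        z a * (p ^ n) ^ 2 : ℤ) : ℚ_[p]) := by rw [hz a]
    simp only [Int.cast_pow, Int.cast_natCast, Int.cast_add, Int.cast_sub, Int.cast_mul] at h7
    rw [h7, mul_pow, mul_pow]
    ring
  have h8 : (p : ℚ_[p]) ^ n ≠ 0 := pow_ne_zero _ zp_ne
  have h9 : (p : ℚ_[p]) ^ n * ((k : ℚ_[p]) * (c : ℚ_[p]) ^ (k - 1) *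
        ∑ a ∈ zO p n, (a : ℚ_[p]) ^ (k - 1) * ((c * a / p ^ n : ℕ) : ℚ_[p])) =
      ((c : ℚ_[p]) ^ k - 1) * zS p k n +
        ((p : ℚ_[p]) ^ n) ^ 2 * ((∑ a ∈ zO p n, z a : ℤ) : ℚ_[p]) := by
    have h10 : ∑ a ∈ zO p n, ((c * a % p ^ n : ℕ) : ℚ_[p]) ^ k = zS p k n := h5
    rw [h10] at h6
    linear_combination h6
  apply mul_left_cancel₀ h8
  rw [h9]
  field_simp

/-- `lim_n ∑_{a < p^n, p ∤ a} a^{k-1} (⌊c a/p^n⌋ - p)/c = (1 - c^{-k})(1 - p^{k-1}) B_k/k`,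
`c = 1 + 2p`. -/
theorem tendsto_zetaSum (p : ℕ) [Fact p.Prime] (k : ℕ) (hk2 : 2 ≤ k) :
    Tendsto (fun n : ℕ ↦ ∑ a ∈ (Finset.range (p ^ n)).filter (fun a ↦ ¬ p ∣ a),
      (a : ℚ_[p]) ^ (k - 1) * ((((1 + 2 * p) * a / p ^ n : ℕ) : ℚ_[p]) - p) / (1 + 2 * p)) atTop
      (𝓝 (((1 - (1 + 2 * p : ℚ)⁻¹ ^ k) * (1 - p ^ (k - 1)) * bernoulli k / k : ℚ) : ℚ_[p])) := by
  have hk0 : (k : ℚ_[p]) ≠ 0 := by
    rw [Nat.cast_ne_zero]
    omega
  have hcop : Nat.Coprime p (1 + 2 * p) := by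
    rw [Nat.coprime_add_mul_right_right]
    exact Nat.coprime_one_right p
  choose! Z hZ using fun n (hn : 1 ≤ n) => zkey (p := p) k n hn hcop
  -- the error term
  have hZ0 : Tendsto (fun n : ℕ => (p : ℚ_[p]) ^ n * (Z n : ℚ_[p])) atTop (𝓝 0) := by
    have h1 : Tendsto (fun n : ℕ => ‖(p : ℚ_[p]) ^ n‖) atTop (𝓝 0) := by
      simpa using (zpow_tendsto (p := p)).norm
    refine squeeze_zero_norm (fun n => ?_) h1
    rw [norm_mul]
    exact mul_le_of_le_one_right (norm_nonneg _) (Padic.norm_int_le_one _)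
  -- the sum of a^(k-1)
  have hS1 : Tendsto (fun n : ℕ => zS p (k - 1) n) atTop (𝓝 0) := by
    have h1 := (ztendsto_S (p := p) (k - 1)).mul zpow_tendsto
    rw [mul_zero] at h1
    refine h1.congr fun n => ?_
    have : (p : ℚ_[p]) ^ n ≠ 0 := pow_ne_zero _ zp_ne
    field_simp
  have hc0 : ((1 + 2 * p : ℕ) : ℚ_[p]) ≠ 0 := by
    rw [Nat.cast_ne_zero]
    omega
  set c : ℚ_[p] := ((1 + 2 * p : ℕ) : ℚ_[p]) with hc
  have h5 : c ^ (k - 1) ≠ 0 := pow_ne_zero _ hc0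
  have hmain : Tendsto (fun n : ℕ => ((c ^ k - 1) * (zS p k n / (p : ℚ_[p]) ^ n) +
      (p : ℚ_[p]) ^ n * (Z n : ℚ_[p])) /
      ((k : ℚ_[p]) * c ^ (k - 1)) / c - p * zS p (k - 1) n / c) atTop
      (𝓝 (((c ^ k - 1) * (((bernoulli k : ℚ) : ℚ_[p]) - (p : ℚ_[p]) ^ k / p *
        ((bernoulli k : ℚ) : ℚ_[p])) + 0) / ((k : ℚ_[p]) * c ^ (k - 1)) / c - p * 0 / c)) :=
    (((((ztendsto_S k).const_mul _).add hZ0).div_const _).div_const _).sub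
      ((hS1.const_mul (p : ℚ_[p])).div_const c)
  have hp0 : (p : ℚ_[p]) ≠ 0 := zp_ne
  have hval : ((c ^ k - 1) * (((bernoulli k : ℚ) : ℚ_[p]) - (p : ℚ_[p]) ^ k / p *
        ((bernoulli k : ℚ) : ℚ_[p])) + 0) / ((k : ℚ_[p]) * c ^ (k - 1)) / c - p * 0 / c =
      (((1 - (1 + 2 * p : ℚ)⁻¹ ^ k) * (1 - p ^ (k - 1)) * bernoulli k / k : ℚ) : ℚ_[p]) := by
    push_cast
    have hcc : (1 + 2 * (p : ℚ_[p])) = c := by rw [hc]; push_cast; ring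
    rw [hcc]
    obtain ⟨j, rfl⟩ : ∃ j, k = j + 1 := ⟨k - 1, by omega⟩
    rw [inv_pow, Nat.add_sub_cancel, pow_succ, pow_succ]
    push_cast at hk0 ⊢
    have h6 : c ^ j ≠ 0 := pow_ne_zero _ hc0
    field_simp
    ring
  rw [← hval]
  refine hmain.congr' ?_
  filter_upwards [eventually_ge_atTop 1] with n hn
  rw [← hZ n hn]
  have hcc : (1 + 2 * (p : ℚ_[p])) = c := by rw [hc]; push_cast; ring
  have h7 : ∑ a ∈ (Finset.range (p ^ n)).filter (fun a ↦ ¬ p ∣ a),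
      (a : ℚ_[p]) ^ (k - 1) * ((((1 + 2 * p) * a / p ^ n : ℕ) : ℚ_[p]) - p) / (1 + 2 * p) =
      (∑ a ∈ zO p n, (a : ℚ_[p]) ^ (k - 1) * (((1 + 2 * p) * a / p ^ n : ℕ) : ℚ_[p])) / c -
        p * zS p (k - 1) n / c := by
    rw [hcc, zS, Finset.mul_sum, Finset.sum_div, Finset.sum_div, ← Finset.sum_sub_distrib]
    refine Finset.sum_congr rfl fun a _ => ?_
    ring
  rw [h7]
  congr 1
  field_simp

end GH.ZP
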