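import Pool.Agent.GH.TateBase

/-!
# Gauss norms of power series over `ℤ_p` on the closed discs of radius `p^{-e}` (helper10)

General version of `GaussN`.
-/

open PowerSeries Filter Topology

noncomputable section

namespace GH.GP

/-- Maximum modulus principle for power series convergent on the closed unit ball. -/
theorem exists_generic_series {K : Type*} [NormedField K] [IsUltrametricDist K]
    [IsAlgClosed K] [CompleteSpace K] {a : ℕ → K} (ha : Tendsto a atTop (𝓝 0)) (T : Finset K)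
    (hT : ∀ t ∈ T, ‖t‖ ≤ 1) :
    ∃ x : K, ‖x‖ = 1 ∧ (∀ t ∈ T, ‖x - t‖ = 1) ∧ ∀ n, ‖a n‖ ≤ ‖∑' n, a n * x ^ n‖ := by
  classical
  by_cases h0 : ∀ n, a n = 0
  · obtain ⟨x, hx, hx'⟩ := exists_generic T hT
    exact ⟨x, hx, hx', fun n => by simp [h0]⟩
  push Not at h0
  obtain ⟨k, hk⟩ := h0
  have hkpos : 0 < ‖a k‖ := norm_pos_iff.2 hk
  have h1 : Tendsto (fun n => ‖a n‖) atTop (𝓝 0) := by simpa using ha.norm
  obtain ⟨N, hN⟩ := eventually_atTop.1 (h1.eventually_lt_const hkpos)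
  have hkN : k < N := by
    by_contra hc
    exact lt_irrefl _ (hN k (by omega))
  set P : Polynomial K := ∑ i ∈ Finset.range N, Polynomial.monomial i (a i) with hP
  have hcoeff : ∀ n, n < N → P.coeff n = a n := by
    intro n hn
    rw [hP, Polynomial.finsetSum_coeff]
    simp only [Polynomial.coeff_monomial]
    rw [Finset.sum_ite_eq' (Finset.range N) n, if_pos (Finset.mem_range.2 hn)]
  obtain ⟨x, hx, hx', hmax⟩ := exists_coeff_le P T hT
  have heval : P.eval x = ∑ i ∈ Finset.range N, a i * x ^ i := by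
    rw [hP, Polynomial.eval_finsetSum]
    simp only [Polynomial.eval_monomial]
  have hs := summable_pow ha hx.le
  have htail : ‖∑' n, a (n + N) * x ^ (n + N)‖ < ‖a k‖ := by
    apply norm_tsum_lt
    · exact (tendsto_add_atTop_iff_nat (f := fun n => a n * x ^ n) N).2 hs.tendsto_atTop_zero
    · exact hkpos
    · intro n
      rw [norm_mul, norm_pow, hx, one_pow, mul_one]
      exact hN _ (by omega)
  have hle : ‖a k‖ ≤ ‖P.eval x‖ := by
    rw [← hcoeff k hkN]
    exact hmax k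
  have hsum : ‖∑' n, a n * x ^ n‖ = ‖P.eval x‖ := by
    rw [← hs.sum_add_tsum_nat_add N, ← heval]
    exact norm_add_of_lt (htail.trans_le hle)
  refine ⟨x, hx, hx', fun n => ?_⟩
  rw [hsum]
  by_cases hn : n < N
  · rw [← hcoeff n hn]
    exact hmax n
  · exact (hN n (by omega)).le.trans hle

variable {p : ℕ} [Fact p.Prime]

/-- The inclusion `ℤ_p → ℂ_p`. -/
def io (p : ℕ) [Fact p.Prime] : ℤ_[p] →+* PadicComplex p :=
  (algebraMap ℚ_[p] (PadicComplex p)).comp PadicInt.Coe.ringHom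

/-- Evaluation of a power series over `ℤ_p`. -/
def evp (w : PadicComplex p) (F : PowerSeries ℤ_[p]) : PadicComplex p :=
  ∑' n : ℕ, io p (PowerSeries.coeff n F) * w ^ n

theorem norm_io (a : ℤ_[p]) : ‖io p a‖ = ‖a‖ := by
  change ‖algebraMap ℚ_[p] (PadicComplex p) (a : ℚ_[p])‖ = ‖a‖
  rw [norm_algebraMap']
  rfl

theorem norm_p : ‖(p : PadicComplex p)‖ = (p : ℝ)⁻¹ := by
  have h1 : (p : PadicComplex p) = algebraMap ℚ_[p] (PadicComplex p) (p : ℚ_[p]) := by
    rw [map_natCast]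
  rw [h1, norm_algebraMap', Padic.norm_p]

/-- The coefficients of `x ↦ evp (p^e x) F`. -/
def gc (e : ℕ) (F : PowerSeries ℤ_[p]) (m : ℕ) : PadicComplex p :=
  io p (PowerSeries.coeff m F) * ((p : PadicComplex p) ^ e) ^ m

theorem norm_gc (e : ℕ) (F : PowerSeries ℤ_[p]) (m : ℕ) :
    ‖gc e F m‖ = ‖PowerSeries.coeff m F‖ * (((p : ℝ)⁻¹) ^ e) ^ m := by
  rw [gc, norm_mul, norm_pow, norm_pow, norm_p, norm_io]

theorem tendsto_gc {e : ℕ} (he : e ≠ 0) (F : PowerSeries ℤ_[p]) :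
    Tendsto (gc e F) atTop (𝓝 0) := by
  have hp1 : (1 : ℝ) < p := by exact_mod_cast (Fact.out : p.Prime).one_lt
  have hp : (0 : ℝ) < p := zero_lt_one.trans hp1
  have h1 : Tendsto (fun m : ℕ => (((p : ℝ)⁻¹) ^ e) ^ m) atTop (𝓝 0) :=
    tendsto_pow_atTop_nhds_zero_of_lt_one (by positivity)
      (pow_lt_one₀ (by positivity) (inv_lt_one_of_one_lt₀ hp1) he)
  refine squeeze_zero_norm (fun m => ?_) h1
  rw [norm_gc]
  exact mul_le_of_le_one_left (by positivity) (PadicInt.norm_le_one _)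

theorem evp_mul (e : ℕ) (F : PowerSeries ℤ_[p]) (x : PadicComplex p) :
    evp ((p : PadicComplex p) ^ e * x) F = ∑' m, gc e F m * x ^ m := by
  unfold evp gc
  apply tsum_congr
  intro m
  rw [mul_pow]
  ring

/-- Some point of the closed unit ball outside finitely many residue classes attains the Gauss
norm on the disc of radius `p^{-e}`. -/
theorem exists_generic_point {e : ℕ} (he : e ≠ 0) (F : PowerSeries ℤ_[p])
    (T : Finset (PadicComplex p)) : ∃ x : PadicComplex p, ‖x‖ = 1 ∧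
    (∀ t ∈ T, ‖x - t‖ = 1 ∨ ¬ ‖t‖ ≤ 1) ∧
    ∀ m, ‖PowerSeries.coeff m F‖ ≤ ((p : ℝ) ^ e) ^ m * ‖evp ((p : PadicComplex p) ^ e * x) F‖ := by
  classical
  have hp1 : (1 : ℝ) < p := by exact_mod_cast (Fact.out : p.Prime).one_lt
  have hp : (0 : ℝ) < p := zero_lt_one.trans hp1
  obtain ⟨x, hx, hx', h⟩ := exists_generic_series (tendsto_gc he F) (T.filter fun t => ‖t‖ ≤ 1)
    fun t ht => (Finset.mem_filter.1 ht).2
  refine ⟨x, hx, fun t ht => ?_, fun m => ?_⟩
  · by_cases h1 : ‖t‖ ≤ 1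
    · exact Or.inl (hx' t (Finset.mem_filter.2 ⟨ht, h1⟩))
    · exact Or.inr h1
  · have h1 := h m
    rw [norm_gc, ← evp_mul] at h1
    have h2 : ‖PowerSeries.coeff m F‖ =
        ((p : ℝ) ^ e) ^ m * (‖PowerSeries.coeff m F‖ * (((p : ℝ)⁻¹) ^ e) ^ m) := by
      rw [inv_pow, inv_pow]
      field_simp
    rw [h2]
    gcongr

/-- A power series over `ℤ_p` bounded by `B` on `‖w‖ ≤ p^{-e}`. -/
theorem norm_coeff_le_of_bound {e : ℕ} (he : e ≠ 0) (F : PowerSeries ℤ_[p]) (B : ℝ)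
    (h : ∀ w : PadicComplex p, ‖w‖ ≤ ((p : ℝ)⁻¹) ^ e → ‖evp w F‖ ≤ B)
    (m : ℕ) : ‖PowerSeries.coeff m F‖ ≤ ((p : ℝ) ^ e) ^ m * B := by
  obtain ⟨x, hx, -, h1⟩ := exists_generic_point he F ∅
  refine (h1 m).trans ?_
  gcongr
  apply h
  rw [norm_mul, norm_pow, norm_p, hx, mul_one]

end GH.GP
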