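import Pool.Agent.GH.ClEkA

/-!
# Ghost conjecture, classical Eisenstein series: level one forms with rational q-expansion
-/

open PowerSeries Filter Topology

noncomputable section

namespace GH

open UpperHalfPlane ModularForm MatrixGroups EisensteinSeries

/-- `ℚ[[q]] → ℂ[[q]]` -/
abbrev c2m : PowerSeries ℚ →+* PowerSeries ℂ := PowerSeries.map (algebraMap ℚ ℂ)

theorem c2m_inj : Function.Injective c2m := by
  intro F G h
  ext n
  have h1 := congrArg (PowerSeries.coeff n) h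
  rw [PowerSeries.coeff_map, PowerSeries.coeff_map] at h1
  exact (algebraMap ℚ ℂ).injective h1

theorem c2_map_euler : c2m (euler ℚ 1) = euler ℂ 1 := by
  ext n
  unfold euler
  rw [PowerSeries.coeff_map, PowerSeries.coeff_mk, PowerSeries.coeff_mk, ← PowerSeries.coeff_map,
    map_prod]
  congr 1
  refine Finset.prod_congr rfl fun m _ => ?_
  rw [map_sub, map_one, map_pow, PowerSeries.map_X]

/-- the discriminant over `ℚ` -/
def c2D : PowerSeries ℚ := X * euler ℚ 1 ^ 24

theorem c2_disc' : qExpansion 1 discriminant = c2m c2D := by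
  rw [c2_disc, c2D, map_mul, map_pow, c2_map_euler, PowerSeries.map_X]

theorem c2_euler_zero : PowerSeries.constantCoeff (euler ℚ 1) = 1 := by
  rw [← PowerSeries.coeff_zero_eq_constantCoeff_apply]
  unfold euler
  rw [PowerSeries.coeff_mk]
  simp

theorem c2_eis {k : ℕ} (hk : 3 ≤ k) (hk2 : Even k) :
    qExpansion 1 (E hk) = c2m (eisQ k) := by
  ext m
  rw [E_qExpansion_coeff hk hk2, PowerSeries.coeff_map]
  unfold eisQ
  rw [map_add, PowerSeries.coeff_one, PowerSeries.coeff_mk]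
  by_cases hm : m = 0
  · subst hm
    simp
  · rw [if_neg hm, if_neg hm, zero_add]
    simp

theorem c2_rat {F u : PowerSeries ℚ} {G : PowerSeries ℂ} (hu : PowerSeries.constantCoeff u = 1)
    (h : c2m F = c2m (X * u) * G) : ∃ G' : PowerSeries ℚ, G = c2m G' ∧ F = X * u * G' := by
  have h0 : PowerSeries.constantCoeff F = 0 := by
    have h1 : PowerSeries.coeff 0 (c2m F) = PowerSeries.coeff 0 (X * (c2m u * G)) := by
      rw [h, map_mul c2m X u, PowerSeries.map_X, mul_assoc]
    rw [PowerSeries.coeff_map, PowerSeries.coeff_zero_X_mul] at h1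
    have h2 := (map_eq_zero_iff _ (algebraMap ℚ ℂ).injective).1 h1
    rwa [PowerSeries.coeff_zero_eq_constantCoeff_apply] at h2
  obtain ⟨F', hF'⟩ := PowerSeries.X_dvd_iff.2 h0
  have h1 : c2m F' = c2m u * G := by
    rw [hF', map_mul c2m, map_mul c2m, mul_assoc] at h
    exact mul_left_cancel₀ (by rw [PowerSeries.map_X]; exact PowerSeries.X_ne_zero) h
  have hinv : u * invOfUnit u 1 = 1 := PowerSeries.mul_invOfUnit u 1 (by simpa using hu)
  refine ⟨invOfUnit u 1 * F', ?_, ?_⟩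
  · rw [map_mul, h1, ← mul_assoc, ← map_mul, mul_comm (invOfUnit u 1), hinv, map_one, one_mul]
  · rw [hF']
    calc X * F' = X * ((u * invOfUnit u 1) * F') := by rw [hinv, one_mul]
      _ = X * u * (invOfUnit u 1 * F') := by ring

theorem c2_main (m : ℕ) : ∀ (k : ℤ), k = 4 * m → ∀ (f : ModularForm 𝒮ℒ k) (F : PowerSeries ℚ),
    qExpansion 1 f = c2m F → ∃ c : ℕ → ℚ, F = ∑ b ∈ Finset.range (m / 3 + 1),
      C (c b) * eisQ 4 ^ (m - 3 * b) * c2D ^ b := by
  induction m using Nat.strong_induction_on with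
  | _ m ih =>
  intro k hk f F hF
  obtain ⟨r, hr⟩ : ∃ r : ℚ, r = PowerSeries.coeff 0 F := ⟨_, rfl⟩
  obtain ⟨e, he⟩ : ∃ e : ModularForm 𝒮ℒ k, e = ModularForm.mcast (by rw [hk]; ring)
    (E₄.pow m) := ⟨_, rfl⟩
  have hqe : qExpansion 1 e = c2m (eisQ 4 ^ m) := by
    rw [he]
    rw [ModularForm.qExpansion_mcast, ModularForm.qExpansion_pow one_pos one_mem_strictPeriods_SL,
      c2_eis _ ⟨2, rfl⟩, map_pow]
  obtain ⟨f', hf'⟩ : ∃ f' : ModularForm 𝒮ℒ k, f' = f - (r : ℂ) • e := ⟨_, rfl⟩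
  have hq : qExpansion 1 f' = c2m (F - C r * eisQ 4 ^ m) := by
    rw [hf', show ((f - (r : ℂ) • e : ModularForm 𝒮ℒ k) : ℍ → ℂ) = ⇑f - ⇑((r : ℂ) • e) from rfl,
      ModularForm.qExpansion_sub one_pos one_mem_strictPeriods_SL f ((r : ℂ) • e),
      show (((r : ℂ) • e : ModularForm 𝒮ℒ k) : ℍ → ℂ) = (r : ℂ) • ⇑e from rfl,
      ModularForm.qExpansion_smul one_pos one_mem_strictPeriods_SL (r : ℂ) e, hF, hqe, map_sub,
      map_mul, PowerSeries.map_C, PowerSeries.smul_eq_C_mul]
    rfl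
  have hE0 : PowerSeries.constantCoeff (eisQ 4) = 1 := by
    unfold eisQ
    rw [map_add, map_one, ← PowerSeries.coeff_zero_eq_constantCoeff_apply, PowerSeries.coeff_mk]
    simp
  have hcusp : (qExpansion 1 f').coeff 0 = 0 := by
    rw [hq, PowerSeries.coeff_map, map_sub]
    have h1 : PowerSeries.coeff 0 (C r * eisQ 4 ^ m) = r := by
      rw [PowerSeries.coeff_zero_eq_constantCoeff_apply, map_mul, map_pow, hE0, one_pow, mul_one]
      exact PowerSeries.constantCoeff_C r
    rw [h1, ← hr, sub_self, map_zero]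
  have hfac := qExpansion_eq_qExpansion_discriminant_mul f' hcusp
  obtain ⟨g, hg⟩ : ∃ g : ModularForm 𝒮ℒ (k - 12),
    g = CuspForm.discriminantEquiv (toCuspForm f' hcusp) := ⟨_, rfl⟩
  rw [← hg, hq, c2_disc'] at hfac
  rcases lt_or_ge m 3 with hm | hm
  · have hg0 : (g : ℍ → ℂ) = 0 := ModularFormClass.levelOne_neg_weight_eq_zero (k := k - 12) (by omega) g
    rw [hg0, qExpansion_zero, mul_zero] at hfac
    have h1 := c2m_inj (hfac.trans (map_zero c2m).symm)
    refine ⟨fun _ => r, ?_⟩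
    have h2 : m / 3 = 0 := Nat.div_eq_of_lt hm
    rw [h2, zero_add, Finset.sum_range_one, mul_zero, Nat.sub_zero, pow_zero, mul_one]
    exact sub_eq_zero.1 h1
  · obtain ⟨G', hG', hFG⟩ := c2_rat (F := F - C r * eisQ 4 ^ m) (u := euler ℚ 1 ^ 24)
      (G := qExpansion 1 g) (by rw [map_pow, c2_euler_zero, one_pow]) hfac
    obtain ⟨c', hc'⟩ := ih (m - 3) (by omega) (k - 12) (by omega) g G' hG'
    refine ⟨fun b => if b = 0 then r else c' (b - 1), ?_⟩
    have h2 : m / 3 + 1 = ((m - 3) / 3 + 1) + 1 := by omega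
    rw [h2, Finset.sum_range_succ']
    have h3 : F = (X * euler ℚ 1 ^ 24) * G' + C r * eisQ 4 ^ m := by
      rw [← hFG]; ring
    rw [h3, hc', Finset.mul_sum]
    beta_reduce
    rw [if_pos rfl, mul_zero, Nat.sub_zero, pow_zero, mul_one]
    congr 1
    refine Finset.sum_congr rfl fun b _ => ?_
    rw [if_neg (Nat.succ_ne_zero b), Nat.add_sub_cancel,
      show m - 3 * (b + 1) = m - 3 - 3 * b by omega, pow_succ c2D b]
    unfold c2D
    ring

end GH
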