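import Pool.Agent.GH.TateBase

/-!
# The ordinary eigenvector of a contracting infinite matrix (helper10)

General version of `Ord`: a matrix `(M_ij)`, `i, j ≥ 0`, with `M_00 = 1`, rows supported on
`j ≤ q i`, contracting for the weights `ρ^j`, has a unique fixed vector `u` with `u_0 = 1` and
`‖u_n‖ ≤ B ρ^n`; it depends analytically on parameters.
-/

open Filter Topology

noncomputable section

namespace GH.OP

variable {K : Type*} [NormedField K] [IsUltrametricDist K]

/-- The hypotheses on the matrix. -/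
structure Contr (M : ℕ → ℕ → K) (q : ℕ) (ρ δ : ℝ) : Prop where
  ρ0 : 0 < ρ
  ρ1 : ρ ≤ 1
  δ0 : 0 ≤ δ
  δ1 : δ < 1
  c00 : M 0 0 = 1
  ent : ∀ i j, 1 ≤ j → j ≤ q * i → ‖M i j‖ * ρ ^ j ≤ δ * ρ ^ i
  col : ∀ i, 1 ≤ i → ‖M i 0‖ ≤ ρ ^ i

/-- The terms of the Neumann series. -/
def nd (M : ℕ → ℕ → K) (q : ℕ) : ℕ → ℕ → K
  | 0, i => if i = 0 then 0 else M i 0
  | k + 1, i => ∑ j ∈ Finset.range (q * i + 1), M i j * nd M q k j

variable {M : ℕ → ℕ → K} {q : ℕ} {ρ δ : ℝ}

theorem Contr.contr (h : Contr M q ρ δ) (d : ℕ → K) {η : ℝ} (hη : 0 ≤ η) (hd0 : d 0 = 0)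
    (hd : ∀ j, ‖d j‖ ≤ η * ρ ^ j) (i : ℕ) :
    ‖∑ j ∈ Finset.range (q * i + 1), M i j * d j‖ ≤ (δ * η) * ρ ^ i := by
  have h1 := h.ρ0
  have h2 := h.δ0
  refine IsUltrametricDist.norm_sum_le_of_forall_le_of_nonneg (by positivity) fun j hj => ?_
  rw [Finset.mem_range] at hj
  rw [norm_mul]
  rcases Nat.eq_zero_or_pos j with h0 | h0
  · subst h0
    rw [hd0, norm_zero, mul_zero]
    positivity
  · calc ‖M i j‖ * ‖d j‖ ≤ ‖M i j‖ * (η * ρ ^ j) :=
          mul_le_mul_of_nonneg_left (hd j) (norm_nonneg _)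
      _ = η * (‖M i j‖ * ρ ^ j) := by ring
      _ ≤ η * (δ * ρ ^ i) :=
          mul_le_mul_of_nonneg_left (h.ent i j h0 (by omega)) hη
      _ = (δ * η) * ρ ^ i := by ring

omit [IsUltrametricDist K] in
theorem nd_zero (M : ℕ → ℕ → K) (q k : ℕ) : nd M q k 0 = 0 := by
  induction k with
  | zero => simp [nd]
  | succ k ih =>
    rw [nd]
    simp [ih]

theorem Contr.bound (h : Contr M q ρ δ) (k i : ℕ) : ‖nd M q k i‖ ≤ δ ^ k * ρ ^ i := by
  have h1 := h.ρ0
  have h2 := h.δ0
  induction k generalizing i with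
  | zero =>
    rw [nd, pow_zero, one_mul]
    split_ifs with h0
    · rw [norm_zero]
      positivity
    · exact h.col i (Nat.one_le_iff_ne_zero.2 h0)
  | succ k ih =>
    rw [nd, pow_succ']
    exact h.contr _ (by positivity) (nd_zero M q k) ih i

/-- The fixed vector. -/
def fx (M : ℕ → ℕ → K) (q i : ℕ) : K := (if i = 0 then 1 else 0) + ∑' k, nd M q k i

theorem Contr.summable [CompleteSpace K] (h : Contr M q ρ δ) (i : ℕ) :
    Summable fun k => nd M q k i := by
  apply NonarchimedeanAddGroup.summable_of_tendsto_cofinite_zero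
  rw [Nat.cofinite_eq_atTop]
  have h1 : Tendsto (fun k : ℕ => δ ^ k) atTop (𝓝 0) :=
    tendsto_pow_atTop_nhds_zero_of_lt_one h.δ0 h.δ1
  refine squeeze_zero_norm (fun k => (h.bound k i).trans ?_) h1
  exact mul_le_of_le_one_right (pow_nonneg h.δ0 k) (pow_le_one₀ h.ρ0.le h.ρ1)

omit [IsUltrametricDist K] in
theorem fx_zero (M : ℕ → ℕ → K) (q : ℕ) : fx M q 0 = 1 := by
  rw [fx, if_pos rfl]
  simp [nd_zero]

theorem Contr.fx_bound (h : Contr M q ρ δ) (i : ℕ) : ‖fx M q i‖ ≤ ρ ^ i := by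
  have h1 := h.ρ0
  rcases Nat.eq_zero_or_pos i with h0 | h0
  · subst h0
    rw [fx_zero, norm_one, pow_zero]
  · rw [fx, if_neg (by omega), zero_add]
    refine IsUltrametricDist.norm_tsum_le_of_forall_le_of_nonneg (by positivity) fun k => ?_
    exact (h.bound k i).trans
      (mul_le_of_le_one_left (by positivity) (pow_le_one₀ h.δ0 h.δ1.le))

theorem Contr.fx_eq [CompleteSpace K] (h : Contr M q ρ δ) (i : ℕ) :
    fx M q i = ∑ j ∈ Finset.range (q * i + 1), M i j * fx M q j := by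
  have hs := h.summable
  have h1 : ∑ j ∈ Finset.range (q * i + 1), M i j * fx M q j =
      ∑ j ∈ Finset.range (q * i + 1), M i j * (if j = 0 then 1 else 0) +
        ∑ j ∈ Finset.range (q * i + 1), M i j * ∑' k, nd M q k j := by
    rw [← Finset.sum_add_distrib]
    refine Finset.sum_congr rfl fun j _ => ?_
    rw [fx, mul_add]
  have h2 : ∑ j ∈ Finset.range (q * i + 1), M i j * (if j = 0 then (1 : K) else 0) = M i 0 := by
    rw [Finset.sum_eq_single 0]
    · simp
    · intro j _ hj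
      simp [hj]
    · intro h
      simp at h
  have h3 : ∑ j ∈ Finset.range (q * i + 1), M i j * ∑' k, nd M q k j =
      ∑' k, nd M q (k + 1) i := by
    have h4 : ∀ j ∈ Finset.range (q * i + 1), Summable fun k => M i j * nd M q k j :=
      fun j _ => (hs j).mul_left _
    have h5 := Summable.tsum_finsetSum h4
    rw [show (∑' k, nd M q (k + 1) i) =
      ∑' k, ∑ j ∈ Finset.range (q * i + 1), M i j * nd M q k j from rfl, h5]
    refine Finset.sum_congr rfl fun j _ => ?_
    rw [tsum_mul_left]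
  rw [h1, h2, h3, fx, (hs i).tsum_eq_zero_add, nd, ← add_assoc]
  congr 1
  by_cases hi : i = 0
  · subst hi
    simp [h.c00]
  · simp [hi]

/-- A fixed vector without constant term is zero. -/
theorem Contr.eq_zero (h : Contr M q ρ δ) (e : ℕ → K) (he0 : e 0 = 0) {B : ℝ} (hB : 0 ≤ B)
    (he : ∀ n, ‖e n‖ ≤ B * ρ ^ n)
    (hM : ∀ i, e i = ∑ j ∈ Finset.range (q * i + 1), M i j * e j) (n : ℕ) : e n = 0 := by
  have h0 := h.δ0
  have h1 : ∀ k : ℕ, ∀ n, ‖e n‖ ≤ (δ ^ k * B) * ρ ^ n := by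
    intro k
    induction k with
    | zero =>
      intro n
      rw [pow_zero, one_mul]
      exact he n
    | succ k ih =>
      intro n
      have := h.contr e (by positivity) he0 ih n
      rw [← hM n] at this
      rwa [pow_succ', mul_assoc δ]
  have h2 : Tendsto (fun k : ℕ => (δ ^ k * B) * ρ ^ n) atTop (𝓝 0) := by
    have h3 : Tendsto (fun k : ℕ => δ ^ k) atTop (𝓝 0) :=
      tendsto_pow_atTop_nhds_zero_of_lt_one h.δ0 h.δ1
    simpa using (h3.mul_const B).mul_const (ρ ^ n)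
  exact norm_le_zero_iff.1 (ge_of_tendsto' h2 fun k => h1 k n)

/-- Uniqueness of the fixed vector. -/
theorem Contr.unique [CompleteSpace K] (h : Contr M q ρ δ) (v : ℕ → K) (hv0 : v 0 = 1) {B : ℝ}
    (hB : ∀ n, ‖v n‖ ≤ B * ρ ^ n)
    (hv : ∀ i, v i = ∑ j ∈ Finset.range (q * i + 1), M i j * v j) (n : ℕ) : v n = fx M q n := by
  have hρ := h.ρ0
  have hB0 : 0 ≤ B := by
    have := (norm_nonneg _).trans (hB 0)
    rwa [pow_zero, mul_one] at this
  have h5 := h.eq_zero (fun n => v n - fx M q n) (by simp [hv0, fx_zero]) (B := B + 1)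
    (by positivity) (fun n => by
      have hpn : 0 ≤ ρ ^ n := by positivity
      refine (norm_sub_le_max' _ _).trans (max_le ?_ ?_)
      · refine (hB n).trans (mul_le_mul_of_nonneg_right (by linarith) hpn)
      · refine (h.fx_bound n).trans ?_
        exact le_mul_of_one_le_left hpn (by linarith))
    (fun i => by
      rw [hv i, h.fx_eq i, ← Finset.sum_sub_distrib]
      refine Finset.sum_congr rfl fun j _ => ?_
      ring) n
  exact sub_eq_zero.1 h5

/-- Analytic dependence on a parameter of the closed unit ball. -/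
theorem isTate_fx [CompleteSpace K] (M : K → ℕ → ℕ → K) (q : ℕ) {ρ δ : ℝ}
    (hc : ∀ x : K, ‖x‖ ≤ 1 → Contr (M x) q ρ δ) (hM : ∀ i j, IsTate fun x => M x i j) (n : ℕ) :
    IsTate fun x => fx (M x) q n := by
  have hnd : ∀ k i, IsTate fun x : K => nd (M x) q k i := by
    intro k
    induction k with
    | zero =>
      intro i
      by_cases hi : i = 0
      · refine (IsTate.const (0 : K)).congr fun x _ => ?_
        simp [nd, hi]
      · refine (hM i 0).congr fun x _ => ?_
        simp [nd, hi]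
    | succ k ih =>
      intro i
      exact IsTate.sum (Finset.range (q * i + 1)) fun j _ => (hM i j).mul (ih j)
  have h0 := hc 0 (by simp)
  have hlim : Tendsto (fun k : ℕ => δ ^ k * ρ ^ n) cofinite (𝓝 0) := by
    rw [Nat.cofinite_eq_atTop]
    have h3 : Tendsto (fun k : ℕ => δ ^ k) atTop (𝓝 0) :=
      tendsto_pow_atTop_nhds_zero_of_lt_one h0.δ0 h0.δ1
    simpa using h3.mul_const (ρ ^ n)
  have h4 : IsTate fun x : K => ∑' k, nd (M x) q k n :=
    IsTate.tsum hlim (fun k => hnd k n) fun k x hx => (hc x hx).bound k n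
  exact (IsTate.const (if n = 0 then (1 : K) else 0)).add h4

end GH.OP
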