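import Pool.Agent.GH.UMatA

open PowerSeries Filter Topology

noncomputable section

namespace GH

variable {K : Type*} [Field K] [CharZero K]

/-! Binomial series and complex powers of power series. -/

theorem ub_coeff_binS (s : K) (n : ℕ) :
    PowerSeries.coeff n (binS s) = (∏ i ∈ Finset.range n, (s - i)) / (n.factorial : K) :=
  PowerSeries.coeff_mk _ _

theorem ub_coeff_binS_succ (s : K) (n : ℕ) :
    PowerSeries.coeff (n + 1) (binS s) * ((n : K) + 1) =
      (s - n) * PowerSeries.coeff n (binS s) := by
  rw [ub_coeff_binS, ub_coeff_binS, Finset.prod_range_succ, Nat.factorial_succ]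
  have h1 : ((n.factorial : ℕ) : K) ≠ 0 := by exact_mod_cast n.factorial_ne_zero
  have h2 : ((n : K) + 1) ≠ 0 := by exact_mod_cast n.succ_ne_zero
  push_cast
  field_simp

theorem ub_const_binS (s : K) : PowerSeries.constantCoeff (binS s) = 1 := by
  rw [← PowerSeries.coeff_zero_eq_constantCoeff_apply, ub_coeff_binS]
  simp

theorem ub_subst_C {a : PowerSeries K} (ha : HasSubst a) (r : K) :
    (C r : PowerSeries K).subst a = C r := by
  have h := (substAlgHom (R := K) (S := K) ha).commutes r
  rw [coe_substAlgHom] at h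
  exact h

theorem ub_subst_one {a : PowerSeries K} (ha : HasSubst a) :
    (1 : PowerSeries K).subst a = (1 : PowerSeries K) := by
  have h := map_one (substAlgHom (R := K) (S := K) ha)
  rw [coe_substAlgHom] at h
  exact h

/-- uniqueness for the differential equation `u F' = c F` -/
theorem ub_ode {u c F : PowerSeries K} (hu : PowerSeries.constantCoeff u = 1)
    (h : u * d⁄dX K F = c * F) (h0 : PowerSeries.constantCoeff F = 0) : F = 0 := by
  have hu' : PowerSeries.constantCoeff u ≠ 0 := by
    rw [hu]
    exact one_ne_zero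
  have h1 : d⁄dX K F = u⁻¹ * c * F := by
    calc d⁄dX K F = u⁻¹ * u * d⁄dX K F := by
          rw [PowerSeries.inv_mul_cancel u hu', one_mul]
      _ = u⁻¹ * (c * F) := by rw [mul_assoc, h]
      _ = _ := by rw [mul_assoc]
  generalize u⁻¹ * c = e at h1
  ext n
  rw [map_zero]
  induction n using Nat.strong_induction_on with
  | _ n ih =>
    rcases n with _ | n
    · rw [PowerSeries.coeff_zero_eq_constantCoeff_apply, h0]
    · have h2 := congrArg (PowerSeries.coeff n) h1
      rw [PowerSeries.coeff_derivative, PowerSeries.coeff_mul] at h2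
      rw [Finset.sum_eq_zero] at h2
      · have h3 : ((n : K) + 1) ≠ 0 := by exact_mod_cast n.succ_ne_zero
        exact (mul_eq_zero.mp h2).resolve_right h3
      · rintro ⟨i, j⟩ hij
        have h4 : i + j = n := Finset.HasAntidiagonal.mem_antidiagonal.mp hij
        have h5 : PowerSeries.coeff j F = 0 := ih j (by omega)
        change PowerSeries.coeff i e * PowerSeries.coeff j F = 0
        rw [h5, mul_zero]

theorem ub_binS_ode (s : K) : (1 + X) * d⁄dX K (binS s) = C s * binS s := by
  ext n
  rw [add_mul, one_mul, map_add, PowerSeries.coeff_C_mul, PowerSeries.coeff_derivative]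
  rcases n with _ | n
  · rw [PowerSeries.coeff_zero_X_mul]
    have h := ub_coeff_binS_succ s 0
    push_cast at h ⊢
    rw [h]
    ring
  · rw [PowerSeries.coeff_succ_X_mul, PowerSeries.coeff_derivative]
    have h := ub_coeff_binS_succ s (n + 1)
    have h' := ub_coeff_binS_succ s n
    push_cast at h h' ⊢
    rw [h]
    ring

theorem ub_binS_add (s t : K) : binS (s + t) = binS s * binS t := by
  have h : binS (s + t) - binS s * binS t = 0 := by
    refine ub_ode (u := 1 + X) (c := C (s + t)) (by simp) ?_ ?_
    · rw [map_sub, Derivation.leibniz, smul_eq_mul, smul_eq_mul]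
      have h1 := ub_binS_ode s
      have h2 := ub_binS_ode t
      have h3 := ub_binS_ode (s + t)
      rw [map_add (C : K →+* PowerSeries K)] at h3 ⊢
      linear_combination h3 - binS t * h1 - binS s * h2
    · rw [map_sub, map_mul, ub_const_binS, ub_const_binS, ub_const_binS]
      ring
  exact sub_eq_zero.mp h

theorem ub_binS_zero : binS (0 : K) = 1 := by
  have h : binS (0 : K) - 1 = 0 := by
    refine ub_ode (u := 1 + X) (c := 0) (by simp) ?_ ?_
    · have h1 := ub_binS_ode (0 : K)
      rw [map_zero, zero_mul] at h1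
      rw [map_sub, PowerSeries.derivative_one, sub_zero, h1, zero_mul]
    · rw [map_sub, ub_const_binS, map_one, sub_self]
  exact sub_eq_zero.mp h

theorem ub_binS_one : binS (1 : K) = 1 + X := by
  have h : binS (1 : K) - (1 + X) = 0 := by
    refine ub_ode (u := 1 + X) (c := 1) (by simp) ?_ ?_
    · have h1 := ub_binS_ode (1 : K)
      rw [map_one, one_mul] at h1
      rw [map_sub, map_add, PowerSeries.derivative_one, PowerSeries.derivative_X]
      linear_combination h1
    · rw [map_sub, ub_const_binS]
      simp
  exact sub_eq_zero.mp h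

theorem ub_binS_nat (n : ℕ) : binS (n : K) = (1 + X) ^ n := by
  induction n with
  | zero => rw [Nat.cast_zero, ub_binS_zero, pow_zero]
  | succ n ih => rw [Nat.cast_succ, ub_binS_add, ih, ub_binS_one, pow_succ]

theorem ub_one_add_X_ne : PowerSeries.constantCoeff (1 + X : PowerSeries K) ≠ 0 := by
  simp

omit [CharZero K] in
theorem ub_hs {u : PowerSeries K} (hu : PowerSeries.constantCoeff u = 1) : HasSubst (u - 1) :=
  HasSubst.of_constantCoeff_zero' (by rw [map_sub, hu, map_one, sub_self])

/-- `u^s` solves `u W' = s u' W` -/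
theorem ub_ppow_ode {u : PowerSeries K} (hu : PowerSeries.constantCoeff u = 1) (s : K) :
    u * d⁄dX K (ppow u s) = C s * d⁄dX K u * ppow u s := by
  have h1 : d⁄dX K (ppow u s) = (d⁄dX K (binS s)).subst (u - 1) * d⁄dX K (u - 1) :=
    PowerSeries.derivative_subst (ub_hs hu)
  have h2 : d⁄dX K (u - 1) = d⁄dX K u := by
    rw [map_sub, PowerSeries.derivative_one, sub_zero]
  have h3 : u * (d⁄dX K (binS s)).subst (u - 1) = C s * ppow u s := by
    have h4 := congrArg (fun G : PowerSeries K => (G.subst (u - 1) : PowerSeries K))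
      (ub_binS_ode s)
    rw [subst_mul (ub_hs hu), subst_mul (ub_hs hu), subst_add (ub_hs hu),
      ub_subst_one (ub_hs hu), subst_X (ub_hs hu), ub_subst_C (ub_hs hu)] at h4
    have h5 : (1 : PowerSeries K) + (u - 1) = u := by ring
    have h6 : (1 + (u - 1) : PowerSeries K) * (d⁄dX K (binS s)).subst (u - 1) =
      C s * ppow u s := h4
    rwa [h5] at h6
  rw [h1, h2, ← mul_assoc, h3]
  ring

theorem ub_const_subst {a : PowerSeries K} (ha : PowerSeries.constantCoeff a = 0)
    (F : PowerSeries K) :
    PowerSeries.constantCoeff (F.subst a : PowerSeries K) = PowerSeries.constantCoeff F := by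
  have hs : HasSubst a := HasSubst.of_constantCoeff_zero' ha
  have h1 : (F - C (PowerSeries.constantCoeff F)).constantCoeff = 0 := by simp
  obtain ⟨G, hG⟩ := PowerSeries.X_dvd_iff.mpr h1
  have h2 : F = C (PowerSeries.constantCoeff F) + X * G := by
    rw [← hG]
    ring
  have h3 : (F.subst a : PowerSeries K) =
      C (PowerSeries.constantCoeff F) + a * G.subst a := by
    conv_lhs => rw [h2]
    rw [subst_add hs, subst_mul hs, ub_subst_C hs, subst_X hs]
  rw [h3, map_add, map_mul, ha]
  simp

theorem ub_const_ppow {u : PowerSeries K} (hu : PowerSeries.constantCoeff u = 1) (s : K) :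
    PowerSeries.constantCoeff (ppow u s) = 1 := by
  have h : PowerSeries.constantCoeff (u - 1) = 0 := by rw [map_sub, hu, map_one, sub_self]
  exact (ub_const_subst h _).trans (ub_const_binS s)

theorem ub_ppow_mul {u v : PowerSeries K} (hu : PowerSeries.constantCoeff u = 1)
    (hv : PowerSeries.constantCoeff v = 1) (s : K) :
    ppow (u * v) s = ppow u s * ppow v s := by
  have huv : PowerSeries.constantCoeff (u * v) = 1 := by rw [map_mul, hu, hv, one_mul]
  have h : ppow (u * v) s - ppow u s * ppow v s = 0 := by
    refine ub_ode (u := u * v) (c := C s * d⁄dX K (u * v)) huv ?_ ?_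
    · have h1 := ub_ppow_ode hu s
      have h2 := ub_ppow_ode hv s
      have h3 := ub_ppow_ode huv s
      have h4 : d⁄dX K (u * v) = u * d⁄dX K v + v * d⁄dX K u := by
        rw [Derivation.leibniz, smul_eq_mul, smul_eq_mul]
      have h5 : d⁄dX K (ppow u s * ppow v s) =
          ppow u s * d⁄dX K (ppow v s) + ppow v s * d⁄dX K (ppow u s) := by
        rw [Derivation.leibniz, smul_eq_mul, smul_eq_mul]
      rw [map_sub, h5]
      rw [h4] at h3 ⊢
      linear_combination h3 - v * ppow v s * h1 - u * ppow u s * h2
    · rw [map_sub, map_mul, ub_const_ppow hu, ub_const_ppow hv, ub_const_ppow huv]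
      ring
  exact sub_eq_zero.mp h

theorem ub_ppow_add {u : PowerSeries K} (hu : PowerSeries.constantCoeff u = 1) (s t : K) :
    ppow u (s + t) = ppow u s * ppow u t := by
  unfold ppow
  rw [ub_binS_add, subst_mul (ub_hs hu)]

theorem ub_ppow_zero {u : PowerSeries K} (hu : PowerSeries.constantCoeff u = 1) :
    ppow u 0 = 1 := by
  unfold ppow
  rw [ub_binS_zero, ub_subst_one (ub_hs hu)]

theorem ub_ppow_one {u : PowerSeries K} (hu : PowerSeries.constantCoeff u = 1) :
    ppow u 1 = u := by
  unfold ppow
  rw [ub_binS_one, subst_add (ub_hs hu), ub_subst_one (ub_hs hu), subst_X (ub_hs hu)]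
  ring

theorem ub_ppow_nat {u : PowerSeries K} (hu : PowerSeries.constantCoeff u = 1) (n : ℕ) :
    ppow u n = u ^ n := by
  induction n with
  | zero => rw [Nat.cast_zero, ub_ppow_zero hu, pow_zero]
  | succ n ih => rw [Nat.cast_succ, ub_ppow_add hu, ih, ub_ppow_one hu, pow_succ]

theorem ub_ppow_expand {u : PowerSeries K} (hu : PowerSeries.constantCoeff u = 1) (s : K) :
    (ppow u s).expand 2 two_ne_zero = ppow (u.expand 2 two_ne_zero) s := by
  unfold ppow
  have h := expand_subst 2 two_ne_zero (ub_hs hu) (binS s)
  have h1 : (u - 1).expand 2 two_ne_zero = u.expand 2 two_ne_zero - 1 := by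
    rw [map_sub, map_one]
  rw [← h1]
  exact h

/-- `(1 + c h)^s` -/
theorem ub_rescale_subst (c s : K) {h : PowerSeries K} (hh : PowerSeries.constantCoeff h = 0) :
    ((rescale c (binS s)).subst h : PowerSeries K) = ppow (1 + C c * h) s := by
  have hs : HasSubst h := HasSubst.of_constantCoeff_zero' hh
  unfold ppow
  rw [rescale_eq_subst, subst_comp_subst_apply (HasSubst.smul_X' c) hs]
  congr 1
  rw [subst_smul hs, subst_X hs, PowerSeries.smul_eq_C_mul]
  ring

end GH
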