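import Pool.Agent.GH.Base

/-! `2 E_4(q²) = θ(-q)^8 + θ(q)^8 + 256 q² ψ(q²)^8`, from the modularity of the theta functions. -/

open PowerSeries Filter Topology

noncomputable section

namespace GH

namespace E4

open Complex ModularForm Real

theorem hasSum_congr_fun {f g : ℕ → ℂ} {a : ℂ} (h : HasSum f a) (e : ∀ n, g n = f n) :
    HasSum g a := by
  have : g = f := funext e
  rwa [this]

/-! ### Evaluation of power series with summable terms on the open unit disc -/

/-- The series converges absolutely on the open unit disc. -/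
def AS (P : PowerSeries ℂ) : Prop :=
  ∀ Q : ℂ, ‖Q‖ < 1 → Summable fun n ↦ ‖PowerSeries.coeff n P * Q ^ n‖

/-- The value of the series. -/
def evc (P : PowerSeries ℂ) (Q : ℂ) : ℂ := ∑' n, PowerSeries.coeff n P * Q ^ n

theorem AS.hasSum {P : PowerSeries ℂ} (h : AS P) {Q : ℂ} (hQ : ‖Q‖ < 1) :
    HasSum (fun n ↦ PowerSeries.coeff n P * Q ^ n) (evc P Q) :=
  (h Q hQ).of_norm.hasSum

theorem AS.add {P R : PowerSeries ℂ} (hP : AS P) (hR : AS R) : AS (P + R) := by
  intro Q hQ
  refine Summable.of_nonneg_of_le (fun n ↦ norm_nonneg _) (fun n ↦ ?_) ((hP Q hQ).add (hR Q hQ))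
  rw [map_add, add_mul]
  exact norm_add_le _ _

theorem evc_add {P R : PowerSeries ℂ} (hP : AS P) (hR : AS R) {Q : ℂ} (hQ : ‖Q‖ < 1) :
    evc (P + R) Q = evc P Q + evc R Q := by
  rw [evc, evc, evc, ← (hP Q hQ).of_norm.tsum_add (hR Q hQ).of_norm]
  refine tsum_congr fun n ↦ ?_
  rw [map_add, add_mul]

theorem coeff_mul_pow (P R : PowerSeries ℂ) (Q : ℂ) (n : ℕ) :
    PowerSeries.coeff n (P * R) * Q ^ n =
      ∑ kl ∈ Finset.HasAntidiagonal.antidiagonal n,
        (PowerSeries.coeff kl.1 P * Q ^ kl.1) * (PowerSeries.coeff kl.2 R * Q ^ kl.2) := by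
  rw [PowerSeries.coeff_mul, Finset.sum_mul]
  refine Finset.sum_congr rfl fun kl hkl ↦ ?_
  rw [← Finset.HasAntidiagonal.mem_antidiagonal.mp hkl, pow_add]
  ring

theorem AS.mul {P R : PowerSeries ℂ} (hP : AS P) (hR : AS R) : AS (P * R) := by
  intro Q hQ
  have := summable_norm_sum_mul_antidiagonal_of_summable_norm (hP Q hQ) (hR Q hQ)
  refine this.congr fun n ↦ ?_
  rw [coeff_mul_pow]

theorem evc_mul {P R : PowerSeries ℂ} (hP : AS P) (hR : AS R) {Q : ℂ} (hQ : ‖Q‖ < 1) :
    evc (P * R) Q = evc P Q * evc R Q := by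
  rw [evc, evc, evc, tsum_mul_tsum_eq_tsum_sum_antidiagonal_of_summable_norm (hP Q hQ) (hR Q hQ)]
  exact tsum_congr fun n ↦ coeff_mul_pow P R Q n

theorem AS.const (c : ℂ) : AS (C c) := by
  intro Q _
  refine summable_of_ne_finset_zero (s := {0}) fun n hn ↦ ?_
  have hn' : n ≠ 0 := by simpa using hn
  simp [PowerSeries.coeff_C, hn']

theorem evc_const (c Q : ℂ) : evc (C c) Q = c := by
  rw [evc, tsum_eq_single 0]
  · simp
  · intro n hn
    simp [PowerSeries.coeff_C, hn]

theorem AS.X_pow (k : ℕ) : AS (X ^ k) := by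
  intro Q _
  refine summable_of_ne_finset_zero (s := {k}) fun n hn ↦ ?_
  have hn' : n ≠ k := by simpa using hn
  simp [PowerSeries.coeff_X_pow, hn']

theorem evc_X_pow (k : ℕ) (Q : ℂ) : evc (X ^ k) Q = Q ^ k := by
  rw [evc, tsum_eq_single k]
  · simp
  · intro n hn
    simp [PowerSeries.coeff_X_pow, hn]

theorem AS.pow {P : PowerSeries ℂ} (hP : AS P) (k : ℕ) : AS (P ^ k) := by
  induction k with
  | zero => simpa using AS.const 1
  | succ k ih => rw [pow_succ]; exact ih.mul hP

theorem evc_pow {P : PowerSeries ℂ} (hP : AS P) (k : ℕ) {Q : ℂ} (hQ : ‖Q‖ < 1) :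
    evc (P ^ k) Q = evc P Q ^ k := by
  induction k with
  | zero => simpa using evc_const 1 Q
  | succ k ih => rw [pow_succ, evc_mul (hP.pow k) hP hQ, ih, pow_succ]

/-- Bounded coefficients suffice. -/
theorem AS.of_bound {P : PowerSeries ℂ} (B : ℝ) (h : ∀ n, ‖PowerSeries.coeff n P‖ ≤ B) : AS P := by
  intro Q hQ
  refine Summable.of_nonneg_of_le (fun n ↦ norm_nonneg _) (fun n ↦ ?_)
    ((summable_geometric_of_lt_one (norm_nonneg Q) hQ).mul_left B)
  rw [norm_mul, norm_pow]
  exact mul_le_mul_of_nonneg_right (h n) (by positivity)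

/-! ### The theta series -/

/-- `θ_3 = ∑ q^{n²}`. -/
def th3 : PowerSeries ℂ := evalNegHom (theta ℂ)

theorem coeff_th3 (n : ℕ) : PowerSeries.coeff n th3 =
    if n = 0 then 1 else if IsSquare n then 2 else 0 := by
  rw [th3, evalNegHom, coeff_rescale]
  simp only [theta, PowerSeries.coeff_mk]
  split_ifs with h1 h2
  · simp [h1]
  · rw [← mul_assoc, mul_comm _ (2 : ℂ), mul_assoc, ← mul_pow]
    simp
  · simp

theorem as_th3 : AS th3 := by
  refine AS.of_bound 2 fun n ↦ ?_
  rw [coeff_th3]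
  split_ifs <;> norm_num

theorem as_theta : AS (theta ℂ) := by
  refine AS.of_bound 2 fun n ↦ ?_
  simp only [theta, PowerSeries.coeff_mk]
  split_ifs <;> norm_num

theorem as_psi2 : AS (psi2 ℂ) := by
  refine AS.of_bound 1 fun n ↦ ?_
  simp only [psi2, PowerSeries.coeff_mk]
  split_ifs <;> norm_num

/-- The nome. -/
def nome (τ : ℂ) : ℂ := cexp (π * I * τ)

theorem norm_nome_lt {τ : ℂ} (hτ : 0 < τ.im) : ‖nome τ‖ < 1 := by
  rw [nome, Complex.norm_exp, Real.exp_lt_one_iff]
  have : (π * I * τ : ℂ).re = -(π * τ.im) := by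
    simp [Complex.mul_re, Complex.mul_im]
  rw [this]
  have := mul_pos Real.pi_pos hτ
  linarith

theorem nome_add_one (τ : ℂ) : nome (τ + 1) = - nome τ := by
  rw [nome, nome, mul_add, Complex.exp_add, mul_one, Complex.exp_pi_mul_I]
  ring

theorem evc_th3 {τ : ℂ} (hτ : 0 < τ.im) : evc th3 (nome τ) = jacobiTheta τ := by
  have h1 := hasSum_nat_jacobiTheta hτ
  have h2 : HasSum (fun n : ℕ ↦ (if n = 0 then (0 : ℂ) else if IsSquare n then 1 else 0) *
      nome τ ^ n) ((jacobiTheta τ - 1) / 2) := by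
    have hinj : Function.Injective (fun n : ℕ ↦ (n + 1) ^ 2) := by
      intro a b h
      have := Nat.pow_left_injective (n := 2) (by norm_num) h
      omega
    rw [← hinj.hasSum_iff]
    · convert h1 using 2 with n
      simp only [Function.comp]
      rw [if_neg (by positivity), if_pos ⟨n + 1, by ring⟩, one_mul, nome, ← Complex.exp_nat_mul]
      congr 1
      push_cast
      ring
    · intro n hn
      rw [Set.mem_range, not_exists] at hn
      split_ifs with h0 hs
      · simp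
      · exfalso
        obtain ⟨r, hr⟩ := hs
        have hr0 : r ≠ 0 := by
          rintro rfl
          simp at hr
          exact h0 hr
        refine hn (r - 1) ?_
        have : r - 1 + 1 = r := by omega
        simp only [this]
        rw [hr]; ring
      · simp
  have h3 : HasSum (fun n : ℕ ↦ PowerSeries.coeff n th3 * nome τ ^ n) (jacobiTheta τ) := by
    have h4 := (h2.mul_left 2).add (hasSum_ite_eq 0 (1 : ℂ))
    have h5 : (2 * ((jacobiTheta τ - 1) / 2) + 1 : ℂ) = jacobiTheta τ := by ring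
    rw [h5] at h4
    refine hasSum_congr_fun h4 fun n ↦ ?_
    rw [coeff_th3]
    split_ifs with h0
    · simp [h0]
    · ring
    · ring
  exact (as_th3.hasSum (norm_nome_lt hτ)).unique h3

theorem evc_theta {τ : ℂ} (hτ : 0 < τ.im) : evc (theta ℂ) (nome τ) = jacobiTheta (τ + 1) := by
  have h1 : 0 < (τ + 1).im := by simpa using hτ
  rw [← evc_th3 h1, nome_add_one, evc, evc]
  refine tsum_congr fun n ↦ ?_
  rw [coeff_th3]
  simp only [theta, PowerSeries.coeff_mk]
  split_ifs with h0 h2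
  · simp [h0]
  · rw [neg_pow]; ring
  · simp

theorem hasSum_psi {τ : ℂ} (hτ : 0 < τ.im) :
    HasSum (fun n : ℕ ↦ nome τ ^ (n * (n + 1))) (jacobiTheta₂ (τ / 2) τ / 2) := by
  have h1 := hasSum_jacobiTheta₂_term (τ / 2) hτ
  have hterm : ∀ n : ℕ, jacobiTheta₂_term n (τ / 2) τ = nome τ ^ (n * (n + 1)) := by
    intro n
    rw [jacobiTheta₂_term, nome, ← Complex.exp_nat_mul]
    congr 1
    push_cast
    ring
  have hterm' : ∀ n : ℕ, jacobiTheta₂_term (-(n + 1 : ℤ)) (τ / 2) τ =
      nome τ ^ (n * (n + 1)) := by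
    intro n
    rw [jacobiTheta₂_term, nome, ← Complex.exp_nat_mul]
    congr 1
    push_cast
    ring
  have hs1 : Summable (fun n : ℕ ↦ jacobiTheta₂_term n (τ / 2) τ) :=
    h1.summable.comp_injective Nat.cast_injective
  have hs : Summable (fun n : ℕ ↦ nome τ ^ (n * (n + 1))) := hs1.congr hterm
  have h2 : HasSum (fun n : ℤ ↦ jacobiTheta₂_term n (τ / 2) τ)
      ((∑' n : ℕ, nome τ ^ (n * (n + 1))) + ∑' n : ℕ, nome τ ^ (n * (n + 1))) := by
    refine HasSum.of_nat_of_neg_add_one ?_ ?_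
    · exact hasSum_congr_fun hs.hasSum hterm
    · exact hasSum_congr_fun hs.hasSum hterm'
  have h3 := h1.unique h2
  have h4 : (∑' n : ℕ, nome τ ^ (n * (n + 1))) = jacobiTheta₂ (τ / 2) τ / 2 := by
    rw [h3]; ring
  rw [← h4]
  exact hs.hasSum

end E4

end GH
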