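import Pool.Agent.GH.ClE4a

/-! The weight four level one form `θ_2^8 + θ_3^8 + θ_4^8 = 2 E_4`. -/

open PowerSeries Filter Topology

noncomputable section

namespace GH

namespace E4

open Complex ModularForm Real CongruenceSubgroup

/-- `θ_3^8 + θ_4^8 + θ_2^8`. -/
def Gc (τ : ℂ) : ℂ :=
  jacobiTheta τ ^ 8 + jacobiTheta (τ + 1) ^ 8 + cexp (2 * π * I * τ) * jacobiTheta₂ (τ / 2) τ ^ 8

theorem exp_pi_even (m : ℤ) (h : Even m) : cexp (π * I * m) = 1 := by
  obtain ⟨r, rfl⟩ := h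
  rw [Complex.exp_eq_one_iff]
  refine ⟨r, ?_⟩
  push_cast
  ring

theorem theta_add_two (τ : ℂ) : jacobiTheta (τ + 1 + 1) = jacobiTheta τ := by
  rw [← jacobiTheta_two_add τ]
  congr 1
  ring

theorem theta_four (τ : ℂ) : jacobiTheta (τ + 1) = jacobiTheta₂ (1 / 2) τ := by
  rw [jacobiTheta, jacobiTheta₂]
  refine tsum_congr fun n ↦ ?_
  rw [jacobiTheta₂_term]
  have h1 : (π * I * (n : ℂ) ^ 2 * (τ + 1) : ℂ) =
      (2 * π * I * n * (1 / 2) + π * I * n ^ 2 * τ) + π * I * ((n * (n - 1) : ℤ) : ℂ) := by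
    push_cast
    ring
  rw [h1, Complex.exp_add, exp_pi_even _ (Int.even_mul_pred_self n), mul_one]

theorem psi_add_one (τ : ℂ) : jacobiTheta₂ ((τ + 1) / 2) (τ + 1) = jacobiTheta₂ (τ / 2) τ := by
  rw [jacobiTheta₂, jacobiTheta₂]
  refine tsum_congr fun n ↦ ?_
  rw [jacobiTheta₂_term, jacobiTheta₂_term]
  have h1 : (2 * π * I * n * ((τ + 1) / 2) + π * I * (n : ℂ) ^ 2 * (τ + 1) : ℂ) =
      (2 * π * I * n * (τ / 2) + π * I * n ^ 2 * τ) + π * I * ((n * (n + 1) : ℤ) : ℂ) := by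
    push_cast
    ring
  rw [h1, Complex.exp_add, exp_pi_even _ (Int.even_mul_succ_self n), mul_one]

theorem Gc_add_one (τ : ℂ) : Gc (τ + 1) = Gc τ := by
  rw [Gc, Gc, theta_add_two, psi_add_one, mul_add, Complex.exp_add, mul_one,
    Complex.exp_two_pi_mul_I, mul_one]
  ring

theorem sqrt_pow_eight (τ : ℂ) : ((-I * τ) ^ (1 / 2 : ℂ)) ^ 8 = τ ^ 4 := by
  rw [← Complex.cpow_nat_mul]
  have : (((8 : ℕ) : ℂ) * (1 / 2)) = ((4 : ℕ) : ℂ) := by norm_num
  rw [this, Complex.cpow_natCast, mul_pow, neg_pow, Complex.I_pow_four]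
  norm_num

theorem Gc_S {τ : ℂ} (hτ : τ ≠ 0) : Gc (-1 / τ) = τ ^ 4 * Gc τ := by
  have h8 := sqrt_pow_eight τ
  have hne : (τ ^ 4 : ℂ) ≠ 0 := pow_ne_zero _ hτ
  -- (a)
  have ha : jacobiTheta (-1 / τ) ^ 8 = τ ^ 4 * jacobiTheta τ ^ 8 := by
    have := congrArg (· ^ 8) (jacobiTheta₂_functional_equation 0 τ)
    simp only [zero_div, ← jacobiTheta_eq_jacobiTheta₂] at this
    rw [mul_pow, mul_pow, div_pow, h8] at this
    rw [this]
    simp
    field_simp
  -- (b)
  have hb : jacobiTheta (-1 / τ + 1) ^ 8 =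
      τ ^ 4 * (cexp (2 * π * I * τ) * jacobiTheta₂ (τ / 2) τ ^ 8) := by
    rw [theta_four]
    have := congrArg (· ^ 8) (jacobiTheta₂_functional_equation (τ / 2) τ)
    beta_reduce at this
    have h1 : τ / 2 / τ = 1 / 2 := by field_simp
    rw [mul_pow, mul_pow, div_pow, h8, ← Complex.exp_nat_mul, h1] at this
    have h2 : ((8 : ℕ) : ℂ) * (-π * I * (τ / 2) ^ 2 / τ) = -(2 * π * I * τ) := by
      field_simp
      norm_num
    rw [h2] at this
    rw [this]
    have h3 : cexp (2 * π * I * τ) * cexp (-(2 * π * I * τ)) = 1 := by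
      rw [← Complex.exp_add, add_neg_cancel, Complex.exp_zero]
    calc jacobiTheta₂ (1 / 2) (-1 / τ) ^ 8
        = (cexp (2 * π * I * τ) * cexp (-(2 * π * I * τ))) * (τ ^ 4 * (1 / τ ^ 4)) *
          jacobiTheta₂ (1 / 2) (-1 / τ) ^ 8 := by
            rw [h3, mul_one_div_cancel hne]; ring
      _ = _ := by ring
  -- (c)
  have hc : cexp (2 * π * I * (-1 / τ)) * jacobiTheta₂ ((-1 / τ) / 2) (-1 / τ) ^ 8 =
      τ ^ 4 * jacobiTheta (τ + 1) ^ 8 := by
    rw [theta_four]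
    have hs : (-1 / τ) ≠ 0 := by
      rw [neg_div]
      exact neg_ne_zero.mpr (one_div_ne_zero hτ)
    have := congrArg (· ^ 8) (jacobiTheta₂_functional_equation ((-1 / τ) / 2) (-1 / τ))
    beta_reduce at this
    have h1 : (-1 / τ) / 2 / (-1 / τ) = 1 / 2 := by field_simp
    have h1' : -1 / (-1 / τ) = τ := by field_simp
    rw [mul_pow, mul_pow, div_pow, sqrt_pow_eight (-1 / τ), ← Complex.exp_nat_mul, h1, h1'] at this
    have h2 : ((8 : ℕ) : ℂ) * (-π * I * ((-1 / τ) / 2) ^ 2 / (-1 / τ)) =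
        -(2 * π * I * (-1 / τ)) := by
      field_simp
      norm_num
    rw [h2] at this
    rw [this]
    have h3 : cexp (2 * π * I * (-1 / τ)) * cexp (-(2 * π * I * (-1 / τ))) = 1 := by
      rw [← Complex.exp_add, add_neg_cancel, Complex.exp_zero]
    have h4 : 1 ^ 8 / (-1 / τ) ^ 4 = τ ^ 4 := by
      field_simp
    rw [h4]
    calc cexp (2 * π * I * (-1 / τ)) * (τ ^ 4 * cexp (-(2 * π * I * (-1 / τ))) *
          jacobiTheta₂ (1 / 2) τ ^ 8)
        = (cexp (2 * π * I * (-1 / τ)) * cexp (-(2 * π * I * (-1 / τ)))) *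
          (τ ^ 4 * jacobiTheta₂ (1 / 2) τ ^ 8) := by ring
      _ = _ := by rw [h3, one_mul]
  rw [Gc, ha, hb, hc, Gc]
  ring

/-- The power series of `Gc` in the nome. -/
def GP : PowerSeries ℂ := th3 ^ 8 + theta ℂ ^ 8 + C (256 : ℂ) * X ^ 2 * psi2 ℂ ^ 8

theorem as_GP : AS GP :=
  ((as_th3.pow 8).add (as_theta.pow 8)).add (((AS.const _).mul (AS.X_pow 2)).mul (as_psi2.pow 8))

theorem evc_psi2 {τ : ℂ} (hτ : 0 < τ.im) : evc (psi2 ℂ) (nome τ) = jacobiTheta₂ (τ / 2) τ / 2 := by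
  have h1 := hasSum_psi hτ
  have hinj : Function.Injective (fun n : ℕ ↦ n * (n + 1)) := by
    intro a b h
    simp only at h
    rcases lt_trichotomy a b with hl | he | hl
    · nlinarith
    · exact he
    · nlinarith
  have h2 : HasSum (fun n : ℕ ↦ PowerSeries.coeff n (psi2 ℂ) * nome τ ^ n)
      (jacobiTheta₂ (τ / 2) τ / 2) := by
    rw [← hinj.hasSum_iff]
    · refine hasSum_congr_fun h1 fun n ↦ ?_
      simp only [Function.comp, psi2, PowerSeries.coeff_mk]
      rw [if_pos ⟨n, rfl⟩, one_mul]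
    · intro n hn
      simp only [psi2, PowerSeries.coeff_mk]
      rw [if_neg, zero_mul]
      rintro ⟨m, rfl⟩
      exact hn ⟨m, rfl⟩
  exact (as_psi2.hasSum (norm_nome_lt hτ)).unique h2

theorem evc_GP {τ : ℂ} (hτ : 0 < τ.im) : evc GP (nome τ) = Gc τ := by
  have hq := norm_nome_lt hτ
  rw [GP, evc_add ((as_th3.pow 8).add (as_theta.pow 8))
    (((AS.const _).mul (AS.X_pow 2)).mul (as_psi2.pow 8)) hq,
    evc_add (as_th3.pow 8) (as_theta.pow 8) hq, evc_pow as_th3 8 hq, evc_pow as_theta 8 hq,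
    evc_mul ((AS.const _).mul (AS.X_pow 2)) (as_psi2.pow 8) hq,
    evc_mul (AS.const _) (AS.X_pow 2) hq, evc_const, evc_X_pow, evc_pow as_psi2 8 hq,
    evc_th3 hτ, evc_theta hτ, evc_psi2 hτ, Gc, div_pow]
  have : nome τ ^ 2 = cexp (2 * π * I * τ) := by
    rw [nome, ← Complex.exp_nat_mul]
    congr 1
    push_cast
    ring
  rw [this]
  ring

theorem neg_psi2 : evalNegHom (psi2 ℂ) = psi2 ℂ := by
  ext n
  rw [evalNegHom, coeff_rescale]
  simp only [psi2, PowerSeries.coeff_mk]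
  split_ifs with h
  · obtain ⟨m, rfl⟩ := h
    rw [(Nat.even_mul_succ_self m).neg_one_pow, one_mul]
  · simp

theorem neg_neg_series (P : PowerSeries ℂ) : evalNegHom (evalNegHom P) = P := by
  ext n
  rw [evalNegHom, coeff_rescale, coeff_rescale, ← mul_assoc, ← mul_pow]
  simp

theorem neg_GP : evalNegHom GP = GP := by
  have h1 : evalNegHom th3 = theta ℂ := by rw [th3, neg_neg_series]
  have h2 : evalNegHom (theta ℂ) = th3 := rfl
  have h3 : evalNegHom (C (256 : ℂ)) = C (256 : ℂ) := by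
    ext n
    rw [evalNegHom, coeff_rescale, PowerSeries.coeff_C]
    split_ifs with h
    · simp [h]
    · simp
  rw [GP, map_add, map_add, map_mul, map_mul, map_pow, map_pow, map_pow, map_pow, h1, h2, h3,
    evalNegHom_X, neg_psi2]
  ring

theorem coeff_GP_odd (n : ℕ) (h : Odd n) : PowerSeries.coeff n GP = 0 := by
  have h1 : PowerSeries.coeff n (evalNegHom GP) = PowerSeries.coeff n GP := by rw [neg_GP]
  rw [evalNegHom, coeff_rescale, h.neg_one_pow] at h1
  have h2 : 2 * PowerSeries.coeff n GP = 0 := by linear_combination -h1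
  simpa using h2

/-- The series of `Gc` in `q`. -/
def GQ : PowerSeries ℂ := PowerSeries.mk fun n ↦ PowerSeries.coeff (2 * n) GP

theorem GQ_expand : GQ.expand 2 two_ne_zero = GP := by
  ext n
  rcases Nat.even_or_odd n with h | h
  · obtain ⟨m, rfl⟩ := h
    rw [← two_mul, coeff_expand_mul, GQ, PowerSeries.coeff_mk]
  · rw [coeff_expand_of_not_dvd _ _ _ (fun hd ↦ by
      exact (Nat.not_even_iff_odd.mpr h) (even_iff_two_dvd.mpr hd)), coeff_GP_odd n h]

theorem hasSum_GQ (τ : UpperHalfPlane) :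
    HasSum (fun n : ℕ ↦ PowerSeries.coeff n GQ • (Function.Periodic.qParam 1 (τ : ℂ)) ^ n)
      (Gc τ) := by
  have hτ : 0 < (τ : ℂ).im := τ.im_pos
  have h1 := as_GP.hasSum (norm_nome_lt hτ)
  rw [evc_GP hτ] at h1
  have hinj : Function.Injective (fun n : ℕ ↦ 2 * n) := fun a b h ↦ by
    simpa using h
  rw [← hinj.hasSum_iff] at h1
  · refine hasSum_congr_fun h1 fun n ↦ ?_
    simp only [Function.comp, GQ, PowerSeries.coeff_mk, smul_eq_mul]
    congr 1
    rw [pow_mul]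
    congr 1
    rw [nome, ← Complex.exp_nat_mul, Function.Periodic.qParam]
    congr 1
    push_cast
    ring
  · intro n hn
    have : Odd n := by
      rw [← Nat.not_even_iff_odd]
      rintro ⟨m, rfl⟩
      exact hn ⟨m, by ring⟩
    rw [coeff_GP_odd n this, zero_mul]

end E4

end GH
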