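import Pool.Agent.GH.ClE4b

/-! `θ_2^8 + θ_3^8 + θ_4^8 = 2 E_4`. -/

open PowerSeries Filter Topology

noncomputable section

namespace GH

namespace E4

open Complex ModularForm Real UpperHalfPlane CongruenceSubgroup SlashInvariantForm
open scoped MatrixGroups Manifold

/-- `Gc` on the upper half plane. -/
def Gh (τ : ℍ) : ℂ := Gc τ

theorem Gh_T : (Gh ∣[(4 : ℤ)] ModularGroup.T) = Gh := by
  ext z
  rw [SL_slash_apply, denom, modular_T_smul, ModularGroup.T]
  have : Gh ((1 : ℝ) +ᵥ z) = Gh z := by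
    rw [Gh, Gh, UpperHalfPlane.coe_vadd, ← Gc_add_one (z : ℂ)]
    congr 1
    push_cast
    ring
  simp [this]

theorem Gh_S : (Gh ∣[(4 : ℤ)] ModularGroup.S) = Gh := by
  ext z
  have hz : (z : ℂ) ≠ 0 := ne_zero z
  suffices Gc (-(z : ℂ)⁻¹) * ((z : ℂ) ^ 4)⁻¹ = Gc z by
    rw [SL_slash_apply, UpperHalfPlane.modular_S_smul]
    simpa [denom, ModularGroup.S, Gh] using this
  have h := Gc_S hz
  have h1 : -(z : ℂ)⁻¹ = -1 / z := by rw [neg_div, one_div]
  rw [h1, h]
  have h4 : ((z : ℂ) ^ 4) ≠ 0 := pow_ne_zero _ hz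
  field_simp

theorem Gc_differentiableAt {τ : ℂ} (hτ : 0 < τ.im) : DifferentiableAt ℂ Gc τ := by
  have h1 : DifferentiableAt ℂ jacobiTheta τ := differentiableAt_jacobiTheta hτ
  have hτ1 : 0 < (τ + 1).im := by simpa using hτ
  have h2 : DifferentiableAt ℂ (fun t : ℂ ↦ jacobiTheta (t + 1)) τ :=
    DifferentiableAt.comp τ (differentiableAt_jacobiTheta hτ1)
      (differentiableAt_id.add_const 1)
  have h3 : DifferentiableAt ℂ (fun t : ℂ ↦ jacobiTheta₂ (t / 2) t) τ := by
    have h4 := (hasFDerivAt_jacobiTheta₂ (τ / 2) hτ).differentiableAt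
    have h6 : DifferentiableAt ℂ (fun t : ℂ ↦ (t / 2, t)) τ := by fun_prop
    exact DifferentiableAt.comp (g := fun p : ℂ × ℂ ↦ jacobiTheta₂ p.1 p.2)
      (f := fun t : ℂ ↦ (t / 2, t)) τ h4 h6
  have h5 : DifferentiableAt ℂ (fun t : ℂ ↦ cexp (2 * π * Complex.I * t)) τ := by fun_prop
  exact ((h1.pow 8).add (h2.pow 8)).add (h5.mul (h3.pow 8))

theorem Gh_bounded : IsBoundedAtImInfty Gh :=
  isBoundedAtImInfty_of_hasSum_qExpansion (h := 1) one_pos hasSum_GQ

/-- The level one form of weight four. -/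
def Gform : ModularForm 𝒮ℒ 4 where
  toFun := Gh
  slash_action_eq' A hA := by
    obtain ⟨A, rfl⟩ := hA
    exact slash_action_generators_SL2Z Gh_S Gh_T A
  holo' := by
    rw [UpperHalfPlane.mdifferentiable_iff]
    refine DifferentiableOn.congr (f := Gc) (fun z hz ↦
      (Gc_differentiableAt hz).differentiableWithinAt) fun z hz ↦ ?_
    simp [Gh, ofComplex_apply_of_im_pos hz]
  bdd_at_cusps' hc := by
    rw [Subgroup.IsArithmetic.isCusp_iff_isCusp_SL2Z] at hc
    rw [OnePoint.isBoundedAt_iff_forall_SL2Z hc]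
    intro γ _
    rw [slash_action_generators_SL2Z Gh_S Gh_T]
    exact Gh_bounded

theorem coeff_Gform (n : ℕ) : (qExpansion 1 Gform).coeff n = PowerSeries.coeff n GQ :=
  (ModularFormClass.qExpansion_coeff_unique one_pos one_mem_strictPeriods_SL
    (f := Gform) (c := fun n ↦ PowerSeries.coeff n GQ) hasSum_GQ n).symm

theorem coeff_zero_GQ : PowerSeries.coeff 0 GQ = 2 := by
  rw [GQ, PowerSeries.coeff_mk, mul_zero, GP]
  simp only [coeff_zero_eq_constantCoeff, map_add, map_pow, map_mul]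
  have h1 : constantCoeff th3 = 1 := by
    have := coeff_th3 0
    simpa using this
  have h2 : constantCoeff (theta ℂ) = 1 := by
    rw [← coeff_zero_eq_constantCoeff_apply]
    simp [theta]
  rw [h1, h2]
  simp
  norm_num

theorem qExp_Gform : qExpansion 1 Gform = GQ := by
  ext n
  exact coeff_Gform n

theorem coeff_GQ (n : ℕ) : PowerSeries.coeff n GQ =
    2 * (if n = 0 then 1 else -(2 * (4 : ℕ) / bernoulli 4 : ℂ) * (ArithmeticFunction.sigma (4 - 1) n)) := by
  have hE := EisensteinSeries.E_qExpansion_coeff (k := 4) (by norm_num) ⟨2, rfl⟩ n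
  obtain ⟨F, hF⟩ : ∃ F : ModularForm 𝒮ℒ 4, F = Gform - (2 : ℂ) • E₄ := ⟨_, rfl⟩
  have hq : qExpansion 1 F = GQ - (2 : ℂ) • qExpansion 1 E₄ := by
    have h1 : (F : ℍ → ℂ) = (Gform : ℍ → ℂ) - (2 : ℂ) • (E₄ : ℍ → ℂ) := by
      rw [hF]
      rfl
    have h2 : AnalyticAt ℂ (cuspFunction 1 ((2 : ℂ) • (E₄ : ℍ → ℂ))) 0 := by
      have := ModularFormClass.analyticAt_cuspFunction_zero ((2 : ℂ) • E₄) one_pos
        one_mem_strictPeriods_SL
      exact this
    rw [h1, UpperHalfPlane.qExpansion_sub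
        (ModularFormClass.analyticAt_cuspFunction_zero Gform one_pos one_mem_strictPeriods_SL)
        h2, ModularForm.qExpansion_smul one_pos one_mem_strictPeriods_SL, qExp_Gform]
  have h0 : F = 0 := by
    refine sturm_bound_levelOne_nat (k := 4) ?_
    rw [hq]
    have : ((4 / 12 : ℕ) : ℕ∞) = 0 := by norm_num
    rw [this]
    have h1 : (1 : ℕ∞) ≤ (GQ - (2 : ℂ) • qExpansion 1 E₄).order := by
      refine PowerSeries.le_order _ _ fun i hi ↦ ?_
      have hi0 : i = 0 := by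
        have : i < 1 := by exact_mod_cast hi
        omega
      subst hi0
      rw [map_sub, coeff_zero_GQ, map_smul, EisensteinSeries.E_qExpansion_coeff_zero _ ⟨2, rfl⟩]
      simp
    exact lt_of_lt_of_le (by norm_num) h1
  have h2 : GQ - (2 : ℂ) • qExpansion 1 E₄ = 0 := by
    rw [← hq, h0]
    exact UpperHalfPlane.qExpansion_zero 1
  have h3 := congrArg (PowerSeries.coeff n) h2
  rw [map_sub, map_smul, hE, map_zero, smul_eq_mul] at h3
  exact sub_eq_zero.mp h3

end E4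

theorem e4_map_theta : PowerSeries.map (algebraMap ℚ ℂ) (theta ℚ) = theta ℂ := by
  ext n
  simp only [theta, PowerSeries.coeff_map, PowerSeries.coeff_mk]
  split_ifs <;> simp

theorem e4_map_psi2 : PowerSeries.map (algebraMap ℚ ℂ) (psi2 ℚ) = psi2 ℂ := by
  ext n
  simp only [psi2, PowerSeries.coeff_map, PowerSeries.coeff_mk]
  split_ifs <;> simp

theorem e4_map_neg (P : PowerSeries ℚ) : PowerSeries.map (algebraMap ℚ ℂ) (evalNegHom P) =
    evalNegHom (PowerSeries.map (algebraMap ℚ ℂ) P) := by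
  ext n
  rw [PowerSeries.coeff_map, evalNegHom, coeff_rescale, evalNegHom, coeff_rescale,
    PowerSeries.coeff_map]
  simp

/-- `2 E_4(q²) = θ(-q)^8 + θ(q)^8 + 256 q² ψ(q²)^8`. -/
theorem two_E4_expand : C (2 : ℚ) * (eisQ 4).expand 2 two_ne_zero =
    evalNegHom (theta ℚ) ^ 8 + theta ℚ ^ 8 + C (256 : ℚ) * X ^ 2 * psi2 ℚ ^ 8 := by
  have hinj : Function.Injective (PowerSeries.map (algebraMap ℚ ℂ)) :=
    PowerSeries.map_injective _ (algebraMap ℚ ℂ).injective
  apply hinj
  have hR : PowerSeries.map (algebraMap ℚ ℂ)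
      (evalNegHom (theta ℚ) ^ 8 + theta ℚ ^ 8 + C (256 : ℚ) * X ^ 2 * psi2 ℚ ^ 8) = E4.GP := by
    rw [E4.GP, E4.th3, map_add, map_add, map_mul, map_mul, map_pow, map_pow, map_pow, map_pow,
      e4_map_neg, e4_map_theta, e4_map_psi2, PowerSeries.map_X, PowerSeries.map_C]
    simp
  rw [hR]
  ext n
  rw [PowerSeries.coeff_map, PowerSeries.coeff_C_mul]
  rcases Nat.even_or_odd n with h | h
  · obtain ⟨m, rfl⟩ := h
    rw [← two_mul, coeff_expand_mul]
    have h1 := E4.coeff_GQ m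
    rw [E4.GQ, PowerSeries.coeff_mk] at h1
    rw [h1, eisQ, map_add, PowerSeries.coeff_mk, PowerSeries.coeff_one]
    split_ifs with h0
    · subst h0
      simp
    · simp
  · rw [coeff_expand_of_not_dvd _ _ _ (fun hd ↦ by
      exact (Nat.not_even_iff_odd.mpr h) (even_iff_two_dvd.mpr hd)), E4.coeff_GP_odd n h]
    simp

end GH
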