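import Pool.Agent.GH.Base

/-!
# Ghost conjecture, classical Eisenstein series: the q-expansion of the discriminant
-/

open PowerSeries Filter Topology

noncomputable section

namespace GH

/-! ### Taylor series at `0` -/

/-- the Taylor series at `0` -/
def c2T (g : ℂ → ℂ) : PowerSeries ℂ :=
  PowerSeries.mk fun m => ((m.factorial : ℂ))⁻¹ * iteratedDeriv m g 0

theorem c2T_coeff (g : ℂ → ℂ) (m : ℕ) :
    PowerSeries.coeff m (c2T g) = ((m.factorial : ℂ))⁻¹ * iteratedDeriv m g 0 := by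
  unfold c2T
  rw [PowerSeries.coeff_mk]

theorem c2T_mul {f g : ℂ → ℂ} (hf : AnalyticAt ℂ f 0) (hg : AnalyticAt ℂ g 0) :
    c2T (f * g) = c2T f * c2T g := by
  ext
  simp only [c2T_coeff, iteratedDeriv_mul hf.contDiffAt hg.contDiffAt, Finset.mul_sum,
    PowerSeries.coeff_mul, Finset.Nat.sum_antidiagonal_eq_sum_range_succ_mk, Nat.succ_eq_add_one]
  refine Finset.sum_congr rfl fun i hi ↦ ?_
  rw [Nat.cast_choose _ (by grind)]
  field_simp [Nat.factorial_ne_zero]

theorem c2T_sub {f g : ℂ → ℂ} (hf : AnalyticAt ℂ f 0) (hg : AnalyticAt ℂ g 0) :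
    c2T (f - g) = c2T f - c2T g := by
  ext m
  simp only [c2T_coeff, map_sub, iteratedDeriv_sub hf.contDiffAt hg.contDiffAt, mul_sub]

theorem c2T_congr {f g : ℂ → ℂ} (h : f =ᶠ[𝓝 0] g) : c2T f = c2T g := by
  ext m
  rw [c2T_coeff, c2T_coeff, h.iteratedDeriv_eq m]

theorem c2T_one : c2T 1 = 1 := by
  ext m
  rw [c2T_coeff, PowerSeries.coeff_one]
  have h2 : iteratedDeriv m (1 : ℂ → ℂ) 0 = if m = 0 then 1 else 0 := by
    simpa [ite_apply] using! iteratedDeriv_const
  rw [h2]
  split_ifs with h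
  · simp [h]
  · simp

theorem c2T_pow {f : ℂ → ℂ} (hf : AnalyticAt ℂ f 0) (n : ℕ) : c2T (f ^ n) = c2T f ^ n := by
  induction n with
  | zero => rw [pow_zero, pow_zero, c2T_one]
  | succ n ih => rw [pow_succ, pow_succ, c2T_mul (hf.pow n) hf, ih]

theorem c2T_id : c2T (fun q => q) = X := by
  ext m
  rw [c2T_coeff, PowerSeries.coeff_X]
  rcases m with _ | m
  · simp
  · rw [iteratedDeriv_succ']
    have h1 : deriv (fun q : ℂ => q) = 1 := by
      funext q
      simp
    have h2 : iteratedDeriv m (1 : ℂ → ℂ) 0 = if m = 0 then 1 else 0 := by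
      simpa [ite_apply] using! iteratedDeriv_const
    rw [h1, h2]
    by_cases hm : m = 0
    · subst hm
      simp
    · rw [if_neg hm, if_neg (by omega), mul_zero]

theorem c2T_prod {ι : Type*} (s : Finset ι) (f : ι → ℂ → ℂ) (hf : ∀ i, AnalyticAt ℂ (f i) 0) :
    c2T (∏ i ∈ s, f i) = ∏ i ∈ s, c2T (f i) := by
  classical
  induction s using Finset.induction_on with
  | empty => rw [Finset.prod_empty, Finset.prod_empty, c2T_one]
  | insert a s ha ih =>
    rw [Finset.prod_insert ha, Finset.prod_insert ha, ← ih]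
    exact c2T_mul (hf a) (by
      have h := Finset.analyticAt_prod (𝕜 := ℂ) (f := fun i => f i) (c := (0 : ℂ)) s
        (fun i _ => hf i)
      exact h)

/-- Taylor coefficients of a locally uniform limit. -/
theorem c2T_tendsto {F : ℕ → ℂ → ℂ} {f : ℂ → ℂ} {U : Set ℂ} (hU : IsOpen U) (h0 : (0 : ℂ) ∈ U)
    (hF : ∀ n, DifferentiableOn ℂ (F n) U) (h : TendstoLocallyUniformlyOn F f atTop U) (m : ℕ) :
    Tendsto (fun n => PowerSeries.coeff m (c2T (F n))) atTop (𝓝 (PowerSeries.coeff m (c2T f))) := by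
  have key : ∀ m : ℕ, (∀ n, DifferentiableOn ℂ (iteratedDeriv m (F n)) U) ∧
      TendstoLocallyUniformlyOn (fun n => iteratedDeriv m (F n)) (iteratedDeriv m f) atTop U := by
    intro m
    induction m with
    | zero =>
      simp only [iteratedDeriv_zero]
      exact ⟨hF, h⟩
    | succ m ih =>
      obtain ⟨ih1, ih2⟩ := ih
      simp only [iteratedDeriv_succ]
      exact ⟨fun n => (ih1 n).deriv hU, ih2.deriv (Eventually.of_forall ih1) hU⟩
  have h1 := (key m).2.tendsto_at h0
  simp only [c2T_coeff]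
  exact h1.const_mul _

/-! ### the product -/

theorem c2_euler_coeff {n N : ℕ} (h : n ≤ N) {R : Type*} [CommRing R] :
    PowerSeries.coeff n (euler R 1) =
      PowerSeries.coeff n (∏ m ∈ Finset.range N, (1 - (X : PowerSeries R) ^ (m + 1))) := by
  have h0 : PowerSeries.coeff n (euler R 1) =
      PowerSeries.coeff n (∏ m ∈ Finset.range n, (1 - (X : PowerSeries R) ^ (m + 1))) := by
    unfold euler
    rw [PowerSeries.coeff_mk]
    simp only [one_mul]
  rw [h0]
  induction N, h using Nat.le_induction with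
  | base => rfl
  | succ N hN ih =>
    rw [ih, Finset.prod_range_succ, mul_sub, mul_one, map_sub,
      PowerSeries.coeff_mul_X_pow', if_neg (by omega), sub_zero]

theorem c2T_tprod : c2T (fun q => ∏' n : ℕ, (1 - q ^ (n + 1))) = euler ℂ 1 := by
  have hloc := ModularForm.multipliableLocallyUniformlyOn_one_sub_pow.hasProdLocallyUniformlyOn
  have h1 : TendstoLocallyUniformlyOn
      (fun (N : ℕ) (q : ℂ) => ∏ n ∈ Finset.range N, (1 - q ^ (n + 1)))
      (fun q => ∏' n : ℕ, (1 - q ^ (n + 1))) atTop (Metric.ball (0 : ℂ) 1) := by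
    have h2 : TendstoLocallyUniformlyOn
        (fun (s : Finset ℕ) (q : ℂ) => ∏ n ∈ s, (1 - q ^ (n + 1)))
        (fun q => ∏' n : ℕ, (1 - q ^ (n + 1))) atTop (Metric.ball (0 : ℂ) 1) := hloc
    intro u hu x hx
    obtain ⟨t, ht, h3⟩ := h2 u hu x hx
    exact ⟨t, ht, Filter.tendsto_finset_range.eventually h3⟩
  ext m
  have h2 := c2T_tendsto Metric.isOpen_ball (Metric.mem_ball_self one_pos)
    (fun N => by fun_prop) h1 m
  refine tendsto_nhds_unique h2 ?_
  refine tendsto_nhds_of_eventually_eq ?_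
  filter_upwards [eventually_ge_atTop m] with N hN
  rw [c2_euler_coeff hN]
  congr 1
  have h3 : (fun q : ℂ => ∏ n ∈ Finset.range N, (1 - q ^ (n + 1))) =
      ∏ n ∈ Finset.range N, ((1 : ℂ → ℂ) - (fun q => q) ^ (n + 1)) := by
    funext q
    rw [Finset.prod_apply]
    rfl
  rw [h3, c2T_prod _ _ (fun i => by
    exact analyticAt_const.sub (analyticAt_id.pow _))]
  refine Finset.prod_congr rfl fun n _ => ?_
  have hid : AnalyticAt ℂ (fun q : ℂ => q) 0 := analyticAt_id
  rw [c2T_sub (f := (1 : ℂ → ℂ)) (g := (fun q : ℂ => q) ^ (n + 1)) analyticAt_const (hid.pow _),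
    c2T_one, c2T_pow hid, c2T_id]

theorem c2_qexp_eq (f : UpperHalfPlane → ℂ) :
    UpperHalfPlane.qExpansion 1 f = c2T (UpperHalfPlane.cuspFunction 1 f) := by
  ext m
  rw [UpperHalfPlane.qExpansion_coeff, c2T_coeff]

/-- The q-expansion of the discriminant. -/
theorem c2_disc : UpperHalfPlane.qExpansion 1 ModularForm.discriminant =
    X * euler ℂ 1 ^ 24 := by
  rw [c2_qexp_eq]
  have hP : AnalyticAt ℂ (fun q : ℂ => ∏' n : ℕ, (1 - q ^ (n + 1))) 0 :=
    ModularForm.differentiableOn_tprod_one_sub_pow.analyticAt (Metric.ball_mem_nhds 0 one_pos)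
  have h1 : UpperHalfPlane.cuspFunction 1 ModularForm.discriminant =ᶠ[𝓝 0]
      (fun q : ℂ => q) * (fun q : ℂ => ∏' n : ℕ, (1 - q ^ (n + 1))) ^ 24 := by
    filter_upwards [Metric.ball_mem_nhds (0 : ℂ) one_pos] with q hq
    rw [ModularForm.discriminant_cuspFunction_eqOn hq]
    simp only [Pi.mul_apply, Pi.pow_apply]
    rw [(ModularForm.multipliable_one_sub_pow (by simpa using hq)).tprod_pow]
  have hid : AnalyticAt ℂ (fun q : ℂ => q) 0 := analyticAt_id
  rw [c2T_congr h1, c2T_mul hid (hP.pow 24), c2T_pow hP, c2T_tprod, c2T_id]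

end GH
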