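import Pool.Agent.GH.Main

/-!
# `U_2` is completely continuous on the overconvergent cusp forms

This file is not used for the proof of the ghost conjecture; it shows that the objects in the
statement mean what they should: `uMatrix κ` is the matrix of the completely continuous operator
`U_2` on the Banach spaces of `r`-overconvergent cusp forms of weight `κ`, `r > 1` small.
-/

open PowerSeries Filter Topology

noncomputable section

namespace GH

lemma cp_constantCoeff_eis (κ : Weight 2) : PowerSeries.constantCoeff κ.eis = 1 := by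
  rw [← PowerSeries.coeff_zero_eq_constantCoeff_apply, Weight.eis, map_add, PowerSeries.coeff_mk]
  simp

lemma cp_fcoeff_add (F G : PowerSeries C2) (n : ℕ) :
    fcoeff 2 (F + G) n = fcoeff 2 F n + fcoeff 2 G n := by
  have h : F + G = (PowerSeries.mk (fcoeff 2 F) + PowerSeries.mk (fcoeff 2 G)).subst
      (hauptmodul 2 C2) := by
    rw [← coe_substAlgHom (fx_hasSubst 2), map_add, coe_substAlgHom, subst_fcoeff, subst_fcoeff]
  have h2 := congrFun (fcoeff_subst 2 (PowerSeries.mk (fcoeff 2 F) + PowerSeries.mk (fcoeff 2 G))) n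
  rw [← h] at h2
  rw [h2]
  simp

lemma cp_fcoeff_smul (c : C2) (F : PowerSeries C2) (n : ℕ) :
    fcoeff 2 (C c * F) n = c * fcoeff 2 F n := by
  have h : C c * F = (C c * PowerSeries.mk (fcoeff 2 F)).subst (hauptmodul 2 C2) := by
    rw [PowerSeries.subst_mul (fx_hasSubst 2), subst_fcoeff]
    congr 1
    rw [← PowerSeries.algebraMap_eq, ← coe_substAlgHom (fx_hasSubst 2), AlgHom.commutes]
  have h2 := congrFun (fcoeff_subst 2 (C c * PowerSeries.mk (fcoeff 2 F))) n
  rw [← h] at h2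
  rw [h2]
  simp

lemma cp_fcoeff_sum {ι : Type*} (s : Finset ι) (F : ι → PowerSeries C2) (n : ℕ) :
    fcoeff 2 (∑ i ∈ s, F i) n = ∑ i ∈ s, fcoeff 2 (F i) n := by
  classical
  induction s using Finset.induction_on with
  | empty =>
    rw [Finset.sum_empty, Finset.sum_empty]
    have := cp_fcoeff_smul 0 0 n
    simpa using this
  | insert a s ha ih =>
    rw [Finset.sum_insert ha, Finset.sum_insert ha, cp_fcoeff_add, ih]

lemma cp_U_add (F G : PowerSeries C2) : U 2 (F + G) = U 2 F + U 2 G := by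
  ext n
  simp [U]

lemma cp_U_smul (c : C2) (F : PowerSeries C2) : U 2 (C c * F) = C c * U 2 F := by
  ext n
  simp [U]

lemma cp_U_sum {ι : Type*} (s : Finset ι) (F : ι → PowerSeries C2) :
    U 2 (∑ i ∈ s, F i) = ∑ i ∈ s, U 2 (F i) := by
  ext n
  simp [U]

/-- splitting off the first `N` coefficients -/
lemma cp_split (g : PowerSeries C2) (N : ℕ) : ∃ g' : PowerSeries C2,
    g = ∑ j ∈ Finset.range N, C (PowerSeries.coeff j g) * X ^ j + X ^ N * g' := by
  refine ⟨PowerSeries.mk fun n ↦ PowerSeries.coeff (n + N) g, ?_⟩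
  ext n
  rw [map_add, map_sum]
  simp only [PowerSeries.coeff_C_mul, PowerSeries.coeff_X_pow, mul_ite, mul_one, mul_zero]
  rw [PowerSeries.coeff_X_pow_mul', Finset.sum_ite_eq, PowerSeries.coeff_mk]
  rcases lt_or_ge n N with h | h
  · rw [if_pos (Finset.mem_range.2 h), if_neg (by omega), add_zero]
  · rw [if_neg (by rw [Finset.mem_range]; omega), if_pos h, zero_add, Nat.sub_add_cancel h]

/-- `U_2` acts on the coefficients by the matrix. -/
lemma cp_fcoeff_U (κ : Weight 2) (F : PowerSeries C2) (i : ℕ) :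
    fcoeff 2 (κ.eis⁻¹ * U 2 F) i =
      ∑ j ∈ Finset.range (2 * i + 1), κ.uMatrix i j * fcoeff 2 (κ.eis⁻¹ * F) j := by
  set e := κ.eis with he
  have hc : PowerSeries.constantCoeff e ≠ 0 := by
    rw [he, cp_constantCoeff_eis]
    exact one_ne_zero
  set f := hauptmodul 2 C2 with hf
  set g : PowerSeries C2 := PowerSeries.mk (fcoeff 2 (e⁻¹ * F)) with hg
  have h1 : g.subst f = e⁻¹ * F := subst_fcoeff 2 _
  have h2 : F = e * g.subst f := by
    rw [h1, ← mul_assoc, PowerSeries.mul_inv_cancel _ hc, one_mul]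
  obtain ⟨g', hg'⟩ := cp_split g (2 * i + 1)
  have h3 : g.subst f = ∑ j ∈ Finset.range (2 * i + 1), C (PowerSeries.coeff j g) * f ^ j +
      f ^ (2 * i + 1) * g'.subst f := by
    conv_lhs => rw [hg']
    rw [← coe_substAlgHom (fx_hasSubst 2), map_add, map_sum, map_mul, map_pow, substAlgHom_X]
    congr 1
    refine Finset.sum_congr rfl fun j _ ↦ ?_
    rw [map_mul, map_pow, substAlgHom_X, ← PowerSeries.algebraMap_eq, AlgHom.commutes]
  have h4 : F = ∑ j ∈ Finset.range (2 * i + 1), C (PowerSeries.coeff j g) * (e * f ^ j) +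
      e * f ^ (2 * i + 1) * g'.subst f := by
    rw [h2, h3, mul_add, Finset.mul_sum, mul_assoc]
    congr 1
    refine Finset.sum_congr rfl fun j _ ↦ ?_
    ring
  have h5 : e⁻¹ * U 2 F = ∑ j ∈ Finset.range (2 * i + 1), C (PowerSeries.coeff j g) *
      (e⁻¹ * U 2 (e * f ^ j)) + e⁻¹ * U 2 (e * f ^ (2 * i + 1) * g'.subst f) := by
    conv_lhs => rw [h4]
    rw [cp_U_add, cp_U_sum, mul_add, Finset.mul_sum]
    congr 1
    refine Finset.sum_congr rfl fun j _ ↦ ?_
    rw [cp_U_smul]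
    ring
  have h6 : fcoeff 2 (e⁻¹ * U 2 (e * f ^ (2 * i + 1) * g'.subst f)) i = 0 := by
    refine fa_fcoeff_zero _ (i := i) (fun n hn => ?_) i le_rfl
    rw [PowerSeries.coeff_mul]
    refine Finset.sum_eq_zero fun ab hab => ?_
    rw [Finset.HasAntidiagonal.mem_antidiagonal] at hab
    have h7 : PowerSeries.coeff ab.2 (U 2 (e * f ^ (2 * i + 1) * g'.subst f)) = 0 := by
      unfold U
      rw [PowerSeries.coeff_mk, mul_right_comm, PowerSeries.coeff_mul]
      refine Finset.sum_eq_zero fun cd hcd => ?_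
      rw [Finset.HasAntidiagonal.mem_antidiagonal] at hcd
      rw [hf, fx_coeff_pow_lt 2 (by omega), mul_zero]
    rw [h7, mul_zero]
  rw [h5, cp_fcoeff_add, h6, add_zero, cp_fcoeff_sum]
  refine Finset.sum_congr rfl fun j _ ↦ ?_
  rw [cp_fcoeff_smul, hg, PowerSeries.coeff_mk, Weight.uMatrix, mul_comm]

/-- The decay of the matrix of `U_2`. -/
lemma cp_decay (κ : Weight 2) (hκ : κ.IsEven) : ∃ R : ℝ, 1 < R ∧ ∃ c : ℝ, 0 < c ∧
    (∀ i j : ℕ, j ≤ 2 * i → ‖κ.uMatrix i j‖ ≤ c * R⁻¹ ^ (2 * i - j)) ∧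
    (∀ i j : ℕ, 2 * i < j → κ.uMatrix i j = 0) := by
  obtain ⟨E, hE1, hE2, hE3, hE4, hE5⟩ := exists_eisFam
  have hE : EisFamily E := ⟨hE1, hE2, hE3, hE4, hE5⟩
  obtain ⟨u, hu1, hu2, hu3⟩ := exists_ord (fun x ↦ Mmat_zero_zero x)
    (fun x hx i j h ↦ norm_Mmat_le hx h) (fun x hx i j h ↦ norm_Mmat_lt hx h)
    (fun i j ↦ (Mmat_isPoly i j).imp fun P h ↦ h.1)
  have hu : OrdVec u := ⟨hu1, hu2, hu3⟩
  have hPhi : ∀ w : C2, ‖w‖ ≤ 1 / 8 → ∀ l, ‖ev w (Phi E l)‖ * (3 / 2 : ℝ) ^ l ≤ 1 :=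
    fun w hw l ↦ norm_Phi_central E hE u hu hw l
  have hb := norm_famMatrix_le E hE hPhi norm_coeff_le_of_bound
  have hw : ‖κ.w‖ < 1 := κ.norm_w_lt_one hκ
  obtain ⟨R, hR, c, hc, h⟩ := hb ‖κ.w‖ hw
  refine ⟨R, hR, c, hc, fun i j hij ↦ ?_, fun i j hij ↦ ?_⟩
  · rw [uMatrix_eq E hE κ hκ i j]
    exact h κ.w le_rfl i j hij
  · rw [uMatrix_eq E hE κ hκ i j, famMatrix_of_lt E hE hij]
    simpa using ev_C hw 0

/-- the estimate for the image of `U_2` -/
lemma cp_tendsto {R c r : ℝ} (hR : 1 < R) (hc : 0 < c) (hr : 1 < r) (hrR : r < R)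
    (A : ℕ → ℕ → C2) (b : ℕ → C2)
    (hA : ∀ i j : ℕ, j ≤ 2 * i → ‖A i j‖ ≤ c * R⁻¹ ^ (2 * i - j))
    (hb : Tendsto (fun n : ℕ ↦ ‖b n‖ * r ^ n) atTop (𝓝 0)) :
    Tendsto (fun i : ℕ ↦ ‖∑ j ∈ Finset.range (2 * i + 1), A i j * b j‖ * (r ^ 2) ^ i) atTop
      (𝓝 0) := by
  have hR0 : 0 < R := by linarith
  have hr0 : 0 < r := by linarith
  have hq0 : 0 < r / R := div_pos hr0 hR0
  have hq1 : r / R < 1 := (div_lt_one hR0).2 hrR
  obtain ⟨M, hM⟩ := hb.bddAbove_range
  have hM' : ∀ n, ‖b n‖ * r ^ n ≤ M := fun n ↦ hM ⟨n, rfl⟩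
  have hM0 : 0 ≤ M := (by positivity : 0 ≤ ‖b 0‖ * r ^ 0).trans (hM' 0)
  -- term by term
  have hterm : ∀ i j : ℕ, j ≤ 2 * i → ‖A i j * b j‖ * (r ^ 2) ^ i ≤
      c * ((r / R) ^ (2 * i - j) * (‖b j‖ * r ^ j)) := by
    intro i j hij
    have h1 : (r ^ 2) ^ i = r ^ (2 * i - j) * r ^ j := by
      rw [← pow_mul, ← pow_add]
      congr 1
      omega
    rw [norm_mul, h1, div_pow, div_eq_mul_inv, ← inv_pow]
    calc ‖A i j‖ * ‖b j‖ * (r ^ (2 * i - j) * r ^ j)
        = ‖A i j‖ * (r ^ (2 * i - j) * (‖b j‖ * r ^ j)) := by ring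
      _ ≤ (c * R⁻¹ ^ (2 * i - j)) * (r ^ (2 * i - j) * (‖b j‖ * r ^ j)) :=
          mul_le_mul_of_nonneg_right (hA i j hij) (by positivity)
      _ = _ := by ring
  rw [Metric.tendsto_atTop]
  intro ε hε
  obtain ⟨J, hJ⟩ := (Metric.tendsto_atTop.1 hb) (ε / (2 * c)) (by positivity)
  have hJ' : ∀ n, J ≤ n → ‖b n‖ * r ^ n ≤ ε / (2 * c) := by
    intro n hn
    have := hJ n hn
    rw [Real.dist_eq, sub_zero, abs_of_nonneg (by positivity)] at this
    exact this.le
  obtain ⟨K, hK⟩ := exists_pow_lt_of_lt_one (show 0 < ε / (2 * (c * (M + 1))) by positivity) hq1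
  refine ⟨J + K, fun i hi ↦ ?_⟩
  rw [Real.dist_eq, sub_zero, abs_of_nonneg (by positivity)]
  have hri : 0 < (r ^ 2) ^ i := by positivity
  refine lt_of_le_of_lt ?_ (half_lt_self hε)
  rw [← le_div_iff₀ hri]
  refine IsUltrametricDist.norm_sum_le_of_forall_le_of_nonneg (by positivity) fun j hj => ?_
  rw [le_div_iff₀ hri]
  have hj2 : j ≤ 2 * i := by
    rw [Finset.mem_range] at hj
    omega
  refine (hterm i j hj2).trans ?_
  rcases lt_or_ge j J with h | h
  · have h1 : (r / R) ^ (2 * i - j) ≤ ε / (2 * (c * (M + 1))) :=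
      (pow_le_pow_of_le_one hq0.le hq1.le (by omega)).trans hK.le
    calc c * ((r / R) ^ (2 * i - j) * (‖b j‖ * r ^ j))
        ≤ c * (ε / (2 * (c * (M + 1))) * (M + 1)) := by
          refine mul_le_mul_of_nonneg_left ?_ hc.le
          exact mul_le_mul h1 ((hM' j).trans (by linarith)) (by positivity) (by positivity)
      _ = ε / 2 := by
          field_simp
  · calc c * ((r / R) ^ (2 * i - j) * (‖b j‖ * r ^ j))
        ≤ c * (1 * (ε / (2 * c))) := by
          refine mul_le_mul_of_nonneg_left ?_ hc.le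
          exact mul_le_mul (pow_le_one₀ hq0.le hq1.le) (hJ' j h) (by positivity) zero_le_one
      _ = ε / 2 := by
          field_simp

/-- For every even weight `κ` there is `R > 1` such that for all `1 < r < R`: `U_2` maps
`r`-overconvergent cusp forms to `r²`-overconvergent cusp forms, acts on the coefficients by
`uMatrix κ`, and is completely continuous on the space with orthonormal basis `E_κ f^j`
(rescaled by `r`). -/
theorem exists_compact (κ : Weight 2) (hκ : κ.IsEven) : ∃ R : ℝ, 1 < R ∧ ∀ r : ℝ, 1 < r → r < R →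
    (∀ F : PowerSeries (PadicComplex 2), κ.IsCuspForm r F → κ.IsCuspForm (r ^ 2) (U 2 F)) ∧
    (∀ F : PowerSeries (PadicComplex 2), κ.IsCuspForm r F → ∀ i : ℕ,
      fcoeff 2 (κ.eis⁻¹ * U 2 F) i =
        ∑ j ∈ Finset.range (2 * i + 1), κ.uMatrix i j * fcoeff 2 (κ.eis⁻¹ * F) j) ∧
    (∃ ε : ℕ → ℝ, Tendsto ε atTop (𝓝 0) ∧
      ∀ i j : ℕ, ‖κ.uMatrix i j‖ * r ^ i ≤ ε i * r ^ j) := by
  obtain ⟨R, hR, c, hc, hA, hA0⟩ := cp_decay κ hκ
  refine ⟨R, hR, fun r hr hrR ↦ ⟨fun F hF ↦ ⟨?_, ?_⟩, fun F _ i ↦ cp_fcoeff_U κ F i,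
    fun i ↦ c * r⁻¹ ^ i, ?_, fun i j ↦ ?_⟩⟩
  · rw [cp_fcoeff_U κ F 0]
    simp only [mul_zero, zero_add, Finset.range_one, Finset.sum_singleton]
    rw [hF.1, mul_zero]
  · refine (cp_tendsto hR hc hr hrR κ.uMatrix _ hA hF.2).congr fun i ↦ ?_
    rw [cp_fcoeff_U κ F i]
  · have h1 : Tendsto (fun i : ℕ ↦ r⁻¹ ^ i) atTop (𝓝 0) :=
      tendsto_pow_atTop_nhds_zero_of_lt_one (by positivity) (inv_lt_one_of_one_lt₀ hr)
    simpa using h1.const_mul c
  · have hr0 : 0 < r := by linarith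
    rcases lt_or_ge (2 * i) j with h | h
    · rw [hA0 i j h, norm_zero, zero_mul]
      positivity
    · have h1 : R⁻¹ ≤ r⁻¹ := inv_anti₀ hr0 hrR.le
      have h2 : 0 ≤ R⁻¹ := by positivity
      calc ‖κ.uMatrix i j‖ * r ^ i ≤ (c * R⁻¹ ^ (2 * i - j)) * r ^ i :=
            mul_le_mul_of_nonneg_right (hA i j h) (by positivity)
        _ ≤ (c * r⁻¹ ^ (2 * i - j)) * r ^ i := by
            refine mul_le_mul_of_nonneg_right ?_ (by positivity)
            exact mul_le_mul_of_nonneg_left (pow_le_pow_left₀ h2 h1 _) hc.le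
        _ = c * r⁻¹ ^ i * r ^ j := by
            have h3 : r⁻¹ ^ (2 * i - j) * r ^ i = r⁻¹ ^ i * r ^ j := by
              have h4 : r ^ (2 * i - j) * (r⁻¹ ^ i * r ^ j) = r ^ i := by
                have h5 : r ^ (2 * i - j) * r ^ j = r ^ i * r ^ i := by
                  rw [← pow_add, ← pow_add]
                  congr 1
                  omega
                rw [inv_pow]
                calc r ^ (2 * i - j) * ((r ^ i)⁻¹ * r ^ j)
                    = (r ^ (2 * i - j) * r ^ j) * (r ^ i)⁻¹ := by ring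
                  _ = r ^ i := by
                      rw [h5]
                      field_simp
              rw [← h4, inv_pow]
              field_simp
            rw [mul_assoc, h3, mul_assoc]

end GH
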