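import Pool.Agent.GH.Defs

/-!
# The ghost conjecture for tame level `N = 1` and `p = 2, 3, 5, 7, 13`: uniform definitions

All components of the even weight space; `p` is one of the primes for which `X_0(p)` has genus
zero. The restriction of an even weight `κ` to the torsion of `ℤ_pˣ` is `ζ ↦ ζ^{2ν}` for
a unique `ν` with `0 ≤ 2ν ≤ p - 3` (for `p = 2`: `ν = 0`). Then `κ = κ₀ z^{2ν}` with `κ₀` trivial on
the torsion, and following Coleman the overconvergent cusp forms of weight `κ` are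
`S_κ^† = E_{κ₀} S_{2ν}^†`, `S_k^†` the overconvergent cusp forms of weight `k` (and character
`z^k`). Here `S_{2ν}^† = E_{z^{2ν}} S_0^†`, `E_{z^{2ν}} = 1 + ⋯` the Eisenstein series of weight `2ν`
on `Γ_0(p)` with `U_p`-eigenvalue `1` (`1` for `ν = 0`): for `2ν < p - 1` its only zeros on the
ordinary locus are the zeros at the elliptic points which every form of weight `2ν` has. So
`S_κ^†` is the union over `r > 1` of the spaces of the series `E_{κ₀} E_{z^{2ν}} ∑_{j ≥ 1} c_j f^j`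
with `|c_j| r^j → 0`. For `p = 2, 3` one has `ν = 0` and everything is as in `Defs`.
-/

open PowerSeries Filter Topology

noncomputable section

namespace GH

section

variable {p : ℕ} [Fact p.Prime]

/-- The inclusion `ℤ_pˣ → ℂ_pˣ`, the weight `z ↦ z`. -/
def Weight.incl (p : ℕ) [Fact p.Prime] : Weight p where
  toMonoidHom := Units.map ((algebraMap ℚ_[p] (PadicComplex p)).comp
    PadicInt.Coe.ringHom : ℤ_[p] →+* PadicComplex p).toMonoidHom
  continuous_toFun := by
    refine Continuous.units_map _ ?_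
    exact (continuous_algebraMap ℚ_[p] (PadicComplex p)).comp continuous_subtype_val

/-- The number `ν` with `κ(ζ) = ζ^{2ν}` for all `ζ` with `ζ^{p-1} = 1`. -/
def Weight.nu (κ : Weight p) : ℕ :=
  sInf {n : ℕ | ∀ ζ : (ℤ_[p])ˣ, ζ ^ (p - 1) = 1 → κ ζ = Weight.incl p ζ ^ (2 * n)}

/-- The weight `κ₀ = κ z^{-2ν}`. -/
def Weight.base (κ : Weight p) : Weight p := κ * ((Weight.incl p) ^ (2 * κ.nu))⁻¹

end

section

variable {p : ℕ} [Fact p.Prime]

/-- The form `E_{κ₀} E_{z^{2ν}}`. -/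
def Weight.frame (κ : Weight p) : PowerSeries (PadicComplex p) :=
  κ.base.eis * Weight.eis ((Weight.incl p) ^ (2 * κ.nu))

/-- The `r`-overconvergent cusp forms of weight `κ`: the `q`-expansions
`E_{κ₀} E_{z^{2ν}} ∑_{n ≥ 1} c_n f^n` with `|c_n| r^n → 0`. The space `S_κ^†` is the union over
`r > 1`. -/
def Weight.IsCuspFormU (κ : Weight p) (r : ℝ) (F : PowerSeries (PadicComplex p)) : Prop :=
  fcoeff p (κ.frame⁻¹ * F) 0 = 0 ∧
    Tendsto (fun n : ℕ ↦ ‖fcoeff p (κ.frame⁻¹ * F) n‖ * r ^ n) atTop (𝓝 0)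

/-- The matrix of `U_p` in the basis `E_{κ₀} E_{z^{2ν}} f^j`, `j ≥ 1`, of `S_κ^†`. -/
def Weight.uMatrixU (κ : Weight p) (i j : ℕ) : PadicComplex p :=
  fcoeff p (κ.frame⁻¹ * U p (κ.frame * hauptmodul p (PadicComplex p) ^ j)) i

/-- The coefficients of the Fredholm series `P_κ(t) = det (1 - t U_p | S_κ^†)`. -/
def Weight.charSeriesU (κ : Weight p) (m : ℕ) : PadicComplex p := fred κ.uMatrixU m

end

/-! ### The ghost series -/

/-- The number of elliptic points of order two of `X_0(p)`. -/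
def nell2 (p : ℕ) : ℕ := if p = 2 then 1 else if p % 4 = 1 then 2 else 0

/-- The number of elliptic points of order three of `X_0(p)`. -/
def nell3 (p : ℕ) : ℕ := if p = 3 then 1 else if p % 3 = 1 then 2 else 0

/-- `dim S_k(Γ_0(p))` for even `k` if `X_0(p)` has genus zero (classical formula). -/
def dimG (p k : ℕ) : ℕ := nell2 p * (k / 4) + nell3 p * (k / 3) - 1

/-- `d_k^new = dim S_k(Γ_0(p)) - 2 d_k`. -/
def dimNewG (p k : ℕ) : ℕ := dimG p k - 2 * dimOne k

/-- The multiplicity `m_i(k)` of the ghost zero `w_k` of `g_i`. -/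
def multG (p i k : ℕ) : ℕ :=
  if dimOne k < i ∧ i < dimOne k + dimNewG p k then sfun (i - dimOne k) (dimNewG p k - 1) else 0

/-- The ghost coefficient `g_i(w) = ∏_k (w - w_k)^{m_i(k)}` of the component of the characters
`ζ ↦ ζ^{2ν}`: the product over all even `k ≡ 2ν mod p - 1`, `w_k = (1+2p)^k - 1`. -/
def ghostG (p ν : ℕ) {K : Type*} [Field K] (w : K) (i : ℕ) : K :=
  ∏ᶠ k : ℕ, if Even k ∧ k ≡ 2 * ν [MOD p - 1] then
    (w - ((1 + 2 * (p : K)) ^ k - 1)) ^ multG p i k else 1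

/-- **The ghost conjecture for `p` and tame level `1`**, `p = 2, 3, 5, 7` or `13`. -/
def GhostConjectureU (p : ℕ) [Fact p.Prime] : Prop :=
  ∀ κ : Weight p, κ.IsEven →
    (∀ m : ℕ, ∃ c : PadicComplex p,
      Tendsto (fun N : ℕ ↦ fredBlock κ.uMatrixU N m) atTop (𝓝 c)) ∧
    newtonPolygon p κ.charSeriesU = newtonPolygon p (ghostG p κ.nu κ.w)

end GH
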