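import Pool.Agent.GH.DefsU

/-! Torsion of `ℤ_pˣ`, the components of the weight space, and the cases `p = 2, 3` of the
uniform statement. -/

open PowerSeries Filter Topology

noncomputable section

namespace GH

section

variable {p : ℕ} [hp : Fact p.Prime]

theorem com_pow_expand {R : Type*} [CommRing R] (a : R) (i : ℕ) :
    ∃ r : R, (1 + a) ^ i = 1 + i * a + a ^ 2 * r := by
  induction i with
  | zero => exact ⟨0, by simp⟩
  | succ i ih =>
    obtain ⟨r, hr⟩ := ih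
    refine ⟨i + r + a * r, ?_⟩
    rw [pow_succ, hr]
    push_cast
    ring

theorem com_p_ne_zero : (p : ℤ_[p]) ≠ 0 := by
  exact_mod_cast hp.out.ne_zero

/-- The principal units have no torsion. -/
theorem com_torsion_free {u : ℤ_[p]} {s : ℤ_[p]} (hu : u = 1 + 2 * p * s) {n : ℕ} (hn : 0 < n)
    (h : u ^ n = 1) : u = 1 := by
  by_contra hne
  have hfin : IsOfFinOrder u := isOfFinOrder_iff_pow_eq_one.mpr ⟨n, hn, h⟩
  have ho1 : orderOf u ≠ 1 := fun h1 ↦ hne (orderOf_eq_one_iff.mp h1)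
  obtain ⟨q, hq, hqd⟩ := Nat.exists_prime_and_dvd ho1
  obtain ⟨v, hv⟩ : ∃ v : ℤ_[p], v = u ^ (orderOf u / q) := ⟨_, rfl⟩
  have hpos : 0 < orderOf u := orderOf_pos_iff.mpr hfin
  have hvq : v ^ q = 1 := by
    rw [hv, ← pow_mul, Nat.div_mul_cancel hqd, pow_orderOf_eq_one]
  have hv1 : v ≠ 1 := by
    intro h1
    rw [hv] at h1
    have h2 := orderOf_dvd_of_pow_eq_one h1
    have h3 : 0 < orderOf u / q := Nat.div_pos (Nat.le_of_dvd hpos hqd) hq.pos
    have h4 := Nat.le_of_dvd h3 h2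
    have h5 : orderOf u / q < orderOf u := Nat.div_lt_self hpos hq.one_lt
    omega
  obtain ⟨t, ht⟩ : ∃ t : ℤ_[p], v = 1 + 2 * p * t := by
    obtain ⟨m, hm⟩ : ∃ m : ℕ, m = orderOf u / q := ⟨_, rfl⟩
    rw [← hm] at hv
    obtain ⟨r, hr⟩ := com_pow_expand (2 * p * s) m
    refine ⟨m * s + 2 * p * s ^ 2 * r, ?_⟩
    rw [hv, hu, hr]
    ring
  have hsum : ∑ i ∈ Finset.range q, v ^ i = 0 := by
    have h1 := mul_geom_sum v q
    rw [hvq, sub_self] at h1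
    exact (mul_eq_zero.mp h1).resolve_left (sub_ne_zero.mpr hv1)
  choose r hr using fun i ↦ com_pow_expand (2 * p * t) i
  have hexp : ∑ i ∈ Finset.range q, v ^ i = q + p * t * (q * (q - 1 : ℕ) : ℕ) +
      (2 * p * t) ^ 2 * ∑ i ∈ Finset.range q, r i := by
    have h1 : ∀ i, v ^ i = 1 + i * (2 * p * t) + (2 * p * t) ^ 2 * r i := by
      intro i
      rw [ht]
      exact hr i
    rw [Finset.sum_congr rfl fun i _ ↦ h1 i, Finset.sum_add_distrib, Finset.sum_add_distrib,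
      ← Finset.mul_sum, ← Finset.sum_mul]
    have h2 : ((∑ i ∈ Finset.range q, i : ℕ) : ℤ_[p]) * 2 = (q * (q - 1 : ℕ) : ℕ) := by
      have := Finset.sum_range_id_mul_two q
      exact_mod_cast congrArg (Nat.cast (R := ℤ_[p])) this
    rw [← h2]
    push_cast
    simp
    ring
  rw [hsum] at hexp
  have hpq : q = p := by
    have h1 : (p : ℤ_[p]) ∣ ((q : ℕ) : ℤ_[p]) := by
      refine ⟨-(t * (q * (q - 1 : ℕ) : ℕ) + 4 * p * t ^ 2 * ∑ i ∈ Finset.range q, r i), ?_⟩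
      linear_combination -hexp
    have h2 : (p : ℤ) ∣ (q : ℤ) := by
      rw [← PadicInt.norm_int_lt_one_iff_dvd]
      have h3 := (PadicInt.norm_lt_one_iff_dvd ((q : ℕ) : ℤ_[p])).mpr h1
      exact_mod_cast h3
    have h3 : p ∣ q := by exact_mod_cast h2
    exact ((Nat.prime_dvd_prime_iff_eq hp.out hq).mp h3).symm
  rw [hpq] at hexp
  have hfac : (p : ℤ_[p]) * (1 + p * (t * ((p - 1 : ℕ) : ℤ_[p]) +
      4 * t ^ 2 * ∑ i ∈ Finset.range p, r i)) = 0 := by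
    push_cast at hexp
    linear_combination -hexp
  have h1 := (mul_eq_zero.mp hfac).resolve_left com_p_ne_zero
  have h2 : ((p : ℕ) : ℤ_[p]) ∣ 1 := by
    refine ⟨-(t * ((p - 1 : ℕ) : ℤ_[p]) + 4 * t ^ 2 * ∑ i ∈ Finset.range p, r i), ?_⟩
    linear_combination h1
  exact PadicInt.prime_p.not_isUnit (isUnit_of_dvd_one h2)

theorem com_fermat (u : (ℤ_[p])ˣ) : ∃ t : ℤ_[p], (u : ℤ_[p]) ^ (p - 1) = 1 + p * t := by
  have h1 : PadicInt.toZMod (u : ℤ_[p]) ≠ 0 := by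
    have := u.isUnit.map (PadicInt.toZMod (p := p))
    exact this.ne_zero
  have h2 : PadicInt.toZMod ((u : ℤ_[p]) ^ (p - 1) - 1) = 0 := by
    rw [map_sub, map_pow, ZMod.pow_card_sub_one_eq_one h1, map_one, sub_self]
  have h3 : (u : ℤ_[p]) ^ (p - 1) - 1 ∈ RingHom.ker (PadicInt.toZMod (p := p)) := h2
  rw [PadicInt.ker_toZMod, PadicInt.maximalIdeal_eq_span_p, Ideal.mem_span_singleton] at h3
  obtain ⟨t, ht⟩ := h3
  exact ⟨t, by linear_combination ht⟩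

/-- For odd `p` the torsion of `ℤ_pˣ` is killed by `p - 1`. -/
theorem com_torsion_odd (h2 : p ≠ 2) {ζ : (ℤ_[p])ˣ} (h : IsOfFinOrder ζ) : ζ ^ (p - 1) = 1 := by
  obtain ⟨n, hn, hζ⟩ := isOfFinOrder_iff_pow_eq_one.mp h
  obtain ⟨t, ht⟩ := com_fermat ζ
  have hu2 : IsUnit (2 : ℤ_[p]) := by
    have h3 : ¬ (p : ℤ) ∣ 2 := by
      intro h4
      have h5 : p ∣ 2 := by exact_mod_cast h4
      exact h2 ((Nat.prime_dvd_prime_iff_eq hp.out Nat.prime_two).mp h5)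
    rw [← PadicInt.norm_int_lt_one_iff_dvd] at h3
    rw [PadicInt.isUnit_iff]
    have h4 := PadicInt.norm_le_one (2 : ℤ_[p])
    refine le_antisymm h4 ?_
    push Not at h3
    exact_mod_cast h3
  obtain ⟨w, hw⟩ := hu2
  apply Units.ext
  rw [Units.val_pow_eq_pow_val, Units.val_one]
  refine com_torsion_free (s := (w⁻¹ : (ℤ_[p])ˣ) * t) (n := n) ?_ hn ?_
  · rw [ht, ← hw]
    have : (w : ℤ_[p]) * ((w⁻¹ : (ℤ_[p])ˣ) : ℤ_[p]) = 1 := by simp
    linear_combination -(p * t : ℤ_[p]) * this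
  · rw [← pow_mul, mul_comm, pow_mul]
    have : (ζ : ℤ_[p]) ^ n = 1 := by
      rw [← Units.val_pow_eq_pow_val, hζ, Units.val_one]
    rw [this, one_pow]

theorem com_torsion_two {ζ : (ℤ_[2])ˣ} (h : IsOfFinOrder ζ) : ζ = 1 ∨ ζ = -1 := by
  obtain ⟨n, hn, hζ⟩ := isOfFinOrder_iff_pow_eq_one.mp h
  obtain ⟨t, ht⟩ := com_fermat ζ
  have h1 : (ζ : ℤ_[2]) = 1 + 2 * t := by
    have : (ζ : ℤ_[2]) ^ (2 - 1) = 1 + (2 : ℕ) * t := ht
    rw [Nat.succ_sub_one, pow_one] at this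
    exact_mod_cast this
  have h2 : (ζ : ℤ_[2]) ^ 2 = 1 := by
    refine com_torsion_free (s := t + t ^ 2) (n := n) ?_ hn ?_
    · rw [h1]
      push_cast
      ring
    · rw [← pow_mul, mul_comm, pow_mul]
      have : (ζ : ℤ_[2]) ^ n = 1 := by
        rw [← Units.val_pow_eq_pow_val, hζ, Units.val_one]
      rw [this, one_pow]
  have h3 : ((ζ : ℤ_[2]) - 1) * ((ζ : ℤ_[2]) + 1) = 0 := by linear_combination h2
  rcases mul_eq_zero.mp h3 with h | h
  · exact Or.inl (Units.ext (by rw [Units.val_one]; linear_combination h))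
  · exact Or.inr (Units.ext (by rw [Units.val_neg, Units.val_one]; linear_combination h))

theorem com_incl_injective : Function.Injective (Weight.incl p) := by
  have h : Function.Injective ((algebraMap ℚ_[p] (PadicComplex p)).comp
      PadicInt.Coe.ringHom : ℤ_[p] →+* PadicComplex p) :=
    (algebraMap ℚ_[p] (PadicComplex p)).injective.comp Subtype.val_injective
  exact Units.map_injective h

theorem com_incl_neg_one : Weight.incl p (-1) = -1 := by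
  apply Units.ext
  change ((algebraMap ℚ_[p] (PadicComplex p)).comp
    PadicInt.Coe.ringHom : ℤ_[p] →+* PadicComplex p) ((-1 : (ℤ_[p])ˣ) : ℤ_[p]) = _
  rw [Units.val_neg, Units.val_neg, Units.val_one, Units.val_one, map_neg, map_one]

theorem com_neg_one_pow (i : ℕ) : Weight.incl p (-1) ^ i = 1 ↔ Even i := by
  rw [com_incl_neg_one]
  constructor
  · intro h1
    by_contra hodd
    rw [Nat.not_even_iff_odd] at hodd
    rw [hodd.neg_one_pow] at h1
    have h2 := congrArg (Units.val) h1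
    rw [Units.val_neg, Units.val_one] at h2
    have h3 : (2 : PadicComplex p) = 0 := by linear_combination -h2
    exact two_ne_zero h3
  · intro h1
    exact h1.neg_one_pow

/-- The restriction of an even weight to the torsion is `ζ ↦ ζ^{2n}`, `2n < p - 1` (`n = 0` for
`p = 2`). -/
theorem com_exists_nu (κ : Weight p) (h : κ.IsEven) :
    ∃ n : ℕ, 2 * n < p - 1 ∧ ∀ ζ : (ℤ_[p])ˣ, IsOfFinOrder ζ → κ ζ = Weight.incl p ζ ^ (2 * n) := by
  by_cases h2 : p = 2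
  · subst h2
    refine ⟨0, by norm_num, fun ζ hζ ↦ ?_⟩
    rw [mul_zero, pow_zero]
    rcases com_torsion_two hζ with rfl | rfl
    · rw [map_one]
    · exact h
  · have hp2 : 2 ≤ p := hp.out.two_le
    have : NeZero (p - 1) := ⟨by omega⟩
    obtain ⟨g, hg⟩ := (rootsOfUnity.isCyclic (ℤ_[p]) (p - 1)).exists_generator
    have hg1 : (g : (ℤ_[p])ˣ) ^ (p - 1) = 1 := g.2
    have hfin : IsOfFinOrder (g : (ℤ_[p])ˣ) :=
      isOfFinOrder_iff_pow_eq_one.mpr ⟨p - 1, by omega, hg1⟩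
    have hd : 0 < orderOf (g : (ℤ_[p])ˣ) := orderOf_pos_iff.mpr hfin
    obtain ⟨φ, hφ⟩ : ∃ φ : (ℤ_[p])ˣ →* (PadicComplex p)ˣ,
      φ = (Weight.incl p).toMonoidHom := ⟨_, rfl⟩
    have hφa : ∀ u, φ u = Weight.incl p u := fun u ↦ by rw [hφ]; rfl
    have hφi : Function.Injective φ := by
      intro a b hab
      rw [hφa, hφa] at hab
      exact com_incl_injective hab
    have hord : orderOf (φ g) = orderOf (g : (ℤ_[p])ˣ) := orderOf_injective φ hφi _
    have hprim : IsPrimitiveRoot ((φ g : (PadicComplex p)ˣ) : PadicComplex p)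
        (orderOf (g : (ℤ_[p])ˣ)) := by
      rw [← hord, IsPrimitiveRoot.coe_units_iff]
      exact IsPrimitiveRoot.orderOf _
    have : NeZero (orderOf (g : (ℤ_[p])ˣ)) := ⟨hd.ne'⟩
    have hκ : ((κ g : (PadicComplex p)ˣ) : PadicComplex p) ^ orderOf (g : (ℤ_[p])ˣ) = 1 := by
      rw [← Units.val_pow_eq_pow_val, ← map_pow, pow_orderOf_eq_one, map_one, Units.val_one]
    obtain ⟨i, hi, hi2⟩ := hprim.eq_pow_of_pow_eq_one hκ
    have hgi : κ (g : (ℤ_[p])ˣ) = Weight.incl p g ^ i := by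
      rw [← hφa]
      apply Units.ext
      rw [Units.val_pow_eq_pow_val, hi2]
    have hcomp : ∀ ζ : (ℤ_[p])ˣ, IsOfFinOrder ζ → κ ζ = Weight.incl p ζ ^ i := by
      intro ζ hζ
      have h3 : ζ ∈ rootsOfUnity (p - 1) (ℤ_[p]) := com_torsion_odd h2 hζ
      obtain ⟨n, hn⟩ := Subgroup.mem_zpowers_iff.mp (hg ⟨ζ, h3⟩)
      have h4 : (g : (ℤ_[p])ˣ) ^ n = ζ := by
        have := congrArg Subtype.val hn
        simpa using this
      rw [← h4, map_zpow, map_zpow, hgi, ← zpow_natCast, ← zpow_natCast, zpow_comm]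
    have hle : orderOf (g : (ℤ_[p])ˣ) ≤ p - 1 :=
      Nat.le_of_dvd (by omega) (orderOf_dvd_of_pow_eq_one hg1)
    have hm1 : IsOfFinOrder (-1 : (ℤ_[p])ˣ) :=
      isOfFinOrder_iff_pow_eq_one.mpr ⟨2, by norm_num, by rw [neg_one_sq]⟩
    have h5 := hcomp (-1) hm1
    rw [h] at h5
    obtain ⟨m, hm⟩ := (com_neg_one_pow i).mp h5.symm
    refine ⟨m, by omega, fun ζ hζ ↦ ?_⟩
    rw [hcomp ζ hζ, hm, two_mul]

/-- For an even weight the set in the definition of `ν` is not empty. -/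
theorem Weight.nu_spec (κ : Weight p) (h : κ.IsEven) :
    2 * κ.nu < p - 1 ∧ ∀ ζ : (ℤ_[p])ˣ, IsOfFinOrder ζ → κ ζ = Weight.incl p ζ ^ (2 * κ.nu) := by
  obtain ⟨n, hn, hn2⟩ := com_exists_nu κ h
  have hp2 : 2 ≤ p := hp.out.two_le
  have hmem : n ∈ {n : ℕ | ∀ ζ : (ℤ_[p])ˣ, ζ ^ (p - 1) = 1 →
      κ ζ = Weight.incl p ζ ^ (2 * n)} := by
    intro ζ hζ
    exact hn2 ζ (isOfFinOrder_iff_pow_eq_one.mpr ⟨p - 1, by omega, hζ⟩)
  have h1 : κ.nu ≤ n := Nat.sInf_le hmem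
  have h2 := Nat.sInf_mem ⟨n, hmem⟩
  refine ⟨by omega, fun ζ hζ ↦ ?_⟩
  by_cases hp : p = 2
  · have h0 : κ.nu = 0 := by omega
    have hn0 : n = 0 := by omega
    rw [h0, ← hn0]
    exact hn2 ζ hζ
  · exact h2 ζ (com_torsion_odd hp hζ)

/-- `ν` is unique. -/
theorem Weight.nu_eq (κ : Weight p) {n : ℕ}
    (hn : ∀ ζ : (ℤ_[p])ˣ, ζ ^ (p - 1) = 1 → κ ζ = Weight.incl p ζ ^ (2 * n))
    (h0 : ∀ m < n, ¬ ∀ ζ : (ℤ_[p])ˣ, ζ ^ (p - 1) = 1 → κ ζ = Weight.incl p ζ ^ (2 * m)) :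
    κ.nu = n := by
  refine le_antisymm (Nat.sInf_le hn) ?_
  by_contra hlt
  push Not at hlt
  have h1 : κ.nu ∈ {n : ℕ | ∀ ζ : (ℤ_[p])ˣ, ζ ^ (p - 1) = 1 →
      κ ζ = Weight.incl p ζ ^ (2 * n)} := Nat.sInf_mem ⟨n, hn⟩
  exact h0 _ hlt h1

theorem Weight.nu_two (κ : Weight 2) (h : κ.IsEven) : κ.nu = 0 := by
  have := (κ.nu_spec h).1
  omega

theorem Weight.nu_three (κ : Weight 3) (h : κ.IsEven) : κ.nu = 0 := by
  have := (κ.nu_spec h).1
  omega

theorem com_isUnit : IsUnit ((1 + 2 * p : ℕ) : ℤ_[p]) := by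
  rw [PadicInt.isUnit_iff]
  by_contra hne
  have h2 := PadicInt.norm_le_one ((1 + 2 * p : ℕ) : ℤ_[p])
  have h3 : ‖((1 + 2 * p : ℕ) : ℤ_[p])‖ < 1 := lt_of_le_of_ne h2 hne
  have h4 := (PadicInt.norm_lt_one_iff_dvd ((1 + 2 * p : ℕ) : ℤ_[p])).mp h3
  have h5 : ((p : ℕ) : ℤ_[p]) ∣ 1 := by
    have h6 : ((p : ℕ) : ℤ_[p]) ∣ ((2 * p : ℕ) : ℤ_[p]) := ⟨2, by push_cast; ring⟩
    have h7 := dvd_sub h4 h6
    have h8 : ((1 + 2 * p : ℕ) : ℤ_[p]) - ((2 * p : ℕ) : ℤ_[p]) = 1 := by push_cast; ring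
    rwa [h8] at h7
  exact PadicInt.prime_p.not_isUnit (isUnit_of_dvd_one h5)

theorem com_eisConst_one : (1 : Weight p).eisConst = 0 := by
  have h : (1 : Weight p).val (1 + 2 * p) = 1 := by
    unfold Weight.val
    rw [dif_pos com_isUnit]
    rfl
  unfold Weight.eisConst
  rw [h, inv_one, sub_self, mul_zero, zero_div]

/-- The Eisenstein series of the trivial weight is `1`. -/
theorem Weight.eis_one : (1 : Weight p).eis = 1 := by
  unfold Weight.eis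
  rw [com_eisConst_one]
  ext n
  simp

theorem Weight.base_of_nu (κ : Weight p) (h : κ.nu = 0) : κ.base = κ := by
  unfold Weight.base
  rw [h, mul_zero, pow_zero]
  have h1 : κ * (1 : Weight p)⁻¹ = κ := by
    ext u
    change (((κ u * ((1 : (PadicComplex p)ˣ))⁻¹ : (PadicComplex p)ˣ)) : PadicComplex p) = κ u
    rw [inv_one, mul_one]
  exact h1

theorem Weight.frame_of_nu (κ : Weight p) (h : κ.nu = 0) : κ.frame = κ.eis := by
  unfold Weight.frame
  rw [κ.base_of_nu h, h, mul_zero, pow_zero, Weight.eis_one, mul_one]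

theorem Weight.uMatrixU_of_nu (κ : Weight p) (h : κ.nu = 0) : κ.uMatrixU = κ.uMatrix := by
  funext a b
  unfold Weight.uMatrixU Weight.uMatrix
  rw [κ.frame_of_nu h]

theorem Weight.charSeriesU_of_nu (κ : Weight p) (h : κ.nu = 0) :
    κ.charSeriesU = κ.charSeries := by
  funext m
  unfold Weight.charSeriesU Weight.charSeries
  rw [κ.uMatrixU_of_nu h]

end

theorem dimG_two (k : ℕ) : dimG 2 k = dimP 2 k := by
  simp [dimG, dimP, nell2, nell3]

theorem dimG_three (k : ℕ) : dimG 3 k = dimP 3 k := by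
  simp [dimG, dimP, nell2, nell3]

theorem ghostG_two {K : Type*} [Field K] (w : K) : ghostG 2 0 w = ghost 2 w := by
  funext n
  unfold ghostG ghost
  refine finprod_congr fun k ↦ ?_
  have h : multG 2 n k = mult 2 n k := by
    unfold multG mult dimNewG dimNew
    rw [dimG_two]
  have h2 : (Even k ∧ k ≡ 2 * 0 [MOD 2 - 1]) ↔ Even k := by
    constructor
    · exact fun h ↦ h.1
    · exact fun h ↦ ⟨h, Nat.modEq_one⟩
  simp only [h, h2]

theorem ghostG_three {K : Type*} [Field K] (w : K) : ghostG 3 0 w = ghost 3 w := by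
  funext n
  unfold ghostG ghost
  refine finprod_congr fun k ↦ ?_
  have h : multG 3 n k = mult 3 n k := by
    unfold multG mult dimNewG dimNew
    rw [dimG_three]
  have h2 : (Even k ∧ k ≡ 2 * 0 [MOD 3 - 1]) ↔ Even k := by
    constructor
    · exact fun h ↦ h.1
    · exact fun h ↦ ⟨h, Nat.even_iff.mp h⟩
  simp only [h, h2]

theorem ghostConjectureU_two : GhostConjectureU 2 ↔ GhostConjecture 2 := by
  have key : ∀ κ : Weight 2, κ.IsEven → (((∀ m : ℕ, ∃ c : PadicComplex 2,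
      Tendsto (fun N : ℕ ↦ fredBlock κ.uMatrixU N m) atTop (𝓝 c)) ∧
      newtonPolygon 2 κ.charSeriesU = newtonPolygon 2 (ghostG 2 κ.nu κ.w)) ↔
      ((∀ m : ℕ, ∃ c : PadicComplex 2,
      Tendsto (fun N : ℕ ↦ fredBlock κ.uMatrix N m) atTop (𝓝 c)) ∧
      newtonPolygon 2 κ.charSeries = newtonPolygon 2 (ghost 2 κ.w))) := by
    intro κ hκ
    rw [κ.uMatrixU_of_nu (κ.nu_two hκ), κ.charSeriesU_of_nu (κ.nu_two hκ), κ.nu_two hκ,
      ghostG_two]
  exact ⟨fun h κ hκ ↦ (key κ hκ).mp (h κ hκ), fun h κ hκ ↦ (key κ hκ).mpr (h κ hκ)⟩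

theorem ghostConjectureU_three : GhostConjectureU 3 ↔ GhostConjecture 3 := by
  have key : ∀ κ : Weight 3, κ.IsEven → (((∀ m : ℕ, ∃ c : PadicComplex 3,
      Tendsto (fun N : ℕ ↦ fredBlock κ.uMatrixU N m) atTop (𝓝 c)) ∧
      newtonPolygon 3 κ.charSeriesU = newtonPolygon 3 (ghostG 3 κ.nu κ.w)) ↔
      ((∀ m : ℕ, ∃ c : PadicComplex 3,
      Tendsto (fun N : ℕ ↦ fredBlock κ.uMatrix N m) atTop (𝓝 c)) ∧
      newtonPolygon 3 κ.charSeries = newtonPolygon 3 (ghost 3 κ.w))) := by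
    intro κ hκ
    rw [κ.uMatrixU_of_nu (κ.nu_three hκ), κ.charSeriesU_of_nu (κ.nu_three hκ), κ.nu_three hκ,
      ghostG_three]
  exact ⟨fun h κ hκ ↦ (key κ hκ).mp (h κ hκ), fun h κ hκ ↦ (key κ hκ).mpr (h κ hκ)⟩

end GH
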