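import Mathlib

/-!
# The ghost conjecture for tame level `N = 1` and `p = 2` (or `3`): definitions

Everything is stated over the field `ℂ_[p]` of p-adic complex numbers of Mathlib (norm with
`‖p‖ = 1/p`), following Coleman's definition of overconvergent forms of weight `κ`
(see Buzzard-Kilford, The 2-adic eigencurve at the boundary of weight space, for `p = 2`).

* `hauptmodul`: `f = q ∏ ((1 - q^{pn})/(1 - q^n))^{24/(p-1)} = (η(pz)/η(z))^{24/(p-1)}`; for
  `p = 2` this is `q ∏ (1 + q^n)^24 = Δ(2z)/Δ(z)`. It is a parameter of the disc around the cusp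
  `∞` of `X_0(p)` which is the ordinary locus; overconvergent functions of tame level one are
  the power series in `f` that converge on `|f| ≤ r` for some `r > 1`.
* `Weight p`: continuous characters of `ℤ_pˣ`; `Weight.w κ = κ(1+2p) - 1`.
* `Weight.eis κ`: the Eisenstein series `E_κ` with constant term `1`.
* `Weight.uMatrix κ`: the matrix of `U_p` in the basis `E_κ f^j`.
* `fred`: the Fredholm series `det (1 - t C)` as the limit of the truncations.
* `newtonPolygon`: the lower convex hull of the points `(i, v(a_i))`.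
* `ghost`: the coefficients of the ghost series.
-/

open PowerSeries Filter Topology

noncomputable section

namespace GH

/-! ### Formal power series in `q` -/

/-- The coefficient of `q^n` of `∏_{m ≥ 1} (1 - q^{km})` is that of the product over `m ≤ n`. -/
def euler (R : Type*) [CommRing R] (k : ℕ) : PowerSeries R :=
  PowerSeries.mk fun n ↦
    PowerSeries.coeff n (∏ m ∈ Finset.range n, (1 - (X : PowerSeries R) ^ (k * (m + 1))))

/-- The series `f(q) = q ∏_{n ≥ 1} ((1 - q^{pn})/(1 - q^n))^{24/(p-1)}`. -/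
def hauptmodul (p : ℕ) (R : Type*) [CommRing R] : PowerSeries R :=
  X * (euler R p * invOfUnit (euler R 1) 1) ^ (24 / (p - 1))

/-- The operator `U_p` on `q`-expansions: `∑ a_n q^n ↦ ∑ a_{pn} q^n`. -/
def U {R : Type*} [CommRing R] (p : ℕ) (F : PowerSeries R) : PowerSeries R :=
  PowerSeries.mk fun n ↦ PowerSeries.coeff (p * n) F

/-- The coefficients `c_n` of the unique expansion `F = ∑ c_n f^n`, `f` the series
`hauptmodul = q + ⋯`: by recursion `c_n` is the coefficient of `q^n` of
`F - ∑_{m < n} c_m f^m`. -/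
def fcoeff (p : ℕ) {R : Type*} [CommRing R] (F : PowerSeries R) (n : ℕ) : R :=
  PowerSeries.coeff n F -
    ∑ m : Fin n, fcoeff p F m * PowerSeries.coeff n (hauptmodul p R ^ (m : ℕ))
termination_by n
decreasing_by exact m.2

/-! ### Weights and the Eisenstein family -/

section

variable (p : ℕ) [Fact p.Prime]

/-- Continuous characters `κ : ℤ_pˣ → ℂ_pˣ`. -/
abbrev Weight : Type := ContinuousMonoidHom (ℤ_[p])ˣ (PadicComplex p)ˣ

end

section

variable {p : ℕ} [Fact p.Prime]

/-- The weight is even: `κ(-1) = 1`. -/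
def Weight.IsEven (κ : Weight p) : Prop := κ (-1) = 1

open Classical in
/-- `κ(a)` for a natural number `a` prime to `p`, and `0` for `a` divisible by `p`. -/
def Weight.val (κ : Weight p) (a : ℕ) : PadicComplex p :=
  if h : IsUnit (a : ℤ_[p]) then ((κ h.unit : (PadicComplex p)ˣ) : PadicComplex p) else 0

/-- The coordinate `w_κ = κ(1+2p) - 1` on the weight space; `1+2p` is a topological generator of
`1 + 2pℤ_p`. -/
def Weight.w (κ : Weight p) : PadicComplex p := κ.val (1 + 2 * p) - 1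

/-- `A(κ) = lim_n ∑_{0 < a < p^n, p ∤ a} κ(a) a⁻¹ (⌊(1+2p)a/p^n⌋ - p)/(1+2p)`, the integral of
`κ(a) a⁻¹` over `ℤ_pˣ` against the regularised Bernoulli measure `μ_{1,c}`, `c = 1+2p`. For
`κ = (z ↦ z^k)` with `k ≥ 2` even it is `(1 - c^(-k)) (1 - p^(k-1)) B_k / k`. -/
def Weight.zetaIntegral (κ : Weight p) : PadicComplex p :=
  limUnder atTop fun n : ℕ ↦
    ∑ a ∈ Finset.range (p ^ n), κ.val a / (a : PadicComplex p) *
      (((((1 + 2 * p) * a / p ^ n : ℕ) : PadicComplex p) - p) / (1 + 2 * p))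

/-- The number `2/ζ*(κ)`, where `ζ*(κ) = - A(κ)/(1 - κ(1+2p)⁻¹)` is the p-adic zeta function at
`κ`; for `κ = (z ↦ z^k)`, `k ≥ 2` even, it is `- 2k/((1 - p^(k-1)) B_k)`, and it is `0` for the
trivial character, where `ζ*` has its pole. -/
def Weight.eisConst (κ : Weight p) : PadicComplex p :=
  -2 * (1 - (κ.val (1 + 2 * p))⁻¹) / κ.zetaIntegral

/-- The Eisenstein series `E_κ = 1 + (2/ζ*(κ)) ∑_{n ≥ 1} (∑_{d ∣ n, p ∤ d} κ(d) d⁻¹) q^n`. -/
def Weight.eis (κ : Weight p) : PowerSeries (PadicComplex p) :=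
  1 + PowerSeries.mk fun n ↦ κ.eisConst * ∑ d ∈ n.divisors, κ.val d / (d : PadicComplex p)

/-! ### Overconvergent cusp forms and the matrix of `U_p` -/

/-- The `r`-overconvergent cusp forms of weight `κ`: the `q`-expansions
`E_κ ∑_{n ≥ 1} c_n f^n` with `|c_n| r^n → 0`. The space `S_κ^†` is the union over `r > 1`. -/
def Weight.IsCuspForm (κ : Weight p) (r : ℝ) (F : PowerSeries (PadicComplex p)) : Prop :=
  fcoeff p (κ.eis⁻¹ * F) 0 = 0 ∧
    Tendsto (fun n : ℕ ↦ ‖fcoeff p (κ.eis⁻¹ * F) n‖ * r ^ n) atTop (𝓝 0)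

/-- The matrix `(C_ij)` of `U_p` in the basis `E_κ f^j`:
`U_p (E_κ f^j) = ∑_i C_ij E_κ f^i`. -/
def Weight.uMatrix (κ : Weight p) (i j : ℕ) : PadicComplex p :=
  fcoeff p (κ.eis⁻¹ * U p (κ.eis * hauptmodul p (PadicComplex p) ^ j)) i

end

/-- The coefficient of `t^m` of `det (1 - t C_N)`, `C_N` the block of the entries
`C_ij`, `1 ≤ i, j ≤ N`. -/
def fredBlock {K : Type*} [Field K] (C : ℕ → ℕ → K) (N m : ℕ) : K :=
  (Matrix.charpolyRev (Matrix.of fun i j : Fin N ↦ C (i + 1) (j + 1))).coeff m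

/-- The coefficient of `t^m` of the Fredholm series `det (1 - t C)` of the infinite matrix
`(C_ij)_{i, j ≥ 1}`: the limit of the coefficients of `det (1 - t C_N)`. -/
def fred {K : Type*} [NormedField K] (C : ℕ → ℕ → K) (m : ℕ) : K :=
  limUnder atTop fun N : ℕ ↦ fredBlock C N m

/-- The coefficients of the Fredholm series `P_κ(t) = det (1 - t U_p | S_κ^†)`. -/
def Weight.charSeries {p : ℕ} [Fact p.Prime] (κ : Weight p) (m : ℕ) : PadicComplex p :=
  fred κ.uMatrix m

/-! ### Newton polygons -/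

/-- The line `y = α x + β` lies below all the points `(i, v(a_i))`, `v(p) = 1`. -/
def IsMinorant (p : ℕ) {K : Type*} [NormedField K] (a : ℕ → K) (α β : ℝ) : Prop :=
  ∀ i : ℕ, a i ≠ 0 → α * i + β ≤ - Real.logb p ‖a i‖

/-- The Newton polygon of `∑ a_i t^i` as a function: the lower convex hull of the points
`(i, v(a_i))`, i.e. the supremum of the affine functions below these points. -/
def newtonPolygon (p : ℕ) {K : Type*} [NormedField K] (a : ℕ → K) (x : ℝ) : EReal :=
  ⨆ (α : ℝ) (β : ℝ) (_ : IsMinorant p a α β), ((α * x + β : ℝ) : EReal)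

/-! ### The ghost series -/

/-- `d_k = dim S_k(SL_2(ℤ))` for even `k` (classical formula). -/
def dimOne (k : ℕ) : ℕ := if k % 12 = 2 then k / 12 - 1 else k / 12

/-- `dim S_k(Γ_0(p))` for even `k` (classical formula), `p = 2` or `3`. -/
def dimP (p k : ℕ) : ℕ := if p = 2 then k / 4 - 1 else k / 3 - 1

/-- `d_k^new = dim S_k(Γ_0(p))^new = dim S_k(Γ_0(p)) - 2 d_k`. -/
def dimNew (p k : ℕ) : ℕ := dimP p k - 2 * dimOne k

/-- `s_j(ℓ)`. -/
def sfun (j l : ℕ) : ℕ :=
  if 1 ≤ j ∧ j ≤ l / 2 then j else if l / 2 < j ∧ j ≤ l then l + 1 - j else 0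

/-- The multiplicity `m_i(k)` of the ghost zero `w_k` of `g_i`. -/
def mult (p i k : ℕ) : ℕ :=
  if dimOne k < i ∧ i < dimOne k + dimNew p k then sfun (i - dimOne k) (dimNew p k - 1) else 0

/-- The ghost coefficient `g_i(w) = ∏_k (w - w_k)^{m_i(k)}`, the product over all even `k`,
`w_k = (1+2p)^k - 1` (a finite product; the factors with `k ≤ 0` are trivial), `p = 2` or `3`. -/
def ghost (p : ℕ) {K : Type*} [Field K] (w : K) (i : ℕ) : K :=
  ∏ᶠ k : ℕ, if Even k then (w - ((1 + 2 * (p : K)) ^ k - 1)) ^ mult p i k else 1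

/-- **The ghost conjecture for `p = 2` (or `3`) and tame level `1`.** -/
def GhostConjecture (p : ℕ) [Fact p.Prime] : Prop :=
  ∀ κ : Weight p, κ.IsEven →
    (∀ m : ℕ, ∃ c : PadicComplex p,
      Tendsto (fun N : ℕ ↦ fredBlock κ.uMatrix N m) atTop (𝓝 c)) ∧
    newtonPolygon p κ.charSeries = newtonPolygon p (ghost p κ.w)

end GH
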