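import Pool.Agent.GH.DimS

/-!
# Modular forms for `Γ_0(p)` from forms of level one
-/

open UpperHalfPlane ModularForm SlashInvariantForm Filter
open scoped MatrixGroups ModularForm Manifold Topology

noncomputable section

namespace GH

/-- A modular form of weight `w` for `Γ_0(p)`. -/
structure Nice (p : ℕ) (w : ℤ) (F : ℍ → ℂ) : Prop where
  holo : MDiff F
  inv : ∀ γ ∈ CongruenceSubgroup.Gamma0 p, F ∣[w] γ = F
  bI : IsBoundedAtImInfty F
  bS : IsBoundedAtImInfty (F ∣[w] ModularGroup.S)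

namespace Nice

variable {p : ℕ} {a b : ℤ} {F G : ℍ → ℂ}

lemma mul (hF : Nice p a F) (hG : Nice p b G) : Nice p (a + b) (F * G) where
  holo := hF.holo.mul hG.holo
  inv γ hγ := by rw [mul_slash_SL2, hF.inv γ hγ, hG.inv γ hγ]
  bI := hF.bI.mul hG.bI
  bS := by
    rw [mul_slash_SL2]
    exact hF.bS.mul hG.bS

lemma one : Nice p 0 1 where
  holo := mdifferentiable_const
  inv γ _ := is_invariant_one γ
  bI := const_boundedAtFilter _ 1
  bS := by
    rw [is_invariant_one]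
    exact const_boundedAtFilter _ 1

lemma pow (hF : Nice p a F) (n : ℕ) : Nice p (a * n) (F ^ n) := by
  induction n with
  | zero => simpa using one
  | succ n ih =>
    have h := ih.mul hF
    rw [← pow_succ] at h
    convert h using 1
    push_cast
    ring

lemma pow_slash (F : ℍ → ℂ) (a : ℤ) (γ : SL(2, ℤ)) (n : ℕ) :
    (F ^ n) ∣[a * n] γ = (F ∣[a] γ) ^ n := by
  induction n with
  | zero => simpa using is_invariant_one γ
  | succ n ih =>
    have h : a * ((n + 1 : ℕ) : ℤ) = a * n + a := by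
      push_cast
      ring
    rw [pow_succ, h, mul_slash_SL2, ih, pow_succ]

lemma periodic (hF : Nice p a F) : Function.Periodic (F ∘ ofComplex) (1 : ℝ) := by
  refine periodic_of_vadd fun τ ↦ ?_
  have h := congrFun (hF.inv _ (g0_T_mem p)) τ
  rw [SL_slash_apply, modular_T_smul] at h
  simpa [denom, ModularGroup.T] using h

lemma analyticAt (hF : Nice p a F) : AnalyticAt ℂ (cuspFunction 1 F) 0 :=
  analyticAt_cuspFunction_zero one_pos hF.periodic hF.holo hF.bI

lemma qExpansion_mul (hF : Nice p a F) (hG : Nice p b G) :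
    qExpansion 1 (F * G) = qExpansion 1 F * qExpansion 1 G :=
  UpperHalfPlane.qExpansion_mul hF.analyticAt hG.analyticAt

lemma qExpansion_pow (hF : Nice p a F) (n : ℕ) : qExpansion 1 (F ^ n) = qExpansion 1 F ^ n := by
  induction n with
  | zero => simpa using qExpansion_one 1
  | succ n ih => rw [pow_succ, (hF.pow n).qExpansion_mul hF, ih, pow_succ]

lemma add {F G : ℍ → ℂ} (hF : Nice p a F) (hG : Nice p a G) : Nice p a (F + G) where
  holo := hF.holo.add hG.holo
  inv γ hγ := by rw [SlashAction.add_slash, hF.inv γ hγ, hG.inv γ hγ]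
  bI := hF.bI.add hG.bI
  bS := by
    rw [SlashAction.add_slash]
    exact hF.bS.add hG.bS

lemma smul (c : ℂ) (hF : Nice p a F) : Nice p a (c • F) where
  holo := hF.holo.const_smul c
  inv γ hγ := by rw [SL_smul_slash, hF.inv γ hγ]
  bI := hF.bI.smul c
  bS := by
    rw [SL_smul_slash]
    exact hF.bS.smul c

lemma qExpansion_add (hF : Nice p a F) (hG : Nice p a G) :
    qExpansion 1 (F + G) = qExpansion 1 F + qExpansion 1 G :=
  UpperHalfPlane.qExpansion_add hF.analyticAt hG.analyticAt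

lemma qExpansion_smul (c : ℂ) (hF : Nice p a F) :
    qExpansion 1 (c • F) = c • qExpansion 1 F :=
  UpperHalfPlane.qExpansion_smul hF.analyticAt c

lemma coeff_zero {c : ℂ} (hF : Nice p a F) (hc : Tendsto F atImInfty (𝓝 c)) :
    (qExpansion 1 F).coeff 0 = c := by
  rw [qExpansion_coeff_zero one_pos hF.analyticAt hF.periodic]
  exact hc.limUnder_eq

/-- The cusp form. -/
def toCusp [Fact p.Prime] (hF : Nice p a F) (z1 : IsZeroAtImInfty F)
    (z2 : IsZeroAtImInfty (F ∣[a] ModularGroup.S)) : CuspForm (G0 p) a where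
  toFun := F
  slash_action_eq' A hA := by
    obtain ⟨γ, hγ, rfl⟩ := hA
    exact hF.inv γ hγ
  holo' := hF.holo
  zero_at_cusps' hc := by
    rw [Subgroup.IsArithmetic.isCusp_iff_isCusp_SL2Z] at hc
    rw [OnePoint.isZeroAt_iff_forall_SL2Z hc]
    intro γ _
    rcases g0_coset p γ with h | ⟨j, hj, h⟩
    · rw [hF.inv γ h]
      exact z1
    · have h1 : γ = (γ * (ModularGroup.S * ModularGroup.T ^ (j : ℤ))⁻¹) *
          (ModularGroup.S * ModularGroup.T ^ (j : ℤ)) := by
        rw [inv_mul_cancel_right]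
      rw [h1, SlashAction.slash_mul, hF.inv _ h, SlashAction.slash_mul]
      refine z2.slash a (g := Matrix.SpecialLinearGroup.mapGL ℝ (ModularGroup.T ^ (j : ℤ))) ?_
      change (((ModularGroup.T ^ (j : ℤ) : SL(2, ℤ)).1 1 0 : ℤ) : ℝ) = 0
      rw [ModularGroup.coe_T_zpow]
      simp

/-- The modular form. -/
def toMF [Fact p.Prime] (hF : Nice p a F) : ModularForm (G0 p) a where
  toFun := F
  slash_action_eq' A hA := by
    obtain ⟨γ, hγ, rfl⟩ := hA
    exact hF.inv γ hγ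
  holo' := hF.holo
  bdd_at_cusps' hc := by
    rw [Subgroup.IsArithmetic.isCusp_iff_isCusp_SL2Z] at hc
    rw [OnePoint.isBoundedAt_iff_forall_SL2Z hc]
    intro γ _
    rcases g0_coset p γ with h | ⟨j, hj, h⟩
    · rw [hF.inv γ h]
      exact hF.bI
    · have h1 : γ = (γ * (ModularGroup.S * ModularGroup.T ^ (j : ℤ))⁻¹) *
          (ModularGroup.S * ModularGroup.T ^ (j : ℤ)) := by
        rw [inv_mul_cancel_right]
      rw [h1, SlashAction.slash_mul, hF.inv _ h, SlashAction.slash_mul]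
      refine hF.bS.slash a (g := Matrix.SpecialLinearGroup.mapGL ℝ (ModularGroup.T ^ (j : ℤ))) ?_
      change (((ModularGroup.T ^ (j : ℤ) : SL(2, ℤ)).1 1 0 : ℤ) : ℝ) = 0
      rw [ModularGroup.coe_T_zpow]
      simp

end Nice

/-! ### Degeneracy maps -/

section old

variable {p : ℕ} [Fact p.Prime] {w : ℤ} (E : ModularForm 𝒮ℒ w)

lemma pr_ne : (p : ℝ) ≠ 0 := by
  exact_mod_cast (Fact.out : p.Prime).ne_zero

variable (p) in
/-- `z ↦ p z` -/
def matA : GL (Fin 2) ℝ :=
  Matrix.GeneralLinearGroup.mkOfDetNeZero !![(p : ℝ), 0; 0, 1] (by simpa using pr_ne)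

variable (p) in
/-- `z ↦ z / p` -/
def matB : GL (Fin 2) ℝ :=
  Matrix.GeneralLinearGroup.mkOfDetNeZero !![1, 0; 0, (p : ℝ)] (by simpa using pr_ne)

lemma matA_S : matA p * Matrix.SpecialLinearGroup.mapGL ℝ ModularGroup.S =
    Matrix.SpecialLinearGroup.mapGL ℝ ModularGroup.S * matB p := by
  ext i j
  fin_cases i <;> fin_cases j <;>
    simp [matA, matB, ModularGroup.S, Matrix.GeneralLinearGroup.mkOfDetNeZero, Matrix.mul_apply]

lemma matA_mul (γ : SL(2, ℤ)) (h : γ ∈ CongruenceSubgroup.Gamma0 p) : ∃ γ' : SL(2, ℤ),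
    matA p * Matrix.SpecialLinearGroup.mapGL ℝ γ =
      Matrix.SpecialLinearGroup.mapGL ℝ γ' * matA p := by
  rw [CongruenceSubgroup.Gamma0_mem] at h
  have h1 : (p : ℤ) ∣ γ 1 0 := (ZMod.intCast_zmod_eq_zero_iff_dvd _ _).mp h
  obtain ⟨c, hc⟩ := h1
  have hdet : γ 0 0 * γ 1 1 - γ 0 1 * γ 1 0 = 1 := by
    rw [← Matrix.det_fin_two]
    exact γ.2
  refine ⟨⟨!![γ 0 0, p * γ 0 1; c, γ 1 1], ?_⟩, ?_⟩
  · rw [Matrix.det_fin_two_of]
    linear_combination hdet + (γ 0 1) * hc
  · have hc' : ((γ 1 0 : ℤ) : ℝ) = p * c := by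
      rw [hc]
      push_cast
      ring
    ext i j
    fin_cases i <;> fin_cases j <;>
      simp [matA, Matrix.GeneralLinearGroup.mkOfDetNeZero, Matrix.mul_apply, Fin.sum_univ_two]
    · ring
    · linarith

variable (p) in
/-- `p^(w-1) E(p z)` -/
def VE : ℍ → ℂ := (E : ℍ → ℂ) ∣[w] matA p

variable (p) in
/-- `p⁻¹ E(z / p)` -/
def WE : ℍ → ℂ := (E : ℍ → ℂ) ∣[w] matB p

lemma E_slash (γ : SL(2, ℤ)) : (E : ℍ → ℂ) ∣[w] γ = E :=
  slash_action_eqn E _ ⟨γ, rfl⟩

lemma VE_inv (γ : SL(2, ℤ)) (h : γ ∈ CongruenceSubgroup.Gamma0 p) :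
    VE p E ∣[w] γ = VE p E := by
  obtain ⟨γ', hγ'⟩ := matA_mul γ h
  rw [VE]
  change ((E : ℍ → ℂ) ∣[w] matA p) ∣[w] (Matrix.SpecialLinearGroup.mapGL ℝ γ) = _
  rw [← SlashAction.slash_mul, hγ', SlashAction.slash_mul]
  congr 1
  exact E_slash E γ'

lemma VE_S : VE p E ∣[w] ModularGroup.S = WE p E := by
  rw [VE, WE]
  change ((E : ℍ → ℂ) ∣[w] matA p) ∣[w] (Matrix.SpecialLinearGroup.mapGL ℝ ModularGroup.S) = _
  rw [← SlashAction.slash_mul, matA_S, SlashAction.slash_mul]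
  congr 1
  exact E_slash E ModularGroup.S

/-- the value at `∞` -/
lemma E_tendsto : Tendsto (E : ℍ → ℂ) atImInfty (𝓝 ((qExpansion 1 E).coeff 0)) := by
  have h1 : (qExpansion 1 E).coeff 0 = cuspFunction 1 E 0 := by
    simp [qExpansion_coeff]
  rw [h1]
  have h2 : (cuspFunction 1 E ∘ fun τ ↦ Function.Periodic.qParam 1 τ : ℍ → ℂ) = E := by
    funext τ
    exact SlashInvariantFormClass.eq_cuspFunction E τ one_mem_strictPeriods_SL one_ne_zero
  have h3 := (ModularFormClass.analyticAt_cuspFunction_zero E one_pos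
    one_mem_strictPeriods_SL).continuousAt.tendsto.comp (qParam_tendsto_atImInfty one_pos)
  rwa [h2] at h3

lemma slash_tendsto {F : ℍ → ℂ} {c : ℂ} (hF : Tendsto F atImInfty (𝓝 c)) (g : GL (Fin 2) ℝ)
    (hg : g 1 0 = 0) (hd : 0 < g.det.val) :
    Tendsto (F ∣[w] g) atImInfty
      (𝓝 (c * (|g.det.val| : ℝ) ^ (w - 1) * ((g 1 1 : ℝ) : ℂ) ^ (-w))) := by
  have h1 : (F ∣[w] g) = fun τ ↦ F (g • τ) * (|g.det.val| : ℝ) ^ (w - 1) *
      ((g 1 1 : ℝ) : ℂ) ^ (-w) := by
    ext τ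
    rw [slash_apply]
    simp only [σ, hd, if_true, denom, hg]
    simp
  rw [h1]
  exact ((hF.comp (tendsto_smul_atImInfty hg)).mul_const _).mul_const _

lemma matA_det : (matA p).det.val = p := by
  simp [matA, Matrix.GeneralLinearGroup.mkOfDetNeZero]

lemma matB_det : (matB p).det.val = p := by
  simp [matB, Matrix.GeneralLinearGroup.mkOfDetNeZero]

lemma p_pos : (0 : ℝ) < p := by
  exact_mod_cast (Fact.out : p.Prime).pos

lemma VE_tendsto : Tendsto (VE p E) atImInfty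
    (𝓝 ((qExpansion 1 E).coeff 0 * (p : ℂ) ^ (w - 1))) := by
  have h := slash_tendsto (w := w) (E_tendsto E) (matA p)
    (by simp [matA, Matrix.GeneralLinearGroup.mkOfDetNeZero]) (by rw [matA_det]; exact p_pos)
  rw [matA_det, abs_of_pos p_pos] at h
  have h1 : (matA p) 1 1 = 1 := by simp [matA, Matrix.GeneralLinearGroup.mkOfDetNeZero]
  rw [h1] at h
  simpa [VE] using h

lemma WE_tendsto : Tendsto (WE p E) atImInfty
    (𝓝 ((qExpansion 1 E).coeff 0 * (p : ℂ) ^ (w - 1) * (p : ℂ) ^ (-w))) := by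
  have h := slash_tendsto (w := w) (E_tendsto E) (matB p)
    (by simp [matB, Matrix.GeneralLinearGroup.mkOfDetNeZero]) (by rw [matB_det]; exact p_pos)
  rw [matB_det, abs_of_pos p_pos] at h
  have h1 : (matB p) 1 1 = p := by simp [matB, Matrix.GeneralLinearGroup.mkOfDetNeZero]
  rw [h1] at h
  simpa [WE] using h

omit [Fact p.Prime] in
lemma nice_E : Nice p w E where
  holo := E.holo'
  inv γ _ := E_slash E γ
  bI := (E_tendsto E).isBigO_one ℝ
  bS := by
    rw [E_slash]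
    exact (E_tendsto E).isBigO_one ℝ

lemma nice_VE : Nice p w (VE p E) where
  holo := (E.holo').slash w (matA p)
  inv γ hγ := VE_inv E γ hγ
  bI := (VE_tendsto E).isBigO_one ℝ
  bS := by
    rw [VE_S]
    exact (WE_tendsto E).isBigO_one ℝ

lemma VE_apply (τ : ℍ) : VE p E τ = E (matA p • τ) * (p : ℂ) ^ (w - 1) := by
  rw [VE, slash_apply]
  have hd : 0 < (matA p).det.val := by
    rw [matA_det]
    exact p_pos
  have h1 : denom (matA p) τ = 1 := by
    simp [denom, matA, Matrix.GeneralLinearGroup.mkOfDetNeZero]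
  rw [h1, one_zpow, mul_one, matA_det, abs_of_pos p_pos]
  simp only [σ]
  rw [if_pos hd]
  simp

lemma qParam_matA (τ : ℍ) : Function.Periodic.qParam 1 (matA p • τ : ℍ) =
    Function.Periodic.qParam 1 τ ^ p := by
  have hd : 0 < (matA p).det.val := by
    rw [matA_det]
    exact p_pos
  have h1 : ((matA p • τ : ℍ) : ℂ) = p * τ := by
    rw [UpperHalfPlane.coe_smul_of_det_pos hd]
    simp [num, denom, matA, Matrix.GeneralLinearGroup.mkOfDetNeZero]
  rw [h1, Function.Periodic.qParam, Function.Periodic.qParam, ← Complex.exp_nat_mul]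
  congr 1
  ring

lemma hasSum_VE (τ : ℍ) : HasSum
    (fun m : ℕ ↦ (if p ∣ m then (p : ℂ) ^ (w - 1) * (qExpansion 1 E).coeff (m / p) else 0) *
      Function.Periodic.qParam 1 τ ^ m) (VE p E τ) := by
  have hp0 : p ≠ 0 := (Fact.out : p.Prime).ne_zero
  have h1 := ModularForm.hasSum_qExpansion (f := E) (h := 1) one_pos one_mem_strictPeriods_SL
    (matA p • τ)
  have h2 := h1.mul_left ((p : ℂ) ^ (w - 1))
  rw [VE_apply, mul_comm (E (matA p • τ))]
  have hinj : Function.Injective (fun m : ℕ ↦ p * m) := fun a b h ↦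
    Nat.eq_of_mul_eq_mul_left (Nat.pos_of_ne_zero hp0) h
  refine (hinj.hasSum_iff ?_).mp ?_
  · intro x hx
    rw [if_neg, zero_mul]
    rintro ⟨y, rfl⟩
    exact hx ⟨y, rfl⟩
  · have h3 : ((fun m : ℕ ↦ (if p ∣ m then (p : ℂ) ^ (w - 1) * (qExpansion 1 E).coeff (m / p)
        else 0) * Function.Periodic.qParam 1 τ ^ m) ∘ fun m : ℕ ↦ p * m) =
        fun m ↦ (p : ℂ) ^ (w - 1) * ((qExpansion 1 E).coeff m *
          Function.Periodic.qParam 1 (matA p • τ : ℍ) ^ m) := by
      funext m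
      simp only [Function.comp_apply]
      rw [if_pos (dvd_mul_right p m), Nat.mul_div_cancel_left m (Nat.pos_of_ne_zero hp0),
        qParam_matA, ← pow_mul]
      ring
    rw [h3]
    exact h2

lemma coeff_VE (m : ℕ) : (qExpansion 1 (VE p E)).coeff m =
    if p ∣ m then (p : ℂ) ^ (w - 1) * (qExpansion 1 E).coeff (m / p) else 0 :=
  (ModularFormClass.qExpansion_coeff_unique one_pos (Γ := G0 p) (by simp)
    (f := (nice_VE (p := p) E).toMF)
    (c := fun m : ℕ ↦ if p ∣ m then (p : ℂ) ^ (w - 1) * (qExpansion 1 E).coeff (m / p) else 0)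
    (hasSum_VE E) m).symm

variable (p) in
/-- `p^w E(pz) - E(z)`: it vanishes at the cusp `0` -/
def hE : ℍ → ℂ := (p : ℂ) • VE p E + (-1 : ℂ) • (E : ℍ → ℂ)

variable (p) in
/-- `E(z) - E(pz)`: it vanishes at `∞` -/
def gE : ℍ → ℂ := (E : ℍ → ℂ) + (-((p : ℂ) ^ (w - 1))⁻¹) • VE p E

lemma nice_hE : Nice p w (hE p E) := ((nice_VE E).smul _).add ((nice_E E).smul _)

lemma nice_gE : Nice p w (gE p E) := (nice_E E).add ((nice_VE E).smul _)

lemma pc_ne : (p : ℂ) ≠ 0 := by
  exact_mod_cast (Fact.out : p.Prime).ne_zero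

lemma hE_zero : IsZeroAtImInfty (hE p E ∣[w] ModularGroup.S) := by
  have h1 : hE p E ∣[w] ModularGroup.S = fun τ ↦ (p : ℂ) * WE p E τ + (-1) * E τ := by
    rw [hE, SlashAction.add_slash, SL_smul_slash, SL_smul_slash, VE_S, E_slash]
    rfl
  rw [h1]
  have h2 := ((WE_tendsto (p := p) E).const_mul (p : ℂ)).add ((E_tendsto E).const_mul (-1))
  have h3 : (p : ℂ) * ((qExpansion 1 E).coeff 0 * (p : ℂ) ^ (w - 1) * (p : ℂ) ^ (-w)) +
      (-1) * (qExpansion 1 E).coeff 0 = 0 := by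
    have h4 : (p : ℂ) ^ (w - 1) * (p : ℂ) ^ (-w) = (p : ℂ)⁻¹ := by
      rw [← zpow_add₀ pc_ne]
      have : w - 1 + -w = -1 := by ring
      rw [this, zpow_neg_one]
    rw [mul_assoc, h4]
    have := pc_ne (p := p)
    field_simp
    ring
  rw [h3] at h2
  exact h2

lemma gE_coeff_zero : (qExpansion 1 (gE p E)).coeff 0 = 0 := by
  rw [gE, (nice_E E).qExpansion_add ((nice_VE E).smul _), (nice_VE E).qExpansion_smul, map_add,
    PowerSeries.coeff_smul, coeff_VE, if_pos (dvd_zero p), Nat.zero_div, smul_eq_mul]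
  have : (p : ℂ) ^ (w - 1) ≠ 0 := zpow_ne_zero _ pc_ne
  field_simp
  ring

lemma gE_coeff_one : (qExpansion 1 (gE p E)).coeff 1 = (qExpansion 1 E).coeff 1 := by
  rw [gE, (nice_E E).qExpansion_add ((nice_VE E).smul _), (nice_VE E).qExpansion_smul, map_add,
    PowerSeries.coeff_smul, coeff_VE, if_neg (fun h ↦ (Fact.out : p.Prime).one_lt.ne'
      (Nat.dvd_one.mp h)), smul_zero, add_zero]

lemma hE_coeff_zero : (qExpansion 1 (hE p E)).coeff 0 =
    ((p : ℂ) ^ w - 1) * (qExpansion 1 E).coeff 0 := by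
  rw [hE, ((nice_VE E).smul _).qExpansion_add ((nice_E E).smul _), (nice_VE E).qExpansion_smul,
    (nice_E (p := p) E).qExpansion_smul, map_add, PowerSeries.coeff_smul, PowerSeries.coeff_smul,
    coeff_VE, if_pos (dvd_zero p), Nat.zero_div, smul_eq_mul, smul_eq_mul, ← mul_assoc]
  have h1 : (p : ℂ) * (p : ℂ) ^ (w - 1) = (p : ℂ) ^ w := by
    rw [← zpow_one_add₀ pc_ne]
    congr 1
    ring
  rw [h1]
  ring

end old

/-- A series whose constant coefficient is the value at `∞`. -/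
lemma Nice.zero_of_coeff {p : ℕ} {a : ℤ} {F : ℍ → ℂ} (hF : Nice p a F)
    (h : (qExpansion 1 F).coeff 0 = 0) : IsZeroAtImInfty F := by
  have h1 : (qExpansion 1 F).coeff 0 = cuspFunction 1 F 0 := by
    simp [qExpansion_coeff]
  have h2 : (cuspFunction 1 F ∘ fun τ ↦ Function.Periodic.qParam 1 τ : ℍ → ℂ) = F := by
    funext τ
    exact eq_cuspFunction τ one_ne_zero hF.periodic
  have h3 := hF.analyticAt.continuousAt.tendsto.comp (qParam_tendsto_atImInfty one_pos)
  rw [h2, ← h1, h] at h3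
  exact h3

end GH
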