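import Pool.Agent.GH.Defs

/-! `dimOne k` is the dimension of the space of cusp forms of weight `k` and level one. -/

open ModularForm
open scoped MatrixGroups

namespace GH

theorem rank_cuspForm_levelOne (k : ℕ) (hk : Even k) :
    Module.rank ℂ (CuspForm 𝒮ℒ k) = dimOne k := by
  rcases lt_or_ge k 12 with h | h
  · have h1 : Module.rank ℂ (CuspForm 𝒮ℒ k) = 0 :=
      CuspForm.rank_eq_zero_of_weight_lt_twelve (by exact_mod_cast h)
    rw [h1, dimOne]
    have h2 : k / 12 = 0 := Nat.div_eq_of_lt h
    simp [h2]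
  · have h1 := ModularForm.dimension_level_one k hk
    have h2 := ModularForm.rank_eq_one_add_rank_cuspForm (k := k) (by omega) hk
    rw [h1] at h2
    have hk1 : 1 ≤ k / 12 := (Nat.one_le_div_iff (by norm_num)).mpr h
    have h3 : (if k ≡ 2 [MOD 12] then ((k / 12 : ℕ) : Cardinal) else (k / 12 : ℕ) + 1) =
        1 + (dimOne k : Cardinal) := by
      by_cases hm : k % 12 = 2
      · have : k ≡ 2 [MOD 12] := hm
        rw [if_pos this, dimOne, if_pos hm]
        have : k / 12 = 1 + (k / 12 - 1) := by omega
        conv_lhs => rw [this]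
        push_cast
        rfl
      · have : ¬ k ≡ 2 [MOD 12] := hm
        rw [if_neg this, dimOne, if_neg hm, add_comm]
    have h4 : (1 : Cardinal) + (dimOne k : Cardinal) = 1 + Module.rank ℂ (CuspForm 𝒮ℒ k) := by
      rw [← h3, ← h2]
      norm_cast
    exact (Cardinal.eq_of_add_eq_add_left h4 Cardinal.one_lt_aleph0).symm

theorem finrank_cuspForm_levelOne (k : ℕ) (hk : Even k) :
    Module.finrank ℂ (CuspForm 𝒮ℒ k) = dimOne k := by
  rw [Module.finrank, rank_cuspForm_levelOne k hk, Cardinal.toNat_natCast]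

end GH
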