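import Mathlib

/-!
# A bound for the order at `∞` of a cusp form for `Γ_0(p)`
-/

open UpperHalfPlane ModularForm SlashInvariantForm Filter
open scoped MatrixGroups ModularForm Manifold Topology

noncomputable section

namespace GH

/-- `Γ_0(N)` as a subgroup of `GL_2(ℝ)`. -/
abbrev G0 (N : ℕ) : Subgroup (GL (Fin 2) ℝ) :=
  (CongruenceSubgroup.Gamma0 N).map (Matrix.SpecialLinearGroup.mapGL ℝ)

/-! ### Cosets -/

lemma g0_T_mem (N : ℕ) : ModularGroup.T ∈ CongruenceSubgroup.Gamma0 N := by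
  simp [ModularGroup.T]

lemma g0_S_notMem {p : ℕ} (hp : p ≠ 1) : ModularGroup.S ∉ CongruenceSubgroup.Gamma0 p := by
  intro h
  have h1 : ((1 : ℤ) : ZMod p) = 0 := h
  rw [Int.cast_one] at h1
  have h2 : ((1 : ℕ) : ZMod p) = 0 := by rw [Nat.cast_one, h1]
  rw [ZMod.natCast_eq_zero_iff] at h2
  exact hp (Nat.dvd_one.mp h2)

/-- Every coset of `Γ_0(p)` is the one of `1` or of `S T^j`. -/
lemma g0_coset (p : ℕ) [Fact p.Prime] (γ : SL(2, ℤ)) : γ ∈ CongruenceSubgroup.Gamma0 p ∨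
    ∃ j : ℕ, j < p ∧
      γ * (ModularGroup.S * ModularGroup.T ^ (j : ℤ))⁻¹ ∈ CongruenceSubgroup.Gamma0 p := by
  by_cases h : ((γ 1 0 : ℤ) : ZMod p) = 0
  · left
    exact h
  · right
    refine ⟨((γ 1 1 : ZMod p) * (γ 1 0 : ZMod p)⁻¹).val, ZMod.val_lt _, ?_⟩
    set j := ((γ 1 1 : ZMod p) * (γ 1 0 : ZMod p)⁻¹).val with hj
    have hj' : (j : ZMod p) = (γ 1 1 : ZMod p) * (γ 1 0 : ZMod p)⁻¹ := by
      rw [hj, ZMod.natCast_val, ZMod.cast_id]
    have h1 : (γ * (ModularGroup.S * ModularGroup.T ^ (j : ℤ))⁻¹) 1 0 = - (γ 1 1 - j * γ 1 0) := by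
      rw [mul_inv_rev, ← zpow_neg, ModularGroup.S_inv, ← mul_assoc]
      have : (((γ * ModularGroup.T ^ (-(j : ℤ)) * -ModularGroup.S : SL(2, ℤ)) : Matrix (Fin 2) (Fin 2) ℤ)) =
        (γ : Matrix (Fin 2) (Fin 2) ℤ) * !![1, -(j : ℤ); 0, 1] * (- !![0, -1; 1, 0]) := by
        rw [← ModularGroup.coe_T_zpow, ← ModularGroup.coe_S, Matrix.SpecialLinearGroup.coe_mul,
          Matrix.SpecialLinearGroup.coe_mul, Matrix.SpecialLinearGroup.coe_neg]
      rw [this, Matrix.eta_fin_two (γ : Matrix (Fin 2) (Fin 2) ℤ)]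
      simp
      ring
    rw [CongruenceSubgroup.Gamma0_mem, h1]
    push_cast
    rw [hj', mul_assoc, inv_mul_cancel₀ h]
    simp

/-- an element of `SL_2(ℤ)` as an element of the image `𝒮ℒ` -/
def slEl (γ : SL(2, ℤ)) : (𝒮ℒ : Subgroup (GL (Fin 2) ℝ)) :=
  ⟨Matrix.SpecialLinearGroup.mapGL ℝ γ, ⟨γ, rfl⟩⟩

/-- the coset space -/
abbrev QS (p : ℕ) : Type := (𝒮ℒ : Subgroup (GL (Fin 2) ℝ)) ⧸ (G0 p).subgroupOf 𝒮ℒ

lemma qs_eq_iff (p : ℕ) (a b : SL(2, ℤ)) :
    ((slEl a : QS p) = (slEl b : QS p)) ↔ a⁻¹ * b ∈ CongruenceSubgroup.Gamma0 p := by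
  rw [QuotientGroup.eq, Subgroup.mem_subgroupOf, Subgroup.mem_map]
  have h1 : (((slEl a)⁻¹ * slEl b : (𝒮ℒ : Subgroup (GL (Fin 2) ℝ))) : GL (Fin 2) ℝ) =
      Matrix.SpecialLinearGroup.mapGL ℝ (a⁻¹ * b) := by
    simp [slEl]
  rw [h1]
  constructor
  · rintro ⟨x, hx, hx'⟩
    rwa [← (Matrix.SpecialLinearGroup.mapGL_injective (R := ℤ) (S := ℝ)) hx']
  · intro h
    exact ⟨_, h, rfl⟩

lemma qs_card_le (p : ℕ) [Fact p.Prime] : Nat.card (QS p) ≤ p + 1 := by
  let φ : Option (Fin p) → QS p := fun o ↦ match o with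
    | none => (slEl 1 : QS p)
    | some j => (slEl (ModularGroup.S * ModularGroup.T ^ ((j : ℕ) : ℤ))⁻¹ : QS p)
  have hφ : Function.Surjective φ := by
    intro q
    induction q using QuotientGroup.induction_on with
    | H x =>
      obtain ⟨x, γ, rfl⟩ := x
      rcases g0_coset p γ⁻¹ with h | ⟨j, hj, h⟩
      · refine ⟨none, ?_⟩
        change (slEl 1 : QS p) = (slEl γ : QS p)
        rw [qs_eq_iff, inv_one, one_mul]
        simpa using inv_mem h
      · refine ⟨some ⟨j, hj⟩, ?_⟩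
        change (slEl (ModularGroup.S * ModularGroup.T ^ (j : ℤ))⁻¹ : QS p) = (slEl γ : QS p)
        rw [qs_eq_iff, inv_inv]
        have := inv_mem h
        rwa [mul_inv_rev, inv_inv, inv_inv] at this
  have h := Nat.card_le_card_of_surjective φ hφ
  simpa using h

/-! ### The norm -/

section norm

variable {p : ℕ} [Fact p.Prime] {k : ℕ}

instance g0_fin : (CongruenceSubgroup.Gamma0 p).FiniteIndex := by
  have : NeZero p := ⟨(Fact.out : p.Prime).ne_zero⟩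
  exact (CongruenceSubgroup.Gamma0_is_congruence p).finiteIndex

omit [Fact p.Prime] in
lemma qf_shift (f : CuspForm (G0 p) k) (q : QS p) (τ : ℍ) :
    quotientFunc f q ((1 : ℝ) +ᵥ τ) = quotientFunc f ((slEl ModularGroup.T)⁻¹ • q) τ := by
  have h := quotientFunc_smul f (slEl ModularGroup.T).2 q
  have h2 := congrFun h τ
  have h3 : (quotientFunc f q ∣[(k : ℤ)] ((slEl ModularGroup.T : (𝒮ℒ : Subgroup (GL (Fin 2) ℝ))) :
      GL (Fin 2) ℝ)) τ = quotientFunc f q ((1 : ℝ) +ᵥ τ) := by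
    change (quotientFunc f q ∣[(k : ℤ)] ModularGroup.T) τ = _
    rw [SL_slash_apply, modular_T_smul]
    simp [denom, ModularGroup.T]
  rw [← h3, h2]

omit [Fact p.Prime] in
lemma qf_one (f : CuspForm (G0 p) k) : quotientFunc f (slEl 1 : QS p) = f := by
  change (f : ℍ → ℂ) ∣[(k : ℤ)] ((slEl 1 : (𝒮ℒ : Subgroup (GL (Fin 2) ℝ))) : GL (Fin 2) ℝ)⁻¹ = f
  simp [slEl]

omit [Fact p.Prime] in
lemma qf_mk (f : CuspForm (G0 p) k) (q : QS p) :
    ∃ γ : SL(2, ℤ), quotientFunc f q = (f : ℍ → ℂ) ∣[(k : ℤ)] γ := by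
  induction q using QuotientGroup.induction_on with
  | H x =>
    obtain ⟨x, γ, rfl⟩ := x
    refine ⟨γ⁻¹, ?_⟩
    change (f : ℍ → ℂ) ∣[(k : ℤ)] (Matrix.SpecialLinearGroup.mapGL ℝ γ)⁻¹ =
      (f : ℍ → ℂ) ∣[(k : ℤ)] Matrix.SpecialLinearGroup.mapGL ℝ γ⁻¹
    rw [map_inv]

omit [Fact p.Prime] in
lemma qf_holo (f : CuspForm (G0 p) k) (q : QS p) : MDiff (quotientFunc f q) := by
  obtain ⟨γ, hγ⟩ := qf_mk f q
  rw [hγ]
  exact f.holo'.slash _ _

lemma qf_zero (f : CuspForm (G0 p) k) (q : QS p) : IsZeroAtImInfty (quotientFunc f q) := by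
  obtain ⟨γ, hγ⟩ := qf_mk f q
  rw [hγ]
  exact CuspFormClass.zero_at_infty_slash f γ

lemma periodic_of_vadd {Q : ℍ → ℂ} (h : ∀ τ : ℍ, Q ((1 : ℝ) +ᵥ τ) = Q τ) :
    Function.Periodic (Q ∘ ofComplex) (1 : ℝ) := by
  intro w
  by_cases hw : 0 < Complex.im w
  · have h1 : 0 < Complex.im (w + (1 : ℝ)) := by simpa using hw
    simp only [Function.comp_apply, ofComplex_apply_of_im_pos h1, ofComplex_apply_of_im_pos hw]
    rw [← h ⟨w, hw⟩]
    congr 1
    ext
    simp [add_comm]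
  · have h1 : Complex.im (w + (1 : ℝ)) ≤ 0 := by simpa using hw
    rw [Function.comp_apply, Function.comp_apply, ofComplex_apply_of_im_nonpos h1,
      ofComplex_apply_of_im_nonpos (not_lt.mp hw)]

/-- The norm of `f` is `f` times a function which vanishes at `∞`. -/
lemma norm_factor (f : CuspForm (G0 p) k) : ∃ Q : ℍ → ℂ, MDiff Q ∧ IsZeroAtImInfty Q ∧
    Function.Periodic (Q ∘ ofComplex) (1 : ℝ) ∧
    (ModularForm.norm 𝒮ℒ f : ℍ → ℂ) = (f : ℍ → ℂ) * Q := by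
  classical
  let := Fintype.ofFinite (QS p)
  set q0 : QS p := (slEl 1 : QS p) with hq0
  have hT : slEl ModularGroup.T • q0 = q0 := by
    have h1 : slEl ModularGroup.T • q0 = (slEl ModularGroup.T : QS p) := by
      change ((slEl ModularGroup.T * slEl 1 : (𝒮ℒ : Subgroup (GL (Fin 2) ℝ))) : QS p) = _
      congr 1
      ext1
      simp [slEl]
    rw [h1, hq0, eq_comm, qs_eq_iff, inv_one, one_mul]
    exact g0_T_mem p
  refine ⟨∏ q ∈ Finset.univ.erase q0, quotientFunc f q, ?_, ?_, ?_, ?_⟩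
  · exact .prod fun q _ ↦ qf_holo f q
  · have hS : (slEl ModularGroup.S : QS p) ∈ Finset.univ.erase q0 := by
      rw [Finset.mem_erase]
      refine ⟨fun h ↦ ?_, Finset.mem_univ _⟩
      rw [hq0, eq_comm, qs_eq_iff, inv_one, one_mul] at h
      exact g0_S_notMem (Fact.out : p.Prime).ne_one h
    rw [← Finset.mul_prod_erase _ _ hS]
    exact (qf_zero f _).mul_boundedAtFilter
      (BoundedAtFilter.prod _ fun q _ ↦ (qf_zero f q).isBoundedAtImInfty)
  · refine periodic_of_vadd fun τ ↦ ?_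
    rw [Finset.prod_apply, Finset.prod_apply]
    refine Finset.prod_bij (fun q _ ↦ (slEl ModularGroup.T)⁻¹ • q) ?_ ?_ ?_ ?_
    · intro q hq
      rw [Finset.mem_erase] at hq ⊢
      refine ⟨fun h ↦ hq.1 ?_, Finset.mem_univ _⟩
      rw [← hT, ← h, smul_inv_smul]
    · intro a _ b _ hab
      exact smul_left_cancel _ hab
    · intro b hb
      refine ⟨slEl ModularGroup.T • b, ?_, inv_smul_smul _ _⟩
      rw [Finset.mem_erase] at hb ⊢
      refine ⟨fun h ↦ hb.1 ?_, Finset.mem_univ _⟩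
      rw [← hT] at h
      exact smul_left_cancel _ h
    · intro q _
      exact qf_shift f q τ
  · rw [ModularForm.coe_norm]
    rw [← Finset.mul_prod_erase Finset.univ _ (Finset.mem_univ q0), hq0, qf_one]

/-- A cusp form of weight `k` for `Γ_0(p)` whose order at `∞` exceeds `k (p+1)/12 - 1` is zero. -/
theorem g0_sturm (f : CuspForm (G0 p) k) (n : ℕ) (hn : k * (p + 1) / 12 < n + 1)
    (hf : ∀ i < n, (qExpansion 1 f).coeff i = 0) : f = 0 := by
  obtain ⟨Q, hQ1, hQ2, hQ3, hQ4⟩ := norm_factor f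
  have h1 : (1 : ℝ) ∈ (G0 p).strictPeriods := by simp
  have h2 : AnalyticAt ℂ (cuspFunction 1 f) 0 :=
    ModularFormClass.analyticAt_cuspFunction_zero f one_pos h1
  have h3 : AnalyticAt ℂ (cuspFunction 1 Q) 0 :=
    analyticAt_cuspFunction_zero one_pos hQ3 hQ1 hQ2.isBoundedAtImInfty
  have h4 : qExpansion 1 (ModularForm.norm 𝒮ℒ f) = qExpansion 1 f * qExpansion 1 Q := by
    rw [hQ4, qExpansion_mul h2 h3]
  have h5 : (n : ℕ∞) ≤ (qExpansion 1 f).order :=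
    PowerSeries.nat_le_order _ _ fun i hi ↦ hf i hi
  have h6 : ((1 : ℕ) : ℕ∞) ≤ (qExpansion 1 Q).order := by
    refine PowerSeries.nat_le_order _ _ fun i hi ↦ ?_
    obtain rfl : i = 0 := by omega
    rw [qExpansion_coeff]
    simp [hQ2.cuspFunction_apply_zero one_pos]
  have h7 : ((n + 1 : ℕ) : ℕ∞) ≤ (qExpansion 1 (ModularForm.norm 𝒮ℒ f)).order := by
    rw [h4, PowerSeries.order_mul]
    push_cast
    exact add_le_add h5 h6
  have h8 : ModularForm.norm 𝒮ℒ f = 0 := by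
    refine sturm_bound_levelOne ?_
    refine lt_of_lt_of_le ?_ h7
    rw [Nat.cast_lt]
    refine lt_of_le_of_lt ?_ hn
    refine Nat.div_le_div_right ?_
    have : ((k : ℤ) * (Nat.card (QS p) : ℤ)).toNat = k * Nat.card (QS p) := by
      rw [← Nat.cast_mul, Int.toNat_natCast]
    rw [this]
    exact Nat.mul_le_mul_left _ (qs_card_le p)
  rw [ModularForm.norm_eq_zero_iff] at h8
  exact DFunLike.coe_injective h8

end norm

end GH
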