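import Pool.Agent.GH.DimTwo

/-! `dimP 3 k` is the dimension of the space of cusp forms of weight `k` for `Γ_0(3)`. -/

open UpperHalfPlane ModularForm SlashInvariantForm Filter EisensteinSeries
open scoped MatrixGroups ModularForm Manifold Topology

noncomputable section

namespace GH

section E2star

variable {p : ℕ} [Fact p.Prime]

lemma e2_periodic : Function.Periodic (E2 ∘ ofComplex) (1 : ℝ) := by
  refine periodic_of_vadd fun τ ↦ ?_
  have h := congrFun (E2_slash_action ModularGroup.T) τ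
  rw [D2_T, smul_zero, sub_zero, SL_slash_apply, modular_T_smul] at h
  simpa [denom, ModularGroup.T] using h

lemma e2_analytic : AnalyticAt ℂ (cuspFunction 1 E2) 0 :=
  analyticAt_cuspFunction_zero one_pos e2_periodic E2_mdifferentiable isBoundedAtImInfty_E2

/-- the coefficients of `E_2` -/
def c2 (m : ℕ) : ℂ := if m = 0 then 1 else -24 * ArithmeticFunction.sigma 1 m

lemma hasSum_E2 (τ : ℍ) : HasSum (fun m : ℕ ↦ c2 m • Function.Periodic.qParam 1 τ ^ m) (E2 τ) := by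
  simpa only [c2, Function.Periodic.qParam, Complex.ofReal_one, div_one] using
    hasSum_qExpansion_E2 (z := τ)

lemma e2_tendsto : Tendsto E2 atImInfty (𝓝 1) := by
  have h1 := hasFPowerSeriesOnBall_cuspFunction (h := 1) one_pos e2_analytic hasSum_E2
  have h2 : cuspFunction 1 E2 0 = 1 := by
    have := h1.coeff_zero (fun _ ↦ 0)
    rw [← this]
    simp [FormalMultilinearSeries.ofScalars, c2]
  have h3 : (cuspFunction 1 E2 ∘ fun τ ↦ Function.Periodic.qParam 1 τ : ℍ → ℂ) = E2 := by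
    funext τ
    exact eq_cuspFunction τ one_ne_zero e2_periodic
  have h4 := e2_analytic.continuousAt.tendsto.comp (qParam_tendsto_atImInfty one_pos)
  rwa [h3, h2] at h4

lemma matA_mul' (γ : SL(2, ℤ)) (h : γ ∈ CongruenceSubgroup.Gamma0 p) : ∃ γ' : SL(2, ℤ),
    matA p * Matrix.SpecialLinearGroup.mapGL ℝ γ =
      Matrix.SpecialLinearGroup.mapGL ℝ γ' * matA p ∧
      (p : ℤ) * γ' 1 0 = γ 1 0 ∧ γ' 1 1 = γ 1 1 := by
  rw [CongruenceSubgroup.Gamma0_mem] at h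
  have h1 : (p : ℤ) ∣ γ 1 0 := (ZMod.intCast_zmod_eq_zero_iff_dvd _ _).mp h
  obtain ⟨c, hc⟩ := h1
  have hdet : γ 0 0 * γ 1 1 - γ 0 1 * γ 1 0 = 1 := by
    rw [← Matrix.det_fin_two]
    exact γ.2
  refine ⟨⟨!![γ 0 0, p * γ 0 1; c, γ 1 1], ?_⟩, ?_, ?_, ?_⟩
  · rw [Matrix.det_fin_two_of]
    linear_combination hdet + (γ 0 1) * hc
  · have hc' : ((γ 1 0 : ℤ) : ℝ) = p * c := by
      rw [hc]
      push_cast
      ring
    ext i j
    fin_cases i <;> fin_cases j <;>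
      simp [matA, Matrix.GeneralLinearGroup.mkOfDetNeZero, Matrix.mul_apply, Fin.sum_univ_two]
    · ring
    · linarith
  · exact hc.symm
  · rfl

lemma sigma_A (x : ℂ) : σ (matA p) x = x := by
  have hd : 0 < (matA p).det.val := by
    rw [matA_det]
    exact p_pos
  simp only [σ]
  rw [if_pos hd]
  rfl

lemma sigma_B (x : ℂ) : σ (matB p) x = x := by
  have hd : 0 < (matB p).det.val := by
    rw [matB_det]
    exact p_pos
  simp only [σ]
  rw [if_pos hd]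
  rfl

lemma slash_A (F : ℍ → ℂ) (w : ℤ) (τ : ℍ) :
    (F ∣[w] matA p) τ = F (matA p • τ) * (p : ℂ) ^ (w - 1) := by
  rw [slash_apply, sigma_A, matA_det, abs_of_pos p_pos]
  have h1 : denom (matA p) τ = 1 := by
    simp [denom, matA, Matrix.GeneralLinearGroup.mkOfDetNeZero]
  rw [h1, one_zpow, mul_one]
  simp

lemma slash_B (F : ℍ → ℂ) (w : ℤ) (τ : ℍ) :
    (F ∣[w] matB p) τ = F (matB p • τ) * (p : ℂ) ^ (w - 1) * (p : ℂ) ^ (-w) := by
  rw [slash_apply, sigma_B, matB_det, abs_of_pos p_pos]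
  have h1 : denom (matB p) τ = p := by
    simp [denom, matB, Matrix.GeneralLinearGroup.mkOfDetNeZero]
  rw [h1]
  simp

lemma coe_matA (τ : ℍ) : ((matA p • τ : ℍ) : ℂ) = p * τ := by
  have hd : 0 < (matA p).det.val := by
    rw [matA_det]
    exact p_pos
  rw [UpperHalfPlane.coe_smul_of_det_pos hd]
  simp [num, denom, matA, Matrix.GeneralLinearGroup.mkOfDetNeZero]

lemma coe_matB (τ : ℍ) : ((matB p • τ : ℍ) : ℂ) = τ / p := by
  have hd : 0 < (matB p).det.val := by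
    rw [matB_det]
    exact p_pos
  rw [UpperHalfPlane.coe_smul_of_det_pos hd]
  simp [num, denom, matB, Matrix.GeneralLinearGroup.mkOfDetNeZero]

variable (p) in
/-- `p E_2(p z) - E_2(z)` -/
def e2s : ℍ → ℂ := E2 ∣[(2 : ℤ)] matA p + (-1 : ℂ) • E2

lemma D2_A {γ γ' : SL(2, ℤ)} (h1 : (p : ℤ) * γ' 1 0 = γ 1 0) (h2 : γ' 1 1 = γ 1 1) :
    (D2 γ') ∣[(2 : ℤ)] matA p = D2 γ := by
  ext τ
  have hp := pc_ne (p := p)
  rw [slash_A, D2, D2, ModularGroup.denom_apply, ModularGroup.denom_apply, coe_matA, h2, ← h1]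
  have h3 : ((((p : ℤ) * γ' 1 0 : ℤ)) : ℂ) = (p : ℂ) * (γ' 1 0 : ℂ) := by push_cast; ring
  rw [h3]
  have h4 : (γ' 1 0 : ℂ) * ((p : ℂ) * τ) + (γ 1 1 : ℂ) = (p : ℂ) * (γ' 1 0 : ℂ) * τ + (γ 1 1 : ℂ) := by
    ring
  rw [h4]
  norm_num
  ring

lemma e2s_inv (γ : SL(2, ℤ)) (h : γ ∈ CongruenceSubgroup.Gamma0 p) :
    e2s p ∣[(2 : ℤ)] γ = e2s p := by
  obtain ⟨γ', h1, h2, h3⟩ := matA_mul' γ h
  have h4 : (E2 ∣[(2 : ℤ)] matA p) ∣[(2 : ℤ)] γ = E2 ∣[(2 : ℤ)] matA p -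
      (1 / (2 * riemannZeta 2)) • D2 γ := by
    change (E2 ∣[(2 : ℤ)] matA p) ∣[(2 : ℤ)] (Matrix.SpecialLinearGroup.mapGL ℝ γ) = _
    rw [← SlashAction.slash_mul, h1, SlashAction.slash_mul]
    have h5 : E2 ∣[(2 : ℤ)] (Matrix.SpecialLinearGroup.mapGL ℝ γ') =
        E2 - (1 / (2 * riemannZeta 2)) • D2 γ' := E2_slash_action γ'
    rw [h5, sub_eq_add_neg, SlashAction.add_slash, SlashAction.neg_slash, smul_slash, sigma_A,
      D2_A h2 h3, sub_eq_add_neg]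
  rw [e2s, SlashAction.add_slash, SL_smul_slash, h4, E2_slash_action]
  module

lemma D2_B : (D2 ModularGroup.S) ∣[(2 : ℤ)] matB p = D2 ModularGroup.S := by
  ext τ
  have hp := pc_ne (p := p)
  have hτ : (τ : ℂ) ≠ 0 := ne_zero τ
  rw [slash_B, D2_S, D2_S, coe_matB]
  have h1 : (p : ℂ) ^ ((2 : ℤ) - 1) = p := by norm_num
  have h2 : (p : ℂ) ^ (-(2 : ℤ)) = (p ^ 2 : ℂ)⁻¹ := by
    rw [zpow_neg]
    norm_cast
  rw [h1, h2]
  field_simp

lemma e2s_S : e2s p ∣[(2 : ℤ)] ModularGroup.S = E2 ∣[(2 : ℤ)] matB p + (-1 : ℂ) • E2 := by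
  have h4 : (E2 ∣[(2 : ℤ)] matA p) ∣[(2 : ℤ)] ModularGroup.S = E2 ∣[(2 : ℤ)] matB p -
      (1 / (2 * riemannZeta 2)) • D2 ModularGroup.S := by
    change (E2 ∣[(2 : ℤ)] matA p) ∣[(2 : ℤ)]
      (Matrix.SpecialLinearGroup.mapGL ℝ ModularGroup.S) = _
    rw [← SlashAction.slash_mul, matA_S, SlashAction.slash_mul]
    have h5 : E2 ∣[(2 : ℤ)] (Matrix.SpecialLinearGroup.mapGL ℝ ModularGroup.S) =
        E2 - (1 / (2 * riemannZeta 2)) • D2 ModularGroup.S := E2_slash_action ModularGroup.S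
    rw [h5, sub_eq_add_neg, SlashAction.add_slash, SlashAction.neg_slash, smul_slash, sigma_B,
      D2_B, sub_eq_add_neg]
  rw [e2s, SlashAction.add_slash, SL_smul_slash, h4, E2_slash_action]
  module

lemma e2B_tendsto : Tendsto (E2 ∣[(2 : ℤ)] matB p) atImInfty (𝓝 ((p : ℂ)⁻¹)) := by
  have h1 : (E2 ∣[(2 : ℤ)] matB p) = fun τ ↦ E2 (matB p • τ) * (p : ℂ) ^ ((2 : ℤ) - 1) *
      (p : ℂ) ^ (-(2 : ℤ)) := by
    ext τ
    exact slash_B _ _ _
  have h2 : Tendsto (fun τ ↦ E2 (matB p • τ)) atImInfty (𝓝 1) := e2_tendsto.comp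
    (tendsto_smul_atImInfty (by simp [matB, Matrix.GeneralLinearGroup.mkOfDetNeZero]))
  have h3 := (h2.mul_const ((p : ℂ) ^ ((2 : ℤ) - 1))).mul_const ((p : ℂ) ^ (-(2 : ℤ)))
  rw [h1]
  have h4 : (1 : ℂ) * (p : ℂ) ^ ((2 : ℤ) - 1) * (p : ℂ) ^ (-(2 : ℤ)) = (p : ℂ)⁻¹ := by
    rw [one_mul, ← zpow_add₀ pc_ne]
    norm_num
  rwa [h4] at h3

lemma e2A_tendsto : Tendsto (E2 ∣[(2 : ℤ)] matA p) atImInfty (𝓝 (p : ℂ)) := by
  have h1 : (E2 ∣[(2 : ℤ)] matA p) = fun τ ↦ E2 (matA p • τ) * (p : ℂ) ^ ((2 : ℤ) - 1) := by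
    ext τ
    exact slash_A _ _ _
  have h2 : Tendsto (fun τ ↦ E2 (matA p • τ)) atImInfty (𝓝 1) := e2_tendsto.comp
    (tendsto_smul_atImInfty (by simp [matA, Matrix.GeneralLinearGroup.mkOfDetNeZero]))
  have h3 := h2.mul_const ((p : ℂ) ^ ((2 : ℤ) - 1))
  rw [h1]
  have h4 : (1 : ℂ) * (p : ℂ) ^ ((2 : ℤ) - 1) = p := by norm_num
  rwa [h4] at h3

lemma e2s_tendsto_S : Tendsto (e2s p ∣[(2 : ℤ)] ModularGroup.S) atImInfty
    (𝓝 ((p : ℂ)⁻¹ + (-1) * 1)) := by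
  rw [e2s_S]
  exact e2B_tendsto.add (e2_tendsto.const_mul (-1))

lemma nice_e2s : Nice p 2 (e2s p) where
  holo := (E2_mdifferentiable.slash 2 (matA p)).add (E2_mdifferentiable.const_smul (-1 : ℂ))
  inv := e2s_inv
  bI := (e2A_tendsto.add (e2_tendsto.const_mul (-1))).isBigO_one ℝ
  bS := e2s_tendsto_S.isBigO_one ℝ

lemma hasSum_e2s (τ : ℍ) : HasSum
    (fun m : ℕ ↦ ((if p ∣ m then (p : ℂ) * c2 (m / p) else 0) + (-1) * c2 m) *
      Function.Periodic.qParam 1 τ ^ m) (e2s p τ) := by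
  have hp0 : p ≠ 0 := (Fact.out : p.Prime).ne_zero
  have h2 := (hasSum_E2 (matA p • τ)).mul_left (p : ℂ)
  have hinj : Function.Injective (fun m : ℕ ↦ p * m) := fun a b h ↦
    Nat.eq_of_mul_eq_mul_left (Nat.pos_of_ne_zero hp0) h
  have hA : HasSum (fun m : ℕ ↦ (if p ∣ m then (p : ℂ) * c2 (m / p) else 0) *
      Function.Periodic.qParam 1 τ ^ m) ((p : ℂ) * E2 (matA p • τ)) := by
    refine (hinj.hasSum_iff ?_).mp ?_
    · intro x hx
      rw [if_neg, zero_mul]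
      rintro ⟨y, rfl⟩
      exact hx ⟨y, rfl⟩
    · have h3 : ((fun m : ℕ ↦ (if p ∣ m then (p : ℂ) * c2 (m / p) else 0) *
          Function.Periodic.qParam 1 τ ^ m) ∘ fun m : ℕ ↦ p * m) =
          fun m ↦ (p : ℂ) * (c2 m • Function.Periodic.qParam 1 (matA p • τ : ℍ) ^ m) := by
        funext m
        simp only [Function.comp_apply]
        rw [if_pos (dvd_mul_right p m), Nat.mul_div_cancel_left m (Nat.pos_of_ne_zero hp0),
          qParam_matA, ← pow_mul, smul_eq_mul]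
        ring
      rw [h3]
      exact h2
  have h4 := hA.add ((hasSum_E2 τ).mul_left (-1))
  have h5 : e2s p τ = (p : ℂ) * E2 (matA p • τ) + (-1) * E2 τ := by
    change (E2 ∣[(2 : ℤ)] matA p) τ + (-1) * E2 τ = _
    rw [slash_A]
    norm_num
    ring
  rw [h5]
  convert h4 using 1
  funext m
  rw [smul_eq_mul]
  ring

lemma e2s_coeff (m : ℕ) : (qExpansion 1 (e2s p)).coeff m =
    (if p ∣ m then (p : ℂ) * c2 (m / p) else 0) + (-1) * c2 m :=
  (ModularFormClass.qExpansion_coeff_unique one_pos (Γ := G0 p) (by simp)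
    (f := (nice_e2s (p := p)).toMF)
    (c := fun m : ℕ ↦ (if p ∣ m then (p : ℂ) * c2 (m / p) else 0) + (-1) * c2 m)
    hasSum_e2s m).symm

end E2star

/-! ### Level three -/

section three

/-- `(3 E_2(3z) - E_2(z))/2 = 1 + 12 q + 36 q² + ⋯` -/
def fA : ℍ → ℂ := (1 / 2 : ℂ) • e2s 3

/-- `(E_4(z) - E_4(3z))/240 = q + 9 q² + ⋯` -/
def fg : ℍ → ℂ := (1 / 240 : ℂ) • gE 3 E₄

/-- a form of weight six of order two at `∞` -/
def fD : ℍ → ℂ := (1 / 5832 : ℂ) • (fA ^ 3 + ((-540 : ℂ) • (fA * fg) + (-1 : ℂ) • (E₆ : ℍ → ℂ)))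

/-- the cusp form of weight six -/
def fd : ℍ → ℂ := (1 / 216 : ℂ) • (E₆ + ((-1 : ℂ) • fA ^ 3 + (756 : ℂ) • (fA * fg)))

lemma nice_fA : Nice 3 2 fA := nice_e2s.smul _

lemma nice_fg : Nice 3 4 fg := (nice_gE E₄).smul _

lemma nice_A3 : Nice 3 6 (fA ^ 3) := nice_fA.pow 3

lemma nice_Ag : Nice 3 6 (fA * fg) := nice_fA.mul nice_fg

lemma nice_fD : Nice 3 6 fD := (nice_A3.add ((nice_Ag.smul _).add ((nice_E E₆).smul _))).smul _

lemma nice_fd : Nice 3 6 fd := ((nice_E E₆).add ((nice_A3.smul _).add (nice_Ag.smul _))).smul _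

lemma qA : qExpansion 1 fA = (1 / 2 : ℂ) • qExpansion 1 (e2s 3) := nice_e2s.qExpansion_smul _

lemma qA0 : (qExpansion 1 fA).coeff 0 = 1 := by
  rw [qA, PowerSeries.coeff_smul, e2s_coeff]
  norm_num [c2]

lemma qA1 : (qExpansion 1 fA).coeff 1 = 12 := by
  rw [qA, PowerSeries.coeff_smul, e2s_coeff]
  norm_num [c2]

lemma qA2 : (qExpansion 1 fA).coeff 2 = 36 := by
  rw [qA, PowerSeries.coeff_smul, e2s_coeff]
  have h : ArithmeticFunction.sigma 1 2 = 3 := by decide +kernel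
  norm_num [c2, h]

lemma qE4 (m : ℕ) (hm : m ≠ 0) : (qExpansion 1 E₄).coeff m =
    240 * ArithmeticFunction.sigma 3 m := by
  have h := EisensteinSeries.E_qExpansion_coeff (k := 4) (by norm_num) ⟨2, rfl⟩ m
  rw [if_neg hm, show bernoulli 4 = -1 / 30 by decide +kernel] at h
  rw [h]
  norm_num

lemma qE6 (m : ℕ) (hm : m ≠ 0) : (qExpansion 1 E₆).coeff m =
    -504 * ArithmeticFunction.sigma 5 m := by
  have h := EisensteinSeries.E_qExpansion_coeff (k := 6) (by norm_num) ⟨3, rfl⟩ m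
  rw [if_neg hm, show bernoulli 6 = 1 / 42 by decide +kernel] at h
  rw [h]
  norm_num

lemma qE60 : (qExpansion 1 E₆).coeff 0 = 1 := EisensteinSeries.E_qExpansion_coeff_zero _ ⟨3, rfl⟩

lemma qg (m : ℕ) : (qExpansion 1 fg).coeff m = (1 / 240 : ℂ) * (qExpansion 1 (gE 3 E₄)).coeff m := by
  rw [fg, (nice_gE E₄).qExpansion_smul, PowerSeries.coeff_smul, smul_eq_mul]

lemma qg0 : (qExpansion 1 fg).coeff 0 = 0 := by
  rw [qg, gE_coeff_zero, mul_zero]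

lemma qg1 : (qExpansion 1 fg).coeff 1 = 1 := by
  rw [qg, gE_coeff_one, E₄_qExpansion_coeff_one]
  norm_num

lemma qg2 : (qExpansion 1 fg).coeff 2 = 9 := by
  rw [qg, gE, (nice_E E₄).qExpansion_add ((nice_VE E₄).smul _), (nice_VE E₄).qExpansion_smul,
    map_add, PowerSeries.coeff_smul, coeff_VE, if_neg (by norm_num), smul_zero, add_zero,
    qE4 2 (by norm_num)]
  have h : ArithmeticFunction.sigma 3 2 = 9 := by decide +kernel
  rw [h]
  norm_num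

lemma coeff_mul0 (P Q : PowerSeries ℂ) : (P * Q).coeff 0 = P.coeff 0 * Q.coeff 0 := by
  simp

lemma coeff_mul1 (P Q : PowerSeries ℂ) : (P * Q).coeff 1 =
    P.coeff 0 * Q.coeff 1 + P.coeff 1 * Q.coeff 0 := by
  rw [PowerSeries.coeff_mul]
  simp [Finset.Nat.antidiagonal_succ]

lemma coeff_mul2 (P Q : PowerSeries ℂ) : (P * Q).coeff 2 =
    P.coeff 0 * Q.coeff 2 + (P.coeff 1 * Q.coeff 1 + P.coeff 2 * Q.coeff 0) := by
  rw [PowerSeries.coeff_mul]
  simp [Finset.Nat.antidiagonal_succ]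

lemma qA3 : (qExpansion 1 (fA ^ 3)).coeff 0 = 1 ∧ (qExpansion 1 (fA ^ 3)).coeff 1 = 36 ∧
    (qExpansion 1 (fA ^ 3)).coeff 2 = 540 := by
  rw [nice_fA.qExpansion_pow, pow_succ, pow_two]
  simp only [coeff_mul0, coeff_mul1, coeff_mul2, qA0, qA1, qA2]
  norm_num

lemma qAg : (qExpansion 1 (fA * fg)).coeff 0 = 0 ∧ (qExpansion 1 (fA * fg)).coeff 1 = 1 ∧
    (qExpansion 1 (fA * fg)).coeff 2 = 21 := by
  rw [nice_fA.qExpansion_mul nice_fg]
  simp only [coeff_mul0, coeff_mul1, coeff_mul2, qA0, qA1, qA2, qg0, qg1, qg2]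
  norm_num

lemma sigma5 : ArithmeticFunction.sigma 5 1 = 1 ∧ ArithmeticFunction.sigma 5 2 = 33 := by
  decide +kernel

lemma qD (m : ℕ) : (qExpansion 1 fD).coeff m = (1 / 5832 : ℂ) * ((qExpansion 1 (fA ^ 3)).coeff m +
    ((-540) * (qExpansion 1 (fA * fg)).coeff m + (-1) * (qExpansion 1 E₆).coeff m)) := by
  rw [fD, (nice_A3.add ((nice_Ag.smul _).add ((nice_E E₆).smul _))).qExpansion_smul,
    nice_A3.qExpansion_add ((nice_Ag.smul _).add ((nice_E E₆).smul _)),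
    (nice_Ag.smul _).qExpansion_add ((nice_E E₆).smul _), nice_Ag.qExpansion_smul,
    (nice_E (p := 3) E₆).qExpansion_smul]
  simp only [map_add, PowerSeries.coeff_smul, smul_eq_mul]

lemma qD012 : (qExpansion 1 fD).coeff 0 = 0 ∧ (qExpansion 1 fD).coeff 1 = 0 ∧
    (qExpansion 1 fD).coeff 2 = 1 := by
  refine ⟨?_, ?_, ?_⟩
  · rw [qD, qA3.1, qAg.1, qE60]
    norm_num
  · rw [qD, qA3.2.1, qAg.2.1, qE6 1 (by norm_num), sigma5.1]
    norm_num
  · rw [qD, qA3.2.2, qAg.2.2, qE6 2 (by norm_num), sigma5.2]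
    norm_num

lemma qd (m : ℕ) : (qExpansion 1 fd).coeff m = (1 / 216 : ℂ) * ((qExpansion 1 E₆).coeff m +
    ((-1) * (qExpansion 1 (fA ^ 3)).coeff m + 756 * (qExpansion 1 (fA * fg)).coeff m)) := by
  rw [fd, ((nice_E E₆).add ((nice_A3.smul _).add (nice_Ag.smul _))).qExpansion_smul,
    (nice_E E₆).qExpansion_add ((nice_A3.smul _).add (nice_Ag.smul _)),
    (nice_A3.smul _).qExpansion_add (nice_Ag.smul _), nice_Ag.qExpansion_smul,
    nice_A3.qExpansion_smul]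
  simp only [map_add, PowerSeries.coeff_smul, smul_eq_mul]

lemma qd01 : (qExpansion 1 fd).coeff 0 = 0 ∧ (qExpansion 1 fd).coeff 1 = 1 := by
  refine ⟨?_, ?_⟩
  · rw [qd, qA3.1, qAg.1, qE60]
    norm_num
  · rw [qd, qA3.2.1, qAg.2.1, qE6 1 (by norm_num), sigma5.1]
    norm_num

/-- the values at the cusp `0` -/
lemma fA_S : Tendsto (fA ∣[(2 : ℤ)] ModularGroup.S) atImInfty (𝓝 (-1 / 3)) := by
  rw [fA, SL_smul_slash]
  have h := (e2s_tendsto_S (p := 3)).const_mul (1 / 2 : ℂ)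
  have h1 : (1 / 2 : ℂ) * (((3 : ℕ) : ℂ)⁻¹ + (-1) * 1) = -1 / 3 := by norm_num
  rw [h1] at h
  exact h

lemma fg_S : Tendsto (fg ∣[(4 : ℤ)] ModularGroup.S) atImInfty (𝓝 (1 / 243)) := by
  rw [fg, SL_smul_slash, gE, SlashAction.add_slash, SL_smul_slash, VE_S, E_slash]
  have h := ((E_tendsto E₄).add ((WE_tendsto (p := 3) E₄).const_mul
    (-(((3 : ℕ) : ℂ) ^ ((4 : ℤ) - 1))⁻¹))).const_mul (1 / 240 : ℂ)
  have h0 : (qExpansion 1 E₄).coeff 0 = 1 := EisensteinSeries.E_qExpansion_coeff_zero _ ⟨2, rfl⟩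
  rw [h0] at h
  have h1 : (1 / 240 : ℂ) * (1 + -(((3 : ℕ) : ℂ) ^ ((4 : ℤ) - 1))⁻¹ *
      (1 * ((3 : ℕ) : ℂ) ^ ((4 : ℤ) - 1) * ((3 : ℕ) : ℂ) ^ (-(4 : ℤ)))) = 1 / 243 := by
    norm_num
  rw [h1] at h
  exact h

lemma fd_S : IsZeroAtImInfty (fd ∣[(6 : ℤ)] ModularGroup.S) := by
  have h1 : (fA ^ 3) ∣[(6 : ℤ)] ModularGroup.S = (fA ∣[(2 : ℤ)] ModularGroup.S) ^ 3 :=
    Nice.pow_slash fA 2 ModularGroup.S 3
  have h2 : (fA * fg) ∣[(6 : ℤ)] ModularGroup.S =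
      (fA ∣[(2 : ℤ)] ModularGroup.S) * (fg ∣[(4 : ℤ)] ModularGroup.S) :=
    mul_slash_SL2 2 4 ModularGroup.S fA fg
  rw [fd, SL_smul_slash, SlashAction.add_slash, SlashAction.add_slash, SL_smul_slash,
    SL_smul_slash, h1, h2, E_slash]
  have h := ((E_tendsto E₆).add (((fA_S.pow 3).const_mul (-1 : ℂ)).add
    ((fA_S.mul fg_S).const_mul (756 : ℂ)))).const_mul (1 / 216 : ℂ)
  rw [qE60] at h
  have h3 : (1 / 216 : ℂ) * (1 + (-1 * (-1 / 3) ^ 3 + 756 * (-1 / 3 * (1 / 243)))) = 0 := by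
    norm_num
  rw [h3] at h
  exact h

lemma exists_form_three {k a b c : ℕ} (hk : 6 + (2 * a + (4 * b + 6 * c)) = k) :
    ∃ φ : CuspForm (G0 3) k, (∀ i < b + 2 * c + 1, (qExpansion 1 φ).coeff i = 0) ∧
      (qExpansion 1 φ).coeff (b + 2 * c + 1) ≠ 0 := by
  have nG := (nice_fA.pow a).mul ((nice_fg.pow b).mul (nice_fD.pow c))
  have hwt : (6 : ℤ) + ((2 : ℤ) * (a : ℤ) + ((4 : ℤ) * (b : ℤ) + (6 : ℤ) * (c : ℤ))) = k := by
    rw [← hk]
    push_cast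
    ring
  have hq : qExpansion 1 (fd * (fA ^ a * (fg ^ b * fD ^ c))) =
      qExpansion 1 fd * (qExpansion 1 fA ^ a * (qExpansion 1 fg ^ b * qExpansion 1 fD ^ c)) := by
    rw [nice_fd.qExpansion_mul nG, (nice_fA.pow a).qExpansion_mul
      ((nice_fg.pow b).mul (nice_fD.pow c)), (nice_fg.pow b).qExpansion_mul (nice_fD.pow c),
      nice_fA.qExpansion_pow, nice_fg.qExpansion_pow, nice_fD.qExpansion_pow]
  obtain ⟨d1, hd1⟩ := PowerSeries.X_dvd_iff.2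
    (by simpa using qd01.1 : PowerSeries.constantCoeff (qExpansion 1 fd) = 0)
  obtain ⟨g1, hg1⟩ := PowerSeries.X_dvd_iff.2
    (by simpa using qg0 : PowerSeries.constantCoeff (qExpansion 1 fg) = 0)
  obtain ⟨D1, hD1⟩ : PowerSeries.X ^ 2 ∣ qExpansion 1 fD := by
    rw [PowerSeries.X_pow_dvd_iff]
    intro m hm
    interval_cases m
    · exact qD012.1
    · exact qD012.2.1
  have e1 : PowerSeries.constantCoeff d1 = 1 := by
    have h := qd01.2
    have h' := PowerSeries.coeff_succ_X_mul 0 d1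
    rw [zero_add] at h'
    rw [hd1, h'] at h
    simpa using h
  have e2 : PowerSeries.constantCoeff g1 = 1 := by
    have h := qg1
    have h' := PowerSeries.coeff_succ_X_mul 0 g1
    rw [zero_add] at h'
    rw [hg1, h'] at h
    simpa using h
  have e3 : PowerSeries.constantCoeff D1 = 1 := by
    have h := qD012.2.2
    rw [hD1, PowerSeries.coeff_X_pow_mul', if_pos le_rfl] at h
    simpa using h
  have e4 : PowerSeries.constantCoeff (qExpansion 1 fA) = 1 := by simpa using qA0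
  set R := d1 * (qExpansion 1 fA ^ a * (g1 ^ b * D1 ^ c)) with hR
  have hq' : qExpansion 1 (fd * (fA ^ a * (fg ^ b * fD ^ c))) =
      PowerSeries.X ^ (b + 2 * c + 1) * R := by
    rw [hq, hd1, hg1, hD1, hR, mul_pow, mul_pow, ← pow_mul]
    ring
  have hR0 : PowerSeries.constantCoeff R = 1 := by
    rw [hR, map_mul, map_mul, map_mul, map_pow, map_pow, map_pow, e1, e2, e3, e4]
    simp
  obtain ⟨φ, hφ⟩ := exists_cusp_of nice_fd nG hwt fd_S (by
    rw [hq', PowerSeries.coeff_X_pow_mul', if_neg (by omega)])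
  refine ⟨φ, fun i hi ↦ ?_, ?_⟩
  · rw [hφ, hq', PowerSeries.coeff_X_pow_mul', if_neg (by omega)]
  · rw [hφ, hq', PowerSeries.coeff_X_pow_mul', if_pos le_rfl, Nat.sub_self,
      PowerSeries.coeff_zero_eq_constantCoeff_apply, hR0]
    exact one_ne_zero

theorem finrank_cuspForm_gammaZeroThree (k : ℕ) (hk : Even k) :
    Module.finrank ℂ (CuspForm
      ((CongruenceSubgroup.Gamma0 3).map (Matrix.SpecialLinearGroup.mapGL ℝ)) k) = dimP 3 k := by
  have hd : dimP 3 k = k / 3 - 1 := by simp [dimP]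
  rw [hd]
  have hn : k * (3 + 1) / 12 < (k / 3 - 1) + 2 := by omega
  have hex : ∀ b : Fin (k / 3 - 1), ∃ φ : CuspForm (G0 3) k,
      (∀ i < (b : ℕ) + 1, (qExpansion 1 φ).coeff i = 0) ∧
        (qExpansion 1 φ).coeff ((b : ℕ) + 1) ≠ 0 := by
    intro b
    have hb := b.2
    obtain ⟨m, hm⟩ := hk
    obtain ⟨φ, h1, h2⟩ := exists_form_three (k := k) (a := (k - 6 - 4 * (b.1 % 2) - 6 * (b.1 / 2)) / 2)
      (b := b.1 % 2) (c := b.1 / 2) (by omega)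
    have h3 : b.1 % 2 + 2 * (b.1 / 2) = b.1 := by omega
    rw [h3] at h1 h2
    exact ⟨φ, h1, h2⟩
  choose φ h1 h2 using hex
  exact finrank_eq_of_forms hn φ h1 h2

end three

end GH
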