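import Pool.Agent.GH.DimN
import Pool.Agent.GH.Defs

/-! `dimP 2 k` is the dimension of the space of cusp forms of weight `k` for `Γ_0(2)`. -/

open UpperHalfPlane ModularForm SlashInvariantForm Filter
open scoped MatrixGroups ModularForm Manifold Topology

noncomputable section

namespace GH

section lin

variable {p : ℕ} [Fact p.Prime]

/-- The coefficients of `q, …, q^n`. -/
def coeffMap (k n : ℕ) : CuspForm (G0 p) k →ₗ[ℂ] (Fin n → ℂ) where
  toFun f i := (qExpansion 1 f).coeff (i + 1)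
  map_add' f g := by
    funext i
    have h := ModularForm.qExpansion_add (h := 1) (Γ := G0 p) one_pos (by simp) f g
    have h1 : ((f + g : CuspForm (G0 p) k) : ℍ → ℂ) = (f : ℍ → ℂ) + (g : ℍ → ℂ) := rfl
    rw [h1, h, map_add]
    rfl
  map_smul' c f := by
    funext i
    have h := ModularForm.qExpansion_smul (h := 1) (Γ := G0 p) one_pos (by simp) c f
    have h1 : ((c • f : CuspForm (G0 p) k) : ℍ → ℂ) = c • (f : ℍ → ℂ) := rfl
    rw [h1, h, PowerSeries.coeff_smul]
    rfl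

lemma coeffMap_injective {k n : ℕ} (hn : k * (p + 1) / 12 < n + 2) :
    Function.Injective (coeffMap (p := p) k n) := by
  rw [injective_iff_map_eq_zero]
  intro f hf
  refine g0_sturm f (n + 1) hn fun i hi ↦ ?_
  rcases Nat.eq_zero_or_pos i with rfl | h
  · exact CuspFormClass.qExpansion_coeff_zero f one_pos (by simp)
  · have h1 := congrFun hf ⟨i - 1, by omega⟩
    have h2 : i - 1 + 1 = i := by omega
    simpa [coeffMap, h2] using h1

theorem finrank_eq_of_forms {k n : ℕ} (hn : k * (p + 1) / 12 < n + 2)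
    (φ : Fin n → CuspForm (G0 p) k)
    (h1 : ∀ b : Fin n, ∀ i < (b : ℕ) + 1, (qExpansion 1 (φ b)).coeff i = 0)
    (h2 : ∀ b : Fin n, (qExpansion 1 (φ b)).coeff ((b : ℕ) + 1) ≠ 0) :
    Module.finrank ℂ (CuspForm (G0 p) k) = n := by
  have hinj := coeffMap_injective (p := p) hn
  have : Module.Finite ℂ (CuspForm (G0 p) k) := Module.Finite.of_injective _ hinj
  refine le_antisymm ?_ ?_
  · have := LinearMap.finrank_le_finrank_of_injective hinj
    simpa using this
  · set M : Matrix (Fin n) (Fin n) ℂ := Matrix.of fun b ↦ coeffMap k n (φ b) with hM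
    have htri : M.BlockTriangular id := by
      intro b i hi
      exact h1 b (i + 1) (by simpa using hi)
    have hdet : M.det ≠ 0 := by
      rw [Matrix.det_of_isUpperTriangular htri]
      exact Finset.prod_ne_zero_iff.mpr fun b _ ↦ h2 b
    have hli : LinearIndependent ℂ (fun b ↦ coeffMap k n (φ b)) :=
      Matrix.linearIndependent_rows_of_det_ne_zero hdet
    have hli2 : LinearIndependent ℂ φ := LinearIndependent.of_comp (coeffMap k n) hli
    simpa using hli2.fintype_card_le_finrank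

/-- A cusp form with prescribed order at `∞` from a form which vanishes at `0`. -/
lemma exists_cusp_of {a b : ℤ} {k : ℤ} {F G : ℍ → ℂ} (hF : Nice p a F) (hG : Nice p b G)
    (hk : a + b = k) (hF0 : IsZeroAtImInfty (F ∣[a] ModularGroup.S))
    (hc : (qExpansion 1 (F * G)).coeff 0 = 0) :
    ∃ φ : CuspForm (G0 p) k, (φ : ℍ → ℂ) = F * G := by
  subst hk
  refine ⟨(hF.mul hG).toCusp ((hF.mul hG).zero_of_coeff hc) ?_, rfl⟩
  rw [mul_slash_SL2]
  exact hF0.mul_boundedAtFilter hG.bS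

end lin

/-- The forms `h t^(n-b) g^b`. -/
lemma exists_form_two {w : ℤ} (E : ModularForm 𝒮ℒ w) (hw : (2 : ℂ) ^ w ≠ 1)
    (hE1 : (qExpansion 1 E).coeff 0 = 1) {k n b : ℕ} (hk : w + 4 * n = k) (hb : b < n) :
    ∃ φ : CuspForm (G0 2) k, (∀ i < b + 1, (qExpansion 1 φ).coeff i = 0) ∧
      (qExpansion 1 φ).coeff (b + 1) ≠ 0 := by
  have hE4 : (qExpansion 1 E₄).coeff 0 = 1 := EisensteinSeries.E_qExpansion_coeff_zero _ ⟨2, rfl⟩
  have nt : Nice 2 4 (hE 2 E₄) := nice_hE E₄
  have ng : Nice 2 4 (gE 2 E₄) := nice_gE E₄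
  have nh : Nice 2 w (hE 2 E) := nice_hE E
  have nG := (nt.pow (n - 1 - b)).mul (ng.pow (b + 1))
  have hwt : w + ((4 : ℤ) * ((n - 1 - b : ℕ) : ℤ) + (4 : ℤ) * ((b + 1 : ℕ) : ℤ)) = k := by
    rw [← hk]
    omega
  have hq : qExpansion 1 (hE 2 E * (hE 2 E₄ ^ (n - 1 - b) * gE 2 E₄ ^ (b + 1))) =
      qExpansion 1 (hE 2 E) * (qExpansion 1 (hE 2 E₄) ^ (n - 1 - b) *
        qExpansion 1 (gE 2 E₄) ^ (b + 1)) := by
    rw [nh.qExpansion_mul nG, (nt.pow _).qExpansion_mul (ng.pow _), nt.qExpansion_pow,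
      ng.qExpansion_pow]
  have hg0 : PowerSeries.constantCoeff (qExpansion 1 (gE 2 E₄)) = 0 := by
    simpa using gE_coeff_zero (p := 2) E₄
  obtain ⟨G', hG'⟩ := PowerSeries.X_dvd_iff.2 hg0
  have hG1 : PowerSeries.constantCoeff G' = 240 := by
    have h := gE_coeff_one (p := 2) E₄
    have h' := PowerSeries.coeff_succ_X_mul 0 G'
    rw [zero_add] at h'
    rw [hG', h', E₄_qExpansion_coeff_one] at h
    simpa using h
  set R := qExpansion 1 (hE 2 E) * (qExpansion 1 (hE 2 E₄) ^ (n - 1 - b) * G' ^ (b + 1)) with hR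
  have hq' : qExpansion 1 (hE 2 E * (hE 2 E₄ ^ (n - 1 - b) * gE 2 E₄ ^ (b + 1))) =
      PowerSeries.X ^ (b + 1) * R := by
    rw [hq, hG', hR, mul_pow]
    ring
  have hR0 : PowerSeries.constantCoeff R ≠ 0 := by
    rw [hR, map_mul, map_mul, map_pow, map_pow, hG1]
    have h1 := hE_coeff_zero (p := 2) E
    have h2 := hE_coeff_zero (p := 2) E₄
    rw [PowerSeries.coeff_zero_eq_constantCoeff_apply] at h1 h2
    rw [h1, h2, hE1, hE4]
    refine mul_ne_zero ?_ (mul_ne_zero (pow_ne_zero _ ?_) (pow_ne_zero _ (by norm_num)))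
    · rw [mul_one, sub_ne_zero]
      exact_mod_cast hw
    · norm_num
  obtain ⟨φ, hφ⟩ := exists_cusp_of nh nG hwt (hE_zero E) (by
    rw [hq', PowerSeries.coeff_X_pow_mul', if_neg (by omega)])
  refine ⟨φ, fun i hi ↦ ?_, ?_⟩
  · rw [hφ, hq', PowerSeries.coeff_X_pow_mul', if_neg (by omega)]
  · rw [hφ, hq', PowerSeries.coeff_X_pow_mul', if_pos le_rfl, Nat.sub_self,
      PowerSeries.coeff_zero_eq_constantCoeff_apply]
    exact hR0

theorem finrank_cuspForm_gammaZeroTwo (k : ℕ) (hk : Even k) :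
    Module.finrank ℂ (CuspForm
      ((CongruenceSubgroup.Gamma0 2).map (Matrix.SpecialLinearGroup.mapGL ℝ)) k) = dimP 2 k := by
  have hd : dimP 2 k = k / 4 - 1 := by simp [dimP]
  rw [hd]
  have hn : k * (2 + 1) / 12 < (k / 4 - 1) + 2 := by omega
  have hex : ∀ b : Fin (k / 4 - 1), ∃ φ : CuspForm (G0 2) k,
      (∀ i < (b : ℕ) + 1, (qExpansion 1 φ).coeff i = 0) ∧
        (qExpansion 1 φ).coeff ((b : ℕ) + 1) ≠ 0 := by
    intro b
    have hb := b.2
    have hk8 : 8 ≤ k := by omega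
    obtain ⟨m, hm⟩ := hk
    rcases Nat.even_or_odd m with h | h
    · obtain ⟨l, hl⟩ := h
      refine exists_form_two E₄ (by norm_num) ?_ (k := k) (n := k / 4 - 1) ?_ hb
      · exact EisensteinSeries.E_qExpansion_coeff_zero _ ⟨2, rfl⟩
      · omega
    · obtain ⟨l, hl⟩ := h
      refine exists_form_two E₆ (by norm_num) ?_ (k := k) (n := k / 4 - 1) ?_ hb
      · exact EisensteinSeries.E_qExpansion_coeff_zero _ ⟨3, rfl⟩
      · omega
  choose φ h1 h2 using hex
  exact finrank_eq_of_forms hn φ h1 h2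

end GH
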