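import Pool.Agent.GH.Base

/-!
# Ghost conjecture: from the central disc to the whole weight disc, Newton polygon lemmas
-/

open PowerSeries Filter Topology

noncomputable section

namespace GH

/-- The Newton polygon depends only on the norms of the coefficients. -/
theorem g1_np_congr (p : ℕ) {K : Type*} [NormedField K] {a b : ℕ → K}
    (h : ∀ i, ‖a i‖ = ‖b i‖) : newtonPolygon p a = newtonPolygon p b := by
  have h1 : ∀ α β : ℝ, IsMinorant p a α β ↔ IsMinorant p b α β := by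
    intro α β
    unfold IsMinorant
    refine forall_congr' fun i => ?_
    rw [← norm_ne_zero_iff, ← norm_ne_zero_iff (a := b i), h i]
  funext x
  unfold newtonPolygon
  simp only [h1]

theorem g1_le_np (p : ℕ) {K : Type*} [NormedField K] {a : ℕ → K} {α β : ℝ}
    (h : IsMinorant p a α β) (x : ℝ) : ((α * x + β : ℝ) : EReal) ≤ newtonPolygon p a x := by
  unfold newtonPolygon
  exact le_iSup_of_le α (le_iSup_of_le β (le_iSup_of_le h le_rfl))

theorem g1_np_le (p : ℕ) {K : Type*} [NormedField K] {a : ℕ → K} {i : ℕ} (h : a i ≠ 0) :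
    newtonPolygon p a i ≤ ((- Real.logb p ‖a i‖ : ℝ) : EReal) := by
  unfold newtonPolygon
  refine iSup_le fun α => iSup_le fun β => iSup_le fun h1 => ?_
  exact EReal.coe_le_coe_iff.2 (h1 i h)

/-- A strict vertex of the Newton polygon of `b` is a point of any series with the same
polygon. -/
theorem g1_vertex {K : Type*} [NormedField K] {a b : ℕ → K}
    (h : newtonPolygon 2 a = newtonPolygon 2 b) {n : ℕ} (hb : b n ≠ 0) {α ε : ℝ} (hε : 0 < ε)
    (hv : ∀ i : ℕ, b i ≠ 0 → - Real.logb 2 ‖b n‖ + α * ((i : ℝ) - n) + ε * |(i : ℝ) - n| ≤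
      - Real.logb 2 ‖b i‖) : ‖a n‖ = ‖b n‖ := by
  obtain ⟨g, hg⟩ : ∃ g : ℝ, g = - Real.logb 2 ‖b n‖ := ⟨_, rfl⟩
  rw [← hg] at hv
  have hlog : ∀ x : ℝ, Real.logb ((2 : ℕ) : ℝ) x = Real.logb 2 x := fun x => by norm_num
  -- three minorants of `b`
  have hmp : IsMinorant 2 b (α + ε) (g - (α + ε) * n) := by
    intro i hi
    rw [hlog]
    refine le_trans ?_ (hv i hi)
    have h1 := mul_le_mul_of_nonneg_left (le_abs_self ((i : ℝ) - n)) hε.le
    linarith
  have hmm : IsMinorant 2 b (α - ε) (g - (α - ε) * n) := by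
    intro i hi
    rw [hlog]
    refine le_trans ?_ (hv i hi)
    have h1 := mul_le_mul_of_nonneg_left (neg_abs_le ((i : ℝ) - n)) hε.le
    linarith
  have hnb : newtonPolygon 2 b n ≤ ((g : ℝ) : EReal) := by
    have h1 := g1_np_le 2 hb
    rw [hlog, ← hg] at h1
    exact h1
  -- lower bounds for `a`
  have hai : ∀ i : ℕ, a i ≠ 0 → g + α * ((i : ℝ) - n) + ε * |(i : ℝ) - n| ≤
      - Real.logb 2 ‖a i‖ := by
    intro i hi
    have h1 := g1_np_le 2 hi
    rw [hlog, h] at h1
    rcases le_total (n : ℝ) i with h2 | h2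
    · have h3 := (g1_le_np 2 hmp i).trans h1
      rw [EReal.coe_le_coe_iff] at h3
      rw [abs_of_nonneg (by linarith)]
      linarith
    · have h3 := (g1_le_np 2 hmm i).trans h1
      rw [EReal.coe_le_coe_iff] at h3
      rw [abs_of_nonpos (by linarith)]
      linarith
  have hint : ∀ i : ℕ, i ≠ n → 1 ≤ |(i : ℝ) - n| := by
    intro i hi
    have h1 : (i : ℤ) - n ≠ 0 := by omega
    have h2 : 1 ≤ |(i : ℤ) - n| := Int.one_le_abs h1
    exact_mod_cast h2
  -- the value at `n`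
  have han : a n ≠ 0 := by
    intro h0
    have hmin : IsMinorant 2 a α (g + ε - α * n) := by
      intro i hi
      have hin : i ≠ n := fun h1 => hi (h1 ▸ h0)
      rw [hlog]
      refine le_trans ?_ (hai i hi)
      have h1 := mul_le_mul_of_nonneg_left (hint i hin) hε.le
      linarith
    have h1 := (g1_le_np 2 hmin n).trans (h ▸ hnb)
    rw [EReal.coe_le_coe_iff] at h1
    linarith
  have hge : g ≤ - Real.logb 2 ‖a n‖ := by
    have h1 := hai n han
    simp only [sub_self, mul_zero, abs_zero, add_zero] at h1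
    exact h1
  have hle : - Real.logb 2 ‖a n‖ ≤ g := by
    by_contra hlt
    push Not at hlt
    obtain ⟨δ, hδ⟩ : ∃ δ : ℝ, δ = min ε (- Real.logb 2 ‖a n‖ - g) := ⟨_, rfl⟩
    have hδ0 : 0 < δ := hδ ▸ lt_min hε (by linarith)
    have hδ1 : δ ≤ ε := hδ ▸ min_le_left _ _
    have hδ2 : δ ≤ - Real.logb 2 ‖a n‖ - g := hδ ▸ min_le_right _ _
    have hmin : IsMinorant 2 a α (g + δ - α * n) := by
      intro i hi
      rw [hlog]
      by_cases hin : i = n
      · subst hin
        linarith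
      · refine le_trans ?_ (hai i hi)
        have h1 := mul_le_mul_of_nonneg_left (hint i hin) hε.le
        linarith
    have h1 := (g1_le_np 2 hmin n).trans (h ▸ hnb)
    rw [EReal.coe_le_coe_iff] at h1
    linarith
  have heq : Real.logb 2 ‖a n‖ = Real.logb 2 ‖b n‖ := by linarith
  have h1 : (0 : ℝ) < ‖a n‖ := norm_pos_iff.2 han
  have h2 : (0 : ℝ) < ‖b n‖ := norm_pos_iff.2 hb
  exact Real.logb_injOn_pos (by norm_num) (Set.mem_Ioi.2 h1) (Set.mem_Ioi.2 h2) heq

/-- Triangular case: if `‖b i‖ ≤ 8^(-i(i+1)/2)` for all `i`, with near equality at `n`, then `n`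
is a vertex. -/
theorem g1_tri {K : Type*} [NormedField K] {a b : ℕ → K}
    (h : newtonPolygon 2 a = newtonPolygon 2 b) (hb1 : ∀ i, ‖b i‖ ≤ (1 / 8) ^ (i * (i + 1) / 2))
    {n : ℕ} (hb : (1 / 8) ^ (n * (n + 1) / 2) * (3 / 4) ≤ ‖b n‖) : ‖a n‖ = ‖b n‖ := by
  have hT : ∀ i : ℕ, ((i * (i + 1) / 2 : ℕ) : ℝ) = (i : ℝ) * (i + 1) / 2 := by
    intro i
    rw [Nat.cast_div (Nat.even_mul_succ_self i).two_dvd (by norm_num)]
    push_cast
    ring
  have h8 : ∀ k : ℕ, Real.logb 2 ((1 / 8) ^ k) = -(3 * k) := by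
    intro k
    rw [Real.logb_pow]
    have : Real.logb 2 (1 / 8) = -3 := by
      rw [show (1 / 8 : ℝ) = (2 ^ 3)⁻¹ by norm_num, Real.logb_inv, Real.logb_pow,
        Real.logb_self_eq_one (by norm_num)]
      norm_num
    rw [this]
    ring
  have h34 : -(1 / 2) ≤ Real.logb 2 (3 / 4) := by
    have h1 : Real.logb 2 (1 / 2) ≤ Real.logb 2 ((3 / 4) ^ 2) :=
      Real.logb_le_logb_of_le (by norm_num) (by norm_num) (by norm_num)
    rw [Real.logb_pow] at h1
    have h2 : Real.logb 2 (1 / 2) = -1 := by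
      rw [one_div, Real.logb_inv, Real.logb_self_eq_one (by norm_num)]
    rw [h2] at h1
    push_cast at h1
    linarith
  have hpos : ∀ k : ℕ, (0 : ℝ) < (1 / 8) ^ k := fun k => by positivity
  have hbn : 0 < ‖b n‖ := lt_of_lt_of_le (by have := hpos (n * (n + 1) / 2); positivity) hb
  have hbn0 : b n ≠ 0 := norm_pos_iff.1 hbn
  have hvn : - Real.logb 2 ‖b n‖ ≤ 3 * ((n : ℝ) * (n + 1) / 2) + 1 / 2 := by
    have h1 := Real.logb_le_logb_of_le (b := 2) (by norm_num)
      (by have := hpos (n * (n + 1) / 2); positivity) hb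
    rw [Real.logb_mul (hpos _).ne' (by norm_num), h8, hT] at h1
    linarith
  refine g1_vertex h hbn0 (α := 3 / 2 * (2 * n + 1)) (ε := 1) one_pos fun i hi => ?_
  by_cases hin : i = n
  · subst hin
    simp
  · have hi0 : 0 < ‖b i‖ := norm_pos_iff.2 hi
    have hvi : 3 * ((i : ℝ) * (i + 1) / 2) ≤ - Real.logb 2 ‖b i‖ := by
      have h1 := Real.logb_le_logb_of_le (b := 2) (by norm_num) hi0 (hb1 i)
      rw [h8, hT] at h1
      linarith
    have h1 : 1 ≤ |(i : ℝ) - n| := by
      have h1 : (i : ℤ) - n ≠ 0 := by omega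
      have h2 : 1 ≤ |(i : ℤ) - n| := Int.one_le_abs h1
      exact_mod_cast h2
    have h2 : ((i : ℝ) - n) ^ 2 = |(i : ℝ) - n| ^ 2 := (sq_abs _).symm
    have h3 : 3 * ((i : ℝ) * (i + 1) / 2) = 3 * ((n : ℝ) * (n + 1) / 2) +
        3 / 2 * (2 * n + 1) * ((i : ℝ) - n) + 3 / 2 * ((i : ℝ) - n) ^ 2 := by ring
    nlinarith

end GH
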