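import Pool.Agent.GH.ExtA
import Pool.Agent.GH.GhostVal
import Pool.Agent.GH.Param

/-!
# Ghost conjecture: from the central disc to the whole weight disc, p-adic lemmas
-/

open PowerSeries Filter Topology

noncomputable section

namespace GH

/-! ### ultrametric lemmas -/

theorem g1_iota_norm (z : ℤ_[2]) : ‖iota z‖ = ‖z‖ := by
  unfold iota
  have h := PadicComplex.norm_extends' 2 (z : ℚ_[2])
  rw [PadicInt.padic_norm_e_of_padicInt] at h
  exact h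

theorem g1_sub_left {x y : C2} (h : ‖y‖ < ‖x‖) : ‖x - y‖ = ‖x‖ := by
  rw [sub_eq_add_neg, IsUltrametricDist.norm_add_eq_max_of_norm_ne_norm
    (by rw [norm_neg]; exact h.ne'), norm_neg, max_eq_left h.le]

theorem g1_sub_right {x y : C2} (h : ‖x‖ < ‖y‖) : ‖x - y‖ = ‖y‖ := by
  rw [norm_sub_rev, g1_sub_left h]

theorem g1_sub_le {x y : C2} {C : ℝ} (hx : ‖x‖ ≤ C) (hy : ‖y‖ ≤ C) : ‖x - y‖ ≤ C := by
  rw [sub_eq_add_neg]
  refine (IsUltrametricDist.norm_add_le_max x (-y)).trans (max_le hx ?_)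
  rwa [norm_neg]

theorem g1_norm_eq {x y : C2} (h : ‖x - y‖ < ‖x‖) : ‖y‖ = ‖x‖ := by
  have h1 : y = x - (x - y) := by ring
  rw [h1, g1_sub_left h]

theorem g1_norm_eq' {x y : C2} (h : ‖x - y‖ < ‖y‖) : ‖x‖ = ‖y‖ := by
  rw [norm_sub_rev] at h
  exact g1_norm_eq h

theorem g1_hasSum_le {f : ℕ → C2} {S : C2} (h : HasSum f S) {C : ℝ} (hC : 0 ≤ C)
    (hf : ∀ n, ‖f n‖ ≤ C) : ‖S‖ ≤ C := by
  have h1 : Tendsto (fun s : Finset ℕ => ‖∑ n ∈ s, f n‖) atTop (𝓝 ‖S‖) := h.norm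
  refine le_of_tendsto' h1 fun s => ?_
  exact IsUltrametricDist.norm_sum_le_of_forall_le_of_nonneg hC fun n _ => hf n

theorem g1_norm_nat (m : ℕ) : ‖(m : C2)‖ = ‖(m : ℤ_[2])‖ := by
  rw [← g1_iota_norm, map_natCast]

theorem g1_norm_nat_le (m : ℕ) : ‖(m : C2)‖ ≤ 1 := by
  rw [g1_norm_nat]
  exact PadicInt.norm_le_one _

theorem g1_norm_two : ‖(2 : C2)‖ = 1 / 2 := by
  have h := g1_norm_nat 2
  have h2 := PadicInt.norm_p (p := 2)
  push_cast at h h2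
  rw [h, h2]
  norm_num

theorem g1_norm_eight : ‖(8 : C2)‖ = 1 / 8 := by
  rw [show (8 : C2) = 2 ^ 3 by norm_num, norm_pow, g1_norm_two]
  norm_num

theorem g1_norm_even {m : ℕ} (h : Even m) : ‖(m : C2)‖ ≤ 1 / 2 := by
  obtain ⟨k, rfl⟩ := h
  rw [← two_mul, Nat.cast_mul, norm_mul, Nat.cast_ofNat, g1_norm_two]
  have := g1_norm_nat_le k
  linarith

theorem g1_norm_odd {m : ℕ} (h : Odd m) : ‖(m : C2)‖ = 1 := by
  obtain ⟨k, rfl⟩ := h
  have h1 : ((2 * k + 1 : ℕ) : C2) = 1 - -((2 * k : ℕ) : C2) := by push_cast; ring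
  rw [h1, g1_sub_left, norm_one]
  rw [norm_neg, norm_one]
  exact lt_of_le_of_lt (g1_norm_even ⟨k, by ring⟩) (by norm_num)

theorem g1_norm_three : ‖(3 : C2)‖ = 1 := by
  have h := g1_norm_odd (m := 3) (by decide)
  exact_mod_cast h

/-! ### evaluation -/

theorem g1_term_le (F : Lam) (w : C2) (n : ℕ) :
    ‖iota (PowerSeries.coeff n F) * w ^ n‖ = ‖PowerSeries.coeff n F‖ * ‖w‖ ^ n := by
  rw [norm_mul, norm_pow, g1_iota_norm]

theorem g1_hasSum (F : Lam) {w : C2} (hw : ‖w‖ < 1) :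
    HasSum (fun n => iota (PowerSeries.coeff n F) * w ^ n) (ev w F) := by
  refine Summable.hasSum ?_
  refine Summable.of_norm_bounded (g := fun n => ‖w‖ ^ n)
    (summable_geometric_of_lt_one (norm_nonneg _) hw) fun n => ?_
  rw [g1_term_le]
  exact mul_le_of_le_one_left (pow_nonneg (norm_nonneg _) _) (PadicInt.norm_le_one _)

/-- The value, up to an error smaller than the term of index `l`. -/
theorem g1_ev_sub_sum (F : Lam) {w : C2} (hw : ‖w‖ < 1) (l : ℕ) :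
    ‖ev w F - ∑ m ∈ Finset.range (l + 1), iota (PowerSeries.coeff m F) * w ^ m‖ ≤
      ‖w‖ ^ (l + 1) := by
  have h1 := g1_hasSum F hw
  have h2 := (hasSum_nat_add_iff' (l + 1)).2 h1
  refine g1_hasSum_le h2 (pow_nonneg (norm_nonneg _) _) fun n => ?_
  rw [g1_term_le]
  calc ‖PowerSeries.coeff (n + (l + 1)) F‖ * ‖w‖ ^ (n + (l + 1)) ≤ 1 * ‖w‖ ^ (n + (l + 1)) :=
        mul_le_mul_of_nonneg_right (PadicInt.norm_le_one _) (pow_nonneg (norm_nonneg _) _)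
    _ = ‖w‖ ^ (n + (l + 1)) := one_mul _
    _ ≤ ‖w‖ ^ (l + 1) := pow_le_pow_of_le_one (norm_nonneg _) hw.le (by omega)

/-- Outside the central disc the term of index `l` dominates. -/
theorem g1_ev_outer (F : Lam) {l : ℕ}
    (h1 : ∀ m < l, ‖PowerSeries.coeff m F‖ ≤ 8 ^ m * (1 / 8) ^ l)
    (h2 : ‖PowerSeries.coeff l F‖ = 1) {w : C2} (hw : 1 / 8 < ‖w‖) (hw1 : ‖w‖ < 1) :
    ‖ev w F‖ = ‖w‖ ^ l := by
  have hw0 : 0 < ‖w‖ := by linarith
  have hS := g1_hasSum F hw1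
  have hL : HasSum (fun n => if n = l then iota (PowerSeries.coeff l F) * w ^ l else 0)
      (iota (PowerSeries.coeff l F) * w ^ l) := hasSum_ite_eq l _
  have hD := hS.sub hL
  obtain ⟨θ, hθ⟩ : ∃ θ : ℝ, θ = max (1 / (8 * ‖w‖)) ‖w‖ := ⟨_, rfl⟩
  have hθ1 : θ < 1 := by
    rw [hθ]
    refine max_lt ?_ hw1
    rw [div_lt_one (by positivity)]
    linarith
  have hθa : 1 / (8 * ‖w‖) ≤ θ := hθ ▸ le_max_left _ _
  have hθb : ‖w‖ ≤ θ := hθ ▸ le_max_right _ _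
  have hθ0 : 0 ≤ θ := hw0.le.trans hθb
  have hlt : ‖ev w F - iota (PowerSeries.coeff l F) * w ^ l‖ ≤ θ * ‖w‖ ^ l := by
    refine g1_hasSum_le hD (by positivity) fun m => ?_
    rcases lt_trichotomy m l with h | h | h
    · rw [if_neg h.ne, sub_zero, g1_term_le]
      have h3 : ‖PowerSeries.coeff m F‖ * ‖w‖ ^ m ≤ 8 ^ m * (1 / 8) ^ l * ‖w‖ ^ m :=
        mul_le_mul_of_nonneg_right (h1 m h) (by positivity)
      refine h3.trans ?_
      obtain ⟨d, rfl⟩ := Nat.exists_eq_add_of_lt h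
      have h4 : (8 : ℝ) ^ m * (1 / 8) ^ (m + d + 1) * ‖w‖ ^ m =
          (1 / (8 * ‖w‖)) ^ (d + 1) * ‖w‖ ^ (m + d + 1) := by
        rw [div_pow, div_pow, mul_pow, one_pow, one_pow]
        field_simp
        rw [pow_add, pow_add, pow_add, pow_add]
        ring
      rw [h4]
      refine mul_le_mul_of_nonneg_right ?_ (by positivity)
      have h5 : 1 / (8 * ‖w‖) ≤ 1 := hθa.trans hθ1.le
      calc (1 / (8 * ‖w‖)) ^ (d + 1) ≤ (1 / (8 * ‖w‖)) ^ 1 :=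
            pow_le_pow_of_le_one (by positivity) h5 (by omega)
        _ = 1 / (8 * ‖w‖) := pow_one _
        _ ≤ θ := hθa
    · subst h
      rw [if_pos rfl, sub_self, norm_zero]
      positivity
    · rw [if_neg h.ne', sub_zero, g1_term_le]
      calc ‖PowerSeries.coeff m F‖ * ‖w‖ ^ m ≤ 1 * ‖w‖ ^ m :=
            mul_le_mul_of_nonneg_right (PadicInt.norm_le_one _) (by positivity)
        _ = ‖w‖ ^ m := one_mul _
        _ ≤ ‖w‖ ^ (l + 1) := pow_le_pow_of_le_one hw0.le hw1.le (by omega)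
        _ = ‖w‖ * ‖w‖ ^ l := by ring
        _ ≤ θ * ‖w‖ ^ l := mul_le_mul_of_nonneg_right hθb (by positivity)
  have hn : ‖iota (PowerSeries.coeff l F) * w ^ l‖ = ‖w‖ ^ l := by
    rw [g1_term_le, h2, one_mul]
  have h3 : 0 < ‖w‖ ^ l := by positivity
  rw [← hn]
  refine g1_norm_eq' (lt_of_le_of_lt hlt ?_)
  rw [hn]
  nlinarith

/-! ### elements of norm close to one -/

theorem g1_exists_norm {p : ℝ → Prop} (hp : ∀ᶠ r in 𝓝 (1 : ℝ), p r) :
    ∃ z : C2, 0 < ‖z‖ ∧ ‖z‖ < 1 ∧ p ‖z‖ := by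
  have h1 : Tendsto (fun N : ℕ => (1 / 2 : ℝ) ^ (1 / ((N : ℝ) + 1))) atTop (𝓝 1) := by
    have h2 : Tendsto (fun N : ℕ => 1 / ((N : ℝ) + 1)) atTop (𝓝 0) :=
      tendsto_one_div_add_atTop_nhds_zero_nat
    have h3 := ((Real.continuous_const_rpow (a := (1 / 2 : ℝ)) (by norm_num)).tendsto 0).comp h2
    rwa [Real.rpow_zero] at h3
  obtain ⟨N, hN⟩ := (h1.eventually hp).exists
  obtain ⟨z, hz⟩ := IsAlgClosed.exists_pow_nat_eq (2 : C2) (Nat.succ_pos N)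
  have hz1 : ‖z‖ ^ (N + 1) = 1 / 2 := by
    rw [← norm_pow, hz, g1_norm_two]
  have hz2 : ‖z‖ = (1 / 2 : ℝ) ^ (1 / ((N : ℝ) + 1)) := by
    have h4 := Real.pow_rpow_inv_natCast (norm_nonneg z) (Nat.succ_ne_zero N)
    rw [Nat.succ_eq_add_one, hz1] at h4
    rw [← h4]
    push_cast
    rw [one_div ((N : ℝ) + 1)]
  refine ⟨z, ?_, ?_, ?_⟩
  · rw [hz2]; positivity
  · rw [hz2]
    exact Real.rpow_lt_one (by norm_num) (by norm_num) (by positivity)
  · rw [hz2]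
    exact hN

/-! ### the ghost coefficient near the points `0` and `1` -/

/-- the part of the multiplicities at even points -/
def g1A (n : ℕ) : ℕ := ∑ m ∈ Finset.range (6 * n + 2), if Even m then mult 2 n (2 * m) else 0

/-- the part of the multiplicities at odd points -/
def g1B (n : ℕ) : ℕ := ∑ m ∈ Finset.range (6 * n + 2), if Even m then 0 else mult 2 n (2 * m)

theorem g1_AB (n : ℕ) : g1A n + g1B n = n * (n + 1) / 2 := by
  rw [← sum_mult n]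
  unfold g1A g1B
  rw [← Finset.sum_add_distrib]
  refine Finset.sum_congr rfl fun m _ => ?_
  split_ifs <;> simp

theorem g1_ghost {x : C2} (hx : ‖x‖ ≤ 1) {ρ σ : ℝ} (he : ∀ m : ℕ, Even m → ‖x - m‖ = ρ)
    (ho : ∀ m : ℕ, ¬ Even m → ‖x - m‖ = σ) (n : ℕ) :
    ‖ghost 2 (wx x) n‖ = (1 / 8) ^ (n * (n + 1) / 2) * (ρ ^ g1A n * σ ^ g1B n) := by
  rw [norm_ghost_wx hx, ← sum_mult n]
  unfold g1A g1B
  rw [← Finset.prod_pow_eq_pow_sum, ← Finset.prod_pow_eq_pow_sum, ← Finset.prod_pow_eq_pow_sum,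
    ← Finset.prod_mul_distrib, ← Finset.prod_mul_distrib]
  refine Finset.prod_congr rfl fun m _ => ?_
  by_cases hm : Even m
  · rw [if_pos hm, if_pos hm, he m hm, div_eq_mul_one_div, mul_pow, pow_zero, mul_one, mul_comm]
  · rw [if_neg hm, if_neg hm, ho m hm, div_eq_mul_one_div, mul_pow, pow_zero, one_mul, mul_comm]

theorem g1_ghost_le {x : C2} (hx : ‖x‖ ≤ 1) (n : ℕ) :
    ‖ghost 2 (wx x) n‖ ≤ (1 / 8) ^ (n * (n + 1) / 2) := by
  rw [norm_ghost_wx hx, ← sum_mult n, ← Finset.prod_pow_eq_pow_sum]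
  refine Finset.prod_le_prod (fun m _ => by positivity) fun m _ => ?_
  refine pow_le_pow_left₀ (by positivity) ?_ _
  have h1 : ‖x - m‖ ≤ 1 := g1_sub_le hx (g1_norm_nat_le m)
  linarith

end GH
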