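import Pool.Agent.GH.ExtB

/-!
# Ghost conjecture: from the central disc to the whole weight disc, counting zeros
-/

open PowerSeries Filter Topology

noncomputable section

namespace GH

open Classical in
/-- the model of `‖y - r‖` -/
def g1f (s t : ℝ) (r : C2) : ℝ := if ‖r‖ < 1 then s else if ‖r - 3‖ < 1 then t else ‖r‖

open Classical in
/-- the number of roots near `0` -/
def g1N0 (R : Multiset C2) : ℕ := R.countP fun r => ‖r‖ < 1

open Classical in
/-- the number of roots near `3` -/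
def g1N1 (R : Multiset C2) : ℕ := R.countP fun r => ¬ ‖r‖ < 1 ∧ ‖r - 3‖ < 1

theorem g1_prod (s t : ℝ) (R : Multiset C2) : (R.map (g1f s t)).prod =
    s ^ g1N0 R * t ^ g1N1 R * (R.map (g1f 1 1)).prod := by
  induction R using Multiset.induction_on with
  | empty => simp [g1N0, g1N1]
  | cons r R ih =>
    rw [Multiset.map_cons, Multiset.prod_cons, ih, Multiset.map_cons, Multiset.prod_cons]
    unfold g1N0 g1N1 g1f
    by_cases h1 : ‖r‖ < 1
    · rw [Multiset.countP_cons_of_pos (p := fun r : C2 => ‖r‖ < 1) _ h1,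
        Multiset.countP_cons_of_neg (p := fun r : C2 => ¬ ‖r‖ < 1 ∧ ‖r - 3‖ < 1) _
          (fun h => h.1 h1), if_pos h1, if_pos h1, pow_succ]
      ring
    · by_cases h2 : ‖r - 3‖ < 1
      · rw [Multiset.countP_cons_of_neg (p := fun r : C2 => ‖r‖ < 1) _ h1,
          Multiset.countP_cons_of_pos (p := fun r : C2 => ¬ ‖r‖ < 1 ∧ ‖r - 3‖ < 1) _ ⟨h1, h2⟩,
          if_neg h1, if_neg h1, if_pos h2, if_pos h2, pow_succ]
        ring
      · rw [Multiset.countP_cons_of_neg (p := fun r : C2 => ‖r‖ < 1) _ h1,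
          Multiset.countP_cons_of_neg (p := fun r : C2 => ¬ ‖r‖ < 1 ∧ ‖r - 3‖ < 1) _
            (fun h => h2 h.2), if_neg h1, if_neg h1, if_neg h2, if_neg h2]
        ring

theorem g1_card (R : Multiset C2) : g1N0 R + g1N1 R ≤ R.card ∧
    (R.card = g1N0 R + g1N1 R → (R.map (g1f 1 1)).prod = 1) := by
  induction R using Multiset.induction_on with
  | empty => simp [g1N0, g1N1]
  | cons r R ih =>
    rw [Multiset.map_cons, Multiset.prod_cons, Multiset.card_cons]
    obtain ⟨ih1, ih2⟩ := ih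
    by_cases h1 : ‖r‖ < 1
    · have e0 : g1N0 (r ::ₘ R) = g1N0 R + 1 := Multiset.countP_cons_of_pos _ h1
      have e1 : g1N1 (r ::ₘ R) = g1N1 R := Multiset.countP_cons_of_neg _ (fun h => h.1 h1)
      have ef : g1f 1 1 r = 1 := by unfold g1f; rw [if_pos h1]
      rw [e0, e1, ef, one_mul]
      exact ⟨by omega, fun h => ih2 (by omega)⟩
    · by_cases h2 : ‖r - 3‖ < 1
      · have e0 : g1N0 (r ::ₘ R) = g1N0 R := Multiset.countP_cons_of_neg _ h1
        have e1 : g1N1 (r ::ₘ R) = g1N1 R + 1 := Multiset.countP_cons_of_pos _ ⟨h1, h2⟩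
        have ef : g1f 1 1 r = 1 := by unfold g1f; rw [if_neg h1, if_pos h2]
        rw [e0, e1, ef, one_mul]
        exact ⟨by omega, fun h => ih2 (by omega)⟩
      · have e0 : g1N0 (r ::ₘ R) = g1N0 R := Multiset.countP_cons_of_neg _ h1
        have e1 : g1N1 (r ::ₘ R) = g1N1 R := Multiset.countP_cons_of_neg _ (fun h => h2 h.2)
        rw [e0, e1]
        exact ⟨by omega, fun h => by omega⟩

theorem g1_eval (P : Polynomial C2) (y : C2) :
    ‖P.eval y‖ = ‖P.leadingCoeff‖ * (P.roots.map fun r => ‖y - r‖).prod := by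
  rw [(IsAlgClosed.splits P).eval_eq_prod_roots y, norm_mul]
  congr 1
  induction P.roots using Multiset.induction_on with
  | empty => simp
  | cons r R ih => simp only [Multiset.map_cons, Multiset.prod_cons, norm_mul, ih]

theorem g1_eval_of (P : Polynomial C2) (y : C2) {s t : ℝ}
    (h : ∀ r ∈ P.roots, ‖y - r‖ = g1f s t r) : ‖P.eval y‖ =
      ‖P.leadingCoeff‖ * (s ^ g1N0 P.roots * t ^ g1N1 P.roots * (P.roots.map (g1f 1 1)).prod) := by
  rw [g1_eval, ← g1_prod, Multiset.map_congr rfl h]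

/-- Counting the zeros of a polynomial in the two residue discs. -/
theorem g1_poly (P : Polynomial C2) {l A B : ℕ} (hdeg : P.natDegree ≤ l) (hAB : A + B = l)
    {c : ℝ} (hc : 0 < c) (h0 : ∀ y : C2, ‖y‖ = 1 → ‖y - 3‖ = 1 → ‖P.eval y‖ = c)
    (hA : ∀ᶠ r in 𝓝 (1 : ℝ), ∀ y : C2, ‖y‖ = r → r < 1 → ‖P.eval y‖ = c * r ^ A)
    (hB : ∀ᶠ r in 𝓝 (1 : ℝ), ∀ y : C2, ‖y - 3‖ = r → r < 1 → ‖P.eval y‖ = c * r ^ B)
    (hgen : ∃ y : C2, ‖y‖ = 1 ∧ ‖y - 3‖ = 1) : ‖P.coeff l‖ = c := by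
  classical
  obtain ⟨y0, hy0, hy03⟩ := hgen
  have hroot : ∀ r ∈ P.roots, ‖r‖ < 1 ∨ (¬ ‖r‖ < 1 ∧ ‖r - 3‖ < 1) ∨
      (¬ ‖r‖ < 1 ∧ ¬ ‖r - 3‖ < 1 ∧ 1 < ‖r‖) := by
    intro r hr
    by_cases h1 : ‖r‖ < 1
    · exact Or.inl h1
    · by_cases h2 : ‖r - 3‖ < 1
      · exact Or.inr (Or.inl ⟨h1, h2⟩)
      · refine Or.inr (Or.inr ⟨h1, h2, ?_⟩)
        by_contra h3
        have h4 : ‖r‖ = 1 := le_antisymm (not_lt.1 h3) (not_lt.1 h1)
        have h5 : ‖r - 3‖ = 1 :=
          le_antisymm (g1_sub_le h4.le g1_norm_three.le) (not_lt.1 h2)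
        have h6 := h0 r h4 h5
        have h7 : P.eval r = 0 := (Polynomial.mem_roots'.1 hr).2
        rw [h7, norm_zero] at h6
        exact hc.ne h6
  -- the generic point
  have hg := g1_eval_of P y0 (s := 1) (t := 1) (by
    intro r hr
    unfold g1f
    rcases hroot r hr with h | ⟨h, h'⟩ | ⟨h, h', h''⟩
    · rw [if_pos h, g1_sub_left (by rw [hy0]; exact h), hy0]
    · rw [if_neg h, if_pos h']
      have h1 : y0 - r = (y0 - 3) - (r - 3) := by ring
      rw [h1, g1_sub_left (by rw [hy03]; exact h'), hy03]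
    · rw [if_neg h, if_neg h', g1_sub_right (by rw [hy0]; exact h'')])
  rw [h0 y0 hy0 hy03, one_pow, one_pow, one_mul, one_mul] at hg
  obtain ⟨M, hM⟩ : ∃ M : ℝ, M = ‖P.leadingCoeff‖ * (P.roots.map (g1f 1 1)).prod := ⟨_, rfl⟩
  -- near `0`
  have hN0 : A = g1N0 P.roots := by
    have hev : ∀ᶠ r in 𝓝 (1 : ℝ), ∀ x ∈ P.roots.toFinset, ‖x‖ < 1 → ‖x‖ < r := by
      rw [Filter.eventually_all_finset]
      intro x _
      by_cases hx : ‖x‖ < 1
      · filter_upwards [lt_mem_nhds hx] with r hr _ using hr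
      · exact Filter.Eventually.of_forall fun r h => absurd h hx
    obtain ⟨z, hz0, hz1, hzA, hzr⟩ := g1_exists_norm (hA.and hev)
    have h1 := hzA z rfl hz1
    have h2 := g1_eval_of P z (s := ‖z‖) (t := 1) (by
      intro r hr
      unfold g1f
      rcases hroot r hr with h | ⟨h, h'⟩ | ⟨h, h', h''⟩
      · rw [if_pos h, g1_sub_left (hzr r (Multiset.mem_toFinset.2 hr) h)]
      · rw [if_neg h, if_pos h']
        have h3 : ‖r‖ = 1 := by
          have h4 := g1_norm_eq' (x := r) (y := 3) (by rw [g1_norm_three]; exact h')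
          rw [h4, g1_norm_three]
        rw [g1_sub_right (by rw [h3]; exact hz1), h3]
      · rw [if_neg h, if_neg h', g1_sub_right (hz1.trans h'')])
    rw [h1, one_pow, mul_one, mul_left_comm, ← hg, mul_comm] at h2
    exact pow_right_injective₀ hz0 hz1.ne (mul_right_cancel₀ hc.ne' h2)
  -- near `3`
  have hN1 : B = g1N1 P.roots := by
    have hev : ∀ᶠ r in 𝓝 (1 : ℝ), ∀ x ∈ P.roots.toFinset, ‖x - 3‖ < 1 → ‖x - 3‖ < r := by
      rw [Filter.eventually_all_finset]
      intro x _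
      by_cases hx : ‖x - 3‖ < 1
      · filter_upwards [lt_mem_nhds hx] with r hr _ using hr
      · exact Filter.Eventually.of_forall fun r h => absurd h hx
    obtain ⟨z, hz0, hz1, hzB, hzr⟩ := g1_exists_norm (hB.and hev)
    have hz3 : ‖(z + 3) - 3‖ = ‖z‖ := by rw [add_sub_cancel_right]
    have hz3n : ‖z + 3‖ = 1 := by
      have h4 := g1_norm_eq' (x := z + 3) (y := 3) (by rw [hz3, g1_norm_three]; exact hz1)
      rw [h4, g1_norm_three]
    have h1 := hzB (z + 3) hz3 hz1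
    have h2 := g1_eval_of P (z + 3) (s := 1) (t := ‖z‖) (by
      intro r hr
      unfold g1f
      rcases hroot r hr with h | ⟨h, h'⟩ | ⟨h, h', h''⟩
      · rw [if_pos h, g1_sub_left (by rw [hz3n]; exact h), hz3n]
      · rw [if_neg h, if_pos h']
        have h3 : z + 3 - r = z - (r - 3) := by ring
        rw [h3, g1_sub_left (hzr r (Multiset.mem_toFinset.2 hr) h')]
      · rw [if_neg h, if_neg h', g1_sub_right (by rw [hz3n]; exact h'')])
    rw [h1, one_pow, one_mul, mul_left_comm, ← hg, mul_comm] at h2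
    exact pow_right_injective₀ hz0 hz1.ne (mul_right_cancel₀ hc.ne' h2)
  have hcard : P.roots.card = P.natDegree :=
    ((IsAlgClosed.splits P).natDegree_eq_card_roots).symm
  obtain ⟨h1, h2⟩ := g1_card P.roots
  have h3 : P.roots.card = g1N0 P.roots + g1N1 P.roots := by omega
  have h4 : P.natDegree = l := by omega
  rw [h2 h3, mul_one] at hg
  rw [hg, Polynomial.leadingCoeff, h4]

end GH
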