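import Pool.Agent.GH.D5.Main5
import Pool.Agent.GH.M5.Final

/-!
# The ghost conjecture for `p = 5`, `N = 1`
-/

namespace GH

theorem ghostConjectureU_five : GhostConjectureU 5 :=
  D5.ghost5_of_central M5.central5'

end GH
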