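import Pool.Agent.GH.UDet

/-!
# Project GH (MP_370013_nt): Fredholm coefficients of infinite matrices
over a complete ultrametric ring
-/

set_option autoImplicit false

open Filter Topology

namespace GH

variable {α : Type*} [DecidableEq α]

section def_

variable {R : Type*} [CommRing R]

/-- The principal minor of an infinite matrix with index set `S`. -/
def pmin (M : α → α → R) (S : Finset α) : R := Matrix.det (Matrix.of fun i j : S => M i j)

theorem pmin_empty (M : α → α → R) : pmin M ∅ = 1 := by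
  unfold pmin
  exact Matrix.det_isEmpty

theorem pmin_zero_col (M : α → α → R) (S : Finset α) (j : α) (hj : j ∈ S)
    (h : ∀ i, M i j = 0) : pmin M S = 0 :=
  Matrix.det_eq_zero_of_column_eq_zero (⟨j, hj⟩ : S) fun i => h i

theorem pmin_congr {M M' : α → α → R} {S : Finset α} (h : ∀ i ∈ S, ∀ j ∈ S, M i j = M' i j) :
    pmin M S = pmin M' S := by
  unfold pmin
  congr 1
  ext i j
  exact h i i.2 j j.2

theorem pmin_transpose (M : α → α → R) (S : Finset α) :
    pmin (fun i j => M j i) S = pmin M S := by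
  unfold pmin
  rw [← Matrix.det_transpose]
  rfl

/-- Principal minors do not see a diagonal change of basis. -/
theorem pmin_diag (M : α → α → R) (u v : α → R) (huv : ∀ i, u i * v i = 1) (S : Finset α) :
    pmin (fun i j => u i * M i j * v j) S = pmin M S := by
  unfold pmin
  have h : (Matrix.of fun i j : S => u i * M i j * v j) =
      Matrix.diagonal (fun i : S => u i) * (Matrix.of fun i j : S => M i j) *
        Matrix.diagonal (fun i : S => v i) := by
    ext i j
    simp
  rw [h, Matrix.det_mul, Matrix.det_mul, mul_comm (Matrix.det (Matrix.diagonal _)), mul_assoc,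
    Matrix.det_diagonal, Matrix.det_diagonal, ← Finset.prod_mul_distrib]
  simp [huv]

end def_

section ring

variable {R : Type*} [NormedCommRing R] [NormOneClass R] [IsUltrametricDist R]

/-- `M` is compact for the weights `w`, with column bounds `c`. -/
structure Cpt (w c : α → ℝ) (M : α → α → R) : Prop where
  pos : ∀ i, 0 < w i
  lim : Tendsto c cofinite (𝓝 0)
  le : ∀ i j, w i * ‖M i j‖ ≤ w j * c j

omit [DecidableEq α] [NormOneClass R] [IsUltrametricDist R] in
theorem Cpt.nonneg {w c : α → ℝ} {M : α → α → R} (h : Cpt w c M) (j : α) : 0 ≤ c j :=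
  le_of_mul_le_mul_left ((mul_zero (w j)).le.trans
      ((mul_nonneg (h.pos j).le (norm_nonneg _)).trans (h.le j j))) (h.pos j)

theorem fr_pmin_le {w c : α → ℝ} {M : α → α → R} (h : Cpt w c M) (S : Finset α) :
    ‖pmin M S‖ ≤ ∏ j ∈ S, c j := by
  rw [← Finset.prod_coe_sort]
  exact ud_det_le _ (fun i : S => w i) (fun i => h.pos i) (fun i : S => c i) fun i j => h.le i j

theorem fr_pmin_sub_le {w c : α → ℝ} {M M' : α → α → R} {ε : ℝ} (hε : 0 ≤ ε)
    (hw : ∀ i, 0 < w i) (S : Finset α)
    (hM : ∀ i j, w i * ‖M i j‖ ≤ w j * c j) (hM' : ∀ i j, w i * ‖M' i j‖ ≤ w j * c j)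
    (h : ∀ i j, w i * ‖M i j - M' i j‖ ≤ w j * (ε * c j)) :
    ‖pmin M S - pmin M' S‖ ≤ ε * ∏ j ∈ S, c j := by
  rw [← Finset.prod_coe_sort]
  exact ud_det_sub_le _ _ (fun i : S => w i) (fun i => hw i) (fun i : S => c i) hε
    (fun i j => hM i j) (fun i j => hM' i j) fun i j => h i j

omit [DecidableEq α] in
theorem fr_bdd {c : α → ℝ} (hc : Tendsto c cofinite (𝓝 0)) : ∃ C, 1 ≤ C ∧ ∀ j, c j ≤ C := by
  have h1 : ∀ᶠ i in cofinite, c i < 1 := hc.eventually (gt_mem_nhds one_pos)
  have hfin : {i | ¬ c i < 1}.Finite := h1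
  obtain ⟨D, hD⟩ := (hfin.image c).bddAbove
  refine ⟨max D 1, le_max_right _ _, fun j => ?_⟩
  by_cases hj : c j < 1
  · exact le_max_of_le_right hj.le
  · exact le_max_of_le_left (hD ⟨j, hj, rfl⟩)

/-- The products over the sets of `n` elements tend to zero. -/
theorem fr_prod_tendsto {c : α → ℝ} (hc0 : ∀ j, 0 ≤ c j) (hc : Tendsto c cofinite (𝓝 0)) (n : ℕ) :
    Tendsto (fun S : {S : Finset α // S.card = n} => ∏ j ∈ S.1, c j) cofinite (𝓝 0) := by
  obtain ⟨C, hC1, hC⟩ := fr_bdd hc
  rw [Metric.tendsto_nhds]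
  intro ε hε
  have hCn : 0 < C ^ n := pow_pos (zero_lt_one.trans_le hC1) n
  have h1 : ∀ᶠ i in cofinite, c i < ε / C ^ n := hc.eventually (gt_mem_nhds (div_pos hε hCn))
  have hfin : {i | ¬ c i < ε / C ^ n}.Finite := h1
  have hfin2 : {S : {S : Finset α // S.card = n} | S.1 ⊆ hfin.toFinset}.Finite := by
    apply Set.Finite.of_injOn (f := Subtype.val) (t := (hfin.toFinset.powerset : Set (Finset α)))
    · intro S hS
      simpa using hS
    · exact Subtype.val_injective.injOn
    · exact Finset.finite_toSet _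
  rw [Filter.eventually_cofinite]
  refine hfin2.subset fun S hS => ?_
  simp only [Set.mem_ofPred_eq] at hS ⊢
  intro j hj
  by_contra hj2
  have hj3 : c j < ε / C ^ n := by
    by_contra h
    exact hj2 (by simpa using h)
  apply hS
  rw [Real.dist_eq, sub_zero, abs_of_nonneg (Finset.prod_nonneg fun i _ => hc0 i)]
  rw [← Finset.mul_prod_erase _ _ hj]
  have h2 : ∏ i ∈ S.1.erase j, c i ≤ C ^ n := by
    calc ∏ i ∈ S.1.erase j, c i ≤ ∏ i ∈ S.1.erase j, C :=
          Finset.prod_le_prod (fun i _ => hc0 i) fun i _ => hC i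
      _ = C ^ (S.1.erase j).card := by rw [Finset.prod_const]
      _ ≤ C ^ n := pow_le_pow_right₀ hC1
          ((Finset.card_le_card (Finset.erase_subset _ _)).trans S.2.le)
  calc c j * ∏ i ∈ S.1.erase j, c i ≤ c j * C ^ n := mul_le_mul_of_nonneg_left h2 (hc0 j)
    _ < ε / C ^ n * C ^ n := mul_lt_mul_of_pos_right hj3 hCn
    _ = ε := div_mul_cancel₀ _ hCn.ne'

theorem fr_tendsto {w c : α → ℝ} {M : α → α → R} (h : Cpt w c M) (n : ℕ) :
    Tendsto (fun S : {S : Finset α // S.card = n} => pmin M S.1) cofinite (𝓝 0) :=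
  squeeze_zero_norm (fun S => fr_pmin_le h S.1) (fr_prod_tendsto h.nonneg h.lim n)

/-- The coefficient of `t ^ n` in `det (1 - t M)`. -/
noncomputable def fredCoeff (M : α → α → R) (n : ℕ) : R :=
  (-1) ^ n * ∑' S : {S : Finset α // S.card = n}, pmin M S.1

omit [NormOneClass R] [IsUltrametricDist R] in
theorem fr_norm_neg_one_pow_mul (n : ℕ) (x : R) : ‖(-1) ^ n * x‖ = ‖x‖ := by
  rcases neg_one_pow_eq_or R n with h | h <;> simp [h]

theorem norm_fredCoeff_le {w c : α → ℝ} {M : α → α → R} (h : Cpt w c M) {n : ℕ} {D : ℝ}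
    (hD : 0 ≤ D) (h' : ∀ S : Finset α, S.card = n → ∏ j ∈ S, c j ≤ D) : ‖fredCoeff M n‖ ≤ D := by
  unfold fredCoeff
  rw [fr_norm_neg_one_pow_mul]
  exact ud_tsum_le _ hD fun S => (fr_pmin_le h S.1).trans (h' S.1 S.2)

/-- `det (1 - t M)` is entire. -/
theorem fredCoeff_entire {w c : α → ℝ} {M : α → α → R} (h : Cpt w c M) (r : ℝ) :
    Tendsto (fun n => ‖fredCoeff M n‖ * r ^ n) atTop (𝓝 0) := by
  obtain ⟨C, hC1, hC⟩ := fr_bdd h.lim
  have hr : 0 ≤ |r| := abs_nonneg r
  set δ : ℝ := 1 / (2 * (|r| + 1)) with hδ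
  have hδ0 : 0 < δ := by positivity
  have hδ1 : δ ≤ 1 := by
    rw [hδ, div_le_one (by positivity)]
    linarith
  have h1 : ∀ᶠ i in cofinite, c i < δ := h.lim.eventually (gt_mem_nhds hδ0)
  have hfin : {i | ¬ c i < δ}.Finite := h1
  set F := hfin.toFinset with hF
  have hb : ∀ n, ‖fredCoeff M n‖ ≤ C ^ F.card * δ⁻¹ ^ F.card * δ ^ n := by
    intro n
    refine norm_fredCoeff_le h (by positivity) fun S hS => ?_
    rw [← Finset.prod_filter_mul_prod_filter_not S (fun j => j ∈ F)]
    have a1 : ∏ j ∈ S.filter (fun j => j ∈ F), c j ≤ C ^ F.card := by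
      calc ∏ j ∈ S.filter (fun j => j ∈ F), c j ≤ ∏ j ∈ S.filter (fun j => j ∈ F), C :=
            Finset.prod_le_prod (fun i _ => h.nonneg i) fun i _ => hC i
        _ = C ^ (S.filter (fun j => j ∈ F)).card := by rw [Finset.prod_const]
        _ ≤ C ^ F.card := pow_le_pow_right₀ hC1 (Finset.card_le_card fun x hx =>
            (Finset.mem_filter.1 hx).2)
    have a2 : ∏ j ∈ S.filter (fun j => ¬ j ∈ F), c j ≤ δ⁻¹ ^ F.card * δ ^ n := by
      calc ∏ j ∈ S.filter (fun j => ¬ j ∈ F), c j ≤ ∏ j ∈ S.filter (fun j => ¬ j ∈ F), δ := by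
            refine Finset.prod_le_prod (fun i _ => h.nonneg i) fun i hi => ?_
            have := (Finset.mem_filter.1 hi).2
            by_contra hc
            exact this (by rw [hF]; simpa using (fun h3 : c i < δ => hc h3.le))
        _ = δ ^ (S.filter (fun j => ¬ j ∈ F)).card := by rw [Finset.prod_const]
        _ ≤ δ⁻¹ ^ F.card * δ ^ n := by
            have e1 : (S.filter (fun j => j ∈ F)).card ≤ F.card :=
              Finset.card_le_card fun x hx => (Finset.mem_filter.1 hx).2
            have e2 := Finset.card_filter_add_card_filter_not (s := S) (fun j => j ∈ F)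
            have e3 : n ≤ F.card + (S.filter (fun j => ¬ j ∈ F)).card := by omega
            rw [inv_pow, ← div_eq_inv_mul, le_div_iff₀ (pow_pos hδ0 _), ← pow_add]
            exact pow_le_pow_of_le_one hδ0.le hδ1 (by omega)
    calc _ ≤ C ^ F.card * (δ⁻¹ ^ F.card * δ ^ n) :=
          mul_le_mul a1 a2 (Finset.prod_nonneg fun i _ => h.nonneg i) (by positivity)
      _ = _ := by ring
  have hlim : Tendsto (fun n : ℕ => C ^ F.card * δ⁻¹ ^ F.card * (1 / 2 : ℝ) ^ n) atTop
      (𝓝 0) := by
    have := (tendsto_pow_atTop_nhds_zero_of_lt_one (r := (1 / 2 : ℝ)) (by norm_num)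
      (by norm_num)).const_mul (C ^ F.card * δ⁻¹ ^ F.card)
    simpa using this
  refine squeeze_zero_norm (fun n => ?_) hlim
  rw [norm_mul, norm_norm, norm_pow, Real.norm_eq_abs]
  calc ‖fredCoeff M n‖ * |r| ^ n ≤ C ^ F.card * δ⁻¹ ^ F.card * δ ^ n * |r| ^ n :=
        mul_le_mul_of_nonneg_right (hb n) (by positivity)
    _ = C ^ F.card * δ⁻¹ ^ F.card * (δ * |r|) ^ n := by rw [mul_pow]; ring
    _ ≤ C ^ F.card * δ⁻¹ ^ F.card * (1 / 2) ^ n := by
        refine mul_le_mul_of_nonneg_left (pow_le_pow_left₀ (by positivity) ?_ n) (by positivity)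
        rw [hδ, div_mul_eq_mul_div, one_mul, div_le_div_iff₀ (by positivity) (by norm_num)]
        linarith

omit [NormOneClass R] [IsUltrametricDist R] in
theorem fredCoeff_zero (M : α → α → R) : fredCoeff M 0 = 1 := by
  unfold fredCoeff
  rw [tsum_eq_single (⟨∅, rfl⟩ : {S : Finset α // S.card = 0}), pmin_empty, pow_zero, one_mul]
  intro S hS
  exact absurd (Subtype.ext (Finset.card_eq_zero.1 S.2)) hS

omit [NormOneClass R] [IsUltrametricDist R] in
theorem fredCoeff_transpose (M : α → α → R) (n : ℕ) :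
    fredCoeff (fun i j => M j i) n = fredCoeff M n := by
  unfold fredCoeff
  simp only [pmin_transpose]

omit [NormOneClass R] [IsUltrametricDist R] in
theorem fredCoeff_diag (M : α → α → R) (u v : α → R) (huv : ∀ i, u i * v i = 1) (n : ℕ) :
    fredCoeff (fun i j => u i * M i j * v j) n = fredCoeff M n := by
  unfold fredCoeff
  simp only [pmin_diag M u v huv]

omit [NormOneClass R] [IsUltrametricDist R] in
/-- A matrix with finitely many nonzero columns. -/
theorem fredCoeff_finite (M : α → α → R) (T : Finset α) (hT : ∀ j ∉ T, ∀ i, M i j = 0) (n : ℕ) :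
    fredCoeff M n = (-1) ^ n * ∑ S ∈ T.powersetCard n, pmin M S := by
  unfold fredCoeff
  congr 1
  rw [tsum_eq_sum (s := (T.powersetCard n).subtype (fun S => S.card = n))]
  · rw [Finset.sum_subtype_eq_sum_filter, Finset.filter_true_of_mem]
    intro S hS
    exact (Finset.mem_powersetCard.1 hS).2
  · intro S hS
    have : ¬ (S.1 ⊆ T) := by
      intro h
      apply hS
      rw [Finset.mem_subtype, Finset.mem_powersetCard]
      exact ⟨h, S.2⟩
    obtain ⟨j, hj, hj'⟩ := Finset.not_subset.1 this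
    exact pmin_zero_col M S.1 j hj (hT j hj')

/-- The sum over a finite set is a coefficient of the reverse characteristic polynomial. -/
theorem fr_charpolyRev {R : Type*} [CommRing R] (M : α → α → R) (T : Finset α) (n : ℕ) :
    (-1) ^ n * ∑ S ∈ T.powersetCard n, pmin M S =
      (Matrix.charpolyRev (Matrix.of fun i j : T => M i j)).coeff n := by
  have h1 : (Matrix.charpolyRev (Matrix.of fun i j : T => M i j)) =
      Matrix.det (1 + (Polynomial.X : Polynomial R) •
        (-(Matrix.of fun i j : T => M i j)).map Polynomial.C) := by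
    unfold Matrix.charpolyRev
    rw [Matrix.map_neg Polynomial.C (map_neg Polynomial.C), smul_neg, sub_eq_add_neg]
  rw [h1, Matrix.coeff_det_one_add_X_smul_eq_sum_minors, Finset.mul_sum]
  refine Finset.sum_bij' (fun S hS => S.subtype (fun x => x ∈ T))
    (fun S hS => S.map (Function.Embedding.subtype _)) ?_ ?_ ?_ ?_ ?_
  · intro S hS
    rw [Finset.mem_powersetCard] at hS ⊢
    refine ⟨Finset.subset_univ _, ?_⟩
    rw [Finset.card_subtype, Finset.filter_true_of_mem (fun x hx => hS.1 hx), hS.2]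
  · intro S hS
    rw [Finset.mem_powersetCard] at hS ⊢
    refine ⟨?_, by rw [Finset.card_map, hS.2]⟩
    intro x hx
    rw [Finset.mem_map] at hx
    obtain ⟨y, -, rfl⟩ := hx
    exact y.2
  · intro S hS
    rw [Finset.mem_powersetCard] at hS
    rw [Finset.subtype_map, Finset.filter_true_of_mem (fun x hx => hS.1 hx)]
  · intro S hS
    ext x
    simp
  · intro S hS
    rw [Finset.mem_powersetCard] at hS
    simp only [Matrix.submatrix_neg, Pi.neg_apply, Matrix.det_neg, Fintype.card_coe]
    rw [Finset.card_subtype, Finset.filter_true_of_mem (fun x hx => hS.1 hx), hS.2]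
    congr 1
    unfold pmin
    let e : S ≃ (S.subtype (fun x => x ∈ T)) :=
      { toFun := fun x => ⟨⟨x.1, hS.1 x.2⟩, by simp⟩
        invFun := fun x => ⟨x.1.1, Finset.mem_subtype.1 x.2⟩
        left_inv := fun x => rfl
        right_inv := fun x => rfl }
    rw [← Matrix.det_submatrix_equiv_self e]
    rfl

end ring

end GH
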