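import Pool.Agent.GH.Fred
import Pool.Agent.GH.Defs

/-!
# Project GH (MP_370013_nt): Fredholm coefficients, limits and products
-/

set_option autoImplicit false

open Filter Topology

namespace GH

variable {α : Type*} [DecidableEq α]

section ring

variable {R : Type*} [NormedCommRing R] [NormOneClass R] [IsUltrametricDist R] [CompleteSpace R]

theorem fr_summable {w c : α → ℝ} {M : α → α → R} (h : Cpt w c M) (n : ℕ) :
    Summable (fun S : {S : Finset α // S.card = n} => pmin M S.1) :=
  ud_summable (fr_tendsto h n)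

/-- The Fredholm coefficients are the limits of the coefficients of the finite blocks. -/
theorem fredCoeff_tendsto {w c : α → ℝ} {M : α → α → R} (h : Cpt w c M) (n : ℕ) :
    Tendsto (fun T : Finset α => (Matrix.charpolyRev (Matrix.of fun i j : T => M i j)).coeff n)
      atTop (𝓝 (fredCoeff M n)) := by
  simp only [← fr_charpolyRev]
  unfold fredCoeff
  refine Tendsto.const_mul _ ?_
  have h1 := (fr_summable h n).hasSum
  have h2 : Tendsto (fun T : Finset α => (T.powersetCard n).subtype (fun S => S.card = n))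
      atTop atTop := by
    refine Filter.tendsto_atTop_finset_of_monotone ?_ ?_
    · intro T T' hT S hS
      rw [Finset.mem_subtype, Finset.mem_powersetCard] at hS ⊢
      exact ⟨hS.1.trans hT, hS.2⟩
    · intro S
      exact ⟨S.1, by rw [Finset.mem_subtype, Finset.mem_powersetCard]; exact ⟨subset_rfl, S.2⟩⟩
  have h3 := h1.comp h2
  refine h3.congr fun T => ?_
  show ∑ S ∈ (T.powersetCard n).subtype (fun S => S.card = n), pmin M S.1 = _
  rw [Finset.sum_subtype_eq_sum_filter (f := fun S => pmin M S), Finset.filter_true_of_mem]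
  intro S hS
  exact (Finset.mem_powersetCard.1 hS).2

/-- Continuity of the Fredholm coefficients. -/
theorem fredCoeff_sub_le {w c c' : α → ℝ} {M M' : α → α → R} (h : Cpt w c M) (h' : Cpt w c' M')
    {C ε : ℝ} (hC0 : 0 ≤ C) (hC : ∀ j, c j ≤ C) (hC' : ∀ j, c' j ≤ C) (hε : 0 ≤ ε)
    (hd : ∀ i j, w i * ‖M i j - M' i j‖ ≤ w j * (ε * C)) (n : ℕ) :
    ‖fredCoeff M n - fredCoeff M' n‖ ≤ ε * C ^ n := by
  unfold fredCoeff
  rw [← mul_sub, fr_norm_neg_one_pow_mul, ← (fr_summable h n).tsum_sub (fr_summable h' n)]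
  refine ud_tsum_le _ (by positivity) fun S => ?_
  have h1 := fr_pmin_sub_le (c := fun _ => C) hε h.pos S.1
    (fun i j => (h.le i j).trans (mul_le_mul_of_nonneg_left (hC j) (h.pos j).le))
    (fun i j => (h'.le i j).trans (mul_le_mul_of_nonneg_left (hC' j) (h.pos j).le)) hd
  rwa [Finset.prod_const, S.2] at h1

omit [NormOneClass R] [IsUltrametricDist R] [CompleteSpace R] in
theorem fr_charpolyRev_comm {U T : Type*} [Fintype U] [DecidableEq U] [Fintype T] [DecidableEq T]
    (X : Matrix U T R) (Y : Matrix T U R) :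
    Matrix.charpolyRev (X * Y) = Matrix.charpolyRev (Y * X) := by
  unfold Matrix.charpolyRev
  have h1 : (Polynomial.X : Polynomial R) • (X * Y).map Polynomial.C =
      ((Polynomial.X : Polynomial R) • X.map Polynomial.C) * Y.map Polynomial.C := by
    rw [Matrix.map_mul, Matrix.smul_mul]
  have h2 : (Polynomial.X : Polynomial R) • (Y * X).map Polynomial.C =
      Y.map Polynomial.C * ((Polynomial.X : Polynomial R) • X.map Polynomial.C) := by
    rw [Matrix.map_mul, Matrix.mul_smul]
  rw [h1, h2, Matrix.det_one_sub_mul_comm]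

omit [NormOneClass R] [IsUltrametricDist R] [CompleteSpace R] in
/-- The case of finitely many nonzero columns. -/
theorem fr_mul_comm_finite (A B : α → α → R) (T : Finset α) (hA : ∀ j ∉ T, ∀ i, A i j = 0)
    (hrow : ∀ i, {k | B i k ≠ 0}.Finite) (n : ℕ) :
    fredCoeff (fun i j => ∑' k, A i k * B k j) n = fredCoeff (fun i j => ∑' k, B i k * A k j) n := by
  classical
  set U : Finset α := T ∪ T.biUnion (fun i => (hrow i).toFinset) with hU
  have hTU : T ⊆ U := Finset.subset_union_left
  have hB : ∀ k ∈ T, ∀ j ∉ U, B k j = 0 := by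
    intro k hk j hj
    by_contra hc
    apply hj
    rw [hU, Finset.mem_union, Finset.mem_biUnion]
    exact Or.inr ⟨k, hk, by simpa using hc⟩
  have hP : ∀ i j, ∑' k, A i k * B k j = ∑ k ∈ T, A i k * B k j := fun i j =>
    tsum_eq_sum fun k hk => by rw [hA k hk, zero_mul]
  have hQ : ∀ i ∈ T, ∀ j, ∑' k, B i k * A k j = ∑ k ∈ U, B i k * A k j := fun i hi j =>
    tsum_eq_sum fun k hk => by rw [hB i hi k hk, zero_mul]
  rw [fredCoeff_finite _ U, fredCoeff_finite _ T, fr_charpolyRev, fr_charpolyRev]
  · have e1 : (Matrix.of fun i j : U => ∑' k, A i k * B k j) =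
        (Matrix.of fun (i : U) (k : T) => A i k) * (Matrix.of fun (k : T) (j : U) => B k j) := by
      ext i j
      rw [Matrix.mul_apply]
      simp only [Matrix.of_apply]
      rw [hP, ← Finset.sum_coe_sort]
    have e2 : (Matrix.of fun i j : T => ∑' k, B i k * A k j) =
        (Matrix.of fun (k : T) (j : U) => B k j) * (Matrix.of fun (i : U) (k : T) => A i k) := by
      ext i j
      rw [Matrix.mul_apply]
      simp only [Matrix.of_apply]
      rw [hQ i i.2, ← Finset.sum_coe_sort]
    rw [e1, e2, fr_charpolyRev_comm]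
  · intro j hj i
    have : ∀ k, B i k * A k j = 0 := fun k => by rw [hA j hj, mul_zero]
    simp [this]
  · intro j hj i
    rw [hP]
    exact Finset.sum_eq_zero fun k hk => by rw [hB k hk j hj, mul_zero]

omit [NormOneClass R] in
/-- The product of a compact matrix with a bounded matrix with finite rows. -/
theorem Cpt.mul_right {w c : α → ℝ} {A B : α → α → R} {β : ℝ} (hA : Cpt w c A)
    (hB : ∀ i j, w i * ‖B i j‖ ≤ w j * β) (hrow : ∀ i, {k | B i k ≠ 0}.Finite) :
    ∃ c1, Cpt w c1 (fun i j => ∑' k, A i k * B k j) := by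
  classical
  rcases isEmpty_or_nonempty α with hα | hα
  · exact ⟨c, hA.pos, hA.lim, fun i => hα.elim i⟩
  obtain ⟨a⟩ := id hα
  have hβ : 0 ≤ β := le_of_mul_le_mul_left ((mul_zero (w a)).le.trans
    ((mul_nonneg (hA.pos a).le (norm_nonneg _)).trans (hB a a))) (hA.pos a)
  obtain ⟨C0, hC01, hC0⟩ := fr_bdd hA.lim
  -- column bounds for the product `A B`
  set t : α → α → ℝ := fun j k => c k * (w k * ‖B k j‖ / w j) with ht
  have ht0 : ∀ j k, 0 ≤ t j k := fun j k => by
    have h1 := hA.nonneg k
    have h2 := (hA.pos k).le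
    have h3 := (hA.pos j).le
    simp only [ht]
    positivity
  have ht1 : ∀ j k, t j k ≤ c k * β := fun j k => by
    simp only [ht]
    refine mul_le_mul_of_nonneg_left ?_ (hA.nonneg k)
    rw [div_le_iff₀ (hA.pos j), mul_comm β]
    exact hB k j
  have htb : ∀ j, BddAbove (Set.range (t j)) := fun j => by
    refine ⟨C0 * β, ?_⟩
    rintro x ⟨k, rfl⟩
    exact (ht1 j k).trans (mul_le_mul_of_nonneg_right (hC0 k) hβ)
  set c1 : α → ℝ := fun j => ⨆ k, t j k with hc1
  have hc1lim : Tendsto c1 cofinite (𝓝 0) := by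
    rw [Metric.tendsto_nhds]
    intro ε hε
    have h1 : ∀ᶠ i in cofinite, c i < ε / (2 * (β + 1)) :=
      hA.lim.eventually (gt_mem_nhds (by positivity))
    have hfin : {i | ¬ c i < ε / (2 * (β + 1))}.Finite := h1
    rw [Filter.eventually_cofinite]
    refine (hfin.toFinset.biUnion (fun i => (hrow i).toFinset)).finite_toSet.subset ?_
    intro j hj
    by_contra hj2
    apply hj
    have h2 : c1 j ≤ ε / 2 := by
      refine ciSup_le fun k => ?_
      by_cases hk : c k < ε / (2 * (β + 1))
      · calc t j k ≤ c k * β := ht1 j k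
          _ ≤ c k * (β + 1) := mul_le_mul_of_nonneg_left (by linarith) (hA.nonneg k)
          _ ≤ ε / (2 * (β + 1)) * (β + 1) := mul_le_mul_of_nonneg_right hk.le (by linarith)
          _ = ε / 2 := by
            field_simp
      · have hB0 : B k j = 0 := by
          by_contra hc
          apply hj2
          rw [Finset.mem_coe, Finset.mem_biUnion]
          exact ⟨k, by simpa using hk, by simpa using hc⟩
        simp only [ht, hB0, norm_zero, mul_zero, zero_div]
        linarith
    have h3 : 0 ≤ c1 j := Real.iSup_nonneg fun k => ht0 j k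
    rw [Real.dist_eq, sub_zero, abs_of_nonneg h3]
    linarith
  have hterm1 : ∀ i j k, w i * ‖A i k * B k j‖ ≤ w j * t j k := fun i j k => by
    have h1 := hA.le i k
    have hj := hA.pos j
    calc w i * ‖A i k * B k j‖ ≤ w i * (‖A i k‖ * ‖B k j‖) :=
          mul_le_mul_of_nonneg_left (norm_mul_le _ _) (hA.pos i).le
      _ = (w i * ‖A i k‖) * ‖B k j‖ := by ring
      _ ≤ (w k * c k) * ‖B k j‖ := mul_le_mul_of_nonneg_right h1 (norm_nonneg _)
      _ = w j * t j k := by
          simp only [ht]
          field_simp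
  refine ⟨c1, hA.pos, hc1lim, fun i j => ?_⟩
  have hi := hA.pos i
  have hD : 0 ≤ w j * c1 j :=
    mul_nonneg (hA.pos j).le (Real.iSup_nonneg fun k => ht0 j k)
  rw [← le_div_iff₀' hi]
  refine ud_tsum_le _ (div_nonneg hD hi.le) fun k => ?_
  rw [le_div_iff₀' hi]
  exact (hterm1 i j k).trans (mul_le_mul_of_nonneg_left (le_ciSup (htb j) k) (hA.pos j).le)

/-- `det (1 - t A B) = det (1 - t B A)` for `A` compact and `B` bounded with finite rows. -/
theorem fredCoeff_mul_comm {w c : α → ℝ} {A B : α → α → R} {β : ℝ} (hA : Cpt w c A)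
    (hB : ∀ i j, w i * ‖B i j‖ ≤ w j * β) (hrow : ∀ i, {k | B i k ≠ 0}.Finite) (n : ℕ) :
    fredCoeff (fun i j => ∑' k, A i k * B k j) n =
      fredCoeff (fun i j => ∑' k, B i k * A k j) n := by
  classical
  rcases isEmpty_or_nonempty α with hα | hα
  · congr 1
    funext i
    exact hα.elim i
  obtain ⟨a⟩ := id hα
  have hβ : 0 ≤ β := le_of_mul_le_mul_left ((mul_zero (w a)).le.trans
    ((mul_nonneg (hA.pos a).le (norm_nonneg _)).trans (hB a a))) (hA.pos a)
  obtain ⟨C0, hC01, hC0⟩ := fr_bdd hA.lim
  -- column bounds for the product `A B`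
  set t : α → α → ℝ := fun j k => c k * (w k * ‖B k j‖ / w j) with ht
  have ht0 : ∀ j k, 0 ≤ t j k := fun j k => by
    have h1 := hA.nonneg k
    have h2 := (hA.pos k).le
    have h3 := (hA.pos j).le
    simp only [ht]
    positivity
  have ht1 : ∀ j k, t j k ≤ c k * β := fun j k => by
    simp only [ht]
    refine mul_le_mul_of_nonneg_left ?_ (hA.nonneg k)
    rw [div_le_iff₀ (hA.pos j), mul_comm β]
    exact hB k j
  have htb : ∀ j, BddAbove (Set.range (t j)) := fun j => by
    refine ⟨C0 * β, ?_⟩
    rintro x ⟨k, rfl⟩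
    exact (ht1 j k).trans (mul_le_mul_of_nonneg_right (hC0 k) hβ)
  set c1 : α → ℝ := fun j => ⨆ k, t j k with hc1
  have hc1lim : Tendsto c1 cofinite (𝓝 0) := by
    rw [Metric.tendsto_nhds]
    intro ε hε
    have h1 : ∀ᶠ i in cofinite, c i < ε / (2 * (β + 1)) :=
      hA.lim.eventually (gt_mem_nhds (by positivity))
    have hfin : {i | ¬ c i < ε / (2 * (β + 1))}.Finite := h1
    rw [Filter.eventually_cofinite]
    refine (hfin.toFinset.biUnion (fun i => (hrow i).toFinset)).finite_toSet.subset ?_
    intro j hj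
    by_contra hj2
    apply hj
    have h2 : c1 j ≤ ε / 2 := by
      refine ciSup_le fun k => ?_
      by_cases hk : c k < ε / (2 * (β + 1))
      · calc t j k ≤ c k * β := ht1 j k
          _ ≤ c k * (β + 1) := mul_le_mul_of_nonneg_left (by linarith) (hA.nonneg k)
          _ ≤ ε / (2 * (β + 1)) * (β + 1) := mul_le_mul_of_nonneg_right hk.le (by linarith)
          _ = ε / 2 := by
            field_simp
      · have hB0 : B k j = 0 := by
          by_contra hc
          apply hj2
          rw [Finset.mem_coe, Finset.mem_biUnion]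
          exact ⟨k, by simpa using hk, by simpa using hc⟩
        simp only [ht, hB0, norm_zero, mul_zero, zero_div]
        linarith
    have h3 : 0 ≤ c1 j := Real.iSup_nonneg fun k => ht0 j k
    rw [Real.dist_eq, sub_zero, abs_of_nonneg h3]
    linarith
  -- norms of the terms
  have hterm1 : ∀ i j k, w i * ‖A i k * B k j‖ ≤ w j * t j k := fun i j k => by
    have h1 := hA.le i k
    have hj := hA.pos j
    calc w i * ‖A i k * B k j‖ ≤ w i * (‖A i k‖ * ‖B k j‖) :=
          mul_le_mul_of_nonneg_left (norm_mul_le _ _) (hA.pos i).le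
      _ = (w i * ‖A i k‖) * ‖B k j‖ := by ring
      _ ≤ (w k * c k) * ‖B k j‖ := mul_le_mul_of_nonneg_right h1 (norm_nonneg _)
      _ = w j * t j k := by
          simp only [ht]
          field_simp
  have hterm2 : ∀ i j k, w i * ‖B i k * A k j‖ ≤ w j * (β * c j) := fun i j k => by
    calc w i * ‖B i k * A k j‖ ≤ w i * (‖B i k‖ * ‖A k j‖) :=
          mul_le_mul_of_nonneg_left (norm_mul_le _ _) (hA.pos i).le
      _ = (w i * ‖B i k‖) * ‖A k j‖ := by ring
      _ ≤ (w k * β) * ‖A k j‖ := mul_le_mul_of_nonneg_right (hB i k) (norm_nonneg _)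
      _ = β * (w k * ‖A k j‖) := by ring
      _ ≤ β * (w j * c j) := mul_le_mul_of_nonneg_left (hA.le k j) hβ
      _ = _ := by ring
  -- the truncated matrices
  have key : ∀ (i : α) (f : α → R) (D : ℝ), (∀ k, w i * ‖f k‖ ≤ D) → w i * ‖∑' k, f k‖ ≤ D := by
    intro i f D hf
    have hD : 0 ≤ D := (mul_nonneg (hA.pos i).le (norm_nonneg _)).trans (hf a)
    rw [← le_div_iff₀' (hA.pos i)]
    refine ud_tsum_le _ (div_nonneg hD (hA.pos i).le) fun k => ?_
    rw [le_div_iff₀' (hA.pos i)]
    exact hf k
  have hsum1 : ∀ i j, Summable (fun k => A i k * B k j) := fun i j => by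
    refine ud_summable (squeeze_zero_norm (a := fun k => (w j * β / w i) * c k) (fun k => ?_) ?_)
    · have h1 := (hterm1 i j k).trans (mul_le_mul_of_nonneg_left (ht1 j k) (hA.pos j).le)
      have hi := hA.pos i
      rw [← mul_le_mul_iff_right₀ hi]
      refine h1.trans (le_of_eq ?_)
      field_simp
    · simpa using hA.lim.const_mul (w j * β / w i)
  have cP : Cpt w c1 (fun i j => ∑' k, A i k * B k j) := ⟨hA.pos, hc1lim, fun i j =>
    key i _ _ fun k => (hterm1 i j k).trans
      (mul_le_mul_of_nonneg_left (le_ciSup (htb j) k) (hA.pos j).le)⟩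
  have cQ : Cpt w (fun j => β * c j) (fun i j => ∑' k, B i k * A k j) :=
    ⟨hA.pos, by simpa using hA.lim.const_mul β, fun i j => key i _ _ fun k => hterm2 i j k⟩
  set C : ℝ := max 1 (C0 * β) with hC
  have hC1 : 1 ≤ C := le_max_left _ _
  have hcC : ∀ j, c1 j ≤ C := fun j => (ciSup_le fun k => (ht1 j k).trans
    (mul_le_mul_of_nonneg_right (hC0 k) hβ)).trans (le_max_right _ _)
  have hcC2 : ∀ j, β * c j ≤ C := fun j =>
    ((mul_le_mul_of_nonneg_left (hC0 j) hβ).trans (le_of_eq (mul_comm _ _))).trans
      (le_max_right _ _)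
  have hCn : 0 < C ^ n := pow_pos (zero_lt_one.trans_le hC1) n
  -- closeness for every `ε`
  have main : ∀ ε > 0, ‖fredCoeff (fun i j => ∑' k, A i k * B k j) n -
      fredCoeff (fun i j => ∑' k, B i k * A k j) n‖ ≤ ε * β * C ^ n := by
    intro ε hε
    have h1 : ∀ᶠ i in cofinite, c i < ε := hA.lim.eventually (gt_mem_nhds hε)
    have hfin : {i | ¬ c i < ε}.Finite := h1
    set T := hfin.toFinset with hT
    have hTc : ∀ k ∉ T, c k ≤ ε := fun k hk => by
      by_contra hc
      exact hk (by rw [hT]; simpa using (not_le.1 hc).le)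
    set A' : α → α → R := fun i j => if j ∈ T then A i j else 0 with hA'
    have hA'le : ∀ i j, ‖A' i j‖ ≤ ‖A i j‖ := fun i j => by
      simp only [hA']
      split_ifs
      · exact le_rfl
      · simp
    have cA' : Cpt w c A' := ⟨hA.pos, hA.lim, fun i j =>
      (mul_le_mul_of_nonneg_left (hA'le i j) (hA.pos i).le).trans (hA.le i j)⟩
    have hfinc := fr_mul_comm_finite A' B T (fun j hj i => by simp [hA', hj]) hrow n
    have cP' : Cpt w c1 (fun i j => ∑' k, A' i k * B k j) := ⟨hA.pos, hc1lim, fun i j =>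
      key i _ _ fun k => by
        refine le_trans ?_ ((hterm1 i j k).trans
          (mul_le_mul_of_nonneg_left (le_ciSup (htb j) k) (hA.pos j).le))
        refine mul_le_mul_of_nonneg_left ?_ (hA.pos i).le
        simp only [hA']
        split_ifs
        · exact le_rfl
        · simp⟩
    have cQ' : Cpt w (fun j => β * c j) (fun i j => ∑' k, B i k * A' k j) :=
      ⟨hA.pos, by simpa using hA.lim.const_mul β, fun i j => key i _ _ fun k => by
        refine le_trans ?_ (hterm2 i j k)
        refine mul_le_mul_of_nonneg_left ?_ (hA.pos i).le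
        simp only [hA']
        split_ifs
        · exact le_rfl
        · simp⟩
    have hεβ : 0 ≤ ε * β := mul_nonneg hε.le hβ
    have b1 : ‖fredCoeff (fun i j => ∑' k, A i k * B k j) n -
        fredCoeff (fun i j => ∑' k, A' i k * B k j) n‖ ≤ ε * β * C ^ n := by
      refine fredCoeff_sub_le cP cP' (zero_le_one.trans hC1) hcC hcC hεβ (fun i j => ?_) n
      have e1 : ∑' k, A i k * B k j - ∑' k, A' i k * B k j =
          ∑' k, (A i k - A' i k) * B k j := by
        rw [← (hsum1 i j).tsum_sub]
        · exact tsum_congr fun k => by ring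
        · refine ud_summable ((ud_tendsto_of_le (fun k => ?_) (hsum1 i j)))
          simp only [hA']
          split_ifs
          · exact le_rfl
          · simp
      rw [e1]
      refine key i _ _ fun k => ?_
      by_cases hk : k ∈ T
      · simp only [hA', hk, if_true, sub_self, zero_mul, norm_zero, mul_zero]
        have := hA.pos j
        positivity
      · simp only [hA', hk, if_false, sub_zero]
        calc w i * ‖A i k * B k j‖ ≤ w j * (c k * β) :=
              (hterm1 i j k).trans (mul_le_mul_of_nonneg_left (ht1 j k) (hA.pos j).le)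
          _ ≤ w j * (ε * β * C) := by
              refine mul_le_mul_of_nonneg_left ?_ (hA.pos j).le
              calc c k * β ≤ ε * β := mul_le_mul_of_nonneg_right (hTc k hk) hβ
                _ ≤ ε * β * C := le_mul_of_one_le_right hεβ hC1
    have b2 : ‖fredCoeff (fun i j => ∑' k, B i k * A' k j) n -
        fredCoeff (fun i j => ∑' k, B i k * A k j) n‖ ≤ ε * β * C ^ n := by
      refine fredCoeff_sub_le cQ' cQ (zero_le_one.trans hC1) hcC2 hcC2 hεβ (fun i j => ?_) n
      by_cases hj : j ∈ T
      · have : ∀ k, A' k j = A k j := fun k => by simp [hA', hj]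
        simp only [this, sub_self, norm_zero, mul_zero]
        have := hA.pos j
        positivity
      · have : ∀ k, A' k j = 0 := fun k => by simp [hA', hj]
        simp only [this, mul_zero, tsum_zero, zero_sub, norm_neg]
        refine key i _ _ fun k => (hterm2 i j k).trans ?_
        refine mul_le_mul_of_nonneg_left ?_ (hA.pos j).le
        calc β * c j ≤ β * ε := mul_le_mul_of_nonneg_left (hTc j hj) hβ
          _ = ε * β := mul_comm _ _
          _ ≤ ε * β * C := le_mul_of_one_le_right hεβ hC1
    rw [← hfinc] at b2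
    calc _ = ‖(fredCoeff (fun i j => ∑' k, A i k * B k j) n -
          fredCoeff (fun i j => ∑' k, A' i k * B k j) n) +
          (fredCoeff (fun i j => ∑' k, A' i k * B k j) n -
          fredCoeff (fun i j => ∑' k, B i k * A k j) n)‖ := by rw [sub_add_sub_cancel]
      _ ≤ _ := (IsUltrametricDist.norm_add_le_max _ _).trans (max_le b1 b2)
  rw [← sub_eq_zero, ← norm_le_zero_iff]
  refine le_of_forall_pos_le_add fun δ hδ => ?_
  rw [zero_add]
  refine (main (δ / ((β + 1) * C ^ n)) (by positivity)).trans ?_
  have : δ / ((β + 1) * C ^ n) * β * C ^ n = δ * (β / (β + 1)) := by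
    field_simp
  rw [this]
  refine mul_le_of_le_one_right hδ.le ?_
  rw [div_le_one (by positivity)]
  linarith

end ring

end GH
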