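import Mathlib

/-!
# Project GH (MP_370013_nt): determinants and sums over a complete ultrametric ring
-/

set_option autoImplicit false

open Filter Topology

namespace GH

section basic

variable {R : Type*} [NormedCommRing R] [IsUltrametricDist R]

theorem ud_sum_le {ι : Type*} (s : Finset ι) (f : ι → R) {C : ℝ} (hC : 0 ≤ C)
    (h : ∀ i ∈ s, ‖f i‖ ≤ C) : ‖∑ i ∈ s, f i‖ ≤ C :=
  IsUltrametricDist.norm_sum_le_of_forall_le_of_nonneg hC h

theorem ud_tsum_le {ι : Type*} (f : ι → R) {C : ℝ} (hC : 0 ≤ C)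
    (h : ∀ i, ‖f i‖ ≤ C) : ‖∑' i, f i‖ ≤ C :=
  IsUltrametricDist.norm_tsum_le_of_forall_le_of_nonneg hC h

theorem ud_sum_lt {ι : Type*} (s : Finset ι) (f : ι → R) {C : ℝ} (hC : 0 < C)
    (h : ∀ i ∈ s, ‖f i‖ < C) : ‖∑ i ∈ s, f i‖ < C := by
  rcases s.eq_empty_or_nonempty with rfl | hs
  · simpa using hC
  · obtain ⟨j, hj, hj'⟩ := IsUltrametricDist.exists_norm_finsetSum_le_of_nonempty hs f
    exact lt_of_le_of_lt hj' (h j hj)

/-- Strict bound for infinite sums. -/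
theorem ud_tsum_lt {ι : Type*} {f : ι → R} (hf : Tendsto f cofinite (𝓝 0)) {C : ℝ} (hC : 0 < C)
    (h : ∀ i, ‖f i‖ < C) : ‖∑' i, f i‖ < C := by
  have h1 : ∀ᶠ i in cofinite, ‖f i‖ < C / 2 := by
    have := (tendsto_norm_zero.comp hf)
    exact this.eventually (gt_mem_nhds (half_pos hC))
  have hfin : {i | ¬ ‖f i‖ < C / 2}.Finite := h1
  obtain ⟨D, hD, hD'⟩ : ∃ D, D < C ∧ 0 ≤ D ∧ ∀ i, ‖f i‖ ≤ D := by
    rcases hfin.toFinset.eq_empty_or_nonempty with he | hne
    · refine ⟨C / 2, half_lt_self hC, (half_pos hC).le, fun i => ?_⟩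
      by_contra hc
      have : i ∈ hfin.toFinset := by
        simp only [Set.Finite.mem_toFinset, Set.mem_ofPred_eq]
        intro h2
        exact hc h2.le
      rw [he] at this
      simp at this
    · obtain ⟨j, hj, hj'⟩ := hfin.toFinset.exists_max_image (fun i => ‖f i‖) hne
      refine ⟨max ‖f j‖ (C / 2), max_lt (h j) (half_lt_self hC),
        le_max_of_le_right (half_pos hC).le, fun i => ?_⟩
      by_cases hi : ‖f i‖ < C / 2
      · exact le_max_of_le_right hi.le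
      · exact le_max_of_le_left (hj' i (by simpa using hi))
  exact lt_of_le_of_lt (ud_tsum_le f hD'.1 hD'.2) hD

theorem ud_eq_of_lt {x y : R} (h : ‖x - y‖ < ‖y‖) : ‖x‖ = ‖y‖ := by
  have h1 : ‖x - y‖ ≠ ‖y‖ := h.ne
  have h2 := IsUltrametricDist.norm_add_eq_max_of_norm_ne_norm h1
  rw [sub_add_cancel] at h2
  rw [h2, max_eq_right h.le]

variable [CompleteSpace R]

theorem ud_summable {ι : Type*} {f : ι → R} (hf : Tendsto f cofinite (𝓝 0)) : Summable f :=
  NonarchimedeanAddGroup.summable_of_tendsto_cofinite_zero hf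

omit [IsUltrametricDist R] [CompleteSpace R] in
theorem ud_tendsto_of_le {ι : Type*} {f g : ι → R} (h : ∀ i, ‖f i‖ ≤ ‖g i‖) (hg : Summable g) :
    Tendsto f cofinite (𝓝 0) :=
  squeeze_zero_norm h (tendsto_norm_zero.comp hg.tendsto_cofinite_zero)

/-- A unique term of maximal norm dominates the sum. -/
theorem ud_tsum_eq {ι : Type*} {f : ι → R} (hf : Tendsto f cofinite (𝓝 0)) (j : ι)
    (hj : 0 < ‖f j‖) (h : ∀ i ≠ j, ‖f i‖ < ‖f j‖) : ‖∑' i, f i‖ = ‖f j‖ := by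
  classical
  have hs : Summable f := ud_summable hf
  apply ud_eq_of_lt
  have h1 : ∑' i, f i - f j = ∑' i, (if i = j then 0 else f i) := by
    have := hs.tsum_eq_add_tsum_ite j
    rw [this]
    ring
  rw [h1]
  refine ud_tsum_lt ?_ hj fun i => ?_
  · refine squeeze_zero_norm (fun i => ?_) (tendsto_norm_zero.comp hf)
    show ‖if i = j then 0 else f i‖ ≤ ‖f i‖
    split_ifs
    · simp
    · exact le_rfl
  · split_ifs with hi
    · simpa using hj
    · exact h i hi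

end basic

section det

variable {R : Type*} [NormedCommRing R] [NormOneClass R] [IsUltrametricDist R]
variable {ι : Type*} [Fintype ι] [DecidableEq ι]

omit [NormOneClass R] [IsUltrametricDist R] in
theorem ud_norm_sign_smul (σ : Equiv.Perm ι) (x : R) : ‖Equiv.Perm.sign σ • x‖ = ‖x‖ := by
  rcases Int.units_eq_one_or (Equiv.Perm.sign σ) with h | h
  · rw [h, one_smul]
  · rw [h, Units.neg_smul, one_smul, norm_neg]

omit [IsUltrametricDist R] in
theorem ud_prod_le {κ : Type*} (s : Finset κ) (f : κ → R) (c : κ → ℝ)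
    (h : ∀ i ∈ s, ‖f i‖ ≤ c i) : ‖∏ i ∈ s, f i‖ ≤ ∏ i ∈ s, c i :=
  (Finset.norm_prod_le s f).trans (Finset.prod_le_prod (fun i _ => norm_nonneg _) h)

omit [DecidableEq ι] in
theorem ud_weight_prod (w : ι → ℝ) (hw : ∀ i, 0 < w i) (c : ι → ℝ) (σ : Equiv.Perm ι) :
    ∏ i, (w i / w (σ i) * c i) = ∏ i, c i := by
  rw [Finset.prod_mul_distrib, Finset.prod_div_distrib, Equiv.prod_comp σ w,
    div_self (Finset.prod_ne_zero_iff.2 fun i _ => (hw i).ne'), one_mul]

/-- Weighted column bound for determinants. -/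
theorem ud_det_le (A : Matrix ι ι R) (w : ι → ℝ) (hw : ∀ i, 0 < w i) (c : ι → ℝ)
    (h : ∀ i j, w i * ‖A i j‖ ≤ w j * c j) : ‖A.det‖ ≤ ∏ j, c j := by
  have hc : ∀ j, 0 ≤ c j := fun j =>
    le_of_mul_le_mul_left ((mul_zero (w j)).le.trans
      ((mul_nonneg (hw j).le (norm_nonneg _)).trans (h j j))) (hw j)
  rw [Matrix.det_apply]
  refine ud_sum_le _ _ (Finset.prod_nonneg fun j _ => hc j) fun σ _ => ?_
  rw [ud_norm_sign_smul, ← ud_weight_prod w hw c σ]
  refine ud_prod_le _ _ _ fun i _ => ?_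
  rw [div_mul_eq_mul_div, le_div_iff₀ (hw _), mul_comm]
  exact h _ _

theorem ud_prod_sub_le {κ : Type*} (s : Finset κ) (f g : κ → R) (c : κ → ℝ) {ε : ℝ} (hε : 0 ≤ ε)
    (hf : ∀ i ∈ s, ‖f i‖ ≤ c i) (hg : ∀ i ∈ s, ‖g i‖ ≤ c i)
    (h : ∀ i ∈ s, ‖f i - g i‖ ≤ ε * c i) :
    ‖∏ i ∈ s, f i - ∏ i ∈ s, g i‖ ≤ ε * ∏ i ∈ s, c i := by
  classical
  induction s using Finset.induction_on with
  | empty => simpa using hε
  | insert a s ha ih =>
    have hc : ∀ i ∈ insert a s, 0 ≤ c i := fun i hi => (norm_nonneg _).trans (hf i hi)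
    rw [Finset.prod_insert ha, Finset.prod_insert ha, Finset.prod_insert ha]
    have ih' := ih (fun i hi => hf i (Finset.mem_insert_of_mem hi))
      (fun i hi => hg i (Finset.mem_insert_of_mem hi))
      (fun i hi => h i (Finset.mem_insert_of_mem hi))
    have e : f a * ∏ i ∈ s, f i - g a * ∏ i ∈ s, g i =
        f a * (∏ i ∈ s, f i - ∏ i ∈ s, g i) + (f a - g a) * ∏ i ∈ s, g i := by ring
    have hca := hc a (Finset.mem_insert_self a s)
    have hcp : 0 ≤ ∏ i ∈ s, c i :=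
      Finset.prod_nonneg fun i hi => hc i (Finset.mem_insert_of_mem hi)
    rw [e]
    refine (IsUltrametricDist.norm_add_le_max _ _).trans (max_le ?_ ?_)
    · calc ‖f a * (∏ i ∈ s, f i - ∏ i ∈ s, g i)‖
          ≤ ‖f a‖ * ‖∏ i ∈ s, f i - ∏ i ∈ s, g i‖ := norm_mul_le _ _
        _ ≤ c a * (ε * ∏ i ∈ s, c i) :=
            mul_le_mul (hf a (Finset.mem_insert_self a s)) ih' (norm_nonneg _) hca
        _ = ε * (c a * ∏ i ∈ s, c i) := by ring
    · calc ‖(f a - g a) * ∏ i ∈ s, g i‖ ≤ ‖f a - g a‖ * ‖∏ i ∈ s, g i‖ := norm_mul_le _ _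
        _ ≤ (ε * c a) * ∏ i ∈ s, c i :=
            mul_le_mul (h a (Finset.mem_insert_self a s))
              (ud_prod_le _ _ _ fun i hi => hg i (Finset.mem_insert_of_mem hi))
              (norm_nonneg _) (mul_nonneg hε hca)
        _ = ε * (c a * ∏ i ∈ s, c i) := by ring

/-- Continuity of determinants. -/
theorem ud_det_sub_le (A B : Matrix ι ι R) (w : ι → ℝ) (hw : ∀ i, 0 < w i) (c : ι → ℝ) {ε : ℝ}
    (hε : 0 ≤ ε) (hA : ∀ i j, w i * ‖A i j‖ ≤ w j * c j) (hB : ∀ i j, w i * ‖B i j‖ ≤ w j * c j)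
    (h : ∀ i j, w i * ‖A i j - B i j‖ ≤ w j * (ε * c j)) : ‖A.det - B.det‖ ≤ ε * ∏ j, c j := by
  have hc : ∀ j, 0 ≤ c j := fun j =>
    le_of_mul_le_mul_left ((mul_zero (w j)).le.trans
      ((mul_nonneg (hw j).le (norm_nonneg _)).trans (hA j j))) (hw j)
  rw [Matrix.det_apply, Matrix.det_apply, ← Finset.sum_sub_distrib]
  refine ud_sum_le _ _ (mul_nonneg hε (Finset.prod_nonneg fun j _ => hc j)) fun σ _ => ?_
  rw [← smul_sub, ud_norm_sign_smul, ← ud_weight_prod w hw c σ]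
  refine ud_prod_sub_le _ _ _ _ hε (fun i _ => ?_) (fun i _ => ?_) (fun i _ => ?_)
  · rw [div_mul_eq_mul_div, le_div_iff₀ (hw _), mul_comm]
    exact hA _ _
  · rw [div_mul_eq_mul_div, le_div_iff₀ (hw _), mul_comm]
    exact hB _ _
  · rw [mul_comm ε, div_mul_eq_mul_div, div_mul_eq_mul_div, le_div_iff₀ (hw _), mul_comm,
      mul_assoc, mul_comm (c i)]
    exact h _ _

end det

end GH
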