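import Pool.Agent.GH.Base

open PowerSeries Filter Topology

noncomputable section

namespace GH

/-! The matrix of `U_2`. -/

variable {K : Type*} [Field K] [CharZero K]

/-- The identities of `QHaupt` over `K`. -/
structure HIds (K : Type*) [Field K] : Prop where
  c0 : PowerSeries.coeff 0 (hser K) = 0
  c1 : PowerSeries.coeff 1 (hser K) = 1
  t0 : PowerSeries.constantCoeff (theta K) = 1
  f1 : hauptmodul 2 K = hser K * (1 + 16 * hser K)
  f2 : (hauptmodul 2 K).expand 2 two_ne_zero * (1 + 16 * hser K) = hser K ^ 2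
  h1 : evalNegHom (hser K) * (1 + 16 * hser K) = - hser K
  t8 : theta K ^ 8 * (1 + 16 * hser K) = (theta K ^ 8).expand 2 two_ne_zero

/-! ### Auxiliary statements -/

section Aux

omit [CharZero K]

/-- the series `1 + 16 T` -/
def um1u (K : Type*) [Field K] : PowerSeries K := 1 + C (16 : K) * X

/-- the sequence `b_i(G)` -/
def um1B (G : PowerSeries K) : PowerSeries K :=
  PowerSeries.mk fun i ↦ PowerSeries.coeff (2 * i)
    ((1 + C (8 : K) * X) * (um1u K) ^ i * (um1u K)⁻¹ * G)

theorem um1_u_inv : um1u K * (um1u K)⁻¹ = 1 := by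
  apply PowerSeries.mul_inv_cancel
  simp [um1u]

theorem um1B_add (G H : PowerSeries K) : um1B (G + H) = um1B G + um1B H := by
  ext i
  simp only [um1B, coeff_mk, map_add, mul_add]

theorem um1B_z (G : PowerSeries K) :
    um1B (X ^ 2 * (um1u K)⁻¹ * G) = X * um1B G := by
  ext i
  rcases i with _ | i
  · simp only [um1B, coeff_mk]
    rw [mul_zero, show (1 + C (8 : K) * X) * um1u K ^ 0 * (um1u K)⁻¹ *
      (X ^ 2 * (um1u K)⁻¹ * G) = X ^ 2 * ((1 + C (8 : K) * X) * um1u K ^ 0 * (um1u K)⁻¹ *
        ((um1u K)⁻¹ * G)) from by ring, PowerSeries.coeff_X_pow_mul', if_neg (by norm_num),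
      PowerSeries.coeff_zero_X_mul]
  · rw [PowerSeries.coeff_succ_X_mul]
    simp only [um1B, coeff_mk]
    have h1 : (1 + C (8 : K) * X) * um1u K ^ (i + 1) * (um1u K)⁻¹ *
        (X ^ 2 * (um1u K)⁻¹ * G) = X ^ 2 * ((1 + C (8 : K) * X) * um1u K ^ i * (um1u K)⁻¹ * G) := by
      calc (1 + C (8 : K) * X) * um1u K ^ (i + 1) * (um1u K)⁻¹ * (X ^ 2 * (um1u K)⁻¹ * G) =
          (um1u K * (um1u K)⁻¹) * (X ^ 2 * ((1 + C (8 : K) * X) * um1u K ^ i *
            (um1u K)⁻¹ * G)) := by ring
        _ = _ := by rw [um1_u_inv, one_mul]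
    rw [h1, PowerSeries.coeff_X_pow_mul', if_pos (by omega)]
    congr 1

theorem um1_poly (i n : ℕ) (h : i + 1 < n) :
    PowerSeries.coeff n ((1 + C (8 : K) * X) * um1u K ^ i) = 0 := by
  have h1 : (1 + C (8 : K) * X) * um1u K ^ i =
      (((1 + Polynomial.C (8 : K) * Polynomial.X) *
        (1 + Polynomial.C (16 : K) * Polynomial.X) ^ i : Polynomial K) : PowerSeries K) := by
    simp [um1u]
  rw [h1, Polynomial.coeff_coe]
  apply Polynomial.coeff_eq_zero_of_natDegree_lt
  have h2 : ∀ c : K, (1 + Polynomial.C c * Polynomial.X : Polynomial K).natDegree ≤ 1 := by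
    intro c
    refine (Polynomial.natDegree_add_le _ _).trans ?_
    rw [Polynomial.natDegree_one]
    refine max_le (by norm_num) ?_
    exact (Polynomial.natDegree_C_mul_le _ _).trans Polynomial.natDegree_X_le
  calc _ ≤ (1 + Polynomial.C (8 : K) * Polynomial.X : Polynomial K).natDegree +
        ((1 + Polynomial.C (16 : K) * Polynomial.X) ^ i : Polynomial K).natDegree :=
        Polynomial.natDegree_mul_le
    _ ≤ 1 + i * 1 := add_le_add (h2 _) (Polynomial.natDegree_pow_le.trans
        (Nat.mul_le_mul_left _ (h2 _)))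
    _ < n := by omega

theorem um1B_C (a : K) : um1B (C a) = C a := by
  ext i
  simp only [um1B, coeff_mk]
  rcases i with _ | i
  · simp [um1u]
  · have h1 : (1 + C (8 : K) * X) * um1u K ^ (i + 1) * (um1u K)⁻¹ * C a =
        C a * ((1 + C (8 : K) * X) * um1u K ^ i) := by
      calc _ = (um1u K * (um1u K)⁻¹) * (C a * ((1 + C (8 : K) * X) * um1u K ^ i)) := by ring
        _ = _ := by rw [um1_u_inv, one_mul]
    rw [h1, PowerSeries.coeff_C_mul, um1_poly i _ (by omega), mul_zero, PowerSeries.coeff_C,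
      if_neg (by omega)]

theorem um1B_CX (c : K) : um1B (C c * X) = C (8 * c) * X := by
  ext i
  simp only [um1B, coeff_mk]
  rcases i with _ | i
  · rw [mul_zero, ← mul_assoc, PowerSeries.coeff_zero_mul_X, PowerSeries.coeff_zero_mul_X]
  · have h1 : (1 + C (8 : K) * X) * um1u K ^ (i + 1) * (um1u K)⁻¹ * (C c * X) =
        (C c * ((1 + C (8 : K) * X) * um1u K ^ i)) * X := by
      calc _ = (um1u K * (um1u K)⁻¹) * ((C c * ((1 + C (8 : K) * X) * um1u K ^ i)) * X) := by
            ring
        _ = _ := by rw [um1_u_inv, one_mul]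
    rw [h1, show 2 * (i + 1) = (2 * i + 1) + 1 from by ring, PowerSeries.coeff_succ_mul_X,
      PowerSeries.coeff_C_mul]
    rcases i with _ | i
    · simp [um1u, PowerSeries.coeff_one]
      ring
    · rw [um1_poly (i + 1) _ (by omega), mul_zero, PowerSeries.coeff_C_mul,
        PowerSeries.coeff_X, if_neg (by omega), mul_zero]

theorem um1_decomp (G : PowerSeries K) : ∃ (a c : K) (G₁ : PowerSeries K),
    G = C a + C c * X + X ^ 2 * (um1u K)⁻¹ * G₁ := by
  refine ⟨coeff 0 G, coeff 1 G, um1u K * PowerSeries.mk fun n ↦ coeff (n + 2) G, ?_⟩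
  have h1 : X ^ 2 * (um1u K)⁻¹ * (um1u K * PowerSeries.mk fun n ↦ coeff (n + 2) G) =
      X ^ 2 * PowerSeries.mk fun n ↦ coeff (n + 2) G := by
    calc _ = (um1u K * (um1u K)⁻¹) * (X ^ 2 * PowerSeries.mk fun n ↦ coeff (n + 2) G) := by ring
      _ = _ := by rw [um1_u_inv, one_mul]
  rw [h1]
  ext n
  rw [map_add, map_add, PowerSeries.coeff_X_pow_mul', PowerSeries.coeff_C,
    PowerSeries.coeff_C_mul, PowerSeries.coeff_X]
  rcases n with _ | _ | n
  · simp
  · simp
  · simp

theorem um1_neg_expand (F : PowerSeries K) :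
    evalNegHom (F.expand 2 two_ne_zero) = F.expand 2 two_ne_zero := by
  ext n
  rw [evalNegHom, coeff_rescale, coeff_expand]
  split_ifs with h
  · obtain ⟨m, rfl⟩ := h
    rw [pow_mul]
    simp
  · simp

theorem um1_sum (F : PowerSeries K) :
    F + evalNegHom F = 2 * (U 2 F).expand 2 two_ne_zero := by
  have h2 : (2 : PowerSeries K) = C (2 : K) := (map_ofNat C 2).symm
  ext n
  rw [map_add, evalNegHom, coeff_rescale, h2, coeff_C_mul, coeff_expand]
  split_ifs with h
  · obtain ⟨m, rfl⟩ := h
    rw [Nat.mul_div_cancel_left _ two_pos, U, coeff_mk, pow_mul]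
    norm_num
    ring
  · have h3 : Odd n := by
      rw [← Nat.not_even_iff_odd]
      rintro ⟨m, hm⟩
      exact h ⟨m, by omega⟩
    rw [h3.neg_one_pow]
    simp

theorem um1_expand_dvd {F : PowerSeries K} (h : (X : PowerSeries K) ∣ F) :
    (X : PowerSeries K) ^ 2 ∣ F.expand 2 two_ne_zero := by
  obtain ⟨G, rfl⟩ := h
  rw [map_mul, expand_X]
  exact dvd_mul_right _ _

end Aux

/-- `U_2 (G(h)) = ∑ b_i f^i`, `b_i = [T^{2i}] (1+8T)(1+16T)^{i-1} G(T)`. -/
theorem U_subst_hser (hh : HIds K) (G : PowerSeries K) :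
    U 2 (G.subst (hser K)) =
      (PowerSeries.mk fun i ↦ PowerSeries.coeff (2 * i)
        ((1 + C (8 : K) * X) * (1 + C (16 : K) * X) ^ i * (1 + C (16 : K) * X)⁻¹ * G)).subst
        (hauptmodul 2 K) := by
  have hB : (PowerSeries.mk fun i ↦ PowerSeries.coeff (2 * i)
        ((1 + C (8 : K) * X) * (1 + C (16 : K) * X) ^ i * (1 + C (16 : K) * X)⁻¹ * G)) =
      um1B G := rfl
  rw [hB]
  set h := hser K with hhd
  set f := hauptmodul 2 K with hfd
  have h0 : constantCoeff h = 0 := by
    rw [← coeff_zero_eq_constantCoeff_apply]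
    exact hh.c0
  have hs : HasSubst h := HasSubst.of_constantCoeff_zero' h0
  have hf0 : constantCoeff f = 0 := by
    have hf1 : f = h * (1 + 16 * h) := hh.f1
    rw [hf1, map_mul, h0, zero_mul]
  have hfs : HasSubst f := HasSubst.of_constantCoeff_zero' hf0
  have h16 : (16 : PowerSeries K) = C (16 : K) := (map_ofNat C 16).symm
  -- the unit `1 + 16 h`
  have hu : (1 + 16 * h : PowerSeries K) ≠ 0 := by
    intro hz
    have := congrArg constantCoeff hz
    simp [h0] at this
  set L : PowerSeries K → PowerSeries K := fun G ↦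
    subst h G + evalNegHom (subst h G) - 2 * PowerSeries.expand 2 two_ne_zero (subst f (um1B G))
    with hL
  set f2 : PowerSeries K := PowerSeries.expand 2 two_ne_zero f with hf2
  -- `z(h) = f(q²)`
  have hz : subst h (X ^ 2 * (um1u K)⁻¹ : PowerSeries K) = f2 := by
    have e1 : subst h (um1u K) = 1 + 16 * h := by
      rw [um1u, subst_add hs, subst_mul hs, subst_X hs, subst_C, h16]
      rw [← map_one (C (R := K)), subst_C]
      rfl
    have e2 : subst h (X ^ 2 * (um1u K)⁻¹ : PowerSeries K) * (1 + 16 * h) = h ^ 2 := by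
      rw [← e1, ← subst_mul hs]
      have e3 : (X ^ 2 * (um1u K)⁻¹ : PowerSeries K) * um1u K = X ^ 2 := by
        calc _ = X ^ 2 * (um1u K * (um1u K)⁻¹) := by ring
          _ = X ^ 2 := by rw [um1_u_inv, mul_one]
      rw [e3, subst_pow hs, subst_X hs]
    refine mul_right_cancel₀ hu ?_
    rw [e2]
    exact hh.f2.symm
  -- `L (z G) = f(q²) L G`
  have hLz : ∀ G₁ : PowerSeries K, L (X ^ 2 * (um1u K)⁻¹ * G₁) = f2 * L G₁ := by
    intro G₁
    simp only [hL]
    rw [subst_mul hs, hz, map_mul, um1B_z, subst_mul hfs, subst_X hfs, map_mul,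
      um1_neg_expand]
    ring
  -- `L` on the first two terms
  have hLac : ∀ a c : K, L (C a + C c * X) = 0 := by
    intro a c
    simp only [hL]
    have e1 : subst h (C a + C c * X : PowerSeries K) = C a + C c * h := by
      rw [subst_add hs, subst_mul hs, subst_X hs, subst_C, subst_C]
      rfl
    have e2 : subst f (C a + C (8 * c) * X : PowerSeries K) = C a + C (8 * c) * f := by
      rw [subst_add hfs, subst_mul hfs, subst_X hfs, subst_C, subst_C]
      rfl
    have e3 : h + evalNegHom h = 16 * f2 := by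
      refine mul_right_cancel₀ hu ?_
      have e4 := hh.h1
      have e5 := hh.f2
      rw [← hhd] at e4 e5
      rw [← hfd, ← hf2] at e5
      calc (h + evalNegHom h) * (1 + 16 * h) = h * (1 + 16 * h) + evalNegHom h * (1 + 16 * h) := by
            ring
        _ = 16 * h ^ 2 := by rw [e4]; ring
        _ = 16 * f2 * (1 + 16 * h) := by rw [← e5]; ring
    have e6 : ∀ b : K, evalNegHom (C b : PowerSeries K) = C b := by
      intro b
      ext n
      rw [evalNegHom, coeff_rescale, coeff_C]
      split_ifs with hn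
      · rw [hn]
        simp
      · simp
    have e7 : (C (8 * c) : PowerSeries K) = 8 * C c := by
      rw [map_mul, map_ofNat]
    rw [um1B_add, um1B_C, um1B_CX, e1, e2, map_add, map_mul, map_add, map_mul, e6, e6,
      expand_C, expand_C, ← hf2, e7]
    calc C a + C c * h + (C a + C c * evalNegHom h) - 2 * (C a + 8 * C c * f2) =
        C c * ((h + evalNegHom h) - 16 * f2) := by ring
      _ = 0 := by rw [e3, sub_self, mul_zero]
  have hLadd : ∀ G H : PowerSeries K, L (G + H) = L G + L H := by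
    intro G H
    simp only [hL]
    rw [subst_add hs, map_add, um1B_add, subst_add hfs, map_add]
    ring
  have hfX : (X : PowerSeries K) ^ 2 ∣ f2 := um1_expand_dvd (X_dvd_iff.2 hf0)
  have hdvd : ∀ (n : ℕ) (G : PowerSeries K), (X : PowerSeries K) ^ (2 * n) ∣ L G := by
    intro n
    induction n with
    | zero => intro G; simp
    | succ n ih =>
      intro G
      obtain ⟨a, c, G₁, hG⟩ := um1_decomp G
      rw [hG, hLadd, hLac, hLz, zero_add, mul_add, mul_one, pow_add, mul_comm]
      exact mul_dvd_mul hfX (ih G₁)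
  have hL0 : L G = 0 := by
    ext n
    have h1 := hdvd (n + 1) G
    rw [X_pow_dvd_iff] at h1
    rw [h1 n (by omega), map_zero]
  have h2 : (2 : PowerSeries K) * PowerSeries.expand 2 two_ne_zero (U 2 (subst h G)) =
      2 * PowerSeries.expand 2 two_ne_zero (subst f (um1B G)) := by
    rw [← um1_sum]
    exact sub_eq_zero.1 hL0
  have h2' : (2 : PowerSeries K) ≠ 0 := by
    have h3 : (2 : PowerSeries K) = C (2 : K) := (map_ofNat C 2).symm
    rw [h3]
    intro h4
    have h5 := congrArg constantCoeff h4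
    simp at h5
  have h3 := mul_left_cancel₀ h2' h2
  ext n
  have h4 := congrArg (coeff (2 * n)) h3
  rwa [coeff_expand_mul, coeff_expand_mul] at h4

/-- `U_2 (F(q²) G(q)) = F(q) U_2 (G)`. -/
theorem U_expand_mul {R : Type*} [CommRing R] (F G : PowerSeries R) :
    U 2 (F.expand 2 two_ne_zero * G) = F * U 2 G := by
  ext n
  simp only [U, coeff_mk]
  rw [coeff_mul, coeff_mul]
  symm
  refine Finset.sum_of_injOn (fun p ↦ (2 * p.1, 2 * p.2)) ?_ ?_ ?_ ?_
  · intro a _ b _ hab
    simp only [Prod.mk.injEq] at hab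
    exact Prod.ext (by omega) (by omega)
  · intro a ha
    simp only [Finset.mem_coe, Finset.HasAntidiagonal.mem_antidiagonal] at ha ⊢
    omega
  · intro a ha hna
    rw [Finset.HasAntidiagonal.mem_antidiagonal] at ha
    by_cases h : 2 ∣ a.1
    · exfalso
      apply hna
      obtain ⟨m, hm⟩ := h
      refine ⟨(m, n - m), ?_, ?_⟩
      · simp only [Finset.mem_coe, Finset.HasAntidiagonal.mem_antidiagonal]
        omega
      · exact Prod.ext (by simp [hm]) (by simp; omega)
    · rw [coeff_expand_of_not_dvd _ _ _ h, zero_mul]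
  · intro a _
    simp only [coeff_mk]
    rw [coeff_expand_mul]

end GH
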