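import Pool.Agent.GH.Base

open PowerSeries Filter Topology

noncomputable section

namespace GH

/-! The evaluation map `ev` (helper18). -/

theorem zc_norm_iota (a : ℤ_[2]) : ‖iota a‖ = ‖a‖ := by
  show ‖algebraMap ℚ_[2] C2 (a : ℚ_[2])‖ = ‖a‖
  rw [norm_algebraMap']
  rfl

theorem zc_norm_term (w : C2) (F : Lam) (n : ℕ) :
    ‖iota (PowerSeries.coeff n F) * w ^ n‖ ≤ ‖w‖ ^ n := by
  rw [norm_mul, norm_pow, zc_norm_iota]
  exact mul_le_of_le_one_left (by positivity) (PadicInt.norm_le_one _)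

theorem zc_summable_norm {w : C2} (hw : ‖w‖ < 1) (F : Lam) :
    Summable fun n ↦ ‖iota (PowerSeries.coeff n F) * w ^ n‖ :=
  Summable.of_nonneg_of_le (fun _ ↦ norm_nonneg _) (zc_norm_term w F)
    (summable_geometric_of_lt_one (norm_nonneg _) hw)

theorem zc_summable {w : C2} (hw : ‖w‖ < 1) (F : Lam) :
    Summable fun n ↦ iota (PowerSeries.coeff n F) * w ^ n :=
  (zc_summable_norm hw F).of_norm

theorem zc_ev_add {w : C2} (hw : ‖w‖ < 1) (F G : Lam) : ev w (F + G) = ev w F + ev w G := by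
  unfold ev
  rw [← (zc_summable hw F).tsum_add (zc_summable hw G)]
  refine tsum_congr fun n ↦ ?_
  rw [map_add, map_add, add_mul]

theorem zc_ev_mul {w : C2} (hw : ‖w‖ < 1) (F G : Lam) : ev w (F * G) = ev w F * ev w G := by
  unfold ev
  rw [tsum_mul_tsum_eq_tsum_sum_antidiagonal_of_summable_norm (zc_summable_norm hw F)
    (zc_summable_norm hw G)]
  refine tsum_congr fun n ↦ ?_
  rw [PowerSeries.coeff_mul, map_sum, Finset.sum_mul]
  refine Finset.sum_congr rfl fun kl hkl ↦ ?_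
  rw [← Finset.HasAntidiagonal.mem_antidiagonal.1 hkl, map_mul, pow_add]
  ring

theorem zc_ev_C (w : C2) (a : ℤ_[2]) : ev w (PowerSeries.C a) = iota a := by
  unfold ev
  rw [tsum_eq_single 0]
  · simp
  · intro n hn
    rw [PowerSeries.coeff_C, if_neg hn, map_zero, zero_mul]

theorem zc_ev_X (w : C2) : ev w X = w := by
  unfold ev
  rw [tsum_eq_single 1]
  · simp
  · intro n hn
    rw [PowerSeries.coeff_X, if_neg hn, map_zero, zero_mul]

/-- the evaluation as a ring homomorphism -/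
def zc_evHom {w : C2} (hw : ‖w‖ < 1) : Lam →+* C2 where
  toFun := ev w
  map_one' := by
    have h := zc_ev_C w 1
    rwa [map_one, map_one] at h
  map_mul' := zc_ev_mul hw
  map_zero' := by
    have h := zc_ev_C w 0
    rwa [map_zero, map_zero] at h
  map_add' := zc_ev_add hw

theorem zc_norm_ev_le {w : C2} (hw : ‖w‖ < 1) (F : Lam) : ‖ev w F‖ ≤ 1 := by
  unfold ev
  refine (IsUltrametricDist.norm_tsum_le _).trans (ciSup_le fun n ↦ ?_)
  exact (zc_norm_term w F n).trans (pow_le_one₀ (norm_nonneg _) hw.le)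

theorem zc_norm_odd {a : ℕ} (h : Odd a) : ‖(a : ℤ_[2])‖ = 1 := by
  have h1 : ¬ ‖(a : ℤ_[2])‖ < 1 := by
    rw [PadicInt.norm_natCast_lt_one_iff]
    exact h.not_two_dvd_nat
  exact le_antisymm (PadicInt.norm_le_one _) (not_lt.1 h1)

theorem zc_isUnit_odd {a : ℕ} (h : Odd a) : IsUnit (a : ℤ_[2]) :=
  PadicInt.isUnit_iff.2 (zc_norm_odd h)

theorem zc_not_isUnit {a : ℕ} (h : ¬ Odd a) : ¬ IsUnit (a : ℤ_[2]) := by
  rw [PadicInt.isUnit_iff]
  have h1 : ‖(a : ℤ_[2])‖ < 1 := by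
    rw [PadicInt.norm_natCast_lt_one_iff]
    exact (Nat.not_odd_iff_even.1 h).two_dvd
  exact h1.ne

end GH
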