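import Pool.Agent.GH.ZCharA

open PowerSeries Filter Topology

noncomputable section

namespace GH

/-! The powers `5^s`, `s ∈ ℤ_2` (helper18). -/

theorem zc_norm_two : ‖(2 : ℤ_[2])‖ = 1 / 2 := by
  have h : ‖((2 : ℕ) : ℤ_[2])‖ = ((2 : ℕ) : ℝ)⁻¹ := PadicInt.norm_p
  rw [Nat.cast_ofNat, Nat.cast_ofNat] at h
  rw [h]
  norm_num

theorem zc_norm_four : ‖(4 : ℤ_[2])‖ = 1 / 4 := by
  have h : (4 : ℤ_[2]) = 2 * 2 := by norm_num
  rw [h, norm_mul, zc_norm_two]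
  norm_num

theorem zc_four_nilp : Tendsto (fun n : ℕ ↦ (4 : ℤ_[2]) ^ n) atTop (𝓝 0) :=
  tendsto_pow_atTop_nhds_zero_of_norm_lt_one (by rw [zc_norm_four]; norm_num)

/-- `5^s` -/
def E5 : AddChar ℤ_[2] ℤ_[2] := PadicInt.addChar_of_value_at_one (4 : ℤ_[2]) zc_four_nilp

theorem E5_cont : Continuous E5 := PadicInt.continuous_addChar_of_value_at_one zc_four_nilp

theorem E5_one : E5 1 = 5 := by
  unfold E5
  rw [PadicInt.addChar_of_value_at_one_def]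
  norm_num

theorem E5_nat (n : ℕ) : E5 (n : ℤ_[2]) = 5 ^ n := by
  have h := AddChar.map_nsmul_eq_pow E5 n 1
  rw [nsmul_eq_mul, mul_one, E5_one] at h
  exact h

theorem zc_norm_int {z : ℤ} (hz : z ≠ 0) :
    ‖(z : ℤ_[2])‖ = (2 : ℝ) ^ (-(padicValInt 2 z : ℤ)) := by
  rw [PadicInt.norm_intCast_eq_padic_norm, Padic.norm_eq_zpow_neg_valuation (by exact_mod_cast hz),
    Padic.valuation_intCast]
  norm_num

theorem zc_lte (n : ℕ) : ‖((5 : ℤ_[2]) ^ n - 1)‖ = ‖(n : ℤ_[2])‖ * (1 / 4) := by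
  rcases Nat.eq_zero_or_pos n with rfl | hn
  · simp
  have h1 := Int.two_pow_sub_pow' (x := 5) (y := 1) n (by norm_num) (by norm_num)
  rw [one_pow] at h1
  have hne : ((5 : ℤ) ^ n - 1) ≠ 0 := by
    have : (1 : ℤ) < 5 ^ n := one_lt_pow₀ (by norm_num) hn.ne'
    omega
  have hn0 : (n : ℤ) ≠ 0 := by exact_mod_cast hn.ne'
  have e4 : emultiplicity (2 : ℤ) (5 - 1) = 2 := by
    have h4 : (5 - 1 : ℤ) = 2 ^ 2 := by norm_num
    rw [h4]
    exact emultiplicity_pow_self (by norm_num) (by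
      intro h
      have := Int.isUnit_iff.1 h
      omega) 2
  rw [e4] at h1
  have hv1 : (padicValInt 2 ((5 : ℤ) ^ n - 1) : ℕ∞) = emultiplicity (2 : ℤ) ((5 : ℤ) ^ n - 1) := by
    have := padicValInt.of_ne_one_ne_zero (p := 2) (by norm_num) hne
    rw [this]
    exact (FiniteMultiplicity.emultiplicity_eq_multiplicity
      (Int.finiteMultiplicity_iff.2 ⟨by norm_num, hne⟩)).symm
  have hv2 : (padicValInt 2 (n : ℤ) : ℕ∞) = emultiplicity (2 : ℤ) (n : ℤ) := by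
    have := padicValInt.of_ne_one_ne_zero (p := 2) (by norm_num) hn0
    rw [this]
    exact (FiniteMultiplicity.emultiplicity_eq_multiplicity
      (Int.finiteMultiplicity_iff.2 ⟨by norm_num, hn0⟩)).symm
  rw [← hv1, ← hv2] at h1
  have h2 : padicValInt 2 ((5 : ℤ) ^ n - 1) = 2 + padicValInt 2 (n : ℤ) := by exact_mod_cast h1
  have e1 : ((5 : ℤ_[2]) ^ n - 1) = (((5 : ℤ) ^ n - 1 : ℤ) : ℤ_[2]) := by push_cast; rfl
  have e2 : (n : ℤ_[2]) = ((n : ℤ) : ℤ_[2]) := by push_cast; rfl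
  rw [e1, e2, zc_norm_int hne, zc_norm_int hn0, h2]
  push_cast
  rw [neg_add, add_comm, zpow_add₀ (by norm_num)]
  norm_num

theorem zc_E5_norm (s : ℤ_[2]) : ‖E5 s - 1‖ = ‖s‖ * (1 / 4) := by
  have h := PadicInt.denseRange_natCast (p := 2)
  have hc : IsClosed {s : ℤ_[2] | ‖E5 s - 1‖ = ‖s‖ * (1 / 4)} :=
    isClosed_eq ((E5_cont.sub continuous_const).norm) (continuous_norm.mul continuous_const)
  have : ∀ s : ℤ_[2], s ∈ {s : ℤ_[2] | ‖E5 s - 1‖ = ‖s‖ * (1 / 4)} := by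
    intro s
    refine hc.closure_subset_iff.2 ?_ (h s)
    rintro _ ⟨n, rfl⟩
    show ‖E5 (n : ℤ_[2]) - 1‖ = ‖(n : ℤ_[2])‖ * (1 / 4)
    rw [E5_nat]
    exact zc_lte n
  exact this s

theorem zc_E5_mul_neg (s : ℤ_[2]) : E5 s * E5 (-s) = 1 := by
  rw [← AddChar.map_add_eq_mul, add_neg_cancel, AddChar.map_zero_eq_one]

theorem zc_E5_norm_one (s : ℤ_[2]) : ‖E5 s‖ = 1 := by
  refine le_antisymm (PadicInt.norm_le_one _) ?_
  have h := congrArg norm (zc_E5_mul_neg s)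
  rw [norm_mul, norm_one] at h
  have h1 : ‖E5 (-s)‖ ≤ 1 := PadicInt.norm_le_one _
  have h2 : 0 ≤ ‖E5 s‖ := norm_nonneg _
  nlinarith

theorem zc_E5_sub (s t : ℤ_[2]) : ‖E5 s - E5 t‖ = ‖s - t‖ * (1 / 4) := by
  have h : E5 s - E5 t = E5 t * (E5 (s - t) - 1) := by
    rw [mul_sub, ← AddChar.map_add_eq_mul, mul_one, add_sub_cancel]
  rw [h, norm_mul, zc_E5_norm_one, one_mul, zc_E5_norm]

theorem zc_E5_close (s : ℤ_[2]) : ‖E5 s - 1‖ ≤ 1 / 4 := by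
  rw [zc_E5_norm]
  have := PadicInt.norm_le_one s
  linarith

/-- two values of `5^s` are not opposite modulo `4` -/
theorem zc_E5_add (s t : ℤ_[2]) : ‖E5 s + E5 t‖ = 1 / 2 := by
  have e : E5 s + E5 t = ((E5 s - 1) + (E5 t - 1)) + 2 := by ring
  have h1 : ‖(E5 s - 1) + (E5 t - 1)‖ ≤ 1 / 4 :=
    (IsUltrametricDist.norm_add_le_max _ _).trans (max_le (zc_E5_close s) (zc_E5_close t))
  rw [e, IsUltrametricDist.norm_add_eq_max_of_norm_ne_norm, zc_norm_two]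
  · exact max_eq_right (by linarith)
  · rw [zc_norm_two]
    intro h
    rw [h] at h1
    norm_num at h1

theorem zc_le_half {x : ℤ_[2]} (h : ‖x‖ < 1) : ‖x‖ ≤ 1 / 2 := by
  have h1 := (PadicInt.norm_le_pow_iff_norm_lt_pow_add_one x (-1)).2 (by
    rw [neg_add_cancel, zpow_zero]
    exact h)
  rw [zpow_neg_one] at h1
  norm_num at h1 ⊢
  exact h1

theorem zc_lt_half {x : ℤ_[2]} {n : ℕ} (h : ‖x‖ < (1 / 2 : ℝ) ^ n) :
    ‖x‖ ≤ (1 / 2 : ℝ) ^ (n + 1) := by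
  have e : ∀ m : ℕ, (1 / 2 : ℝ) ^ m = ((2 : ℕ) : ℝ) ^ (-(m : ℤ)) := by
    intro m
    rw [zpow_neg, zpow_natCast, one_div, inv_pow]
    norm_num
  rw [e] at h ⊢
  rw [PadicInt.norm_le_pow_iff_norm_lt_pow_add_one]
  have : -((n + 1 : ℕ) : ℤ) + 1 = -(n : ℤ) := by push_cast; ring
  rw [this]
  exact h

/-- sum of two elements of the same norm `2^(-n)` -/
theorem zc_half {x y : ℤ_[2]} {n : ℕ} (hx : ‖x‖ = (1 / 2 : ℝ) ^ n) (hy : ‖y‖ = (1 / 2 : ℝ) ^ n) :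
    ‖x + y‖ ≤ (1 / 2 : ℝ) ^ (n + 1) := by
  have key : ∀ z : ℤ_[2], ‖z‖ = (1 / 2 : ℝ) ^ n → ∃ u : ℤ_[2], ‖u‖ = 1 ∧ z = 2 ^ n * u := by
    intro z hz
    have h1 : ‖z‖ ≤ ((2 : ℕ) : ℝ) ^ (-(n : ℤ)) := by
      rw [hz, zpow_neg, zpow_natCast]
      push_cast
      rw [one_div, inv_pow]
    have h2 := (PadicInt.norm_le_pow_iff_mem_span_pow z n).1 h1
    obtain ⟨u, hu⟩ := Ideal.mem_span_singleton'.1 h2
    refine ⟨u, ?_, ?_⟩
    · have h3 := congrArg norm hu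
      push_cast at h3
      rw [norm_mul, norm_pow, zc_norm_two, hz] at h3
      have h4 : (0 : ℝ) < (1 / 2) ^ n := by positivity
      exact mul_right_cancel₀ h4.ne' (by rw [h3, one_mul])
    · rw [← hu]
      push_cast
      ring
  obtain ⟨u, hu, rfl⟩ := key x hx
  obtain ⟨v, hv, rfl⟩ := key y hy
  have hodd : ∀ u : ℤ_[2], ‖u‖ = 1 → ‖u - 1‖ ≤ 1 / 2 := by
    intro u hu
    obtain ⟨n, hn, h⟩ := PadicInt.exists_mem_range u
    rw [IsLocalRing.mem_maximalIdeal, PadicInt.mem_nonunits] at h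
    interval_cases n
    · rw [Nat.cast_zero, sub_zero, hu] at h
      exact absurd h (lt_irrefl _)
    · rw [Nat.cast_one] at h
      exact zc_le_half h
  have h1 : ‖u + v‖ ≤ 1 / 2 := by
    have e : u + v = ((u - 1) + (v - 1)) + 2 := by ring
    rw [e]
    refine (IsUltrametricDist.norm_add_le_max _ _).trans (max_le ?_ (by rw [zc_norm_two]))
    exact (IsUltrametricDist.norm_add_le_max _ _).trans (max_le (hodd u hu) (hodd v hv))
  rw [← mul_add, norm_mul, norm_pow, zc_norm_two, pow_succ]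
  exact mul_le_mul_of_nonneg_left h1 (by positivity)

/-- surjectivity onto `1 + 4 ℤ_2`, approximate form -/
theorem zc_apx (y : ℤ_[2]) (n : ℕ) :
    ∃ s : ℤ_[2], ‖E5 s - (1 + 4 * y)‖ ≤ (1 / 4) * (1 / 2 : ℝ) ^ n := by
  induction n with
  | zero =>
    refine ⟨0, ?_⟩
    rw [AddChar.map_zero_eq_one, pow_zero, mul_one]
    have e : (1 : ℤ_[2]) - (1 + 4 * y) = -(4 * y) := by ring
    rw [e, norm_neg, norm_mul, zc_norm_four]
    exact mul_le_of_le_one_right (by norm_num) (PadicInt.norm_le_one _)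
  | succ n ih =>
    obtain ⟨s, hs⟩ := ih
    have e2 : (1 / 4 : ℝ) * (1 / 2) ^ n = (1 / 2) ^ (n + 2) := by
      rw [pow_add]; norm_num; ring
    have e3 : (1 / 4 : ℝ) * (1 / 2) ^ (n + 1) = (1 / 2) ^ (n + 2 + 1) := by
      rw [pow_add, pow_add, pow_add]; norm_num; ring
    rw [e2] at hs
    rw [e3]
    rcases lt_or_eq_of_le hs with h | h
    · exact ⟨s, zc_lt_half h⟩
    · refine ⟨s + 2 ^ n, ?_⟩
      have h1 : ‖E5 (s + 2 ^ n) - E5 s‖ = (1 / 2 : ℝ) ^ (n + 2) := by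
        rw [zc_E5_sub, add_sub_cancel_left, norm_pow, zc_norm_two, ← e2]
        ring
      have h2 := zc_half h1 h
      rwa [sub_add_sub_cancel] at h2

theorem zc_surj (y : ℤ_[2]) : ∃ s : ℤ_[2], E5 s = 1 + 4 * y := by
  have hcl : IsClosed (Set.range E5) := (isCompact_range E5_cont).isClosed
  have h : (1 + 4 * y) ∈ closure (Set.range E5) := by
    rw [Metric.mem_closure_iff]
    intro ε hε
    obtain ⟨n, hn⟩ := exists_pow_lt_of_lt_one hε (show (1 / 2 : ℝ) < 1 by norm_num)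
    obtain ⟨s, hs⟩ := zc_apx y n
    refine ⟨E5 s, ⟨s, rfl⟩, ?_⟩
    rw [dist_comm, dist_eq_norm]
    have h0 : (0 : ℝ) < (1 / 2) ^ n := by positivity
    linarith
  rw [hcl.closure_eq] at h
  exact h

theorem zc_exists {a : ℕ} (h : Odd a) : ∃ s : ℤ_[2], E5 s = a ∨ E5 s = -a := by
  have h4 : a % 4 = 1 ∨ a % 4 = 3 := by
    obtain ⟨m, rfl⟩ := h
    omega
  rcases h4 with h4 | h4
  · obtain ⟨s, hs⟩ := zc_surj ((a / 4 : ℕ) : ℤ_[2])
    refine ⟨s, Or.inl ?_⟩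
    rw [hs]
    have : a = 1 + 4 * (a / 4) := by omega
    conv_rhs => rw [this]
    push_cast
    ring
  · obtain ⟨s, hs⟩ := zc_surj (-((a / 4 + 1 : ℕ) : ℤ_[2]))
    refine ⟨s, Or.inr ?_⟩
    rw [hs]
    have : a = 3 + 4 * (a / 4) := by omega
    conv_rhs => rw [this]
    push_cast
    ring

end GH
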